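import Pool.Agent.Lib.MP_d5dfc1_co.Det

namespace Pool.Agent.Lib.MP_d5dfc1_co

theorem geom (S : Set V3) (y B : ℕ → V3) (G : ℕ) (N : V3)
    (hB : ∀ i, B (i + 2) = B i) (hBS : ∀ i, B i ∈ S) (hyS : ∀ i ≤ G + 3, y i ∈ S)
    (hy0 : y 0 = B 0) (hyL : y (G + 3) = B (G + 3))
    (hc : ∀ i, i < G + 2 → Cone S (y (i + 1)) (y i) (y (i + 2)) (B (i + 1)))
    (hint : ∀ x ∈ S, IsInt x) (hbd : ∀ x ∈ S, ∀ k, 0 ≤ x k ∧ x k ≤ N k) :
    ∃ K : ℕ, G + 1 ≤ 12 * K + 12 ∧ (K : ℝ) ^ 6 ≤ 454 ^ 6 * (2 * (6 * (N 0 * N 1 * N 2))) ∧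
      1 ≤ 6 * (N 0 * N 1 * N 2) := by
  have good : ∀ i ≤ G + 1,
      det3 (y i - y (i + 1)) (y (i + 2) - y (i + 1)) (B i - y (i + 1)) = 0 := by
    intro i hi
    induction hi using Nat.decreasingInduction with
    | self =>
      rw [hyL, show G + 1 + 2 = G + 3 from rfl] at *
      rw [show G + 3 = G + 1 + 2 from rfl, hB]
      simp only [det3]; ring
    | of_succ k hk ih =>
      have := good_step (hc k (by omega)) (hc (k + 1) (by omega)) (hyS k (by omega))
        (hyS _ (by omega)) (hBS _) ih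
      rwa [show k + 1 + 1 = k + 2 from rfl, hB] at this
  have par : ∀ k, ∃ τ : ℝ, (τ = 1 ∨ τ = -1) ∧
      ∀ x z, om (B 0) (B 1) x z = τ * om (B k) (B (k + 1)) x z := by
    intro k
    induction k with
    | zero => exact ⟨1, Or.inl rfl, fun x z => by simp⟩
    | succ k ih =>
      obtain ⟨τ, h1, h2⟩ := ih
      refine ⟨-τ, by rcases h1 with rfl | rfl <;> simp, fun x z => ?_⟩
      rw [h2, show k + 1 + 1 = k + 2 from rfl, hB, om_swap (B k) (B (k + 1))]; ring
  have sg : ∀ i ≤ G, ∃ α β : ℝ, 0 < α ∧ 0 ≤ β ∧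
      om (B 0) (B 1) (y i) (y (i + 1)) + om (B 0) (B 1) (y (i + 1)) (y (i + 2))
        - om (B 0) (B 1) (y i) (y (i + 2)) ≠ 0 ∧
      om (B 0) (B 1) (y (i + 1)) (y (i + 2)) = α * (om (B 0) (B 1) (y i) (y (i + 1))
        + om (B 0) (B 1) (y (i + 1)) (y (i + 2)) - om (B 0) (B 1) (y i) (y (i + 2))) ∧
      om (B 0) (B 1) (y i) (y (i + 1)) = β * (om (B 0) (B 1) (y i) (y (i + 1))
        + om (B 0) (B 1) (y (i + 1)) (y (i + 2)) - om (B 0) (B 1) (y i) (y (i + 2))) := by
    intro i hi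
    have h2 := (hc (i + 1) (by omega)).1
    rw [show i + 1 + 1 = i + 2 from rfl, hB] at h2
    obtain ⟨α, β, h1, h2, h3, h4, h5⟩ := sign_step (hc i (by omega)) h2 (hBS i) (good i (by omega))
    obtain ⟨τ, hτ, e⟩ := par i
    refine ⟨α, β, h1, h2, ?_, ?_, ?_⟩
    · simp only [e]
      intro h
      apply h3
      rcases hτ with rfl | rfl <;> linarith
    · simp only [e]; linear_combination τ * h4
    · simp only [e]; linear_combination τ * h5
  obtain ⟨σ, hσ, hσ0⟩ : ∃ σ : ℝ, (σ = 1 ∨ σ = -1) ∧ 0 < σ * om (B 0) (B 1) (y 1) (y 2) := by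
    obtain ⟨α, β, h1, h2, h3, h4, h5⟩ := sg 0 (by omega)
    have : om (B 0) (B 1) (y 1) (y 2) ≠ 0 := by
      simp only [zero_add] at h3 h4
      rw [h4]; exact mul_ne_zero h1.ne' h3
    rcases lt_or_gt_of_ne this with h | h
    · exact ⟨-1, Or.inr rfl, by linarith⟩
    · exact ⟨1, Or.inl rfl, by linarith⟩
  set W : ℕ → ℕ → ℝ := fun i j => σ * om (B 0) (B 1) (y (i + 1)) (y (j + 1)) with hW
  have step : ∀ i < G, 0 < W i (i + 1) →
      0 < W i (i + 1) + W (i + 1) (i + 2) - W i (i + 2) ∧ 0 < W (i + 1) (i + 2) := by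
    intro i hi h
    obtain ⟨α, β, h1, h2, -, h4, h5⟩ := sg (i + 1) hi
    have e4 : W (i + 1) (i + 2) = α * (W i (i + 1) + W (i + 1) (i + 2) - W i (i + 2)) := by
      simp only [hW]; linear_combination σ * h4
    have e5 : W i (i + 1) = β * (W i (i + 1) + W (i + 1) (i + 2) - W i (i + 2)) := by
      simp only [hW]; linear_combination σ * h5
    have : 0 < W i (i + 1) + W (i + 1) (i + 2) - W i (i + 2) := by
      by_contra hc
      push Not at hc
      have := mul_nonpos_of_nonneg_of_nonpos h2 hc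
      linarith
    exact ⟨this, by rw [e4]; positivity⟩
  have Dpos : ∀ i ≤ G, 0 < W i (i + 1) := by
    intro i
    induction i with
    | zero => intro _; exact hσ0
    | succ k ih => intro hk; exact (step k hk (ih (by omega))).2
  have Wint : ∀ i ≤ G + 1, ∀ j ≤ G + 1, ∃ n : ℤ, W i j = n := by
    intro i hi j hj
    obtain ⟨n, hn⟩ := IsInt.det3 ((hint _ (hBS 1)).sub (hint _ (hBS 0)))
      ((hint _ (hyS (i + 1) (by omega))).sub (hint _ (hBS 0)))
      ((hint _ (hyS (j + 1) (by omega))).sub (hint _ (hBS 0)))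
    rcases hσ with rfl | rfl
    · exact ⟨n, by simp [hW, om, hn]⟩
    · exact ⟨-n, by simp [hW, om, hn]⟩
  have D1 : ∀ i ≤ G, 1 ≤ W i (i + 1) := fun i hi => by
    have := one_le_abs_of_int (Wint i (by omega) (i + 1) (by omega)) (Dpos i hi).ne'
    rwa [abs_of_pos (Dpos i hi)] at this
  have sb : ∀ x ∈ S, ∀ z ∈ S, ∀ k, |(x - z) k| ≤ N k := fun x hx z hz k => by
    have := hbd x hx k; have := hbd z hz k
    rw [Pi.sub_apply, abs_le]; constructor <;> linarith
  have Wbd : ∀ i j, i ≤ G + 1 → j ≤ G + 1 → |W i j| ≤ 6 * (N 0 * N 1 * N 2) := by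
    intro i j hi hj
    have := det_bd (sb _ (hBS 1) _ (hBS 0)) (sb _ (hyS (i + 1) (by omega)) _ (hBS 0))
      (sb _ (hyS (j + 1) (by omega)) _ (hBS 0))
    rcases hσ with rfl | rfl <;> simpa [hW, om] using this
  have ch : Chain W (G + 1) (6 * (N 0 * N 1 * N 2)) :=
    { diag := fun i => by simp [hW, om_diag]
      pl := fun i j k l => by
        simp only [hW]
        linear_combination σ ^ 2 * om_pl (B 0) (B 1) (y (i + 1)) (y (j + 1)) (y (k + 1)) (y (l + 1))
      hD := fun i j h1 h2 => by subst h1; exact D1 i (by omega)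
      hE := fun i j k h1 h2 h3 => by
        subst h1; subst h2; exact (step i (by omega) (Dpos i (by omega))).1
      bd := Wbd
      key := by
        rintro i _ _ _ _ _ _ rfl rfl rfl rfl rfl rfl hi hS
        obtain ⟨τ, hτ, e⟩ := par (i + 1)
        have hS' : om (B (i + 1)) (B (i + 1 + 1)) (y (i + 1 + 1 + 1)) (y (i + 1 + 1 + 1 + 1 + 1)) ≠ 0 := by
          intro h
          simp only [hW, e, h, mul_zero] at hS
          exact lt_irrefl _ hS
        have g3 := good (i + 1 + 1 + 1) (by omega)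
        have g4 := good (i + 1 + 1 + 1 + 1) (by omega)
        have g5 := good (i + 1 + 1 + 1 + 1 + 1) (by omega)
        rw [show B (i + 1 + 1 + 1) = B (i + 1) from hB _] at g3
        rw [show B (i + 1 + 1 + 1 + 1) = B (i + 1 + 1) from hB _] at g4
        rw [show B (i + 1 + 1 + 1 + 1 + 1) = B (i + 1) from (hB _).trans (hB _)] at g5
        obtain ⟨n, hn⟩ := key_om (hint _ (hyS _ (by omega))) (hint _ (hyS _ (by omega)))
          (hint _ (hyS _ (by omega))) (hint _ (hyS _ (by omega))) (hint _ (hyS _ (by omega)))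
          (hint _ (hyS _ (by omega))) (hint _ (hyS _ (by omega)))
          (good (i + 1) (by omega)) (good (i + 1 + 1) (by omega)) g3 g4 g5 hS'
        have hn' : n * (W (i + 1) (i + 1 + 1) * W (i + 1 + 1) (i + 1 + 1 + 1) *
            W (i + 1 + 1 + 1) (i + 1 + 1 + 1 + 1) * W (i + 1 + 1 + 1 + 1) (i + 1 + 1 + 1 + 1 + 1)) =
            -((W i (i + 1) + W (i + 1) (i + 1 + 1) - W i (i + 1 + 1)) *
              (W (i + 1) (i + 1 + 1) + W (i + 1 + 1) (i + 1 + 1 + 1) - W (i + 1) (i + 1 + 1 + 1)) *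
              (W (i + 1 + 1) (i + 1 + 1 + 1) + W (i + 1 + 1 + 1) (i + 1 + 1 + 1 + 1)
                - W (i + 1 + 1) (i + 1 + 1 + 1 + 1)) *
              (W (i + 1 + 1 + 1) (i + 1 + 1 + 1 + 1)
                + W (i + 1 + 1 + 1 + 1) (i + 1 + 1 + 1 + 1 + 1)
                - W (i + 1 + 1 + 1) (i + 1 + 1 + 1 + 1 + 1)) *
              (W (i + 1 + 1 + 1 + 1) (i + 1 + 1 + 1 + 1 + 1)
                + W (i + 1 + 1 + 1 + 1 + 1) (i + 1 + 1 + 1 + 1 + 1 + 1)
                - W (i + 1 + 1 + 1 + 1) (i + 1 + 1 + 1 + 1 + 1 + 1)) *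
              W (i + 1 + 1) (i + 1 + 1 + 1 + 1)) := by
          simp only [hW, e]
          generalize om (B (i + 1)) (B (i + 1 + 1)) = o at hn ⊢
          rcases hσ with rfl | rfl <;> rcases hτ with rfl | rfl <;> linear_combination hn
        have p1 := Dpos (i + 1) (by omega)
        have p2 := Dpos (i + 1 + 1) (by omega)
        have p3 := Dpos (i + 1 + 1 + 1) (by omega)
        have p4 := Dpos (i + 1 + 1 + 1 + 1) (by omega)
        have q1 := (step i (by omega) (Dpos _ (by omega))).1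
        have q2 := (step (i + 1) (by omega) p1).1
        have q3 := (step (i + 1 + 1) (by omega) p2).1
        have q4 := (step (i + 1 + 1 + 1) (by omega) p3).1
        have q5 := (step (i + 1 + 1 + 1 + 1) (by omega) p4).1
        have P := mul_pos (mul_pos (mul_pos p1 p2) p3) p4
        have Q := mul_pos (mul_pos (mul_pos (mul_pos (mul_pos q1 q2) q3) q4) q5) hS
        have hneg : (n : ℝ) < 0 := by
          by_contra hc
          push Not at hc
          have := mul_nonneg hc P.le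
          linarith
        have hneg' : (n : ℝ) ≤ -1 := by
          have : n < 0 := by exact_mod_cast hneg
          have : n ≤ -1 := by omega
          exact_mod_cast this
        have := mul_le_mul_of_nonneg_right hneg' P.le
        linarith }
  have hz : ∀ k ≤ G + 1, 0 ≤ W 0 k := by
    intro k hk
    obtain ⟨α, β, γ, -, hβ, -, e⟩ := (hc 0 (by omega)).2 (y (k + 1)) (hyS _ (by omega))
    have : W 0 k = β * W 0 1 := by
      simp only [hW, om, det3, Pi.sub_apply, e, hy0]; ring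
    rw [this]; exact mul_nonneg hβ (Dpos 0 (by omega)).le
  have hz' : ∀ k ≤ G + 1, 0 ≤ W k (G + 1) := by
    intro k hk
    obtain ⟨α, β, γ, hα, -, -, e⟩ := (hc (G + 1) (by omega)).2 (y (k + 1)) (hyS _ (by omega))
    obtain ⟨τ, -, e'⟩ := par (G + 1 + 1)
    have : W k (G + 1) = α * W G (G + 1) := by
      have hyL' : y (G + 1 + 2) = B (G + 1 + 1 + 1) := hyL
      simp only [hW, e']
      simp only [om, det3, Pi.sub_apply, e, hyL']; ring
    rw [this]; exact mul_nonneg hα (Dpos G le_rfl).le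
  obtain ⟨K, h1, h2⟩ := chain_bound ch (by omega) hz hz'
  exact ⟨K, h1, h2, (D1 0 (by omega)).trans ((le_abs_self _).trans (Wbd 0 _ (by omega) (by omega)))⟩

end Pool.Agent.Lib.MP_d5dfc1_co
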