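import Pool.Agent.Lib.MP_d5dfc1_co.Poly
import Pool.Agent.Lib.MP_d5dfc1_co.Geom

namespace Pool.Agent.Lib.MP_d5dfc1_co

open Set

lemma convexIndependent_of_vec {ι : Type*} {p : ι → V3}
    (h : ∀ i, ∃ c : V3, ∀ j, j ≠ i → dot c (p j) < dot c (p i)) : ConvexIndependent ℝ p := by
  intro s x hx
  by_contra hxs
  obtain ⟨c, hc⟩ := h x
  have : convexHull ℝ (p '' s) ⊆ {z | dotL c z < dot c (p x)} := by
    apply convexHull_min
    · rintro _ ⟨j, hj, rfl⟩
      simp only [mem_ofPred_eq, dotL_apply]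
      exact hc j (by rintro rfl; exact hxs hj)
    · exact convex_halfSpace_lt (dotL c).isLinear _
  have := this hx
  simp only [mem_ofPred_eq, dotL_apply] at this
  exact lt_irrefl _ this

def ev (k : ℕ) : ℝ := if Even k then 1 else 0

lemma ev_succ (k : ℕ) : ev (k + 1) = 1 - ev k := by
  unfold ev
  by_cases h : Even k <;> simp [h, Nat.even_add_one]

lemma ev_nonneg (k : ℕ) : 0 ≤ ev k := by unfold ev; split_ifs <;> norm_num
lemma ev_le (k : ℕ) : ev k ≤ 1 := by unfold ev; split_ifs <;> norm_num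

/-- the model polytope -/
noncomputable def P (G k : ℕ) : V3 :=
  if k = 0 then ![0, 0, 1] else if k = G + 3 then ![0, 1, 0] else
    ![k / (2 * k ^ 2 + 2), (k ^ 2 + 1 - ev k) / (2 * k ^ 2 + 2), (k ^ 2 + ev k) / (2 * k ^ 2 + 2)]

def phi (c : V3) (r : ℝ) (k : ℕ) : ℝ :=
  -r + c 0 * k + (c 1 - r) * (k ^ 2 + 1 - ev k) + (c 2 - r) * (k ^ 2 + ev k)

lemma dot_a (G : ℕ) (c : V3) : dot c (P G 0) = c 2 := by simp [P, dot]
lemma dot_b (G : ℕ) (c : V3) : dot c (P G (G + 3)) = c 1 := by simp [P, dot]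

lemma dot_k {G k : ℕ} (h0 : k ≠ 0) (h1 : k ≠ G + 3) (c : V3) (r : ℝ) :
    dot c (P G k) - r = phi c r k / (2 * k ^ 2 + 2) := by
  have : (2 * (k : ℝ) ^ 2 + 2) ≠ 0 := by positivity
  simp only [P, h0, h1, if_false, dot, phi, Matrix.cons_val_zero, Matrix.cons_val_one,
    Matrix.cons_val]
  field_simp
  ring

lemma phi_neg {G k : ℕ} (h0 : k ≠ 0) (h1 : k ≠ G + 3) (c : V3) (r : ℝ) :
    dot c (P G k) < r ↔ phi c r k < 0 := by
  have : 0 < (2 * (k : ℝ) ^ 2 + 2) := by positivity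
  rw [← sub_neg, dot_k h0 h1, div_neg_iff]
  constructor
  · rintro (⟨-, h⟩ | ⟨h, -⟩)
    · linarith
    · exact h
  · exact fun h => Or.inr ⟨h, this⟩

lemma phi_zero {G k : ℕ} (h0 : k ≠ 0) (h1 : k ≠ G + 3) (c : V3) (r : ℝ) :
    dot c (P G k) = r ↔ phi c r k = 0 := by
  have : (2 * (k : ℝ) ^ 2 + 2) ≠ 0 := by positivity
  rw [← sub_eq_zero, dot_k h0 h1, div_eq_zero_iff]
  simp [this]

lemma P_ci (G : ℕ) : ConvexIndependent ℝ (fun k : Fin (G + 4) => P G k) := by
  apply convexIndependent_of_vec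
  intro i
  by_cases h0 : (i : ℕ) = 0
  · refine ⟨![0, 0, 1], fun j hj => ?_⟩
    have hj0 : (j : ℕ) ≠ 0 := fun h => hj (Fin.ext (by rw [h, h0]))
    rw [h0, dot_a]
    by_cases h1 : (j : ℕ) = G + 3
    · rw [h1, dot_b]; simp
    · rw [phi_neg hj0 h1]
      have := ev_le j
      simp [phi]; nlinarith [sq_nonneg (j : ℝ)]
  by_cases h1 : (i : ℕ) = G + 3
  · refine ⟨![0, 1, 0], fun j hj => ?_⟩
    have hj1 : (j : ℕ) ≠ G + 3 := fun h => hj (Fin.ext (by rw [h, h1]))
    rw [h1, dot_b]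
    by_cases hj0 : (j : ℕ) = 0
    · rw [hj0, dot_a]; simp
    · rw [phi_neg hj0 hj1]
      have := ev_nonneg j
      simp [phi]; nlinarith [sq_nonneg (j : ℝ)]
  · set t : ℝ := ((i : ℕ) : ℝ) with ht
    have hφ : ∀ k : ℕ, phi ![4 * t, 2 * t ^ 2 - 2, 2 * t ^ 2 - 2] (2 * t ^ 2 - 1) k
        = -2 * (k - t) ^ 2 := fun k => by simp [phi]; ring
    refine ⟨![4 * t, 2 * t ^ 2 - 2, 2 * t ^ 2 - 2], fun j hj => ?_⟩
    rw [(phi_zero h0 h1 _ (2 * t ^ 2 - 1)).2 (by rw [hφ, ht]; ring)]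
    by_cases hj0 : (j : ℕ) = 0
    · rw [hj0, dot_a]; simp
    by_cases hj1 : (j : ℕ) = G + 3
    · rw [hj1, dot_b]; simp
    rw [phi_neg hj0 hj1, hφ]
    have : ((j : ℕ) : ℝ) - t ≠ 0 := by
      rw [sub_ne_zero, ht]
      exact fun h => hj (Fin.ext (by exact_mod_cast h))
    have := pow_pos (abs_pos.2 this) 2
    rw [sq_abs] at this
    linarith

lemma P_span (G : ℕ) : affineSpan ℝ (range fun k : Fin (G + 4) => P G k) = ⊤ := by
  apply span_of_vec
  intro c r h
  have ha := h ⟨0, by omega⟩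
  have hb := h ⟨G + 3, by omega⟩
  have h1 := h ⟨1, by omega⟩
  have h2 := h ⟨2, by omega⟩
  simp only at ha hb h1 h2
  rw [dot_a] at ha
  rw [dot_b] at hb
  rw [phi_zero (by omega) (by omega)] at h1 h2
  simp only [phi, ha, hb] at h1 h2
  push_cast at h1 h2
  ext k
  fin_cases k <;> simp <;> linarith

lemma far {c : V3} {r : ℝ} {i L : ℕ} (hL : 2 ≤ L) (g : c 1 < r) (d : c 2 < r)
    (h1 : phi c r i = 0) (h2 : phi c r (i + L) = 0) : 0 ≤ phi c r (i + 1) := by
  have hL' : (2 : ℝ) ≤ L := by exact_mod_cast hL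
  have e : L * phi c r (i + 1) = (L - 1) * phi c r i + phi c r (i + L)
      + (r - c 1) * (L ^ 2 - L - (L * (1 - ev (i + 1)) - (L - 1) * (1 - ev i) - (1 - ev (i + L))))
      + (r - c 2) * (L ^ 2 - L - (L * ev (i + 1) - (L - 1) * ev i - ev (i + L))) := by
    simp only [phi]; push_cast; ring
  have a1 := ev_nonneg i; have a2 := ev_le i
  have a3 := ev_nonneg (i + 1); have a4 := ev_le (i + 1)
  have a5 := ev_nonneg (i + L); have a6 := ev_le (i + L)
  have b1 : 0 ≤ (L : ℝ) ^ 2 - L - (L * (1 - ev (i + 1)) - (L - 1) * (1 - ev i) - (1 - ev (i + L))) := by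
    nlinarith
  have b2 : 0 ≤ (L : ℝ) ^ 2 - L - (L * ev (i + 1) - (L - 1) * ev i - ev (i + L)) := by
    nlinarith
  rw [h1, h2] at e
  have := mul_nonneg (sub_pos.2 g).le b1
  have := mul_nonneg (sub_pos.2 d).le b2
  have : 0 ≤ L * phi c r (i + 1) := by linarith
  exact nonneg_of_mul_nonneg_right this (by linarith)

def iB (G t : ℕ) : ℕ := if Even t then 0 else G + 3
def iy (G t : ℕ) : ℕ := if t ≤ G + 2 then t else iB G t

lemma iB_lt (G t : ℕ) : iB G t < G + 4 := by unfold iB; split_ifs <;> omega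
lemma iy_lt (G t : ℕ) : iy G t < G + 4 := by
  unfold iy; split_ifs
  · omega
  · exact iB_lt G t

lemma P_nbr (G t j : ℕ) (ht : t < G + 2) (hj : j < G + 4) (hne : j ≠ t + 1) (c : V3)
    (h1 : dot c (P G (t + 1)) = dot c (P G j))
    (h2 : ∀ k < G + 4, k ≠ t + 1 → k ≠ j → dot c (P G k) < dot c (P G (t + 1))) :
    j = iy G t ∨ j = iy G (t + 2) ∨ j = iB G (t + 1) := by
  set r := dot c (P G (t + 1)) with hr
  have z : phi c r (t + 1) = 0 := (phi_zero (G := G) (by omega) (by omega) c r).1 rfl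
  have ng : ∀ k, k ≠ 0 → k < G + 3 → k ≠ t + 1 → k ≠ j → phi c r k < 0 := fun k a b d e =>
    (phi_neg (G := G) a (by omega) c r).1 (h2 k (by omega) d e)
  by_contra hc
  push Not at hc
  obtain ⟨n1, n2, n3⟩ := hc
  have e1 := ev_succ t
  have e2 := ev_succ (t + 1)
  rw [iy, if_pos (by omega)] at n1
  by_cases hj0 : j = 0
  · subst hj0
    rw [dot_a] at h1
    have hev : Even t := by
      by_contra h
      exact n3 (by simp [iB, Nat.even_add_one, h])
    have ht2 : t + 2 ≤ G + 2 := by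
      by_contra h
      exact n2 (by simp [iy, iB, h, Nat.even_add, hev])
    have a := ng t (by omega) (by omega) (by omega) (by omega)
    have b := ng (t + 2) (by omega) (by omega) (by omega) (by omega)
    have ev1 : ev t = 1 := by simp [ev, hev]
    have : phi c r t + phi c r (t + 2) = 2 * phi c r (t + 1) := by
      simp only [phi, show t + 2 = t + 1 + 1 from rfl, e2, e1, ev1, ← h1]; push_cast; ring
    linarith
  by_cases hj1 : j = G + 3
  · subst hj1
    rw [dot_b] at h1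
    have hev : ¬ Even t := by
      intro h
      exact n3 (by simp [iB, Nat.even_add_one, h])
    have ht2 : t + 2 ≤ G + 2 := by
      by_contra h
      exact n2 (by simp [iy, iB, h, Nat.even_add, hev])
    have ht0 : t ≠ 0 := by rintro rfl; simp at hev
    have a := ng t ht0 (by omega) (by omega) (by omega)
    have b := ng (t + 2) (by omega) (by omega) (by omega) (by omega)
    have ev1 : ev t = 0 := by simp [ev, hev]
    have : phi c r t + phi c r (t + 2) = 2 * phi c r (t + 1) := by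
      simp only [phi, show t + 2 = t + 1 + 1 from rfl, e2, e1, ev1, ← h1]; push_cast; ring
    linarith
  have g : c 1 < r := by
    have := h2 (G + 3) (by omega) (by omega) (Ne.symm hj1)
    rwa [dot_b] at this
  have d : c 2 < r := by
    have := h2 0 (by omega) (by omega) (Ne.symm hj0)
    rwa [dot_a] at this
  have zj : phi c r j = 0 := (phi_zero (G := G) hj0 hj1 c r).1 h1.symm
  rcases lt_or_gt_of_ne hne with h | h
  · obtain ⟨L, hL⟩ : ∃ L, t + 1 = j + L := ⟨t + 1 - j, by omega⟩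
    have := far (L := L) (by omega) g d zj (hL ▸ z)
    have := ng (j + 1) (by omega) (by omega) (by omega) (by omega)
    linarith
  · have n2' : j ≠ t + 2 := by
      rintro rfl
      exact n2 (by rw [iy, if_pos (by omega)])
    obtain ⟨L, hL⟩ : ∃ L, j = t + 1 + L := ⟨j - (t + 1), by omega⟩
    have := far (L := L) (by omega) g d z (hL ▸ zj)
    have := ng (t + 1 + 1) (by omega) (by omega) (by omega) (by omega)
    linarith

lemma P_edge (G : ℕ) (j : Fin (G + 4)) (hj : (j : ℕ) = 0 ∨ (j : ℕ) = G + 3 ∨ (j : ℕ) = 2) :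
    IsExposed ℝ (convexHull ℝ (range fun k : Fin (G + 4) => P G k))
      (segment ℝ (P G 1) (P G j)) := by
  have ev1 : ev 1 = 0 := by simp [ev]
  have two : ∀ k : Fin (G + 4), k ≠ ⟨1, by omega⟩ → (k : ℕ) ≠ 0 → (2 : ℝ) ≤ (k : ℕ) := by
    intro k h1 h0
    have : (k : ℕ) ≠ 1 := fun h => h1 (Fin.ext h)
    have : 2 ≤ (k : ℕ) := by omega
    exact_mod_cast this
  rcases hj with h | h | h
  · have r : dot ![0, -3, -2] (P G 1) = -2 := by
      rw [phi_zero (by omega) (by omega)]; simp [phi, ev1]; norm_num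
    refine exposed_of_vec (p := fun k : Fin (G + 4) => P G k) (i := ⟨1, by omega⟩) ![0, -3, -2]
      (by simp only [r, h, dot_a]; simp) fun k k1 kj => ?_
    have k0 : (k : ℕ) ≠ 0 := fun e => kj (Fin.ext (by rw [e, h]))
    simp only [r]
    by_cases k3 : (k : ℕ) = G + 3
    · rw [k3, dot_b]; simp; norm_num
    · rw [phi_neg k0 k3]
      have := two k k1 k0; have := ev_le k
      simp [phi]; nlinarith
  · have r : dot ![0, -1, -2] (P G 1) = -1 := by
      rw [phi_zero (by omega) (by omega)]; simp [phi, ev1]; norm_num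
    refine exposed_of_vec (p := fun k : Fin (G + 4) => P G k) (i := ⟨1, by omega⟩) ![0, -1, -2]
      (by simp only [r, h, dot_b]; simp) fun k k1 kj => ?_
    have k3 : (k : ℕ) ≠ G + 3 := fun e => kj (Fin.ext (by rw [e, h]))
    simp only [r]
    by_cases k0 : (k : ℕ) = 0
    · rw [k0, dot_a]; simp
    · rw [phi_neg k0 k3]
      have := two k k1 k0; have := ev_nonneg k
      simp [phi]; nlinarith
  · have hφ : ∀ k : ℕ, phi ![6, 2, 2] 3 k = -2 * (k - 1) * (k - 2) := fun k => by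
      simp [phi]; ring
    have r : dot ![6, 2, 2] (P G 1) = 3 := by
      rw [phi_zero (by omega) (by omega), hφ]; simp
    have r2 : dot ![6, 2, 2] (P G 2) = 3 := by
      rw [phi_zero (by omega) (by omega), hφ]; simp
    refine exposed_of_vec (p := fun k : Fin (G + 4) => P G k) (i := ⟨1, by omega⟩) ![6, 2, 2]
      (by simp only [r, h, r2]) fun k k1 kj => ?_
    simp only [r]
    by_cases k0 : (k : ℕ) = 0
    · rw [k0, dot_a]; simp; norm_num
    by_cases k3 : (k : ℕ) = G + 3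
    · rw [k3, dot_b]; simp; norm_num
    rw [phi_neg k0 k3, hφ]
    have k1' : (k : ℕ) ≠ 1 := fun h => k1 (Fin.ext h)
    have k2 : (k : ℕ) ≠ 2 := fun e => kj (Fin.ext (by rw [e, h]))
    have : 3 ≤ (k : ℕ) := by omega
    have : (3 : ℝ) ≤ (k : ℕ) := by exact_mod_cast this
    nlinarith

/-- The lower bound for every realisation of the graph of the model polytope. -/
theorem main (G : ℕ) (N : V3) (p : Fin (G + 4) → V3) (hp : ConvexIndependent ℝ p)
    (he : ∀ i j, i ≠ j → (IsExposed ℝ (convexHull ℝ (range p)) (segment ℝ (p i) (p j)) ↔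
      IsExposed ℝ (convexHull ℝ (range fun k : Fin (G + 4) => P G k))
        (segment ℝ (P G i) (P G j))))
    (hint : ∀ i, IsInt (p i)) (hbd : ∀ i k, 0 ≤ p i k ∧ p i k ≤ N k) :
    ((G : ℝ) + 4) ^ 6 ≤ 10 ^ 26 * (N 0 * N 1 * N 2) := by
  have hs : affineSpan ℝ (range p) = ⊤ :=
    span_of_edges hp ⟨1, by omega⟩ ⟨0, by omega⟩ ⟨G + 3, by omega⟩ ⟨2, by omega⟩
      (by simp) (by simp) (by simp) (by simp) (by simp) (by simp)
      ((he _ _ (by simp)).2 (P_edge G _ (by simp)))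
      ((he _ _ (by simp)).2 (P_edge G _ (by simp)))
      ((he _ _ (by simp)).2 (P_edge G _ (by simp)))
  set x : ∀ k : ℕ, k < G + 4 → V3 := fun k hk => p ⟨k, hk⟩ with hx
  have xc : ∀ k k' hk hk', k = k' → x k hk = x k' hk' := by rintro _ _ _ _ rfl; rfl
  obtain ⟨K, h1, h2, h3⟩ := geom (range p) (fun t => x (iy G t) (iy_lt G t))
    (fun t => x (iB G t) (iB_lt G t)) G N
    (fun i => xc _ _ _ _ (by simp [iB, Nat.even_add])) (fun i => mem_range_self _)
    (fun i _ => mem_range_self _) (xc _ _ _ _ (by simp [iy, iB])) (xc _ _ _ _ (by simp [iy]))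
    (fun t ht => by
      have e1 : iy G (t + 1) = t + 1 := by rw [iy, if_pos (by omega)]
      apply cone_of_nbrs hp hs
      intro j hj hexp
      have h := (he _ _ hj.symm).1 hexp
      obtain ⟨c, c1, c2⟩ := vec_of_exposed (P_ci G) h
      simp only [e1] at c1 c2
      have hne : (j : ℕ) ≠ t + 1 := fun h => hj (Fin.ext (by simp [h, e1]))
      have := P_nbr G t j ht j.2 hne c c1 (fun k hk a b =>
        c2 ⟨k, hk⟩ (fun h => a (by simpa [e1] using congrArg Fin.val h))
          (fun h => b (by simpa using congrArg Fin.val h)))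
      simpa only [Fin.ext_iff] using this)
    (by rintro _ ⟨i, rfl⟩; exact hint i) (by rintro _ ⟨i, rfl⟩; exact hbd i)
  rcases Nat.eq_zero_or_pos K with rfl | hK
  · have h1' : (G : ℝ) + 4 ≤ 15 := by
      have : G + 4 ≤ 15 := by omega
      exact_mod_cast this
    have : ((G : ℝ) + 4) ^ 6 ≤ 15 ^ 6 := pow_le_pow_left₀ (by positivity) h1' 6
    linarith
  · have h1' : (G : ℝ) + 4 ≤ 27 * K := by
      have : G + 4 ≤ 27 * K := by omega
      exact_mod_cast this
    have : ((G : ℝ) + 4) ^ 6 ≤ (27 * K) ^ 6 := pow_le_pow_left₀ (by positivity) h1' 6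
    rw [mul_pow] at this
    linarith

end Pool.Agent.Lib.MP_d5dfc1_co
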