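import Pool.Agent.Lib.MP_d5dfc1_co.Seq

namespace Pool.Agent.Lib.MP_d5dfc1_co

abbrev V3 := Fin 3 → ℝ

def det3 (x y z : V3) : ℝ :=
  x 0 * (y 1 * z 2 - y 2 * z 1) - x 1 * (y 0 * z 2 - y 2 * z 0) + x 2 * (y 0 * z 1 - y 1 * z 0)

def dot (x y : V3) : ℝ := x 0 * y 0 + x 1 * y 1 + x 2 * y 2

def cross (x y : V3) : V3 := ![x 1 * y 2 - x 2 * y 1, x 2 * y 0 - x 0 * y 2, x 0 * y 1 - x 1 * y 0]

lemma dot_cross (x y z : V3) : dot (cross x y) z = det3 x y z := by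
  simp [dot, cross, det3]; ring

/-- `x` is a simple vertex of `S` with the three edges to `y1, y2, y3`. -/
def Cone (S : Set V3) (x y1 y2 y3 : V3) : Prop :=
  det3 (y1 - x) (y2 - x) (y3 - x) ≠ 0 ∧
    ∀ z ∈ S, ∃ α β γ : ℝ, 0 ≤ α ∧ 0 ≤ β ∧ 0 ≤ γ ∧
      ∀ k, z k = x k + α * (y1 k - x k) + β * (y2 k - x k) + γ * (y3 k - x k)

/-- determinant after projecting along `b - a`, seen from `a`. -/
def om (a b x y : V3) : ℝ := det3 (b - a) (x - a) (y - a)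

lemma om_swap (a b x y : V3) : om b a x y = - om a b x y := by
  simp [om, det3]; ring

lemma om_diag (a b x : V3) : om a b x x = 0 := by
  simp [om, det3]; ring

lemma om_pl (a b x y z u : V3) :
    om a b x y * om a b z u - om a b x z * om a b y u + om a b x u * om a b y z = 0 := by
  simp only [om, det3, Pi.sub_apply]; ring

/-- coplanarity step -/
lemma good_step {S : Set V3} {x0 x1 x2 x3 A B : V3} (h1 : Cone S x1 x0 x2 B)
    (h2 : Cone S x2 x1 x3 A) (m0 : x0 ∈ S) (m3 : x3 ∈ S) (mA : A ∈ S)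
    (hg : det3 (x1 - x2) (x3 - x2) (B - x2) = 0) :
    det3 (x0 - x1) (x2 - x1) (A - x1) = 0 := by
  obtain ⟨hΔ, c1⟩ := h1
  obtain ⟨hΔ2, c2⟩ := h2
  obtain ⟨α, β, γ, hα, hβ, hγ, e⟩ := c2 x0 m0
  obtain ⟨α3, β3, γ3, -, -, hγ3, e3⟩ := c1 x3 m3
  obtain ⟨αA, βA, γA, -, -, hγA, eA⟩ := c1 A mA
  set Δ := det3 (x0 - x1) (x2 - x1) (B - x1) with hΔdef
  have f3 : det3 (x0 - x1) (x2 - x1) (x3 - x1) = γ3 * Δ := by
    simp only [hΔdef, det3, Pi.sub_apply, e3]; ring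
  have fA : det3 (x0 - x1) (x2 - x1) (A - x1) = γA * Δ := by
    simp only [hΔdef, det3, Pi.sub_apply, eA]; ring
  have f0 : β * det3 (x0 - x1) (x2 - x1) (x3 - x1) + γ * det3 (x0 - x1) (x2 - x1) (A - x1) = 0 := by
    simp only [det3, Pi.sub_apply]
    rw [e 0, e 1, e 2]; ring
  have fB : Δ = γ * det3 (A - x2) (x2 - x1) (B - x2) + β * det3 (x1 - x2) (x3 - x2) (B - x2) := by
    simp only [hΔdef, det3, Pi.sub_apply]
    rw [e 0, e 1, e 2]; ring
  rw [hg] at fB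
  have hγ0 : γ ≠ 0 := by
    rintro rfl
    apply hΔ; simpa using fB
  rw [f3, fA] at f0
  have : (β * γ3 + γ * γA) * Δ = 0 := by linarith
  have t : β * γ3 + γ * γA = 0 := by
    rcases mul_eq_zero.1 this with h | h
    · exact h
    · exact absurd h hΔ
  have u : γ * γA = 0 := by nlinarith [mul_nonneg hβ hγ3, mul_nonneg hγ hγA]
  have : γA = 0 := by
    rcases mul_eq_zero.1 u with h | h
    · exact absurd h hγ0
    · exact h
  rw [fA, this, zero_mul]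

/-- sign relations at one vertex -/
lemma sign_step {S : Set V3} {x0 x1 x2 x3 A B : V3} (h1 : Cone S x1 x0 x2 B)
    (h2 : det3 (x1 - x2) (x3 - x2) (A - x2) ≠ 0) (mA : A ∈ S)
    (hg : det3 (x0 - x1) (x2 - x1) (A - x1) = 0) :
    ∃ α β : ℝ, 0 < α ∧ 0 ≤ β ∧
      om A B x0 x1 + om A B x1 x2 - om A B x0 x2 ≠ 0 ∧
      om A B x1 x2 = α * (om A B x0 x1 + om A B x1 x2 - om A B x0 x2) ∧
      om A B x0 x1 = β * (om A B x0 x1 + om A B x1 x2 - om A B x0 x2) := by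
  obtain ⟨hΔ, c1⟩ := h1
  obtain ⟨α, β, γ, hα, hβ, -, e⟩ := c1 A mA
  have fA : det3 (x0 - x1) (x2 - x1) (A - x1) = γ * det3 (x0 - x1) (x2 - x1) (B - x1) := by
    simp only [det3, Pi.sub_apply, e]; ring
  rw [hg] at fA
  have hγ : γ = 0 := by
    rcases mul_eq_zero.1 fA.symm with h | h
    · exact h
    · exact absurd h hΔ
  subst hγ
  refine ⟨α, β, lt_of_le_of_ne hα ?_, hβ, ?_, ?_, ?_⟩
  · rintro rfl
    apply h2
    simp only [det3, Pi.sub_apply, e]; ring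
  · intro h
    apply hΔ
    have : det3 (x0 - x1) (x2 - x1) (B - x1) = -(om A B x0 x1 + om A B x1 x2 - om A B x0 x2) := by
      simp only [om, det3, Pi.sub_apply, e]; ring
    rw [this, h, neg_zero]
  · simp only [om, det3, Pi.sub_apply, e]; ring
  · simp only [om, det3, Pi.sub_apply, e]; ring

def IsInt (x : V3) : Prop := ∀ k, ∃ z : ℤ, x k = z

lemma IsInt.sub {x y : V3} (hx : IsInt x) (hy : IsInt y) : IsInt (x - y) := fun k => by
  obtain ⟨a, ha⟩ := hx k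
  obtain ⟨b, hb⟩ := hy k
  exact ⟨a - b, by simp [ha, hb]⟩

lemma IsInt.det3 {x y z : V3} (hx : IsInt x) (hy : IsInt y) (hz : IsInt z) :
    ∃ n : ℤ, det3 x y z = n := by
  choose a ha using hx
  choose b hb using hy
  choose c hc using hz
  refine ⟨a 0 * (b 1 * c 2 - b 2 * c 1) - a 1 * (b 0 * c 2 - b 2 * c 0)
    + a 2 * (b 0 * c 1 - b 1 * c 0), ?_⟩
  simp only [MP_d5dfc1_co.det3, ha, hb, hc]; push_cast; ring

lemma IsInt.cross {x y : V3} (hx : IsInt x) (hy : IsInt y) : IsInt (cross x y) := by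
  choose a ha using hx
  choose b hb using hy
  intro k
  fin_cases k
  · exact ⟨a 1 * b 2 - a 2 * b 1, by simp [MP_d5dfc1_co.cross, ha, hb]⟩
  · exact ⟨a 2 * b 0 - a 0 * b 2, by simp [MP_d5dfc1_co.cross, ha, hb]⟩
  · exact ⟨a 0 * b 1 - a 1 * b 0, by simp [MP_d5dfc1_co.cross, ha, hb]⟩

lemma one_le_abs_of_int {r : ℝ} (h : ∃ n : ℤ, r = n) (h0 : r ≠ 0) : 1 ≤ |r| := by
  obtain ⟨n, rfl⟩ := h
  have : n ≠ 0 := by rintro rfl; simp at h0
  exact_mod_cast Int.one_le_abs this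

lemma det_mul (n1 n2 n3 x y z : V3) :
    det3 n1 n2 n3 * det3 x y z =
      dot n1 x * (dot n2 y * dot n3 z - dot n2 z * dot n3 y)
      - dot n1 y * (dot n2 x * dot n3 z - dot n2 z * dot n3 x)
      + dot n1 z * (dot n2 x * dot n3 y - dot n2 y * dot n3 x) := by
  simp only [det3, dot]; ring

/-- value of the normal of the face `0, w0, w1, w2` at `w4` -/
lemma side (v w0 w1 w2 w3 w4 : V3) (g1 : det3 w0 w1 w2 = 0)
    (g2 : det3 (w1 - v) (w2 - v) (w3 - v) = 0) (g3 : det3 w2 w3 w4 = 0) :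
    det3 (w1 - w0) (w2 - w1) w4 * (det3 v w1 w2 * det3 v w2 w3) =
      (det3 v w0 w1 + det3 v w1 w2 - det3 v w0 w2) *
        (det3 v w1 w2 + det3 v w2 w3 - det3 v w1 w3) * det3 v w2 w4 := by
  have t1 : det3 (w1 - w0) (w2 - w1) w3 * det3 v w1 w2 =
      (det3 v w0 w1 + det3 v w1 w2 - det3 v w0 w2) *
        (det3 v w1 w2 + det3 v w2 w3 - det3 v w1 w3)
      + det3 (w1 - v) (w2 - v) (w3 - v) * (det3 v w0 w1 + det3 v w1 w2 - det3 v w0 w2)
      - det3 w0 w1 w2 * (det3 v w1 w2 + det3 v w2 w3 - det3 v w1 w3)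
      + det3 w0 w1 w2 * det3 v w1 w2 := by
    simp only [det3, Pi.sub_apply]; ring
  have t2 : det3 v w2 w4 * det3 (w1 - w0) (w2 - w1) w3 =
      det3 v w2 w3 * det3 (w1 - w0) (w2 - w1) w4
      - det3 w2 w3 w4 * (det3 v w0 w1 + det3 v w1 w2 - det3 v w0 w2)
      + det3 w0 w1 w2 * det3 v w3 w4 := by
    simp only [det3, Pi.sub_apply]; ring
  rw [g1, g2] at t1
  rw [g1, g3] at t2
  linear_combination det3 v w2 w4 * t1 - det3 v w1 w2 * t2

lemma det_rev (x y z : V3) : det3 z y x = - det3 x y z := by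
  simp only [det3]; ring

lemma det_sw (v x y : V3) : det3 v y x = - det3 v x y := by
  simp only [det3]; ring

lemma key_det (v w0 w1 w2 w3 w4 w5 w6 : V3) (g1 : det3 w0 w1 w2 = 0)
    (g2 : det3 (w1 - v) (w2 - v) (w3 - v) = 0) (g3 : det3 w2 w3 w4 = 0)
    (g4 : det3 (w3 - v) (w4 - v) (w5 - v) = 0) (g5 : det3 w4 w5 w6 = 0)
    (hS : det3 v w2 w4 ≠ 0) :
    det3 (cross (w1 - w0) (w2 - w1)) (cross (w3 - w2) (w4 - w3)) (cross (w5 - w6) (w4 - w5)) *
      (det3 v w1 w2 * det3 v w2 w3 * det3 v w3 w4 * det3 v w4 w5) =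
      -((det3 v w0 w1 + det3 v w1 w2 - det3 v w0 w2) * (det3 v w1 w2 + det3 v w2 w3 - det3 v w1 w3)
        * (det3 v w2 w3 + det3 v w3 w4 - det3 v w2 w4)
        * (det3 v w3 w4 + det3 v w4 w5 - det3 v w3 w5)
        * (det3 v w4 w5 + det3 v w5 w6 - det3 v w4 w6) * det3 v w2 w4) := by
  have s1 := side v w0 w1 w2 w3 w4 g1 g2 g3
  have s2 := side v w6 w5 w4 w3 w2 (by rw [det_rev, g5, neg_zero])
    (by rw [det_rev, g4, neg_zero]) (by rw [det_rev, g3, neg_zero])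
  rw [det_sw v w4 w5, det_sw v w3 w4, det_sw v w5 w6, det_sw v w4 w6, det_sw v w3 w5,
    det_sw v w2 w4] at s2
  have m := det_mul (cross (w1 - w0) (w2 - w1)) (cross (w3 - w2) (w4 - w3))
    (cross (w5 - w6) (w4 - w5)) v w2 w4
  simp only [dot_cross] at m
  have a1 : det3 (w1 - w0) (w2 - w1) w2 = 0 := by
    rw [← g1]; simp only [det3, Pi.sub_apply]; ring
  have a2 : det3 (w3 - w2) (w4 - w3) w2 = 0 := by
    rw [← g3]; simp only [det3, Pi.sub_apply]; ring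
  have a3 : det3 (w3 - w2) (w4 - w3) w4 = 0 := by
    rw [← g3]; simp only [det3, Pi.sub_apply]; ring
  have a4 : det3 (w3 - w2) (w4 - w3) v = det3 v w2 w3 + det3 v w3 w4 - det3 v w2 w4 := by
    simp only [det3, Pi.sub_apply]; ring
  rw [a1, a2, a3, a4] at m
  apply mul_left_cancel₀ hS
  linear_combination (det3 v w1 w2 * det3 v w2 w3 * det3 v w3 w4 * det3 v w4 w5) * m
    + (det3 v w2 w3 + det3 v w3 w4 - det3 v w2 w4) * det3 (w5 - w6) (w4 - w5) w2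
      * (det3 v w3 w4 * det3 v w4 w5) * s1
    + (det3 v w2 w3 + det3 v w3 w4 - det3 v w2 w4) *
      ((det3 v w0 w1 + det3 v w1 w2 - det3 v w0 w2) *
        (det3 v w1 w2 + det3 v w2 w3 - det3 v w1 w3) * det3 v w2 w4) * s2

lemma key_om {a b x0 x1 x2 x3 x4 x5 x6 : V3} (i0 : IsInt x0) (i1 : IsInt x1) (i2 : IsInt x2)
    (i3 : IsInt x3) (i4 : IsInt x4) (i5 : IsInt x5) (i6 : IsInt x6)
    (g1 : det3 (x0 - x1) (x2 - x1) (a - x1) = 0) (g2 : det3 (x1 - x2) (x3 - x2) (b - x2) = 0)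
    (g3 : det3 (x2 - x3) (x4 - x3) (a - x3) = 0) (g4 : det3 (x3 - x4) (x5 - x4) (b - x4) = 0)
    (g5 : det3 (x4 - x5) (x6 - x5) (a - x5) = 0) (hS : om a b x2 x4 ≠ 0) :
    ∃ n : ℤ, n * (om a b x1 x2 * om a b x2 x3 * om a b x3 x4 * om a b x4 x5) =
      -((om a b x0 x1 + om a b x1 x2 - om a b x0 x2) * (om a b x1 x2 + om a b x2 x3 - om a b x1 x3)
        * (om a b x2 x3 + om a b x3 x4 - om a b x2 x4)
        * (om a b x3 x4 + om a b x4 x5 - om a b x3 x5)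
        * (om a b x4 x5 + om a b x5 x6 - om a b x4 x6) * om a b x2 x4) := by
  have cv : ∀ x y z c : V3, det3 (x - y) (z - y) (c - y) = 0 → det3 (x - c) (y - c) (z - c) = 0 := by
    intro x y z c h
    rw [← h]; simp only [det3, Pi.sub_apply]; ring
  have := key_det (b - a) (x0 - a) (x1 - a) (x2 - a) (x3 - a) (x4 - a) (x5 - a) (x6 - a)
    (cv _ _ _ _ g1) (by simpa using cv _ _ _ _ g2) (cv _ _ _ _ g3) (by simpa using cv _ _ _ _ g4)
    (cv _ _ _ _ g5) hS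
  simp only [sub_sub_sub_cancel_right] at this
  obtain ⟨n, hn⟩ := IsInt.det3 ((i1.sub i0).cross (i2.sub i1)) ((i3.sub i2).cross (i4.sub i3))
    ((i5.sub i6).cross (i4.sub i5))
  exact ⟨n, by rw [← hn]; exact this⟩

lemma det_bd {x y z N : V3} (hx : ∀ k, |x k| ≤ N k) (hy : ∀ k, |y k| ≤ N k)
    (hz : ∀ k, |z k| ≤ N k) : |det3 x y z| ≤ 6 * (N 0 * N 1 * N 2) := by
  have hN : ∀ k, 0 ≤ N k := fun k => (abs_nonneg _).trans (hx k)
  have p : ∀ i j k, |x i * y j * z k| ≤ N i * N j * N k := fun i j k => by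
    rw [abs_mul, abs_mul]
    have := hx i; have := hy j; have := hz k; have := hN i; have := hN j
    gcongr
  have e : det3 x y z = x 0 * y 1 * z 2 - x 0 * y 2 * z 1 - x 1 * y 0 * z 2 + x 1 * y 2 * z 0
      + x 2 * y 0 * z 1 - x 2 * y 1 * z 0 := by simp only [det3]; ring
  rw [e, abs_le]
  have := abs_le.1 (p 0 1 2); have := abs_le.1 (p 0 2 1); have := abs_le.1 (p 1 0 2)
  have := abs_le.1 (p 1 2 0); have := abs_le.1 (p 2 0 1); have := abs_le.1 (p 2 1 0)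
  constructor <;> linarith

end Pool.Agent.Lib.MP_d5dfc1_co
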