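import Pool.Agent.Lib.MP_d5dfc1_co.ExFam

/-! Polytopes with a triangular face: lifted barycentric drawings. -/

namespace Pool.Agent.Lib.MP_d5dfc1_co.Ex

open Finset

variable {V F D : Type} {M : PM V F D}

/-- three darts around a face (or, dually, around a vertex) -/
structure Tri (M : PM V F D) (T : F) (a : Fin 3 → D) : Prop where
  lf : ∀ j, M.lf (a j) = T
  hd : ∀ j, M.hd (a j) = M.tl (a (j + 1))
  all : ∀ x, M.Inc x T ↔ ∃ j, M.tl (a j) = x

lemma exTri {d : D} (h3 : M.nx (M.nx (M.nx d)) = d) : Tri M (M.lf d) ![d, M.nx d, M.nx (M.nx d)] := by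
  have l : ∀ j, M.lf (![d, M.nx d, M.nx (M.nx d)] j) = M.lf d := fun j => by fin_cases j <;> simp
  have s : ∀ j, M.nx (![d, M.nx d, M.nx (M.nx d)] j) = ![d, M.nx d, M.nx (M.nx d)] (j + 1) :=
    fun j => by fin_cases j <;> simp [h3]
  refine ⟨l, fun j => by rw [← s, PM.tl_nx], fun x => ⟨?_, fun ⟨j, e⟩ => e ▸ l j ▸ M.inc_tl_lf _⟩⟩
  rintro ⟨e, rfl, he⟩
  obtain ⟨j, hj⟩ := M.f_ind (P := fun e => ∃ j, ![d, M.nx d, M.nx (M.nx d)] j = e)
    (fun e ⟨j, hj⟩ => ⟨j + 1, by rw [← s, hj]⟩) (d := d) ⟨0, rfl⟩ he.symm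
  exact ⟨j, by rw [hj]⟩

lemma inj3 {X : Type} {t : Fin 3 → X} (h : ∀ j, t (j + 1) ≠ t j) : Function.Injective t :=
  fun i j e => by
    by_contra ne
    obtain rfl | rfl : j = i + 1 ∨ i = j + 1 := by clear e; revert i j; decide
    exacts [h _ e.symm, h _ e]

variable {T : F} {a : Fin 3 → D}

lemma Tri.inj (h : Tri M T a) : Function.Injective fun j => M.tl (a j) :=
  inj3 fun j => by rw [← h.hd]; exact M.hd_ne _

lemma Tri.inc (h : Tri M T a) (j : Fin 3) : M.Inc (M.tl (a j)) T := (h.all _).2 ⟨j, rfl⟩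

lemma Tri.opp (h : Tri M T a) : ¬ M.Inc (M.tl (a 2)) (M.rf (a 0)) := fun i => by
  rcases M.two' (a 0) (h.lf 0 ▸ h.inc 2) i with e | e
  · exact absurd (h.inj e) (by decide)
  · rw [h.hd] at e
    exact absurd (h.inj e) (by decide)

lemma span2 {u v m y : V3} (h : cross u v ≠ 0) (m0 : m ≠ 0) (a : dot m u = 0) (b : dot m v = 0)
    (c : dot m y = 0) : ∃ α β : ℝ, y = α • u + β • v := by
  have comm : ∀ x y : V3, dot x y = dot y x := fun x y => by simp only [dot]; ring
  have e := par_of_cross m0 (cross_of_perp (comm _ _ ▸ a) (comm _ _ ▸ b))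
  have z : dot (cross u v) y = 0 := by rw [e, smul_dot', c, mul_zero]
  have := (dot_pos h).ne'
  refine ⟨dot (cross y v) (cross u v) / dot (cross u v) (cross u v),
    dot (cross u y) (cross u v) / dot (cross u v) (cross u v), v3_ext ?_ ?_ ?_⟩ <;>
    simp only [Pi.add_apply, Pi.smul_apply, smul_eq_mul] <;> field_simp <;>
    simp only [dot, cr0, cr1, cr2] at z ⊢
  · linear_combination (u 1 * v 2 - u 2 * v 1) * z
  · linear_combination (u 2 * v 0 - u 0 * v 2) * z
  · linear_combination (u 0 * v 1 - u 1 * v 0) * z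

variable [DecidableEq F]

def pA (r : V → V3) (z : V → ℝ) (x : V) : V3 := ![r x 0, r x 1, z x]
def sA (T f : F) : ℝ := if f = T then -1 else 1
def nA (T : F) (Q : F → V3) (f : F) : V3 := sA T f • ![Q f 0 - Q f 2, Q f 1 - Q f 2, -1]
def cA (T : F) (Q : F → V3) (f : F) : ℝ := - (sA T f * Q f 2)

variable {r : V → V3} {z : V → ℝ} {Q : F → V3}

lemma sA_sq (T f : F) : sA T f * sA T f = 1 := by unfold sA; split_ifs <;> simp

lemma slackA {x : V} (h : r x 0 + r x 1 + r x 2 = 1) (f : F) :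
    slack (pA r z) (nA T Q) (cA T Q) x f = sA T f * (z x - dot (r x) (Q f)) := by
  simp [slack, pA, nA, cA, dot]
  linear_combination (sA T f * Q f 2) * h

lemma oriA {x y : V} {f g : F} {ω : ℝ} (h1 : r x 0 + r x 1 + r x 2 = 1)
    (h2 : r y 0 + r y 1 + r y 2 = 1) (z1 : z x = dot (r x) (Q f)) (z2 : z y = dot (r y) (Q f))
    (e : Q g - Q f = ω • cross (r x) (r y)) :
    cross (nA T Q f) (nA T Q g) = (sA T f * sA T g * ω) • (pA r z y - pA r z x) := by
  have e0 := congrFun e 0; have e1 := congrFun e 1; have e2 := congrFun e 2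
  simp only [cr0, cr1, cr2, Pi.smul_apply, smul_eq_mul, Pi.sub_apply] at e0 e1 e2
  have a0 : r x 2 = 1 - r x 0 - r x 1 := by linarith
  have a1 : r y 2 = 1 - r y 0 - r y 1 := by linarith
  rw [sub_eq_iff_eq_add] at e0 e1 e2
  refine v3_ext ?_ ?_ ?_ <;> simp [cr0, cr1, cr2, nA, pA, z1, z2, dot, e0, e1, e2, a0, a1] <;> ring

lemma oriA' {x y : V} {f g : F} {w : ℝ} (h1 : r x 0 + r x 1 + r x 2 = 1)
    (h2 : r y 0 + r y 1 + r y 2 = 1) (z1 : dot (r x) (Q g) = dot (r x) (Q f))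
    (e : cross (nA T Q f) (nA T Q g) = w • (pA r z y - pA r z x)) :
    Q g - Q f = (sA T f * sA T g * w) • cross (r x) (r y) := by
  have e0 := congrFun e 0; have e1 := congrFun e 1
  simp [cr0, cr1, nA, pA] at e0 e1
  have s1 := sA_sq T f; have s2 := sA_sq T g
  set s := sA T f * sA T g with hs
  have ss : s * s = 1 := by rw [hs]; linear_combination (sA T g * sA T g) * s1 + s2
  have b0 : Q g 1 - Q g 2 - (Q f 1 - Q f 2) = s * w * (r y 0 - r x 0) := by
    linear_combination s * e0 - (Q g 1 - Q g 2 - (Q f 1 - Q f 2)) * ss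
  have b1 : Q g 0 - Q g 2 - (Q f 0 - Q f 2) = - (s * w * (r y 1 - r x 1)) := by
    linear_combination (-s) * e1 - (Q g 0 - Q g 2 - (Q f 0 - Q f 2)) * ss
  have a0 : r x 2 = 1 - r x 0 - r x 1 := by linarith
  have a1 : r y 2 = 1 - r y 0 - r y 1 := by linarith
  simp only [dot, a0] at z1
  refine v3_ext ?_ ?_ ?_ <;> simp only [cr0, cr1, cr2, Pi.smul_apply, smul_eq_mul, Pi.sub_apply, a0, a1]
  · linear_combination z1 + (1 - r x 0) * b1 - r x 1 * b0
  · linear_combination z1 - r x 0 * b1 + (1 - r x 1) * b0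
  · linear_combination z1 - r x 0 * b1 - r x 1 * b0

theorem startA [Finite F] {p : V → V3} {n : F → V3} {c : F → ℝ} (h : Strict M p n c) (hT : Tri M T a)
    (ef : ∀ d g, M.Inc (M.tl d) g → M.Inc (M.hd d) g → g = M.lf d ∨ g = M.rf d) :
    ∃ (r : V → V3) (z : V → ℝ) (Q : F → V3), (∀ x, r x 0 + r x 1 + r x 2 = 1) ∧
      (∀ j k, r (M.tl (a j)) k = if k = j then 1 else 0) ∧ Strict M (pA r z) (nA T Q) (cA T Q) ∧
      Pos M (pA r z) (nA T Q) (a 0) := by
  set t : Fin 3 → V := fun j => M.tl (a j) with ht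
  set sl := slack p n c with hsl
  have t0 : ∀ j, sl (t j) T = 0 := fun j => h.1 _ _ (hT.inc j)
  have g0 : sl (t 0) (M.rf (a 0)) = 0 := h.1 _ _ (M.inc_tl_rf _)
  have i1 : M.Inc (t 1) (M.rf (a 0)) := by have := M.inc_hd_rf (a 0); rwa [hT.hd] at this
  have g1 : sl (t 1) (M.rf (a 0)) = 0 := h.1 _ _ i1
  have g2 : 0 < sl (t 2) (M.rf (a 0)) := h.2 _ _ hT.opp
  have n0 : n T ≠ 0 := fun e => by
    have q := h.2 _ _ (hT.lf 0 ▸ M.nd2 (a 0))
    have := h.1.sub (hT.inc 0) (M.hd (M.sg (a 0)))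
    rw [e] at this
    simp only [dot, Pi.zero_apply] at this
    linarith
  have nn := dot_pos n0
  obtain ⟨K, K0, hK⟩ := bigK (fun f => f ≠ T) (fun f => - (sl (t 0) f + sl (t 1) f + sl (t 2) f))
    (fun f => dot (n f) (n T) / dot (n T) (n T)) fun f ne => by
      have b0 := h.le (t 0) f; have b1 := h.le (t 1) f; have b2 := h.le (t 2) f
      by_contra q
      have i : ∀ x, sl x f ≤ 0 → M.Inc x f := fun x k => by
        by_contra q; exact absurd (h.2 x f q) (not_lt.2 k)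
      rcases ef (a 0) f (i (t 0) (by linarith)) (hT.hd 0 ▸ i (t 1) (by linarith)) with e | e
      · exact ne (e.trans (hT.lf 0))
      · exact hT.opp (e ▸ i (t 2) (by linarith))
  set η : F → ℝ := fun f => K * (sl (t 0) f + sl (t 1) f + sl (t 2) f) - dot (n f) (n T) / dot (n T) (n T)
    with hη
  have ηT : η T = -1 := by simp [hη, t0, nn.ne']
  have sη : ∀ f, 0 < sA T f / η f := fun f => by
    by_cases e : f = T
    · simp [e, sA, ηT]
    · have := hK f e
      rw [sA, if_neg e]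
      exact one_div_pos.2 (by simp only [hη]; linarith)
  have η0 : ∀ f, η f ≠ 0 := fun f e => by simpa [e] using sη f
  set ψ : V → ℝ := fun x => 1 + 3 * K * sl x T with hψ
  have ψ0 : ∀ x, 0 < ψ x := fun x => by have := h.le x T; simp only [hψ]; positivity
  have cr : cross (p (t 1) - p (t 0)) (p (t 2) - p (t 0)) ≠ 0 := fun e => by
    have ne : p (t 1) - p (t 0) ≠ 0 := sub_ne_zero.2 fun e => absurd (hT.inj (h.inj e)) (by decide)
    have := h.1.sub (M.inc_tl_rf (a 0)) (t 2)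
    rw [par_of_cross ne e, dot_smul', h.1.perp (M.inc_tl_rf (a 0)) i1] at this
    linarith
  have ex : ∀ x, ∃ b : V3, b 0 + b 1 + b 2 = ψ x ∧ (∀ f, sl x f
      = b 0 * sl (t 0) f + b 1 * sl (t 1) f + b 2 * sl (t 2) f - sl x T * η f) ∧
      ∀ j, t j = x → ∀ k, b k = if k = j then 1 else 0 := fun x => by
    by_cases q : ∃ j, t j = x
    · obtain ⟨j, rfl⟩ := q
      refine ⟨fun k => if k = j then 1 else 0, ?_, fun f => ?_, fun i e k => by rw [hT.inj e]⟩
      · fin_cases j <;> simp [hψ, t0]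
      · rw [t0]; fin_cases j <;> simp
    · obtain ⟨α, β, e⟩ := span2 cr n0 (h.1.perp (hT.inc 0) (hT.inc 1)) (h.1.perp (hT.inc 0) (hT.inc 2))
        (y := (p x - p (t 0)) + sl x T • (K • ((p (t 1) - p (t 0)) + (p (t 2) - p (t 0)))
          + (dot (n T) (n T))⁻¹ • n T)) (by
          have b0 := h.1.sub (hT.inc 0) x
          have b1 := h.1.perp (hT.inc 0) (hT.inc 1)
          have b2 := h.1.perp (hT.inc 0) (hT.inc 2)
          have b3 := inv_mul_cancel₀ nn.ne'
          simp only [dot, Pi.add_apply, Pi.smul_apply, smul_eq_mul] at b0 b1 b2 b3 ⊢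
          linear_combination b0 + sl x T * K * (b1 + b2) + sl x T * b3)
      refine ⟨![ψ x - α - β, α, β], by simp; ring, fun f => ?_, fun j e => absurd ⟨j, e⟩ q⟩
      have := congrArg (dot (n f)) e
      simp only [hη, hψ, div_eq_inv_mul]
      generalize (dot (n T) (n T))⁻¹ = u at this ⊢
      generalize sl x T = v at this ⊢
      simp [hsl, slack, dot] at this ⊢
      linear_combination (-1 : ℝ) * this
  choose b b1 b2 b3 using ex
  have s1 : ∀ x, b x 0 / ψ x + b x 1 / ψ x + b x 2 / ψ x = 1 := fun x => by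
    rw [← add_div, ← add_div, b1, div_self (ψ0 x).ne']
  have rt : ∀ j k, b (t j) k / ψ (t j) = if k = j then 1 else 0 := fun j k => by
    simp [b3 _ j rfl, hψ, t0]
  have st : Strict M (pA (fun x k => b x k / ψ x) fun x => - sl x T / ψ x)
      (nA T fun f k => - sl (t k) f / η f) (cA T fun f k => - sl (t k) f / η f) :=
    h.of_slack fun x f => ⟨sA T f / η f / ψ x, div_pos (sη f) (ψ0 x), by
      have := (ψ0 x).ne'; have := η0 f
      rw [slackA (s1 x), ← hsl, b2 x f]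
      simp only [dot]
      field_simp
      ring⟩
  refine ⟨_, _, _, s1, rt, st, _, ?_, oriA (ω := - sl (t 2) (M.rf (a 0)) / η (M.rf (a 0)))
    (s1 _) (s1 _) ?_ ?_ ?_⟩
  · have := mul_pos (sη (M.rf (a 0))) g2
    rw [hT.lf, sA, if_pos rfl]
    exact this.trans_eq (by ring)
  · simp [hT.lf, t0, dot]; exact Or.inl (t0 0)
  · simp [hT.lf, t0, dot, hT.hd]; exact Or.inl (t0 1)
  · rw [hT.lf, hT.hd]
    refine v3_ext ?_ ?_ ?_ <;>
      simp only [cr0, cr1, cr2, Pi.smul_apply, smul_eq_mul, Pi.sub_apply, t0, g0, g1] <;>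
      erw [rt, rt, rt, rt] <;> simp

end Pool.Agent.Lib.MP_d5dfc1_co.Ex
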