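import Pool.Agent.Lib.MP_d5dfc1_co.ExA

/-! Polytopes with a triangular face: the homotopy and the integer realisation. -/

namespace Pool.Agent.Lib.MP_d5dfc1_co.Ex

open Finset

variable {V F D : Type} {M : PM V F D} [Fintype D] [DecidableEq V] {J : V → Prop} {w : D → ℝ}
  {h : V → ℝ}

lemma Eqm.const (k : ℝ) : Eqm M M.tl J w (fun x => ∑ d with M.tl d = x, w d) fun _ => k :=
  fun x _ => by rw [sum_mul]

lemma tutte_step (wp : ∀ d, 0 < w d) (eq : Eqm M M.tl J w (fun x => ∑ d with M.tl d = x, w d) h)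
    {d : D} (hx : J (M.tl d)) (mn : ∀ y, h (M.tl d) ≤ h y) : h (M.hd d) = h (M.tl d) := by
  have := eq _ hx
  rw [sum_mul, ← sub_eq_zero, ← sum_sub_distrib, sum_eq_zero_iff_of_nonneg fun e _ =>
    sub_nonneg.2 (mul_le_mul_of_nonneg_left (mn _) (wp e).le)] at this
  exact mul_left_cancel₀ (wp d).ne' (sub_eq_zero.1 (this d (by simp)))

variable [Fintype V]

lemma tutte_nonneg (hc : M.Con) (wp : ∀ d, 0 < w d)
    (eq : Eqm M M.tl J w (fun x => ∑ d with M.tl d = x, w d) h) {t : V} (ht : ¬ J t)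
    (hb : ∀ x, ¬ J x → 0 ≤ h x) (x : V) : 0 ≤ h x := by
  obtain ⟨y, -, mn⟩ := exists_min_image univ h ⟨x, mem_univ _⟩
  by_contra q
  have ng : h y < 0 := (mn x (mem_univ _)).trans_lt (not_le.1 q)
  have := hc.all {u | h u = h y} (fun d (e : _ = _) => (tutte_step wp eq
    (by by_contra k; linarith [hb _ k]) fun u => e ▸ mn u (mem_univ _)).trans e) (u := y) rfl t
  exact absurd (hb t ht) (by rw [this]; exact not_le.2 ng)

lemma tutte_ker (hc : M.Con) (wp : ∀ d, 0 < w d)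
    (eq : Eqm M M.tl J w (fun x => ∑ d with M.tl d = x, w d) h) {t : V} (ht : ¬ J t)
    (hb : ∀ x, ¬ J x → h x = 0) : h = 0 := by
  ext x
  have a := tutte_nonneg hc wp eq ht (fun x q => (hb x q).ge) x
  have b := tutte_nonneg hc wp ((Eqm.const 0).sub M _ eq) ht (fun x q => by simp [hb x q]) x
  exact le_antisymm (sub_nonneg.1 b) a

variable [DecidableEq F] {T : F} {a : Fin 3 → D}

open Classical in
lemma statA (hc : M.Con) (hT : Tri M T a)
    (ef : ∀ d g, M.Inc (M.tl d) g → M.Inc (M.hd d) g → g = M.lf d ∨ g = M.rf d) (wp : ∀ d, 0 < w d)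
    {r : V → V3} {Q : F → V3} (r1 : ∀ j k, r (M.tl (a j)) k = if k = j then 1 else 0)
    (r2 : ∀ k, Eqm M M.tl (fun x => ¬ M.Inc x T) w (fun x => ∑ d with M.tl d = x, w d) fun x => r x k)
    (q : ∀ d, Q (M.rf d) - Q (M.lf d)
      = wsp M M.tl (fun x => M.Inc x T) w r d • cross (r (M.tl d)) (r (M.hd d)))
    {z : V → ℝ} {fx : V → F} (hfx : ∀ x, M.Inc x (fx x)) (hz : ∀ x, z x = dot (r x) (Q (fx x))) :
    (∀ x, r x 0 + r x 1 + r x 2 = 1) ∧ (∀ x k, 0 ≤ r x k) ∧ Zero M (pA r z) (nA T Q) (cA T Q) ∧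
      Ori M (pA r z) (nA T Q) ∧ ((∀ x f, 0 ≤ slack (pA r z) (nA T Q) (cA T Q) x f) →
        ∀ f, ∃ x, 0 < slack (pA r z) (nA T Q) (cA T Q) x f) := by
  have nt : ¬ ¬ M.Inc (M.tl (a 0)) T := not_not.2 (hT.inc 0)
  have s1 : ∀ x, r x 0 + r x 1 + r x 2 = 1 := fun x => by
    have := congrFun (tutte_ker hc wp (((((Eqm.const 1).sub M _ (r2 0)).sub M _ (r2 1))).sub M _ (r2 2))
      nt fun x q => by
        obtain ⟨j, rfl⟩ := (hT.all x).1 (not_not.1 q)
        fin_cases j <;> simp [r1]) x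
    simp only [Pi.zero_apply] at this
    linarith
  have nn : ∀ x k, 0 ≤ r x k := fun x k => tutte_nonneg hc wp (r2 k) nt (fun x q => by
    obtain ⟨j, rfl⟩ := (hT.all x).1 (not_not.1 q)
    rw [r1]; split_ifs <;> simp) x
  have ps : ∀ x k, ¬ M.Inc x T → 0 < r x k := fun x k hx => by
    by_contra n
    have := hc (M.tl (a (k + 1))) (M.tl (a (k + 2))) {y | ¬ M.Inc y T ∧ r y k = 0}
      (fun q => q.1 (hT.inc _)) (fun q => q.1 (hT.inc _)) (fun d ⟨d1, d2⟩ => by
        have e := (tutte_step wp (r2 k) d1 fun y => d2 ▸ nn y k).trans d2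
        by_cases i : M.Inc (M.hd d) T
        · obtain ⟨j, hj⟩ := (hT.all _).1 i
          rw [← hj] at e ⊢
          obtain rfl | rfl | rfl : j = k ∨ j = k + 1 ∨ j = k + 2 := by clear * -; revert j k; decide
          · simp [r1] at e
          · exact Or.inr (Or.inl rfl)
          · exact Or.inr (Or.inr rfl)
        · exact Or.inl ⟨i, e⟩) x ⟨hx, le_antisymm (not_lt.1 n) (nn x k)⟩ (M.tl (a k))
    rcases this with e | e | e
    · exact e.1 (hT.inc k)
    · exact absurd (hT.inj e) (by clear * -; revert k; decide)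
    · exact absurd (hT.inj e) (by clear * -; revert k; decide)
  have loc : ∀ x f, M.Inc x f → z x = dot (r x) (Q f) := by
    rintro _ _ ⟨d, rfl, rfl⟩
    obtain ⟨e, e1, e2⟩ := hfx (M.tl d)
    rw [hz, ← e2]
    refine (M.v_ind (P := fun b => M.tl b = M.tl d ∧
      dot (r (M.tl d)) (Q (M.lf e)) = dot (r (M.tl d)) (Q (M.lf b))) (fun b ⟨b1, b2⟩ => ⟨by simpa, ?_⟩)
      ⟨e1, rfl⟩ e1).2
    rw [b2, PM.lf_sg', eq_comm, ← sub_eq_zero, ← dot_sub, q, b1, dot_smul']
    simp only [dot, cr0, cr1, cr2]; ring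
  have ng : ∀ d, M.Inc (M.tl d) T → M.Inc (M.hd d) T → wsp M M.tl (fun x => M.Inc x T) w r d < 0 := by
    intro d i1 i2
    rw [wsp, if_pos ⟨i1, i2⟩, neg_neg_iff_pos]
    obtain ⟨j, hj⟩ := (hT.all _).1 i2
    obtain ⟨e, e1, e2⟩ := i1
    refine sum_pos (fun b hb => mul_pos (wp b) ?_) ⟨M.sg e, by simpa [e1, ← e2] using M.nd2 e⟩
    have := ps _ j (mem_filter.1 hb).2.2
    rw [PM.tl_rev M d, ← hj]
    fin_cases j <;> simpa [dot, r1] using this
  refine ⟨s1, nn, fun x f i => by rw [slackA (s1 x), loc x f i, sub_self, mul_zero],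
    fun d => ⟨_, ?_, oriA (s1 _) (s1 _) (loc _ _ (M.inc_tl_lf d)) (loc _ _ (M.inc_hd_lf d)) (q d)⟩,
    fun le => ?_⟩
  · by_cases e1 : M.lf d = T
    · have := ng d (e1 ▸ M.inc_tl_lf d) (e1 ▸ M.inc_hd_lf d)
      simpa [sA, e1, show M.rf d ≠ T from e1 ▸ M.rf_ne d] using this
    by_cases e2 : M.rf d = T
    · have := ng d (e2 ▸ M.inc_tl_rf d) (e2 ▸ M.inc_hd_rf d)
      simpa [sA, e1, e2] using this
    · rw [wsp, if_neg fun i => (ef d T i.1 i.2).elim (fun e => e1 e.symm) fun e => e2 e.symm]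
      simpa [sA, e1, e2] using wp d
  · obtain ⟨x, hx⟩ : ∃ x, 0 < slack (pA r z) (nA T Q) (cA T Q) x T := by
      refine ⟨M.hd (M.sg (a 0)), ?_⟩
      have b1 := ng (a 0) (hT.inc 0) (hT.hd 0 ▸ hT.inc 1)
      have b2 := ps _ 2 (hT.lf 0 ▸ M.nd2 (a 0))
      have b3 := q (a 0)
      rw [slackA (s1 _), loc _ _ (M.inc_hd_lf _), PM.lf_sg', ← dot_sub, ← hT.lf 0, b3, hT.hd]
      simpa [sA, dot, cr0, cr1, cr2, r1, hT.lf] using mul_neg_of_pos_of_neg b2 b1
    intro f
    by_cases e : f = T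
    · exact ⟨x, e ▸ hx⟩
    by_contra N
    push Not at N
    have b : ∀ j, Q f j = Q T j := fun j => by
      have := le_antisymm (N (M.tl (a j))) (le _ _)
      rw [slackA (s1 _), loc _ _ (hT.inc j)] at this
      fin_cases j <;> simp [sA, e, dot, r1] at this ⊢ <;> linarith
    have := le x f
    rw [slackA (s1 _)] at this hx
    simp [sA, e, dot, b] at this hx
    linarith

lemma det3_le {x y z : V3} (hx : ∀ k, 0 ≤ x k) (hy : ∀ k, 0 ≤ y k) (hz : ∀ k, 0 ≤ z k)
    (sx : x 0 + x 1 + x 2 = 1) (sy : y 0 + y 1 + y 2 = 1) (sz : z 0 + z 1 + z 2 = 1) :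
    dot x (cross y z) ≤ 1 := by
  have k : ∀ a b c d : ℝ, 0 ≤ a → 0 ≤ b → 0 ≤ c → 0 ≤ d → a ≤ 1 → b ≤ 1 → a * b - c * d ≤ 1 :=
    fun a b c d _ _ _ _ _ _ => by nlinarith [mul_nonneg ‹0 ≤ c› ‹0 ≤ d›]
  have y0 := hy 0; have y1 := hy 1; have y2 := hy 2
  have z0 := hz 0; have z1 := hz 1; have z2 := hz 2
  have a := mul_le_mul_of_nonneg_left (k _ _ _ _ y1 z2 y2 z1 (by linarith) (by linarith)) (hx 0)
  have b := mul_le_mul_of_nonneg_left (k _ _ _ _ y2 z0 y0 z2 (by linarith) (by linarith)) (hx 1)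
  have c := mul_le_mul_of_nonneg_left (k _ _ _ _ y0 z1 y1 z0 (by linarith) (by linarith)) (hx 2)
  simp only [dot, cr0, cr1, cr2]
  linarith

lemma efA {p : V → V3} {n : F → V3} {c : F → ℝ} (h : Strict M p n c) (O : Ori M p n) (d : D) (g : F)
    (i : M.Inc (M.tl d) g) (j : M.Inc (M.hd d) g) : g = M.lf d ∨ g = M.rf d := by
  obtain ⟨b, b1, rfl⟩ := i
  obtain ⟨e, rfl⟩ := M.sg.surjective b
  rcases edge_face h O (d := d) (e := e) (by simpa using b1.symm) (by simpa using j) with k | k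
  · exact Or.inr (by simp [k])
  · exact Or.inl (by rw [k])

theorem caseA [Fintype F] {p : V → V3} {n : F → V3} {c : F → ℝ} (h : Strict M p n c) (O : Ori M p n)
    (hT : Tri M T a) (hD : Fintype.card D + 12 ≤ 6 * Fintype.card V) :
    ∃ (p' : V → V3) (n' : F → V3) (c' : F → ℝ), Strict M p' n' c' ∧ ∀ x k, (∃ z : ℤ, p' x k = z) ∧
      0 ≤ p' x k ∧ p' x k ≤ Fintype.card F * (11 / 2) ^ Fintype.card V := by
  classical
  have hc := h.con
  have ef := efA h O
  obtain ⟨r0, z0, Q0, s0, t0, st0, ps0⟩ := startA h hT ef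
  choose w0 wp0 hw0 using st0.ori hc ps0
  have nt : ¬ ¬ M.Inc (M.tl (a 0)) T := not_not.2 (hT.inc 0)
  have wp : ∀ s ∈ Set.Icc (0 : ℝ) 1, ∀ d, 0 < (1 - s) * w0 d + s := fun s hs d => by
    rcases hs.1.eq_or_lt with e | e
    · simpa [← e] using wp0 d
    · nlinarith [mul_nonneg (sub_nonneg.2 hs.2) (wp0 d).le]
  obtain ⟨r, Q, cr, cQ, hr⟩ := netfam M M.tl (fun x => M.Inc x T) (fun s d => (1 - s) * w0 d + s)
    (fun s x => ∑ d with M.tl d = x, ((1 - s) * w0 d + s)) (by fun_prop) (by fun_prop) _ hT.all hT.inj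
    (one_mul 1) (fun s d => by rw [st0.wsym hw0]) (sp3 M _ _ a (fun _ => rfl) hT.hd) M.simple
    (fun s hs h b e => tutte_ker hc (wp s hs) e nt fun x q => b x (not_not.1 q)) M.rf M.lf
    (dual_exa (h.exa O))
  obtain ⟨fx, hfx, fT⟩ : ∃ fx : V → F, (∀ x, M.Inc x (fx x)) ∧ ∀ x, fx x ≠ T := by
    have : ∀ x, ∃ f, M.Inc x f ∧ f ≠ T := fun x => by
      obtain ⟨d, rfl⟩ := M.tl_surj x
      by_cases e : M.lf d = T
      exacts [⟨_, M.inc_tl_rf d, e ▸ M.rf_ne d⟩, ⟨_, M.inc_tl_lf d, e⟩]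
    choose fx a b using this
    exact ⟨fx, a, b⟩
  have dc := dual_con M (fun f => f = T) (fun _ => True)
    (fun C hC u hu _ w _ => hc.all C (fun d => hC d trivial trivial) hu w)
    (fun d _ _ => by by_contra q; push Not at q; exact M.rf_ne d (q.2.trans q.1.symm))
    (fun d e _ t _ b _ b' => M.sg.injective (M.uniq _ _ (by simpa) (by simp [b, b'])))
    (fun _ _ _ _ => trivial)
  have inn : ∀ (w : D → ℝ) (r : V → V3) d, M.lf d ≠ T → M.rf d ≠ T →
      wsp M M.tl (fun x => M.Inc x T) w r d = w d := fun w r d e1 e2 =>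
    if_neg fun i => (ef d T i.1 i.2).elim (fun e => e1 e.symm) fun e => e2 e.symm
  have S := fun s hs => statA hc hT ef (wp s hs) (hr s hs).1 (hr s hs).2.1 (hr s hs).2.2
    (z := fun x => dot (r s x) (Q s (fx x))) hfx fun _ => rfl
  have c1 : ∀ x k, ContinuousOn (fun s => r s x k) (Set.Icc 0 1) := fun x k =>
    continuousOn_pi.1 (continuousOn_pi.1 cr x) k
  have c2 : ∀ x k, ContinuousOn (fun s => Q s x k) (Set.Icc 0 1) := fun x k =>
    continuousOn_pi.1 (continuousOn_pi.1 cQ x) k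
  have I0 : (0 : ℝ) ∈ Set.Icc (0 : ℝ) 1 := by simp
  have I1 : (1 : ℝ) ∈ Set.Icc (0 : ℝ) 1 := by simp
  have st := homot hc (fun s => pA (r s) fun x => dot (r s x) (Q s (fx x))) (fun s => nA T (Q s))
    (fun s => cA T (Q s)) (continuousOn_pi.2 fun x => continuousOn_pi.2 fun k => by
      fin_cases k
      exacts [c1 _ _, c1 _ _, (((c1 _ _).mul (c2 _ _)).add ((c1 _ _).mul (c2 _ _))).add
        ((c1 _ _).mul (c2 _ _))])
    (continuousOn_pi.2 fun x => continuousOn_pi.2 fun k => continuousOn_const.mul (by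
      fin_cases k
      exacts [(c2 _ _).sub (c2 _ _), (c2 _ _).sub (c2 _ _), continuousOn_const]))
    (continuousOn_pi.2 fun x => (continuousOn_const.mul (c2 _ _)).neg)
    (fun s hs => (S s hs).2.2.1) (fun s hs => (S s hs).2.2.2.1) (fun s hs => (S s hs).2.2.2.2) (by
      have l0 : ∀ x f, M.Inc x f → z0 x = dot (r0 x) (Q0 f) := fun x f i => by
        have := st0.1 x f i
        rw [slackA (s0 x)] at this
        linear_combination sA T f * this - (z0 x - dot (r0 x) (Q0 f)) * sA_sq T f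
      have q0 := fun d => oriA' (s0 _) (s0 _)
        ((l0 _ _ (M.inc_tl_rf d)).symm.trans (l0 _ _ (M.inc_tl_lf d))) (hw0 d)
      have e0 : r 0 = r0 := by
        ext x k
        refine sub_eq_zero.1 (congrFun (tutte_ker hc (wp 0 I0) (((hr 0 I0).2.1 k).sub M _
          (k := fun x => r0 x k) fun x i => ?_) nt fun x q => ?_) x)
        · have e : ∀ k, k = 0 ∨ k = 1 → ∑ d with M.tl d = x, w0 d * (r0 (M.hd d) k - r0 x k) = 0 := by
            have f : ∀ d, M.tl d = x → M.lf d ≠ T ∧ M.rf d ≠ T := fun d t =>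
              ⟨fun e => i (t ▸ e ▸ M.inc_tl_lf d), fun e => i (t ▸ e ▸ M.inc_tl_rf d)⟩
            rintro _ (rfl | rfl)
            · rw [← M.tele_v x fun f => Q0 f 1 - Q0 f 2]
              refine sum_congr rfl fun d hd => ?_
              have := congrFun (hw0 d) 0
              simp [cr0, nA, pA, sA, f d (mem_filter.1 hd).2, (mem_filter.1 hd).2] at this
              linarith
            · rw [← M.tele_v x fun f => Q0 f 2 - Q0 f 0]
              refine sum_congr rfl fun d hd => ?_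
              have := congrFun (hw0 d) 1
              simp [cr1, nA, pA, sA, f d (mem_filter.1 hd).2, (mem_filter.1 hd).2] at this
              linarith
          have e2 : ∑ d with M.tl d = x, w0 d * (r0 (M.hd d) k - r0 x k) = 0 := by
            fin_cases k
            exacts [e _ (Or.inl rfl), e _ (Or.inr rfl), by
              rw [← neg_zero, ← add_zero 0, ← congrArg₂ (· + ·) (e _ (Or.inl rfl)) (e _ (Or.inr rfl)),
                ← sum_add_distrib, ← sum_neg_distrib]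
              exact sum_congr rfl fun d _ => show w0 d * (r0 (M.hd d) 2 - r0 x 2) = _ by
                linear_combination w0 d * (s0 (M.hd d) - s0 x)]
          simpa [mul_sub, sum_mul, sub_eq_zero] using e2
        · obtain ⟨j, rfl⟩ := (hT.all x).1 (not_not.1 q)
          rw [(hr 0 I0).1, t0, sub_self]
      have q1 := (hr 0 I0).2.2
      rw [e0] at q1 ⊢
      have ne : ∀ j, M.rf (a j) ≠ T := fun j => hT.lf j ▸ M.rf_ne _
      have m1 := fun f e => dc {f | Q 0 f - Q0 f = Q 0 (M.rf (a 0)) - Q0 (M.rf (a 0))}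
        (fun f hf g f1 g1 ⟨d, d1, d2⟩ => by
          subst d1 d2
          have b1 := q1 d
          have b2 := q0 d
          rw [inn _ _ d f1 g1] at b1
          simp only [sA, if_neg f1, if_neg g1, one_mul, sub_zero, add_zero, PM.tl_rev] at b1 b2
          refine Eq.trans ?_ hf
          linear_combination b1 - b2) _ rfl (ne 0) f e
      have m2 : ∀ f, Q 0 f - Q0 f = Q 0 (M.rf (a 0)) - Q0 (M.rf (a 0)) := fun f => by
        by_cases e : f = T
        · have b := fun j k => congrFun (q1 (a j)) k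
          have b' := fun j k => congrFun (q0 (a j)) k
          have b2 := congrFun (m1 _ (ne 1)) 2
          have u0 := b 0 0; have u1 := b 0 1; have u2 := b 1 2
          have v0 := b' 0 0; have v1 := b' 0 1; have v2 := b' 1 2
          simp [hT.lf, hT.hd, cr0, cr1, cr2, t0] at u0 u1 u2 v0 v1 v2 b2
          refine v3_ext ?_ ?_ ?_ <;> simp only [e, Pi.sub_apply] <;> linarith
        · exact m1 f e
      refine st0.of_slack fun x f => ⟨1, one_pos, ?_⟩
      rw [slackA (s0 x), slackA (s0 x), l0 x _ (hfx x), ← dot_sub, ← dot_sub, one_mul,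
        show Q 0 (fx x) - Q 0 f = Q0 (fx x) - Q0 f by linear_combination m2 (fx x) - m2 f])
  obtain ⟨s1, nn, -⟩ := S 1 I1
  obtain ⟨r1, r2, q1⟩ := hr 1 I1
  simp only [sub_self, zero_mul, zero_add] at r2 q1
  have cd : (fun x => ∑ d with M.tl d = x, (1 : ℝ)) = fun x => (#{d | M.tl d = x ∧ True} : ℝ) := by simp
  obtain ⟨Z1, hZ⟩ := integ M M.tl (fun x => ¬ M.Inc x T) (fun _ => True) (fun _ _ _ => trivial) (r 1)
    (fun x q k => by
      obtain ⟨j, rfl⟩ := (hT.all x).1 (not_not.1 q)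
      exact ⟨if k = j then 1 else 0, by rw [r1]; simp⟩) (cd ▸ r2)
    fun h b e => tutte_ker hc (fun _ => one_pos) (cd ▸ e) nt b
  have Z2 := detA M (fun x => ¬ M.Inc x T) (by
    refine (card_le_card (t := univ.image fun j => M.tl (a j)) fun x => ?_).trans card_image_le
    simp [hT.all]) hD
  set Z : ℝ := ((lap M M.tl (fun x => ¬ M.Inc x T) fun _ => True).det : ℝ) with hZd
  set f0 := fx (M.tl (a 0)) with hf0
  have F1 : (1 : ℝ) ≤ Fintype.card F := by exact_mod_cast Fintype.card_pos_iff.2 ⟨T⟩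
  refine ⟨fun x => Z • pA (r 1) (fun x => dot (r 1 x) (Q 1 (fx x) - Q 1 f0)) x,
    nA T fun f => Q 1 f - Q 1 f0, fun f => Z * cA T (fun f => Q 1 f - Q 1 f0) f,
    st.of_slack fun x f => ⟨Z, by linarith, ?_⟩, fun x k => ?_⟩
  · rw [slack, dot_smul', ← mul_sub]
    refine congrArg _ ((slackA (s1 x) f).trans ?_)
    rw [slackA (s1 x), dot_sub, dot_sub]; ring
  have bd : ∀ u : ℝ, 0 ≤ u → u ≤ Fintype.card F → 0 ≤ Z * u ∧
      Z * u ≤ Fintype.card F * (11 / 2) ^ Fintype.card V := fun u u0 u1 =>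
    ⟨by positivity, by rw [mul_comm]; exact mul_le_mul u1 Z2 (by linarith) (by linarith)⟩
  have n0 := nn x 0; have n1 := nn x 1; have n2 := nn x 2; have n3 := s1 x
  fin_cases k
  · refine ⟨?_, bd (r 1 x 0) n0 (by linarith)⟩
    simpa [det3, r1, pA] using hZ x (M.tl (a 1)) (M.tl (a 2))
  · refine ⟨?_, bd (r 1 x 1) n1 (by linarith)⟩
    simpa [det3, r1, pA] using hZ x (M.tl (a 2)) (M.tl (a 0))
  have stp : ∀ d, M.lf d ≠ T → M.rf d ≠ T → dot (r 1 x) (Q 1 (M.rf d)) = dot (r 1 x) (Q 1 (M.lf d))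
      + dot (r 1 x) (cross (r 1 (M.tl d)) (r 1 (M.hd d))) := fun d e1 e2 => by
    have := q1 d
    rw [inn _ _ d e1 e2, one_smul] at this
    rw [← PM.tl_rev, ← this, dot_sub]; ring
  refine ⟨dc {f | ∃ z : ℤ, Z * dot (r 1 x) (Q 1 f - Q 1 f0) = z} (fun f ⟨z, hz⟩ g f1 g1 ⟨d, d1, d2⟩ => by
    subst d1 d2
    obtain ⟨y, hy⟩ := hZ x (M.tl d) (M.hd d)
    refine ⟨z + y, ?_⟩
    rw [dot_sub] at hz ⊢
    rw [stp d f1 g1, Int.cast_add, ← hz, ← hy]
    simp only [dot, det3, cr0, cr1, cr2]; ring) f0 ⟨0, by simp [dot]⟩ (fT _) _ (fT x), bd _ ?_ ?_⟩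
  · have := st.le x f0
    rw [slackA (s1 x), sA, if_neg (fT _), one_mul, ← dot_sub] at this
    exact this
  · have := osc (fun f => ¬ f = T) _ dc (fun f => dot (r 1 x) (Q 1 f)) zero_le_one
      (fun f g f1 g1 ⟨d, d1, d2⟩ => by
        subst d1 d2
        rw [stp d f1 g1]
        linarith [det3_le (nn x) (nn (M.tl d)) (nn (M.hd d)) (s1 _) (s1 _) (s1 _)]) (fT (M.tl (a 0))) (fT x)
    change dot _ _ ≤ _
    rw [dot_sub]
    linarith

end Pool.Agent.Lib.MP_d5dfc1_co.Ex
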