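import Pool.Agent.Lib.MP_d5dfc1_co.ExA2

/-! Polytopes with a simple vertex: the system for the normals and its starting point. -/

namespace Pool.Agent.Lib.MP_d5dfc1_co.Ex

open Finset

variable {V F D : Type} {M : PM V F D}

/-- the three darts at a simple vertex -/
structure TriV (M : PM V F D) (v : V) (a : Fin 3 → D) : Prop where
  tl : ∀ j, M.tl (a j) = v
  sg : ∀ j, M.sg (a j) = a (j + 1)
  all : ∀ f, M.Inc v f ↔ ∃ j, M.lf (a j) = f

lemma exTriV {d : D} (h3 : M.sg (M.sg (M.sg d)) = d) :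
    TriV M (M.tl d) ![d, M.sg d, M.sg (M.sg d)] := by
  have l : ∀ j, M.tl (![d, M.sg d, M.sg (M.sg d)] j) = M.tl d := fun j => by fin_cases j <;> simp
  have s : ∀ j, M.sg (![d, M.sg d, M.sg (M.sg d)] j) = ![d, M.sg d, M.sg (M.sg d)] (j + 1) :=
    fun j => by fin_cases j <;> simp [h3]
  refine ⟨l, s, fun x => ⟨?_, fun ⟨j, e⟩ => e ▸ l j ▸ M.inc_tl_lf _⟩⟩
  rintro ⟨e, he, rfl⟩
  obtain ⟨j, hj⟩ := M.v_ind (P := fun e => ∃ j, ![d, M.sg d, M.sg (M.sg d)] j = e)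
    (fun e ⟨j, hj⟩ => ⟨j + 1, by rw [← s, hj]⟩) (d := d) ⟨0, rfl⟩ he.symm
  exact ⟨j, by rw [hj]⟩

variable {v : V} {a : Fin 3 → D}

lemma TriV.rf (h : TriV M v a) (j : Fin 3) : M.rf (a j) = M.lf (a (j + 1)) := by
  rw [← h.sg, PM.lf_sg']

lemma TriV.inj (h : TriV M v a) : Function.Injective fun j => M.lf (a j) :=
  inj3 fun j => by rw [← h.rf]; exact M.rf_ne _

lemma TriV.inc (h : TriV M v a) (j : Fin 3) : M.Inc v (M.lf (a j)) := (h.all _).2 ⟨j, rfl⟩

lemma TriV.opp (h : TriV M v a) : ¬ M.Inc (M.hd (a 0)) (M.lf (a 2)) := by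
  have := M.nd1 (a 0)
  rwa [h.sg, h.rf] at this

lemma TriV.out (h : TriV M v a) (j : Fin 3) : ¬ M.Inc v (M.rf (M.nx (a j))) := by
  have := M.nd1 (M.rev (a j))
  rwa [PM.hd_rev, h.tl] at this

lemma TriV.con (h : TriV M v a) (hc : M.Con) (C : Set F)
    (hC : ∀ f ∈ C, ∀ g, ¬ M.Inc v f → ¬ M.Inc v g → (∃ d, M.lf d = f ∧ M.rf d = g) → g ∈ C) :
    ∀ f ∈ C, ¬ M.Inc v f → ∀ g, ¬ M.Inc v g → g ∈ C := by
  refine dual_con M (M.Inc v) (fun x => x ≠ v) (fun C hC u hu uv w wv => ?_) (fun d a b => ?_)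
    (fun d e dv t l1 r1 l2 r2 => ?_) (fun x f n i e => n (e ▸ i)) C hC
  · rcases hc v v {x | x ∈ C ∧ x ≠ v} (fun q => q.2 rfl) (fun q => q.2 rfl) (fun d q => by
      by_cases e : M.hd d = v
      exacts [Or.inr (Or.inl e), Or.inl ⟨hC d q.2 e q.1, e⟩]) u ⟨hu, uv⟩ w with k | k | k
    exacts [k.1, absurd k wv, absurd k wv]
  · by_contra q
    push Not at q
    exact (M.two' d q.1 q.2).elim (fun e => a e.symm) fun e => b e.symm
  · have u : ∀ d e, M.tl d = M.tl e → M.rf d = M.rf e → d = e := fun d e t q =>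
      M.sg.injective (M.uniq _ _ (by simpa) (by simpa))
    have k : ∀ d e j, M.tl d ≠ v → M.tl d = M.tl e → ¬ M.Inc v (M.lf d) → M.lf (a j) = M.rf d →
        M.lf (a (j + 1)) = M.rf e → False := fun d e j dv t l b1 b2 => by
      rcases M.two' (a j) (b1 ▸ M.inc_tl_rf d) (by rw [h.rf, b2, t]; exact M.inc_tl_rf e) with q | q
      · exact dv (q.trans (h.tl j))
      · rw [u d (M.rev (a j)) q (by simp [b1]), PM.lf_rev, h.rf] at l
        exact l (h.inc _)
    obtain ⟨i, hi⟩ := (h.all _).1 r1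
    obtain ⟨j, hj⟩ := (h.all _).1 r2
    obtain rfl | rfl | rfl : i = j ∨ j = i + 1 ∨ i = j + 1 := by clear * -; revert i j; decide
    · exact u d e t (hi.symm.trans hj)
    · exact (k d e i dv t l1 hi hj).elim
    · exact (k e d j (t ▸ dv) t.symm l2 hj hi).elim

lemma span3 {u v w : V3} (h : det3 u v w ≠ 0) (y : V3) :
    ∃ N : V3, ∀ z, dot y z = N 0 * dot u z + N 1 * dot v z + N 2 * dot w z := by
  refine ⟨![det3 y v w / det3 u v w, det3 u y w / det3 u v w, det3 u v y / det3 u v w], fun z => ?_⟩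
  simp only [Matrix.cons_val_zero, Matrix.cons_val_one, Matrix.cons_val]
  field_simp
  simp only [dot, det3]; ring

lemma projw {N N' X Y : V3} {ω ε β β' c c' : ℝ} (e : cross N N' = ω • (Y - X)) (h1 : dot N X = c)
    (h2 : dot N' X = c') (b1 : ε * c = β * c) (b2 : ε * c' = β' * c') (k : Fin 3) :
    ε * cross (fun k => β * N k + c) (fun k => β' * N' k + c') k
      = ω * β * β' * ((ε + (X 0 + X 1 + X 2)) * Y k - (ε + (Y 0 + Y 1 + Y 2)) * X k) := by
  have e0 := congrFun e 0; have e1 := congrFun e 1; have e2 := congrFun e 2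
  simp only [cr0, cr1, cr2, Pi.smul_apply, smul_eq_mul, Pi.sub_apply, dot] at e0 e1 e2 h1 h2
  revert k
  refine congrFun (v3_ext ?_ ?_ ?_) <;> simp only [cr0, cr1, cr2]
  · linear_combination β * β' * ((ε + (X 0 + X 1 + X 2)) * e0 - X 0 * (e0 + e1 + e2)
      - (N' 2 - N' 1) * h1 - (N 1 - N 2) * h2) + β' * (N' 2 - N' 1) * b1 + β * (N 1 - N 2) * b2
  · linear_combination β * β' * ((ε + (X 0 + X 1 + X 2)) * e1 - X 1 * (e0 + e1 + e2)
      - (N' 0 - N' 2) * h1 - (N 2 - N 0) * h2) + β' * (N' 0 - N' 2) * b1 + β * (N 2 - N 0) * b2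
  · linear_combination β * β' * ((ε + (X 0 + X 1 + X 2)) * e2 - X 2 * (e0 + e1 + e2)
      - (N' 1 - N' 0) * h1 - (N 0 - N 1) * h2) + β' * (N' 1 - N' 0) * b1 + β * (N 0 - N 1) * b2

variable [Fintype D] [Fintype F] [DecidableEq F] {H : F → Prop} [DecidablePred H] {w : D → ℝ}

lemma flux (sym : ∀ d, w (M.rev d) = w d) (h : F → ℝ) (C : F → Prop) [DecidablePred C]
    (hC : ∀ f, C f → H f) :
    ∑ f with C f, ∑ d with M.lf d = f ∧ H (M.rf d), w d * (h f - h (M.rf d))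
      = ∑ d with (C (M.lf d) ∧ H (M.rf d)) ∧ ¬ C (M.rf d), w d * (h (M.lf d) - h (M.rf d)) := by
  have b := sum_anti M (fun d => (C (M.lf d) ∧ H (M.rf d)) ∧ C (M.rf d))
    (fun d => by simp only [PM.lf_rev, PM.rf_rev]; have := hC (M.lf d); have := hC (M.rf d); tauto)
    (fun d => w d * (h (M.lf d) - h (M.rf d))) fun d => by simp only [sym, PM.lf_rev, PM.rf_rev]; ring
  rw [← zero_add (∑ d with (C (M.lf d) ∧ H (M.rf d)) ∧ ¬ C (M.rf d), _), ← b, ← filter_filter,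
    ← filter_filter (fun d => C (M.lf d) ∧ H (M.rf d)), sum_filter_add_sum_filter_not,
    ← sum_fiberwise_of_maps_to (g := M.lf) (t := univ.filter C) (by simp; tauto)]
  refine sum_congr rfl fun f hf => sum_congr ?_ fun d hd => by rw [(mem_filter.1 hd).2]
  ext d
  simp only [mem_filter, mem_univ, true_and] at hf ⊢
  exact ⟨fun q => ⟨⟨q.1 ▸ hf, q.2⟩, q.1⟩, fun q => ⟨q.2, q.1.2⟩⟩

lemma coreB (dc : ∀ C : Set F, (∀ f ∈ C, ∀ g, H f → H g → (∃ d, M.lf d = f ∧ M.rf d = g) → g ∈ C) →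
      ∀ f ∈ C, H f → ∀ g, H g → g ∈ C) (sym : ∀ d, w (M.rev d) = w d) (wp : ∀ d, 0 < w d)
    {κ : F → ℝ} (κ0 : ∀ f, 0 ≤ κ f) (S0 : 0 < ∑ f with H f, κ f)
    (sm : ∀ d, H (M.lf d) → H (M.rf d) → 4 * Fintype.card F * ∑ f with H f, κ f ≤ w d) {h : F → ℝ}
    (hb : ∀ f, ¬ H f → h f ≤ 0)
    (eq : Eqm M M.lf H w (fun f => ∑ d with M.lf d = f ∧ H (M.rf d), w d - κ f) h) {B : ℝ}
    (hB : B = ∑ f with H f, ∑ d with M.lf d = f ∧ ¬ H (M.rf d), w d * - h (M.rf d)) :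
    ∑ f with H f, κ f * h f = B ∧ ∀ f, H f → B ≤ 3 * (∑ f with H f, κ f) * h f ∧
      3 * (∑ f with H f, κ f) * h f ≤ 5 * B := by
  classical
  set S := ∑ f with H f, κ f with hS
  set b : F → ℝ := fun f => ∑ d with M.lf d = f ∧ ¬ H (M.rf d), w d * - h (M.rf d) with hb'
  have b0 : ∀ f, 0 ≤ b f := fun f => sum_nonneg fun d hd =>
    mul_nonneg (wp d).le (neg_nonneg.2 (hb _ (mem_filter.1 hd).2.2))
  have g : ∀ f, H f → ∑ d with M.lf d = f ∧ H (M.rf d), w d * (h f - h (M.rf d)) = κ f * h f - b f := by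
    intro f q
    have := eq f q
    rw [← sum_filter_add_sum_filter_not _ fun d => H (M.rf d), filter_filter, filter_filter] at this
    simp only [hb', mul_sub, mul_neg, sum_sub_distrib, sum_neg_distrib, ← sum_mul, PM.lf_rev] at this ⊢
    linarith
  have s0 : ∑ f with H f, κ f * h f = B := by
    have := flux (H := H) sym h H fun _ q => q
    rw [sum_congr rfl fun f hf => g f (mem_filter.1 hf).2, sum_sub_distrib,
      sum_eq_zero (s := {d | (H (M.lf d) ∧ H (M.rf d)) ∧ ¬ H (M.rf d)})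
        fun d hd => absurd (mem_filter.1 hd).2.1.2 (mem_filter.1 hd).2.2] at this
    linarith
  refine ⟨s0, fun f hf => ?_⟩
  obtain ⟨u, hu, mx⟩ := exists_max_image (univ.filter H) h ⟨f, by simpa⟩
  obtain ⟨l, hl, mn⟩ := exists_min_image (univ.filter H) h ⟨f, by simpa⟩
  set A := max (h u) (- h l) with hA
  have B0 : 0 ≤ B := hB ▸ sum_nonneg fun f _ => b0 f
  have up : ∀ f, H f → |h f| ≤ A := fun f q => abs_le.2
    ⟨by linarith [mn f (by simpa), le_max_right (h u) (- h l)], (mx f (by simpa)).trans (le_max_left _ _)⟩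
  have A0 : 0 ≤ A := (abs_nonneg _).trans (up f hf)
  have F0 : (0 : ℝ) < Fintype.card F := by exact_mod_cast Fintype.card_pos_iff.2 ⟨f⟩
  have fl : ∀ d, H (M.lf d) → H (M.rf d) →
      h (M.rf d) ≤ h (M.lf d) + (S * A + B) / (4 * Fintype.card F * S) := by
    intro d h1 h2
    rw [← sub_le_iff_le_add', le_div_iff₀ (by positivity)]
    by_cases q : h (M.rf d) ≤ h (M.lf d)
    · exact (mul_nonpos_of_nonpos_of_nonneg (sub_nonpos.2 q) (by positivity)).trans (by positivity)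
    push Not at q
    have e := flux (H := H) sym h (fun f => H f ∧ h (M.rf d) ≤ h f) fun _ q => q.1
    have e1 := single_le_sum (s := {e | ((H (M.lf e) ∧ h (M.rf d) ≤ h (M.lf e)) ∧ H (M.rf e)) ∧
      ¬ (H (M.rf e) ∧ h (M.rf d) ≤ h (M.rf e))}) (f := fun e => w e * (h (M.lf e) - h (M.rf e)))
      (fun e he => by
        obtain ⟨⟨⟨-, c1⟩, c2⟩, c3⟩ := (mem_filter.1 he).2
        exact mul_nonneg (wp e).le (by linarith [not_le.1 fun k => c3 ⟨c2, k⟩]))
      (a := M.rev d) (by simp [h1, h2, q])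
    rw [← e, sum_congr rfl fun f hf => g f (mem_filter.1 hf).2.1] at e1
    have e2 : ∑ f with H f ∧ h (M.rf d) ≤ h f, (κ f * h f - b f) ≤ ∑ f with H f, κ f * A :=
      (sum_le_sum fun f hf => by
        linarith [b0 f, mul_le_mul_of_nonneg_left ((le_abs_self _).trans (up f (mem_filter.1 hf).2.1))
          (κ0 f)]).trans (sum_le_sum_of_subset_of_nonneg (fun f => by simp only [mem_filter]; tauto)
        fun f _ _ => mul_nonneg (κ0 f) A0)
    rw [← sum_mul] at e2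
    simp only [sym, PM.lf_rev, PM.rf_rev] at e1
    nlinarith [mul_le_mul_of_nonneg_left (sm d h1 h2) (sub_pos.2 q).le]
  have o := osc H _ dc h (by positivity) (fun f g f1 g1 ⟨d, d1, d2⟩ => d1 ▸ d2 ▸ fl d (d1 ▸ f1) (d2 ▸ g1))
    (mem_filter.1 hl).2 (mem_filter.1 hu).2
  have o' : 4 * (S * h u) ≤ 4 * (S * h l) + (S * A + B) := by
    have : S * (Fintype.card F * ((S * A + B) / (4 * Fintype.card F * S))) * 4 = S * A + B := by
      field_simp
    nlinarith [mul_le_mul_of_nonneg_left o S0.le]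
  have c1 : B ≤ S * h u := by
    rw [← s0, hS, sum_mul]
    exact sum_le_sum fun f hf => mul_le_mul_of_nonneg_left (mx f hf) (κ0 f)
  have c2 : S * h l ≤ B := by
    rw [← s0, hS, sum_mul]
    exact sum_le_sum fun f hf => mul_le_mul_of_nonneg_left (mn f hf) (κ0 f)
  have c3 := mul_le_mul_of_nonneg_left (mx f (by simpa)) S0.le
  have c4 := mul_le_mul_of_nonneg_left (mn f (by simpa)) S0.le
  rcases max_choice (h u) (- h l) with e | e <;> rw [hA, e] at o' <;> constructor <;> linarith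

end Pool.Agent.Lib.MP_d5dfc1_co.Ex
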