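import Pool.Agent.Lib.MP_d5dfc1_co.ExB

/-! Polytopes with a simple vertex: start of the homotopy and the static facts. -/

namespace Pool.Agent.Lib.MP_d5dfc1_co.Ex

open Finset

variable {V F D : Type} {M : PM V F D} {v : V} {a : Fin 3 → D}

lemma affB {p : V → V3} {n : F → V3} {c : F → ℝ} (h : Strict M p n c) (hT : TriV M v a)
    [DecidablePred (M.Inc v)] :
    ∃ (X : V → V3) (N : F → V3), (∀ j k, N (M.lf (a j)) k = if k = j then -1 else 0) ∧
      Strict M X N (fun f => if M.Inc v f then 0 else 1) ∧ Pos M X N (a 0) ∧ (∀ x k, 0 ≤ X x k) ∧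
      ∀ x, x ≠ v → 0 < X x 0 + X x 1 + X x 2 := by
  set t : Fin 3 → F := fun j => M.lf (a j) with ht
  set sl := slack p n c with hsl
  have g2 : 0 < sl (M.hd (a 0)) (t 2) := h.2 _ _ hT.opp
  have dt : det3 (n (t 0)) (n (t 1)) (n (t 2)) ≠ 0 := by
    obtain ⟨w, w0, e⟩ := h.ex_w (a 0)
    have := h.1.sub (hT.inc 2) (M.hd (a 0))
    rw [hT.rf, hT.tl] at e
    rw [← dot_cross, show cross (n (t 0)) (n (t 1)) = _ from e, smul_dot']
    refine mul_ne_zero w0 fun q => ?_
    simp only [dot] at q this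
    linarith
  have ex : ∀ f, ∃ (N : V3) (α : ℝ), 0 < α ∧ (∀ x, (if M.Inc v f then 0 else 1)
      - dot N (fun k => sl x (t k)) = α * sl x f) ∧ ∀ j, t j = f → ∀ k, N k = if k = j then -1 else 0 := by
    intro f
    by_cases q : M.Inc v f
    · obtain ⟨j, rfl⟩ := (hT.all f).1 q
      refine ⟨fun k => if k = j then -1 else 0, 1, one_pos, fun x => ?_, fun i e k => by rw [hT.inj e]⟩
      rw [if_pos q]
      fin_cases j <;> simp [dot, ht]
    · obtain ⟨N, hN⟩ := span3 dt (n f)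
      have s0 : 0 < sl v f := h.2 _ _ q
      refine ⟨- (sl v f)⁻¹ • N, (sl v f)⁻¹, inv_pos.2 s0, fun x => ?_, fun j e => (q (e ▸ hT.inc j)).elim⟩
      have := hN (p x - p v)
      rw [h.1.sub (hT.inc 0), h.1.sub (hT.inc 1), h.1.sub (hT.inc 2), dot_sub] at this
      have b : sl x f = sl v f + dot N fun k => sl x (t k) := by
        simp only [hsl, slack, dot, ht] at this ⊢
        linarith
      rw [if_neg q, smul_dot', b]
      field_simp
      ring
  choose N α α0 e1 e2 using ex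
  refine ⟨fun x k => sl x (t k), N, fun j => e2 _ j rfl, h.of_slack fun x f => ⟨_, α0 f, e1 f x⟩,
    ⟨_, inv_pos.2 g2, ?_⟩, fun x k => h.le _ _, fun x ne => ?_⟩
  · have z : ∀ k, sl v (t k) = 0 := fun k => h.1 _ _ (hT.inc k)
    have z0 : sl (M.hd (a 0)) (t 0) = 0 := h.1 _ _ (M.inc_hd_lf _)
    have z1 : sl (M.hd (a 0)) (t 1) = 0 := h.1 _ _ (by have := M.inc_hd_rf (a 0); rwa [hT.rf] at this)
    rw [hT.rf, hT.tl]
    refine v3_ext ?_ ?_ ?_ <;> simp [cr0, cr1, cr2, e2 _ _ rfl, z, z0, z1, g2.ne', ← ht,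
      show M.lf (a 0) = t 0 from rfl, show M.lf (a 1) = t 1 from rfl]
  · have b0 := h.le x (t 0); have b1 := h.le x (t 1); have b2 := h.le x (t 2)
    by_contra q
    have i : ∀ f, sl x f ≤ 0 → M.Inc x f := fun f k => by
      by_contra q; exact absurd (h.2 x f q) (not_lt.2 k)
    rcases M.two' (a 0) (i (t 0) (by linarith)) (hT.rf 0 ▸ i (t 1) (by linarith)) with e | e
    · exact ne (e.trans (hT.tl 0))
    · exact hT.opp (e ▸ i (t 2) (by linarith))

variable [Fintype D] [Fintype F] [DecidableEq F] [Fintype V]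

theorem startB {p : V → V3} {n : F → V3} {c : F → ℝ} (h : Strict M p n c) (hT : TriV M v a)
    [DecidablePred (M.Inc v)] :
    ∃ (P : V → V3) (r : F → V3) (c : F → ℝ) (w : D → ℝ) (κ : F → ℝ),
      (∀ j k, r (M.lf (a j)) k = if k = j then -1 else 0) ∧ Strict M P r c ∧ (∀ d, 0 < w d) ∧
      (∀ d, w (M.rev d) = w d) ∧
      (∀ d, P (M.hd d) - P (M.tl d) = w d • cross (r (M.lf d)) (r (M.rf d))) ∧ (∀ f, 0 ≤ κ f) ∧
      0 < ∑ f with ¬ M.Inc v f, κ f ∧ (∀ d, ¬ M.Inc v (M.lf d) → ¬ M.Inc v (M.rf d) →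
        4 * Fintype.card F * ∑ f with ¬ M.Inc v f, κ f ≤ w d) ∧
      ∀ k, Eqm M M.lf (fun f => ¬ M.Inc v f) w
        (fun f => ∑ d with M.lf d = f ∧ ¬ M.Inc v (M.rf d), w d - κ f) fun f => r f k := by
  obtain ⟨X, N, hN, st, ps, X0, σ0⟩ := affB h hT
  choose ω ω0 hω using st.ori h.con ps
  choose xf hxf using M.lf_surj
  set σ : V → ℝ := fun x => X x 0 + X x 1 + X x 2 with hσ
  set c1 : F → ℝ := fun f => if M.Inc v f then 0 else 1 with hc1
  set sl := slack X N c1 with hsl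
  have σn : ∀ x, 0 ≤ σ x := fun x => add_nonneg (add_nonneg (X0 _ _) (X0 _ _)) (X0 _ _)
  have sl0 : ∀ x f, 0 ≤ sl x f := st.le
  set K0 := ∑ f with ¬ M.Inc v f, ∑ d with M.lf d = f,
    sl (M.tl (xf f)) (M.rf d) / (ω d * σ (M.tl d) * σ (M.hd d) * σ (M.tl (xf f))) with hK0
  have K00 : 0 ≤ K0 := sum_nonneg fun f _ => sum_nonneg fun d _ => by
    have := sl0 (M.tl (xf f)) (M.rf d); have := ω0 d; have := σn (M.tl d); have := σn (M.hd d)
    have := σn (M.tl (xf f)); positivity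
  obtain ⟨K, K1, hK⟩ := bigK (fun _ : D => True) (fun _ => -1) (fun d => 4 * Fintype.card F * K0
    * (ω d * (1 + σ (M.tl d)) * (1 + σ (M.hd d))) + 1) (by simp)
  obtain ⟨ε, ε0, ε1, hε⟩ : ∃ ε : ℝ, 0 < ε ∧ ε ≤ 1 ∧ ∀ d, 4 * Fintype.card F * K0
      * (ω d * ε * (1 + σ (M.tl d)) * (1 + σ (M.hd d))) ≤ 1 := by
    refine ⟨K⁻¹, inv_pos.2 K1, inv_le_one_of_one_le₀ ?_, fun d => ?_⟩
    · have := hK (a 0) trivial
      have := ω0 (a 0); have := σn (M.tl (a 0)); have := σn (M.hd (a 0))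
      have : 0 ≤ 4 * Fintype.card F * K0 * (ω (a 0) * (1 + σ (M.tl (a 0))) * (1 + σ (M.hd (a 0)))) := by
        positivity
      linarith
    · have := mul_lt_mul_of_pos_left (hK d trivial) (inv_pos.2 K1)
      have := inv_mul_cancel₀ K1.ne'
      have := inv_pos.2 K1
      nlinarith
  set β : F → ℝ := fun f => if M.Inc v f then 1 else ε with hβ
  have β0 : ∀ f, 0 < β f := fun f => by simp only [hβ]; split_ifs; exacts [one_pos, ε0]
  have βc : ∀ f, ε * c1 f = β f * c1 f := fun f => by simp only [hβ, hc1]; split_ifs <;> simp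
  have ψ0 : ∀ x, 0 < ε + σ x := fun x => by linarith [σn x]
  set P : V → V3 := fun x => (ε + σ x)⁻¹ • X x with hP
  set r : F → V3 := fun f k => β f * N f k + c1 f with hr
  set w : D → ℝ := fun d => ε / (ω d * β (M.lf d) * β (M.rf d) * (ε + σ (M.tl d)) * (ε + σ (M.hd d)))
    with hw
  have es : ∀ x f, slack P r c1 x f = β f / (ε + σ x) * sl x f := fun x f => by
    have := (ψ0 x).ne'
    have b := βc f
    simp only [hsl, slack, hP, dot_smul']
    field_simp
    simp only [hr, dot, hσ]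
    linear_combination b
  have wp : ∀ d, 0 < w d := fun d => by
    have := ω0 d; have := β0 (M.lf d); have := β0 (M.rf d); have := ψ0 (M.tl d); have := ψ0 (M.hd d)
    positivity
  have q : ∀ d, P (M.hd d) - P (M.tl d) = w d • cross (r (M.lf d)) (r (M.rf d)) := fun d => by
    ext k
    have := projw (hω d) (sub_eq_zero.1 (st.1 _ _ (M.inc_tl_lf d))).symm
      (sub_eq_zero.1 (st.1 _ _ (M.inc_tl_rf d))).symm (βc _) (βc _) k
    have := (ω0 d).ne'; have := (β0 (M.lf d)).ne'; have := (β0 (M.rf d)).ne'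
    have := (ψ0 (M.tl d)).ne'; have := (ψ0 (M.hd d)).ne'
    simp only [hP, hw, Pi.sub_apply, Pi.smul_apply, smul_eq_mul, div_mul_eq_mul_div]
    erw [‹ε * cross _ _ k = _›]
    field_simp
    simp only [hσ]; ring
  have st' : Strict M P r c1 := st.of_slack fun x f => ⟨_, div_pos (β0 f) (ψ0 x), es x f⟩
  have nv : ∀ x f, ¬ M.Inc v f → M.Inc x f → x ≠ v := fun x f n i e => n (e ▸ i)
  have xi : ∀ f, M.Inc (M.tl (xf f)) f := fun f => ⟨_, rfl, hxf f⟩
  refine ⟨P, r, c1, w, fun f => ∑ d with M.lf d = f, w d * slack P r c1 (M.tl (xf f)) (M.rf d),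
    fun j k => by simp [hr, hβ, hc1, hT.inc, hN], st', wp, fun d => ?_, q,
    fun f => sum_nonneg fun d _ => mul_nonneg (wp d).le (st'.le _ _), ?_, fun d h1 h2 => ?_,
    fun k f hf => ?_⟩
  · simp only [hw, st.wsym hω, PM.lf_rev, PM.rf_rev, PM.tl_rev, PM.hd_rev]; ring
  · refine sum_pos (fun f _ => sum_pos' (fun d _ => mul_nonneg (wp d).le (st'.le _ _))
      ⟨M.nx (xf f), by simp [hxf], mul_pos (wp _) (st'.2 _ _ ?_)⟩) ⟨_, by simpa using hT.out 0⟩
    simpa [PM.nx] using M.nd1 (M.rev (xf f))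
  · have k1 : ∑ f with ¬ M.Inc v f, ∑ d with M.lf d = f, w d * slack P r c1 (M.tl (xf f)) (M.rf d)
        ≤ K0 := sum_le_sum fun f hf => sum_le_sum fun d hd => by
      have nf := (mem_filter.1 hf).2
      have e := (mem_filter.1 hd).2
      have := σ0 _ (nv _ _ nf (xi f))
      have := σ0 _ (nv _ _ nf (e ▸ M.inc_tl_lf d))
      have := σ0 _ (nv _ _ nf (e ▸ M.inc_hd_lf d))
      have := sl0 (M.tl (xf f)) (M.rf d); have := ω0 d; have := β0 (M.rf d)
      have := ψ0 (M.tl d); have := ψ0 (M.hd d); have := ψ0 (M.tl (xf f))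
      rw [show w d * slack P r c1 (M.tl (xf f)) (M.rf d) = sl (M.tl (xf f)) (M.rf d)
        / (ω d * (ε + σ (M.tl d)) * (ε + σ (M.hd d)) * (ε + σ (M.tl (xf f)))) by
          simp only [es, hw, e, show β f = ε from if_neg nf]; field_simp]
      gcongr <;> linarith
    have := ω0 d; have := ψ0 (M.tl d); have := ψ0 (M.hd d)
    rw [show w d = 1 / (ω d * ε * (ε + σ (M.tl d)) * (ε + σ (M.hd d))) by
      simp only [hw, show β _ = ε from if_neg h1, show β _ = ε from if_neg h2]; field_simp,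
      le_div_iff₀ (by positivity)]
    refine le_trans ?_ (hε d)
    have := σn (M.tl d)
    gcongr
  · have u : cross (r f) (∑ d with M.lf d = f, w d • r (M.rf d)) = 0 := by
      rw [← M.tele_f f P]
      simp only [q]
      refine v3_ext ?_ ?_ ?_ <;>
        simp only [cr0, cr1, cr2, Finset.sum_apply, Pi.smul_apply, smul_eq_mul, mul_sum,
          ← sum_sub_distrib] <;>
        exact sum_congr rfl fun d hd => by rw [(mem_filter.1 hd).2]; ring
    have o : dot (r f) (P (M.tl (xf f))) = 1 := by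
      have := st'.1 _ _ (xi f)
      simp only [slack, hc1, if_neg hf] at this
      linarith
    have u' := par_of_cross (fun e => by simp [e, dot] at o) u
    have l := congrArg (fun y => dot y (P (M.tl (xf f)))) u'
    simp only [smul_dot', o, mul_one] at l
    have := congrFun u' k
    simp only [Finset.sum_apply, Pi.smul_apply, smul_eq_mul] at this
    refine this.trans (congrArg (· * r f k) ?_)
    beta_reduce
    rw [← l, ← filter_filter, sum_filter (fun d => ¬ M.Inc v (M.rf d)), ← sum_sub_distrib]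
    simp only [dot, Finset.sum_apply, sum_mul, ← sum_add_distrib, Pi.smul_apply, smul_eq_mul, slack, hc1]
    exact sum_congr rfl fun d _ => by split_ifs <;> ring

lemma statB (hT : TriV M v a) [DecidablePred (M.Inc v)] {w : D → ℝ} (wp : ∀ d, 0 < w d)
    {r : F → V3} {P : V → V3} (r1 : ∀ j k, r (M.lf (a j)) k = if k = j then -1 else 0)
    (ps : ∀ f k, ¬ M.Inc v f → 0 < r f k) (q : ∀ d, P (M.hd d) - P (M.tl d)
      = wsp M M.lf (M.Inc v) w r d • cross (r (M.lf d)) (r (M.rf d)))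
    {xf : F → V} (hxf : ∀ f, M.Inc (xf f) f) {c : F → ℝ} (hc : ∀ f, c f = dot (r f) (P (xf f))) :
    Zero M P r c ∧ Ori M P r ∧ ((∀ x f, 0 ≤ slack P r c x f) → ∀ f, ∃ x, 0 < slack P r c x f) := by
  have Z : Zero M P r c := by
    rintro _ _ ⟨d, rfl, rfl⟩
    obtain ⟨e, e1, e2⟩ := hxf (M.lf d)
    rw [slack, hc, ← e1, sub_eq_zero]
    refine (M.f_ind (P := fun b => M.lf b = M.lf d ∧
      dot (r (M.lf d)) (P (M.tl e)) = dot (r (M.lf d)) (P (M.tl b))) (fun b ⟨b1, b2⟩ => ⟨by simpa, ?_⟩)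
      ⟨e2, rfl⟩ e2).2
    rw [b2, PM.tl_nx, eq_comm, ← sub_eq_zero, ← dot_sub, q, b1, dot_smul']
    simp only [dot, cr0, cr1, cr2]; ring
  have pos : ∀ d, 0 < wsp M M.lf (M.Inc v) w r d := fun d => by
    unfold wsp
    split_ifs with i
    · obtain ⟨j, hj⟩ := (hT.all _).1 i.2
      obtain ⟨k, hk⟩ := (hT.all _).1 i.1
      refine neg_pos.2 (sum_neg (fun b hb => mul_neg_of_pos_of_neg (wp b) ?_)
        ⟨M.nx (a k), mem_filter.2 ⟨mem_univ _, by simp [hk], hT.out k⟩⟩)
      have := ps _ j (mem_filter.1 hb).2.2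
      rw [← hj]
      fin_cases j <;> simpa [dot, r1] using this
    · exact wp d
  have ax : ∀ j f, slack P r c (M.hd (a (j + 1))) f
      = slack P r c v f - wsp M M.lf (M.Inc v) w r (a (j + 1)) * r f j := fun j f => by
    have := congrArg (dot (r f)) (q (a (j + 1)))
    rw [dot_sub, dot_smul', hT.tl, hT.rf] at this
    simp only [slack]
    fin_cases j <;> simp [dot, cr0, cr1, cr2, r1] at this ⊢ <;> linarith
  refine ⟨Z, fun d => ⟨_, inv_pos.2 (pos d), by rw [q, smul_smul, inv_mul_cancel₀ (pos d).ne', one_smul]⟩,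
    fun le f => ?_⟩
  by_cases i : M.Inc v f
  · obtain ⟨j, rfl⟩ := (hT.all _).1 i
    exact ⟨_, by rw [ax j, Z _ _ i, r1]; simpa using pos _⟩
  · have := le (M.hd (a (0 + 1))) f
    rw [ax] at this
    exact ⟨v, by linarith [mul_pos (pos (a (0 + 1))) (ps f 0 i)]⟩

end Pool.Agent.Lib.MP_d5dfc1_co.Ex
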