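import Pool.Agent.Lib.MP_d5dfc1_co.ExB2

/-! Polytopes with a simple vertex: the homotopy and the integer realisation. -/

namespace Pool.Agent.Lib.MP_d5dfc1_co.Ex

open Finset

variable {V F D : Type} {M : PM V F D} {v : V} {a : Fin 3 → D} [Fintype D] [Fintype F] [Fintype V]

theorem caseB {p : V → V3} {n : F → V3} {c : F → ℝ} (h : Strict M p n c) (O : Ori M p n)
    (hT : TriV M v a) {m : ℕ} (h1 : Fintype.card F ≤ m)
    (h2 : Fintype.card D + 4 ≤ 2 * (m + Fintype.card F)) :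
    ∃ (p' : V → V3) (n' : F → V3) (c' : F → ℝ), Strict M p' n' c' ∧ ∀ x k, (∃ z : ℤ, p' x k = z) ∧
      0 ≤ p' x k ∧ p' x k ≤ 7 * Fintype.card F * Fintype.card D ^ 2 * 4 ^ m := by
  classical
  have hc := h.con
  have dc := hT.con hc
  obtain ⟨P0, r0, c0, w0, κ0, t0, st0, wp0, sym0, q0, k0, S0, sm0, eq0⟩ := startB h hT
  set g0 := M.rf (M.nx (a 0)) with hg0
  have gH : ¬ M.Inc v g0 := hT.out 0
  have F0 : (0 : ℝ) < Fintype.card F := by exact_mod_cast Fintype.card_pos_iff.2 ⟨g0⟩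
  set δ : ℝ := (4 * Fintype.card F : ℝ)⁻¹ with hδ
  have δ0 : 0 < δ := by positivity
  have δ1 : 4 * Fintype.card F * δ = 1 := mul_inv_cancel₀ (by positivity)
  set w : ℝ → D → ℝ := fun s d => (1 - s) * w0 d + s with hw
  set κ : ℝ → F → ℝ := fun s f => (1 - s) * κ0 f + s * if f = g0 then δ else 0 with hκ
  have cvx : ∀ s ∈ Set.Icc (0 : ℝ) 1, ∀ x y : ℝ, 0 < x → 0 < y → 0 < (1 - s) * x + s * y := by
    intro s hs x y x0 y0
    rcases hs.1.eq_or_lt with e | e
    · simpa [← e] using x0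
    · nlinarith [mul_nonneg (sub_nonneg.2 hs.2) x0.le, mul_pos e y0]
  have wp : ∀ s ∈ Set.Icc (0 : ℝ) 1, ∀ d, 0 < w s d := fun s hs d => by
    simpa using cvx s hs _ _ (wp0 d) one_pos
  have sym : ∀ s d, w s (M.rev d) = w s d := fun s d => by simp only [hw, sym0]
  have Sκ : ∀ s, ∑ f with ¬ M.Inc v f, κ s f = (1 - s) * ∑ f with ¬ M.Inc v f, κ0 f + s * δ := fun s => by
    simp only [hκ, sum_add_distrib, ← mul_sum]
    rw [sum_ite_eq', if_pos (by simpa)]
  have Sp : ∀ s ∈ Set.Icc (0 : ℝ) 1, 0 < ∑ f with ¬ M.Inc v f, κ s f := fun s hs => by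
    rw [Sκ]; exact cvx s hs _ _ S0 δ0
  have core := fun s (hs : s ∈ Set.Icc (0 : ℝ) 1) (h : F → ℝ) hb eq => coreB dc (sym s) (wp s hs)
    (κ := κ s) (fun f => add_nonneg (mul_nonneg (sub_nonneg.2 hs.2) (k0 f))
      (mul_nonneg hs.1 (by split_ifs; exacts [δ0.le, le_rfl]))) (Sp s hs) (fun d a b => by
        have := mul_le_mul_of_nonneg_left (sm0 d a b) (sub_nonneg.2 hs.2)
        rw [Sκ]
        simp only [hw]
        linear_combination this + s * δ1) (h := h) hb eq rfl
  have ker : ∀ s ∈ Set.Icc (0 : ℝ) 1, ∀ h : F → ℝ, (∀ x, M.Inc v x → h x = 0) →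
      Eqm M M.lf (fun f => ¬ M.Inc v f) (w s)
        (fun f => ∑ d with M.lf d = f ∧ ¬ M.Inc v (M.rf d), w s d - κ s f) h → h = 0 := by
    intro s hs h hb eq
    ext f
    by_cases i : M.Inc v f
    · exact hb f i
    have := (core s hs h (fun f q => (hb f (not_not.1 q)).le) eq).2 f i
    rw [sum_eq_zero fun f _ => sum_eq_zero fun d hd => by
      rw [hb _ (not_not.1 (mem_filter.1 hd).2.2), neg_zero, mul_zero]] at this
    exact (mul_eq_zero.1 (le_antisymm (by linarith) this.1)).resolve_left (by linarith [Sp s hs])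
  obtain ⟨r, P, cr, cP, hr⟩ := netfam M M.lf (M.Inc v) w
    (fun s f => ∑ d with M.lf d = f ∧ ¬ M.Inc v (M.rf d), w s d - κ s f) (by fun_prop) (by fun_prop) _
    hT.all hT.inj (ε := -1) (by norm_num) sym (sp3 M _ _ a (fun _ => rfl) hT.rf) (fun _ _ => M.uniq_lr)
    ker M.hd M.tl (h.exa O)
  have rT : ∀ s ∈ Set.Icc (0 : ℝ) 1, ∀ f k, M.Inc v f → r s f k = 0 ∨ r s f k = -1 := fun s hs f k i => by
    obtain ⟨j, rfl⟩ := (hT.all f).1 i
    rw [(hr s hs).1]; split_ifs <;> simp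
  have co := fun s hs k => core s hs (fun f => r s f k)
    (fun f q => by rcases rT s hs f k (not_not.1 q) with e | e <;> simp [e]) ((hr s hs).2.1 k)
  have ps : ∀ s ∈ Set.Icc (0 : ℝ) 1, ∀ f k, ¬ M.Inc v f → 0 < r s f k := fun s hs f k i => by
    have nn : ∀ d, ¬ ¬ M.Inc v (M.rf d) → 0 ≤ w s d * - r s (M.rf d) k := fun d q =>
      mul_nonneg (wp s hs d).le (by rcases rT s hs _ k (not_not.1 q) with e | e <;> simp [e])
    refine (mul_pos_iff_of_pos_left (by linarith [Sp s hs])).1 (lt_of_lt_of_le ?_ ((co s hs k).2 f i).1)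
    refine sum_pos' (fun f _ => sum_nonneg fun d hd =>
      nn d (mem_filter.1 hd).2.2) ⟨M.rf (M.nx (a k)), by simpa using hT.out k, sum_pos'
        (fun d hd => nn d (mem_filter.1 hd).2.2) ⟨M.rev (M.nx (a k)), by simp [hT.inc], ?_⟩⟩
    simpa [(hr s hs).1] using wp s hs _
  choose xf hxf using M.lf_surj
  have xi : ∀ f, M.Inc (M.tl (xf f)) f := fun f => ⟨_, rfl, hxf f⟩
  have S := fun s hs => statB hT (wp s hs) (hr s hs).1 (ps s hs) (hr s hs).2.2 xi
    (c := fun f => dot (r s f) (P s (M.tl (xf f)))) fun _ => rfl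
  have c1 : ∀ x k, ContinuousOn (fun s => r s x k) (Set.Icc 0 1) := fun x k =>
    continuousOn_pi.1 (continuousOn_pi.1 cr x) k
  have c2 : ∀ x k, ContinuousOn (fun s => P s x k) (Set.Icc 0 1) := fun x k =>
    continuousOn_pi.1 (continuousOn_pi.1 cP x) k
  have I0 : (0 : ℝ) ∈ Set.Icc (0 : ℝ) 1 := by simp
  have I1 : (1 : ℝ) ∈ Set.Icc (0 : ℝ) 1 := by simp
  have st := homot hc P r (fun s f => dot (r s f) (P s (M.tl (xf f)))) cP cr
    (continuousOn_pi.2 fun x => (((c1 _ _).mul (c2 _ _)).add ((c1 _ _).mul (c2 _ _))).add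
        ((c1 _ _).mul (c2 _ _)))
    (fun s hs => (S s hs).1) (fun s hs => (S s hs).2.1) (fun s hs => (S s hs).2.2) (by
      have e0 : r 0 = r0 := by
        ext x k
        refine sub_eq_zero.1 (congrFun (ker 0 I0 _ (fun x q => ?_) (((hr 0 I0).2.1 k).sub M _
          (k := fun x => r0 x k) (by simpa [hw, hκ] using eq0 k))) x)
        obtain ⟨j, rfl⟩ := (hT.all x).1 q
        rw [(hr 0 I0).1, t0, sub_self]
      have q1 := (hr 0 I0).2.2
      rw [e0] at q1 ⊢
      have ne : ∀ j, M.hd (a j) ≠ v := fun j => hT.tl j ▸ M.hd_ne _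
      have m1 : ∀ x, x ≠ v → P 0 x - P0 x = P 0 (M.hd (a 0)) - P0 (M.hd (a 0)) := fun x e => by
        rcases hc v v {x | x ≠ v ∧ P 0 x - P0 x = P 0 (M.hd (a 0)) - P0 (M.hd (a 0))}
          (fun q => q.1 rfl) (fun q => q.1 rfl) (fun d ⟨d1, d2⟩ => by
            by_cases e : M.hd d = v
            · exact Or.inr (Or.inl e)
            have b1 := q1 d
            rw [wsp, if_neg fun i => (M.two' d i.1 i.2).elim (fun k => d1 k.symm) fun k => e k.symm] at b1
            simp only [hw, sub_zero, one_mul, add_zero, PM.lf_rev] at b1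
            exact Or.inl ⟨e, by linear_combination b1 - q0 d + d2⟩) _ ⟨ne 0, rfl⟩ x with k | k | k
        exacts [k.2, absurd k e, absurd k e]
      have m2 : ∀ x, P 0 x - P0 x = P 0 (M.hd (a 0)) - P0 (M.hd (a 0)) := fun x => by
        by_cases e : x = v
        · have b := fun j k => congrFun (q1 (a j)) k
          have b' := fun j k => congrFun (q0 (a j)) k
          have b2 := congrFun (m1 _ (ne 1)) 2
          have u0 := b 0 0; have u1 := b 0 1; have u2 := b 1 2
          have v0 := b' 0 0; have v1 := b' 0 1; have v2 := b' 1 2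
          simp [hT.tl, hT.rf, cr0, cr1, cr2, t0] at u0 u1 u2 v0 v1 v2 b2
          refine v3_ext ?_ ?_ ?_ <;> simp only [e, Pi.sub_apply] <;> linarith
        · exact m1 x e
      refine st0.of_slack fun x f => ⟨1, one_pos, ?_⟩
      rw [slack, ← dot_sub, one_mul, ← neg_neg (slack P0 r0 c0 x f), ← st0.1.sub (xi f), ← dot_neg',
        show P 0 (M.tl (xf f)) - P 0 x = - (P0 x - P0 (M.tl (xf f))) by
          linear_combination m2 (M.tl (xf f)) - m2 x])
  obtain ⟨r1, r2, q1⟩ := hr 1 I1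
  have w1 : w 1 = fun _ => 1 := by ext d; simp [hw]
  have κ1 : ∀ f, κ 1 f = if f = g0 then δ else 0 := fun f => by simp [hκ]
  have co1 := co 1 I1
  have ker1 := ker 1 I1
  rw [w1] at r2 q1 co1 ker1
  simp only [Sκ, sub_self, zero_mul, zero_add, one_mul] at co1
  set R := (Int.castRingHom ℝ).range with hR
  have iR : ∀ x : ℝ, x ∈ R ↔ ∃ z : ℤ, x = z := fun x => ⟨fun ⟨z, e⟩ => ⟨z, e.symm⟩, fun ⟨z, e⟩ => ⟨z, e.symm⟩⟩
  have RT : ∀ f k, M.Inc v f → r 1 f k ∈ R := fun f k i => by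
    rcases rT 1 I1 f k i with e | e <;> rw [e]
    exacts [zero_mem _, neg_mem (one_mem _)]
  have cd : ∀ f, f ≠ g0 → ∑ d with M.lf d = f ∧ ¬ M.Inc v (M.rf d), (1 : ℝ) - κ 1 f
      = #{d | M.lf d = f ∧ ¬ M.Inc v (M.rf d)} := fun f e => by simp [κ1, e]
  obtain ⟨Z1, hZ⟩ := integ M M.lf (fun f => ¬ M.Inc v f ∧ f ≠ g0) (fun d => ¬ M.Inc v (M.rf d))
    (fun _ _ b => b.1) (r 1) (fun f q k => (iR _).1 (by
      by_cases i : M.Inc v f
      · exact RT f k i
      obtain rfl : f = g0 := by by_contra e; exact q ⟨i, e⟩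
      have := (co1 k).1
      simp only [κ1, ite_mul, zero_mul] at this
      rw [sum_ite_eq', if_pos (by simpa)] at this
      rw [show r 1 g0 k = 4 * Fintype.card F * (δ * r 1 g0 k) by linear_combination (- r 1 g0 k) * δ1, this]
      exact mul_mem (mul_mem (natCast_mem R 4) (natCast_mem _ _)) (sum_mem fun f _ => sum_mem fun d hd =>
        neg_mem (RT _ _ (not_not.1 (mem_filter.1 hd).2.2)))))
    (fun k f q => (r2 k f q.1).trans (congrArg (· * _) (cd f q.2))) fun h b e => by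
      have bT : ∀ f, M.Inc v f → h f = 0 := fun f i => b f fun q => q.1 i
      have g : ∀ f, ∑ d with M.lf d = f ∧ ¬ M.Inc v (M.rf d), 1 * (h f - h (M.rf d))
          = #{d | M.lf d = f ∧ ¬ M.Inc v (M.rf d)} * h f - ∑ d with M.lf d = f, 1 * h (M.rf d) := by
        intro f
        rw [← sum_filter_add_sum_filter_not (univ.filter fun d => M.lf d = f) fun d => M.Inc v (M.rf d),
          filter_filter, filter_filter, sum_eq_zero (s := {d | M.lf d = f ∧ M.Inc v (M.rf d)}) fun d hd => by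
            rw [bT _ (mem_filter.1 hd).2.2, mul_zero]]
        simp
      have fl := flux (M := M) (H := fun f => ¬ M.Inc v f) (w := fun _ => 1) (fun _ => rfl) h _ fun _ q => q
      rw [sum_eq_zero (s := {d | (¬ M.Inc v (M.lf d) ∧ ¬ M.Inc v (M.rf d)) ∧ ¬ ¬ M.Inc v (M.rf d)})
        (fun d hd => absurd (mem_filter.1 hd).2.1.2 (mem_filter.1 hd).2.2),
        sum_eq_single_of_mem g0 (by simpa) fun f hf ne => by
          rw [g, sub_eq_zero]; exact (e f ⟨(mem_filter.1 hf).2, ne⟩).symm, g] at fl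
      refine ker1 h bT fun f i => ?_
      by_cases k : f = g0
      · have z : h g0 = 0 := b _ fun q => q.2 rfl
        rw [z, mul_zero, zero_sub, neg_eq_zero] at fl
        rw [k, z, mul_zero]
        exact fl
      · exact (e f ⟨i, k⟩).trans (congrArg (· * _) (cd f k).symm)
  have Z2 := detB M M.lf (fun f => ¬ M.Inc v f ∧ f ≠ g0) (fun d => ¬ M.Inc v (M.rf d))
    (fun _ _ b => b.1) h1 (by
      have : #{x | ¬ (¬ M.Inc v x ∧ x ≠ g0)} ≤ 3 + 1 :=
        (card_le_card (t := insert g0 (univ.image fun j => M.lf (a j))) fun x => by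
          by_cases i : M.Inc v x <;> simp [i, ← hT.all]).trans ((card_insert_le _ _).trans (Nat.succ_le_succ card_image_le))
      omega)
  set Z : ℝ := ((lap M M.lf (fun f => ¬ M.Inc v f ∧ f ≠ g0) fun d => ¬ M.Inc v (M.rf d)).det : ℝ)
  have st' : Strict M (fun x => Z • (P 1 x - P 1 v)) (r 1)
      fun f => Z * dot (r 1 f) (P 1 (M.tl (xf f)) - P 1 v) := st.of_slack fun x f => ⟨Z, by linarith, by
    simp only [slack, dot_smul', dot_sub]; ring⟩
  have nn : ∀ x k, 0 ≤ P 1 x k - P 1 v k := fun x k => by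
    have a1 := st.1.sub (hT.inc k) x
    have a2 := st.le x (M.lf (a k))
    fin_cases k <;> simp [dot, r1] at a1 a2 ⊢ <;> linarith
  refine ⟨_, _, _, st', fun x k => ⟨(iR _).1 ?_, mul_nonneg (by linarith) (nn x k), ?_⟩⟩
  · have Zr : ∀ f k, Z * r 1 f k ∈ R := fun f k => (iR _).2 (by
      have := hZ f (M.lf (a (k + 1))) (M.lf (a (k + 2)))
      fin_cases k <;> simpa [det3, r1] using this)
    refine hc.all {x | ∀ k, Z * (P 1 x k - P 1 v k) ∈ R} (fun d hd k => ?_) (u := v)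
      (fun k => by rw [sub_self, mul_zero]; exact zero_mem _) x k
    have := congrFun (q1 d) k
    simp only [Pi.sub_apply, Pi.smul_apply, smul_eq_mul, PM.lf_rev] at this
    rw [show Z * (P 1 (M.hd d) k - P 1 v k) = Z * (P 1 (M.tl d) k - P 1 v k) + Z * (P 1 (M.hd d) k
      - P 1 (M.tl d) k) by ring, this]
    refine add_mem (hd k) ?_
    unfold wsp
    split_ifs with i
    · rw [← mul_assoc, mul_neg, mul_sum]
      refine mul_mem (neg_mem (sum_mem fun e _ => ?_)) ((iR _).2 (IsInt.cross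
        (fun k => (iR _).1 (RT _ k i.1)) (fun k => (iR _).1 (RT _ k i.2)) k))
      simp only [dot, one_mul, mul_add, ← mul_assoc]
      exact add_mem (add_mem (mul_mem (Zr _ _) (RT _ _ i.2)) (mul_mem (Zr _ _) (RT _ _ i.2)))
        (mul_mem (Zr _ _) (RT _ _ i.2))
    · rw [← neg_mem_iff, iR]
      have := hZ (M.lf d) (M.rf d) (M.lf (a k))
      fin_cases k <;> convert this using 3 <;> simp [det3, r1, cr0, cr1, cr2] <;> ring
  · have D0 : (0 : ℝ) ≤ Fintype.card D := by positivity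
    have up : ∀ f k, r 1 f k ≤ 7 * Fintype.card F * Fintype.card D := fun f k => by
      by_cases i : M.Inc v f
      · rcases rT 1 I1 f k i with e | e <;> rw [e]
        exacts [by positivity, le_trans (by norm_num) (by positivity : (0 : ℝ) ≤ _)]
      have b1 := ((co1 k).2 f i).2
      have b2 : ∑ f with ¬ M.Inc v f, ∑ d with M.lf d = f ∧ ¬ ¬ M.Inc v (M.rf d), - r 1 (M.rf d) k
          ≤ ∑ f, ∑ d with M.lf d = f, (1 : ℝ) := (sum_le_sum fun f _ => (sum_le_sum fun d hd => by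
            rcases rT 1 I1 _ k (not_not.1 (mem_filter.1 hd).2.2) with e | e <;> simp [e]).trans
          (sum_le_sum_of_subset_of_nonneg (fun d => by simp only [mem_filter]; tauto)
            fun _ _ _ => zero_le_one)).trans (sum_le_sum_of_subset_of_nonneg (filter_subset _ _)
          fun _ _ _ => sum_nonneg fun _ _ => zero_le_one)
      rw [sum_fiberwise _ M.lf fun _ => (1 : ℝ), sum_const, nsmul_eq_mul, mul_one, card_univ] at b2
      have b3 := mul_le_mul_of_nonneg_left (b1.trans (mul_le_mul_of_nonneg_left b2 (by norm_num))) F0.le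
      nlinarith [mul_nonneg F0.le D0, ps 1 I1 f k i]
    have y1 := q1 (a (k + 1))
    have y2 : wsp M M.lf (M.Inc v) (fun _ => 1) (r 1) (a (k + 1))
        ≤ 7 * Fintype.card F * Fintype.card D ^ 2 := by
      rw [wsp, if_pos ⟨hT.inc _, by rw [PM.lf_rev, hT.rf]; exact hT.inc _⟩, ← sum_neg_distrib,
        M.lf_rev (a (k + 1)), hT.rf]
      refine (sum_le_card_nsmul _ _ (7 * Fintype.card F * Fintype.card D : ℝ) fun e _ => ?_).trans ?_
      · have := up (M.rf e) (k + 1 + 1)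
        fin_cases k <;> simpa [dot, r1] using this
      · rw [nsmul_eq_mul, sq, ← mul_assoc (7 * _), mul_comm]
        exact mul_le_mul_of_nonneg_left (by exact_mod_cast card_le_univ _) (by positivity)
    have i := hT.out (k + 1)
    have y3 := (st.1.sub (M.inc_tl_rf (M.nx (a (k + 1)))) x).trans_le (neg_nonpos.2 (st.le x _))
    have y5 : P 1 x k - P 1 v k ≤ wsp M M.lf (M.Inc v) (fun _ => 1) (r 1) (a (k + 1)) := by
      refine le_of_mul_le_mul_left ?_ (ps 1 I1 _ k i)
      rw [PM.tl_nx, sub_eq_iff_eq_add.1 y1, hT.tl, PM.lf_rev, hT.rf] at y3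
      have p0 := mul_nonneg (ps 1 I1 _ 0 i).le (nn x 0)
      have p1 := mul_nonneg (ps 1 I1 _ 1 i).le (nn x 1)
      have p2 := mul_nonneg (ps 1 I1 _ 2 i).le (nn x 2)
      generalize wsp M M.lf (M.Inc v) (fun _ => 1) (r 1) (a (k + 1)) = u at y3 ⊢
      generalize M.rf (M.nx (a (k + 1))) = g at y3 p0 p1 p2 ⊢
      fin_cases k <;> simp [dot, cr0, cr1, cr2, r1] at y3 ⊢ <;> linarith
    rw [Pi.smul_apply, smul_eq_mul, mul_comm]
    exact mul_le_mul (y5.trans y2) Z2 (by linarith) (by positivity)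

end Pool.Agent.Lib.MP_d5dfc1_co.Ex
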