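import Pool.Agent.Lib.MP_d5dfc1_co.ExSimp

/-! Weakly convex limits are strictly convex; the homotopy principle. -/

namespace Pool.Agent.Lib.MP_d5dfc1_co.Ex

open Finset

variable {V F D : Type} {M : PM V F D} {p : V → V3} {n : F → V3} {c : F → ℝ}

def Sep (M : PM V F D) (n : F → V3) : Prop := ∀ x y, x ≠ y → ∃ u : V3, ‖u‖ = 1 ∧
  (∀ f, M.Inc x f → dot (n f) u ≤ 0) ∧ ∀ f, M.Inc y f → 0 ≤ dot (n f) u

lemma dot_smul' (a : ℝ) (x y : V3) : dot x (a • y) = a * dot x y := by
  simp only [dot, Pi.smul_apply, smul_eq_mul]; ring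

lemma smul_dot' (a : ℝ) (x y : V3) : dot (a • x) y = a * dot x y := by
  simp only [dot, Pi.smul_apply, smul_eq_mul]; ring

lemma add_dot' (x y z : V3) : dot (x + y) z = dot x z + dot y z := by
  simp only [dot, Pi.add_apply]; ring

lemma dot_neg' (x y : V3) : dot x (-y) = - dot x y := by simp only [dot, Pi.neg_apply]; ring

lemma Strict.sep (h : Strict M p n c) : Sep M n := fun x y ne => by
  have a : p y - p x ≠ 0 := sub_ne_zero.2 fun e => ne (h.inj e).symm
  have b : 0 < ‖p y - p x‖⁻¹ := inv_pos.2 (norm_pos_iff.2 a)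
  refine ⟨‖p y - p x‖⁻¹ • (p y - p x), norm_smul_inv_norm a, fun f i => ?_, fun f i => ?_⟩
  · rw [dot_smul', h.1.sub i]; nlinarith [h.le y f]
  · rw [dot_smul', show dot (n f) (p y - p x) = - dot (n f) (p x - p y) by
      rw [dot_sub, dot_sub]; ring, h.1.sub i]
    nlinarith [h.le x f]

variable [Fintype V] [Fintype D]

theorem close (hc : M.Con) (Z : Zero M p n c) (le : ∀ x f, 0 ≤ slack p n c x f) (O : Ori M p n)
    (dim : ∀ f, ∃ x, 0 < slack p n c x f) (S : Sep M n) : Strict M p n c := by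
  classical
  -- the barycentre direction
  have inn : ∀ x, ∃ o : V3, (∀ f, M.Inc x f → dot (n f) o < 0) ∧
      ∀ l : V3, (∀ z, dot l (p z - p x) ≤ 0) → (∃ z, dot l (p z - p x) < 0) → dot l o < 0 := by
    intro x
    have e : ∀ l : V3, dot l (∑ z, (p z - p x)) = ∑ z, dot l (p z - p x) := fun l => by
      simp only [dot, Finset.sum_apply, mul_sum, sum_add_distrib]
    have k : ∀ l : V3, (∀ z, dot l (p z - p x) ≤ 0) → (∃ z, dot l (p z - p x) < 0) →
        dot l (∑ z, (p z - p x)) < 0 := fun l a ⟨z, b⟩ => by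
      rw [e]
      exact (sum_lt_sum (g := fun _ => (0 : ℝ)) (fun z _ => a z) ⟨z, mem_univ _, b⟩).trans_eq (by simp)
    refine ⟨_, fun f i => k _ (fun z => ?_) ?_, k⟩
    · rw [Z.sub i]; linarith [le z f]
    · obtain ⟨z, hz⟩ := dim f
      exact ⟨z, by rw [Z.sub i]; linarith⟩
  -- an active vertex at an exposed location has a full cone of normals
  have act : ∀ (x : V) (l : V3), (∀ z, p z ≠ p x → dot l (p z - p x) < 0) →
      (∃ d, M.tl d = x ∧ p (M.hd d) ≠ p x) → ∀ y : V3, y ≠ 0 → 0 ≤ dot l y →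
      ∃ f, M.Inc x f ∧ 0 < dot (n f) y := by
    intro x l hl ⟨e, he, hne⟩ y y0 ly
    obtain ⟨o, o1, o2⟩ := inn x
    have l0 : ∀ z, dot l (p z - p x) ≤ 0 := fun z => by
      by_cases q : p z = p x
      · simp [q, dot]
      · exact (hl z q).le
    obtain ⟨d, t, q⟩ := cone (M := M) (p := p) (n := n) (x := x) (fun d _ => O d) (l := l) (y0 := o)
      (y := y) (fun d t => by
        by_cases q : p (M.hd d) = p x
        · right
          obtain ⟨w, -, e⟩ := O d
          rw [t, q, sub_self, smul_zero] at e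
          have a := o1 _ (t ▸ M.inc_tl_lf d)
          have b := o1 _ (t ▸ M.inc_tl_rf d)
          have n0 : n (M.lf d) ≠ 0 := fun z => by rw [z] at a; simp [dot] at a
          have r := par_of_cross n0 e
          refine ⟨_, ?_, r⟩
          rw [r, smul_dot'] at b
          exact pos_of_mul_neg_left b a.le
        · exact Or.inl (hl _ q))
      ⟨e, he, hl _ hne⟩ (o2 l l0 ⟨_, hl _ hne⟩) (fun d t => (o1 _ (t ▸ M.inc_tl_lf d)).le)
      ⟨e, he, o1 _ (he ▸ M.inc_tl_lf e)⟩ y0 ly
    exact ⟨_, t ▸ M.inc_tl_lf d, q⟩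
  have nontriv : ∀ x, ∃ z, p z ≠ p x := fun x => by
    obtain ⟨d, rfl⟩ := M.tl_surj x
    obtain ⟨z, hz⟩ := dim (M.lf d)
    refine ⟨z, fun e => ?_⟩
    have := Z _ _ (M.inc_tl_lf d)
    simp only [slack, e] at hz this
    linarith
  -- an exposed location carries one vertex
  have alone : ∀ (x : V) (l : V3), (∀ z, p z ≠ p x → dot l (p z - p x) < 0) →
      ∀ z, p z = p x → z = x := by
    intro x l hl z hz
    by_contra ne
    obtain ⟨v, hv, d, hd, a⟩ : ∃ v, p v = p x ∧ ∃ d, M.tl d = v ∧ p (M.hd d) ≠ p x := by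
      by_contra N
      push Not at N
      obtain ⟨u, hu⟩ := nontriv x
      exact hu (hc.all {v | p v = p x} (fun d t => N _ t d rfl) (u := x) rfl u)
    obtain ⟨v', hv', ne', d', hd', a'⟩ :
        ∃ v', p v' = p x ∧ v' ≠ v ∧ ∃ d, M.tl d = v' ∧ p (M.hd d) ≠ p x := by
      by_contra N
      push Not at N
      obtain ⟨u, hu⟩ := nontriv x
      obtain ⟨b, hb⟩ : ∃ b, b ∈ {b | p b = p x ∧ b ≠ v} := by
        by_cases q : x = v
        · exact ⟨z, hz, q ▸ ne⟩
        · exact ⟨x, rfl, q⟩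
      rcases hc v v {b | p b = p x ∧ b ≠ v} (fun k => k.2 rfl) (fun k => k.2 rfl) (fun e t => by
        by_cases q : M.hd e = v
        · exact Or.inr (Or.inl q)
        · exact Or.inl ⟨N _ t.1 t.2 e rfl, q⟩) b hb u with k | k | k
      exacts [hu k.1, hu (k ▸ hv), hu (k ▸ hv)]
    obtain ⟨u, u1, u2, u3⟩ := S v v' ne'.symm
    have u0 : u ≠ 0 := by rintro rfl; simp at u1
    rcases le_total 0 (dot l u) with k | k
    · obtain ⟨f, i, q⟩ := act v l (by rw [hv]; exact hl) ⟨d, hd, by rw [hv]; exact a⟩ u u0 k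
      linarith [u2 f i]
    · obtain ⟨f, i, q⟩ := act v' l (by rw [hv']; exact hl) ⟨d', hd', by rw [hv']; exact a'⟩ (-u)
        (neg_ne_zero.2 u0) (by rw [dot_neg']; linarith)
      rw [dot_neg'] at q
      linarith [u3 f i]
  -- the line of a nonzero edge
  have line : ∀ d, p (M.hd d) ≠ p (M.tl d) →
      (∃ l : V3, ∀ z, p z ≠ p (M.tl d) → dot l (p z - p (M.tl d)) < 0) ∧
      ∀ z, slack p n c z (M.lf d) = 0 → slack p n c z (M.rf d) = 0 → z = M.tl d ∨ z = M.hd d := by
    intro d ne
    obtain ⟨ω, hω, e⟩ := O d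
    set w := p (M.hd d) - p (M.tl d) with hw
    have w0 : w ≠ 0 := sub_ne_zero.2 ne
    have wp := dot_pos w0
    set T : V → Prop := fun z => slack p n c z (M.lf d) = 0 ∧ slack p n c z (M.rf d) = 0 with hT
    set t : V → ℝ := fun z => dot w (p z - p (M.tl d)) / dot w w with ht
    have onl : ∀ z, T z → p z - p (M.tl d) = t z • w := fun z ⟨a, b⟩ => by
      refine par_of_cross w0 ?_
      have := cross_of_perp (a := n (M.lf d)) (b := n (M.rf d)) (w := p z - p (M.tl d))
        (by rw [Z.sub (M.inc_tl_lf d), a, neg_zero]) (by rw [Z.sub (M.inc_tl_rf d), b, neg_zero])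
      rw [e] at this
      have h0 := congrFun this 0; have h1 := congrFun this 1; have h2 := congrFun this 2
      simp only [cr0, cr1, cr2, Pi.zero_apply, Pi.smul_apply, smul_eq_mul] at h0 h1 h2
      refine v3_ext ?_ ?_ ?_ <;> refine (mul_eq_zero.1 ?_).resolve_left hω.ne' <;>
        simp only [cr0, cr1, cr2] <;> linarith
    have dif : ∀ z z', T z → T z' → p z - p z' = (t z - t z') • w := fun z z' a b => by
      rw [sub_smul, ← onl z a, ← onl z' b]; abel
    have T0 : T (M.tl d) := ⟨Z _ _ (M.inc_tl_lf d), Z _ _ (M.inc_tl_rf d)⟩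
    have T1 : T (M.hd d) := ⟨Z _ _ (M.inc_hd_lf d), Z _ _ (M.inc_hd_rf d)⟩
    have t0 : t (M.tl d) = 0 := by simp [ht, dot]
    have t1 : t (M.hd d) = 1 := div_self wp.ne'
    -- an end of the line is exposed
    have ends : ∀ (s : ℝ) (a : V), T a → s ≠ 0 → (∀ z, T z → s * t z ≤ s * t a) →
        ∃ l : V3, ∀ z, p z ≠ p a → dot l (p z - p a) < 0 := by
      intro s a Ta s0 hm
      have ev : ∀ z, dot (n (M.lf d) + n (M.rf d)) (p z - p a)
          = - slack p n c z (M.lf d) - slack p n c z (M.rf d) := fun z => by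
        have a1 := Ta.1; have a2 := Ta.2
        simp only [slack, dot, Pi.add_apply, Pi.sub_apply] at a1 a2 ⊢
        linarith
      obtain ⟨K, K0, hK⟩ := bigK (fun z => ¬ T z)
        (fun z => dot (n (M.lf d) + n (M.rf d)) (p z - p a)) (fun z => dot (s • w) (p z - p a))
        (fun z hz => by
          rw [ev]
          by_contra k
          exact hz ⟨by linarith [le z (M.lf d), le z (M.rf d)],
            by linarith [le z (M.lf d), le z (M.rf d)]⟩)
      refine ⟨K • (n (M.lf d) + n (M.rf d)) + s • w, fun z hz => ?_⟩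
      rw [add_dot', smul_dot']
      by_cases Tz : T z
      · rw [ev, Tz.1, Tz.2, dif z a Tz Ta, smul_dot', dot_smul']
        have : t z ≠ t a := fun k => hz (by
          have := dif z a Tz Ta
          rw [k, sub_self, zero_smul] at this
          exact sub_eq_zero.1 this)
        have : s * t z < s * t a := lt_of_le_of_ne (hm z Tz) fun k => this (mul_left_cancel₀ s0 k)
        nlinarith
      · exact hK z Tz
    obtain ⟨a, Ta, ma⟩ := Set.exists_max_image {z | T z} t (Set.toFinite _) ⟨_, T0⟩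
    obtain ⟨b, Tb, mb⟩ := Set.exists_min_image {z | T z} t (Set.toFinite _) ⟨_, T0⟩
    obtain ⟨la, ha⟩ := ends 1 a Ta one_ne_zero fun z hz => by simpa using ma z hz
    obtain ⟨lb, hb⟩ := ends (-1) b Tb (by norm_num) fun z hz => by simpa using mb z hz
    have ea : ∀ z, T z → t z = t a → z = a := fun z Tz k => alone a la ha z (by
      have := dif z a Tz Ta
      rw [k, sub_self, zero_smul] at this
      exact sub_eq_zero.1 this)
    have eb : ∀ z, T z → t z = t b → z = b := fun z Tz k => alone b lb hb z (by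
      have := dif z b Tz Tb
      rw [k, sub_self, zero_smul] at this
      exact sub_eq_zero.1 this)
    have two : ∀ z, T z → z = a ∨ z = b := by
      intro z Tz
      by_contra N
      push Not at N
      obtain ⟨u, hu⟩ := dim (M.lf d)
      rcases hc a b {v | T v ∧ v ≠ a ∧ v ≠ b} (fun k => k.2.1 rfl) (fun k => k.2.2 rfl)
        (fun e' ⟨Tv, na, nb⟩ => by
          have la' : t (M.tl e') < t a := lt_of_le_of_ne (ma _ Tv) fun k => na (ea _ Tv k)
          have lb' : t b < t (M.tl e') := lt_of_le_of_ne (mb _ Tv) fun k => nb (eb _ Tv k.symm)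
          have perp : ∀ f, M.Inc (M.tl e') f → dot (n f) w = 0 := fun f i => by
            have k1 := Z.sub i a
            have k2 := Z.sub i b
            rw [dif _ _ Ta Tv, dot_smul'] at k1
            rw [dif _ _ Tb Tv, dot_smul'] at k2
            have := le a f
            have := le b f
            apply le_antisymm <;> by_contra k <;> push Not at k <;> nlinarith
          obtain ⟨ω', hω', e''⟩ := O e'
          have par := par_of_cross w0 (cross_of_perp (perp _ (M.inc_tl_lf e')) (perp _ (M.inc_tl_rf e')))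
          rw [e''] at par
          have nw : ∀ f, (f = M.lf d ∨ f = M.rf d) → slack p n c (M.tl e') f = 0 →
              slack p n c (M.hd e') f = 0 := fun f hf k => by
            have q : dot (n f) w = 0 := by
              rcases hf with rfl | rfl
              exacts [Z.perp (M.inc_tl_lf d) (M.inc_hd_lf d), Z.perp (M.inc_tl_rf d) (M.inc_hd_rf d)]
            have := congrArg (dot (n f)) par
            rw [dot_smul', dot_smul', q, mul_zero, dot_sub] at this
            have := (mul_eq_zero.1 this).resolve_left hω'.ne'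
            simp only [slack] at k ⊢
            linarith
          by_cases q1 : M.hd e' = a
          · exact Or.inr (Or.inl q1)
          by_cases q2 : M.hd e' = b
          · exact Or.inr (Or.inr q2)
          exact Or.inl ⟨⟨nw _ (Or.inl rfl) Tv.1, nw _ (Or.inr rfl) Tv.2⟩, q1, q2⟩)
        z ⟨Tz, N⟩ u with k | k | k
      · linarith [k.1.1]
      · rw [k] at hu; linarith [Ta.1]
      · rw [k] at hu; linarith [Tb.1]
    refine ⟨?_, fun z z1 z2 => ?_⟩
    · rcases two _ T0 with k | k <;> rw [k]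
      exacts [⟨la, ha⟩, ⟨lb, hb⟩]
    · have := M.hd_ne d
      rcases two _ T0 with k | k <;> rcases two _ T1 with k' | k' <;>
        rcases two z ⟨z1, z2⟩ with k'' | k'' <;>
        first
        | exact Or.inl (k''.trans k.symm)
        | exact Or.inr (k''.trans k'.symm)
        | exact absurd (k'.trans k.symm) this
  have nz : ∀ d, p (M.hd d) ≠ p (M.tl d) := by
    intro d e
    obtain ⟨v, hv, d', hd, a⟩ : ∃ v, p v = p (M.tl d) ∧ ∃ d', M.tl d' = v ∧ p (M.hd d') ≠ p (M.tl d) := by
      by_contra N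
      push Not at N
      obtain ⟨u, hu⟩ := nontriv (M.tl d)
      exact hu (hc.all {v | p v = p (M.tl d)} (fun d t => N _ t d rfl) (u := M.tl d) rfl u)
    subst hd
    obtain ⟨l, hl⟩ := (line d' (by rw [hv]; exact a)).1
    exact M.hd_ne d ((alone _ l hl _ (e.trans hv.symm)).trans (alone _ l hl _ hv.symm).symm)
  refine ⟨Z, fun x f i => (le x f).lt_of_ne fun z => ?_⟩
  obtain ⟨e, rfl⟩ := M.tl_surj x
  obtain ⟨l, hl⟩ := (line e (nz e)).1
  obtain ⟨d0, hd0⟩ := M.lf_surj f
  have fn : ∀ d, M.lf d = f → dot (n f) (p (M.tl d) - p (M.tl e)) = 0 := fun d t => by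
    rw [← neg_sub, dot_neg', Z.sub (t ▸ M.inc_tl_lf d), ← z]; simp
  refine faceCyc (univ.filter fun d => M.lf d = f) M.nxP (by simp)
    (fun d => p (M.tl d) - p (M.tl e)) (n := n f) (l := l) ⟨d0, by simpa using hd0⟩
    (fun d hd => fn d (by simpa using hd)) (fun d hd => ?_) (fun d hd => ?_)
  · have t : M.lf d = f := by simpa using hd
    obtain ⟨ω, hω, q⟩ := O d
    have s0 : 0 < slack p n c (M.tl e) (M.rf d) := (le _ _).lt_of_ne fun k => by
      rcases (line d (nz d)).2 _ (t ▸ z.symm) k.symm with r | r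
      · exact i (r ▸ t ▸ M.inc_tl_lf d)
      · exact i (r ▸ t ▸ M.inc_hd_lf d)
    have n0 : n f ≠ 0 := fun k => by
      obtain ⟨u, hu⟩ := dim f
      simp only [slack, k, dot, Pi.zero_apply] at hu z
      linarith
    have a1 := fn d t
    have a2 := Z.sub (M.inc_tl_rf d) (M.tl e)
    have : ω * dot (n f) (cross (p (M.tl d) - p (M.tl e)) (p (M.hd d) - p (M.tl e)))
        = dot (n f) (n f) * slack p n c (M.tl e) (M.rf d) := by
      rw [t] at q
      have h0 := congrFun q 0; have h1 := congrFun q 1; have h2 := congrFun q 2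
      simp only [cr0, cr1, cr2, Pi.smul_apply, smul_eq_mul, Pi.sub_apply, dot] at h0 h1 h2 a1 a2 ⊢
      linear_combination
        (-(n f 1 * (p (M.tl d) 2 - p (M.tl e) 2) - n f 2 * (p (M.tl d) 1 - p (M.tl e) 1))) * h0
        - (n f 2 * (p (M.tl d) 0 - p (M.tl e) 0) - n f 0 * (p (M.tl d) 2 - p (M.tl e) 2)) * h1
        - (n f 0 * (p (M.tl d) 1 - p (M.tl e) 1) - n f 1 * (p (M.tl d) 0 - p (M.tl e) 0)) * h2
        - (n f 0 * n f 0 + n f 1 * n f 1 + n f 2 * n f 2) * a2
        - (n f 0 * n (M.rf d) 0 + n f 1 * n (M.rf d) 1 + n f 2 * n (M.rf d) 2) * a1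
    have k := mul_pos (dot_pos n0) s0
    rw [← this] at k
    simpa using (pos_iff_pos_of_mul_pos k).1 hω
  · have t : M.lf d = f := by simpa using hd
    exact hl _ fun k => i (alone _ l hl _ k ▸ t ▸ M.inc_tl_lf d)

lemma cont_dot {X : Type} [TopologicalSpace X] {a b : X → V3} (ha : Continuous a)
    (hb : Continuous b) : Continuous fun s => dot (a s) (b s) := by
  unfold dot; fun_prop

theorem homot [Finite F] (hc : M.Con) (p : ℝ → V → V3) (n : ℝ → F → V3) (c : ℝ → F → ℝ)
    (cp : ContinuousOn p (Set.Icc 0 1)) (cn : ContinuousOn n (Set.Icc 0 1))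
    (cc : ContinuousOn c (Set.Icc 0 1)) (Z : ∀ s ∈ Set.Icc (0 : ℝ) 1, Zero M (p s) (n s) (c s))
    (O : ∀ s ∈ Set.Icc (0 : ℝ) 1, Ori M (p s) (n s))
    (dim : ∀ s ∈ Set.Icc (0 : ℝ) 1, (∀ x f, 0 ≤ slack (p s) (n s) (c s) x f) →
      ∀ f, ∃ x, 0 < slack (p s) (n s) (c s) x f)
    (h0 : Strict M (p 0) (n 0) (c 0)) : Strict M (p 1) (n 1) (c 1) := by
  rw [continuousOn_iff_continuous_domRestrict] at cp cn cc
  have cn' : ∀ f, Continuous fun s : Set.Icc (0 : ℝ) 1 => n s f := fun f =>
    (continuous_apply f).comp cn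
  have cs : ∀ x f, Continuous fun s : Set.Icc (0 : ℝ) 1 => slack (p s) (n s) (c s) x f := fun x f =>
    ((continuous_apply f).comp cc).sub (cont_dot (cn' f) ((continuous_apply x).comp cp))
  set A : Set (Set.Icc (0 : ℝ) 1) := {s | Strict M (p s) (n s) (c s)} with hA
  have op : IsOpen A := by
    have : A = ⋂ x, ⋂ f, ⋂ _ : ¬ M.Inc x f, {s : Set.Icc (0 : ℝ) 1 | 0 < slack (p s) (n s) (c s) x f} := by
      ext s
      simp only [hA, Set.mem_ofPred_eq, Set.mem_iInter]
      exact ⟨fun h => h.2, fun h => ⟨Z s s.2, h⟩⟩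
    rw [this]
    exact isOpen_iInter_of_finite fun x => isOpen_iInter_of_finite fun f =>
      isOpen_iInter_of_finite fun _ => isOpen_lt continuous_const (cs x f)
  have cl : IsClosed A := by
    have : A = (⋂ x, ⋂ f, {s : Set.Icc (0 : ℝ) 1 | 0 ≤ slack (p s) (n s) (c s) x f}) ∩ ⋂ x, ⋂ y, ⋂ _ : x ≠ y,
        Prod.fst '' {q : Set.Icc (0 : ℝ) 1 × Metric.sphere (0 : V3) 1 |
          (∀ f, M.Inc x f → dot (n q.1 f) q.2 ≤ 0) ∧ ∀ f, M.Inc y f → 0 ≤ dot (n q.1 f) q.2} := by
      ext s
      simp only [hA, Set.mem_ofPred_eq, Set.mem_iInter, Set.mem_inter_iff]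
      refine ⟨fun h => ⟨h.le, fun x y ne => ?_⟩, fun ⟨a, b⟩ =>
        close hc (Z s s.2) a (O s s.2) (dim s s.2 a) fun x y ne => ?_⟩
      · obtain ⟨u, u1, u2⟩ := h.sep x y ne
        exact ⟨(s, ⟨u, by simpa using u1⟩), u2, rfl⟩
      · obtain ⟨⟨s', u⟩, u2, rfl⟩ := b x y ne
        exact ⟨u, by simpa using u.2, u2⟩
    rw [this]
    refine (isClosed_iInter fun x => isClosed_iInter fun f =>
      isClosed_le continuous_const (cs x f)).inter (isClosed_iInter fun x => isClosed_iInter fun y =>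
      isClosed_iInter fun _ => isClosedMap_fst_of_compactSpace _ ?_)
    have cq : ∀ f, Continuous fun q : Set.Icc (0 : ℝ) 1 × Metric.sphere (0 : V3) 1 =>
        dot (n q.1 f) q.2 := fun f =>
      cont_dot ((cn' f).comp continuous_fst) (continuous_subtype_val.comp continuous_snd)
    simp only [Set.ofPred_and, Set.ofPred_forall]
    exact (isClosed_iInter fun f => isClosed_iInter fun _ => isClosed_le (cq f) continuous_const).inter
      (isClosed_iInter fun f => isClosed_iInter fun _ => isClosed_le continuous_const (cq f))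
  have : PreconnectedSpace (Set.Icc (0 : ℝ) 1) := Subtype.preconnectedSpace isPreconnected_Icc
  have := IsClopen.eq_univ ⟨cl, op⟩ ⟨⟨0, by simp⟩, h0⟩
  exact (this ▸ Set.mem_univ (⟨1, by simp⟩ : Set.Icc (0 : ℝ) 1) : _ ∈ A)

end Pool.Agent.Lib.MP_d5dfc1_co.Ex
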