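import Pool.Agent.Lib.MP_d5dfc1_co.Poly

/-! Polyhedral maps: darts, vertices, faces; strict realisations. -/

namespace Pool.Agent.Lib.MP_d5dfc1_co.Ex

open Finset

/-- combinatorial map: `tl` tail vertex, `lf` left face, `sg` rotation at the tail -/
structure PM (V F D : Type) where
  rev : D → D
  tl : D → V
  lf : D → F
  sg : Equiv.Perm D
  rev_rev : ∀ d, rev (rev d) = d
  tl_sg : ∀ d, tl (sg d) = tl d
  lf_sg : ∀ d, lf (sg d) = lf (rev d)
  vtr : ∀ d e, tl d = tl e → ∃ k : ℕ, sg^[k] d = e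
  ftr : ∀ d e, lf d = lf e → ∃ k : ℕ, (fun a => sg (rev a))^[k] d = e
  uniq : ∀ d e, tl d = tl e → lf d = lf e → d = e
  simple : ∀ d e, tl d = tl e → tl (rev d) = tl (rev e) → d = e
  tl_surj : ∀ x, ∃ d, tl d = x
  lf_surj : ∀ f, ∃ d, lf d = f
  noloop : ∀ d, tl (rev d) ≠ tl d
  sides : ∀ d, lf (rev d) ≠ lf d
  two : ∀ d a b, tl a = tl b → lf a = lf d → lf b = lf (rev d) →
    tl a = tl d ∨ tl a = tl (rev d)

variable {V F D : Type}

namespace PM
variable (M : PM V F D)

/-- head vertex -/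
def hd (d : D) : V := M.tl (M.rev d)
/-- right face -/
def rf (d : D) : F := M.lf (M.rev d)
/-- next dart along the left face -/
def nx (d : D) : D := M.sg (M.rev d)
def Inc (x : V) (f : F) : Prop := ∃ d, M.tl d = x ∧ M.lf d = f
def Adj (x y : V) : Prop := ∃ d, M.tl d = x ∧ M.hd d = y

/-- 3-connectivity -/
def Con : Prop := ∀ (x y : V) (C : Set V), x ∉ C → y ∉ C →
  (∀ d, M.tl d ∈ C → M.hd d ∈ C ∨ M.hd d = x ∨ M.hd d = y) → ∀ u ∈ C, ∀ w, w ∈ C ∨ w = x ∨ w = y

/-- closed one-forms are exact -/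
def Exa [Fintype D] [DecidableEq F] : Prop := ∀ θ : D → ℝ, (∀ d, θ (M.rev d) = - θ d) →
  (∀ f, ∑ d with M.lf d = f, θ d = 0) → ∃ P : V → ℝ, ∀ d, θ d = P (M.hd d) - P (M.tl d)

@[simp] lemma hd_rev (d : D) : M.hd (M.rev d) = M.tl d := by simp [hd, M.rev_rev]
@[simp] lemma tl_rev (d : D) : M.tl (M.rev d) = M.hd d := rfl
@[simp] lemma rf_rev (d : D) : M.rf (M.rev d) = M.lf d := by simp [rf, M.rev_rev]
@[simp] lemma lf_rev (d : D) : M.lf (M.rev d) = M.rf d := rfl
@[simp] lemma rr (d : D) : M.rev (M.rev d) = d := M.rev_rev d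
@[simp] lemma tl_sg' (d : D) : M.tl (M.sg d) = M.tl d := M.tl_sg d
@[simp] lemma lf_sg' (d : D) : M.lf (M.sg d) = M.rf d := M.lf_sg d
@[simp] lemma tl_nx (d : D) : M.tl (M.nx d) = M.hd d := by simp [nx]
@[simp] lemma lf_nx (d : D) : M.lf (M.nx d) = M.lf d := by simp [nx]
lemma hd_ne (d : D) : M.hd d ≠ M.tl d := M.noloop d
lemma rf_ne (d : D) : M.rf d ≠ M.lf d := M.sides d
lemma simple' {d e : D} (h1 : M.tl d = M.tl e) (h2 : M.hd d = M.hd e) : d = e := M.simple d e h1 h2

/-- `rev` as a permutation -/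
def revP : Equiv.Perm D := ⟨M.rev, M.rev, M.rev_rev, M.rev_rev⟩
@[simp] lemma revP_apply (d : D) : M.revP d = M.rev d := rfl
/-- `nx` as a permutation -/
def nxP : Equiv.Perm D := M.revP.trans M.sg
@[simp] lemma nxP_apply (d : D) : M.nxP d = M.nx d := rfl

lemma inc_tl_lf (d : D) : M.Inc (M.tl d) (M.lf d) := ⟨d, rfl, rfl⟩
lemma inc_tl_rf (d : D) : M.Inc (M.tl d) (M.rf d) := ⟨M.sg d, by simp, by simp⟩
lemma inc_hd_lf (d : D) : M.Inc (M.hd d) (M.lf d) := ⟨M.nx d, by simp, by simp⟩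
lemma inc_hd_rf (d : D) : M.Inc (M.hd d) (M.rf d) := ⟨M.rev d, by simp, by simp⟩

lemma two' (d : D) {x : V} (h1 : M.Inc x (M.lf d)) (h2 : M.Inc x (M.rf d)) :
    x = M.tl d ∨ x = M.hd d := by
  obtain ⟨a, rfl, ha⟩ := h1
  obtain ⟨b, hb, hb'⟩ := h2
  exact M.two d a b hb.symm ha hb'

lemma sg_ne (d : D) : M.sg d ≠ d := fun h => M.rf_ne d (by rw [← M.lf_sg', h])

lemma hd_sg_ne (d : D) : M.hd (M.sg d) ≠ M.hd d := fun h => M.sg_ne d (M.simple' (by simp) h)

lemma nd1 (d : D) : ¬ M.Inc (M.hd d) (M.rf (M.sg d)) := fun h => by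
  rcases M.two' (M.sg d) (by simpa using M.inc_hd_rf d) h with e | e
  · exact M.hd_ne d (by simpa using e)
  · exact M.hd_sg_ne d e.symm

lemma nd2 (d : D) : ¬ M.Inc (M.hd (M.sg d)) (M.lf d) := fun h => by
  rcases M.two' d h (by simpa using M.inc_hd_lf (M.sg d)) with e | e
  · exact M.hd_ne (M.sg d) (by simpa using e)
  · exact M.hd_sg_ne d e

lemma nd3 {x y : V} (h : x ≠ y) : ∃ f, M.Inc x f ∧ ¬ M.Inc y f := by
  by_contra n
  push Not at n
  obtain ⟨d, rfl⟩ := M.tl_surj x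
  have a : ∀ e, M.tl e = M.tl d → y = M.hd e := fun e he =>
    (M.two' e (n _ (he ▸ M.inc_tl_lf e)) (n _ (he ▸ M.inc_tl_rf e))).resolve_left
      (by rw [he]; exact h.symm)
  exact M.hd_sg_ne d ((a _ (by simp)).symm.trans (a d rfl))

lemma sg_sg_ne (d : D) : M.sg (M.sg d) ≠ d := fun h =>
  M.nd2 d (by have := M.inc_hd_rf (M.sg d); rwa [← M.lf_sg' (M.sg d), h] at this)

lemma nx_ne (d : D) : M.nx d ≠ d := fun h => M.hd_ne d (by rw [← M.tl_nx, h])

lemma hd_nx_ne (d : D) : M.hd (M.nx d) ≠ M.tl d := fun h => by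
  have : M.nx d = M.rev d := M.simple' (by simp) (by simpa using h)
  exact M.rf_ne d (by rw [← M.lf_rev, ← this]; simp)

lemma uniq_lr {d e : D} (h1 : M.lf d = M.lf e) (h2 : M.rf d = M.rf e) : d = e := by
  rcases M.two' d (h1 ▸ M.inc_tl_lf e) (h2 ▸ M.inc_tl_rf e) with a | a
  · exact M.uniq _ _ a.symm h1
  rcases M.two' d (h1 ▸ M.inc_hd_lf e) (h2 ▸ M.inc_hd_rf e) with b | b
  · have : e = M.rev d := M.simple' (by simpa using a) (by simpa using b)
    exact absurd (by rw [h1, this]; simp) (M.rf_ne d)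
  · exact absurd (b.trans a.symm) (M.hd_ne e)

/-- induction around a vertex -/
lemma v_ind {P : D → Prop} (h : ∀ d, P d → P (M.sg d)) {d e : D} (hd : P d)
    (t : M.tl d = M.tl e) : P e := by
  obtain ⟨k, rfl⟩ := M.vtr d e t
  clear t
  induction k with
  | zero => exact hd
  | succ k ih => rw [Function.iterate_succ_apply']; exact h _ ih

/-- induction around a face -/
lemma f_ind {P : D → Prop} (h : ∀ d, P d → P (M.nx d)) {d e : D} (hd : P d)
    (t : M.lf d = M.lf e) : P e := by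
  obtain ⟨k, rfl⟩ := M.ftr d e t
  clear t
  induction k with
  | zero => exact hd
  | succ k ih => rw [Function.iterate_succ_apply']; exact h _ ih

/-- connectivity -/
lemma Con.all {M : PM V F D} (h : M.Con) (C : Set V) (hC : ∀ d, M.tl d ∈ C → M.hd d ∈ C)
    {u : V} (hu : u ∈ C) (w : V) : w ∈ C := by
  by_contra n
  obtain ⟨d, rfl⟩ := M.tl_surj w
  rcases h (M.tl d) (M.tl d) C n n (fun e he => Or.inl (hC e he)) u hu (M.hd d) with a | a | a
  · exact n (by simpa using hC (M.rev d) a)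
  · exact M.hd_ne d a
  · exact M.hd_ne d a

/-- a function on the darts at `x` that is constant along `U`-steps is constant on `U`,
if `U` has at most one exit -/
lemma interval {α : Type} (x : V) (U : D → Prop) (val : D → α)
    (hv : ∀ d, M.tl d = x → U d → U (M.sg d) → val (M.sg d) = val d)
    (ex : ∀ d e, M.tl d = x → M.tl e = x → U d → ¬ U (M.sg d) → U e → ¬ U (M.sg e) → d = e)
    {d e : D} (hd : M.tl d = x) (he : M.tl e = x) (ud : U d) (ue : U e) : val d = val e := by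
  obtain ⟨s, hs, hx⟩ : ∃ s, M.tl s = x ∧ ∀ a, M.tl a = x → U a → ¬ U (M.sg a) → a = s := by
    by_cases h : ∃ s, M.tl s = x ∧ U s ∧ ¬ U (M.sg s)
    · obtain ⟨s, a, b, c⟩ := h
      exact ⟨s, a, fun t h1 h2 h3 => ex t s h1 a h2 h3 b c⟩
    · exact ⟨d, hd, fun t h1 h2 h3 => absurd ⟨t, h1, h2, h3⟩ h⟩
  have key : ∀ (k : ℕ) a, M.tl a = x → U a → M.sg^[k] a = s → val a = val s := by
    intro k
    induction k with
    | zero => intro a _ _ h; exact congrArg val h
    | succ k ih =>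
      intro a h1 h2 h3
      by_cases u : U (M.sg a)
      · rw [← hv a h1 h2 u]; exact ih _ (by simpa using h1) u h3
      · rw [hx a h1 h2 u]
  obtain ⟨k, hk⟩ := M.vtr d s (hd.trans hs.symm)
  obtain ⟨l, hl⟩ := M.vtr e s (he.trans hs.symm)
  rw [key k d hd ud hk, key l e he ue hl]

variable [Fintype D]

lemma sum_rev {A : Type} [AddCommMonoid A] (g : D → A) : ∑ d, g (M.rev d) = ∑ d, g d :=
  Equiv.sum_comp M.revP g

lemma sum_sg {A : Type} [AddCommMonoid A] [DecidableEq V] (x : V) (g : D → A) :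
    ∑ d with M.tl d = x, g (M.sg d) = ∑ d with M.tl d = x, g d :=
  sum_bijective M.sg M.sg.bijective (by simp) (fun _ _ => rfl)

lemma sum_nx {A : Type} [AddCommMonoid A] [DecidableEq F] (f : F) (g : D → A) :
    ∑ d with M.lf d = f, g (M.nx d) = ∑ d with M.lf d = f, g d :=
  sum_bijective M.nxP M.nxP.bijective (by simp) (fun _ _ => rfl)

/-- telescoping around a vertex -/
lemma tele_v {A : Type} [AddCommGroup A] [DecidableEq V] (x : V) (Q : F → A) :
    ∑ d with M.tl d = x, (Q (M.rf d) - Q (M.lf d)) = 0 := by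
  rw [sum_sub_distrib, ← M.sum_sg x fun d => Q (M.lf d)]; simp

/-- telescoping around a face -/
lemma tele_f {A : Type} [AddCommGroup A] [DecidableEq F] (f : F) (P : V → A) :
    ∑ d with M.lf d = f, (P (M.hd d) - P (M.tl d)) = 0 := by
  rw [sum_sub_distrib, ← M.sum_nx f fun d => P (M.tl d)]; simp

end PM

/-- height of the plane of `f` over the point of `x` -/
def slack (p : V → V3) (n : F → V3) (c : F → ℝ) (x : V) (f : F) : ℝ := c f - dot (n f) (p x)

def Zero (M : PM V F D) (p : V → V3) (n : F → V3) (c : F → ℝ) : Prop :=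
  ∀ x f, M.Inc x f → slack p n c x f = 0

def Strict (M : PM V F D) (p : V → V3) (n : F → V3) (c : F → ℝ) : Prop :=
  Zero M p n c ∧ ∀ x f, ¬ M.Inc x f → 0 < slack p n c x f

def Ori (M : PM V F D) (p : V → V3) (n : F → V3) : Prop :=
  ∀ d, ∃ w : ℝ, 0 < w ∧ cross (n (M.lf d)) (n (M.rf d)) = w • (p (M.hd d) - p (M.tl d))

lemma Strict.le {M : PM V F D} {p : V → V3} {n : F → V3} {c : F → ℝ} (h : Strict M p n c)
    (x : V) (f : F) : 0 ≤ slack p n c x f := by
  by_cases i : M.Inc x f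
  · exact (h.1 x f i).ge
  · exact (h.2 x f i).le

lemma Strict.inj {M : PM V F D} {p : V → V3} {n : F → V3} {c : F → ℝ} (h : Strict M p n c) :
    Function.Injective p := fun x y e => by
  by_contra ne
  obtain ⟨f, a, b⟩ := M.nd3 ne
  have := h.2 y f b
  have h0 := h.1 x f a
  simp only [slack, e] at this h0
  linarith

lemma Strict.neg {M : PM V F D} {p : V → V3} {n : F → V3} {c : F → ℝ} (h : Strict M p n c) :
    Strict M (fun x => - p x) (fun f => - n f) c := by
  have : ∀ x f, slack (fun x => - p x) (fun f => - n f) c x f = slack p n c x f := fun x f => by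
    simp [slack, dot]
  exact ⟨fun x f i => by rw [this]; exact h.1 x f i, fun x f i => by rw [this]; exact h.2 x f i⟩

/-! vector algebra -/

lemma v3_ext {x y : V3} (h0 : x 0 = y 0) (h1 : x 1 = y 1) (h2 : x 2 = y 2) : x = y := by
  ext k; fin_cases k <;> assumption

lemma cr0 (x y : V3) : cross x y 0 = x 1 * y 2 - x 2 * y 1 := rfl
lemma cr1 (x y : V3) : cross x y 1 = x 2 * y 0 - x 0 * y 2 := rfl
lemma cr2 (x y : V3) : cross x y 2 = x 0 * y 1 - x 1 * y 0 := rfl

lemma dot_pos {a : V3} (h : a ≠ 0) : 0 < dot a a := by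
  by_contra n
  apply h
  simp only [dot] at n
  refine v3_ext ?_ ?_ ?_ <;> simp only [Pi.zero_apply] <;>
    nlinarith [sq_nonneg (a 0), sq_nonneg (a 1), sq_nonneg (a 2)]

/-- parallel vectors -/
lemma par_of_cross {a b : V3} (ha : a ≠ 0) (h : cross a b = 0) : b = (dot a b / dot a a) • a := by
  have h0 := congrFun h 0; have h1 := congrFun h 1; have h2 := congrFun h 2
  simp only [cr0, cr1, cr2, Pi.zero_apply] at h0 h1 h2
  have := (dot_pos ha).ne'
  refine v3_ext ?_ ?_ ?_ <;> simp only [Pi.smul_apply, smul_eq_mul] <;> field_simp <;>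
    simp only [dot]
  · linear_combination a 2 * h1 - a 1 * h2
  · linear_combination a 0 * h2 - a 2 * h0
  · linear_combination a 1 * h0 - a 0 * h1

/-- a vector orthogonal to `a` and `b` is parallel to their cross product -/
lemma cross_of_perp {a b w : V3} (h1 : dot a w = 0) (h2 : dot b w = 0) :
    cross w (cross a b) = 0 := by
  simp only [dot] at h1 h2
  refine v3_ext ?_ ?_ ?_ <;> simp only [cr0, cr1, cr2, Pi.zero_apply]
  · linear_combination a 0 * h2 - b 0 * h1
  · linear_combination a 1 * h2 - b 1 * h1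
  · linear_combination a 2 * h2 - b 2 * h1

lemma bigK {ι : Type} [Finite ι] (S : ι → Prop) (a b : ι → ℝ) (h : ∀ i, S i → a i < 0) :
    ∃ K : ℝ, 0 < K ∧ ∀ i, S i → K * a i + b i < 0 := by
  have : ∀ᶠ K : ℝ in Filter.atTop, ∀ i, S i → K * a i + b i < 0 := by
    rw [Filter.eventually_all]
    intro i
    by_cases s : S i
    · filter_upwards [Filter.eventually_gt_atTop (b i / (- a i))] with K hK _
      rw [div_lt_iff₀ (neg_pos.2 (h i s))] at hK
      linarith
    · simp [s]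
  exact ((Filter.eventually_gt_atTop 0).and this).exists

lemma ang_lt {a b a' b' : ℝ} (ha : a ≤ 0) (ha' : a' ≤ 0) (h : 0 < a * b' - b * a') :
    -b / (|b| - a) < -b' / (|b'| - a') := by
  have p1 : 0 < |b| - a := by
    rcases (abs_nonneg b).eq_or_lt with e | e
    · have : b = 0 := abs_eq_zero.1 e.symm
      subst this
      rcases ha.eq_or_lt with e | e
      · subst e; simp at h
      · simpa using e
    · linarith
  have p2 : 0 < |b'| - a' := by
    rcases (abs_nonneg b').eq_or_lt with e | e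
    · have : b' = 0 := abs_eq_zero.1 e.symm
      subst this
      rcases ha'.eq_or_lt with e | e
      · subst e; simp at h
      · simpa using e
    · linarith
  rw [div_lt_div_iff₀ p1 p2]
  rcases le_total 0 b with s | s <;> rcases le_total 0 b' with s' | s'
  · rw [abs_of_nonneg s, abs_of_nonneg s']; nlinarith
  · rw [abs_of_nonneg s, abs_of_nonpos s']; nlinarith [mul_nonneg s (neg_nonneg.2 s')]
  · exfalso; nlinarith [mul_nonneg (neg_nonneg.2 ha) s', mul_nonneg (neg_nonneg.2 s) (neg_nonneg.2 ha')]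
  · rw [abs_of_nonpos s, abs_of_nonpos s']; nlinarith

/-- a closed chain of vectors turning in one sense does not stay in a half plane -/
lemma cyc {ι : Type} (S : Finset ι) (s : Equiv.Perm ι) (hs : ∀ i, i ∈ S ↔ s i ∈ S) (r : ι → V3)
    {l y : V3} (hy : y ≠ 0) (hl : dot l y = 0) (h0 : ∀ i ∈ S, dot y (r i) ≤ 0)
    (h1 : ∀ i ∈ S, 0 < dot l (cross (r i) (r (s i))) ∨ ∃ t : ℝ, 0 < t ∧ r (s i) = t • r i)
    (h2 : ∃ i ∈ S, 0 < dot l (cross (r i) (r (s i)))) : False := by
  set a : ι → ℝ := fun i => dot y (r i) with ha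
  set b : ι → ℝ := fun i => dot (cross l y) (r i) with hb
  have id : ∀ i j, a i * b j - b i * a j = dot y y * dot l (cross (r i) (r j)) := fun i j => by
    simp only [ha, hb, dot, cr0, cr1, cr2] at hl ⊢
    linear_combination (-(y 0 * (r i 1 * r j 2 - r i 2 * r j 1) + y 1 * (r i 2 * r j 0 - r i 0 * r j 2)
      + y 2 * (r i 0 * r j 1 - r i 1 * r j 0))) * hl
  set φ : ι → ℝ := fun i => -b i / (|b i| - a i) with hφ
  have lt : ∀ i ∈ S, 0 < dot l (cross (r i) (r (s i))) → φ i < φ (s i) := fun i hi h =>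
    ang_lt (h0 i hi) (h0 _ ((hs i).1 hi)) (by rw [id]; exact mul_pos (dot_pos hy) h)
  have le : ∀ i ∈ S, φ i ≤ φ (s i) := fun i hi => by
    rcases h1 i hi with h | ⟨t, ht, e⟩
    · exact (lt i hi h).le
    · have e1 : a (s i) = t * a i := by simp only [ha, e, dot, Pi.smul_apply, smul_eq_mul]; ring
      have e2 : b (s i) = t * b i := by simp only [hb, e, dot, Pi.smul_apply, smul_eq_mul]; ring
      simp only [hφ, e1, e2, abs_mul, abs_of_pos ht]
      rw [← mul_sub, ← mul_neg, mul_div_mul_left _ _ ht.ne']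
  obtain ⟨i, hi, h⟩ := h2
  have := sum_lt_sum le ⟨i, hi, lt i hi h⟩
  rw [sum_bijective s s.bijective hs (g := φ) fun _ _ => rfl] at this
  exact lt_irrefl _ this

/-- a point in the plane of a polygon, strictly inside all its sides, is not extreme -/
lemma faceCyc {ι : Type} (S : Finset ι) (s : Equiv.Perm ι) (hs : ∀ i, i ∈ S ↔ s i ∈ S)
    (r : ι → V3) {n l : V3} (ne : S.Nonempty) (h0 : ∀ i ∈ S, dot n (r i) = 0)
    (h1 : ∀ i ∈ S, 0 < dot n (cross (r i) (r (s i)))) (h2 : ∀ i ∈ S, dot l (r i) < 0) : False := by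
  obtain ⟨j, hj⟩ := ne
  have hn : n ≠ 0 := by rintro rfl; simpa [dot] using h1 j hj
  have np := dot_pos hn
  have e : ∀ i ∈ S, dot (dot n n • l - dot n l • n) (r i) = dot n n * dot l (r i) := fun i hi => by
    have := h0 i hi
    simp only [dot, Pi.sub_apply, Pi.smul_apply, smul_eq_mul] at this ⊢
    linear_combination (-(n 0 * l 0 + n 1 * l 1 + n 2 * l 2)) * this
  refine cyc S s hs r (l := n) (y := dot n n • l - dot n l • n) (fun z => ?_) ?_
    (fun i hi => ?_) (fun i hi => Or.inl (h1 i hi)) ⟨j, hj, h1 j hj⟩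
  · have := e j hj
    rw [z] at this
    have := mul_neg_of_pos_of_neg np (h2 j hj)
    simp only [dot, Pi.zero_apply] at *
    linarith
  · simp only [dot, Pi.sub_apply, Pi.smul_apply, smul_eq_mul]; ring
  · rw [e i hi]; exact (mul_neg_of_pos_of_neg np (h2 i hi)).le

end Pool.Agent.Lib.MP_d5dfc1_co.Ex
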