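import Pool.Agent.Lib.MP_d5dfc1_co.ExNet

/-! Bounds for the determinants of the reduced Laplacians. -/

namespace Pool.Agent.Lib.MP_d5dfc1_co.Ex

open Finset Matrix

variable {V F D N : Type} (M : PM V F D)

lemma det_core [Fintype N] [DecidableEq N] (J : N → Prop) [DecidablePred J] (m : N → N → ℝ)
    (m0 : ∀ u v, 0 ≤ m u v) (m2 : ∀ u v, m u v ≤ m u v * m u v) (ms : ∀ u v, m u v = m v u)
    (mu : ∀ u, m u u = 0) (m1 : ∀ u, 1 ≤ ∑ v, m u v) (A : Matrix N N ℝ)
    (hA : ∀ u v, A u v = if J u ∧ J v then (if u = v then ∑ x, m u x else 0) - m u v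
      else if u = v then 1 else 0) (ps : A.PosSemidef) (h3 : #{x | ¬ J x} ≤ 3)
    (hD : ∑ u, ∑ v, m u v + 12 ≤ 6 * Fintype.card N) : A.det ≤ (11 / 2) ^ Fintype.card N := by
  set g : N → ℝ := fun u => ∑ v, m u v with hg
  have g0 : ∀ u, 0 < g u := fun u => one_pos.trans_le (m1 u)
  let key : N → ℝ ×ₗ Fin (Fintype.card N) := fun u => toLex (g u, Fintype.equivFin N u)
  have ki : Function.Injective key := fun a b e =>
    (Fintype.equivFin N).injective (congrArg (fun q => (ofLex q).2) e)
  have kl : ∀ u v, key u < key v → g u ≤ g v := fun u v h => by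
    rcases Prod.Lex.toLex_lt_toLex.1 h with a | a
    exacts [a.le, a.1.le]
  let Y : Matrix N N ℝ := Matrix.of fun u v => if J u ∧ J v ∧ key u < key v then m u v / g u else 0
  have Y0 : ∀ u v, 0 ≤ Y u v := fun u v => by
    simp only [Y, of_apply]; split_ifs
    exacts [div_nonneg (m0 _ _) (g0 _).le, le_rfl]
  have dT : (1 + Y).det = 1 := by
    have bt : (1 + Y).BlockTriangular key := fun u v h => by
      have : u ≠ v := by rintro rfl; exact lt_irrefl _ h
      simp [Y, one_apply, this, h.not_gt]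
    letI := LinearOrder.lift' key ki
    rw [det_of_isUpperTriangular (fun u v h => bt h)]
    exact prod_eq_one fun k _ => by simp [Y]
  set q : N → N → ℝ := fun u v => Y u v * m u v with hq
  have yq : ∀ u v, Y u v ≤ q u v := fun u v => by
    simp only [hq, Y, of_apply]; split_ifs
    · rw [div_mul_eq_mul_div]; exact div_le_div_of_nonneg_right (m2 _ _) (g0 _).le
    · simp
  have a1 : ∀ u v, Y u v * A u v = - q u v := fun u v => by
    simp only [hq, Y, of_apply, hA]
    by_cases h : J u ∧ J v ∧ key u < key v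
    · have : u ≠ v := by rintro rfl; exact lt_irrefl _ h.2.2
      simp [h, this]
    · simp [h]
  have As : ∀ u v, A v u = A u v := fun u v => by simpa using ps.1.apply u v
  have a2 : ∀ v u, ∑ x, Y u v * A u x * Y x v ≤ q u v := fun v u => by
    rw [← add_sum_erase _ _ (mem_univ u)]
    have b1 : ∑ x ∈ univ.erase u, Y u v * A u x * Y x v ≤ 0 := sum_nonpos fun x hx => by
      have : A u x ≤ 0 := by
        rw [hA, if_neg (ne_of_mem_erase hx).symm, if_neg (ne_of_mem_erase hx).symm]
        split_ifs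
        · linarith [m0 u x]
        · exact le_rfl
      exact mul_nonpos_of_nonpos_of_nonneg (mul_nonpos_of_nonneg_of_nonpos (Y0 _ _) this) (Y0 _ _)
    have b2 : Y u v * A u u * Y u v = q u v := by
      simp only [hq, Y, of_apply, hA]
      by_cases h : J u ∧ J v ∧ key u < key v
      · have := (g0 u).ne'
        simp only [h, and_self, if_true, mu, sub_zero]
        change _ * g u * _ = _
        field_simp
      · simp [h]
    linarith
  have tr : ((1 + Y)ᴴ * A * (1 + Y)).trace ≤ A.trace - ∑ v, ∑ u, Y u v := by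
    have e1 : (Yᵀ * A).trace = - ∑ v, ∑ u, q u v := by
      simp only [trace, Matrix.diag, mul_apply, transpose_apply, a1, sum_neg_distrib]
    have e2 : (A * Y).trace = - ∑ v, ∑ u, q u v := by
      simp only [trace, Matrix.diag, mul_apply, ← sum_neg_distrib, ← a1]
      exact sum_congr rfl fun v _ => sum_congr rfl fun u _ => by rw [As, mul_comm]
    have e3 : (Yᵀ * A * Y).trace ≤ ∑ v, ∑ u, q u v := by
      simp only [trace, Matrix.diag, mul_apply, transpose_apply, sum_mul]
      exact sum_le_sum fun v _ => by rw [sum_comm]; exact sum_le_sum fun u _ => a2 v u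
    have e4 : ∑ v, ∑ u, Y u v ≤ ∑ v, ∑ u, q u v := sum_le_sum fun v _ => sum_le_sum fun u _ => yq u v
    rw [conjTranspose_eq_transpose_of_trivial, transpose_add, transpose_one]
    simp only [add_mul, mul_add, Matrix.one_mul, Matrix.mul_one, trace_add]
    linarith
  have c1 : ∑ u, ∑ v, (if J u ∧ J v then m u v / g u else 0) ≤ 2 * ∑ v, ∑ u, Y u v := by
    rw [two_mul]
    nth_rewrite 1 [sum_comm (f := fun v u => Y u v)]
    rw [← sum_add_distrib]
    refine sum_le_sum fun u _ => ?_
    rw [← sum_add_distrib]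
    refine sum_le_sum fun v _ => ?_
    split_ifs with h
    · rcases lt_trichotomy (key u) (key v) with l | l | l
      · have : Y u v = m u v / g u := if_pos ⟨h.1, h.2, l⟩
        linarith [Y0 v u]
      · rw [ki l, mu, zero_div]; linarith [Y0 v v]
      · have : Y v u = m v u / g v := if_pos ⟨h.2, h.1, l⟩
        have := div_le_div_of_nonneg_left (m0 u v) (g0 v) (kl _ _ l)
        rw [ms v u] at *
        linarith [Y0 u v]
    · linarith [Y0 u v, Y0 v u]
  have c2 : ∀ u, (if J u then 1 else 0) - ∑ v, (if J u ∧ ¬ J v then m u v else 0)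
      ≤ ∑ v, (if J u ∧ J v then m u v / g u else 0) := fun u => by
    by_cases h : J u
    · have : ∑ v, m u v / g u = 1 := by rw [← sum_div]; exact div_self (g0 u).ne'
      rw [if_pos h, ← this, ← sum_sub_distrib]
      refine sum_le_sum fun v _ => ?_
      by_cases k : J v
      · simp [h, k]
      · simpa [h, k] using div_le_self (m0 u v) (m1 u)
    · simp [h]
  have c3 : ∑ u, ∑ v, (if J u ∧ ¬ J v then m u v else 0) ≤ ∑ u, (if J u then 0 else g u) := by
    rw [sum_comm]
    refine sum_le_sum fun v _ => ?_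
    by_cases k : J v
    · simp [k]
    · rw [if_neg k]
      exact sum_le_sum fun u _ => by split_ifs; exacts [(ms u v).le, m0 _ _]
  have c4 : A.trace + ∑ u, (if J u then 0 else g u) = ∑ u, g u + #{x | ¬ J x} := by
    rw [trace, ← sum_add_distrib, card_filter, Nat.cast_sum, ← sum_add_distrib]
    refine sum_congr rfl fun u _ => ?_
    by_cases k : J u <;> simp [hA, k, mu, hg, add_comm]
  have c5 : ∑ u, (if J u then (1 : ℝ) else 0) + #{x | ¬ J x} = Fintype.card N := by
    rw [sum_boole, ← Nat.cast_add, card_filter_add_card_filter_not, card_univ]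
  have c6 := sum_le_sum fun u (_ : u ∈ univ) => c2 u
  rw [sum_sub_distrib] at c6
  have c7 : 0 ≤ ∑ u, (if J u then 0 else g u) :=
    sum_nonneg fun u _ => by split_ifs; exacts [le_rfl, (g0 u).le]
  have h3' : (#{x | ¬ J x} : ℝ) ≤ 3 := by exact_mod_cast h3
  have := det_le (ps.conjTranspose_mul_mul_same (1 + Y)) (μ := 11 / 2) (by norm_num)
  rw [Matrix.det_mul, Matrix.det_mul, det_conjTranspose, dT, star_one, one_mul, mul_one] at this
  refine this.trans (mul_le_of_le_one_right (by positivity) (Real.exp_le_one_iff.2 ?_))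
  rw [sub_nonpos, div_le_iff₀ (by norm_num)]
  linarith

variable [Fintype D]

theorem detA [Fintype V] [DecidableEq V] (J : V → Prop) [DecidablePred J] (h3 : #{x | ¬ J x} ≤ 3)
    (hD : Fintype.card D + 12 ≤ 6 * Fintype.card V) :
    ((lap M M.tl J fun _ => True).det : ℝ) ≤ (11 / 2) ^ Fintype.card V := by
  have e : ∀ u, ∑ v, (#{d | M.tl d = u ∧ M.tl (M.rev d) = v} : ℝ) = #{d | M.tl d = u} := fun u => by
    rw [card_eq_sum_card_fiberwise (s := {d | M.tl d = u}) (t := univ) (f := fun d => M.tl (M.rev d))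
      (by simp), Nat.cast_sum]
    simp only [filter_filter]
  rw [Int.cast_det]
  refine det_core J (fun u v => #{d | M.tl d = u ∧ M.tl (M.rev d) = v}) (fun _ _ => by positivity)
    (fun _ _ => by exact_mod_cast Nat.le_mul_self _) (fun u v => ?_) (fun u => ?_) (fun u => ?_) _
    (fun u v => ?_) (lap_psd M _ _ _ fun _ _ _ => trivial) h3 ?_
  · exact congrArg _ (card_bijective M.revP M.revP.bijective (by simp [and_comm]))
  · rw [Nat.cast_eq_zero, card_eq_zero, filter_eq_empty_iff]
    exact fun d _ h => M.noloop d (h.2.trans h.1.symm)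
  · obtain ⟨d, hd⟩ := M.tl_surj u
    rw [e]
    exact_mod_cast card_pos.2 ⟨d, by simpa using hd⟩
  · simp only [map_apply, lap, of_apply, e, and_true]
    split_ifs <;> simp
  · simp only [e]
    rw [← Nat.cast_sum, ← card_eq_sum_card_fiberwise (t := univ) (by simp)]
    exact_mod_cast hD

theorem detB [Fintype N] [DecidableEq N] (nd : D → N) (J : N → Prop) [DecidablePred J]
    (K : D → Prop) [DecidablePred K] (hK : ∀ d, J (nd d) → J (nd (M.rev d)) → K d) {n : ℕ}
    (h1 : Fintype.card N ≤ n) (h2 : #{x | ¬ J x} + Fintype.card D ≤ 2 * (n + Fintype.card N)) :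
    ((lap M nd J K).det : ℝ) ≤ 4 ^ n := by
  rw [Int.cast_det]
  refine (det_le (lap_psd M nd J K hK) (μ := 4) (by norm_num)).trans ?_
  obtain ⟨k, rfl⟩ := Nat.exists_eq_add_of_le h1
  have tr : ((lap M nd J K).map (Int.cast : ℤ → ℝ)).trace ≤ (#{x | ¬ J x} + Fintype.card D : ℕ) := by
    rw [trace, card_filter, ← card_univ, card_eq_sum_card_fiberwise (f := nd) (t := univ) (by simp),
      ← sum_add_distrib, Nat.cast_sum]
    refine sum_le_sum fun x _ => ?_
    have : #{d | nd d = x ∧ K d} ≤ #{d | nd d = x} :=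
      card_le_card fun d => by simp only [mem_filter]; tauto
    have : (#{d | nd d = x ∧ K d} : ℝ) ≤ #{d | nd d = x} := by exact_mod_cast this
    have : (0 : ℝ) ≤ #{d | nd d = x ∧ nd (M.rev d) = x} := by positivity
    by_cases q : J x <;> simp [lap, q]
    linarith
  have h2' : ((#{x | ¬ J x} + Fintype.card D : ℕ) : ℝ) ≤ 2 * (Fintype.card N + k + Fintype.card N) := by
    exact_mod_cast h2
  rw [pow_add]
  refine mul_le_mul_of_nonneg_left ?_ (by positivity)
  calc _ ≤ Real.exp (k * 1) := Real.exp_le_exp.2 (by linarith [Nat.cast_nonneg (α := ℝ) k])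
    _ ≤ _ := by
      rw [Real.exp_nat_mul]
      exact pow_le_pow_left₀ (Real.exp_pos _).le (by linarith [Real.exp_one_lt_d9]) _

end Pool.Agent.Lib.MP_d5dfc1_co.Ex
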