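import Pool.Agent.Lib.MP_d5dfc1_co.ExClose

/-! Exactness of closed forms, its dual, Euler's inequality, linear potentials. -/

namespace Pool.Agent.Lib.MP_d5dfc1_co.Ex

open Finset

variable {V F D : Type} {M : PM V F D} {p : V → V3} {n : F → V3} {c : F → ℝ}

lemma corner (h : Strict M p n c) (O : Ori M p n) (d : D) {z : V} (i : M.Inc z (M.rf d)) :
    ∃ s a b : ℝ, 0 < s ∧ 0 ≤ a ∧ 0 ≤ b ∧ ∀ l : V3, s * dot l (p z - p (M.tl d))
      = a * dot l (p (M.hd d) - p (M.tl d)) + b * dot l (p (M.hd (M.sg d)) - p (M.tl d)) := by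
  obtain ⟨w, hw, e⟩ := O d
  obtain ⟨w', hw', e'⟩ := O (M.sg d)
  refine ⟨w' * slack p n c (M.hd (M.sg d)) (M.lf d), w * slack p n c z (M.rf (M.sg d)),
    w' * slack p n c z (M.lf d), mul_pos hw' (h.2 _ _ (M.nd2 d)), mul_nonneg hw.le (h.le _ _),
    mul_nonneg hw'.le (h.le _ _), fun l => ?_⟩
  have s0 := h.1.sub (M.inc_tl_lf d) (M.hd (M.sg d))
  have s1 := h.1.sub (M.inc_tl_lf d) z
  have s2 := h.1.perp (M.inc_tl_rf d) i
  have s3 := h.1.sub (M.inc_tl_rf (M.sg d)) z
  simp only [PM.tl_sg', PM.lf_sg'] at s3 e'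
  have k1 : dot l (cross (n (M.lf d)) (n (M.rf d))) = w * dot l (p (M.hd d) - p (M.tl d)) := by
    rw [e, dot_smul']
  have k2 : dot l (cross (n (M.rf d)) (n (M.rf (M.sg d))))
      = w' * dot l (p (M.hd (M.sg d)) - p (M.tl d)) := by rw [e', dot_smul']
  have k3 : dot (n (M.lf d)) (cross (n (M.rf d)) (n (M.rf (M.sg d))))
      = w' * - slack p n c (M.hd (M.sg d)) (M.lf d) := by rw [e', dot_smul', s0]
  have id : ∀ A B C a : V3, dot A (cross B C) * dot l a = dot A a * dot l (cross B C)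
      + dot B a * dot l (cross C A) + dot C a * dot l (cross A B) := fun A B C a => by
    simp only [dot, cr0, cr1, cr2]; ring
  have := id (n (M.lf d)) (n (M.rf d)) (n (M.rf (M.sg d))) (p z - p (M.tl d))
  rw [k1, k2, k3, s1, s2, s3] at this
  linarith

lemma edge_face (h : Strict M p n c) (O : Ori M p n) {d e : D} (t : M.tl d = M.tl e)
    (i : M.Inc (M.hd d) (M.rf e)) : e = d ∨ M.sg e = d := by
  by_contra N
  push Not at N
  obtain ⟨s, a, b, hs, ha, hb, id⟩ := corner h O e i
  have ev : ∀ u, dot (n (M.lf d) + n (M.rf d)) (p u - p (M.tl e))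
      = - slack p n c u (M.lf d) - slack p n c u (M.rf d) := fun u => by
    rw [add_dot', ← t, h.1.sub (M.inc_tl_lf d), h.1.sub (M.inc_tl_rf d)]; ring
  have neg : ∀ e', M.tl e' = M.tl d → e' ≠ d →
      dot (n (M.lf d) + n (M.rf d)) (p (M.hd e') - p (M.tl e)) < 0 := fun e' t' ne => by
    rw [ev]
    by_cases j : M.Inc (M.hd e') (M.lf d)
    · have : ¬ M.Inc (M.hd e') (M.rf d) := fun j' => (M.two' d j j').elim
        (fun k => M.hd_ne e' (k.trans t'.symm)) fun k => ne (M.simple' t' k)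
      linarith [h.2 _ _ this, h.le (M.hd e') (M.lf d)]
    · linarith [h.2 _ _ j, h.le (M.hd e') (M.rf d)]
  have k := id (n (M.lf d) + n (M.rf d))
  rw [ev, h.1 _ _ (M.inc_hd_lf d), h.1 _ _ (M.inc_hd_rf d)] at k
  have n1 := neg e t.symm N.1
  have n2 := neg (M.sg e) (by simpa using t.symm) N.2
  have a0 : a = 0 := by nlinarith
  have b0 : b = 0 := by nlinarith
  have k := id (p (M.hd d) - p (M.tl e))
  have := dot_pos (sub_ne_zero.2 fun q : p (M.hd d) = p (M.tl e) => M.hd_ne d ((h.inj q).trans t.symm))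
  rw [a0, b0] at k
  nlinarith

lemma exit_uniq (h : Strict M p n c) (O : Ori M p n) {l : V3} {d e : D} (t : M.tl d = M.tl e)
    (d1 : 0 < dot l (p (M.hd d) - p (M.tl d))) (d2 : dot l (p (M.hd (M.sg d)) - p (M.tl d)) < 0)
    (e1 : 0 < dot l (p (M.hd e) - p (M.tl e))) (e2 : dot l (p (M.hd (M.sg e)) - p (M.tl e)) < 0) :
    d = e := by
  have key : ∀ d : D, 0 < dot l (p (M.hd d) - p (M.tl d)) →
      dot l (p (M.hd (M.sg d)) - p (M.tl d)) < 0 → ∃ κ α β : ℝ, 0 < κ ∧ 0 < α ∧ 0 < β ∧
      ∀ g, M.Inc (M.tl d) g → κ * dot (n g) (cross l (n (M.rf d)))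
        = - (β * slack p n c (M.hd d) g + α * slack p n c (M.hd (M.sg d)) g) := by
    intro d a b
    obtain ⟨w, hw, q⟩ := O d
    set y := (- dot l (p (M.hd (M.sg d)) - p (M.tl d))) • (p (M.hd d) - p (M.tl d))
      + dot l (p (M.hd d) - p (M.tl d)) • (p (M.hd (M.sg d)) - p (M.tl d)) with hy
    have ev : ∀ v : V3, dot v y = (- dot l (p (M.hd (M.sg d)) - p (M.tl d))) * dot v (p (M.hd d) - p (M.tl d))
        + dot l (p (M.hd d) - p (M.tl d)) * dot v (p (M.hd (M.sg d)) - p (M.tl d)) := fun v => by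
      simp only [hy, dot, Pi.add_apply, Pi.smul_apply, smul_eq_mul]; ring
    have k1 : dot (n (M.lf d)) (cross l (n (M.rf d))) = -(w * dot l (p (M.hd d) - p (M.tl d))) := by
      rw [← dot_smul', ← q]; simp only [dot, cr0, cr1, cr2]; ring
    have wa := mul_pos hw a
    have c0 : cross l (n (M.rf d)) ≠ 0 := fun z => by
      rw [z] at k1; simp only [dot, Pi.zero_apply] at k1 wa; linarith
    have c1 := cross_of_perp (a := l) (b := n (M.rf d)) (w := y) (by rw [ev]; ring) (by
      rw [ev, h.1.perp (M.inc_tl_rf d) (M.inc_hd_rf d), h.1.perp (M.inc_tl_rf d)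
        (show M.Inc (M.hd (M.sg d)) (M.rf d) by simpa using M.inc_hd_lf (M.sg d))]; ring)
    have par := par_of_cross c0 (b := y) (by
      have h0 := congrFun c1 0; have h1 := congrFun c1 1; have h2 := congrFun c1 2
      generalize cross l (n (M.rf d)) = u at *
      refine v3_ext ?_ ?_ ?_ <;> simp only [cr0, cr1, cr2, Pi.zero_apply] at * <;> linarith)
    generalize dot (cross l (n (M.rf d))) y / _ = κ at par
    have k2 : ∀ g, M.Inc (M.tl d) g → κ * dot (n g) (cross l (n (M.rf d)))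
        = - ((- dot l (p (M.hd (M.sg d)) - p (M.tl d))) * slack p n c (M.hd d) g
          + dot l (p (M.hd d) - p (M.tl d)) * slack p n c (M.hd (M.sg d)) g) := fun g i => by
      rw [← dot_smul', ← par, ev, h.1.sub i, h.1.sub i]; ring
    refine ⟨κ, _, _, ?_, a, neg_pos.2 b, k2⟩
    have := k2 _ (M.inc_tl_lf d)
    rw [k1, h.1 _ _ (M.inc_hd_lf d)] at this
    have := mul_pos a (h.2 _ _ (M.nd2 d))
    by_contra k
    nlinarith
  obtain ⟨κ, α, β, h1, h2, h3, k⟩ := key d d1 d2
  obtain ⟨κ', α', β', h1', h2', h3', k'⟩ := key e e1 e2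
  have a := k _ (t ▸ M.inc_tl_rf e)
  have b := k' _ (t ▸ M.inc_tl_rf d)
  have anti : dot (n (M.rf d)) (cross l (n (M.rf e))) = - dot (n (M.rf e)) (cross l (n (M.rf d))) := by
    simp only [dot, cr0, cr1, cr2]; ring
  rw [anti] at b
  have s1 := mul_nonneg h3.le (h.le (M.hd d) (M.rf e))
  have s2 := mul_nonneg h2.le (h.le (M.hd (M.sg d)) (M.rf e))
  have s3 := mul_nonneg h3'.le (h.le (M.hd e) (M.rf d))
  have s4 := mul_nonneg h2'.le (h.le (M.hd (M.sg e)) (M.rf d))
  have z : dot (n (M.rf e)) (cross l (n (M.rf d))) = 0 := by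
    apply le_antisymm <;> by_contra q <;> push Not at q <;> nlinarith
  rw [z] at a
  have i : M.Inc (M.hd d) (M.rf e) := by
    by_contra q
    have := mul_pos h3 (h.2 _ _ q)
    linarith
  rcases edge_face h O t i with q | q
  · exact q.symm
  · rw [q, ← t] at e2; linarith

variable [Fintype V] [Fintype F] [Fintype D] [DecidableEq V] [DecidableEq F]

theorem Strict.exa (h : Strict M p n c) (O : Ori M p n) : M.Exa := by
  classical
  intro θ anti cl
  obtain ⟨φ, hφ⟩ := Module.exists_dual_forall_apply_ne_zero (K := ℝ)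
    (fun q : {q : V × V // q.1 ≠ q.2} => p q.1.1 - p q.1.2) fun q => sub_ne_zero.2 fun e => q.2 (h.inj e)
  obtain ⟨l, hl⟩ := exists_vec (LinearMap.toContinuousLinearMap φ)
  have inj : ∀ x y, dot l (p x) = dot l (p y) → x = y := fun x y e => by
    by_contra ne
    have := hl (p x - p y)
    rw [dot_sub, e, sub_self] at this
    exact hφ ⟨(x, y), ne⟩ this
  suffices H : ∀ S : Finset V, (∀ x ∈ S, ∀ y, dot l (p x) ≤ dot l (p y) → y ∈ S) →
      ∃ P : V → ℝ, ∀ d, M.tl d ∈ S → M.hd d ∈ S → θ d = P (M.hd d) - P (M.tl d) by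
    obtain ⟨P, hP⟩ := H univ (by simp)
    exact ⟨P, fun d => hP d (by simp) (by simp)⟩
  intro S
  refine Finset.induction_on_min_value (fun x => dot l (p x)) S (fun _ => ⟨0, by simp⟩) ?_
  intro a s as hm ih up
  obtain ⟨P, hP⟩ := ih fun x hx y le => by
    rcases mem_insert.1 (up x (mem_insert_of_mem hx) y le) with rfl | k
    · exact absurd (inj _ _ (le_antisymm le (hm x hx)) ▸ hx) as
    · exact k
  have mem : ∀ y, dot l (p a) < dot l (p y) → y ∈ s := fun y lt =>
    (mem_insert.1 (up a (mem_insert_self _ _) y lt.le)).resolve_left (by rintro rfl; exact lt_irrefl _ lt)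
  have gt : ∀ y ∈ s, dot l (p a) < dot l (p y) := fun y hy =>
    (hm y hy).lt_of_ne fun e => as (inj _ _ e ▸ hy)
  have const := fun d e => M.interval a (fun d => dot l (p a) < dot l (p (M.hd d)))
    (fun d => P (M.hd d) - θ d) (fun d t u1 u2 => by
      have ab : ∀ z, M.Inc z (M.rf d) → z ≠ a → z ∈ s := fun z i ne => by
        obtain ⟨s', a', b', hs, ha, hb, id⟩ := corner h O d i
        have k := id l
        simp only [dot_sub, t] at k
        have := mul_nonneg ha (sub_pos.2 u1).le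
        have := mul_nonneg hb (sub_pos.2 u2).le
        refine mem z (lt_of_le_of_ne ?_ fun e => ne (inj _ _ e).symm)
        by_contra q
        nlinarith
      have ne : M.rev d ≠ M.sg d := fun e => M.hd_ne d (by simpa using congrArg M.tl e)
      have k : ∑ e with M.lf e = M.rf d, (θ e - (P (M.hd e) - P (M.tl e))) = 0 := by
        rw [sum_sub_distrib, cl, M.tele_f, sub_zero]
      rw [← sum_subset (s₁ := {M.rev d, M.sg d}) (by
        intro e he
        rcases mem_insert.1 he with rfl | he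
        · simp
        · rw [mem_singleton.1 he]; simp) (fun e he hn => by
        have le : M.lf e = M.rf d := by simpa using he
        have n1 : e ≠ M.rev d := fun q => hn (by simp [q])
        have n2 : e ≠ M.sg d := fun q => hn (by simp [q])
        rw [hP e (ab _ (le ▸ M.inc_tl_lf e) fun q => n2 (M.uniq _ _ (by simp [q, t]) (by simp [le])))
          (ab _ (le ▸ M.inc_hd_lf e) fun q => n1 (M.nxP.injective
            (M.uniq _ _ (by simp [q, t]) (by simp [le])))), sub_self]), sum_pair ne, anti] at k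
      simp only [PM.hd_rev, PM.tl_rev, PM.tl_sg'] at k
      linarith)
    (fun d e td te u1 u2 u3 u4 => exit_uniq h O (l := l) (td.trans te.symm)
      (by rw [dot_sub, td]; linarith) (by
        rw [dot_sub, td]
        exact sub_neg.2 ((not_lt.1 u2).lt_of_ne fun q => M.hd_ne (M.sg d) ((inj _ _ q).trans (by simp [td]))))
      (by rw [dot_sub, te]; linarith) (by
        rw [dot_sub, te]
        exact sub_neg.2 ((not_lt.1 u4).lt_of_ne fun q => M.hd_ne (M.sg e) ((inj _ _ q).trans (by simp [te])))))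
    (d := d) (e := e)
  obtain ⟨v, hv⟩ : ∃ v : ℝ, ∀ d, M.tl d = a → M.hd d ∈ s → P (M.hd d) - θ d = v := by
    by_cases q : ∃ e, M.tl e = a ∧ M.hd e ∈ s
    · obtain ⟨e, e1, e2⟩ := q
      exact ⟨_, fun d d1 d2 => const d e d1 e1 (gt _ d2) (gt _ e2)⟩
    · exact ⟨0, fun d d1 d2 => absurd ⟨d, d1, d2⟩ q⟩
  have na : ∀ y ∈ s, y ≠ a := fun y hy e => as (e ▸ hy)
  refine ⟨Function.update P a v, fun d h1 h2 => ?_⟩
  rcases mem_insert.1 h1 with k1 | k1 <;> rcases mem_insert.1 h2 with k2 | k2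
  · exact absurd (k2.trans k1.symm) (M.hd_ne d)
  · rw [k1, Function.update_self, Function.update_of_ne (na _ k2), ← hv d k1 k2]; ring
  · have := hv (M.rev d) k2 (by simpa using k1)
    rw [k2, Function.update_self, Function.update_of_ne (na _ k1), ← this, anti]; simp
  · rw [Function.update_of_ne (na _ k1), Function.update_of_ne (na _ k2), hP d k1 k2]

omit [Fintype F] [DecidableEq F] in
lemma pair_v (θ : D → ℝ) (anti : ∀ d, θ (M.rev d) = - θ d) (P : V → ℝ) :
    ∑ d, (P (M.hd d) - P (M.tl d)) * θ d = -2 * ∑ x, P x * ∑ d with M.tl d = x, θ d := by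
  have a : ∑ d, P (M.hd d) * θ d = - ∑ d, P (M.tl d) * θ d := by
    rw [← M.sum_rev, ← sum_neg_distrib]; simp [anti]
  have b : ∑ x, P x * ∑ d with M.tl d = x, θ d = ∑ d, P (M.tl d) * θ d := by
    rw [← sum_fiberwise univ M.tl]
    refine sum_congr rfl fun x _ => ?_
    rw [mul_sum]
    exact sum_congr rfl fun d hd => by rw [(mem_filter.1 hd).2]
  simp only [sub_mul, sum_sub_distrib]
  rw [a, b]; ring

/-- decomposition of an antisymmetric function -/
lemma decomp (he : M.Exa) (θ : D → ℝ) (anti : ∀ d, θ (M.rev d) = - θ d) :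
    ∃ (P : V → ℝ) (Q : F → ℝ), ∀ d, θ d = (P (M.hd d) - P (M.tl d)) + (Q (M.rf d) - Q (M.lf d)) := by
  let δ : (F → ℝ) →ₗ[ℝ] EuclideanSpace ℝ D :=
    { toFun := fun Q => WithLp.toLp 2 fun d => Q (M.rf d) - Q (M.lf d)
      map_add' := fun a b => by ext d; simp; ring
      map_smul' := fun a b => by ext d; simp; ring }
  obtain ⟨y, ⟨Q, rfl⟩, z, hz, e⟩ := (LinearMap.range δ).exists_add_mem_mem_orthogonal (WithLp.toLp 2 θ)
  have ez : ∀ d, z d = θ d - (Q (M.rf d) - Q (M.lf d)) := fun d => by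
    have := congrArg (fun v : EuclideanSpace ℝ D => v d) e
    simp [δ] at this
    linarith
  have az : ∀ d, z (M.rev d) = - z d := fun d => by rw [ez, ez, anti]; simp; ring
  obtain ⟨P, hP⟩ := he (fun d => z d) az fun f => by
    have := (Submodule.mem_orthogonal _ _).1 hz (δ (Pi.single f 1)) ⟨_, rfl⟩
    simp only [PiLp.inner_apply, δ, LinearMap.coe_mk, AddHom.coe_mk, RCLike.inner_apply,
      conj_trivial, mul_sub, sum_sub_distrib] at this
    have a : ∑ d, z d * (Pi.single f 1 : F → ℝ) (M.rf d) = - ∑ d, z d * (Pi.single f 1 : F → ℝ) (M.lf d) := by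
      rw [← M.sum_rev, ← sum_neg_distrib]; simp [az]
    have b : ∑ d, z d * (Pi.single f 1 : F → ℝ) (M.lf d) = ∑ d with M.lf d = f, z d := by
      rw [sum_filter]; simp [Pi.single_apply]
    linarith
  exact ⟨P, Q, fun d => by rw [← hP, ez]; ring⟩

theorem dual_exa (he : M.Exa) (θ : D → ℝ) (anti : ∀ d, θ (M.rev d) = - θ d)
    (cl : ∀ x, ∑ d with M.tl d = x, θ d = 0) : ∃ Q : F → ℝ, ∀ d, θ d = Q (M.rf d) - Q (M.lf d) := by
  obtain ⟨P, Q, e⟩ := decomp he θ anti
  have a := pair_v (M := M) θ anti P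
  have b := pair_v (M := M) (fun d => Q (M.rf d) - Q (M.lf d)) (fun d => by simp) P
  simp only [cl, M.tele_v, mul_zero, sum_const_zero] at a b
  have z : ∑ d, (P (M.hd d) - P (M.tl d)) ^ 2 = 0 := by
    rw [← sub_zero (0 : ℝ)]
    nth_rewrite 1 [← a]
    rw [← b, ← sum_sub_distrib]
    exact sum_congr rfl fun d _ => by rw [e]; ring
  refine ⟨Q, fun d => ?_⟩
  have := (sum_eq_zero_iff_of_nonneg fun d _ => sq_nonneg _).1 z d (mem_univ _)
  rw [e, pow_eq_zero_iff two_ne_zero |>.1 this, zero_add]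

theorem euler (he : M.Exa) [Nonempty V] :
    Fintype.card D + 4 ≤ 2 * (Fintype.card V + Fintype.card F) := by
  classical
  obtain ⟨x⟩ := ‹Nonempty V›
  obtain ⟨d0, -⟩ := M.tl_surj x
  let δ : ((V → ℝ) × (F → ℝ)) →ₗ[ℝ] (D → ℝ) :=
    { toFun := fun q d => (q.1 (M.hd d) - q.1 (M.tl d)) + (q.2 (M.rf d) - q.2 (M.lf d))
      map_add' := fun a b => by ext d; simp; ring
      map_smul' := fun a b => by ext d; simp; ring }
  let κ : (ℝ × ℝ) →ₗ[ℝ] LinearMap.ker δ :=
    { toFun := fun q => ⟨(fun _ => q.1, fun _ => q.2), by ext d; simp [δ]⟩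
      map_add' := fun a b => rfl
      map_smul' := fun a b => rfl }
  have k1 := LinearMap.finrank_le_finrank_of_injective (f := κ) fun a b e => by
    have := congrArg Subtype.val e
    exact Prod.ext (congrFun (congrArg Prod.fst this) x) (congrFun (congrArg Prod.snd this) (M.lf d0))
  have k2 := δ.finrank_range_add_finrank_ker
  let r := Fintype.equivFin D
  set O := univ.filter fun d => r d < r (M.rev d) with hO
  let ρ : LinearMap.range δ →ₗ[ℝ] (O → ℝ) :=
    { toFun := fun v d => v.1 d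
      map_add' := fun a b => rfl
      map_smul' := fun a b => rfl }
  have k3 := LinearMap.finrank_le_finrank_of_surjective (f := ρ) fun g => by
    let g' : D → ℝ := fun d => if h : d ∈ O then g ⟨d, h⟩ else 0
    obtain ⟨P, Q, e⟩ := decomp he (fun d => g' d - g' (M.rev d)) fun d => by simp
    refine ⟨⟨_, (P, Q), rfl⟩, funext fun d => ?_⟩
    have n : M.rev d ∉ O := by
      have := (mem_filter.1 d.2).2
      simp only [hO, mem_filter, mem_univ, true_and, PM.rr, not_lt]
      exact this.le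
    have := e d
    simp only [g', dif_pos d.2, dif_neg n, sub_zero] at this
    exact this.symm
  have k4 : Fintype.card D ≤ 2 * O.card := by
    have : (univ : Finset D) ⊆ O ∪ O.image M.rev := fun d _ => by
      rcases lt_trichotomy (r d) (r (M.rev d)) with q | q | q
      · exact mem_union_left _ (by simpa [hO] using q)
      · exact absurd (congrArg M.tl (r.injective q)).symm (M.hd_ne d)
      · exact mem_union_right _ (mem_image.2 ⟨M.rev d, by simpa [hO] using q, by simp⟩)
    have := (card_le_card this).trans (card_union_le _ _)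
    have := card_image_le (s := O) (f := M.rev)
    rw [← card_univ]; omega
  simp only [Module.finrank_prod, Module.finrank_self, Module.finrank_fintype_fun_eq_card,
    Fintype.card_coe] at k1 k2 k3
  omega

omit [DecidableEq V] [DecidableEq F] in
/-- a continuous choice of potentials -/
theorem pot {X : Type} [Fintype X] (a b : D → X) :
    ∃ Φ : (D → V3) → X → V3, Continuous Φ ∧ ∀ θ : D → V3,
      (∀ k, ∃ P : X → ℝ, ∀ d, θ d k = P (a d) - P (b d)) → ∀ d, θ d = Φ θ (a d) - Φ θ (b d) := by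
  let δ : (X → V3) →ₗ[ℝ] (D → V3) :=
    { toFun := fun q d => q (a d) - q (b d)
      map_add' := fun a b => by ext d; simp; ring
      map_smul' := fun a b => by ext d; simp; ring }
  obtain ⟨g, hg⟩ := δ.rangeRestrict.exists_rightInverse_of_surjective δ.range_rangeRestrict
  obtain ⟨g', hg'⟩ := g.exists_extend
  refine ⟨g', g'.continuous_of_finiteDimensional, fun θ h d => ?_⟩
  choose P hP using h
  have m : θ ∈ LinearMap.range δ := ⟨fun x k => P k x, by ext d k; exact (hP k d).symm⟩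
  have e1 : g' θ = g ⟨θ, m⟩ := congrArg (fun f => f ⟨θ, m⟩) hg'
  have e2 := congrArg (fun f => (f ⟨θ, m⟩).1 d) hg
  rw [e1]
  exact e2.symm

end Pool.Agent.Lib.MP_d5dfc1_co.Ex
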