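import Pool.Agent.Lib.MP_d5dfc1_co.ExClose

/-! The polyhedral map of a three-dimensional polytope. -/

namespace Pool.Agent.Lib.MP_d5dfc1_co.Ex

open Finset

variable {V : Type} {p : V → V3}

def Edge (p : V → V3) (x y : V) : Prop :=
  x ≠ y ∧ ∃ g : V3, dot g (p x) = dot g (p y) ∧ ∀ k, k ≠ x → k ≠ y → dot g (p k) < dot g (p x)

def IsF (p : V → V3) (S : Finset V) : Prop :=
  ∃ q : V3 × ℝ, q.1 ≠ 0 ∧ (∀ i, dot q.1 (p i) ≤ q.2) ∧ (∀ i, i ∈ S ↔ dot q.1 (p i) = q.2) ∧ 3 ≤ S.card

abbrev Fc (p : V → V3) := {S : Finset V // IsF p S}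

noncomputable def fn (f : Fc p) : V3 := f.2.choose.1
noncomputable def fc (f : Fc p) : ℝ := f.2.choose.2

lemma fn_ne (f : Fc p) : fn f ≠ 0 := f.2.choose_spec.1
lemma fn_le (f : Fc p) (i : V) : dot (fn f) (p i) ≤ fc f := f.2.choose_spec.2.1 i
lemma fn_mem (f : Fc p) (i : V) : i ∈ f.1 ↔ dot (fn f) (p i) = fc f := f.2.choose_spec.2.2.1 i

lemma fn_perp {f : Fc p} {x y : V} (hx : x ∈ f.1) (hy : y ∈ f.1) : dot (fn f) (p y - p x) = 0 := by
  rw [dot_sub, (fn_mem f x).1 hx, (fn_mem f y).1 hy, sub_self]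

lemma fn_sub {f : Fc p} {x : V} (hx : x ∈ f.1) (y : V) : dot (fn f) (p y - p x) ≤ 0 := by
  rw [dot_sub, (fn_mem f x).1 hx]; linarith [fn_le f y]

lemma mem_of_perp {f : Fc p} {x y : V} (hx : x ∈ f.1) (h : dot (fn f) (p y - p x) = 0) :
    y ∈ f.1 := by
  rw [dot_sub, (fn_mem f x).1 hx] at h
  exact (fn_mem f y).2 (by linarith)

lemma third (f : Fc p) (x y : V) : ∃ z ∈ f.1, z ≠ x ∧ z ≠ y := by
  classical
  by_contra N
  push Not at N
  have h := f.2.choose_spec.2.2.2
  have : f.1 ⊆ {x, y} := fun z hz => by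
    by_cases e : z = x
    · simp [e]
    · simp [N z hz e]
  have := (card_le_card this).trans card_le_two
  omega

/-- signed area seen from outside -/
noncomputable def ar (f : Fc p) (x y z : V) : ℝ := dot (fn f) (cross (p y - p x) (p z - p x))

lemma ar_swap (f : Fc p) (x y z : V) : ar f x z y = - ar f x y z := by
  simp only [ar, dot, cr0, cr1, cr2]; ring
lemma ar_rot (f : Fc p) (x y z : V) : ar f y z x = ar f x y z := by
  simp only [ar, dot, cr0, cr1, cr2, Pi.sub_apply]; ring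

def Lft (x y : V) (f : Fc p) : Prop := x ∈ f.1 ∧ y ∈ f.1 ∧ ∀ z ∈ f.1, z ≠ x → z ≠ y → 0 < ar f x y z

lemma cross_swap0 {a b : V3} (h : cross a b = 0) : cross b a = 0 := by
  have h0 := congrFun h 0; have h1 := congrFun h 1; have h2 := congrFun h 2
  refine v3_ext ?_ ?_ ?_ <;> simp only [cr0, cr1, cr2, Pi.zero_apply] at * <;> linarith

lemma plucker {m w a b : V3} (g : V3) (m0 : m ≠ 0) (h1 : dot m w = 0) (h2 : dot m a = 0)
    (h3 : dot m b = 0) : dot g w * dot m (cross a b) - dot g a * dot m (cross w b)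
      + dot g b * dot m (cross w a) = 0 := by
  have k : dot w (cross a b) = 0 := by
    refine (mul_eq_zero.1 ?_).resolve_left (dot_pos m0).ne'
    have : dot m m * dot w (cross a b) = dot m w * dot m (cross a b) + dot m a * dot m (cross b w)
        + dot m b * dot m (cross w a) := by simp only [dot, cr0, cr1, cr2]; ring
    rw [this, h1, h2, h3]; ring
  have : dot g w * dot m (cross a b) - dot g a * dot m (cross w b) + dot g b * dot m (cross w a)
      = dot g m * dot w (cross a b) := by simp only [dot, cr0, cr1, cr2]; ring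
  rw [this, k, mul_zero]

variable [Fintype V] (hp : ConvexIndependent ℝ p) (hs : affineSpan ℝ (Set.range p) = ⊤)
include hp

lemma ncol {x y z : V} (xy : y ≠ x) (xz : z ≠ x) (yz : z ≠ y) :
    cross (p y - p x) (p z - p x) ≠ 0 := fun h => by
  have q := par_of_cross (sub_ne_zero.2 fun e => xy (hp.injective e)) h
  generalize dot (p y - p x) (p z - p x) / _ = t at q
  obtain ⟨g1, k1⟩ := exists_sep hp x
  obtain ⟨g2, k2⟩ := exists_sep hp y
  obtain ⟨g3, k3⟩ := exists_sep hp z
  have e : ∀ g, dot g (p z) - dot g (p x) = t * (dot g (p y) - dot g (p x)) := fun g => by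
    rw [← dot_sub, q, dot_smul', dot_sub]
  have a1 := k1 y xy; have a2 := k1 z xz; have b1 := k2 x xy.symm; have b2 := k2 z yz
  have c1 := k3 x xz.symm; have c2 := k3 y yz.symm
  have e1 := e g1; have e2 := e g2; have e3 := e g3
  have t0 : 0 < t := by by_contra k; nlinarith
  have t1 : t < 1 := by by_contra k; nlinarith
  have : 0 < dot g3 (p y) - dot g3 (p x) := by by_contra k; nlinarith
  nlinarith

lemma nrm {f : Fc p} {x y z : V} (hx : x ∈ f.1) (hy : y ∈ f.1) (hz : z ∈ f.1) (xy : y ≠ x)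
    (xz : z ≠ x) (yz : z ≠ y) : ∃ s : ℝ, s ≠ 0 ∧ fn f = s • cross (p y - p x) (p z - p x) := by
  have c : ∀ a b : V3, dot a b = dot b a := fun a b => by simp only [dot]; ring
  have q := par_of_cross (ncol hp xy xz yz) (cross_swap0 (cross_of_perp (w := fn f)
    (by rw [c]; exact fn_perp hx hy) (by rw [c]; exact fn_perp hx hz)))
  exact ⟨_, fun z => fn_ne f (by rw [q, z, zero_smul]), q⟩

lemma nrm_pos {f : Fc p} {x y z : V} (h : Lft x y f) (hz : z ∈ f.1) (xy : y ≠ x)
    (xz : z ≠ x) (yz : z ≠ y) : ∃ s : ℝ, 0 < s ∧ fn f = s • cross (p y - p x) (p z - p x) := by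
  obtain ⟨s, -, q⟩ := nrm hp h.1 h.2.1 hz xy xz yz
  refine ⟨s, ?_, q⟩
  have := h.2.2 z hz xz yz
  rw [ar, q, smul_dot'] at this
  exact (pos_iff_pos_of_mul_pos this).2 (dot_pos (ncol hp xy xz yz))

lemma ar_ne {f : Fc p} {x y z : V} (hx : x ∈ f.1) (hy : y ∈ f.1) (hz : z ∈ f.1) (xy : y ≠ x)
    (xz : z ≠ x) (yz : z ≠ y) : ar f x y z ≠ 0 := by
  obtain ⟨s, s0, q⟩ := nrm hp hx hy hz xy xz yz
  rw [ar, q, smul_dot']
  exact mul_ne_zero s0 (dot_pos (ncol hp xy xz yz)).ne'

lemma face_ext {f g : Fc p} {x y z : V} (hx : x ∈ f.1) (hy : y ∈ f.1) (hz : z ∈ f.1)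
    (gx : x ∈ g.1) (gy : y ∈ g.1) (gz : z ∈ g.1) (xy : y ≠ x) (xz : z ≠ x) (yz : z ≠ y) : f = g := by
  obtain ⟨s, s0, q⟩ := nrm hp hx hy hz xy xz yz
  obtain ⟨t, t0, r⟩ := nrm hp gx gy gz xy xz yz
  ext u
  constructor <;> intro hu
  · have := fn_perp hx hu
    rw [q, smul_dot'] at this
    exact mem_of_perp gx (by rw [r, smul_dot', (mul_eq_zero.1 this).resolve_left s0, mul_zero])
  · have := fn_perp gx hu
    rw [r, smul_dot'] at this
    exact mem_of_perp hx (by rw [q, smul_dot', (mul_eq_zero.1 this).resolve_left t0, mul_zero])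

lemma uniqL {f g : Fc p} {x y : V} (xy : y ≠ x) (h1 : Lft x y f) (h2 : Lft x y g) : f = g := by
  obtain ⟨z, hz, z1, z2⟩ := third f x y
  obtain ⟨u, hu, u1, u2⟩ := third g x y
  obtain ⟨s, s0, q⟩ := nrm_pos hp h1 hz xy z1 z2
  obtain ⟨t, t0, r⟩ := nrm_pos hp h2 hu xy u1 u2
  have a := fn_sub h1.1 u
  have b := fn_sub h2.1 z
  rw [q, smul_dot'] at a
  rw [r, smul_dot', show dot (cross (p y - p x) (p u - p x)) (p z - p x)
    = - dot (cross (p y - p x) (p z - p x)) (p u - p x) by simp only [dot, cr0, cr1, cr2]; ring] at b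
  have : dot (cross (p y - p x) (p z - p x)) (p u - p x) = 0 := by
    apply le_antisymm <;> by_contra k <;> push Not at k <;> nlinarith
  exact face_ext hp h1.1 h1.2.1 (mem_of_perp h1.1 (by rw [q, smul_dot', this, mul_zero]))
    h2.1 h2.2.1 hu xy u1 u2

lemma exI {f : Fc p} {x : V} (hx : x ∈ f.1) : ∃ y, Edge p x y ∧ Lft x y f := by
  obtain ⟨g, hg⟩ := exists_sep hp x
  obtain ⟨u, hu, ux, -⟩ := third f x x
  obtain ⟨y, ⟨hy, yx⟩, hm⟩ := Set.exists_min_image {z | z ∈ f.1 ∧ z ≠ x}
    (fun z => ar f x u z / (dot g (p x) - dot g (p z))) (Set.toFinite _) ⟨u, hu, ux⟩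
  have L : Lft x y f := ⟨hx, hy, fun z hz zx zy => by
    refine lt_of_le_of_ne ?_ (ar_ne hp hx hy hz yx zx zy).symm
    have a := hm z ⟨hz, zx⟩
    rw [div_le_div_iff₀ (sub_pos.2 (hg y yx)) (sub_pos.2 (hg z zx))] at a
    have b := plucker g (fn_ne f) (fn_perp hx hu) (fn_perp hx hy) (fn_perp hx hz)
    simp only [dot_sub g] at b
    have := hg u ux
    unfold ar at a ⊢
    by_contra k
    nlinarith⟩
  refine ⟨y, ⟨yx.symm, ?_⟩, L⟩
  obtain ⟨K, -, hK⟩ := bigK (fun z => z ∉ f.1) (fun z => dot (fn f) (p z - p x))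
    (fun z => - ar f x y z) fun z hz => (fn_sub hx z).lt_of_ne fun e => hz (mem_of_perp hx e)
  have ev : ∀ z, dot (K • fn f + cross (p y - p x) (fn f)) (p z) = dot (K • fn f + cross (p y - p x) (fn f)) (p x)
      + (K * dot (fn f) (p z - p x) - ar f x y z) := fun z => by
    simp only [ar, dot, cr0, cr1, cr2, Pi.add_apply, Pi.smul_apply, smul_eq_mul, Pi.sub_apply]; ring
  refine ⟨K • fn f + cross (p y - p x) (fn f), ?_, fun k kx ky => ?_⟩
  · rw [ev y, fn_perp hx hy]; simp only [ar, dot, cr0, cr1, cr2]; ring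
  · rw [ev k]
    by_cases q : k ∈ f.1
    · rw [fn_perp hx q]; linarith [L.2.2 k q kx ky]
    · linarith [hK k q]

include hs

lemma exL {x y : V} (h : Edge p x y) : ∃ f : Fc p, Lft x y f := by
  classical
  obtain ⟨xy, g, g1, g2⟩ := h
  obtain ⟨u, ux, uy⟩ : ∃ u, u ≠ x ∧ u ≠ y := by
    by_contra N
    push Not at N
    obtain ⟨l, l0, hl⟩ := (Matrix.exists_mulVec_eq_zero_iff
      (M := Matrix.of ![p y - p x, 0, 0])).2 (by rw [Matrix.det_fin_three]; simp)
    have e1 := congrFun hl 0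
    simp [Matrix.mulVec, dotProduct, Fin.sum_univ_three] at e1
    refine l0 (eq_zero_of_span hs l (dot l (p x)) fun j => ?_)
    by_cases q : j = x
    · rw [q]
    · rw [N j q]; simp only [dot]; linarith
  have g0 : g ≠ 0 := fun e => by simpa [e, dot] using g2 u ux uy
  obtain ⟨z, ⟨zx, zy⟩, hm⟩ := Set.exists_min_image {z | z ≠ x ∧ z ≠ y}
    (fun z => dot (cross (p y - p x) g) (p z - p x) / (dot g (p x) - dot g (p z))) (Set.toFinite _)
    ⟨u, ux, uy⟩
  set N := cross (p y - p x) (p z - p x) with hN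
  have N0 : N ≠ 0 := ncol hp xy.symm zx zy
  have gw : dot g (p y - p x) = 0 := by rw [dot_sub, g1, sub_self]
  have Ny : dot N (p y - p x) = 0 := by simp only [hN, dot, cr0, cr1, cr2]; ring
  have Nz : dot N (p z - p x) = 0 := by simp only [hN, dot, cr0, cr1, cr2]; ring
  have le : ∀ v, dot N (p v - p x) ≤ 0 := fun v => by
    by_cases vx : v = x
    · simp [vx, dot]
    by_cases vy : v = y
    · rw [vy, Ny]
    have a := hm v ⟨vx, vy⟩
    rw [div_le_div_iff₀ (sub_pos.2 (g2 z zx zy)) (sub_pos.2 (g2 v vx vy))] at a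
    have id : ∀ w a b : V3, dot g g * dot (cross w a) b = dot g a * dot (cross w g) b
        - dot (cross w g) a * dot g b + dot g w * dot g (cross a b) := fun w a b => by
      simp only [dot, cr0, cr1, cr2]; ring
    have := id (p y - p x) (p z - p x) (p v - p x)
    rw [gw, dot_sub g, dot_sub g] at this
    have := dot_pos g0
    by_contra k
    nlinarith
  let f : Fc p := ⟨univ.filter fun v => dot N (p v) = dot N (p x), (N, dot N (p x)), N0,
    fun v => by have := le v; rw [dot_sub] at this; linarith, by simp, by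
      have : ({x, y, z} : Finset V) ⊆ univ.filter fun v => dot N (p v) = dot N (p x) := by
        rw [dot_sub] at Ny Nz
        intro v hv
        simp only [mem_insert, mem_singleton] at hv
        rcases hv with rfl | rfl | rfl <;> simp only [mem_filter, mem_univ, true_and] <;> linarith
      exact (card_eq_three.2 ⟨x, y, z, xy, zx.symm, zy.symm, rfl⟩).ge.trans (card_le_card this)⟩
  have hx : x ∈ f.1 := by simp [f]
  have hy : y ∈ f.1 := by rw [dot_sub] at Ny; simp only [f, mem_filter, mem_univ, true_and]; linarith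
  have hz : z ∈ f.1 := by rw [dot_sub] at Nz; simp only [f, mem_filter, mem_univ, true_and]; linarith
  obtain ⟨s, s0, q⟩ := nrm hp hx hy hz xy.symm zx zy
  have sp : 0 < s := by
    obtain ⟨v, hv⟩ : ∃ v, dot N (p v) ≠ dot N (p x) := by
      by_contra k
      push Not at k
      exact N0 (eq_zero_of_span hs N _ k)
    have a := fn_sub hx v
    have b : dot N (p v - p x) < 0 := (le v).lt_of_ne (by rw [dot_sub]; exact sub_ne_zero.2 hv)
    rw [q, smul_dot'] at a
    refine lt_of_le_of_ne ?_ s0.symm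
    by_contra k
    nlinarith
  refine ⟨f, hx, hy, fun v hv vx vy => ?_⟩
  have b := plucker g (fn_ne f) (fn_perp hx hy) (fn_perp hx hz) (fn_perp hx hv)
  have a : 0 < dot (fn f) (cross (p y - p x) (p z - p x)) := by
    rw [q, smul_dot']; exact mul_pos sp (dot_pos N0)
  rw [gw, dot_sub g, dot_sub g] at b
  have := g2 z zx zy
  have := g2 v vx vy
  unfold ar
  by_contra k
  nlinarith

omit hp hs [Fintype V] in
lemma Edge.symm {x y : V} (h : Edge p x y) : Edge p y x := by
  obtain ⟨a, g, b, c⟩ := h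
  exact ⟨a.symm, g, b.symm, fun k k1 k2 => b ▸ c k k2 k1⟩

theorem extract : ∃ (F D : Type) (_ : Fintype F) (_ : Fintype D) (M : PM V F D) (n : F → V3)
    (c : F → ℝ), Strict M p n c ∧ Ori M p n := by
  classical
  let D := {q : V × V // Edge p q.1 q.2}
  let rev : D → D := fun d => ⟨(d.1.2, d.1.1), d.2.symm⟩
  choose lf hlf using fun d : D => exL hp hs d.2
  have ne : ∀ d : D, d.1.2 ≠ d.1.1 := fun d => d.2.1.symm
  have exD : ∀ (x : V) (f : Fc p), x ∈ f.1 → ∃ d : D, d.1.1 = x ∧ lf d = f := fun x f hx => by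
    obtain ⟨y, e, L⟩ := exI hp hx
    exact ⟨⟨(x, y), e⟩, rfl, uniqL hp e.1.symm (hlf _) L⟩
  choose sg sg1 sg2 using fun d : D => exD d.1.1 (lf (rev d)) (hlf (rev d)).2.1
  have uniq : ∀ d e : D, d.1.1 = e.1.1 → lf d = lf e → d = e := fun d e a b => by
    by_contra N
    have k : d.1.2 ≠ e.1.2 := fun k => N (Subtype.ext (Prod.ext a k))
    have h1 := (hlf d).2.2 _ (b ▸ (hlf e).2.1) (a ▸ ne e) k.symm
    have h2 := (hlf e).2.2 _ (b ▸ (hlf d).2.1) (a ▸ ne d) k
    rw [← a, ← b, ar_swap] at h2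
    linarith
  have inj : Function.Injective sg := fun d e h => by
    have a : d.1.1 = e.1.1 := by rw [← sg1, h, sg1]
    have b : lf (rev d) = lf (rev e) := by rw [← sg2, h, sg2]
    by_contra N
    have k : d.1.2 ≠ e.1.2 := fun k => N (Subtype.ext (Prod.ext a k))
    have h1 : 0 < ar (lf (rev d)) d.1.2 d.1.1 e.1.2 :=
      (hlf (rev d)).2.2 _ (b ▸ (hlf (rev e)).1) k.symm fun q => ne e (q.trans a)
    have h2 : 0 < ar (lf (rev e)) e.1.2 e.1.1 d.1.2 :=
      (hlf (rev e)).2.2 _ (b ▸ (hlf (rev d)).1) k fun q => ne d (q.trans a.symm)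
    rw [← a, ← b, ← ar_rot, ar_swap] at h2
    rw [← ar_rot] at h1
    linarith
  let σ : Equiv.Perm D := Equiv.ofBijective sg (Finite.injective_iff_bijective.1 inj)
  have sides : ∀ d, lf (rev d) ≠ lf d := fun d h => by
    obtain ⟨z, hz, z1, z2⟩ := third (lf d) d.1.1 d.1.2
    have h1 := (hlf d).2.2 z hz z1 z2
    have h2 : 0 < ar (lf (rev d)) d.1.2 d.1.1 z := (hlf (rev d)).2.2 z (h ▸ hz) z2 z1
    rw [h, ar_swap, ar_rot] at h2
    linarith
  have two : ∀ (d : D) u, u ∈ (lf d).1 → u ∈ (lf (rev d)).1 → u = d.1.1 ∨ u = d.1.2 :=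
    fun d u a b => by
      by_contra N
      push Not at N
      exact sides d (face_ext hp (hlf (rev d)).2.1 (hlf (rev d)).1 b (hlf d).1 (hlf d).2.1 a
        (ne d) N.1 N.2)
  have ori : ∀ d : D, ∃ w : ℝ, 0 < w ∧ cross (fn (lf d)) (fn (lf (rev d))) = w • (p d.1.2 - p d.1.1) :=
    fun d => by
      obtain ⟨z, hz, z1, z2⟩ := third (lf d) d.1.1 d.1.2
      obtain ⟨u, hu, u1, u2⟩ := third (lf (rev d)) d.1.1 d.1.2
      obtain ⟨s, s0, q⟩ := nrm_pos hp (hlf d) hz (ne d) z1 z2
      obtain ⟨t, t0, r⟩ := nrm_pos hp (hlf (rev d)) hu (ne d).symm u2 u1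
      have a : dot (fn (lf d)) (p u - p d.1.1) < 0 := (fn_sub (hlf d).1 u).lt_of_ne fun e =>
        (two d u (mem_of_perp (hlf d).1 e) hu).elim u1 u2
      refine ⟨t * - dot (fn (lf d)) (p u - p d.1.1), mul_pos t0 (by linarith), ?_⟩
      rw [r, q]
      refine v3_ext ?_ ?_ ?_ <;>
        simp only [rev, dot, cr0, cr1, cr2, Pi.smul_apply, smul_eq_mul, Pi.sub_apply] <;> ring
  have orb : ∀ {α : Type} (τ : Equiv.Perm D) (a : D → α), (∀ d, a (τ d) = a d) → ∀ d e,
      τ.SameCycle d e → a e = a d := fun τ a h d e c => by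
    obtain ⟨k, -, rfl⟩ := c.exists_pow_eq'
    induction k with
    | zero => rfl
    | succ k ih => rw [pow_succ', Equiv.Perm.mul_apply, h]; exact ih ⟨k, by simp⟩
  have rr : ∀ d, rev (rev d) = d := fun d => rfl
  let ν : Equiv.Perm D := Equiv.trans ⟨rev, rev, rr, rr⟩ σ
  let M : PM V (Fc p) D :=
    { rev := rev
      tl := fun d => d.1.1
      lf := lf
      sg := σ
      rev_rev := rr
      tl_sg := sg1
      lf_sg := sg2
      vtr := fun d e t => by
        by_cases c : σ.SameCycle d e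
        · obtain ⟨k, -, h⟩ := c.exists_pow_eq'
          exact ⟨k, by rw [Equiv.Perm.iterate_eq_pow]; exact h⟩
        exfalso
        obtain ⟨g, g1, g2⟩ := e.2.2
        have tt : ∀ a, σ.SameCycle d a → a.1.1 = e.1.1 := fun a h =>
          (orb σ (fun a => a.1.1) sg1 d a h).trans t
        have key : ∀ a, σ.SameCycle d a → 0 < dot (-g) (cross (fn (lf a)) (fn (lf (σ a)))) :=
          fun a h => by
            obtain ⟨w, hw, q⟩ := ori a
            have := g2 a.1.2 (tt a h ▸ ne a) fun k => c (Subtype.ext (Prod.ext (tt a h) k) ▸ h)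
            rw [show lf (σ a) = lf (rev a) from sg2 a, q, dot_smul', dot_sub, tt a h]
            refine mul_pos hw ?_
            simp only [dot, Pi.neg_apply] at this ⊢
            linarith
        refine cyc (univ.filter fun a => σ.SameCycle d a) σ (by simp) (fun a => fn (lf a))
          (l := -g) (y := p e.1.2 - p e.1.1) (sub_ne_zero.2 fun k => ne e (hp.injective k)) ?_
          (fun a ha => ?_) (fun a ha => Or.inl (key a (by simpa using ha)))
          ⟨d, by simp [Equiv.Perm.SameCycle.refl], key d (Equiv.Perm.SameCycle.refl _ _)⟩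
        · simp only [dot, Pi.neg_apply, Pi.sub_apply] at g1 ⊢; linarith
        · have := fn_sub (hlf a).1 e.1.2
          rw [tt a (by simpa using ha)] at this
          simp only [dot] at this ⊢; linarith
      ftr := fun d e t => by
        by_cases c : ν.SameCycle d e
        · obtain ⟨k, -, h⟩ := c.exists_pow_eq'
          exact ⟨k, by rw [← h, ← Equiv.Perm.iterate_eq_pow]; rfl⟩
        exfalso
        obtain ⟨g, hg⟩ := exists_sep hp e.1.1
        have tt : ∀ a, ν.SameCycle d a → lf a = lf e := fun a h =>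
          (orb ν lf (fun a => sg2 (rev a)) d a h).trans t
        have nt : ∀ a, ν.SameCycle d a → e.1.1 ≠ a.1.1 := fun a h k =>
          c (uniq _ _ k.symm (tt a h) ▸ h)
        refine faceCyc (univ.filter fun a => ν.SameCycle d a) ν (by simp)
          (fun a => p a.1.1 - p e.1.1) (n := fn (lf e)) (l := g)
          ⟨d, by simp [Equiv.Perm.SameCycle.refl]⟩
          (fun a ha => fn_perp (hlf e).1 (tt a (by simpa using ha) ▸ (hlf a).1))
          (fun a ha => ?_) fun a ha => ?_
        · have h : ν.SameCycle d a := by simpa using ha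
          have e1 : (ν a).1.1 = a.1.2 := sg1 (rev a)
          have := (hlf a).2.2 _ (tt a h ▸ (hlf e).1) (nt a h) (e1 ▸ nt (ν a) (by simpa using h))
          rw [← ar_rot, ← ar_rot, tt a h] at this
          rw [e1]; exact this
        · rw [dot_sub]; linarith [hg _ (nt a (by simpa using ha)).symm]
      uniq := uniq
      simple := fun d e a b => Subtype.ext (Prod.ext a b)
      tl_surj := fun x => by
        by_contra N
        push Not at N
        have all : ∀ (l : V3) j, dot l (p j - p x) ≤ 0 := fun l => simplex hp x l fun j hj ex => by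
          obtain ⟨g, g1, g2⟩ := vec_of_exposed hp ex
          exact absurd rfl (N ⟨(x, j), hj.symm, g, g1, g2⟩)
        have := eq_zero_of_span hs ![1, 0, 0] (dot ![1, 0, 0] (p x)) fun j => by
          have a := all ![1, 0, 0] j
          have b := all ![-1, 0, 0] j
          simp [dot] at a b ⊢
          linarith
        simpa using congrFun this 0
      lf_surj := fun f => by
        obtain ⟨x, hx⟩ : f.1.Nonempty := card_pos.1 (by have := f.2.choose_spec.2.2.2; omega)
        obtain ⟨d, -, h⟩ := exD x f hx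
        exact ⟨d, h⟩
      noloop := ne
      sides := sides
      two := fun d a b h1 h2 h3 => two d _ (h2 ▸ (hlf a).1) (h1 ▸ h3 ▸ (hlf b).1) }
  refine ⟨Fc p, D, inferInstance, inferInstance, M, fn, fc, ⟨?_, fun x f i => ?_⟩, ori⟩
  · rintro x f ⟨d, rfl, rfl⟩
    exact sub_eq_zero.2 ((fn_mem _ _).1 (hlf d).1).symm
  · exact sub_pos.2 ((fn_le f x).lt_of_ne fun e => i (exD x f ((fn_mem f x).2 e)))

end Pool.Agent.Lib.MP_d5dfc1_co.Ex
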