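import Pool.Agent.Lib.MP_d5dfc1_co.ExDet

/-! Equilibrium systems: continuous families and integrality. -/

namespace Pool.Agent.Lib.MP_d5dfc1_co.Ex

open Finset Matrix

variable {V F D N : Type} (M : PM V F D)

lemma Strict.of_slack {M : PM V F D} {p p' : V → V3} {n n' : F → V3} {c c' : F → ℝ}
    (h : Strict M p n c) (e : ∀ x f, ∃ α : ℝ, 0 < α ∧ slack p' n' c' x f = α * slack p n c x f) :
    Strict M p' n' c' :=
  ⟨fun x f i => by obtain ⟨α, -, q⟩ := e x f; rw [q, h.1 x f i, mul_zero],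
    fun x f i => by obtain ⟨α, a, q⟩ := e x f; rw [q]; exact mul_pos a (h.2 x f i)⟩

lemma Strict.wsym {M : PM V F D} {p : V → V3} {n : F → V3} {c : F → ℝ} (h : Strict M p n c)
    {w : D → ℝ} (e : ∀ d, cross (n (M.lf d)) (n (M.rf d)) = w d • (p (M.hd d) - p (M.tl d))) (d : D) :
    w (M.rev d) = w d := by
  have ne : p (M.hd d) - p (M.tl d) ≠ 0 := sub_ne_zero.2 fun e => M.hd_ne d (h.inj e)
  refine smul_left_injective ℝ ne ?_
  have a := e d
  have b := e (M.rev d)
  have a0 := congrFun a 0; have a1 := congrFun a 1; have a2 := congrFun a 2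
  have b0 := congrFun b 0; have b1 := congrFun b 1; have b2 := congrFun b 2
  refine v3_ext ?_ ?_ ?_ <;>
    simp only [cr0, cr1, cr2, Pi.smul_apply, smul_eq_mul, Pi.sub_apply, PM.lf_rev, PM.rf_rev,
      PM.hd_rev, PM.tl_rev] at * <;> linarith

lemma sp3 (nd : D → N) (t : Fin 3 → N) (a : Fin 3 → D) (h1 : ∀ j, nd (a j) = t j)
    (h2 : ∀ j, nd (M.rev (a j)) = t (j + 1)) (i j : Fin 3) (ne : i ≠ j) :
    ∃ d, nd d = t i ∧ nd (M.rev d) = t j := by
  obtain rfl | rfl : j = i + 1 ∨ i = j + 1 := by revert i j; decide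
  · exact ⟨a i, h1 i, h2 i⟩
  · exact ⟨M.rev (a j), h2 j, by simp [h1]⟩

variable [Fintype D] [DecidableEq N] (nd : D → N)

/-- equilibrium at the nodes in `J` -/
def Eqm (J : N → Prop) (w : D → ℝ) (τ h : N → ℝ) : Prop :=
  ∀ x, J x → ∑ d with nd d = x, w d * h (nd (M.rev d)) = τ x * h x

lemma Eqm.sub {J : N → Prop} {w : D → ℝ} {τ h k : N → ℝ} (a : Eqm M nd J w τ h)
    (b : Eqm M nd J w τ k) : Eqm M nd J w τ fun x => h x - k x := fun x q => by
  simp only [mul_sub, sum_sub_distrib, a x q, b x q]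

variable [Fintype N]

theorem netfam (T : N → Prop) [DecidablePred T] (w : ℝ → D → ℝ) (τ : ℝ → N → ℝ) (cw : Continuous w)
    (cτ : Continuous τ) (t : Fin 3 → N) (hT : ∀ x, T x ↔ ∃ j, t j = x) (ti : Function.Injective t)
    {ε : ℝ} (hε : ε * ε = 1) (sym : ∀ s d, w s (M.rev d) = w s d)
    (sp : ∀ i j, i ≠ j → ∃ d, nd d = t i ∧ nd (M.rev d) = t j)
    (spu : ∀ d e, nd d = nd e → nd (M.rev d) = nd (M.rev e) → d = e)
    (ker : ∀ s ∈ Set.Icc (0 : ℝ) 1, ∀ h, (∀ x, T x → h x = 0) →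
      Eqm M nd (fun x => ¬ T x) (w s) (τ s) h → h = 0)
    {X : Type} [Fintype X] (a b : D → X) (ex : ∀ θ : D → ℝ, (∀ d, θ (M.rev d) = - θ d) →
      (∀ x, ∑ d with nd d = x, θ d = 0) → ∃ P : X → ℝ, ∀ d, θ d = P (a d) - P (b d)) :
    ∃ (r : ℝ → N → V3) (Q : ℝ → X → V3), ContinuousOn r (Set.Icc 0 1) ∧ ContinuousOn Q (Set.Icc 0 1) ∧
      ∀ s ∈ Set.Icc (0 : ℝ) 1, (∀ j k, r s (t j) k = if k = j then ε else 0) ∧
        (∀ k, Eqm M nd (fun x => ¬ T x) (w s) (τ s) fun x => r s x k) ∧ ∀ d, Q s (a d) - Q s (b d)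
          = wsp M nd T (w s) (r s) d • cross (r s (nd d)) (r s (nd (M.rev d))) := by
  let A : ℝ → Matrix N N ℝ := fun s => Matrix.of fun x y => if T x then (if x = y then 1 else 0)
    else (if x = y then τ s x else 0) - ∑ d with nd d = x ∧ nd (M.rev d) = y, w s d
  have mv : ∀ s h x, (A s *ᵥ h) x
      = if T x then h x else τ s x * h x - ∑ d with nd d = x, w s d * h (nd (M.rev d)) := by
    intro s h x
    simp only [mulVec, dotProduct, A, of_apply]
    split_ifs
    · simp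
    · rw [← sum_fiberwise _ fun d => nd (M.rev d)]
      simp only [sub_mul, sum_sub_distrib, ite_mul, zero_mul, Fintype.sum_ite_eq, sum_mul, filter_filter]
      congr 1
      exact sum_congr rfl fun y _ => sum_congr rfl fun d hd => by rw [(mem_filter.1 hd).2.2]
  have cA : Continuous A := continuous_matrix fun x y => by
    simp only [A, of_apply]
    split_ifs <;> fun_prop
  obtain ⟨r, cr, hr⟩ := family A (fun x k => if x = t k then ε else 0) cA fun s hs h e =>
    ker s hs h (fun x q => by simpa [mv, q] using congrFun e x) fun x q => by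
      have := congrFun e x
      rw [mv, if_neg q, Pi.zero_apply] at this
      linarith
  have r1 : ∀ s ∈ Set.Icc (0 : ℝ) 1, ∀ j k, r s (t j) k = if k = j then ε else 0 := fun s hs j k => by
    have := congrFun (hr s hs k) (t j)
    rw [mv, if_pos ((hT _).2 ⟨j, rfl⟩)] at this
    simp only [this, ti.eq_iff, eq_comm]
  have r2 : ∀ s ∈ Set.Icc (0 : ℝ) 1, ∀ k, Eqm M nd (fun x => ¬ T x) (w s) (τ s) fun x => r s x k :=
    fun s hs k x q => by
      have := congrFun (hr s hs k) x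
      rw [mv, if_neg q, if_neg fun e => q ((hT _).2 ⟨k, e.symm⟩)] at this
      linarith
  obtain ⟨Φ, cΦ, hΦ⟩ := pot a b
  refine ⟨r, fun s => Φ _, cr, cΦ.comp_continuousOn (wsp_cont M nd T cw cr),
    fun s hs => ⟨r1 s hs, r2 s hs, fun d => (hΦ _ (fun k => ?_) d).symm⟩⟩
  obtain ⟨n1, n2⟩ := net M nd T (w s) (r s) t hT hε (r1 s hs) (sym s) (τ s)
    (fun x q k => r2 s hs k x q) sp spu
  refine ex _ (fun d => ?_) fun x => by simpa using congrFun (n2 x) k
  rw [n1, PM.rr]
  fin_cases k <;> simp [cr0, cr1, cr2] <;> ring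

theorem integ (J : N → Prop) [DecidablePred J] (K : D → Prop) [DecidablePred K]
    (hK : ∀ d, J (nd d) → J (nd (M.rev d)) → K d) (r : N → V3) (hi : ∀ x, ¬ J x → IsInt (r x))
    (eq : ∀ k, Eqm M nd J (fun _ => 1) (fun x => #{d | nd d = x ∧ K d}) fun x => r x k)
    (ker : ∀ h : N → ℝ, (∀ x, ¬ J x → h x = 0) →
      Eqm M nd J (fun _ => 1) (fun x => #{d | nd d = x ∧ K d}) h → h = 0) :
    (1 : ℝ) ≤ (lap M nd J K).det ∧
      ∀ x u v, ∃ z : ℤ, ((lap M nd J K).det : ℝ) * det3 (r x) (r u) (r v) = z := by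
  have sp : ∀ (h : N → ℝ) x, ∑ d with nd d = x, 1 * h (nd (M.rev d))
      = ∑ d with nd d = x ∧ J (nd (M.rev d)), h (nd (M.rev d))
        + ∑ d with nd d = x ∧ ¬ J (nd (M.rev d)), h (nd (M.rev d)) := fun h x => by
    rw [← filter_filter, ← filter_filter, sum_filter_add_sum_filter_not]; simp
  have d0 : (lap M nd J K).det ≠ 0 := fun e => by
    obtain ⟨h, h0, q⟩ := (Matrix.exists_mulVec_eq_zero_iff
      (M := (lap M nd J K).map (Int.cast : ℤ → ℝ))).2 (by rw [← Int.cast_det, e, Int.cast_zero])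
    have z : ∀ x, ¬ J x → h x = 0 := fun x k => by simpa [lap_mul, k] using congrFun q x
    refine h0 (ker h z fun x k => ?_)
    have := congrFun q x
    rw [lap_mul, if_pos k, sum_const, nsmul_eq_mul, Pi.zero_apply] at this
    rw [sp, sum_eq_zero (s := {d | nd d = x ∧ ¬ J (nd (M.rev d))}) fun d hd => z _ (mem_filter.1 hd).2.2]
    linarith
  have d1 := (lap_psd M nd J K hK).det_nonneg
  rw [← Int.cast_det] at d1
  refine ⟨by exact_mod_cast lt_of_le_of_ne (by exact_mod_cast d1) d0.symm, ?_⟩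
  choose! z hz using hi
  refine cramer3 _ (fun x k => if J x then
    ∑ d with nd d = x ∧ ¬ J (nd (M.rev d)), z (nd (M.rev d)) k else z x k) r d0 fun k => ?_
  ext x
  rw [lap_mul]
  split_ifs with q
  · have := eq k x q
    rw [sp (fun x => r x k)] at this
    rw [sum_const, nsmul_eq_mul, Int.cast_sum,
      ← sum_congr rfl fun d hd => hz _ (mem_filter.1 hd).2.2 k]
    linarith
  · exact hz x q k

/-- fibres of a rotation -/
lemma fib_card (s : D → D) (si : Function.Injective s) (hs : ∀ d, nd (s d) = nd d)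
    (su : ∀ x, ∃ d, nd d = x) (k : ℕ) (ne : ∀ d, ∀ i, 0 < i → i < k → s^[i] d ≠ d) :
    k * Fintype.card N ≤ Fintype.card D := by
  rw [← card_univ (α := D), card_eq_sum_card_fiberwise (f := nd) (t := univ) (by simp), mul_comm,
    ← smul_eq_mul, ← card_univ]
  refine card_nsmul_le_sum _ _ _ fun x _ => ?_
  obtain ⟨d, rfl⟩ := su x
  rw [← card_range k]
  refine card_le_card_of_injOn (fun i => s^[i] d) (fun i _ => ?_) fun i hi j hj e => ?_
  · simpa using congrFun (Function.iterate_invariant (f := s) (g := nd) (funext hs) i) d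
  · wlog l : i ≤ j generalizing i j
    · exact (this j hj i hi e.symm (not_le.1 l).le).symm
    obtain ⟨m, rfl⟩ := Nat.exists_eq_add_of_le l
    by_contra q
    simp only [Function.iterate_add_apply] at e
    exact ne d m (by omega) (by simp at hj; omega) (si.iterate i e).symm

end Pool.Agent.Lib.MP_d5dfc1_co.Ex
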