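import Pool.Agent.Lib.MP_d5dfc1_co.ExExa

/-! Linear algebra of weighted networks on the darts. -/

namespace Pool.Agent.Lib.MP_d5dfc1_co.Ex

open Finset Matrix

variable {V F D N : Type} (M : PM V F D)

theorem family [Fintype N] [DecidableEq N] (A : ℝ → Matrix N N ℝ) (E : N → V3)
    (hA : Continuous A) (inj : ∀ s ∈ Set.Icc (0 : ℝ) 1, ∀ h, A s *ᵥ h = 0 → h = 0) :
    ∃ r : ℝ → N → V3, ContinuousOn r (Set.Icc 0 1) ∧
      ∀ s ∈ Set.Icc (0 : ℝ) 1, ∀ k, A s *ᵥ (fun y => r s y k) = fun x => E x k := by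
  have dn : ∀ s ∈ Set.Icc (0 : ℝ) 1, (A s).det ≠ 0 := fun s hs h => by
    obtain ⟨v, v0, hv⟩ := Matrix.exists_mulVec_eq_zero_iff.2 h
    exact v0 (inj s hs v hv)
  refine ⟨fun s x k => ((A s).det)⁻¹ * ((A s).adjugate *ᵥ fun y => E y k) x, ?_, fun s hs k => ?_⟩
  · refine continuousOn_pi.2 fun x => continuousOn_pi.2 fun k => ?_
    refine (hA.matrix_det.continuousOn.inv₀ dn).mul (Continuous.continuousOn ?_)
    exact (continuous_apply x).comp (hA.matrix_adjugate.matrix_mulVec continuous_const)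
  · have : (fun y => ((A s).det)⁻¹ * ((A s).adjugate *ᵥ fun y => E y k) y)
        = ((A s).det)⁻¹ • ((A s).adjugate *ᵥ fun y => E y k) := rfl
    rw [this, mulVec_smul, mulVec_mulVec, mul_adjugate, smul_mulVec, one_mulVec, smul_smul,
      inv_mul_cancel₀ (dn s hs), one_smul]

/-- generalised Cramer rule -/
theorem cramer3 [Fintype N] [DecidableEq N] (A : Matrix N N ℤ) (E : N → Fin 3 → ℤ) (r : N → V3)
    (hd : A.det ≠ 0) (h : ∀ k, A.map (Int.cast : ℤ → ℝ) *ᵥ (fun y => r y k) = fun x => (E x k : ℝ))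
    (x u v : N) : ∃ z : ℤ, (A.det : ℝ) * det3 (r x) (r u) (r v) = z := by
  set A' := A.map (Int.cast : ℤ → ℝ) with hA'
  have dA : A'.det = (A.det : ℝ) := (Int.cast_det A).symm
  have : Invertible A' := A'.invertibleOfIsUnitDet (by rw [dA]; exact (Int.cast_ne_zero.2 hd).isUnit)
  let S : Matrix (Fin 3) N ℤ := Matrix.of fun i y => if y = ![x, u, v] i then 1 else 0
  refine ⟨- (fromBlocks A (Matrix.of E) S 0).det, ?_⟩
  have e1 : (Matrix.of E).map (Int.cast : ℤ → ℝ) = A' * Matrix.of r := by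
    ext a k
    exact (congrFun (h k) a).symm
  have e2 : S.map (Int.cast : ℤ → ℝ) * Matrix.of r = Matrix.of ![r x, r u, r v] := by
    ext i k
    have : ∀ y, ∑ j, ((if j = y then 1 else 0 : ℤ) : ℝ) * r j k = r y k := fun y => by
      rw [sum_eq_single y (fun j _ h => by rw [if_neg h]; simp) (by simp)]; simp
    fin_cases i <;> exact this _
  rw [Int.cast_neg, Int.cast_det (fromBlocks _ _ _ _), fromBlocks_map, det_fromBlocks₁₁, e1, Matrix.mul_assoc,
    ← Matrix.mul_assoc (⅟A'), invOf_mul_self, Matrix.one_mul, e2, dA, det_fin_three]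
  simp [det3]
  ring

theorem det_le [Fintype N] [DecidableEq N] {A : Matrix N N ℝ} (hA : A.PosSemidef) {μ : ℝ}
    (hμ : 0 < μ) : A.det ≤ μ ^ Fintype.card N * Real.exp (A.trace / μ - Fintype.card N) := by
  rw [hA.1.det_eq_prod_eigenvalues, hA.1.trace_eq_sum_eigenvalues]
  simp only [RCLike.ofReal_real_eq_id, id]
  calc ∏ i, hA.1.eigenvalues i ≤ ∏ i, μ * Real.exp (hA.1.eigenvalues i / μ - 1) := by
        refine prod_le_prod (fun i _ => hA.eigenvalues_nonneg i) fun i _ => ?_
        have := Real.add_one_le_exp (hA.1.eigenvalues i / μ - 1)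
        rw [sub_add_cancel, div_le_iff₀ hμ] at this
        linarith
    _ = _ := by
        rw [prod_mul_distrib, ← Real.exp_sum, sum_sub_distrib, sum_div]
        simp

lemma osc [Fintype N] (S : N → Prop) (R : N → N → Prop)
    (con : ∀ C : Set N, (∀ a ∈ C, ∀ b, S a → S b → R a b → b ∈ C) → ∀ a ∈ C, S a → ∀ b, S b → b ∈ C)
    (h : N → ℝ) {ρ : ℝ} (h0 : 0 ≤ ρ) (hρ : ∀ a b, S a → S b → R a b → h b ≤ h a + ρ) {a b : N}
    (ha : S a) (hb : S b) : h b ≤ h a + Fintype.card N * ρ := by
  classical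
  have key : ∀ k : ℕ, k < #{x | h x ≤ h a + k * ρ} ∨ ∀ x, S x → h x ≤ h a + k * ρ := by
    intro k
    induction k with
    | zero => exact Or.inl (card_pos.2 ⟨a, by simp⟩)
    | succ k ih =>
      by_cases q : ∀ x, S x → h x ≤ h a + k * ρ
      · exact Or.inr fun x hx => by push_cast; linarith [q x hx]
      left
      obtain ⟨x, hx, y, sx, sy, r, hy⟩ : ∃ x, h x ≤ h a + k * ρ ∧ ∃ y, S x ∧ S y ∧ R x y ∧
          ¬ h y ≤ h a + k * ρ := by
        by_contra n
        push Not at n
        exact q (con {x | h x ≤ h a + k * ρ} (fun x hx y sx sy r => n x hx y sx sy r) a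
          (show h a ≤ h a + k * ρ from le_add_of_nonneg_right (by positivity)) ha)
      refine (Nat.succ_le_of_lt (ih.resolve_right q)).trans_lt (card_lt_card ⟨fun z hz => ?_, fun s => ?_⟩)
      · simp only [mem_filter, mem_univ, true_and] at hz ⊢
        push_cast; linarith
      · have := s (show y ∈ _ by
          simp only [mem_filter, mem_univ, true_and]; push_cast; linarith [hρ x y sx sy r])
        exact hy (by simpa using this)
  exact (key _).resolve_left (not_lt.2 (card_le_univ _)) b hb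

/-- connectivity of the faces outside a forbidden set -/
lemma dual_con (B : F → Prop) (G : V → Prop)
    (c1 : ∀ C : Set V, (∀ d, G (M.tl d) → G (M.hd d) → M.tl d ∈ C → M.hd d ∈ C) →
      ∀ u ∈ C, G u → ∀ w, G w → w ∈ C)
    (c2 : ∀ d, G (M.tl d) → G (M.hd d) → ¬ B (M.lf d) ∨ ¬ B (M.rf d))
    (c3 : ∀ d e, G (M.tl d) → M.tl d = M.tl e → ¬ B (M.lf d) → B (M.rf d) → ¬ B (M.lf e) →
      B (M.rf e) → d = e)
    (c4 : ∀ x f, ¬ B f → M.Inc x f → G x) (C : Set F)
    (hC : ∀ a ∈ C, ∀ b, ¬ B a → ¬ B b → (∃ d, M.lf d = a ∧ M.rf d = b) → b ∈ C) :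
    ∀ a ∈ C, ¬ B a → ∀ b, ¬ B b → b ∈ C := by
  intro a ha na b nb
  have loc : ∀ x f g, f ∈ C → ¬ B f → M.Inc x f → ¬ B g → M.Inc x g → g ∈ C := by
    rintro x _ _ hf nf ⟨d, td, rfl⟩ ng ⟨e, te, rfl⟩
    have gx : G x := c4 x _ nf ⟨d, td, rfl⟩
    have := M.interval x (fun d => ¬ B (M.lf d)) (fun d => M.lf d ∈ C) (fun d _ u1 u2 => by
      rw [PM.lf_sg'] at u2 ⊢
      exact propext ⟨fun q => hC _ q _ u2 u1 ⟨M.rev d, by simp, by simp⟩,
        fun q => hC _ q _ u1 u2 ⟨d, rfl, rfl⟩⟩)
      (fun d e td te u1 u2 u3 u4 => c3 d e (td ▸ gx) (td.trans te.symm) u1 (by simpa using u2) u3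
        (by simpa using u4)) td te nf ng
    exact this ▸ hf
  obtain ⟨d, rfl⟩ := M.lf_surj a
  obtain ⟨e, rfl⟩ := M.lf_surj b
  obtain ⟨f, hf, nf, i⟩ := c1 {x | ∃ f ∈ C, ¬ B f ∧ M.Inc x f} (fun d g1 g2 ⟨f, hf, nf, i⟩ => by
    rcases c2 d g1 g2 with q | q
    · exact ⟨_, loc _ _ _ hf nf i q (M.inc_tl_lf d), q, M.inc_hd_lf d⟩
    · exact ⟨_, loc _ _ _ hf nf i q (M.inc_tl_rf d), q, M.inc_hd_rf d⟩)
    (M.tl d) ⟨_, ha, na, M.inc_tl_lf d⟩ (c4 _ _ na (M.inc_tl_lf d)) (M.tl e) (c4 _ _ nb (M.inc_tl_lf e))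
  exact loc _ _ _ hf nf i nb (M.inc_tl_lf e)

variable [Fintype D] [DecidableEq N] (nd : D → N)

lemma sum_anti (P : D → Prop) [DecidablePred P] (hP : ∀ d, P (M.rev d) ↔ P d) (g : D → ℝ)
    (hg : ∀ d, g (M.rev d) = - g d) : ∑ d with P d, g d = 0 := by
  have : ∑ d with P d, g d = ∑ d with P d, - g d := by
    rw [sum_filter, sum_filter, ← M.sum_rev]; simp only [hP, hg]
  rw [sum_neg_distrib] at this
  linarith

/-- the weights with the edges between pinned nodes adjusted -/
noncomputable def wsp (T : N → Prop) [DecidablePred T] (w : D → ℝ) (r : N → V3) (d : D) : ℝ :=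
  if T (nd d) ∧ T (nd (M.rev d)) then
    - ∑ e with nd e = nd d ∧ ¬ T (nd (M.rev e)), w e * dot (r (nd (M.rev e))) (r (nd (M.rev d)))
  else w d

theorem net [Fintype N] (T : N → Prop) [DecidablePred T] (w : D → ℝ) (r : N → V3) (t : Fin 3 → N)
    (hT : ∀ x, T x ↔ ∃ j, t j = x) {ε : ℝ} (hε : ε * ε = 1)
    (hr : ∀ j k, r (t j) k = if k = j then ε else 0) (sym : ∀ d, w (M.rev d) = w d) (τ : N → ℝ)
    (eq : ∀ x, ¬ T x → ∀ k, ∑ d with nd d = x, w d * r (nd (M.rev d)) k = τ x * r x k)
    (sp : ∀ i j, i ≠ j → ∃ d, nd d = t i ∧ nd (M.rev d) = t j)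
    (spu : ∀ d e, nd d = nd e → nd (M.rev d) = nd (M.rev e) → d = e) :
    (∀ d, wsp M nd T w r (M.rev d) = wsp M nd T w r d) ∧
      ∀ x, ∑ d with nd d = x, wsp M nd T w r d • cross (r (nd d)) (r (nd (M.rev d))) = 0 := by
  have ε0 : ε ≠ 0 := by rintro rfl; simp at hε
  have tinj : ∀ i j, t i = t j → i = j := fun i j e => by
    have a := hr i i
    rw [e, hr j i, if_pos rfl] at a
    by_contra n
    rw [if_neg n] at a
    exact ε0 a.symm
  have rT : ∀ x, T x → ∀ k, r x k = if x = t k then ε else 0 := fun x hx k => by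
    obtain ⟨j, rfl⟩ := (hT x).1 hx
    rw [hr]
    exact if_congr ⟨fun e => e ▸ rfl, fun e => (tinj _ _ e).symm⟩ rfl rfl
  set S : Fin 3 → Fin 3 → ℝ := fun i j =>
    ∑ e with nd e = t i ∧ ¬ T (nd (M.rev e)), w e * r (nd (M.rev e)) j with hS
  have Tt : ∀ j, T (t j) := fun j => (hT _).2 ⟨j, rfl⟩
  have ws : ∀ d i j, nd d = t i → nd (M.rev d) = t j → wsp M nd T w r d = - (ε * S i j) := by
    intro d i j a b
    rw [wsp, if_pos ⟨a ▸ Tt i, b ▸ Tt j⟩, a, b, hS, mul_sum]
    congr 1
    refine sum_congr rfl fun e _ => ?_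
    fin_cases j <;> simp [dot, hr] <;> ring
  have rcp : ∀ i j, S i j = S j i := by
    intro i j
    set g : D → ℝ := fun d =>
      w d * (r (nd d) j * r (nd (M.rev d)) i - r (nd d) i * r (nd (M.rev d)) j) with hg
    have ga : ∀ d, g (M.rev d) = - g d := fun d => by simp only [hg, sym, PM.rr]; ring
    have a : ∑ d with ¬ T (nd d), g d = 0 := by
      rw [← sum_fiberwise_of_maps_to (g := nd) (t := univ.filter fun x => ¬ T x) (by simp)]
      refine sum_eq_zero fun x hx => ?_
      have nx : ¬ T x := by simpa using hx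
      have : ∑ d ∈ (univ.filter fun d => ¬ T (nd d)).filter fun d => nd d = x, g d
          = r x j * ∑ d with nd d = x, w d * r (nd (M.rev d)) i
            - r x i * ∑ d with nd d = x, w d * r (nd (M.rev d)) j := by
        rw [mul_sum, mul_sum, ← sum_sub_distrib, filter_filter]
        refine sum_congr (by ext d; simp only [mem_filter, mem_univ, true_and]; exact
          ⟨fun h => h.2, fun h => ⟨h ▸ nx, h⟩⟩) fun d hd => ?_
        simp only [hg, (mem_filter.1 hd).2]; ring
      rw [this, eq x nx, eq x nx]; ring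
    have b := sum_anti M (fun d => ¬ T (nd d) ∧ ¬ T (nd (M.rev d))) (by simp [and_comm]) g ga
    rw [← sum_filter_add_sum_filter_not _ fun d => ¬ T (nd (M.rev d)), filter_filter, b,
      filter_filter, zero_add, sum_filter, ← M.sum_rev] at a
    have c : ε * (S i j - S j i) = 0 := by
      rw [← a, hS]
      simp only [sum_filter, ← sum_sub_distrib, mul_sum]
      refine sum_congr rfl fun d _ => ?_
      simp only [hg, sym, PM.rr, not_not]
      by_cases q1 : T (nd d)
      · by_cases q2 : T (nd (M.rev d))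
        · simp [q2]
        · simp only [q1, q2, not_false_eq_true, and_true, if_true, rT _ q1]
          split_ifs <;> ring
      · have n : ∀ k, nd d ≠ t k := fun k e => q1 (e ▸ Tt k)
        simp [q1, n]
    linarith [(mul_eq_zero.1 c).resolve_left ε0]
  refine ⟨fun d => ?_, fun x => ?_⟩
  · by_cases q : T (nd d) ∧ T (nd (M.rev d))
    · obtain ⟨i, hi⟩ := (hT _).1 q.1
      obtain ⟨j, hj⟩ := (hT _).1 q.2
      rw [ws d i j hi.symm hj.symm, ws (M.rev d) j i hj.symm (by simp [hi]), rcp]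
    · rw [wsp, wsp, if_neg q, if_neg (by simpa [and_comm] using q), sym]
  · have lin : ∑ d with nd d = x, wsp M nd T w r d • cross (r (nd d)) (r (nd (M.rev d)))
        = cross (r x) fun k => ∑ d with nd d = x, wsp M nd T w r d * r (nd (M.rev d)) k := by
      refine v3_ext ?_ ?_ ?_ <;>
        simp only [cr0, cr1, cr2, Finset.sum_apply, Pi.smul_apply, smul_eq_mul, mul_sum,
          ← sum_sub_distrib] <;>
        exact sum_congr rfl fun d hd => by rw [(mem_filter.1 hd).2]; ring
    rw [lin]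
    by_cases q : T x
    · obtain ⟨i, rfl⟩ := (hT _).1 q
      have z : ∀ k, k ≠ i → ∑ d with nd d = t i, wsp M nd T w r d * r (nd (M.rev d)) k = 0 := by
        intro k ki
        obtain ⟨d, d1, d2⟩ := sp i k ki.symm
        rw [← sum_filter_add_sum_filter_not _ fun d => T (nd (M.rev d)), filter_filter, filter_filter,
          sum_eq_single_of_mem d (by simp [d1, d2, Tt]) (fun e he ne => by
            obtain ⟨e1, e2⟩ := (mem_filter.1 he).2
            rw [rT _ e2, if_neg fun h => ne (spu _ _ (e1.trans d1.symm) (h.trans d2.symm)), mul_zero]),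
          ws d i k d1 d2, d2, hr, if_pos rfl,
          sum_congr rfl (g := fun e => w e * r (nd (M.rev e)) k) fun e he => by
            rw [wsp, if_neg fun h => (mem_filter.1 he).2.2 h.2]]
        linear_combination (- S i k) * hε
      refine v3_ext ?_ ?_ ?_ <;> simp only [cr0, cr1, cr2, hr, Pi.zero_apply] <;> fin_cases i <;>
        simp <;> exact Or.inr (z _ (by decide))
    · have : (fun k => ∑ d with nd d = x, wsp M nd T w r d * r (nd (M.rev d)) k) = fun k => τ x * r x k := by
        ext k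
        rw [← eq x q]
        exact sum_congr rfl fun d hd => by
          rw [wsp, if_neg fun h => q ((mem_filter.1 hd).2 ▸ h.1)]
      rw [this]
      refine v3_ext ?_ ?_ ?_ <;> simp only [cr0, cr1, cr2, Pi.zero_apply] <;> ring

lemma wsp_cont (T : N → Prop) [DecidablePred T] {X : Type} [TopologicalSpace X] {s : Set X}
    {w : X → D → ℝ} {r : X → N → V3} (hw : Continuous w) (hr : ContinuousOn r s) :
    ContinuousOn (fun a d => wsp M nd T (w a) (r a) d • cross (r a (nd d)) (r a (nd (M.rev d)))) s := by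
  have c : ∀ x k, ContinuousOn (fun a => r a x k) s := fun x k =>
    continuousOn_pi.1 (continuousOn_pi.1 hr x) k
  have cw : ∀ d, ContinuousOn (fun a => w a d) s := fun d =>
    ((continuous_apply d).comp hw).continuousOn
  refine continuousOn_pi.2 fun d => ContinuousOn.fun_smul ?_ (continuousOn_pi.2 fun k => ?_)
  · unfold wsp
    split_ifs
    · refine (continuousOn_finsetSum _ fun e _ => (cw e).mul ?_).neg
      exact (((c _ _).mul (c _ _)).add ((c _ _).mul (c _ _))).add ((c _ _).mul (c _ _))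
    · exact cw d
  · fin_cases k <;> exact ((c _ _).mul (c _ _)).sub ((c _ _).mul (c _ _))

/-- integer Laplacian on the nodes in `J`, identity elsewhere -/
def lap (J : N → Prop) [DecidablePred J] (K : D → Prop) [DecidablePred K] : Matrix N N ℤ :=
  Matrix.of fun x y => if J x ∧ J y then (if x = y then (#{d | nd d = x ∧ K d} : ℤ) else 0)
    - (#{d | nd d = x ∧ nd (M.rev d) = y} : ℤ) else if x = y then 1 else 0

variable [Fintype N] (J : N → Prop) [DecidablePred J] (K : D → Prop) [DecidablePred K]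

lemma lap_mul (h : N → ℝ) (x : N) : ((lap M nd J K).map (Int.cast : ℤ → ℝ) *ᵥ h) x =
    if J x then ∑ d with nd d = x ∧ K d, h x - ∑ d with nd d = x ∧ J (nd (M.rev d)), h (nd (M.rev d))
    else h x := by
  simp only [mulVec, dotProduct, map_apply, lap, of_apply]
  split_ifs with q
  · have : ∑ d with nd d = x ∧ J (nd (M.rev d)), h (nd (M.rev d))
        = ∑ y, if J y then (#{d | nd d = x ∧ nd (M.rev d) = y} : ℝ) * h y else 0 := by
      rw [← sum_fiberwise _ fun d => nd (M.rev d)]
      refine sum_congr rfl fun y _ => ?_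
      rw [filter_filter, sum_congr rfl (g := fun _ => h y) fun d hd => by rw [(mem_filter.1 hd).2.2]]
      split_ifs with k
      · rw [sum_const, nsmul_eq_mul]
        congr 3
        ext d
        simp only [mem_filter, mem_univ, true_and]
        exact ⟨fun a => ⟨a.1.1, a.2⟩, fun a => ⟨⟨a.1, a.2 ▸ k⟩, a.2⟩⟩
      · exact sum_eq_zero fun d hd => absurd ((mem_filter.1 hd).2.2 ▸ (mem_filter.1 hd).2.1.2) k
    rw [this, sum_const, nsmul_eq_mul, ← Fintype.sum_ite_eq x fun y => (#{d | nd d = x ∧ K d} : ℝ) * h y,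
      ← sum_sub_distrib]
    refine sum_congr rfl fun y _ => ?_
    by_cases k : J y
    · simp only [q, k, and_self, if_true]; split_ifs <;> push_cast <;> ring
    · have : x ≠ y := fun e => k (e ▸ q)
      simp [k, this]
  · simp [q]

lemma lap_psd (hK : ∀ d, J (nd d) → J (nd (M.rev d)) → K d) :
    ((lap M nd J K).map (Int.cast : ℤ → ℝ)).PosSemidef := by
  refine .of_dotProduct_mulVec_nonneg ?_ fun h => ?_
  · ext x y
    simp only [conjTranspose_apply, map_apply, lap, of_apply, star_trivial]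
    have : #{d | nd d = y ∧ nd (M.rev d) = x} = #{d | nd d = x ∧ nd (M.rev d) = y} :=
      card_bijective M.revP M.revP.bijective (by simp [and_comm])
    rw [this]
    by_cases e : x = y
    · subst e; rfl
    · simp [e, Ne.symm e, and_comm]
  · have fib : ∀ (P : D → Prop) [DecidablePred P] (g : D → ℝ),
        ∑ x, (if J x then h x * ∑ d with nd d = x ∧ P d, g d else 0)
          = ∑ d with J (nd d) ∧ P d, h (nd d) * g d := fun P _ g => by
      rw [← sum_fiberwise _ nd]
      refine sum_congr rfl fun x _ => ?_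
      rw [filter_filter]
      split_ifs with k
      · rw [mul_sum]
        refine sum_congr ?_ fun d hd => by rw [(mem_filter.1 hd).2.2]
        ext d
        simp only [mem_filter, mem_univ, true_and]
        exact ⟨fun a => ⟨⟨a.1 ▸ k, a.2⟩, a.1⟩, fun a => ⟨a.2, a.1.2⟩⟩
      · exact (sum_eq_zero fun d hd => absurd ((mem_filter.1 hd).2.2 ▸ (mem_filter.1 hd).2.1.1) k).symm
    have a := fib K fun d => h (nd d)
    have b := fib (fun d => J (nd (M.rev d))) fun d => h (nd (M.rev d))
    have c : ∑ d with J (nd d) ∧ J (nd (M.rev d)), h (nd d) * h (nd (M.rev d))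
        ≤ ∑ d with J (nd d) ∧ K d, h (nd d) * h (nd d) := by
      have e := sum_anti M (fun d => J (nd d) ∧ J (nd (M.rev d))) (by simp [and_comm])
        (fun d => h (nd d) * h (nd d) - h (nd (M.rev d)) * h (nd (M.rev d))) (by simp)
      have e2 : ∑ d with J (nd d) ∧ J (nd (M.rev d)), h (nd d) * h (nd d)
          ≤ ∑ d with J (nd d) ∧ K d, h (nd d) * h (nd d) :=
        sum_le_sum_of_subset_of_nonneg (fun d hd => by
          simp only [mem_filter, mem_univ, true_and] at hd ⊢; exact ⟨hd.1, hK d hd.1 hd.2⟩)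
          fun d _ _ => mul_self_nonneg _
      have e3 : ∑ d with J (nd d) ∧ J (nd (M.rev d)), 2 * (h (nd d) * h (nd (M.rev d)))
          ≤ ∑ d with J (nd d) ∧ J (nd (M.rev d)),
            (h (nd d) * h (nd d) + h (nd (M.rev d)) * h (nd (M.rev d))) :=
        sum_le_sum fun d _ => by nlinarith [sq_nonneg (h (nd d) - h (nd (M.rev d)))]
      rw [← mul_sum, sum_add_distrib] at e3
      rw [sum_sub_distrib] at e
      linarith
    rw [← a, ← b, ← sub_nonneg, ← sum_sub_distrib] at c
    refine c.trans (sum_le_sum fun x _ => ?_)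
    rw [star_trivial, lap_mul]
    split_ifs with k
    · rw [mul_sub, sum_congr rfl (g := fun _ => h x) fun d hd => by rw [(mem_filter.1 hd).2.1]]
    · rw [sub_zero]; exact mul_self_nonneg _

end Pool.Agent.Lib.MP_d5dfc1_co.Ex
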