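import Pool.Agent.Lib.MP_d5dfc1_co.ExDef

/-! Orientation, simplex lemma, hull and 3-connectivity from a strict realisation. -/

namespace Pool.Agent.Lib.MP_d5dfc1_co.Ex

open Finset

variable {V F D : Type} {M : PM V F D} {p : V → V3} {n : F → V3} {c : F → ℝ}

def Pos (M : PM V F D) (p : V → V3) (n : F → V3) (d : D) : Prop :=
  ∃ w : ℝ, 0 < w ∧ cross (n (M.lf d)) (n (M.rf d)) = w • (p (M.hd d) - p (M.tl d))

lemma Zero.sub (h : Zero M p n c) {x : V} {f : F} (i : M.Inc x f) (y : V) :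
    dot (n f) (p y - p x) = - slack p n c y f := by
  have := h x f i
  simp only [slack] at this ⊢
  rw [dot_sub]; linarith

lemma Zero.perp (h : Zero M p n c) {x y : V} {f : F} (i : M.Inc x f) (j : M.Inc y f) :
    dot (n f) (p y - p x) = 0 := by rw [h.sub i, h y f j, neg_zero]

lemma Strict.ex_w (h : Strict M p n c) (d : D) :
    ∃ w : ℝ, w ≠ 0 ∧ cross (n (M.lf d)) (n (M.rf d)) = w • (p (M.hd d) - p (M.tl d)) := by
  have ne : p (M.hd d) - p (M.tl d) ≠ 0 := sub_ne_zero.2 fun e => M.hd_ne d (h.inj e)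
  have e := par_of_cross ne (cross_of_perp (h.1.perp (M.inc_tl_lf d) (M.inc_hd_lf d))
    (h.1.perp (M.inc_tl_rf d) (M.inc_hd_rf d)))
  refine ⟨_, fun z => ?_, e⟩
  rw [z, zero_smul] at e
  have s1 := h.1.sub (M.inc_tl_lf d) (M.hd (M.sg d))
  have s2 := h.1.perp (M.inc_tl_rf d) (show M.Inc (M.hd (M.sg d)) (M.rf d) by
    simpa using M.inc_hd_lf (M.sg d))
  have s3 := h.2 _ _ (M.nd2 d)
  have n0 : n (M.rf d) ≠ 0 := fun z0 => by
    have t := h.1.sub (M.inc_tl_lf (M.sg d)) (M.hd (M.sg (M.sg d)))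
    have := h.2 _ _ (M.nd2 (M.sg d))
    simp only [PM.lf_sg', z0, dot, Pi.zero_apply] at t this
    linarith
  have e' : cross (n (M.rf d)) (n (M.lf d)) = 0 := by
    have h0 := congrFun e 0; have h1 := congrFun e 1; have h2 := congrFun e 2
    simp only [cr0, cr1, cr2, Pi.zero_apply] at h0 h1 h2
    refine v3_ext ?_ ?_ ?_ <;> simp only [cr0, cr1, cr2, Pi.zero_apply] <;> linarith
  have q := par_of_cross n0 e'
  rw [q] at s1
  simp only [dot, Pi.smul_apply, smul_eq_mul] at s1 s2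
  have : slack p n c (M.hd (M.sg d)) (M.lf d) = 0 := by
    rw [← neg_eq_zero, ← s1]
    linear_combination ((n (M.rf d) 0 * n (M.lf d) 0 + n (M.rf d) 1 * n (M.lf d) 1
      + n (M.rf d) 2 * n (M.lf d) 2) / (n (M.rf d) 0 * n (M.rf d) 0 + n (M.rf d) 1 * n (M.rf d) 1
      + n (M.rf d) 2 * n (M.rf d) 2)) * s2
  linarith

lemma w_rel (h : Zero M p n c) {d : D} {w w' : ℝ}
    (e : cross (n (M.lf d)) (n (M.rf d)) = w • (p (M.hd d) - p (M.tl d)))
    (e' : cross (n (M.lf (M.sg d))) (n (M.rf (M.sg d))) = w' • (p (M.hd (M.sg d)) - p (M.tl (M.sg d)))) :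
    w * slack p n c (M.hd d) (M.rf (M.sg d)) = w' * slack p n c (M.hd (M.sg d)) (M.lf d) := by
  have s1 := h.sub (M.inc_tl_rf (M.sg d)) (M.hd d)
  have s2 := h.sub (M.inc_tl_lf d) (M.hd (M.sg d))
  simp only [PM.tl_sg', PM.lf_sg'] at s1 e'
  have a0 := congrFun e 0; have a1 := congrFun e 1; have a2 := congrFun e 2
  have b0 := congrFun e' 0; have b1 := congrFun e' 1; have b2 := congrFun e' 2
  simp only [cr0, cr1, cr2, Pi.smul_apply, smul_eq_mul, dot] at *
  linear_combination w * s1 - w' * s2 + n (M.rf (M.sg d)) 0 * a0 + n (M.rf (M.sg d)) 1 * a1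
    + n (M.rf (M.sg d)) 2 * a2 - n (M.lf d) 0 * b0 - n (M.lf d) 1 * b1 - n (M.lf d) 2 * b2

lemma Strict.pos_sg (h : Strict M p n c) {d : D} (a : Pos M p n d) : Pos M p n (M.sg d) := by
  obtain ⟨w, hw, e⟩ := a
  obtain ⟨w', -, e'⟩ := h.ex_w (M.sg d)
  refine ⟨w', ?_, e'⟩
  have := w_rel h.1 e e'
  have a := mul_pos hw (h.2 _ _ (M.nd1 d))
  rw [this] at a
  exact (pos_iff_pos_of_mul_pos a).2 (h.2 _ _ (M.nd2 d))

lemma Pos.rev {d : D} (a : Pos M p n d) : Pos M p n (M.rev d) := by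
  obtain ⟨w, hw, e⟩ := a
  refine ⟨w, hw, ?_⟩
  have a0 := congrFun e 0; have a1 := congrFun e 1; have a2 := congrFun e 2
  refine v3_ext ?_ ?_ ?_ <;>
    simp only [cr0, cr1, cr2, Pi.smul_apply, smul_eq_mul, Pi.sub_apply, PM.lf_rev, PM.rf_rev,
      PM.hd_rev, PM.tl_rev] at * <;> linarith

lemma Strict.pos_or (h : Strict M p n c) (d : D) :
    Pos M p n d ∨ Pos M (fun x => - p x) (fun f => - n f) d := by
  obtain ⟨w, hw, e⟩ := h.ex_w d
  rcases hw.lt_or_gt with a | a
  · refine Or.inr ⟨-w, by linarith, ?_⟩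
    have a0 := congrFun e 0; have a1 := congrFun e 1; have a2 := congrFun e 2
    refine v3_ext ?_ ?_ ?_ <;>
      simp only [cr0, cr1, cr2, Pi.smul_apply, smul_eq_mul, Pi.sub_apply, Pi.neg_apply] at * <;>
      linarith
  · exact Or.inl ⟨w, a, e⟩

lemma Strict.ori (h : Strict M p n c) (hc : M.Con) {d0 : D} (a : Pos M p n d0) : Ori M p n := by
  have loc : ∀ d e, Pos M p n d → M.tl d = M.tl e → Pos M p n e := fun d e x t =>
    M.v_ind (P := Pos M p n) (fun _ => h.pos_sg) x t
  intro d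
  obtain ⟨e, he, pe⟩ := hc.all {x | ∃ e, M.tl e = x ∧ Pos M p n e}
    (fun e ⟨e', t, q⟩ => ⟨M.rev e, rfl, (loc _ _ q t).rev⟩) (u := M.tl d0) ⟨d0, rfl, a⟩ (M.tl d)
  exact loc _ _ pe he

variable [Fintype D]

/-- the cone lemma -/
lemma cone {x : V} (hO : ∀ d, M.tl d = x → Pos M p n d) {l y0 y : V3}
    (hl : ∀ d, M.tl d = x → dot l (p (M.hd d) - p x) < 0 ∨ ∃ t : ℝ, 0 < t ∧ n (M.rf d) = t • n (M.lf d))
    (h1 : ∃ d, M.tl d = x ∧ dot l (p (M.hd d) - p x) < 0) (a0 : dot l y0 < 0)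
    (a1 : ∀ d, M.tl d = x → dot (n (M.lf d)) y0 ≤ 0) (a2 : ∃ d, M.tl d = x ∧ dot (n (M.lf d)) y0 < 0)
    (hy : y ≠ 0) (ly : 0 ≤ dot l y) : ∃ d, M.tl d = x ∧ 0 < dot (n (M.lf d)) y := by
  classical
  by_contra N
  push Not at N
  have key : ∀ d, M.tl d = x → dot l (p (M.hd d) - p x) < 0 →
      0 < dot (-l) (cross (n (M.lf d)) (n (M.lf (M.sg d)))) := fun d t q => by
    obtain ⟨w, hw, e⟩ := hO d t
    rw [PM.lf_sg', e, t]
    have := mul_pos hw (neg_pos.2 q)
    simp only [dot, Pi.neg_apply, Pi.smul_apply, smul_eq_mul] at this ⊢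
    linarith
  have ev : ∀ a : V3, dot ((- dot l y0) • y + dot l y • y0) a = (- dot l y0) * dot a y + dot l y * dot a y0 :=
    fun a => by simp only [dot, Pi.add_apply, Pi.smul_apply, smul_eq_mul]; ring
  refine cyc (univ.filter fun d => M.tl d = x) M.sg (by simp) (fun d => n (M.lf d)) (l := -l)
    (y := (- dot l y0) • y + dot l y • y0) (fun z => ?_) ?_ (fun d hd => ?_) (fun d hd => ?_) ?_
  · rcases ly.eq_or_lt with e | e
    · rw [← e, zero_smul, add_zero] at z
      exact hy ((smul_eq_zero.1 z).resolve_left (by linarith))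
    · obtain ⟨d, t, q⟩ := a2
      have := ev (n (M.lf d))
      rw [z] at this
      have b1 := mul_nonneg (neg_pos.2 a0).le (neg_nonneg.2 (N d t))
      have b2 := mul_pos e (neg_pos.2 q)
      simp only [dot, Pi.zero_apply] at *
      linarith
  · simp only [dot, Pi.add_apply, Pi.smul_apply, smul_eq_mul, Pi.neg_apply]; ring
  · have t : M.tl d = x := by simpa using hd
    rw [ev]
    have b1 := mul_nonneg (neg_pos.2 a0).le (neg_nonneg.2 (N d t))
    have b2 := mul_nonneg ly (neg_nonneg.2 (a1 d t))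
    linarith
  · have t : M.tl d = x := by simpa using hd
    rcases hl d t with q | q
    · exact Or.inl (key d t q)
    · exact Or.inr (by simpa using q)
  · obtain ⟨d, t, q⟩ := h1
    exact ⟨d, by simpa using t, key d t q⟩

lemma simplex_pos (h : Strict M p n c) {x : V} (hO : ∀ d, M.tl d = x → Pos M p n d) {l : V3}
    (hl : ∀ d, M.tl d = x → dot l (p (M.hd d) - p x) < 0) {y : V} (ne : y ≠ x) :
    dot l (p y - p x) < 0 := by
  by_contra N
  obtain ⟨e, he⟩ := M.tl_surj x
  have nd : ∀ d z, M.tl d = x → dot (n (M.lf d)) (p z - p x) = - slack p n c z (M.lf d) :=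
    fun d z t => h.1.sub (t ▸ M.inc_tl_lf d) z
  obtain ⟨d, t, q⟩ := cone hO (l := l) (y0 := p (M.hd (M.sg e)) - p x) (y := p y - p x)
    (fun d t => Or.inl (hl d t)) ⟨e, he, hl e he⟩ (hl _ (by simpa using he))
    (fun d t => by rw [nd d _ t]; linarith [h.le (M.hd (M.sg e)) (M.lf d)])
    ⟨e, he, by rw [nd e _ he]; linarith [h.2 _ _ (M.nd2 e)]⟩
    (sub_ne_zero.2 fun e => ne (h.inj e)) (not_lt.1 N)
  rw [nd d _ t] at q
  linarith [h.le y (M.lf d)]

/-- strict simplex lemma -/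
lemma Strict.simplex (h : Strict M p n c) {x : V} {l : V3}
    (hl : ∀ d, M.tl d = x → dot l (p (M.hd d) - p x) < 0) {y : V} (ne : y ≠ x) :
    dot l (p y - p x) < 0 := by
  obtain ⟨e, he⟩ := M.tl_surj x
  have ng : ∀ a b : V3, dot (-l) (-a - -b) = dot l (a - b) := fun a b => by
    simp only [dot, Pi.neg_apply, Pi.sub_apply]; ring
  rcases h.pos_or e with a | a
  · exact simplex_pos h (fun d t => M.v_ind (P := Pos M p n) (fun _ => h.pos_sg) a
      (he.trans t.symm)) hl ne
  · rw [← ng]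
    exact simplex_pos h.neg (fun d t => M.v_ind (P := Pos M _ _) (fun _ => h.neg.pos_sg) a
      (he.trans t.symm)) (l := -l) (fun d t => by rw [ng]; exact hl d t) ne

/-- every vertex is exposed -/
lemma Strict.sharp (h : Strict M p n c) (x : V) : ∃ g : V3, ∀ y, y ≠ x → dot g (p y - p x) < 0 := by
  classical
  refine ⟨∑ d with M.tl d = x, n (M.lf d), fun y ne => ?_⟩
  have e : dot (∑ d with M.tl d = x, n (M.lf d)) (p y - p x)
      = ∑ d with M.tl d = x, dot (n (M.lf d)) (p y - p x) := by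
    simp only [dot, Finset.sum_apply, sum_mul, sum_add_distrib]
  have nd : ∀ d, M.tl d = x → dot (n (M.lf d)) (p y - p x) = - slack p n c y (M.lf d) :=
    fun d t => h.1.sub (t ▸ M.inc_tl_lf d) y
  obtain ⟨f, ⟨d, t, rfl⟩, b⟩ := M.nd3 ne.symm
  rw [e]
  refine (sum_lt_sum (g := fun _ => (0 : ℝ)) (fun a ha => ?_) ⟨d, by simpa using t, ?_⟩).trans_eq
    (by simp)
  · rw [nd a (by simpa using ha)]; linarith [h.le y (M.lf a)]
  · rw [nd d t]; linarith [h.2 _ _ b]

/-- weak simplex lemma: a vertex that is not a maximum has a higher neighbour -/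
lemma Strict.up (h : Strict M p n c) {x y : V} {l : V3} (hl : dot l (p x) < dot l (p y)) :
    ∃ d, M.tl d = x ∧ dot l (p x) < dot l (p (M.hd d)) := by
  by_contra N
  push Not at N
  obtain ⟨g, hg⟩ := h.sharp x
  have ne : y ≠ x := by rintro rfl; exact lt_irrefl _ hl
  obtain ⟨K, K0, hK⟩ := bigK (ι := Unit) (fun _ => True) (fun _ => dot l (p x) - dot l (p y))
    (fun _ => - dot g (p y - p x)) (fun _ _ => by linarith)
  have ev : ∀ a : V3, dot (K • l + g) a = K * dot l a + dot g a := fun a => by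
    simp only [dot, Pi.add_apply, Pi.smul_apply, smul_eq_mul]; ring
  have := h.simplex (x := x) (l := K • l + g) (fun d t => by
    rw [ev, dot_sub l]
    have := mul_nonneg K0.le (sub_nonneg.2 (N d t))
    linarith [hg (M.hd d) (t ▸ M.hd_ne d)]) ne
  rw [ev, dot_sub l] at this
  linarith [hK () trivial]

lemma Strict.span (h : Strict M p n c) [Nonempty V] (a : V3) (r : ℝ) (ha : ∀ j, dot a (p j) = r) :
    a = 0 := by
  obtain ⟨x⟩ := ‹Nonempty V›
  obtain ⟨d, -⟩ := M.tl_surj x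
  by_contra a0
  have z : ∀ u v, dot a (p u - p v) = 0 := fun u v => by rw [dot_sub, ha, ha, sub_self]
  -- all points lie in a plane: the normals at the vertex are all parallel to `a`
  have par : ∀ b : D, cross a (n (M.rf b)) = 0 := fun b => by
    obtain ⟨u, hu, q⟩ := h.ex_w b
    obtain ⟨u', hu', q'⟩ := h.ex_w (M.sg b)
    have r0 := h.1.sub (M.inc_tl_rf (M.sg b)) (M.hd b)
    have s := h.2 _ _ (M.nd1 b)
    simp only [PM.tl_sg', PM.lf_sg'] at r0 q'
    have t1 : dot a (cross (n (M.lf b)) (n (M.rf b))) = 0 := by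
      have := z (M.hd b) (M.tl b)
      rw [q]; simp only [dot, Pi.smul_apply, smul_eq_mul] at this ⊢; linear_combination u * this
    have t2 : dot a (cross (n (M.rf b)) (n (M.rf (M.sg b)))) = 0 := by
      have := z (M.hd (M.sg b)) (M.tl b)
      rw [q']; simp only [dot, Pi.smul_apply, smul_eq_mul] at this ⊢; linear_combination u' * this
    have t3 : dot (n (M.rf (M.sg b))) (cross (n (M.lf b)) (n (M.rf b))) ≠ 0 := by
      have : dot (n (M.rf (M.sg b))) (cross (n (M.lf b)) (n (M.rf b)))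
          = u * - slack p n c (M.hd b) (M.rf (M.sg b)) := by
        rw [q, ← r0]; simp only [dot, Pi.smul_apply, smul_eq_mul]; ring
      rw [this]; exact mul_ne_zero hu (by linarith)
    generalize n (M.lf b) = A at *
    generalize n (M.rf b) = B at *
    generalize n (M.rf (M.sg b)) = C at *
    refine v3_ext ?_ ?_ ?_ <;> refine (mul_eq_zero.1 ?_).resolve_left t3 <;>
      simp only [dot, cr0, cr1, cr2] at t1 t2 ⊢
    · linear_combination (C 1 * B 2 - C 2 * B 1) * t1 - (A 2 * B 1 - A 1 * B 2) * t2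
    · linear_combination (C 2 * B 0 - C 0 * B 2) * t1 - (A 0 * B 2 - A 2 * B 0) * t2
    · linear_combination (C 0 * B 1 - C 1 * B 0) * t1 - (A 1 * B 0 - A 0 * B 1) * t2
  have q := par_of_cross a0 (par d)
  have s := h.1.sub (M.inc_tl_rf d) (M.hd (M.sg (M.sg d)))
  have s' := h.2 _ _ (M.nd2 (M.sg d))
  have := z (M.hd (M.sg (M.sg d))) (M.tl d)
  rw [q] at s
  simp only [PM.lf_sg'] at s'
  have : slack p n c (M.hd (M.sg (M.sg d))) (M.rf d) = 0 := by
    rw [← neg_eq_zero, ← s]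
    generalize dot a (n (M.rf d)) / dot a a = t
    simp only [dot, Pi.smul_apply, smul_eq_mul] at this ⊢
    linear_combination t * this
  linarith

/-- the hull of a strict realisation has the map as its skeleton -/
theorem Strict.final (h : Strict M p n c) [Nonempty V] :
    ConvexIndependent ℝ p ∧ affineSpan ℝ (Set.range p) = ⊤ ∧ ∀ x y, M.Adj x y ↔
      x ≠ y ∧ IsExposed ℝ (convexHull ℝ (Set.range p)) (segment ℝ (p x) (p y)) := by
  have hp : ConvexIndependent ℝ p := by
    intro s x hx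
    by_contra hxs
    obtain ⟨g, hg⟩ := h.sharp x
    have : convexHull ℝ (p '' s) ⊆ {z | dotL g z < dot g (p x)} := by
      apply convexHull_min
      · rintro _ ⟨j, hj, rfl⟩
        simp only [Set.mem_ofPred_eq, dotL_apply]
        have := hg j (by rintro rfl; exact hxs hj)
        rw [dot_sub] at this; linarith
      · exact convex_halfSpace_lt (dotL g).isLinear _
    have := this hx
    simp only [Set.mem_ofPred_eq, dotL_apply] at this
    exact lt_irrefl _ this
  refine ⟨hp, span_of_vec h.span, fun x y => ⟨?_, fun ⟨ne, ex⟩ => ?_⟩⟩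
  · rintro ⟨d, rfl, rfl⟩
    have ev : ∀ u, dot (n (M.lf d) + n (M.rf d)) (p u) = dot (n (M.lf d) + n (M.rf d)) (p (M.tl d))
        - slack p n c u (M.lf d) - slack p n c u (M.rf d) := fun u => by
      have a := h.1.sub (M.inc_tl_lf d) u
      have b := h.1.sub (M.inc_tl_rf d) u
      simp only [dot, Pi.add_apply, Pi.sub_apply] at a b ⊢
      linarith
    refine ⟨(M.hd_ne d).symm, exposed_of_vec (n (M.lf d) + n (M.rf d)) ?_ fun k k1 k2 => ?_⟩
    · rw [ev (M.hd d), h.1 _ _ (M.inc_hd_lf d), h.1 _ _ (M.inc_hd_rf d)]; ring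
    · rw [ev k]
      by_cases i : M.Inc k (M.lf d)
      · have : ¬ M.Inc k (M.rf d) := fun j => (M.two' d i j).elim k1 k2
        linarith [h.2 _ _ this, h.le k (M.lf d)]
      · linarith [h.2 _ _ i, h.le k (M.rf d)]
  · obtain ⟨g, g1, g2⟩ := vec_of_exposed hp ex
    by_contra N
    have := h.simplex (x := x) (l := g) (fun d t => by
      rw [dot_sub]
      linarith [g2 (M.hd d) (t ▸ M.hd_ne d) fun e => N ⟨d, t, e⟩]) ne.symm
    rw [dot_sub] at this; linarith

/-- Balinski -/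
theorem Strict.con (h : Strict M p n c) [Finite V] : M.Con := by
  intro x y C hx hy hC u hu w
  by_contra N
  push Not at N
  have : Nonempty V := ⟨x⟩
  set C' : Set V := {z | z ∉ C ∧ z ≠ x ∧ z ≠ y} with hC'
  have cl' : ∀ d, M.tl d ∈ C' → M.hd d ∈ C' ∨ M.hd d = x ∨ M.hd d = y := fun d ⟨a, b, e⟩ => by
    by_contra n
    push Not at n
    have : M.hd d ∈ C := by by_contra k; exact n.1 ⟨k, n.2.1, n.2.2⟩
    rcases hC (M.rev d) this with k | k | k
    exacts [a (by simpa using k), b (by simpa using k), e (by simpa using k)]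
  -- a closed class that reaches the level of `x`, `y` contains a maximum; two classes cannot
  have main : ∀ (l : V3) (r : ℝ), dot l (p x) = r → dot l (p y) = r → dot l (p u) = r →
      r ≤ dot l (p w) → (∃ z, r < dot l (p z)) → False := by
    intro l r lx ly lu lw ⟨z, hz⟩
    have top : ∀ (B : Set V), (∀ d, M.tl d ∈ B → M.hd d ∈ B ∨ M.hd d = x ∨ M.hd d = y) →
        ∀ b ∈ B, r ≤ dot l (p b) → ∃ a ∈ B, r < dot l (p a) ∧ ∀ v, dot l (p v) ≤ dot l (p a) := by
      intro B hB b hb lb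
      obtain ⟨a, ha, hm⟩ := Set.exists_max_image B (fun v => dot l (p v)) (Set.toFinite _) ⟨b, hb⟩
      have la : r ≤ dot l (p a) := lb.trans (hm b hb)
      have all : ∀ v, dot l (p v) ≤ dot l (p a) := fun v => by
        by_contra k
        obtain ⟨d, t, q⟩ := h.up (not_le.1 k)
        rcases hB d (t ▸ ha) with e | e | e
        · linarith [hm _ e]
        · rw [e] at q; linarith
        · rw [e] at q; linarith
      exact ⟨a, ha, hz.trans_le (all z), all⟩
    obtain ⟨a, ha, ra, ma⟩ := top C hC u hu lu.ge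
    obtain ⟨b, hb, rb, mb⟩ := top C' cl' w ⟨N.1, N.2.1, N.2.2⟩ lw
    obtain ⟨g, hg⟩ := h.sharp b
    obtain ⟨s, ⟨hs, ls⟩, hm⟩ := Set.exists_max_image {v | v ∈ C ∧ dot l (p v) = dot l (p b)}
      (fun v => dot g (p v)) (Set.toFinite _) ⟨a, ha, le_antisymm (mb a) (ma b)⟩
    obtain ⟨K, K0, hK⟩ := bigK (fun v => dot l (p v) < dot l (p b))
      (fun v => dot l (p v) - dot l (p b)) (fun v => dot g (p v) - dot g (p s))
      (fun v hv => by linarith)
    have ev : ∀ a : V3, dot (K • l + g) a = K * dot l a + dot g a := fun a => by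
      simp only [dot, Pi.add_apply, Pi.smul_apply, smul_eq_mul]; ring
    have lt := hg s (by rintro rfl; exact hb.1 hs)
    rw [dot_sub] at lt
    obtain ⟨d, t, q⟩ := h.up (x := s) (y := b) (l := K • l + g) (by rw [ev, ev, ls]; linarith)
    rw [ev, ev, ls] at q
    rcases (mb (M.hd d)).eq_or_lt with e | e
    · rcases hC d (t ▸ hs) with k | k | k
      · have := hm _ ⟨k, e⟩
        rw [e] at q; linarith
      · rw [k] at e; linarith
      · rw [k] at e; linarith
    · linarith [hK _ e]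
  obtain ⟨l, l0, hl⟩ := (Matrix.exists_mulVec_eq_zero_iff
    (M := Matrix.of ![p y - p x, p u - p x, 0])).2 (by rw [Matrix.det_fin_three]; simp)
  have e1 := congrFun hl 0
  have e2 := congrFun hl 1
  simp [Matrix.mulVec, dotProduct, Fin.sum_univ_three] at e1 e2
  have ly : dot l (p y) = dot l (p x) := by simp only [dot]; linarith
  have lu : dot l (p u) = dot l (p x) := by simp only [dot]; linarith
  have ng : ∀ a, dot (-l) a = - dot l a := fun a => by simp only [dot, Pi.neg_apply]; ring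
  rcases lt_trichotomy (dot l (p x)) (dot l (p w)) with k | k | k
  · exact main l _ rfl ly lu k.le ⟨w, k⟩
  · obtain ⟨z, hz⟩ : ∃ z, dot l (p z) ≠ dot l (p x) := by
      by_contra q
      push Not at q
      exact l0 (h.span l _ q)
    rcases hz.lt_or_gt with q | q
    · exact main (-l) _ rfl (by rw [ng, ng, ly]) (by rw [ng, ng, lu]) (by rw [ng, ng, k])
        ⟨z, by rw [ng, ng]; linarith⟩
    · exact main l _ rfl ly lu k.le ⟨z, q⟩
  · exact main (-l) _ rfl (by rw [ng, ng, ly]) (by rw [ng, ng, lu]) (by rw [ng, ng]; linarith)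
      ⟨w, by rw [ng, ng]; linarith⟩

end Pool.Agent.Lib.MP_d5dfc1_co.Ex
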