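import Pool.Agent.Lib.MP_d5dfc1_co.GmZ

/-! From the labelling of the triangulation to the Schnyder wood of the map. -/

namespace Pool.Agent.Lib.MP_d5dfc1_co.Gm

open Ex Sum

variable {V F D : Type} [Fintype D] [DecidableEq V] {M : PM V F D} {T : F} {a : Fin 3 → D}

section
omit [Fintype D] [DecidableEq V]

lemma b3_nz (x : V) : ¬ ZZ (inl x : V ⊕ F) := fun ⟨_, e⟩ => by cases e

lemma b3_adj (d : D) : QP.adj (TZ M T) (inl (M.tl d)) (inl (M.hd d)) := by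
  by_cases e : M.lf d = T
  exacts [⟨_, .out d e⟩, ⟨_, .t1 d e⟩]

lemma b3_dart {x : V} {u : V ⊕ F} (h : QP.adj (TZ M T) (inl x) u) (z : ¬ ZZ u) :
    ∃ d, M.tl d = x ∧ inl (M.hd d) = u := by
  obtain ⟨w, t⟩ := h
  generalize e : (inl x : V ⊕ F) = p at t
  cases t with
  | out d _ => exact ⟨d, (inl_injective e).symm, rfl⟩
  | t1 d _ => exact ⟨d, (inl_injective e).symm, rfl⟩
  | t2 d _ => exact absurd ⟨_, rfl⟩ z
  | t3 d _ => cases e

lemma b3_face {f : F} {u v : V ⊕ F} (t : TZ M T (inr f) u v) :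
    ∃ d, M.lf d = f ∧ inl (M.tl d) = u ∧ inl (M.hd d) = v := by
  generalize e : (inr f : V ⊕ F) = p at t
  cases t with
  | out d _ => cases e
  | t1 d _ => cases e
  | t2 d _ => cases e
  | t3 d _ => exact ⟨d, (inr_injective e).symm, rfl, rfl⟩

lemma b3_adjf {d : D} (n : M.lf d ≠ T) : QP.adj (TZ M T) (inl (M.tl d)) (inr (M.lf d)) := by
  obtain ⟨e, rfl⟩ := M.nxP.surjective d
  simp only [PM.nxP_apply, PM.tl_nx, PM.lf_nx] at n ⊢
  exact ⟨_, .t2 e n⟩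

lemma b3_in (h : Tri M T a) {x : V} : In (TZ M T) ZZ (inl (M.tl (a 0))) (inl (M.tl (a 1)))
    (inl (M.tl (a 2))) (inl x) ↔ ¬ M.Inc x T := by
  constructor
  · rintro ⟨-, -, n0, n1, n2⟩ k
    obtain ⟨j, rfl⟩ := (h.all x).1 k
    obtain rfl | rfl | rfl : j = 0 ∨ j = 1 ∨ j = 2 := by clear * -; revert j; decide
    exacts [n0 rfl, n1 rfl, n2 rfl]
  · intro n
    have nr : ∀ j, (inl x : V ⊕ F) ≠ inl (M.tl (a j)) := fun j e =>
      n ((h.all x).2 ⟨j, (inl_injective e).symm⟩)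
    obtain ⟨d, rfl⟩ := M.tl_surj x
    exact ⟨⟨_, b3_adj d⟩, b3_nz _, nr 0, nr 1, nr 2⟩

end

theorem Base.sch (h : Base M T a) {L par s} (W : Wd (TZ M T) ZZ (HZ M (M.tl (a 0)))
    (inl (M.tl (a 0))) (inl (M.tl (a 1))) (inl (M.tl (a 2))) L par s) : Nonempty (Sch M T a) := by
  classical
  have nin : ∀ d j, M.lf d ≠ T → ¬ ((inl (M.tl d) : V ⊕ F) = inl (M.tl (a j)) ∧
      (inl (M.hd d) : V ⊕ F) = inl (M.tl (a (j + 1)))) := fun d j n k =>
    n (by rw [M.simple' (inl_injective k.1) ((inl_injective k.2).trans (h.tri.hd j).symm), h.tri.lf])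
  have h1 : ∀ d, (inl (M.tl d) : V ⊕ F) = inl (M.tl (a 0)) → HZ (F := F) M (M.tl (a 0)) (inl (M.hd d)) :=
    fun d e => ⟨_, rfl, d, inl_injective e, rfl⟩
  have h2 : ∀ d, (inl (M.hd d) : V ⊕ F) = inl (M.tl (a 0)) → HZ (F := F) M (M.tl (a 0)) (inl (M.tl d)) :=
    fun d e => ⟨_, rfl, M.rev d, inl_injective e, by simp⟩
  have cor : ∀ d, M.lf d ≠ T →
      L (inl (M.tl d)) (inr (M.lf d)) = L (inl (M.tl d)) (inl (M.hd d)) := fun d n => by
    by_cases e : (inl (M.tl d) : V ⊕ F) = inl (M.tl (a 0))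
    · have k1 := b3_adjf n
      have k2 := b3_adj (M := M) (T := T) d
      have m := fun q => nin d 0 n ⟨e, q⟩
      rw [e] at k1 k2 ⊢
      rw [W.la _ k1 (by simp), W.la _ k2 m]
    · exact (W.vi _ _ _ (.t1 d n) e (b3_nz _) (Or.inl ⟨_, rfl⟩)).symm
  have cnx : ∀ d, M.lf d ≠ T →
      L (inl (M.hd d)) (inr (M.lf d)) = L (inl (M.tl (M.nx d))) (inl (M.hd (M.nx d))) := fun d n => by
    simpa using cor (M.nx d) (by simpa using n)
  have csg : ∀ d, M.rf d ≠ T →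
      L (inl (M.tl d)) (inr (M.rf d)) = L (inl (M.tl (M.sg d))) (inl (M.hd (M.sg d))) := fun d n => by
    simpa using cor (M.sg d) (by simpa using n)
  have tsg : ∀ d, M.rf d ≠ T → TZ M T (inl (M.tl d)) (inr (M.rf d)) (inl (M.hd d)) := fun d n => by
    simpa using TZ.t2 (M := M) (T := T) (M.rev d) n
  have : ∀ i x, ∃ d, ¬ M.Inc x T → M.tl d = x ∧ inl (M.hd d) = par i (inl x) := fun i x => by
    by_cases n : M.Inc x T
    · exact ⟨a 0, fun k => absurd n k⟩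
    · obtain ⟨k1, k2, -⟩ := W.oa i _ ((b3_in h.tri).2 n)
      obtain ⟨d, q⟩ := b3_dart k1 k2
      exact ⟨d, fun _ => q⟩
  choose ob hob using this
  have eo : ∀ d i, ¬ M.Inc (M.tl d) T → inl (M.hd d) = par i (inl (M.tl d)) → d = ob i (M.tl d) :=
    fun d i n k => M.simple' (hob _ _ n).1.symm (inl_injective (k.trans (hob _ _ n).2.symm))
  refine ⟨⟨fun d => L (inl (M.tl d)) (inl (M.hd d)), ob, fun i x => s i (inl x), fun d n => ?_,
    fun j d e n => ?_, fun i x n => (hob i x n).1, fun i x n => ?_, fun d n => ?_, fun i x n => ?_,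
    fun i j x n ne => ?_, fun d n1 n2 => ?_, fun f n m => ?_, fun d e n k l m1 m2 => ?_⟩⟩
  · rw [← cnx d n]
    exact W.nx _ _ _ (.t1 d n) (b3_nz _) (b3_nz _) (h1 d) (h2 d) (nin d 0 n) (nin d 1 n) (nin d 2 n)
  · have k := b3_adj (M := M) (T := T) d
    have m := fun q => nin d j n ⟨congrArg inl e, q⟩
    rw [e] at k ⊢
    obtain rfl | rfl | rfl : j = 0 ∨ j = 1 ∨ j = 2 := by clear * -; revert j; decide
    exacts [W.la _ k m, W.lb _ k m, W.lc _ k m]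
  · obtain ⟨k1, k2⟩ := W.ol i _ ((b3_in h.tri).2 n)
    have r : M.rf (ob i x) ≠ T := inn_rf (by rwa [(hob i x n).1])
    have t := tsg _ r
    rw [← csg _ r]
    rw [(hob i x n).1, (hob i x n).2] at *
    exact ⟨k1, k2 _ t⟩
  · rw [← csg _ (inn_rf n)]
    exact (W.sg _ _ _ ((b3_in h.tri).2 n) (tsg d (inn_rf n))).imp_right (eo d _ n)
  · rw [(hob i x n).2]
    exact W.up i _ ((b3_in h.tri).2 n)
  · rw [(hob i x n).2]
    exact W.dn i j _ ((b3_in h.tri).2 n) ne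
  · rcases W.ed _ _ (b3_adj d) (b3_nz _) (b3_nz _) (h1 d) (h2 d) with ⟨k, i, q⟩ | ⟨k, i, q⟩ | ⟨k, q⟩
    · exact Or.inl ⟨(b3_in h.tri).1 k, i, eo d i ((b3_in h.tri).1 k) q⟩
    · exact Or.inr ⟨(b3_in h.tri).1 k, i, eo (M.rev d) i ((b3_in h.tri).1 k) (by simpa using q)⟩
    · have o : ∀ x, ((inl x : V ⊕ F) = inl (M.tl (a 0)) ∨ (inl x : V ⊕ F) = inl (M.tl (a 1)) ∨
          (inl x : V ⊕ F) = inl (M.tl (a 2))) → M.Inc x T := by
        rintro x (e | e | e) <;> exact inl_injective e ▸ h.tri.inc _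
      rcases h.ef d T (o _ k) (o _ q) with e | e
      exacts [absurd e.symm n1, absurd e.symm n2]
  · obtain ⟨d, rfl⟩ := M.lf_surj f
    obtain ⟨u, v, t, q⟩ := W.f1 _ ⟨_, rfl⟩ ⟨_, _, .t3 d n⟩ m
    obtain ⟨e, k, rfl, rfl⟩ := b3_face t
    exact ⟨e, k, q⟩
  · have n' : M.lf e ≠ T := k ▸ n
    refine M.uniq _ _ (inl_injective (W.f2 _ _ _ _ _ ⟨_, rfl⟩ (.t3 d n) (k ▸ .t3 e n') l ?_ ?_)) k
    · rwa [cnx d n]
    · rwa [k, cnx e n']

end Pool.Agent.Lib.MP_d5dfc1_co.Gm
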