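import Pool.Agent.Lib.MP_d5dfc1_co.GmW

/-! Extension of a wood over a contracted edge of a chain. -/

namespace Pool.Agent.Lib.MP_d5dfc1_co.Gm

open Relation Finset QP

set_option linter.unusedSectionVars false

variable {V : Type} [Fintype V] [LinearOrder V]
variable {T : V → V → V → Prop} {Z H H' : V → Prop} {a b c x y z l r : V}

lemma deg4 (hT : Tri T) {p q r s u : V} (h1 : T x p q) (h2 : T x q r) (h3 : T x r s) (h4 : T x s p)
    (h : adj T x u) : u = p ∨ u = q ∨ u = r ∨ u = s := by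
  have := hT.link ⟨_, h1⟩ h
  clear h
  induction this with
  | refl => exact Or.inl rfl
  | tail _ st ih =>
    rcases ih with rfl | rfl | rfl | rfl
    · exact Or.inr (Or.inl (hT.uniq st h1))
    · exact Or.inr (Or.inr (Or.inl (hT.uniq st h2)))
    · exact Or.inr (Or.inr (Or.inr (hT.uniq st h3)))
    · exact Or.inl (hT.uniq st h4)

/-- two consecutive neighbours `y`, `x` of the root, both with four neighbours -/
structure Ch (T : V → V → V → Prop) (Z H : V → Prop) (a b c l y x r z : V) : Prop where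
  t1 : T a l y
  t2 : T a y x
  t3 : T a x r
  t4 : T z y l
  t5 : T z x y
  t6 : T z r x
  zz : Z z
  hy : H y
  hx : H x
  yb : y ≠ b
  yc : y ≠ c
  xb : x ≠ b
  xc : x ≠ c

namespace Ch
variable (K : Ch T Z H a b c l y x r z) (hT : Tri T)
include K hT

lemma ny {u : V} (h : adj T y u) : u = a ∨ u = l ∨ u = z ∨ u = x :=
  deg4 hT (hT.rot2 K.t1) (hT.rot K.t4) (hT.rot2 K.t5) (hT.rot K.t2) h

lemma nx {u : V} (h : adj T x u) : u = a ∨ u = y ∨ u = z ∨ u = r :=
  deg4 hT (hT.rot2 K.t2) (hT.rot K.t5) (hT.rot2 K.t6) (hT.rot K.t3) h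

lemma lr (o : T a b c) : l ≠ r := by
  rintro rfl
  rcases hT.deg3 K.t1 K.t2 K.t3 ⟨_, o⟩ with rfl | k | k
  exacts [K.yc (hT.uniq K.t1 o), K.yb k.symm, K.xb k.symm]

lemma nyr (o : T a b c) : ¬ adj T y r := fun h => by
  rcases K.ny hT h with k | k | k | k
  exacts [hT.ne3 K.t3 k, K.lr hT o k.symm, hT.ne K.t6 k.symm, hT.ne2 K.t3 k.symm]

lemma com (o : T a b c) {u : V} (h : adj T x u) (k : adj T y u) : u = z ∨ u = a := by
  rcases K.nx hT h with rfl | rfl | rfl | rfl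
  exacts [Or.inr rfl, absurd rfl (hT.adj_ne k), Or.inl rfl, absurd k (K.nyr hT o)]

lemma contr (o : T a b c) : contr T x y :=
  ⟨⟨_, hT.rot K.t5⟩, fun u h k => by
    rcases K.com hT o h k with rfl | rfl
    exacts [Or.inl (hT.rot K.t5), Or.inr (hT.rot2 K.t2)]⟩

end Ch

theorem Wd.chain (hT : Tri T) (o : T a b c) (K : Ch T Z H a b c l y x r z) (za : ¬ Z a)
    (h1 : ∀ u, H u → ¬ Z u) (hH : ∀ u, H' u ↔ u ≠ x ∧ H u)
    {L' par' s'} (W : Wd (con T x y) Z H' a b c L' par' s') :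
    ∃ L par s, Wd T Z H a b c L par s := by
  classical
  have hc := K.contr hT o
  have hp : T x y z := hT.rot K.t5
  have hq : T x a y := hT.rot2 K.t2
  have xy := hT.ne hp
  have xa := hT.ne hq
  have ay := hT.ne2 hq
  have xz := (hT.ne3 hp).symm
  have yz := hT.ne2 hp
  have xr := hT.ne2 K.t3
  have ra := hT.ne3 K.t3
  have la := (hT.ne K.t1).symm
  have ly := hT.ne2 K.t1
  have lx : l ≠ x := by rintro rfl; exact hT.asym K.t1 K.t2
  have ry : r ≠ y := by rintro rfl; exact hT.asym K.t2 K.t3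
  have az : a ≠ z := fun e => za (e ▸ K.zz)
  have zr := hT.ne K.t6
  have lr := K.lr hT o
  have zy := h1 y K.hy
  have zx := h1 x K.hx
  have lb : l ≠ b := by rintro rfl; exact K.yc (hT.uniq K.t1 o)
  have Hy : H' y := (hH y).2 ⟨xy.symm, K.hy⟩
  have i3 : ∀ i : Fin 3, i = 0 ∨ i = 1 ∨ i = 2 := by decide
  have II : ∀ {u}, In T Z a b c u → u ≠ x → In (con T x y) Z a b c u := fun i n =>
    ⟨(hT.con_vtx hc.1).2 ⟨i.v, n⟩, i.z, i.a, i.b, i.c⟩
  have II' : ∀ {u}, In (con T x y) Z a b c u → In T Z a b c u ∧ u ≠ x := fun i =>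
    ⟨⟨((hT.con_vtx hc.1).1 i.v).1, i.z, i.a, i.b, i.c⟩, ((hT.con_vtx hc.1).1 i.v).2⟩
  have iy : In T Z a b c y := ⟨hT.vtx2 hp, zy, ay.symm, K.yb, K.yc⟩
  have ix : In T Z a b c x := ⟨hT.vtx1 hp, zx, xa, K.xb, K.xc⟩
  have iy' := II iy xy.symm
  have u1 : con T x y y r a := hT.con_v (hT.rot K.t3) ry ay
  have u2 : con T x y y l z := hT.con_id (hT.rot K.t4) xy.symm lx xz.symm
  have Lya := W.l1 iy' Hy
  have Lyr := W.lr u1 Hy zy ay.symm K.yb ra
  have ny' : ∀ i, par' i y = a ∨ par' i y = l ∨ par' i y = r := fun i => by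
    obtain ⟨k1, k2, -⟩ := W.oa i y iy'
    obtain ⟨n, w0, y0, k, e1, e2⟩ := Tri.con_lift k1
    obtain rfl := pr_eq_ne e2 n.symm
    rcases pr_eq_a e1 with rfl | rfl
    · rcases K.nx hT k with j | j | j | j
      exacts [Or.inl j, absurd j n.symm, absurd (j ▸ K.zz) k2, Or.inr (Or.inr j)]
    · rcases K.ny hT k with j | j | j | j
      exacts [Or.inl j, Or.inr (Or.inl j), absurd (j ▸ K.zz) k2, absurd (e2 ▸ j) (pr_ne_v xy _)]
  have q0 := W.h0 y iy' Hy
  have q2 : par' 2 y = l := by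
    have k := (W.ol 2 y iy').1
    rcases ny' 2 with j | j | j
    · rw [j, Lya] at k; exact absurd k (by decide)
    · exact j
    · rw [j, Lyr] at k; exact absurd k (by decide)
  have Lyl : L' y l = 0 := q2 ▸ (W.ol 2 y iy').1
  have q1 : par' 1 y = r := by
    have k := (W.ol 1 y iy').1
    rcases ny' 1 with j | j | j
    · rw [j, Lya] at k; exact absurd k (by decide)
    · rw [j, Lyl] at k; exact absurd k (by decide)
    · exact j
  have Lyz : L' y z = 0 := (W.vi _ _ _ u2 ay.symm zy (Or.inl K.zz)).symm.trans Lyl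
  have zl : ¬ Z l := q2 ▸ (W.oa 2 y iy').2.1
  have zr' : ¬ Z r := q1 ▸ (W.oa 1 y iy').2.1
  obtain ⟨m1, a1, a2⟩ := exists_between (q1 ▸ W.up 1 y iy' : s' 1 y < s' 1 r)
  obtain ⟨m2, b1, b2⟩ := exists_between (q2 ▸ W.up 2 y iy' : s' 2 y < s' 2 l)
  obtain ⟨L, Lxy, Lyx, Lo⟩ : ∃ L : V → V → Fin 3, L x y = 0 ∧ L y x = 2 ∧
      ∀ u v, pr x y u ≠ pr x y v → L u v = L' (pr x y u) (pr x y v) :=
    ⟨fun u v => if u = x ∧ v = y then 0 else if u = y ∧ v = x then 2 else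
      L' (pr x y u) (pr x y v), by simp, by simp [xy.symm], fun u v n => by
        dsimp only
        rw [if_neg, if_neg] <;> rintro ⟨rfl, rfl⟩ <;> exact n (by rw [pr_a, pr_v])⟩
  have Lx : ∀ v, v ≠ x → v ≠ y → L x v = L' y v := fun v n m => by
    rw [Lo _ _ (by rw [pr_v, pr_ne n]; exact m.symm), pr_v, pr_ne n]
  have Ly : ∀ v, v ≠ x → v ≠ y → L y v = L' y v := fun v n m => by
    rw [Lo _ _ (by rw [pr_a, pr_ne n]; exact m.symm), pr_a, pr_ne n]
  have Lxa : L x a = 1 := (Lx a xa.symm ay).trans Lya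
  have Lxr : L x r = 2 := (Lx r xr.symm ry).trans Lyr
  have Lxz : L x z = 0 := (Lx z xz.symm yz.symm).trans Lyz
  have Lya' : L y a = 1 := (Ly a xa.symm ay).trans Lya
  have Lyl' : L y l = 0 := (Ly l lx ly).trans Lyl
  have Lyz' : L y z = 0 := (Ly z xz.symm yz.symm).trans Lyz
  have cadj : ∀ u v, adj T u v → u ≠ x → u ≠ y → adj (con T x y) u (pr x y v) ∧
      L u v = L' u (pr x y v) := fun u v h n1 n2 => by
    have m : pr x y u ≠ pr x y v := by
      rw [pr_ne n1]; exact fun e => hT.adj_ne h (pr_eq_ne e.symm n2).symm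
    have k1 := hT.con_adj h m
    have k2 := Lo _ _ m
    rw [pr_ne n1] at k1 k2
    exact ⟨k1, k2⟩
  have cT : ∀ u v w, T u v w → u ≠ x → u ≠ y → u ≠ a → ¬ Z u →
      con T x y u (pr x y v) (pr x y w) := fun u v w t n1 n2 n3 n4 => by
    rcases contr_cases hT hp hq t with ⟨g1, g2, g3⟩ | g | g | g | g | g | g
    · have e1 := con_of t g1 g2 g3
      rwa [pr_ne n1] at e1
    all_goals first | exact absurd g.1 ‹_› | exact absurd (g.1 ▸ K.zz) n4
  obtain ⟨s, s0, s1, s2, s3, s4, so⟩ : ∃ s : Fin 3 → V → ℝ, s 0 x = s' 0 y ∧ s 1 x = m1 ∧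
      s 2 x = s' 2 y ∧ s 2 y = m2 ∧ (∀ i, i ≠ 2 → s i y = s' i y) ∧
      ∀ i u, u ≠ x → u ≠ y → s i u = s' i u :=
    ⟨fun i u => if u = x then ![s' 0 y, m1, s' 2 y] i else if u = y ∧ i = 2 then m2 else s' i u,
      by simp, by simp, by simp, by simp [xy.symm], fun i n => by simp [xy.symm, n],
      fun i u n m => by simp [n, m]⟩
  have s5 := s4 0 (by decide)
  have s6 := s4 1 (by decide)
  obtain ⟨par, p0, p1, p2, p3, p4, p5, px1, px2⟩ : ∃ par : Fin 3 → V → V, par 0 x = a ∧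
      par 1 x = r ∧ par 2 x = y ∧ par 0 y = a ∧ par 1 y = x ∧ par 2 y = l ∧
      (∀ i, par' i r = y → par i r = x) ∧
      ∀ i w, w ≠ x → w ≠ y → ¬ (w = r ∧ par' i w = y) → par i w = par' i w :=
    ⟨fun i w => if w = x then ![a, r, y] i else if w = y then ![a, x, l] i else
      if w = r ∧ par' i w = y then x else par' i w, by simp, by simp, by simp, by simp [xy.symm],
      by simp [xy.symm], by simp [xy.symm], fun i e => by simp [xr.symm, ry, e],
      fun i w n m k => by simp only [if_neg n, if_neg m, if_neg k]⟩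
  have cas : ∀ i u, In T Z a b c u → u ≠ x → u ≠ y → adj T u (par i u) ∧
      ((par i u = par' i u ∧ par' i u ≠ x ∧ (par' i u = y → u = l)) ∨
        (u = r ∧ par i u = x ∧ par' i u = y)) := fun i u h n m => by
    by_cases e : u = r ∧ par' i u = y
    · obtain ⟨rfl, e⟩ := e
      rw [px1 i e]
      exact ⟨hT.symm (hT.adj23 K.t3), Or.inr ⟨rfl, rfl, e⟩⟩
    rw [px2 i u n m e]
    obtain ⟨-, w0, y0, k, e1, e2⟩ := Tri.con_lift (W.oa i u (II h n)).1
    obtain rfl := pr_eq_ne e1 m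
    have f : y0 ≠ x := by
      rintro rfl
      rcases K.nx hT (hT.symm k) with j | j | j | j
      exacts [h.a j, m j, h.z (j ▸ K.zz), e ⟨j, e2.symm.trans pr_v⟩]
    rw [pr_ne f] at e2
    rw [← e2]
    refine ⟨k, Or.inl ⟨rfl, f, ?_⟩⟩
    rintro rfl
    rcases K.ny hT (hT.symm k) with j | j | j | j
    exacts [absurd j h.a, j, absurd (j ▸ K.zz) h.z, absurd j n]
  have ppr : ∀ i u, In T Z a b c u → u ≠ x → u ≠ y → pr x y (par i u) = par' i u :=
    fun i u h n m => by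
      rcases (cas i u h n m).2 with ⟨k1, k2, -⟩ | ⟨-, k1, k2⟩
      · rw [k1, pr_ne k2]
      · rw [k1, k2, pr_v]
  have good : ∀ z0 u v, Z z0 → T z0 u v → L v z0 ≠ L u v →
      con T x y z0 (pr x y u) (pr x y v) ∧
      L u v = L' (pr x y u) (pr x y v) ∧ L v z0 = L' (pr x y v) z0 := fun z0 u v k t n => by
    have m : z0 ≠ x := fun e => zx (e ▸ k)
    rcases contr_cases hT hp hq t with ⟨g1, g2, g3⟩ | g | g | g | g | g | g
    · have e1 := con_of t g1 g2 g3
      have e2 := Lo _ _ g3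
      rw [pr_ne m] at e1 e2
      exact ⟨e1, Lo _ _ g2, e2⟩
    all_goals first | exact absurd (g.1 ▸ k) ‹_› | skip
    exact absurd (by rw [g.1, g.2.1, g.2.2, Lyz', Lxy]) n
  have jx : ∀ z0 u v, Z z0 → T z0 u v → L v z0 ≠ L u v → u ≠ x ∨ z0 ≠ z := fun z0 u v _ t n => by
    by_contra j
    push Not at j
    obtain ⟨rfl, rfl⟩ := j
    rw [hT.uniq t K.t5, Lyz', Lxy] at n
    exact n rfl
  have Lay : L a y = 0 := by
    obtain ⟨k1, k2⟩ := cadj a y ⟨_, K.t2⟩ xa.symm ay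
    rw [k2, W.la _ k1 (by rw [pr_a]; exact K.yb)]
  refine ⟨L, par, s, fun w h n => ?_, fun w h n => ?_, fun w h n => ?_, fun u w w' t n j k => ?_,
    fun i u h => ?_, fun i u h => ?_, fun u w w' h t => ?_, fun u h k => ?_,
    fun u v w t z1 z2 k1 k2 n1 n2 n3 => ?_, fun u h k g => ?_, ?_, fun z0 k hv m => ?_,
    fun z0 u v u' v' k t t' e n n' => ?_, fun i u h => ?_, fun i j u h n => ?_, fun u v t n => ?_,
    fun u n => ?_, fun u => ?_⟩
  · obtain ⟨k1, k2⟩ := cadj _ _ h xa.symm ay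
    rw [k2, W.la _ k1 fun e => n (pr_eq_ne e K.yb.symm)]
  · obtain ⟨k1, k2⟩ := cadj _ _ h K.xb.symm K.yb.symm
    rw [k2, W.lb _ k1 fun e => n (pr_eq_ne e K.yc.symm)]
  · obtain ⟨k1, k2⟩ := cadj _ _ h K.xc.symm K.yc.symm
    rw [k2, W.lc _ k1 fun e => n (pr_eq_ne e ay)]
  · -- vi
    by_cases e : u = x
    · subst e
      have zw := k.resolve_right fun k => k.2 K.hx
      rcases K.nx hT (hT.adj13 t) with rfl | rfl | rfl | rfl <;> try contradiction
      rw [hT.uniq2 t hp, Lxy, Lxz]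
    by_cases f : u = y
    · subst f
      have zw := k.resolve_right fun k => k.2 K.hy
      rcases K.ny hT (hT.adj13 t) with rfl | rfl | rfl | rfl <;> try contradiction
      rw [hT.uniq2 t (hT.rot K.t4), Lyl', Lyz']
    have wx : w ≠ x := by
      rintro rfl
      exact k.elim zx fun k => xa k.1
    have k1 := cT _ _ _ t e f n j
    rw [(cadj _ _ ⟨_, t⟩ e f).2, (cadj _ _ (hT.adj13 t) e f).2]
    rw [pr_ne wx] at k1 ⊢
    exact W.vi _ _ _ k1 n j (k.imp_right fun k => ⟨k.1, fun i => k.2 ((hH u).1 i).2⟩)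
  · -- oa
    by_cases e : u = x
    · subst e
      obtain rfl | rfl | rfl := i3 i
      · rw [p0]; exact ⟨⟨_, hq⟩, za, fun _ => K.hx⟩
      · rw [p1]; exact ⟨hT.adj23 K.t3, zr', fun _ => K.hx⟩
      · rw [p2]; exact ⟨hc.1, zy, fun _ => K.hx⟩
    by_cases f : u = y
    · subst f
      obtain rfl | rfl | rfl := i3 i
      · rw [p3]; exact ⟨hT.opp K.t2, za, fun _ => K.hy⟩
      · rw [p4]; exact ⟨hT.symm hc.1, zx, fun _ => K.hy⟩
      · rw [p5]; exact ⟨hT.adj23 K.t4, zl, fun _ => K.hy⟩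
    obtain ⟨k0, ⟨k1, -⟩ | ⟨-, k1, -⟩⟩ := cas i u h e f
    · obtain ⟨-, j2, j3⟩ := W.oa i u (II h e)
      exact ⟨k0, k1 ▸ j2, fun j => ((hH u).1 (j3 (k1 ▸ j))).2⟩
    · exact ⟨k0, k1 ▸ zx, fun j => absurd (k1 ▸ j) xa⟩
  · -- ol
    by_cases e : u = x
    · subst e
      obtain rfl | rfl | rfl := i3 i
      · rw [p0]; exact ⟨Lxa, fun w t => hT.uniq2 t (hT.rot K.t3) ▸ Lxr⟩
      · rw [p1]; exact ⟨Lxr, fun w t => hT.uniq2 t (hT.rot2 K.t6) ▸ Lxz⟩
      · rw [p2]; exact ⟨Lxy, fun w t => hT.uniq2 t hq ▸ Lxa⟩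
    by_cases f : u = y
    · subst f
      obtain rfl | rfl | rfl := i3 i
      · rw [p3]; exact ⟨Lya', fun w t => hT.uniq2 t (hT.rot K.t2) ▸ Lyx⟩
      · rw [p4]; exact ⟨Lyx, fun w t => hT.uniq2 t (hT.rot2 K.t5) ▸ Lyz'⟩
      · rw [p5]; exact ⟨Lyl', fun w t => hT.uniq2 t (hT.rot2 K.t1) ▸ Lya'⟩
    obtain ⟨o1, o2⟩ := W.ol i u (II h e)
    refine ⟨by rw [(cadj _ _ (cas i u h e f).1 e f).2, ppr i u h e f, o1], fun w t => ?_⟩
    rw [(cadj _ _ ⟨_, t⟩ e f).2, o2 _ (ppr i u h e f ▸ cT _ _ _ t e f h.a h.z)]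
  · -- sg
    by_cases e : u = x
    · subst e
      rcases K.nx hT (hT.adj13 t) with rfl | rfl | rfl | rfl
      · right; rw [Lxa]; exact p0.symm
      · right; rw [Lxy]; exact p2.symm
      · left; rw [hT.uniq2 t hp, Lxy, Lxz]
      · right; rw [Lxr]; exact p1.symm
    by_cases f : u = y
    · subst f
      rcases K.ny hT (hT.adj13 t) with rfl | rfl | rfl | rfl
      · right; rw [Lya']; exact p3.symm
      · right; rw [Lyl']; exact p5.symm
      · left; rw [hT.uniq2 t (hT.rot K.t4), Lyl', Lyz']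
      · right; rw [Lyx]; exact p4.symm
    rw [(cadj _ _ ⟨_, t⟩ e f).2, (cadj _ _ (hT.adj13 t) e f).2]
    refine (W.sg _ _ _ (II h e) (cT _ _ _ t e f h.a h.z)).imp id fun k => ?_
    have k0 := hT.symm (cas (L' u (pr x y w) + 2) u h e f).1
    have k1 := hT.symm (hT.adj13 t)
    rcases pr_eq (k.trans (ppr _ u h e f).symm) with j | ⟨rfl, j⟩ | ⟨rfl, j⟩
    · exact j
    · exact (K.com hT o k1 (j ▸ k0)).elim (fun j => absurd (j ▸ K.zz) h.z) fun j => absurd j h.a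
    · exact (K.com hT o (j ▸ k0) k1).elim (fun j => absurd (j ▸ K.zz) h.z) fun j => absurd j h.a
  · by_cases e : u = x
    · rwa [e]
    by_cases f : u = y
    · rwa [f]
    exact pr_eq_ne ((ppr 0 u h e f).trans (W.h0 u (II h e) ((hH u).2 ⟨e, k⟩))) ay
  · -- nx
    rcases contr_cases hT hp hq t with ⟨g1, g2, g3⟩ | ⟨rfl, rfl, rfl⟩ | ⟨rfl, rfl, rfl⟩ |
      ⟨rfl, rfl, rfl⟩ | ⟨rfl, rfl, rfl⟩ | ⟨rfl, rfl, rfl⟩ | ⟨rfl, rfl, rfl⟩
    · rw [Lo _ _ g1, Lo _ _ g2]
      have zz : ∀ u, ¬ Z u → ¬ Z (pr x y u) := fun u z => by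
        by_cases e : u = x
        · rwa [e, pr_v]
        · rwa [pr_ne e]
      have hh : ∀ u v, (u = a → H v) → pr x y u = a → H' (pr x y v) := fun u v k e => by
        by_cases f : v = x
        · rwa [f, pr_v]
        · rw [pr_ne f]; exact (hH v).2 ⟨f, k (pr_eq_ne e ay)⟩
      exact W.nx _ _ _ (con_of t g1 g2 g3) (zz u z1) (zz v z2) (hh u v k1) (hh v u k2)
        (fun ⟨j1, j2⟩ => n1 ⟨pr_eq_ne j1 ay, pr_eq_ne j2 K.yb.symm⟩)
        (fun ⟨j1, j2⟩ => n2 ⟨pr_eq_ne j1 K.yb.symm, pr_eq_ne j2 K.yc.symm⟩)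
        fun ⟨j1, j2⟩ => n3 ⟨pr_eq_ne j1 K.yc.symm, pr_eq_ne j2 ay⟩
    · exact absurd K.zz z2
    · exact absurd K.zz z1
    · rw [Lyz', Lxy]; decide
    · rw [Lxa, Lyx]; decide
    · rw [Lay, Lxa]; decide
    · rw [Lyx, Lay]; decide
  · -- ct
    have e : u ≠ x := by rintro rfl; exact g K.hx
    have f : u ≠ y := by rintro rfl; exact g K.hy
    have k1 := (cadj _ _ k xa.symm ay).1
    rw [pr_ne e] at k1
    rw [(cadj _ _ (hT.symm k) e f).2, pr_ne xa.symm]
    exact W.ct u (II h e) k1 fun i => g ((hH u).1 i).2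
  · -- ed
    have key : ∀ v, adj T x v → ¬ Z v → In T Z a b c x ∧ ∃ i, v = par i x := fun v h j => by
      rcases K.nx hT h with rfl | rfl | rfl | rfl
      exacts [⟨ix, 0, p0.symm⟩, ⟨ix, 2, p2.symm⟩, absurd K.zz j, ⟨ix, 1, p1.symm⟩]
    have key2 : ∀ u v, adj T u v → (In (con T x y) Z a b c u ∧ ∃ i, v = par' i u) →
        In T Z a b c u ∧ ∃ i, v = par i u := fun u v h ⟨j, i, k⟩ => by
      refine ⟨(II' j).1, i, ?_⟩
      by_cases f : u = y
      · subst f
        obtain rfl | rfl | rfl := i3 i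
        exacts [k.trans (q0.trans p3.symm), absurd ((k.trans q1) ▸ h) (K.nyr hT o),
          k.trans (q2.trans p5.symm)]
      · refine k.trans (px2 i u (II' j).2 f ?_).symm
        rintro ⟨rfl, g⟩
        exact K.nyr hT o (hT.symm ((k.trans g) ▸ h))
    intro u v h z1 z2 k1 k2
    by_cases e : u = x
    · subst e; exact Or.inl (key v h z2)
    by_cases f : v = x
    · subst f; exact Or.inr (Or.inl (key u (hT.symm h) z1))
    have h' := hT.con_adj (v := x) (a := y) h (by rw [pr_ne e, pr_ne f]; exact hT.adj_ne h)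
    rw [pr_ne e, pr_ne f] at h'
    exact (W.ed u v h' z1 z2 (fun j => (hH v).2 ⟨f, k1 j⟩) fun j => (hH u).2 ⟨e, k2 j⟩).imp
      (key2 u v h) (Or.imp_left (key2 v u (hT.symm h)))
  · -- f1
    obtain ⟨u, v, ⟨-, g, -, z1, u0, v0, t, e1, rfl, rfl⟩, j⟩ :=
      W.f1 z0 k ((hT.con_vtx hc.1).2 ⟨hv, fun e => zx (e ▸ k)⟩) m
    obtain rfl := pr_eq_ne e1 fun j => zy (j ▸ k)
    exact ⟨u0, v0, t, (Lo _ _ g).trans j⟩
  · -- f2
    obtain ⟨k1, k2, k3⟩ := good _ _ _ k t n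
    obtain ⟨j1, j2, j3⟩ := good _ _ _ k t' n'
    have i1 := jx _ _ _ k t n
    have i2 := jx _ _ _ k t' n'
    rw [k3, k2] at n
    rw [j3, j2] at n'
    rw [k2, j2] at e
    rcases pr_eq (W.f2 _ _ _ _ _ k k1 j1 e n n') with j | ⟨rfl, rfl⟩ | ⟨rfl, rfl⟩
    · exact j
    · exact (K.com hT o (hT.opp t) (hT.opp t')).elim (fun j => absurd j (i1.resolve_left
        fun i => i rfl)) fun j => absurd (j ▸ k) za
    · exact (K.com hT o (hT.opp t') (hT.opp t)).elim (fun j => absurd j (i2.resolve_left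
        fun i => i rfl)) fun j => absurd (j ▸ k) za
  · -- up
    by_cases e : u = x
    · subst e
      obtain rfl | rfl | rfl := i3 i
      · rw [p0, s0, so _ _ xa.symm ay]; exact W.top _ ay.symm
      · rwa [p1, s1, so _ _ xr.symm ry]
      · rwa [p2, s2, s3]
    by_cases f : u = y
    · subst f
      obtain rfl | rfl | rfl := i3 i
      · rw [p3, s5, so _ _ xa.symm ay]; exact W.top _ ay.symm
      · rwa [p4, s1, s6]
      · rwa [p5, s3, so _ _ lx ly]
    have k := W.up i u (II h e)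
    rw [so _ _ e f]
    obtain ⟨-, ⟨k1, k2, k3⟩ | ⟨rfl, k1, k2⟩⟩ := cas i u h e f
    · rw [k1]
      by_cases g : par' i u = y
      · rw [g] at k ⊢
        by_cases j : i = 2
        · rw [j, s3]; rw [j] at k; exact k.trans b1
        · rwa [s4 i j]
      · rwa [so _ _ k2 g]
    · rw [k2] at k
      rw [k1]
      obtain rfl | rfl | rfl := i3 i
      · rwa [s0]
      · rw [s1]; exact k.trans a1
      · rwa [s2]
  · -- dn
    have d1 := fun j n => q1 ▸ W.dn 1 j y iy' n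
    have d2 := fun j n => q2 ▸ W.dn 2 j y iy' n
    by_cases e : u = x
    · subst e
      obtain rfl | rfl | rfl := i3 i <;> obtain rfl | rfl | rfl := i3 j <;>
        first | exact absurd rfl n | simp only [p0, p1, p2, s0, s1, s2, s5, s6, so _ _ xa.symm ay,
          so _ _ xr.symm ry]
      exacts [(W.low y).1.trans a1.le, (W.low y).2, d1 0 n, d1 2 n, le_rfl, a1.le]
    by_cases f : u = y
    · subst f
      obtain rfl | rfl | rfl := i3 i <;> obtain rfl | rfl | rfl := i3 j <;>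
        first | exact absurd rfl n | simp only [p3, p4, p5, s0, s2, s3, s5, s6, so _ _ xa.symm ay,
          so _ _ lx ly]
      exacts [(W.low u).1, (W.low u).2.trans b1.le, le_rfl, b1.le, d2 0 n, d2 1 n]
    have k := W.dn i j u (II h e) n
    rw [so _ _ e f]
    obtain ⟨-, ⟨k1, k2, k3⟩ | ⟨rfl, k1, k2⟩⟩ := cas i u h e f
    · rw [k1]
      by_cases g : par' i u = y
      · rw [g] at k ⊢
        by_cases j' : j = 2
        · rw [j', s3, k3 g]; exact b2.le
        · rwa [s4 j j']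
      · rwa [so _ _ k2 g]
    · rw [k2] at k
      rw [k1]
      obtain rfl | rfl | rfl := i3 j
      · rwa [s0]
      · rw [s1]; exact a2.le
      · rwa [s2]
  · -- cm
    have HH : ∀ u, u ≠ x → H u ∨ Z u → H' u ∨ Z u := fun u n k =>
      k.imp_left fun k => (hH u).2 ⟨n, k⟩
    by_cases e : u = x
    · subst e
      obtain rfl := hT.uniq t K.t3
      obtain ⟨k1, -, k3, -⟩ := W.cm y v (hT.con_rot (hT.con_rot u1)) K.yb
      rw [s1, s2, so _ _ xr.symm ry, so _ _ xr.symm ry]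
      exact ⟨k1, a2.le, fun k => k3 (HH _ xr.symm k), fun _ => a2⟩
    by_cases f : u = y
    · subst f
      obtain rfl := hT.uniq t K.t2
      rw [s1, s2, s3, s6]
      exact ⟨b1.le, a1.le, fun _ => b1, fun _ => a1⟩
    have e' : v ≠ x := by rintro rfl; exact f (hT.uniq2 t K.t2)
    obtain ⟨k1, k2, k3, k4⟩ := W.cm u v (hT.con_id t xa.symm e e') n
    rw [so _ _ e f, so _ _ e f]
    by_cases f' : v = y
    · subst f'
      obtain rfl := hT.uniq2 t K.t1
      rw [s3, s6]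
      exact ⟨b2.le, k2, fun _ => b2, fun k => k4 (HH _ e k)⟩
    rw [so _ _ e' f', so _ _ e' f']
    exact ⟨k1, k2, fun k => k3 (HH _ e' k), fun k => k4 (HH _ e k)⟩
  · rw [so _ _ xa.symm ay]
    by_cases e : u = x
    · rw [e, s0]; exact W.top _ ay.symm
    by_cases f : u = y
    · rw [f, s5]; exact W.top _ ay.symm
    · rw [so _ _ e f]; exact W.top u n
  · rw [so _ _ xa.symm ay, so _ _ xa.symm ay]
    by_cases e : u = x
    · rw [e, s1, s2]; exact ⟨(W.low y).1.trans a1.le, (W.low y).2⟩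
    by_cases f : u = y
    · rw [f, s6, s3]; exact ⟨(W.low y).1, (W.low y).2.trans b1.le⟩
    · rw [so _ _ e f, so _ _ e f]; exact W.low u

end Pool.Agent.Lib.MP_d5dfc1_co.Gm
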