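import Pool.Agent.Lib.MP_d5dfc1_co.GmDef

/-! The three regions of a vertex. -/

namespace Pool.Agent.Lib.MP_d5dfc1_co.Gm

open Finset Ex

variable {V F D : Type} {M : PM V F D} {T : F} {a : Fin 3 → D}

/-- rotation from `s` to `e` without a jump -/
lemma rot {α : Type} (val : F → α) {s e : D} (t : M.tl s = M.tl e) (ne : e ≠ s)
    (h : ∀ b, M.tl b = M.tl s → b ≠ s → b ≠ e → M.sg b ≠ s → val (M.rf b) = val (M.lf b)) :
    val (M.lf e) = val (M.rf s) := by
  have := M.v_ind (P := fun b => M.tl b = M.tl s ∧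
    (b = s ∨ val (M.lf b) = val (M.rf s) ∨ val (M.lf e) = val (M.rf s))) (fun b ⟨b1, b2⟩ => by
      refine ⟨by simpa, ?_⟩
      by_cases q1 : b = s
      · exact Or.inr (Or.inl (by simp [q1]))
      by_cases q2 : M.sg b = s
      · exact Or.inl q2
      rcases b2 with q | q | q
      · exact absurd q q1
      · by_cases q3 : b = e
        · exact Or.inr (Or.inr (q3 ▸ q))
        · exact Or.inr (Or.inl (by rw [PM.lf_sg', h b b1 q1 q3 q2, q]))
      · exact Or.inr (Or.inr q)) (d := s) ⟨rfl, Or.inl rfl⟩ t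
  rcases this.2 with q | q | q
  exacts [absurd q ne, q, q]

namespace Sch
variable {S : Sch M T a}

/-- induction from the root -/
lemma ind [Fintype V] (S : Sch M T a) (i : Fin 3) {P : V → Prop}
    (h : ∀ x, (¬ M.Inc x T → P (M.hd (S.o i x))) → P x) (x : V) : P x := by
  classical
  induction hn : #{z | S.r i x < S.r i z} using Nat.strong_induction_on generalizing x with
  | _ n ih =>
    refine h x fun q => ih _ (hn ▸ card_lt_card ⟨fun z => ?_, fun k => ?_⟩) _ rfl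
    · simpa using (S.r_up i x q).trans
    · simpa using k (x := M.hd (S.o i x)) (by simpa using S.r_up i x q)

lemma hd_out (hT : Tri M T a) {i : Fin 3} {x : V} (hx : ¬ M.Inc x T) (h : M.Inc (M.hd (S.o i x)) T) :
    M.hd (S.o i x) = M.tl (a i) := by
  obtain ⟨j, hj⟩ := (hT.all _).1 h
  rw [← hj, ← S.lab_t j (M.rev (S.o i x)) hj.symm (S.o_rf i hx),
    ((S.lab_hd hT i hx).resolve_right fun k => k.elim (fun k => k.1 h) fun k => k.1 h).1]

lemma on_root [Fintype V] (hT : Tri M T a) (i : Fin 3) {x : V} (hx : ¬ M.Inc x T) :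
    S.On i x (M.tl (a i)) := by
  revert hx
  refine S.ind i (P := fun x => ¬ M.Inc x T → S.On i x (M.tl (a i))) (fun x ih hx => ?_) x
  have s : S.On i x (M.hd (S.o i x)) := S.p_in i hx ▸ (On.refl S i x).step
  by_cases q : M.Inc (M.hd (S.o i x)) T
  · exact hd_out hT hx q ▸ s
  · exact s.trans (ih hx q)

lemma On.out (hT : Tri M T a) {i : Fin 3} {u x : V} (h : S.On i u x) (hu : ¬ M.Inc u T)
    (hx : M.Inc x T) : x = M.tl (a i) := by
  rcases h.cases' with rfl | ⟨y, hy, -, rfl⟩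
  exacts [absurd hx hu, hd_out hT hy hx]

lemma Dp.mk {i : Fin 3} {u x : V} (hx : ¬ M.Inc x T) (h : S.On i u x) : S.Dp i u (S.o i x) := by
  unfold Dp; rw [S.o_tl i x hx]; exact ⟨hx, h, rfl⟩

lemma Dp.hd {i : Fin 3} {u : V} {d : D} (h : S.Dp i u d) : S.On i u (M.hd d) ∧ M.hd d ≠ u := by
  have e : M.hd d = S.p i (M.tl d) := by rw [S.p_in i h.1, ← h.2.2]
  refine ⟨e ▸ h.2.1.step, fun q => ?_⟩
  have := S.r_up i _ h.1
  rw [← h.2.2, q] at this
  exact absurd h.2.1.le.1 (not_le.2 this)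

lemma Dp.col {i j : Fin 3} {u v : V} {d : D} (h : S.Dp i u d) (k : S.Dp j v d) : i = j :=
  S.o_inj h.1 (h.2.2.symm.trans k.2.2)

lemma Dp.nrev {i j : Fin 3} {u : V} {d : D} (h : S.Dp i u d) : ¬ S.Dp j u (M.rev d) := fun k => by
  obtain rfl : i = j := by
    by_contra n
    exact h.hd.2 (h.hd.1.disj k.2.1 n)
  exact S.ne_rev h.1 k.1 (by rw [← h.2.2, ← k.2.2, PM.rr])

lemma Dp.lf {i : Fin 3} {u : V} {d : D} (h : S.Dp i u d) : M.lf d ≠ T := inn_lf h.1
lemma Dp.rf {i : Fin 3} {u : V} {d : D} (h : S.Dp i u d) : M.rf d ≠ T := inn_rf h.1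

/-- the darts of the three paths at a later vertex of one path -/
lemma Dp.at {i j : Fin 3} {u : V} {e b : D} (h : S.Dp i u e) (t : M.tl b = M.hd e) :
    (S.Dp j u b → b = S.o i (M.hd e)) ∧ (S.Dp j u (M.rev b) → b = M.rev e) := by
  refine ⟨fun k => ?_, fun k => ?_⟩
  · obtain rfl : i = j := by
      by_contra n
      exact h.hd.2 (h.hd.1.disj (t ▸ k.2.1) n)
    exact t ▸ k.2.2
  · have k1 := k.hd.1
    rw [PM.hd_rev, t] at k1
    obtain rfl : i = j := by
      by_contra n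
      exact h.hd.2 (h.hd.1.disj k1 n)
    have := h.2.1.pred k.2.1 h.1 k.1 (by rw [← h.2.2, ← k.2.2, PM.hd_rev, t])
    rw [h.2.2, this, ← k.2.2, PM.rr]

end Sch

variable [Fintype D] [DecidableEq V] [Fintype V]

open Classical in
lemma flow (hT : Tri M T a) (S : Sch M T a) (i : Fin 3) {u : V} (hu : ¬ M.Inc u T) (x : V) :
    ∑ d with M.tl d = x, ((if S.Dp i u d then 1 else 0) - if S.Dp i u (M.rev d) then 1 else 0 : ℝ)
      = (if x = u then 1 else 0) - if x = M.tl (a i) then 1 else 0 := by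
  have e1 : ∑ d with M.tl d = x, (if S.Dp i u d then 1 else 0 : ℝ)
      = if ¬ M.Inc x T ∧ S.On i u x then 1 else 0 := by
    split_ifs with q
    · refine (sum_eq_single_of_mem (S.o i x) (by simp [S.o_tl i x q.1]) fun d hd n =>
        if_neg fun k => n ?_).trans (if_pos (Sch.Dp.mk q.1 q.2))
      exact (mem_filter.1 hd).2 ▸ k.2.2
    · refine sum_eq_zero fun d hd => if_neg fun k => q ?_
      exact (mem_filter.1 hd).2 ▸ ⟨k.1, k.2.1⟩
  have e2 : ∑ d with M.tl d = x, (if S.Dp i u (M.rev d) then 1 else 0 : ℝ)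
      = if S.On i u x ∧ x ≠ u then 1 else 0 := by
    split_ifs with q
    · obtain ⟨y, y1, y2, y3⟩ := q.1.cases'.resolve_left q.2
      have k := Sch.Dp.mk y1 y2
      refine (sum_eq_single_of_mem (M.rev (S.o i y)) (by simpa) fun d hd n =>
        if_neg fun k' => n ?_).trans (if_pos (by simpa))
      exact (k.at ((mem_filter.1 hd).2.trans y3.symm)).2 k'
    · refine sum_eq_zero fun d hd => if_neg fun k => q ?_
      simpa [(mem_filter.1 hd).2] using k.hd
  rw [sum_sub_distrib, e1, e2]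
  have ti := hT.inc i
  by_cases q : x = u
  · subst q
    have : x ≠ M.tl (a i) := fun e => hu (e ▸ ti)
    simp [hu, Sch.On.refl, this]
  by_cases q' : x = M.tl (a i)
  · subst q'
    simp [q, ti, Sch.on_root hT i hu]
  by_cases o : S.On i u x
  · have : ¬ M.Inc x T := fun k => q' (o.out hT hu k)
    simp [q, q', o, this]
  · simp [q, q', o]

lemma chi_in (h : Base M T a) (S : Sch M T a) {u : V} (hu : ¬ M.Inc u T) : ∃ g : F → Fin 3,
    (∀ d, M.lf d ≠ T → M.rf d ≠ T → (∀ i, ¬ S.Dp i u d) → (∀ i, ¬ S.Dp i u (M.rev d)) →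
      g (M.lf d) = g (M.rf d)) ∧ (∀ i d, S.Dp i u d → g (M.lf d) = i + 1 ∧ g (M.rf d) = i + 2) ∧
      ∀ j, g (M.rf (a j)) = j + 2 := by
  classical
  have hT := h.tri
  set q : Fin 3 → ℝ := fun m => (m : ℕ) + 1 with hq
  set Θ : Fin 3 → D → ℝ := fun i d =>
    (if S.Dp i u d then 1 else 0) - if S.Dp i u (M.rev d) then 1 else 0 with hΘ
  set α : Fin 3 → D → ℝ := fun j d =>
    (if d = a j then 1 else 0) - if M.rev d = a j then 1 else 0 with hα
  have dα : ∀ j x, ∑ d with M.tl d = x, α j d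
      = (if x = M.tl (a j) then 1 else 0) - if x = M.tl (a (j + 1)) then 1 else 0 := fun j x => by
    have : ∀ d, M.rev d = a j ↔ d = M.rev (a j) := fun d =>
      ⟨fun e => by rw [← e, PM.rr], fun e => by rw [e, PM.rr]⟩
    simp only [hα, sum_sub_distrib, this, sum_ite_eq', mem_filter, mem_univ, true_and, PM.tl_rev,
      hT.hd, @eq_comm _ x]
  obtain ⟨Q, hQ⟩ := h.dex (fun d => ∑ i, ((q (i + 2) - q (i + 1)) * Θ i d + q (i + 2) * α i d))
    (fun d => by
      rw [← sum_neg_distrib]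
      exact sum_congr rfl fun i _ => by simp only [hΘ, hα, PM.rr]; ring) fun x => by
      rw [sum_comm]
      simp only [sum_add_distrib, ← mul_sum, dα, hΘ, flow hT S _ hu, Fin.sum_univ_three]
      simp [hq]
      ring
  have α0 : ∀ d, M.lf d ≠ T → M.rf d ≠ T → ∀ j, α j d = 0 := fun d h1 h2 j => by
    simp only [hα]
    rw [if_neg fun e => h1 (by rw [e, hT.lf]), if_neg fun e => h2 (by rw [← PM.lf_rev, e, hT.lf]), sub_zero]
  have j0 : ∀ d, M.lf d ≠ T → M.rf d ≠ T → (∀ i, ¬ S.Dp i u d) → (∀ i, ¬ S.Dp i u (M.rev d)) →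
      Q (M.rf d) = Q (M.lf d) := fun d h1 h2 h3 h4 => by
    have := hQ d
    simp only [α0 d h1 h2, hΘ, if_neg (h3 _), if_neg (h4 _)] at this
    simp at this
    linarith
  have j1 : ∀ i d, S.Dp i u d → Q (M.rf d) - Q (M.lf d) = q (i + 2) - q (i + 1) := fun i d k => by
    rw [← hQ, sum_eq_single i (fun j _ n => ?_) (by simp)] <;>
      simp only [α0 d k.lf k.rf, hΘ, if_neg k.nrev]
    · simp [k]
    · rw [if_neg fun k' => n (k'.col k)]; simp
  have j2 : ∀ j, Q (M.rf (a j)) - Q T = q (j + 2) := fun j => by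
    have n1 : ∀ i, ¬ S.Dp i u (a j) := fun i k => k.lf (hT.lf j)
    have n2 : ∀ i, ¬ S.Dp i u (M.rev (a j)) := fun i k => k.rf (by simpa using hT.lf j)
    have n3 : ∀ i, M.rev (a j) ≠ a i := fun i e => M.rf_ne (a j) (by rw [← PM.lf_rev, e, hT.lf, hT.lf])
    rw [← hT.lf j, ← hQ, sum_eq_single j (fun i _ n => ?_) (by simp)] <;>
      simp only [hΘ, hα, if_neg (n1 _), if_neg (n2 _), if_neg (n3 _)]
    · simp
    · rw [if_neg fun e => n (hT.inj (congrArg M.tl e)).symm]; simp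
  have j3 : ∀ i x, ¬ M.Inc x T → S.On i u x → Q (M.rf (S.o i x)) - Q T = q (i + 2) := fun i x => by
    refine S.ind i (P := fun x => ¬ M.Inc x T → S.On i u x → Q (M.rf (S.o i x)) - Q T = q (i + 2))
      (fun x ih hx o => ?_) x
    have k := Sch.Dp.mk hx o
    by_cases y : M.Inc (M.hd (S.o i x)) T
    · have e := Sch.hd_out hT hx y
      have f : ∀ b, M.tl b = M.tl (a i) → b ≠ a i → M.lf b ≠ T := fun b t n l =>
        n (M.uniq _ _ t (l.trans (hT.lf i).symm))
      rw [← j2, ← rot Q (s := a i) (e := M.rev (S.o i x)) e.symm (fun n => k.rf (by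
        rw [← PM.lf_rev, n, hT.lf])) fun b t n1 n2 n3 => j0 b (f b t n1)
          (by simpa using f (M.sg b) (by simpa) n3) (fun j k' => k'.1 (t ▸ hT.inc i))
          fun j k' => n2 ((k.at (t.trans e.symm)).2 k'), PM.lf_rev]
    · have t0 := S.o_tl i _ y
      rw [← ih hx y k.hd.1, ← rot Q (s := S.o i (M.hd (S.o i x))) (e := M.rev (S.o i x)) t0
        (S.ne_rev y hx).symm fun b t n1 n2 n3 => j0 b (inn_lf (by rwa [t, t0]))
          (inn_rf (by rwa [t, t0])) (fun j k' => n1 ((k.at (t.trans t0)).1 k'))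
          fun j k' => n2 ((k.at (t.trans t0)).2 k'), PM.lf_rev]
  have v : ∀ f m, Q f - Q T = q m →
      (if Q f - Q T = 1 then 0 else if Q f - Q T = 2 then 1 else 2 : Fin 3) = m := fun f m e => by
    rw [e]; fin_cases m <;> norm_num [hq]
    rfl
  refine ⟨fun f => if Q f - Q T = 1 then 0 else if Q f - Q T = 2 then 1 else 2,
    fun d h1 h2 h3 h4 => by simp only [j0 d h1 h2 h3 h4], fun i d k => ?_, fun j => v _ _ (j2 j)⟩
  have b := j3 i _ k.1 k.2.1
  rw [← k.2.2] at b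
  exact ⟨v _ _ (by linarith [j1 i d k]), v _ _ b⟩

theorem exChi (h : Base M T a) (S : Sch M T a) : ∃ χ, Chi S χ := by
  have : ∀ u, ∃ g : F → Fin 3,
      (∀ d, M.lf d ≠ T → M.rf d ≠ T → (∀ i, ¬ S.Dp i u d) → (∀ i, ¬ S.Dp i u (M.rev d)) →
        g (M.lf d) = g (M.rf d)) ∧ (∀ i d, S.Dp i u d → g (M.lf d) = i + 1 ∧ g (M.rf d) = i + 2) ∧
      (∀ j, ¬ M.Inc u T → g (M.rf (a j)) = j + 2) ∧ ∀ j, u = M.tl (a j) → ∀ f, g f = j := fun u => by
    by_cases hu : M.Inc u T
    · obtain ⟨j, hj⟩ := (h.tri.all u).1 hu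
      refine ⟨fun _ => j, fun _ _ _ _ _ => rfl, fun i d k => ?_, fun _ n => absurd hu n,
        fun i e _ => h.tri.inj (hj.trans e)⟩
      exact absurd ((k.2.1.cases.resolve_right fun q => q.1 hu) ▸ hu) k.1
    · obtain ⟨g, a1, a2, a3⟩ := chi_in h S hu
      exact ⟨g, a1, a2, fun j _ => a3 j, fun j e => absurd (e ▸ h.tri.inc j) hu⟩
  choose χ a1 a2 a3 a4 using this
  exact ⟨χ, a1, a2, a3, fun j => a4 _ j rfl⟩

end Pool.Agent.Lib.MP_d5dfc1_co.Gm
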