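import Pool.Agent.Lib.MP_d5dfc1_co.GmLift

/-! Lower bound for the corner areas of a Tutte drawing. -/

namespace Pool.Agent.Lib.MP_d5dfc1_co.Gm

open Finset Ex

lemma det_two {x y z : V3} (hx : x 0 + x 1 + x 2 = 1) (hy : y 0 + y 1 + y 2 = 1)
    (hz : z 0 + z 1 + z 2 = 1) :
    det3 x y z = (y 0 - x 0) * (z 1 - x 1) - (y 1 - x 1) * (z 0 - x 0) := by
  have a : x 2 = 1 - x 0 - x 1 := by linarith
  have b : y 2 = 1 - y 0 - y 1 := by linarith
  have c : z 2 = 1 - z 0 - z 1 := by linarith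
  rw [det3, a, b, c]; ring

/-- two points in the cone of a corner -/
lemma cone_area {a0 a1 b0 b1 x0 x1 y0 y1 u0 u1 m K : ℝ} (c : 0 < a0 * b1 - a1 * b0) (m0 : 0 < m)
    (xa : 0 ≤ a0 * x1 - a1 * x0) (xb : 0 ≤ x0 * b1 - x1 * b0) (ya : 0 ≤ a0 * y1 - a1 * y0)
    (yb : 0 ≤ y0 * b1 - y1 * b0) (ma : m ≤ u0 * a0 + u1 * a1) (mb : m ≤ u0 * b0 + u1 * b1)
    (kx : u0 * x0 + u1 * x1 ≤ K) (ky : u0 * y0 + u1 * y1 ≤ K) :
    (x0 * y1 - x1 * y0) * m ^ 2 ≤ K ^ 2 * (a0 * b1 - a1 * b0) := by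
  have h1 : (x0 * b1 - x1 * b0) * m ≤ (a0 * b1 - a1 * b0) * K := by
    have e := mul_le_mul_of_nonneg_left kx c.le
    have f := mul_le_mul_of_nonneg_left ma xb
    have g := mul_nonneg xa (m0.le.trans mb)
    linarith
  have h2 : (a0 * y1 - a1 * y0) * m ≤ (a0 * b1 - a1 * b0) * K := by
    have e := mul_le_mul_of_nonneg_left ky c.le
    have f := mul_le_mul_of_nonneg_left mb ya
    have g := mul_nonneg yb (m0.le.trans ma)
    linarith
  have h3 := mul_le_mul h1 h2 (mul_nonneg ya m0.le) ((mul_nonneg xb m0.le).trans h1)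
  have h4 := mul_nonneg (mul_nonneg xa yb) (sq_nonneg m)
  refine le_of_mul_le_mul_left ?_ c
  linarith

/-- a vector outside the open cone of an almost flat corner -/
lemma out_cone {a0 a1 b0 b1 z0 z1 m K : ℝ} (c : 0 < a0 * b1 - a1 * b0) (m0 : 0 < m)
    (ma : m ≤ (a0 - b0) * a0 + (a1 - b1) * a1) (mb : (a0 - b0) * b0 + (a1 - b1) * b1 ≤ -m)
    (k : |(a0 - b0) * z0 + (a1 - b1) * z1| ≤ K)
    (h : z0 * b1 - z1 * b0 ≤ 0 ∨ a0 * z1 - a1 * z0 ≤ 0) :
    m * ((a0 - b0) * z1 - (a1 - b1) * z0) ≤ K * (a0 * b1 - a1 * b0) := by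
  obtain ⟨k1, k2⟩ := abs_le.1 k
  have e1 := mul_le_mul_of_nonneg_left k1 c.le
  have e2 := mul_le_mul_of_nonneg_left k2 c.le
  have K0 : 0 ≤ K * (a0 * b1 - a1 * b0) := mul_nonneg ((abs_nonneg _).trans k) c.le
  rcases le_total (z0 * b1 - z1 * b0) 0 with p | p <;> rcases le_total (a0 * z1 - a1 * z0) 0 with q | q
  · have := mul_nonneg m0.le (neg_nonneg.2 p)
    have := mul_nonneg m0.le (neg_nonneg.2 q)
    linarith
  · have := mul_nonneg m0.le (neg_nonneg.2 p)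
    have := mul_le_mul_of_nonneg_left mb q
    have := mul_nonneg (neg_nonneg.2 p) (m0.le.trans ma)
    linarith
  · have := mul_nonneg m0.le (neg_nonneg.2 q)
    have := mul_le_mul_of_nonneg_left ma p
    have := mul_nonneg (neg_nonneg.2 q) (neg_nonneg.2 (mb.trans (neg_nonpos.2 m0.le)))
    linarith
  · rcases h with h | h
    · have e := le_antisymm h p
      have := mul_le_mul_of_nonneg_left mb q
      have e3 : m * (z0 * b1 - z1 * b0) = 0 := by rw [e, mul_zero]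
      have e4 : (z0 * b1 - z1 * b0) * ((a0 - b0) * a0 + (a1 - b1) * a1) = 0 := by rw [e, zero_mul]
      linarith
    · have e := le_antisymm h q
      have := mul_le_mul_of_nonneg_left ma p
      have e3 : m * (a0 * z1 - a1 * z0) = 0 := by rw [e, mul_zero]
      have e4 : (a0 * z1 - a1 * z0) * ((a0 - b0) * b0 + (a1 - b1) * b1) = 0 := by rw [e, zero_mul]
      linarith

variable {V F D : Type} [Fintype D] [DecidableEq V] {M : PM V F D}

/-- edge vector -/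
def ev (M : PM V F D) (r : V → V3) (g : D) (k : Fin 3) : ℝ := r (M.hd g) k - r (M.tl g) k

/-- area of the corner between `g` and the next dart around the tail -/
def crn (M : PM V F D) (r : V → V3) (g : D) : ℝ :=
  ev M r g 0 * ev M r (M.sg g) 1 - ev M r g 1 * ev M r (M.sg g) 0

/-- an almost flat corner at a vertex in equilibrium -/
lemma flat_corner {r : V → V3} {w : D → ℝ} {Y : ℝ} {e : D} (Y0 : 0 < Y) (Y2 : Y ≤ 1 / 2)
    (w1 : ∀ d, Y ≤ w d ∧ Y * w d ≤ 1) (hD : Y * Fintype.card D ≤ 1)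
    (bd : ∀ x y k, |r x k - r y k| ≤ 1)
    (eq : ∀ k, ∑ g with M.tl g = M.tl e, w g * ev M r g k = 0)
    (len : ∀ g, Y ^ 3 ≤ ev M r g 0 ^ 2 + ev M r g 1 ^ 2)
    (pos : ∀ g, M.tl g = M.tl e → 0 < crn M r g)
    (S : ∀ g, M.tl g = M.tl e → ∀ u0 u1 m : ℝ, 0 < m → |u0| ≤ 1 → |u1| ≤ 1 →
      m ≤ u0 * ev M r g 0 + u1 * ev M r g 1 →
      m ≤ u0 * ev M r (M.sg g) 0 + u1 * ev M r (M.sg g) 1 → Y * m ^ 2 ≤ 4 * crn M r g)
    (oc : ∀ g, M.tl g = M.tl e →
      ev M r g 0 * ev M r (M.sg e) 1 - ev M r g 1 * ev M r (M.sg e) 0 ≤ 0 ∨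
      ev M r e 0 * ev M r g 1 - ev M r e 1 * ev M r g 0 ≤ 0)
    (ob : ev M r e 0 * ev M r (M.sg e) 0 + ev M r e 1 * ev M r (M.sg e) 1 ≤ 0) :
    Y ^ 40 ≤ crn M r e := by
  by_contra hc
  rw [not_le] at hc
  have c0 := pos e rfl
  have Y1 : Y ≤ 1 := by linarith
  have bu : ∀ k, |ev M r e k - ev M r (M.sg e) k| ≤ 1 := fun k => by
    have := bd (M.hd e) (M.hd (M.sg e)) k
    simp only [ev, PM.tl_sg']
    rwa [sub_sub_sub_cancel_right]
  have be : ∀ g k, |ev M r g k| ≤ 1 := fun g k => bd _ _ _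
  have la := len e
  have lb := len (M.sg e)
  have Y3 := pow_pos Y0 3
  obtain ⟨u0, hu0⟩ : ∃ u0, u0 = ev M r e 0 - ev M r (M.sg e) 0 := ⟨_, rfl⟩
  obtain ⟨u1, hu1⟩ : ∃ u1, u1 = ev M r e 1 - ev M r (M.sg e) 1 := ⟨_, rfl⟩
  have b0 : |u0| ≤ 1 := hu0 ▸ bu 0
  have b1 : |u1| ≤ 1 := hu1 ▸ bu 1
  have uu : Y ^ 3 ≤ u0 ^ 2 + u1 ^ 2 := by rw [hu0, hu1]; linarith
  obtain ⟨μ, hμ⟩ : ∃ μ : D → ℝ, ∀ g, μ g = u0 * ev M r g 0 + u1 * ev M r g 1 := ⟨_, fun _ => rfl⟩
  obtain ⟨l, hl⟩ : ∃ l : D → ℝ, ∀ g, l g = u0 * ev M r g 1 - u1 * ev M r g 0 := ⟨_, fun _ => rfl⟩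
  have bμ : ∀ g, |μ g| ≤ 2 := fun g => by
    rw [hμ]
    refine (abs_add_le _ _).trans ?_
    rw [abs_mul, abs_mul]
    linarith [mul_le_one₀ b0 (abs_nonneg _) (be g 0), mul_le_one₀ b1 (abs_nonneg _) (be g 1)]
  have up : ∀ g, M.tl g = M.tl e → Y ^ 3 * l g ≤ 2 * crn M r e := fun g hg => by
    have := bμ g
    rw [hμ, hu0, hu1] at this
    rw [hl, hu0, hu1]
    exact out_cone c0 Y3 (by linarith) (by linarith) this (oc g hg)
  have w0 : ∀ g, 0 ≤ w g := fun g => Y0.le.trans (w1 g).1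
  have W : Y * (Y * ∑ g with M.tl g = M.tl e, w g) ≤ 1 := by
    rw [mul_sum]
    refine le_trans (mul_le_mul_of_nonneg_left ?_ Y0.le) hD
    refine (sum_le_card_nsmul _ _ 1 fun g _ => (w1 g).2).trans ?_
    rw [nsmul_eq_mul, mul_one]
    exact_mod_cast card_le_univ _
  have tot : ∑ g with M.tl g = M.tl e, w g * (2 * crn M r e - Y ^ 3 * l g)
      = 2 * crn M r e * ∑ g with M.tl g = M.tl e, w g := by
    have : ∀ g, w g * (2 * crn M r e - Y ^ 3 * l g) = 2 * crn M r e * w g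
        - Y ^ 3 * u0 * (w g * ev M r g 1) + Y ^ 3 * u1 * (w g * ev M r g 0) := fun g => by
      rw [hl]; ring
    simp only [this, sum_add_distrib, sum_sub_distrib, ← mul_sum, eq, mul_zero, sub_zero, add_zero]
  have bl : ∀ g, M.tl g = M.tl e → |l g| ≤ Y ^ 33 := fun g hg => by
    have t := single_le_sum (f := fun g => w g * (2 * crn M r e - Y ^ 3 * l g))
      (s := univ.filter fun g => M.tl g = M.tl e)
      (fun g hg => mul_nonneg (w0 g) (sub_nonneg.2 (up g (mem_filter.1 hg).2)))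
      (mem_filter.2 ⟨mem_univ g, hg⟩)
    rw [tot] at t
    have t1 := (mul_le_mul_of_nonneg_right (w1 g).1 (sub_nonneg.2 (up g hg))).trans t
    have t2 := mul_le_mul_of_nonneg_left t1 (mul_pos Y0 Y0).le
    have t3 := mul_le_mul_of_nonneg_left W c0.le
    have t4 := mul_pos Y3 c0
    have t5 := mul_le_mul_of_nonneg_left (up g hg) Y3.le
    have t6 := mul_le_mul_of_nonneg_right (pow_le_one₀ Y0.le Y1 (n := 3)) c0.le
    have t7 := mul_le_mul_of_nonneg_left Y2 (pow_pos Y0 39).le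
    have Y6 := pow_pos Y0 6
    rw [abs_le]
    constructor
    · refine le_of_mul_le_mul_left ?_ Y6
      linarith
    · refine le_of_mul_le_mul_left ?_ Y6
      linarith
  have Y8 : Y ^ 8 + Y ^ 66 ≤ Y ^ 6 := by
    have t1 : Y ^ 66 ≤ Y ^ 8 := pow_le_pow_of_le_one Y0.le Y1 (by norm_num)
    have t2 : Y ^ 2 ≤ (1 / 2) ^ 2 := pow_le_pow_left₀ Y0.le Y2 2
    have t3 := mul_le_mul_of_nonneg_left t2 (pow_pos Y0 6).le
    have := pow_pos Y0 6
    linarith
  have lo : ∀ g, M.tl g = M.tl e → Y ^ 4 ≤ |μ g| := fun g hg => by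
    refine abs_le_of_sq_le_sq' ?_ (abs_nonneg _) |>.2
    rw [sq_abs]
    have t1 : μ g ^ 2 + l g ^ 2 = (u0 ^ 2 + u1 ^ 2) * (ev M r g 0 ^ 2 + ev M r g 1 ^ 2) := by
      rw [hμ, hl]; ring
    have t2 := mul_le_mul uu (len g) Y3.le (by positivity)
    have t3 := pow_le_pow_left₀ (abs_nonneg _) (bl g hg) 2
    rw [sq_abs] at t3
    linarith
  have id : ∀ g, (u0 ^ 2 + u1 ^ 2) * crn M r g = μ g * l (M.sg g) - l g * μ (M.sg g) := fun g => by
    rw [hμ, hμ, hl, hl, crn]; ring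
  have small : ∀ g, M.tl g = M.tl e → ¬ Y * (Y ^ 4) ^ 2 ≤ 4 * crn M r g := fun g hg k => by
    have t1 := mul_le_mul_of_nonneg_right uu (pos g hg).le
    have t2 : |μ g * l (M.sg g)| ≤ 2 * Y ^ 33 := by
      rw [abs_mul]
      exact mul_le_mul (bμ g) (bl _ (by simpa using hg)) (abs_nonneg _) zero_le_two
    have t3 : |l g * μ (M.sg g)| ≤ Y ^ 33 * 2 := by
      rw [abs_mul]
      exact mul_le_mul (bl g hg) (bμ _) (abs_nonneg _) (by positivity)
    have t4 := (abs_le.1 t2).2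
    have t5 := (abs_le.1 t3).1
    have t6 := mul_le_mul_of_nonneg_left k Y3.le
    have t7 : Y ^ 21 ≤ (1 / 2) ^ 21 := pow_le_pow_left₀ Y0.le Y2 21
    have t8 := mul_le_mul_of_nonneg_left t7 (pow_pos Y0 12).le
    have := pow_pos Y0 12
    rw [id] at t1
    linarith
  have Y4 := pow_pos Y0 4
  have opp : ∀ g, M.tl g = M.tl e → μ g * μ (M.sg g) < 0 := fun g hg => by
    have t1 := lo g hg
    have t2 := lo (M.sg g) (by simpa using hg)
    rcases le_total 0 (μ g) with p | p <;> rcases le_total 0 (μ (M.sg g)) with q | q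
    · rw [abs_of_nonneg p, hμ] at t1
      rw [abs_of_nonneg q, hμ] at t2
      exact absurd (S g hg u0 u1 _ Y4 b0 b1 t1 t2) (small g hg)
    · rw [abs_of_nonneg p] at t1
      rw [abs_of_nonpos q] at t2
      exact mul_neg_of_pos_of_neg (by linarith) (by linarith)
    · rw [abs_of_nonpos p] at t1
      rw [abs_of_nonneg q] at t2
      exact mul_neg_of_neg_of_pos (by linarith) (by linarith)
    · rw [abs_of_nonpos p, hμ] at t1
      rw [abs_of_nonpos q, hμ] at t2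
      exact absurd (S g hg (-u0) (-u1) _ Y4 (by rwa [abs_neg]) (by rwa [abs_neg]) (by linarith)
        (by linarith)) (small g hg)
  have lt : ∀ g, M.tl g = M.tl e → l (M.sg g) / μ (M.sg g) < l g / μ g := fun g hg => by
    have t1 := opp g hg
    have t2 := mul_pos (Y3.trans_le uu) (pos g hg)
    rw [id] at t2
    have n1 : μ g ≠ 0 := fun z => by simp [z] at t1
    have n2 : μ (M.sg g) ≠ 0 := fun z => by simp [z] at t1
    rw [← sub_neg, div_sub_div _ _ n2 n1]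
    exact div_neg_of_pos_of_neg (by linarith) (by linarith)
  have := sum_lt_sum_of_nonempty (s := univ.filter fun g => M.tl g = M.tl e)
    ⟨e, mem_filter.2 ⟨mem_univ e, rfl⟩⟩ fun g hg => lt g (mem_filter.1 hg).2
  rw [M.sum_sg (M.tl e) fun g => l g / μ g] at this
  exact lt_irrefl _ this

variable [Fintype V] {T : F} {a : Fin 3 → D} {w : D → ℝ} {κ : V → Fin 3} [Fintype F] [DecidableEq F]
  {p : V → V3} {n : F → V3} {cc : F → ℝ}

theorem corner_area (st : Strict M p n cc) (h : Base M T a) (hw : SP M w)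
    (hκ : ∀ j, κ (M.tl (a j)) = j) {r : V → V3} (hr : Sol M w {x | M.Inc x T} κ r) {X : ℝ}
    (X2 : 2 ≤ X) (w1 : ∀ d, X⁻¹ ≤ w d ∧ w d ≤ X) (hD : (Fintype.card D : ℝ) ≤ X)
    (hA : ∀ d, M.lf d ≠ T → ∃ e, M.lf e = M.lf d ∧ X⁻¹ ≤ ar M r e (M.tl d))
    (hE : ∀ d, M.lf d ≠ T → M.rf d ≠ T → ∃ e z, (e = d ∨ e = M.rev d) ∧ X⁻¹ ≤ ar M r e z)
    {d : D} (hd : M.lf d ≠ T) : (X ^ 40)⁻¹ ≤ ar M r d (M.hd (M.nx d)) := by
  obtain ⟨Q, z, -, s1, nn, -, s, -⟩ := exQ st h hw hκ hr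
  have hT := h.tri
  have X0 : 0 < X := by linarith
  rw [← inv_pow]
  have YX : X⁻¹ * X = 1 := inv_mul_cancel₀ X0.ne'
  have Y0 : 0 < X⁻¹ := inv_pos.2 X0
  generalize X⁻¹ = Y at *
  have Y2 : Y ≤ 1 / 2 := by nlinarith
  have Y1 : Y ≤ 1 := by linarith
  have r1 : ∀ j k, r (M.tl (a j)) k = if k = j then 1 else 0 := fun j k => by
    rw [hr.1 _ (hT.inc j), hκ]
  have le1 : ∀ x k, r x k ≤ 1 := fun x k => by
    have n0 := nn x 0; have n1 := nn x 1; have n2 := nn x 2; have n3 := s1 x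
    fin_cases k
    exacts [show r x 0 ≤ 1 by linarith, show r x 1 ≤ 1 by linarith, show r x 2 ≤ 1 by linarith]
  have bd : ∀ x y k, |r x k - r y k| ≤ 1 := fun x y k => by
    rw [abs_le]
    constructor <;> linarith [nn x k, nn y k, le1 x k, le1 y k]
  have a1 : ∀ g y, ar M r (M.rev g) y
      = ev M r g 0 * (r y 1 - r (M.tl g) 1) - ev M r g 1 * (r y 0 - r (M.tl g) 0) := fun g y => by
    rw [ar, PM.hd_rev, PM.tl_rev, det_two (s1 _) (s1 _) (s1 _), ev, ev]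
  have a2 : ∀ g y, ar M r g y
      = (r y 0 - r (M.tl g) 0) * ev M r g 1 - (r y 1 - r (M.tl g) 1) * ev M r g 0 := fun g y => by
    rw [ar, det_two (s1 _) (s1 _) (s1 _), ev, ev]; ring
  have a3 : ∀ g, ar M r (M.rev g) (M.hd (M.sg g)) = crn M r g := fun g => by
    rw [a1, crn]; simp only [ev, PM.tl_sg']
  have pos0 : ∀ g y, M.lf g ≠ T → M.Inc y (M.lf g) → 0 ≤ ar M r g y := fun g y hg i => by
    by_cases e1 : y = M.tl g
    · rw [a2, e1]; simp
    by_cases e2 : y = M.hd g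
    · rw [a2, e2, ev, ev]; exact le_of_eq (by ring)
    exact (tutte_pos st h hw hκ hr hg i e1 e2).le
  have pos : ∀ g, M.rf g ≠ T → 0 < crn M r g := fun g hg => by
    rw [← a3]
    exact tutte_pos st h hw hκ hr hg (by simpa using M.inc_hd_lf (M.sg g)) (M.hd_sg_ne g)
      (by simpa using M.hd_ne (M.sg g))
  have rv : ∀ g k, |ev M r (M.rev g) k| = |ev M r g k| := fun g k => by
    rw [ev, ev, PM.hd_rev, PM.tl_rev, abs_sub_comm]
  have lo : ∀ j, Y ≤ |ev M r (a j) 0| + |ev M r (a j) 1| := fun j => by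
    refine Y1.trans ?_
    rw [ev, ev, hT.hd]
    fin_cases j <;> simp [r1]
  have li : ∀ g y, ar M r g y ≤ |ev M r g 0| + |ev M r g 1| := fun g y => by
    rw [a2]
    have t1 := le_abs_self ((r y 0 - r (M.tl g) 0) * ev M r g 1)
    have t2 := neg_abs_le ((r y 1 - r (M.tl g) 1) * ev M r g 0)
    rw [abs_mul] at t1 t2
    have t3 := mul_le_mul_of_nonneg_right (bd y (M.tl g) 0) (abs_nonneg (ev M r g 1))
    have t4 := mul_le_mul_of_nonneg_right (bd y (M.tl g) 1) (abs_nonneg (ev M r g 0))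
    linarith
  have l1 : ∀ g, Y ≤ |ev M r g 0| + |ev M r g 1| := fun g => by
    by_cases e1 : M.lf g = T
    · obtain ⟨j, rfl⟩ := out_dart hT e1
      exact lo j
    by_cases e2 : M.rf g = T
    · obtain ⟨j, hj⟩ := out_dart hT (d := M.rev g) e2
      rw [← rv g 0, ← rv g 1, hj]
      exact lo j
    obtain ⟨e, y, rfl | rfl, k⟩ := hE g e1 e2
    · exact k.trans (li _ _)
    · rw [← rv g 0, ← rv g 1]
      exact k.trans (li _ _)
  have len : ∀ g, Y ^ 3 ≤ ev M r g 0 ^ 2 + ev M r g 1 ^ 2 := fun g => by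
    have t1 := pow_le_pow_left₀ Y0.le (l1 g) 2
    have t2 := sq_nonneg (|ev M r g 0| - |ev M r g 1|)
    have t3 := mul_le_mul_of_nonneg_left Y2 (sq_nonneg Y)
    rw [← sq_abs (ev M r g 0), ← sq_abs (ev M r g 1)]
    linarith
  have S : ∀ g, M.rf g ≠ T → ∀ u0 u1 m K : ℝ, 0 < m →
      (∀ x y, u0 * (r x 0 - r y 0) + u1 * (r x 1 - r y 1) ≤ K) →
      m ≤ u0 * ev M r g 0 + u1 * ev M r g 1 →
      m ≤ u0 * ev M r (M.sg g) 0 + u1 * ev M r (M.sg g) 1 → Y * m ^ 2 ≤ K ^ 2 * crn M r g :=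
    fun g hg u0 u1 m K m0 hK ma mb => by
      have hg' : M.lf (M.sg g) ≠ T := by simpa using hg
      obtain ⟨e, he, k⟩ := hA (M.sg g) hg'
      have i1 : M.Inc (M.hd e) (M.lf (M.sg g)) := he ▸ M.inc_hd_lf e
      have i2 : M.Inc (M.tl e) (M.lf (M.sg g)) := he ▸ M.inc_tl_lf e
      have xa := pos0 (M.rev g) _ hg (by simpa using i1)
      have ya := pos0 (M.rev g) _ hg (by simpa using i2)
      have xb := pos0 _ _ hg' i1
      have yb := pos0 _ _ hg' i2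
      rw [a1] at xa ya
      rw [a2, PM.tl_sg'] at xb yb
      refine le_trans (mul_le_mul_of_nonneg_right (k.trans_eq ?_) (sq_nonneg m))
        (cone_area (pos g hg) m0 xa xb ya yb ma mb (hK _ _) (hK _ _))
      rw [a2, PM.tl_sg', ev, ev]; ring
  have bK : ∀ u0 u1 c : ℝ, |u0| ≤ c → |u1| ≤ c → ∀ x y,
      u0 * (r x 0 - r y 0) + u1 * (r x 1 - r y 1) ≤ 2 * c := fun u0 u1 c h0 h1 x y => by
    have t1 := le_abs_self (u0 * (r x 0 - r y 0))
    have t2 := le_abs_self (u1 * (r x 1 - r y 1))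
    rw [abs_mul] at t1 t2
    have t3 := mul_le_mul_of_nonneg_left (bd x y 0) (abs_nonneg u0)
    have t4 := mul_le_mul_of_nonneg_left (bd x y 1) (abs_nonneg u1)
    linarith
  have fin : ∀ (c : ℝ) (k : ℕ), k ≤ 36 → Y ^ k ≤ 4 ^ 2 * c → Y ^ 40 ≤ c := fun c k hk t => by
    have t1 : Y ^ 36 ≤ Y ^ k := pow_le_pow_of_le_one Y0.le Y1 hk
    have t2 : Y ^ 4 ≤ (1 / 2) ^ 4 := pow_le_pow_left₀ Y0.le Y2 4
    have t3 := mul_le_mul_of_nonneg_left t2 (pow_pos Y0 36).le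
    linarith
  rw [show ar M r d (M.hd (M.nx d)) = crn M r (M.rev d) by rw [← a3, M.rr, sg_rev]]
  have he : M.rf (M.rev d) ≠ T := by simpa using hd
  generalize M.rev d = e at he ⊢
  by_cases out : M.Inc (M.tl e) T
  · obtain ⟨j, hj⟩ := (hT.all _).1 out
    have key : ∃ u0 u1 : ℝ, |u0| ≤ 2 ∧ |u1| ≤ 2 ∧ ∀ g, M.tl g = M.tl e →
        |ev M r g 0| + |ev M r g 1| ≤ u0 * ev M r g 0 + u1 * ev M r g 1 := by
      have t : ∀ g, M.tl g = M.tl e → ∀ k, ev M r g k = r (M.hd g) k - if k = j then 1 else 0 :=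
        fun g hg k => by rw [ev, hg, ← hj, r1]
      fin_cases j
      · refine ⟨-2, 0, by simp, by simp, fun g hg => ?_⟩
        rw [t g hg, t g hg]
        simp only [Fin.zero_eta, Fin.isValue, if_true, one_ne_zero, if_false, sub_zero]
        rw [abs_of_nonpos (sub_nonpos.2 (le1 _ _)), abs_of_nonneg (nn _ _)]
        linarith [s1 (M.hd g), nn (M.hd g) 2]
      · refine ⟨0, -2, by simp, by simp, fun g hg => ?_⟩
        rw [t g hg, t g hg]
        simp only [Fin.mk_one, Fin.isValue, if_true, zero_ne_one, if_false, sub_zero]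
        rw [abs_of_nonpos (sub_nonpos.2 (le1 _ 1)), abs_of_nonneg (nn _ _)]
        linarith [s1 (M.hd g), nn (M.hd g) 2]
      · refine ⟨1, 1, by simp, by simp, fun g hg => ?_⟩
        rw [t g hg, t g hg, if_neg (by decide), if_neg (by decide), sub_zero, sub_zero,
          abs_of_nonneg (nn _ _), abs_of_nonneg (nn _ _)]
        linarith
    obtain ⟨u0, u1, h0, h1, k⟩ := key
    have := S e he u0 u1 Y _ Y0 (bK u0 u1 2 h0 h1) ((l1 _).trans (k e rfl))
      ((l1 _).trans (k _ (by simp)))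
    exact fin _ 3 (by norm_num) (by linarith)
  have nf : ∀ g, M.tl g = M.tl e → M.lf g ≠ T ∧ M.rf g ≠ T := fun g hg =>
    ⟨inn_lf (hg ▸ out), inn_rf (hg ▸ out)⟩
  rcases le_total (ev M r e 0 * ev M r (M.sg e) 0 + ev M r e 1 * ev M r (M.sg e) 1) 0 with ob | ob
  · refine flat_corner (w := w) Y0 Y2
      (fun g => ⟨(w1 g).1, (mul_le_mul_of_nonneg_left (w1 g).2 Y0.le).trans_eq YX⟩)
      ((mul_le_mul_of_nonneg_left hD Y0.le).trans_eq YX) bd (fun k => ?_) len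
      (fun g hg => pos g (nf g hg).2) (fun g hg u0 u1 m m0 h0 h1 ma mb => ?_) (fun g hg => ?_) ob
    · rw [← hr.2 k _ out]
      exact sum_congr rfl fun g hg => by rw [ev, (mem_filter.1 hg).2]
    · have := S g (nf g hg).2 u0 u1 m _ m0 (bK u0 u1 1 h0 h1) ma mb
      linarith
    by_cases i : M.Inc (M.hd g) (M.rf e)
    · rcases h.ef g _ (hg ▸ M.inc_tl_rf e) i with k | k
      · rw [M.uniq g (M.sg e) (by simpa using hg) (by simpa using k.symm)]
        exact Or.inl (le_of_eq (by ring))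
      · rw [M.sg.injective (M.uniq (M.sg g) (M.sg e) (by simpa using hg) (by simpa using k.symm))]
        exact Or.inr (le_of_eq (by ring))
    by_contra k
    rw [not_or, not_le, not_le] at k
    have ψ : ∀ x, dot (r x) (Q (M.lf g)) - dot (r x) (Q (M.rf e))
        = (Q (M.lf g) 0 - Q (M.rf e) 0 - (Q (M.lf g) 2 - Q (M.rf e) 2)) * (r x 0 - r (M.tl e) 0)
          + (Q (M.lf g) 1 - Q (M.rf e) 1 - (Q (M.lf g) 2 - Q (M.rf e) 2)) * (r x 1 - r (M.tl e) 1) :=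
      fun x => by
        have t := (z_loc s1 s (hg ▸ M.inc_tl_lf g)).symm.trans (z_loc s1 s (M.inc_tl_rf e))
        simp only [dot] at t ⊢
        linear_combination t + (Q (M.lf g) 2 - Q (M.rf e) 2) * (s1 x - s1 (M.tl e))
    have t1 := s.le (M.hd e) (M.lf g)
    have t2 := s.le (M.hd (M.sg e)) (M.lf g)
    have t3 := s.2 _ _ i
    rw [slackA (s1 _), sA, if_neg (nf g hg).1, one_mul] at t1 t2
    rw [slackA (s1 _), sA, if_neg he, one_mul, z_loc s1 s (M.inc_hd_lf g), ψ] at t3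
    rw [z_loc s1 s (M.inc_hd_rf e), ← neg_sub, ψ] at t1
    rw [z_loc s1 s (M.lf_sg' e ▸ M.inc_hd_lf (M.sg e)), ← neg_sub, ψ] at t2
    have t4 := mul_pos (pos e he) t3
    have t5 := mul_nonneg k.1.le t1
    have t6 := mul_nonneg k.2.le t2
    simp only [crn, ev, PM.tl_sg', hg] at t4 t5 t6
    linarith
  · have be : ∀ g k, |ev M r g k| ≤ 1 := fun g k => bd _ _ _
    have bu : ∀ k, |ev M r e k + ev M r (M.sg e) k| ≤ 2 := fun k =>
      (abs_add_le _ _).trans (by linarith [be e k, be (M.sg e) k])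
    have := S e he _ _ (Y ^ 3) _ (pow_pos Y0 3) (bK _ _ 2 (bu 0) (bu 1))
      (by linarith [len e]) (by linarith [len (M.sg e)])
    exact fin _ 7 (by norm_num) (by linarith)

end Pool.Agent.Lib.MP_d5dfc1_co.Gm
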