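import Pool.Agent.Lib.MP_d5dfc1_co.GmDef

/-! The Tutte drawing with given weights lifts to a strictly convex surface. -/

namespace Pool.Agent.Lib.MP_d5dfc1_co.Gm

open Finset Ex

variable {V F D : Type} [Fintype D] [DecidableEq V] [Fintype V] {M : PM V F D} {T : F} {a : Fin 3 → D}
  {w : D → ℝ} {κ : V → Fin 3} [Fintype F] [DecidableEq F] {p : V → V3} {n : F → V3} {cc : F → ℝ}

omit [Fintype V] [Fintype F] [DecidableEq F] in
lemma Sol.eqm {B : Set V} {r : V → V3} (hr : Sol M w B κ r) (k : Fin 3) :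
    Eqm M M.tl (fun x => x ∉ B) w (fun x => ∑ d with M.tl d = x, w d) fun x => r x k := fun x q => by
  have := hr.2 k x q
  simp only [mul_sub, sum_sub_distrib, sub_eq_zero] at this
  rw [sum_mul]
  exact this

open Classical in
theorem exQ (st : Strict M p n cc) (h : Base M T a) (hw : SP M w)
    (hκ : ∀ j, κ (M.tl (a j)) = j) {R : V → V3} (hR : Sol M w {x | M.Inc x T} κ R) :
    ∃ (Q : F → V3) (z : V → ℝ), (∀ d, Q (M.rf d) - Q (M.lf d)
      = wsp M M.tl (fun x => M.Inc x T) w R d • cross (R (M.tl d)) (R (M.hd d))) ∧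
      (∀ x, R x 0 + R x 1 + R x 2 = 1) ∧ (∀ x k, 0 ≤ R x k) ∧
      (∀ x, ∃ f, f ≠ T ∧ z x = dot (R x) (Q f)) ∧
      Strict M (pA R z) (nA T Q) (cA T Q) ∧ Ori M (pA R z) (nA T Q) := by
  have hc := h.con
  have ef := h.ef
  have hT := h.tri
  obtain ⟨r0, z0, Q0, s0, t0, st0, ps0⟩ := startA st hT ef
  choose w0 wp0 hw0 using st0.ori hc ps0
  have nt : ¬ ¬ M.Inc (M.tl (a 0)) T := not_not.2 (hT.inc 0)
  have wp : ∀ s ∈ Set.Icc (0 : ℝ) 1, ∀ d, 0 < (1 - s) * w0 d + s * w d := fun s hs d => by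
    rcases hs.1.eq_or_lt with e | e
    · simpa [← e] using wp0 d
    · nlinarith [mul_nonneg (sub_nonneg.2 hs.2) (wp0 d).le, mul_pos e (hw.1 d)]
  obtain ⟨r, Q, cr, cQ, hr⟩ := netfam M M.tl (fun x => M.Inc x T) (fun s d => (1 - s) * w0 d + s * w d)
    (fun s x => ∑ d with M.tl d = x, ((1 - s) * w0 d + s * w d)) (by fun_prop) (by fun_prop) _ hT.all hT.inj
    (one_mul 1) (fun s d => by rw [st0.wsym hw0, hw.2]) (sp3 M _ _ a (fun _ => rfl) hT.hd) M.simple
    (fun s hs h b e => tutte_ker hc (wp s hs) e nt fun x q => b x (not_not.1 q)) M.rf M.lf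
    h.dex
  obtain ⟨fx, hfx, fT⟩ : ∃ fx : V → F, (∀ x, M.Inc x (fx x)) ∧ ∀ x, fx x ≠ T := by
    have : ∀ x, ∃ f, M.Inc x f ∧ f ≠ T := fun x => by
      obtain ⟨d, rfl⟩ := M.tl_surj x
      by_cases e : M.lf d = T
      exacts [⟨_, M.inc_tl_rf d, e ▸ M.rf_ne d⟩, ⟨_, M.inc_tl_lf d, e⟩]
    choose fx a b using this
    exact ⟨fx, a, b⟩
  have dc := dual_con M (fun f => f = T) (fun _ => True)
    (fun C hC u hu _ w _ => hc.all C (fun d => hC d trivial trivial) hu w)
    (fun d _ _ => by by_contra q; push Not at q; exact M.rf_ne d (q.2.trans q.1.symm))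
    (fun d e _ t _ b _ b' => M.sg.injective (M.uniq _ _ (by simpa) (by simp [b, b'])))
    (fun _ _ _ _ => trivial)
  have inn : ∀ (w : D → ℝ) (r : V → V3) d, M.lf d ≠ T → M.rf d ≠ T →
      wsp M M.tl (fun x => M.Inc x T) w r d = w d := fun w r d e1 e2 =>
    if_neg fun i => (ef d T i.1 i.2).elim (fun e => e1 e.symm) fun e => e2 e.symm
  have S := fun s hs => statA hc hT ef (wp s hs) (hr s hs).1 (hr s hs).2.1 (hr s hs).2.2
    (z := fun x => dot (r s x) (Q s (fx x))) hfx fun _ => rfl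
  have c1 : ∀ x k, ContinuousOn (fun s => r s x k) (Set.Icc 0 1) := fun x k =>
    continuousOn_pi.1 (continuousOn_pi.1 cr x) k
  have c2 : ∀ x k, ContinuousOn (fun s => Q s x k) (Set.Icc 0 1) := fun x k =>
    continuousOn_pi.1 (continuousOn_pi.1 cQ x) k
  have I0 : (0 : ℝ) ∈ Set.Icc (0 : ℝ) 1 := by simp
  have I1 : (1 : ℝ) ∈ Set.Icc (0 : ℝ) 1 := by simp
  have st1 := homot hc (fun s => pA (r s) fun x => dot (r s x) (Q s (fx x))) (fun s => nA T (Q s))
    (fun s => cA T (Q s)) (continuousOn_pi.2 fun x => continuousOn_pi.2 fun k => by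
      fin_cases k
      exacts [c1 _ _, c1 _ _, (((c1 _ _).mul (c2 _ _)).add ((c1 _ _).mul (c2 _ _))).add
        ((c1 _ _).mul (c2 _ _))])
    (continuousOn_pi.2 fun x => continuousOn_pi.2 fun k => continuousOn_const.mul (by
      fin_cases k
      exacts [(c2 _ _).sub (c2 _ _), (c2 _ _).sub (c2 _ _), continuousOn_const]))
    (continuousOn_pi.2 fun x => (continuousOn_const.mul (c2 _ _)).neg)
    (fun s hs => (S s hs).2.2.1) (fun s hs => (S s hs).2.2.2.1) (fun s hs => (S s hs).2.2.2.2) (by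
      have l0 : ∀ x f, M.Inc x f → z0 x = dot (r0 x) (Q0 f) := fun x f i => by
        have := st0.1 x f i
        rw [slackA (s0 x)] at this
        linear_combination sA T f * this - (z0 x - dot (r0 x) (Q0 f)) * sA_sq T f
      have q0 := fun d => oriA' (s0 _) (s0 _)
        ((l0 _ _ (M.inc_tl_rf d)).symm.trans (l0 _ _ (M.inc_tl_lf d))) (hw0 d)
      have e0 : r 0 = r0 := by
        ext x k
        refine sub_eq_zero.1 (congrFun (tutte_ker hc (wp 0 I0) (((hr 0 I0).2.1 k).sub M _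
          (k := fun x => r0 x k) fun x i => ?_) nt fun x q => ?_) x)
        · have e : ∀ k, k = 0 ∨ k = 1 → ∑ d with M.tl d = x, w0 d * (r0 (M.hd d) k - r0 x k) = 0 := by
            have f : ∀ d, M.tl d = x → M.lf d ≠ T ∧ M.rf d ≠ T := fun d t =>
              ⟨fun e => i (t ▸ e ▸ M.inc_tl_lf d), fun e => i (t ▸ e ▸ M.inc_tl_rf d)⟩
            rintro _ (rfl | rfl)
            · rw [← M.tele_v x fun f => Q0 f 1 - Q0 f 2]
              refine sum_congr rfl fun d hd => ?_
              have := congrFun (hw0 d) 0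
              simp [cr0, nA, pA, sA, f d (mem_filter.1 hd).2, (mem_filter.1 hd).2] at this
              linarith
            · rw [← M.tele_v x fun f => Q0 f 2 - Q0 f 0]
              refine sum_congr rfl fun d hd => ?_
              have := congrFun (hw0 d) 1
              simp [cr1, nA, pA, sA, f d (mem_filter.1 hd).2, (mem_filter.1 hd).2] at this
              linarith
          have e2 : ∑ d with M.tl d = x, w0 d * (r0 (M.hd d) k - r0 x k) = 0 := by
            fin_cases k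
            exacts [e _ (Or.inl rfl), e _ (Or.inr rfl), by
              rw [← neg_zero, ← add_zero 0, ← congrArg₂ (· + ·) (e _ (Or.inl rfl)) (e _ (Or.inr rfl)),
                ← sum_add_distrib, ← sum_neg_distrib]
              exact sum_congr rfl fun d _ => show w0 d * (r0 (M.hd d) 2 - r0 x 2) = _ by
                linear_combination w0 d * (s0 (M.hd d) - s0 x)]
          simpa [mul_sub, sum_mul, sub_eq_zero] using e2
        · obtain ⟨j, rfl⟩ := (hT.all x).1 (not_not.1 q)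
          rw [(hr 0 I0).1, t0, sub_self]
      have q1 := (hr 0 I0).2.2
      rw [e0] at q1 ⊢
      have ne : ∀ j, M.rf (a j) ≠ T := fun j => hT.lf j ▸ M.rf_ne _
      have m1 := fun f e => dc {f | Q 0 f - Q0 f = Q 0 (M.rf (a 0)) - Q0 (M.rf (a 0))}
        (fun f hf g f1 g1 ⟨d, d1, d2⟩ => by
          subst d1 d2
          have b1 := q1 d
          have b2 := q0 d
          rw [inn _ _ d f1 g1] at b1
          simp only [sA, if_neg f1, if_neg g1, one_mul, zero_mul, sub_zero, add_zero, PM.tl_rev] at b1 b2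
          refine Eq.trans ?_ hf
          linear_combination b1 - b2) _ rfl (ne 0) f e
      have m2 : ∀ f, Q 0 f - Q0 f = Q 0 (M.rf (a 0)) - Q0 (M.rf (a 0)) := fun f => by
        by_cases e : f = T
        · have b := fun j k => congrFun (q1 (a j)) k
          have b' := fun j k => congrFun (q0 (a j)) k
          have b2 := congrFun (m1 _ (ne 1)) 2
          have u0 := b 0 0; have u1 := b 0 1; have u2 := b 1 2
          have v0 := b' 0 0; have v1 := b' 0 1; have v2 := b' 1 2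
          simp [hT.lf, hT.hd, cr0, cr1, cr2, t0] at u0 u1 u2 v0 v1 v2 b2
          refine v3_ext ?_ ?_ ?_ <;> simp only [e, Pi.sub_apply] <;> linarith
        · exact m1 f e
      refine st0.of_slack fun x f => ⟨1, one_pos, ?_⟩
      rw [slackA (s0 x), slackA (s0 x), l0 x _ (hfx x), ← dot_sub, ← dot_sub, one_mul,
        show Q 0 (fx x) - Q 0 f = Q0 (fx x) - Q0 f by linear_combination m2 (fx x) - m2 f])
  obtain ⟨s1, nn, -, o1, -⟩ := S 1 I1
  obtain ⟨r1, r2, q1⟩ := hr 1 I1
  simp only [sub_self, zero_mul, zero_add, one_mul] at r2 q1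
  have e1 : r 1 = R := by
    ext x k
    refine sub_eq_zero.1 (congrFun (tutte_ker hc hw.1 ((r2 k).sub M _ (hR.eqm k)) nt fun x q => ?_) x)
    obtain ⟨j, rfl⟩ := (hT.all x).1 (not_not.1 q)
    rw [r1, hR.1 _ (hT.inc j), hκ, sub_self]
  rw [e1] at s1 nn o1 q1
  simp only [e1] at st1
  exact ⟨Q 1, _, q1, s1, nn, fun x => ⟨fx x, fT x, rfl⟩, st1, o1⟩

omit [Fintype D] [DecidableEq V] [Fintype V] [Fintype F] in
lemma z_loc {r : V → V3} {z : V → ℝ} {Q : F → V3} (s1 : ∀ x, r x 0 + r x 1 + r x 2 = 1)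
    (st : Strict M (pA r z) (nA T Q) (cA T Q)) {x : V} {f : F} (i : M.Inc x f) :
    z x = dot (r x) (Q f) := by
  have := st.1 x f i
  rw [slackA (s1 x)] at this
  linear_combination sA T f * this - (z x - dot (r x) (Q f)) * sA_sq T f

theorem tutte_pos (st : Strict M p n cc) (h : Base M T a) (hw : SP M w)
    (hκ : ∀ j, κ (M.tl (a j)) = j) {r : V → V3} (hr : Sol M w {x | M.Inc x T} κ r) {d : D} {z : V}
    (hd : M.lf d ≠ T) (hz : M.Inc z (M.lf d)) (z1 : z ≠ M.tl d) (z2 : z ≠ M.hd d) :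
    0 < ar M r d z := by
  obtain ⟨Q, y, -, s1, -, -, s, o⟩ := exQ st h hw hκ hr
  obtain ⟨ω, ω0, e⟩ := o d
  have q := oriA' (s1 _) (s1 _)
    ((z_loc s1 s (M.inc_tl_rf d)).symm.trans (z_loc s1 s (M.inc_tl_lf d))) e
  have k := s.2 z (M.rf d) fun i => (M.two' d hz i).elim z1 z2
  rw [slackA (s1 _), z_loc s1 s hz, ← dot_sub, ← neg_sub, dot_neg', q, dot_smul'] at k
  have e1 : sA T (M.lf d) = 1 := if_neg hd
  have e2 : dot (r z) (cross (r (M.tl d)) (r (M.hd d))) = - ar M r d z := by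
    simp only [ar, det3, dot, cr0, cr1, cr2]; ring
  rw [e1, e2] at k
  have e3 : 0 < ω * ar M r d z := by
    have := sA_sq T (M.rf d)
    refine k.trans_eq ?_
    linear_combination (ω * ar M r d z) * this
  exact (mul_pos_iff_of_pos_left ω0).1 e3

end Pool.Agent.Lib.MP_d5dfc1_co.Gm
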