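import Pool.Agent.Lib.MP_d5dfc1_co.SqNum

/-! Integer planes with integer intersection points along a degenerate order. -/

namespace Pool.Agent.Lib.MP_d5dfc1_co.Sq

open Finset

/-- congruent to a point of the moment curve -/
def Cg (M : ℤ) (x : Z3) (r : ℤ) : Prop :=
  x 0 ≡ 1 [ZMOD M] ∧ x 1 ≡ r [ZMOD M] ∧ x 2 ≡ r ^ 2 [ZMOD M]

lemma Cg.det {M r s t : ℤ} {x y z : Z3} (hx : Cg M x r) (hy : Cg M y s) (hz : Cg M z t) :
    zd x (zc y z) ≡ (s - r) * (t - r) * (t - s) [ZMOD M] := by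
  obtain ⟨a0, a1, a2⟩ := hx
  obtain ⟨b0, b1, b2⟩ := hy
  obtain ⟨c0, c1, c2⟩ := hz
  calc zd x (zc y z) = x 0 * (y 1 * z 2 - y 2 * z 1) + x 1 * (y 2 * z 0 - y 0 * z 2)
        + x 2 * (y 0 * z 1 - y 1 * z 0) := rfl
    _ ≡ 1 * (s * t ^ 2 - s ^ 2 * t) + r * (s ^ 2 * 1 - 1 * t ^ 2) + r ^ 2 * (1 * t - s * 1) [ZMOD M] := by
        gcongr
    _ = _ := by ring

lemma Cg.add {M r : ℤ} {m : ℕ} {b x : Z3} (h : Cg M b r) (d : M ∣ m)
    (e : ∀ k, ∃ t : ℤ, x k = b k + m * t) : Cg M x r := by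
  have : ∀ k, x k ≡ b k [ZMOD M] := fun k => by
    obtain ⟨t, ht⟩ := e k
    exact (Int.modEq_iff_dvd.2 (by rw [ht]; simpa using d.mul_right t)).symm
  exact ⟨(this 0).trans h.1, (this 1).trans h.2.1, (this 2).trans h.2.2⟩

lemma ne_of_cg {q : ℕ} {a b : ℤ} (h : a ≡ b [ZMOD q]) (n : ¬ (q : ℤ) ∣ b) : a ≠ 0 := fun e =>
  n (by simpa [e] using h.dvd)

lemma zc_bd {x y : Z3} {H : ℤ} (hx : ∀ k, |x k| ≤ H) (hy : ∀ k, |y k| ≤ H) (k : Fin 3) :
    |zc x y k| ≤ 2 * H ^ 2 := by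
  have : ∀ a b c d, |x a * y b - x c * y d| ≤ 2 * H ^ 2 := fun a b c d =>
    (abs_sub _ _).trans (by linarith [mul_bd (hx a) (hy b), mul_bd (hx c) (hy d), sq H])
  fin_cases k <;> exact this _ _ _ _

lemma zd_bd {x y : Z3} {A B : ℤ} (hx : ∀ k, |x k| ≤ A) (hy : ∀ k, |y k| ≤ B) :
    |zd x y| ≤ 3 * (A * B) :=
  (abs_add_three _ _ _).trans
    (by linarith [mul_bd (hx 0) (hy 0), mul_bd (hx 1) (hy 1), mul_bd (hx 2) (hy 2)])

lemma Prim.swap {m : ℕ} {x y : Z3} (h : Prim m (zc x y)) : Prim m (zc y x) := fun p l k =>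
  h p l ⟨by rw [← dvd_neg]; simpa [zc0, mul_comm] using k.1,
    by rw [← dvd_neg]; simpa [zc1, mul_comm] using k.2.1,
    by rw [← dvd_neg]; simpa [zc2, mul_comm] using k.2.2⟩

variable {ι : Type} [Fintype ι] [DecidableEq ι] (rk : ι → ℕ) (adj : ι → ι → Prop) [DecidableRel adj]

/-- earlier neighbours -/
def Low (i : ι) : Finset ι := {j | adj i j ∧ rk j < rk i}

/-- adjacent pairs of earlier neighbours -/
def Pr (i : ι) : Finset (ι × ι) :=
  {q ∈ Low rk adj i ×ˢ Low rk adj i | adj q.1 q.2 ∧ rk q.2 < rk q.1}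

variable {rk adj}

omit [DecidableEq ι] in
lemma mem_Low {i j : ι} : j ∈ Low rk adj i ↔ adj i j ∧ rk j < rk i := by simp [Low]

omit [DecidableEq ι] in
lemma mem_Pr {i : ι} {q : ι × ι} : q ∈ Pr rk adj i ↔
    (q.1 ∈ Low rk adj i ∧ q.2 ∈ Low rk adj i) ∧ adj q.1 q.2 ∧ rk q.2 < rk q.1 := by simp [Pr]

omit [DecidableEq ι] in
lemma card_Pr {K : ℕ} (deg : ∀ i, #(Low rk adj i) ≤ K) (i : ι) : #(Pr rk adj i) ≤ K * K :=
  (card_filter_le _ _).trans (by rw [card_product]; exact Nat.mul_le_mul (deg i) (deg i))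

lemma colour {K : ℕ} (inj : Function.Injective rk) (deg : ∀ i, #(Low rk adj i) ≤ K) :
    ∃ τ : ι → Fin (K + 1), ∀ i, ∀ j ∈ Low rk adj i, τ j ≠ τ i := by
  refine greedy rk inj (fun i τ => ∀ j ∈ Low rk adj i, τ j ≠ τ i) (fun i f g e h j hj => ?_)
    fun i f _ => ?_
  · rw [← e j (mem_Low.1 hj).2.le, ← e i le_rfl]; exact h j hj
  · obtain ⟨x, hx⟩ : ∃ x, x ∉ (Low rk adj i).image f := by
      by_contra n
      push Not at n
      have := card_le_card (show univ ⊆ (Low rk adj i).image f from fun x _ => n x)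
      have := card_image_le (s := Low rk adj i) (f := f)
      have := deg i
      simp only [card_univ, Fintype.card_fin] at *
      omega
    refine ⟨x, fun j hj => ?_⟩
    rw [Function.update_self, Function.update_of_ne (fun e => by
      have := (mem_Low.1 hj).2; rw [e] at this; omega)]
    exact fun e => hx (e ▸ mem_image_of_mem f hj)

theorem normals {K m P w q : ℕ} {H : ℤ} (inj : Function.Injective rk)
    (deg : ∀ i, #(Low rk adj i) ≤ K) (m0 : m ≠ 0) (hP : ∀ p, Lg m p → P ≤ p) (w0 : 0 < w)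
    (H1 : 1 ≤ H) (hH : 16 * H ^ 5 < (P : ℤ) ^ w)
    (cnt : (1 + K + K * K + K * K * (K * K)) * w < P) (b : ι → Z3)
    (hb : ∀ i k, |b i k| + m * P ≤ H) (qp : q.Prime) (qm : (q : ℤ) ∣ m) (σ : ι → ℤ)
    (σ0 : ∀ i, ¬ (q : ℤ) ∣ σ i) (σ1 : ∀ i j, i ≠ j → ¬ (q : ℤ) ∣ σ i - σ j)
    (cg : ∀ i, Cg q (b i) (σ i)) :
    ∃ n : ι → Z3, ∀ i, (∀ k, ∃ t : ℕ, t < P ∧ n i k = b i k + m * t) ∧ Good m (n i) ∧
      (∀ j ∈ Low rk adj i, Prim m (zc (n i) (n j))) ∧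
      ∀ x ∈ Pr rk adj i, ∀ y ∈ Pr rk adj i, x ≠ y → ∀ p, Lg m p →
        ¬ ((p : ℤ) ∣ zd (n i) (zc (n x.1) (n x.2)) ∧ (p : ℤ) ∣ zd (n i) (zc (n y.1) (n y.2))) := by
  have qz := Nat.prime_iff_prime_int.1 qp
  refine greedy rk inj (fun i (n : ι → Z3) => (∀ k, ∃ t : ℕ, t < P ∧ n i k = b i k + m * t) ∧ Good m (n i) ∧
      (∀ j ∈ Low rk adj i, Prim m (zc (n i) (n j))) ∧
      ∀ x ∈ Pr rk adj i, ∀ y ∈ Pr rk adj i, x ≠ y → ∀ p, Lg m p →
        ¬ ((p : ℤ) ∣ zd (n i) (zc (n x.1) (n x.2)) ∧ (p : ℤ) ∣ zd (n i) (zc (n y.1) (n y.2))))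
    (fun i f g e h => ?_) fun i f ih => ?_
  · have e' : ∀ j ∈ Low rk adj i, f j = g j := fun j hj => e j (mem_Low.1 hj).2.le
    rw [← e i le_rfl]
    refine ⟨h.1, h.2.1, fun j hj => e' j hj ▸ h.2.2.1 j hj, fun x hx y hy => ?_⟩
    rw [← e' _ (mem_Pr.1 hx).1.1, ← e' _ (mem_Pr.1 hx).1.2, ← e' _ (mem_Pr.1 hy).1.1,
      ← e' _ (mem_Pr.1 hy).1.2]
    exact h.2.2.2 x hx y hy
  have lt : ∀ j ∈ Low rk adj i, rk j < rk i := fun j hj => (mem_Low.1 hj).2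
  have ne : ∀ j ∈ Low rk adj i, j ≠ i := fun j hj e => by have := lt j hj; rw [e] at this; omega
  have fc : ∀ j ∈ Low rk adj i, Cg q (f j) (σ j) := fun j hj => (cg j).add qm fun k => by
    obtain ⟨t, -, e⟩ := (ih j (lt j hj)).1 k
    exact ⟨t, e⟩
  have fb : ∀ j ∈ Low rk adj i, ∀ k, |f j k| ≤ H := fun j hj k => by
    obtain ⟨t, ht, e⟩ := (ih j (lt j hj)).1 k
    have : |(m : ℤ) * t| ≤ m * P := by
      rw [abs_of_nonneg (by positivity)]
      exact mul_le_mul_of_nonneg_left (by exact_mod_cast ht.le) (by positivity)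
    rw [e]
    linarith [abs_add_le (b j k) (m * t), hb j k]
  have cr : ∀ {x y : Z3} {i j}, i ≠ j → x 1 ≡ σ i [ZMOD q] → x 2 ≡ σ i ^ 2 [ZMOD q] →
      Cg q y (σ j) → x 1 * y 2 - x 2 * y 1 ≠ 0 := fun {x y i j} n a1 a2 c =>
    ne_of_cg (q := q) (b := σ i * (σ j * (σ j - σ i))) (by
      obtain ⟨-, c1, c2⟩ := c
      calc _ ≡ σ i * σ j ^ 2 - σ i ^ 2 * σ j [ZMOD q] := by gcongr
        _ = _ := by ring) fun d => (qz.dvd_or_dvd d).elim (σ0 i) fun d =>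
          (qz.dvd_or_dvd d).elim (σ0 j) (σ1 j i n.symm)
  have ad : ∀ k (t : ℤ), b i k + m * t ≡ b i k [ZMOD q] := fun k t =>
    (Int.modEq_iff_dvd.2 (by simpa using qm.mul_right t)).symm
  have sq : ∀ j, ¬ (q : ℤ) ∣ σ j ^ 2 := fun j d => σ0 j (qz.dvd_of_dvd_pow d)
  have u0 : ∀ x ∈ Pr rk adj i, zc (f x.1) (f x.2) 0 ≠ 0 := fun x hx => by
    obtain ⟨⟨a1, a2⟩, -, a3⟩ := mem_Pr.1 hx
    exact cr (fun e => by rw [e] at a3; omega) (fc _ a1).2.1 (fc _ a1).2.2 (fc _ a2)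
  obtain ⟨x, h1, h2, h3, h4⟩ := pick (Low rk adj i) (Pr rk adj i) f (fun x => zc (f x.1) (f x.2)) (b i)
    m0 hP w0 H1 hH
    (lt_of_le_of_lt (Nat.mul_le_mul_right _ (by
      have := deg i; have := card_Pr deg i; have := Nat.mul_le_mul this this; omega)) cnt)
    (hb i) fb (fun x hx => zc_bd (fb _ (mem_Pr.1 hx).1.1) (fb _ (mem_Pr.1 hx).1.2))
    (fun j hj => (ih j (lt j hj)).2.1) (fun j hj => ne_of_cg (fc j hj).2.2 (sq j))
    (fun t => ne_of_cg ((ad 2 t).trans (cg i).2.2) (sq i))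
    (fun j hj t t' => cr (x := ![0, b i 1 + m * t, b i 2 + m * t']) (ne j hj).symm
      ((ad 1 t).trans (cg i).2.1) ((ad 2 t').trans (cg i).2.2) (fc j hj))
    (fun x hx => by
      obtain ⟨⟨a1, -⟩, a2, a3⟩ := mem_Pr.1 hx
      exact (ih _ (lt _ a1)).2.2.1 _ (mem_Low.2 ⟨a2, a3⟩))
    u0 fun x hx y hy n e => by
      obtain ⟨⟨a1, a2⟩, -, a3⟩ := mem_Pr.1 hx
      obtain ⟨⟨b1, b2⟩, -, b3⟩ := mem_Pr.1 hy
      obtain ⟨l, l1, l2, l3, l4⟩ : ∃ l ∈ Low rk adj i, l ≠ x.1 ∧ l ≠ x.2 ∧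
          zd (f l) (zc (f y.1) (f y.2)) = 0 := by
        by_cases c1 : y.1 ≠ x.1 ∧ y.1 ≠ x.2
        · exact ⟨y.1, b1, c1.1, c1.2, by simp only [zd, zc0, zc1, zc2]; ring⟩
        · refine ⟨y.2, b2, fun k => ?_, fun k => ?_, by simp only [zd, zc0, zc1, zc2]; ring⟩
          · refine c1 ⟨fun j => ?_, fun j => ?_⟩ <;> rw [k, j] at b3 <;> omega
          · refine c1 ⟨fun j => n (Prod.ext j.symm k.symm), fun j => ?_⟩
            rw [k, j] at b3; omega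
      have d := ne_of_cg ((fc l l1).det (fc _ a1) (fc _ a2)) fun d =>
        (qz.dvd_or_dvd d).elim (fun d => (qz.dvd_or_dvd d).elim (σ1 _ _ l2.symm) (σ1 _ _ l3.symm))
          (σ1 _ _ fun e => by rw [e] at a3; omega)
      refine mul_ne_zero d (u0 y hy) ?_
      generalize zc (f x.1) (f x.2) = u, zc (f y.1) (f y.2) = v at e l4 ⊢
      have e1 := congrFun e 1
      have e2 := congrFun e 2
      simp only [zd, zc1, zc2, Pi.zero_apply] at e1 e2 l4 ⊢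
      linear_combination (u 0) * l4 + (f l 2) * e1 - (f l 1) * e2
  refine ⟨x, ?_⟩
  rw [Function.update_self]
  refine ⟨h1, h2, fun j hj => by rw [Function.update_of_ne (ne j hj)]; exact h3 j hj,
    fun x hx y hy => ?_⟩
  rw [Function.update_of_ne (ne _ (mem_Pr.1 hx).1.1), Function.update_of_ne (ne _ (mem_Pr.1 hx).1.2),
    Function.update_of_ne (ne _ (mem_Pr.1 hy).1.1), Function.update_of_ne (ne _ (mem_Pr.1 hy).1.2)]
  exact h4 x hx y hy

theorem offsets {K m : ℕ} {Q E : ℤ} (inj : Function.Injective rk) (deg : ∀ i, #(Low rk adj i) ≤ K)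
    (n : ι → Z3) (E1 : 1 ≤ E) (pr : ∀ i, ∀ j ∈ Low rk adj i, Prim m (zc (n i) (n j)))
    (co : ∀ i, ∀ x ∈ Pr rk adj i, ∀ y ∈ Pr rk adj i, x ≠ y → ∀ p, Lg m p →
        ¬ ((p : ℤ) ∣ zd (n i) (zc (n x.1) (n x.2)) ∧ (p : ℤ) ∣ zd (n i) (zc (n y.1) (n y.2))))
    (fac : ∀ i, ∀ x ∈ Pr rk adj i, ∃ W W' e, zd (n i) (zc (n x.1) (n x.2)) = W * e ∧ W * W' = Q ∧
      e ≠ 0 ∧ |e| ≤ E ∧ ∀ p : ℕ, p.Prime → (p : ℤ) ∣ e → Lg m p) (γ : ι → ℤ) :
    ∃ c : ι → ℤ, ∀ i, |c i - γ i| ≤ E ^ (K * K) ∧ ∀ x ∈ Pr rk adj i, ∃ y : Z3,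
      zd (n i) y = Q * c i ∧ zd (n x.1) y = Q * c x.1 ∧ zd (n x.2) y = Q * c x.2 := by
  refine greedy rk inj (fun i (c : ι → ℤ) => |c i - γ i| ≤ E ^ (K * K) ∧ ∀ x ∈ Pr rk adj i, ∃ y : Z3,
      zd (n i) y = Q * c i ∧ zd (n x.1) y = Q * c x.1 ∧ zd (n x.2) y = Q * c x.2)
    (fun i f g e h => ?_) fun i f _ => ?_
  · rw [← e i le_rfl]
    refine ⟨h.1, fun x hx => ?_⟩
    rw [← e _ (mem_Low.1 (mem_Pr.1 hx).1.1).2.le, ← e _ (mem_Low.1 (mem_Pr.1 hx).1.2).2.le]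
    exact h.2 x hx
  have ne : ∀ j ∈ Low rk adj i, j ≠ i := fun j hj e => by
    have := (mem_Low.1 hj).2; rw [e] at this; omega
  choose! W W' e f1 f2 f3 f4 f5 using fac i
  choose! v v1 v2 using fun x (hx : x ∈ Pr rk adj i) => two_cong (f5 x hx)
    (pr x.1 x.2 (mem_Low.2 (mem_Pr.1 hx).2)) (f x.1) (f x.2)
  obtain ⟨c, c1, c2⟩ := crt (Pr rk adj i) e (fun x => zd (n i) (v x)) E (γ i) f3 f4
    fun x hx y hy ne => cop_of (f5 x hx) fun p l k => co i x hx y hy ne p l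
      ⟨f1 x hx ▸ k.1.mul_left _, f1 y hy ▸ k.2.mul_left _⟩
  refine ⟨c, ?_, fun x hx => ?_⟩
  · rw [Function.update_self]
    exact c1.trans (pow_le_pow_right₀ E1 (card_Pr deg i))
  · rw [Function.update_self, Function.update_of_ne (ne _ (mem_Pr.1 hx).1.1),
      Function.update_of_ne (ne _ (mem_Pr.1 hx).1.2), ← f2 x hx]
    exact solve (f1 x hx) (c2 x hx) (v1 x hx) (v2 x hx)

lemma dvd_fact {K : ℕ} {a b : Fin (K + 1)} (h : a ≠ b) : ((a : ℕ) - (b : ℕ) : ℤ) ∣ (K.factorial : ℤ) := by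
  have h' : (a : ℕ) ≠ b := fun e => h (Fin.ext e)
  have a1 := a.2
  have b1 := b.2
  have c1 : 0 < (((a : ℕ) : ℤ) - ((b : ℕ) : ℤ)).natAbs := by omega
  have c2 : (((a : ℕ) : ℤ) - ((b : ℕ) : ℤ)).natAbs ≤ K := by omega
  exact Int.natAbs_dvd.1 (Int.natCast_dvd_natCast.2 (Nat.dvd_factorial c1 c2))

/-- integer planes near given ones, all prescribed triples meeting in integer points -/
theorem round (K h : ℕ) : ∃ a g : ℕ, 0 < a ∧ ∀ v : ℕ, 0 < v → ∀ (ι : Type) [Fintype ι] [DecidableEq ι]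
    (rk : ι → ℕ) (adj : ι → ι → Prop) [DecidableRel adj], Function.Injective rk →
    (∀ i j, adj i j → adj j i) → (∀ i, ¬ adj i i) → (∀ i, #(Low rk adj i) ≤ K) →
    Fintype.card ι ≤ 2 ^ (a * v) → ∀ ν : ι → Z3, (∀ i k, |ν i k| ≤ 2 ^ (h * (a * v))) →
    ∃ n : ι → Z3, (∀ i k, |n i k - ν i k| ≤ 2 ^ (5 * (a * v))) ∧ ∀ γ : ι → ℤ, ∃ c : ι → ℤ,
      (∀ i, |c i - γ i| ≤ 2 ^ (g * (a * v))) ∧ ∀ i j k, adj i j → adj j k → adj i k →
        ∃ y : Z3, zd (n i) y = c i ∧ zd (n j) y = c j ∧ zd (n k) y = c k := by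
  set N := 1 + K + K * K + K * K * (K * K) with hN
  set Q := K.factorial ^ 3 with hQ
  have Q0 : 0 < Q := pow_pos K.factorial_pos 3
  set s := (N + 1) * (5 * (h + 6) + 5) with hs
  refine ⟨(N + 1) * (2 ^ s * (2 * Q)), (3 * (h + 6) + 3) * (K * K) + 2, by positivity,
    fun v v0 ι _ _ rk adj _ inj sym irr deg cι ν hν => ?_⟩
  set w := 2 ^ s * (2 * Q) * v with hw
  have w0 : 0 < w := by positivity
  obtain ⟨P, hP, eP⟩ : ∃ P, P = (N + 1) * w ∧ (N + 1) * (2 ^ s * (2 * Q)) * v = P :=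
    ⟨_, rfl, by rw [hw]; ring⟩
  rw [eP] at cι hν ⊢
  have wP : w ≤ P := by rw [hP]; exact Nat.le_mul_of_pos_left _ (by omega)
  have NP : N + 1 ≤ P := by rw [hP]; exact Nat.le_mul_of_pos_right _ w0
  have KP : K < P := by omega
  have s1 : 2 ^ s ≤ w := by rw [hw, mul_assoc]; exact Nat.le_mul_of_pos_right _ (by positivity)
  have s2 : 2 * Q ≤ w := by
    rw [hw, mul_comm (2 ^ s), mul_assoc]; exact Nat.le_mul_of_pos_right _ (by positivity)
  have P2 : P < 2 ^ P := Nat.lt_two_pow_self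
  have ar1 : 3 + (h + 6) * P * 3 ≤ (3 * (h + 6) + 3) * P := by
    rw [show (3 * (h + 6) + 3) * P = (h + 6) * P * 3 + 3 * P by ring]; omega
  have ar2 : P + (3 * (h + 6) + 3) * P * (K * K) ≤ ((3 * (h + 6) + 3) * (K * K) + 2) * P := by
    rw [show ((3 * (h + 6) + 3) * (K * K) + 2) * P = (3 * (h + 6) + 3) * P * (K * K) + 2 * P by ring]
    omega
  obtain ⟨q, qp, q1, q2⟩ := Nat.exists_prime_lt_and_le_two_mul (2 ^ P) (by positivity)
  set M := Q * primorial P with hM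
  have M0 : 0 < M := Nat.mul_pos Q0 (primorial_pos P)
  have qM : ∀ p, p.Prime → (p ∣ M ↔ p ≤ P) := fun p pp => ⟨fun d => by
      rcases (Nat.Prime.dvd_mul pp).1 d with d | d
      · have := (Nat.Prime.dvd_factorial pp).1 (pp.dvd_of_dvd_pow d); omega
      · exact pp.dvd_primorial_iff.1 d,
    fun l => (pp.dvd_primorial_iff.2 l).mul_left _⟩
  have co : IsCoprime (M : ℤ) q := Nat.isCoprime_iff_coprime.2
    ((Nat.Prime.coprime_iff_not_dvd qp).2 fun d => by have := (qM q qp).1 d; omega).symm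
  set m := M * q with hm
  have m0 : 0 < m := Nat.mul_pos M0 qp.pos
  have mb : (m : ℤ) + m * P ≤ 2 ^ (5 * P) := by
    have a : primorial P ≤ 2 ^ P * 2 ^ P := by
      rw [← mul_pow]; exact primorial_le_four_pow P
    have : m * (P + 1) ≤ 2 ^ (5 * P) := by
      calc m * (P + 1) = (Q * q) * primorial P * (P + 1) := by rw [hm, hM]; ring
        _ ≤ (Q * (2 * 2 ^ P)) * (2 ^ P * 2 ^ P) * 2 ^ P := by gcongr; omega
        _ = (2 * Q) * (2 ^ P) ^ 4 := by ring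
        _ ≤ 2 ^ P * (2 ^ P) ^ 4 := by gcongr; omega
        _ = _ := by ring
    have : ((m * (P + 1) : ℕ) : ℤ) ≤ (2 ^ (5 * P) : ℕ) := by exact_mod_cast this
    push_cast at this
    linarith
  obtain ⟨τ, hτ⟩ := colour inj deg
  set σ : ι → ℤ := fun i => ((Fintype.equivFin ι i : ℕ) : ℤ) + 1 with hσ
  have σb : ∀ i, 1 ≤ σ i ∧ σ i < q := fun i => by
    have := (Fintype.equivFin ι i).2
    simp only [hσ]; omega
  have base : ∀ x y z : ℤ, ∃ r, |r - z| ≤ m ∧ r ≡ x [ZMOD M] ∧ r ≡ y [ZMOD q] := fun x y z => by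
    obtain ⟨α, β, e⟩ := co
    have m0' : (m : ℤ) ≠ 0 := by exact_mod_cast m0.ne'
    have d : (m : ℤ) ∣ z - (x * β * q + y * α * M) - (z - (x * β * q + y * α * M)) % m :=
      Int.dvd_self_sub_emod
    obtain ⟨t, ht⟩ := d
    refine ⟨z - (z - (x * β * q + y * α * M)) % m, ?_, Int.modEq_iff_dvd.2 ⟨x * α - y * α - q * t, ?_⟩,
      Int.modEq_iff_dvd.2 ⟨y * β - x * β - M * t, ?_⟩⟩
    · rw [sub_sub_cancel_left, abs_neg, abs_of_nonneg (Int.emod_nonneg _ m0')]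
      exact (Int.emod_lt_of_pos _ (by exact_mod_cast m0)).le
    · have : (m : ℤ) = M * q := by rw [hm]; push_cast; ring
      linear_combination (-x) * e - ht - t * this
    · have : (m : ℤ) = M * q := by rw [hm]; push_cast; ring
      linear_combination (-y) * e - ht - t * this
  choose b b1 b2 b3 using fun i (k : Fin 3) => base (((τ i : ℕ) : ℤ) ^ (k : ℕ)) (σ i ^ (k : ℕ)) (ν i k)
  set H : ℤ := 2 ^ ((h + 6) * P) with hH
  have H1 : 1 ≤ H := one_le_pow₀ one_le_two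
  have hb : ∀ i k, |b i k| + m * P ≤ H := fun i k => by
    have a : (2 : ℤ) ^ (h * P) ≤ 2 ^ ((h + 5) * P) := pow_le_pow_right₀ one_le_two (by nlinarith)
    have b' : (2 : ℤ) ^ (5 * P) ≤ 2 ^ ((h + 5) * P) := pow_le_pow_right₀ one_le_two (by nlinarith)
    have c : (2 : ℤ) ^ ((h + 5) * P + 1) ≤ H := pow_le_pow_right₀ one_le_two (by nlinarith)
    have := abs_sub_abs_le_abs_sub (b i k) (ν i k)
    rw [pow_succ] at c
    linarith [b1 i k, hν i k]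
  have lg : ∀ p, Lg m p → P ≤ p := fun p l => by
    by_contra n
    exact l.2 (((qM p l.1).2 (by omega)).mul_right _)
  have cq : ∀ i, Cg q (b i) (σ i) := fun i => ⟨by simpa using b3 i 0, by simpa using b3 i 1, b3 i 2⟩
  have cM : ∀ i, Cg M (b i) (τ i : ℕ) := fun i => ⟨by simpa using b2 i 0, by simpa using b2 i 1, b2 i 2⟩
  have σ1 : ∀ i j, i ≠ j → ¬ (q : ℤ) ∣ σ i - σ j := fun i j ne d => by
    have n0 : σ i - σ j ≠ 0 := fun e => ne ((Fintype.equivFin ι).injective (Fin.ext (by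
      simp only [hσ] at e; omega)))
    have := Int.le_of_dvd (abs_pos.2 n0) ((dvd_abs _ _).2 d)
    have := σb i; have := σb j
    rcases abs_cases (σ i - σ j) with k | k <;> omega
  have qm : (q : ℤ) ∣ m := by exact_mod_cast Dvd.intro_left M rfl
  have Mm : (M : ℤ) ∣ m := by exact_mod_cast Dvd.intro q rfl
  obtain ⟨n, hn⟩ := normals inj deg m0.ne' lg w0 H1
    (by
      calc 16 * H ^ 5 = 2 ^ ((h + 6) * P * 5 + 4) := by rw [hH, ← pow_mul]; ring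
        _ < 2 ^ (s * w) := pow_lt_pow_right₀ one_lt_two (by
            have : s * w = (5 * (h + 6) + 5) * P := by rw [hs, hP]; ring
            rw [this]; nlinarith)
        _ ≤ (P : ℤ) ^ w := by
            rw [pow_mul]
            exact pow_le_pow_left₀ (by positivity) (by exact_mod_cast s1.trans wP) _)
    (by rw [← hN, hP]; exact Nat.mul_lt_mul_of_pos_right (by omega) w0) b hb qp qm σ
    (fun i d => by have := Int.le_of_dvd (by linarith [(σb i).1]) d; linarith [(σb i).2]) σ1 cq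
  have nb : ∀ i k, |n i k - b i k| ≤ m * P := fun i k => by
    obtain ⟨t, ht, e⟩ := (hn i).1 k
    rw [e, add_sub_cancel_left, abs_of_nonneg (by positivity)]
    exact mul_le_mul_of_nonneg_left (by exact_mod_cast ht.le) (by positivity)
  have nH : ∀ i k, |n i k| ≤ H := fun i k => by
    linarith [abs_sub_abs_le_abs_sub (n i k) (b i k), nb i k, hb i k]
  have ex : ∀ i k, ∃ t : ℤ, n i k = b i k + m * t := fun i k => by
    obtain ⟨t, -, e⟩ := (hn i).1 k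
    exact ⟨t, e⟩
  refine ⟨n, fun i k => by linarith [abs_sub_le (n i k) (b i k) (ν i k), nb i k, b1 i k], fun γ => ?_⟩
  obtain ⟨c, hc⟩ := offsets (m := m) (Q := Q) (E := 3 * (H * (2 * H ^ 2))) inj deg n
    (by nlinarith [pow_pos (by linarith : 0 < H) 2, one_le_pow₀ (n := 2) H1])
    (fun i => (hn i).2.2.1) (fun i => (hn i).2.2.2) (fun i x hx => by
      obtain ⟨⟨a1, a2⟩, a3, a4⟩ := mem_Pr.1 hx
      have n1 : x.1 ≠ i := fun e => irr i (e ▸ (mem_Low.1 a1).1)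
      have n2 : x.2 ≠ i := fun e => irr i (e ▸ (mem_Low.1 a2).1)
      have n3 : x.2 ≠ x.1 := fun e => irr x.1 (e ▸ a3)
      have d1 := ((cM i).add Mm (ex i)).det ((cM x.1).add Mm (ex _)) ((cM x.2).add Mm (ex _))
      have d2 := ((cq i).add qm (ex i)).det ((cq x.1).add qm (ex _)) ((cq x.2).add qm (ex _))
      have qz := Nat.prime_iff_prime_int.1 qp
      have nq : ¬ (q : ℤ) ∣ zd (n i) (zc (n x.1) (n x.2)) := fun d =>
        (qz.dvd_or_dvd ((dvd_sub_left d).1 d2.dvd)).elim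
          (fun d => (qz.dvd_or_dvd d).elim (σ1 _ _ n1) (σ1 _ _ n2)) (σ1 _ _ n3)
      have db := zd_bd (nH i) (zc_bd (nH x.1) (nH x.2))
      obtain ⟨W', hW⟩ : (((τ x.1 : ℕ) : ℤ) - (τ i : ℕ)) * (((τ x.2 : ℕ) : ℤ) - (τ i : ℕ))
          * (((τ x.2 : ℕ) : ℤ) - (τ x.1 : ℕ)) ∣ (Q : ℤ) := by
        rw [hQ, Nat.cast_pow, pow_three']
        exact mul_dvd_mul (mul_dvd_mul (dvd_fact (hτ i _ a1)) (dvd_fact (hτ i _ a2)))
          (dvd_fact (hτ _ _ (mem_Low.2 ⟨a3, a4⟩)))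
      generalize (((τ x.1 : ℕ) : ℤ) - (τ i : ℕ)) * (((τ x.2 : ℕ) : ℤ) - (τ i : ℕ))
          * (((τ x.2 : ℕ) : ℤ) - (τ x.1 : ℕ)) = W, zd (n i) (zc (n x.1) (n x.2)) = d at d1 hW nq db
      obtain ⟨t, ht⟩ := d1.dvd
      have e : d = W * (1 - W' * primorial P * t) := by
        have : (M : ℤ) = Q * primorial P := by rw [hM]; push_cast; ring
        linear_combination -ht - t * this - (primorial P * t) * hW
      have W0 : W ≠ 0 := fun k => nq (by rw [e, k, zero_mul]; exact dvd_zero _)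
      refine ⟨W, W', _, e, hW.symm, fun k => nq (by rw [e, k, mul_zero]; exact dvd_zero _), ?_,
        fun p pp dp => ⟨pp, fun k => ?_⟩⟩
      · rw [e, abs_mul] at db
        exact (le_mul_of_one_le_left (abs_nonneg _) (Int.one_le_abs W0)).trans db
      · rcases (Nat.Prime.dvd_mul pp).1 k with k | k
        · have k' : (p : ℤ) ∣ primorial P := by
            exact_mod_cast pp.dvd_primorial_iff.2 ((qM p pp).1 k)
          exact (Nat.prime_iff_prime_int.1 pp).not_dvd_one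
            ((dvd_sub_left ((k'.mul_left W').mul_right t)).1 dp)
        · rw [(Nat.prime_dvd_prime_iff_eq pp qp).1 k] at dp
          exact nq (e ▸ dp.mul_left W)) fun i => γ i / Q
  have Qz : (0 : ℤ) < Q := by exact_mod_cast Q0
  refine ⟨fun i => Q * c i, fun i => ?_, ?_⟩
  · have a : |Q * (γ i / Q) - γ i| ≤ Q := by
      rw [abs_sub_comm, ← Int.emod_def, abs_of_nonneg (Int.emod_nonneg _ Qz.ne')]
      exact (Int.emod_lt_of_pos _ Qz).le
    have b' : |Q * c i - Q * (γ i / Q)| ≤ Q * (3 * (H * (2 * H ^ 2))) ^ (K * K) := by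
      rw [← mul_sub, abs_mul, abs_of_pos Qz]
      exact mul_le_mul_of_nonneg_left (hc i).1 Qz.le
    have e1 : 3 * (H * (2 * H ^ 2)) ≤ 2 ^ ((3 * (h + 6) + 3) * P) := by
      calc 3 * (H * (2 * H ^ 2)) = 6 * 2 ^ ((h + 6) * P * 3) := by rw [pow_mul (2 : ℤ) ((h + 6) * P) 3, ← hH]; ring
        _ ≤ 2 ^ 3 * 2 ^ ((h + 6) * P * 3) := by gcongr; norm_num
        _ ≤ _ := by rw [← pow_add]; exact pow_le_pow_right₀ one_le_two ar1
    have e2 : (3 * (H * (2 * H ^ 2))) ^ (K * K) ≤ 2 ^ ((3 * (h + 6) + 3) * P * (K * K)) := by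
      rw [pow_mul (2 : ℤ) _ (K * K)]; exact pow_le_pow_left₀ (by positivity) e1 _
    have e3 : (1 : ℤ) ≤ 2 ^ ((3 * (h + 6) + 3) * P * (K * K)) := one_le_pow₀ one_le_two
    have e4 : (2 * Q : ℤ) ≤ 2 ^ P := by exact_mod_cast (by omega : 2 * Q ≤ 2 ^ P)
    calc |(Q : ℤ) * c i - γ i| ≤ (Q : ℤ) * 2 ^ ((3 * (h + 6) + 3) * P * (K * K))
            + (Q : ℤ) * 2 ^ ((3 * (h + 6) + 3) * P * (K * K)) := by
          refine (abs_sub_le _ (Q * (γ i / Q)) _).trans (add_le_add (b'.trans ?_) (a.trans ?_))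
          · exact mul_le_mul_of_nonneg_left e2 Qz.le
          · exact le_mul_of_one_le_right Qz.le e3
      _ = (2 * Q : ℤ) * 2 ^ ((3 * (h + 6) + 3) * P * (K * K)) := by ring
      _ ≤ 2 ^ P * 2 ^ ((3 * (h + 6) + 3) * P * (K * K)) := by gcongr
      _ ≤ _ := by rw [← pow_add]; exact pow_le_pow_right₀ one_le_two ar2
  · have key : ∀ i j k, adj i j → adj j k → adj i k → rk k < rk j → rk j < rk i →
        ∃ y : Z3, zd (n i) y = Q * c i ∧ zd (n j) y = Q * c j ∧ zd (n k) y = Q * c k :=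
      fun i j k a1 a2 a3 l1 l2 => (hc i).2 (j, k)
        (mem_Pr.2 ⟨⟨mem_Low.2 ⟨a1, l2⟩, mem_Low.2 ⟨a3, l1.trans l2⟩⟩, a2, l1⟩)
    intro i j k a1 a2 a3
    have ne : ∀ {i j}, adj i j → rk i ≠ rk j := fun {i j} a e => irr i (inj e ▸ a)
    have := ne a1; have := ne a2; have := ne a3
    by_cases c1 : rk j < rk i <;> by_cases c2 : rk k < rk j <;> by_cases c3 : rk k < rk i
    · exact key i j k a1 a2 a3 c2 c1
    · omega
    · exact (key i k j a3 (sym _ _ a2) a1 (by omega) c3).imp fun y h => ⟨h.1, h.2.2, h.2.1⟩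
    · exact (key k i j (sym _ _ a3) a1 (sym _ _ a2) c1 (by omega)).imp fun y h => ⟨h.2.1, h.2.2, h.1⟩
    · exact (key j i k (sym _ _ a1) a3 a2 c3 (by omega)).imp fun y h => ⟨h.2.1, h.1, h.2.2⟩
    · exact (key j k i a2 (sym _ _ a3) (sym _ _ a1) (by omega) c2).imp fun y h => ⟨h.2.2, h.1, h.2.1⟩
    · omega
    · exact (key k j i (sym _ _ a2) (sym _ _ a1) (sym _ _ a3) (by omega) (by omega)).imp
        fun y h => ⟨h.2.2, h.2.1, h.1⟩

end Pool.Agent.Lib.MP_d5dfc1_co.Sq
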