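import Pool.Agent.Lib.MP_d5dfc1_co.ExExa
import Pool.Agent.Lib.MP_d5dfc1_co.SqRound

/-! Pairs of faces with a common vertex form a sparse graph. -/

namespace Pool.Agent.Lib.MP_d5dfc1_co.Sq

open Finset Ex

variable {V F D : Type} [Fintype D] [DecidableEq V] [Fintype V] [Fintype F] [DecidableEq F]
  {M : PM V F D}

lemma fib {X : Type} [Fintype X] [DecidableEq X] (t : D → X) (P : X → ℝ) (φ : D → ℝ)
    (h : ∀ x, ∑ d with t d = x, φ d = 0) : ∑ d, P (t d) * φ d = 0 := by
  rw [← sum_fiberwise univ t]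
  refine sum_eq_zero fun x _ => ?_
  rw [sum_congr rfl fun d hd => by rw [(mem_filter.1 hd).2], ← mul_sum, h, mul_zero]

/-- cycles of the vertex-face incidence graph are boundaries -/
lemma rad (he : M.Exa) (φ : D → ℝ) (hv : ∀ x, ∑ d with M.tl d = x, φ d = 0)
    (hf : ∀ f, ∑ d with M.lf d = f, φ d = 0) :
    ∃ ψ : D → ℝ, (∀ d, ψ (M.rev d) = ψ d) ∧ ∀ d, φ (M.sg d) = ψ (M.sg d) - ψ d := by
  classical
  let L : (D → ℝ) →ₗ[ℝ] EuclideanSpace ℝ D :=
    { toFun := fun g => WithLp.toLp 2 fun d => g (M.sg d) + g (M.rev (M.sg d)) - (g d + g (M.rev d))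
      map_add' := fun a b => by ext d; simp; ring
      map_smul' := fun a b => by ext d; simp; ring }
  obtain ⟨y, ⟨g, rfl⟩, z, hz, e⟩ := (LinearMap.range L).exists_add_mem_mem_orthogonal
    (WithLp.toLp 2 fun d => φ (M.sg d))
  have ez : ∀ d, φ (M.sg d) = g (M.sg d) + g (M.rev (M.sg d)) - (g d + g (M.rev d)) + z d :=
    fun d => by simpa [L] using congrArg (fun v : EuclideanSpace ℝ D => v d) e
  have orth : ∀ g : D → ℝ,
      ∑ d, z d * (g (M.sg d) + g (M.rev (M.sg d)) - (g d + g (M.rev d))) = 0 := fun g => by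
    simpa only [PiLp.inner_apply, L, LinearMap.coe_mk, AddHom.coe_mk, RCLike.inner_apply,
      conj_trivial] using (Submodule.mem_orthogonal _ _).1 hz (L g) ⟨_, rfl⟩
  set ω : D → ℝ := fun d => z (M.sg.symm d) - z d with hω
  have anti : ∀ d, ω (M.rev d) = - ω d := fun d => by
    have a := orth fun d => ω d + ω (M.rev d)
    have b := Equiv.sum_comp M.sg fun d => z (M.sg.symm d) * (2 * (ω d + ω (M.rev d)))
    have c := M.sum_rev fun d => ω d * (ω d + ω (M.rev d))
    simp only [PM.rr, Equiv.symm_apply_apply] at a b c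
    have s : ∑ d, (ω d + ω (M.rev d)) ^ 2 = 0 := by
      have e1 : ∑ d, ω d * (2 * (ω d + ω (M.rev d))) = 0 := by
        rw [← a]
        simp only [hω, sub_mul, sum_sub_distrib] at b ⊢
        rw [← b, ← sum_sub_distrib]
        exact sum_congr rfl fun d _ => by ring
      have e2 : ∑ d, (ω d + ω (M.rev d)) ^ 2 = ∑ d, ω (M.rev d) * (ω (M.rev d) + ω d)
          + ∑ d, ω d * (ω d + ω (M.rev d)) := by
        rw [← sum_add_distrib]; exact sum_congr rfl fun d _ => by ring
      rw [e2, c, ← e1, ← sum_add_distrib]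
      exact sum_congr rfl fun d _ => by ring
    have := (sum_eq_zero_iff_of_nonneg fun d _ => sq_nonneg _).1 s d (mem_univ _)
    linarith [pow_eq_zero_iff two_ne_zero |>.1 this]
  obtain ⟨Q, hQ⟩ := dual_exa he ω anti fun x => by
    rw [← M.sum_sg x]
    simp only [hω, Equiv.symm_apply_apply, sum_sub_distrib]
    rw [M.sum_sg x fun d => z d, sub_self]
  choose rp hrp using M.tl_surj
  have zP : ∀ d, z d = z (rp (M.tl d)) + Q (M.rf (rp (M.tl d))) - Q (M.rf d) := fun d =>
    M.v_ind (P := fun e => z e = z (rp (M.tl d)) + Q (M.rf (rp (M.tl d))) - Q (M.rf e))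
      (fun e k => by
        have := hQ (M.sg e)
        simp only [hω, Equiv.symm_apply_apply, PM.lf_sg'] at this
        linarith) (by ring) (hrp _)
  have s : ∑ d, z d ^ 2 = 0 := by
    have a := fib M.tl (fun x => z (rp x) + Q (M.rf (rp x))) φ hv
    have b := fib M.lf Q φ hf
    rw [← Equiv.sum_comp M.sg] at a b
    rw [← sub_zero (0 : ℝ), ← sub_zero (0 : ℝ)]
    nth_rewrite 1 [← a]
    nth_rewrite 1 [← b]
    rw [sub_zero, ← orth g, ← sum_sub_distrib, ← sum_sub_distrib]
    refine sum_congr rfl fun d _ => ?_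
    simp only [PM.tl_sg', PM.lf_sg']
    linear_combination (- z d) * ez d + φ (M.sg d) * zP d
  refine ⟨fun d => g d + g (M.rev d), fun d => by simp [add_comm], fun d => ?_⟩
  have := (sum_eq_zero_iff_of_nonneg fun d _ => sq_nonneg _).1 s d (mem_univ _)
  rw [ez, pow_eq_zero_iff two_ne_zero |>.1 this, add_zero]

/-- a simple graph on faces whose edges are distinct vertices has few edges -/
theorem sparse (he : M.Exa) (X : Finset V) (S : Finset F) (a b : V → D)
    (ta : ∀ x ∈ X, M.tl (a x) = x) (tb : ∀ x ∈ X, M.tl (b x) = x) (ab : ∀ x ∈ X, a x ≠ b x)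
    (sa : ∀ x ∈ X, M.lf (a x) ∈ S) (sb : ∀ x ∈ X, M.lf (b x) ∈ S)
    (si : ∀ x ∈ X, ∀ y ∈ X, M.lf (a x) = M.lf (a y) ∨ M.lf (a x) = M.lf (b y) →
      M.lf (b x) = M.lf (a y) ∨ M.lf (b x) = M.lf (b y) → x = y) : #X ≤ 3 * #S := by
  classical
  let A : D → Prop := fun d => M.tl d ∈ X ∧ (d = a (M.tl d) ∨ d = b (M.tl d))
  let r : D → D → Prop := fun d e => e = M.rev d ∨ (e = M.sg d ∧ ¬ A e)
  let cl : D → Quot r := Quot.mk r
  let u : V → Quot r := fun x => cl (a x)
  let v : V → Quot r := fun x => cl (M.sg.symm (a x))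
  let R : Quot r → V → Prop := fun q x => u x ≠ v x ∧ (u x = q ∨ v x = q)
  let Q' : Finset (Quot r) := (univ.image cl).filter fun q => ∃ x ∈ X, R q x
  have two : ∀ (φ : D → ℝ), (∀ d, ¬ A d → φ d = 0) → ∀ x ∈ X,
      ∑ d with M.tl d = x, φ d = φ (a x) + φ (b x) := fun φ h x hx => by
    rw [← sum_pair (ab x hx)]
    refine (sum_subset (fun d hd => ?_) fun d h1 h2 => h d fun k => h2 ?_).symm
    · rcases mem_insert.1 hd with rfl | hd
      · simpa using ta x hx
      · rw [mem_singleton.1 hd]; simpa using tb x hx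
    · have := k.2
      rw [(mem_filter.1 h1).2] at this
      simpa using this
  have c1 : #Q' * 3 ≤ #X * 2 := card_mul_le_card_mul R (fun q hq => by
      obtain ⟨x, hx, rx⟩ := (mem_filter.1 hq).2
      let ψ : D → ℝ := fun d => if cl d = q then 1 else 0
      let φ : D → ℝ := fun d => ψ d - ψ (M.sg.symm d)
      have p0 : ∀ d, ¬ A d → φ d = 0 := fun d n => by
        have : cl (M.sg.symm d) = cl d := Quot.sound (Or.inr ⟨by simp, n⟩)
        simp only [φ, ψ, this, sub_self]
      have pv : ∀ x ∈ X, φ (a x) + φ (b x) = 0 := fun x hx => by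
        rw [← two φ p0 x hx, ← M.sum_sg]
        simp only [φ, Equiv.symm_apply_apply, sum_sub_distrib]
        rw [M.sum_sg x ψ, sub_self]
      have pf : ∀ f, ∑ d with M.lf d = f, φ d = 0 := fun f => by
        have : ∀ d, ψ (M.sg.symm (M.nx d)) = ψ d := fun d => by
          have : cl d = cl (M.rev d) := Quot.sound (Or.inl rfl)
          simp only [ψ, PM.nx, Equiv.symm_apply_apply, this]
        rw [← M.sum_nx]
        simp only [φ, this, sum_sub_distrib]
        rw [M.sum_nx f ψ, sub_self]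
      have iff : ∀ y, R q y ↔ φ (a y) ≠ 0 := fun y => by
        simp only [R, φ, ψ, u, v]
        by_cases h1 : cl (a y) = q <;> by_cases h2 : cl (M.sg.symm (a y)) = q <;>
          simp [h1, h2, eq_comm (a := q)]
      have nxt : ∀ d, M.tl d = x → φ d ≠ 0 → ∃ y ∈ X, R q y ∧ y ≠ x ∧
          (M.lf d = M.lf (a y) ∨ M.lf d = M.lf (b y)) := fun d t n => by
        obtain ⟨e, e1, e2, e3⟩ : ∃ e, M.lf e = M.lf d ∧ e ≠ d ∧ φ e ≠ 0 := by
          by_contra k
          push Not at k
          refine n ((sum_eq_single_of_mem d (by simp) fun e h1 h2 => ?_).symm.trans (pf (M.lf d)))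
          exact k e (mem_filter.1 h1).2 h2
        have k : A e := by by_contra k; exact e3 (p0 e k)
        refine ⟨_, k.1, (iff _).2 fun z => e3 ?_, fun z => e2 (M.uniq _ _ (z.trans t.symm) e1),
          k.2.imp (fun j => by rw [← e1, ← j]) fun j => by rw [← e1, ← j]⟩
        rcases k.2 with j | j
        · rw [j]; exact z
        · rw [j]; linarith [pv _ k.1]
      have n1 := (iff x).1 rx
      obtain ⟨y, y1, y2, y3, y4⟩ := nxt _ (ta x hx) n1
      obtain ⟨z, z1, z2, z3, z4⟩ := nxt _ (tb x hx) fun k => n1 (by linarith [pv x hx])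
      have yz : y ≠ z := fun k => y3 (si x hx y y1 y4 (k ▸ z4)).symm
      refine le_trans (card_eq_three.2 ⟨x, y, z, y3.symm, z3.symm, yz, rfl⟩).ge (card_le_card ?_)
      simp [insert_subset_iff, mem_bipartiteAbove, hx, rx, y1, y2, z1, z2])
    fun x _ => le_trans (card_le_card (t := {u x, v x}) fun q hq => by
      have := ((mem_bipartiteBelow _).1 hq).2.2
      simpa [eq_comm] using this) card_le_two
  let ex : (X → ℝ) → D → ℝ := fun θ d => if h : M.tl d ∈ X then
    ((if d = a (M.tl d) then 1 else 0) - if d = b (M.tl d) then 1 else 0) * θ ⟨_, h⟩ else 0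
  let δ : (X → ℝ) →ₗ[ℝ] (S → ℝ) :=
    { toFun := fun θ f => ∑ d with M.lf d = f, ex θ d
      map_add' := fun s t => by
        ext f
        rw [Pi.add_apply, ← sum_add_distrib]
        refine sum_congr rfl fun d _ => ?_
        simp only [ex]; split_ifs <;> simp [add_comm]
      map_smul' := fun s t => by
        ext f
        rw [Pi.smul_apply, smul_sum]
        refine sum_congr rfl fun d _ => ?_
        simp only [ex]; split_ifs <;> simp }
  let T : (Q' → ℝ) →ₗ[ℝ] (X → ℝ) :=
    { toFun := fun g x => (if h : u x ∈ Q' then g ⟨_, h⟩ else 0) - if h : v x ∈ Q' then g ⟨_, h⟩ else 0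
      map_add' := fun s t => by ext x; simp only [Pi.add_apply]; split_ifs <;> ring
      map_smul' := fun s t => by
        ext x; simp only [Pi.smul_apply, smul_eq_mul, RingHom.id_apply]; split_ifs <;> ring }
  have sub : LinearMap.ker δ ≤ LinearMap.range T := fun θ hθ => by
    have e0 : ∀ d, ¬ A d → ex θ d = 0 := fun d n => by
      by_cases h : M.tl d ∈ X
      · simp only [ex, dif_pos h, if_neg fun k => n ⟨h, Or.inl k⟩, if_neg fun k => n ⟨h, Or.inr k⟩,
          sub_self, zero_mul]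
      · exact dif_neg h
    have ea : ∀ x (hx : x ∈ X), ex θ (a x) = θ ⟨x, hx⟩ := fun x hx => by
      simp [ex, ta x hx, hx, ab x hx]
    have eb : ∀ x (hx : x ∈ X), ex θ (b x) = - θ ⟨x, hx⟩ := fun x hx => by
      simp [ex, tb x hx, hx, (ab x hx).symm]
    obtain ⟨ψ, p1, p2⟩ := rad he (ex θ)
      (fun x => by
        by_cases hx : x ∈ X
        · rw [two _ e0 x hx, ea x hx, eb x hx, add_neg_cancel]
        · exact sum_eq_zero fun d hd => e0 d fun k => hx ((mem_filter.1 hd).2 ▸ k.1))
      fun f => by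
        by_cases hf : f ∈ S
        · exact congrFun hθ ⟨f, hf⟩
        · refine sum_eq_zero fun d hd => e0 d fun k => hf ?_
          rw [← (mem_filter.1 hd).2]
          exact k.2.elim (fun j => j ▸ sa _ k.1) fun j => j ▸ sb _ k.1
    let g : Quot r → ℝ := Quot.lift ψ (by
      rintro d e (rfl | ⟨rfl, n⟩)
      · exact (p1 d).symm
      · linarith [p2 d, e0 _ n])
    refine ⟨fun q => g q, funext fun x => ?_⟩
    have k : θ x = g (u x) - g (v x) := by
      have := p2 (M.sg.symm (a x))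
      rwa [Equiv.apply_symm_apply, ea x x.2] at this
    by_cases uv : u x = v x
    · simp [T, k, uv]
    · have h1 : u x ∈ Q' := mem_filter.2 ⟨mem_image_of_mem _ (mem_univ _), x, x.2, uv, Or.inl rfl⟩
      have h2 : v x ∈ Q' := mem_filter.2 ⟨mem_image_of_mem _ (mem_univ _), x, x.2, uv, Or.inr rfl⟩
      simp [T, k, h1, h2]
  have k1 := δ.finrank_range_add_finrank_ker
  have k2 := (Submodule.finrank_mono sub).trans T.finrank_range_le
  have k3 := (LinearMap.range δ).finrank_le
  simp only [Module.finrank_fintype_fun_eq_card, Fintype.card_coe] at k1 k2 k3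
  omega

lemma few (he : M.Exa) (t : V → Fin 3 → D) (tt : ∀ x j, M.tl (t x j) = x)
    (ti : ∀ x, Function.Injective (t x)) (S : Finset F) (hS : S.Nonempty) :
    ∃ f ∈ S, #{g ∈ S | ∃ x i j, i ≠ j ∧ M.lf (t x i) = f ∧ M.lf (t x j) = g} ≤ 36 := by
  classical
  have cls : ∀ i j, i ≠ j → ∀ e : F → ℤ, #(image (fun x => (M.lf (t x i), M.lf (t x j)))
      {x | M.lf (t x i) ∈ S ∧ M.lf (t x j) ∈ S ∧ e (M.lf (t x i)) < e (M.lf (t x j))}) ≤ 3 * #S :=
    fun i j ij e => by
      set Y : Finset V :=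
        {x | M.lf (t x i) ∈ S ∧ M.lf (t x j) ∈ S ∧ e (M.lf (t x i)) < e (M.lf (t x j))} with hY
      obtain ⟨X, x1, x2, x3⟩ := exists_subset_injOn_image_eq_of_surjOn
        (f := fun x => (M.lf (t x i), M.lf (t x j))) (Y : Set V) (Y.image _) (by
          rw [coe_image]; exact Set.surjOn_image _ _)
      have m : ∀ x ∈ X, M.lf (t x i) ∈ S ∧ M.lf (t x j) ∈ S ∧ e (M.lf (t x i)) < e (M.lf (t x j)) :=
        fun x hx => by simpa [hY] using x1 hx
      rw [← x3]
      refine card_image_le.trans (sparse he X S (fun x => t x i) (fun x => t x j) (fun x _ => tt x i)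
        (fun x _ => tt x j) (fun x _ k => ij (ti x k)) (fun x hx => (m x hx).1)
        (fun x hx => (m x hx).2.1) fun x hx y hy h1 h2 => ?_)
      have a := (m x hx).2.2
      have b := (m y hy).2.2
      rcases h1 with h1 | h1 <;> rcases h2 with h2 | h2
      · rw [h1, h2] at a; omega
      · exact x2 hx hy (Prod.ext h1 h2)
      · rw [h1, h2] at a; omega
      · rw [h1, h2] at a; omega
  by_contra n
  push Not at n
  let e : F → ℤ := fun f => (Fintype.equivFin F f : ℕ)
  have c1 := card_biUnion_le_card_mul (univ : Finset (Fin 3)).offDiag _ (3 * #S + 3 * #S)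
    fun q hq => (card_union_le _ _).trans (add_le_add (cls q.1 q.2 (mem_offDiag.1 hq).2.2 e)
      (cls q.1 q.2 (mem_offDiag.1 hq).2.2 fun f => - e f))
  have c2 := sum_lt_sum_of_nonempty hS n
  have c3 : ∑ f ∈ S, #{g ∈ S | ∃ x i j, i ≠ j ∧ M.lf (t x i) = f ∧ M.lf (t x j) = g}
      = #{q ∈ S ×ˢ S | ∃ x i j, i ≠ j ∧ M.lf (t x i) = q.1 ∧ M.lf (t x j) = q.2} := by
    simp only [card_filter, sum_product]
  rw [c3, sum_const, smul_eq_mul] at c2
  rw [show #(univ : Finset (Fin 3)).offDiag = 6 from rfl] at c1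
  refine absurd (c2.trans_le ((card_le_card fun q hq => ?_).trans c1)) (by omega)
  obtain ⟨q1, x, i, j, ij, h1, h2⟩ := mem_filter.1 hq
  obtain ⟨q1, q2⟩ := mem_product.1 q1
  have ne : e q.1 ≠ e q.2 := fun k => ij (ti x (M.uniq _ _ (by rw [tt, tt]) (by
    rw [h1, h2]; exact (Fintype.equivFin F).injective (Fin.ext (by simpa [e] using k)))))
  refine mem_biUnion.2 ⟨(i, j), by simpa using ij, ?_⟩
  rcases ne.lt_or_gt with k | k
  · exact mem_union_left _ (mem_image.2 ⟨x, by simp [h1, h2, q1, q2, k], Prod.ext h1 h2⟩)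
  · exact mem_union_right _ (mem_image.2 ⟨x, by simp [h1, h2, q1, q2, k], Prod.ext h1 h2⟩)

/-- a degeneracy order -/
lemma order {ι : Type} [Fintype ι] [DecidableEq ι] (adj : ι → ι → Prop) [DecidableRel adj] {K : ℕ}
    (h : ∀ S : Finset ι, S.Nonempty → ∃ i ∈ S, #{j ∈ S | adj i j} ≤ K) :
    ∃ rk : ι → ℕ, Function.Injective rk ∧ ∀ i, #(Low rk adj i) ≤ K := by
  have key : ∀ (k : ℕ) (S : Finset ι), #S = k → ∃ rk : ι → ℕ, Set.InjOn rk S ∧ (∀ i, rk i ≤ k) ∧
      (∀ i ∈ S, rk i < k) ∧ ∀ i ∈ S, #{j ∈ S | adj i j ∧ rk j < rk i} ≤ K := fun k => by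
    induction k with
    | zero => exact fun S e => ⟨fun _ => 0, by simp [card_eq_zero.1 e]⟩
    | succ k ih =>
      intro S e
      obtain ⟨i, hi, c⟩ := h S (card_pos.1 (by omega))
      obtain ⟨rk, r1, r0, r2, r3⟩ := ih (S.erase i) (by rw [card_erase_of_mem hi]; omega)
      have up : ∀ j, j ≠ i → Function.update rk i k j = rk j := fun j n => Function.update_of_ne n _ _
      refine ⟨Function.update rk i k, fun x hx y hy q => ?_, fun j => ?_, fun j hj => ?_, fun j hj => ?_⟩
      · by_cases a : x = i <;> by_cases b : y = i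
        · rw [a, b]
        · rw [a, Function.update_self, up y b] at q
          have := r2 y (mem_erase.2 ⟨b, hy⟩); omega
        · rw [b, Function.update_self, up x a] at q
          have := r2 x (mem_erase.2 ⟨a, hx⟩); omega
        · rw [up x a, up y b] at q
          exact r1 (mem_erase.2 ⟨a, hx⟩) (mem_erase.2 ⟨b, hy⟩) q
      · by_cases a : j = i
        · rw [a, Function.update_self]; omega
        · rw [up j a]; exact (r0 j).trans k.le_succ
      · by_cases a : j = i
        · rw [a, Function.update_self]; omega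
        · rw [up j a]; exact Nat.lt_succ_of_le (r0 j)
      · by_cases a : j = i
        · exact le_trans (card_le_card fun l hl => mem_filter.2
            ⟨(mem_filter.1 hl).1, a ▸ (mem_filter.1 hl).2.1⟩) c
        · refine le_trans (card_le_card fun l hl => ?_) (r3 j (mem_erase.2 ⟨a, hj⟩))
          obtain ⟨l1, l2, l3⟩ := mem_filter.1 hl
          rw [up j a] at l3
          have n : l ≠ i := fun q => by
            rw [q, Function.update_self] at l3
            have := r0 j; omega
          rw [up l n] at l3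
          exact mem_filter.2 ⟨mem_erase.2 ⟨n, l1⟩, l2, l3⟩
  obtain ⟨rk, r1, -, -, r3⟩ := key _ univ rfl
  exact ⟨rk, fun x y q => r1 (by simp) (by simp) q, fun i => r3 i (mem_univ i)⟩

/-- the plane attached to a corner -/
def pl (M : PM V F D) (B : F → Prop) [DecidablePred B] (d : D) : F ⊕ D :=
  if B (M.lf d) then .inl (M.lf d) else .inr d

/-- two planes through the same vertex -/
def Ad (M : PM V F D) (B : F → Prop) [DecidablePred B] (t : V → Fin 3 → D) (α β : F ⊕ D) : Prop :=
  ∃ x i j, i ≠ j ∧ pl M B (t x i) = α ∧ pl M B (t x j) = β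

omit [Fintype D] [DecidableEq V] [Fintype V] [Fintype F] [DecidableEq F] in
lemma pl_fc (B : F → Prop) [DecidablePred B] (d : D) : Sum.elim id M.lf (pl M B d) = M.lf d := by
  unfold pl; split_ifs <;> rfl

lemma planes [DecidableEq D] (he : M.Exa) (B : F → Prop) [DecidablePred B] (t : V → Fin 3 → D)
    (tt : ∀ x j, M.tl (t x j) = x) (ti : ∀ x, Function.Injective (t x)) [DecidableRel (Ad M B t)] :
    ∃ rk : F ⊕ D → ℕ, Function.Injective rk ∧ ∀ i, #(Low rk (Ad M B t) i) ≤ 36 := by
  classical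
  refine order _ fun S hS => ?_
  by_cases h : ∃ d, Sum.inr d ∈ S
  · obtain ⟨d, hd⟩ := h
    refine ⟨_, hd, (card_le_card (t := univ.image fun j => pl M B (t (M.tl d) j)) fun β hβ => ?_).trans
      (card_image_le.trans (by simp))⟩
    obtain ⟨x, i, j, -, h1, h2⟩ := (mem_filter.1 hβ).2
    have : t x i = d := by unfold pl at h1; split_ifs at h1; simpa using h1
    exact mem_image.2 ⟨j, mem_univ _, by rw [← this, tt, h2]⟩
  · have l : ∀ α ∈ S, ∃ f, α = Sum.inl f := by
      rintro (f | d) k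
      exacts [⟨f, rfl⟩, absurd ⟨d, k⟩ h]
    obtain ⟨f, hf, c⟩ := few he t tt ti S.toLeft (by
      obtain ⟨α, k⟩ := hS
      obtain ⟨f, rfl⟩ := l α k
      exact ⟨f, by simpa using k⟩)
    refine ⟨Sum.inl f, by simpa using hf, le_trans ((card_le_card fun β hβ => ?_).trans
      (card_image_le (f := Sum.inl))) c⟩
    obtain ⟨k, x, i, j, ij, h1, h2⟩ := mem_filter.1 hβ
    obtain ⟨g, rfl⟩ := l β k
    exact mem_image_of_mem _ (mem_filter.2 ⟨by simpa using k, x, i, j, ij,
      by rw [← pl_fc B, h1]; rfl, by rw [← pl_fc B, h2]; rfl⟩)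

end Pool.Agent.Lib.MP_d5dfc1_co.Sq
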