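import Pool.Agent.Lib.MP_d5dfc1_co.ExA2
import Pool.Agent.Lib.MP_d5dfc1_co.SqDeg

/-! Rounding a well conditioned realisation to the integer grid. -/

namespace Pool.Agent.Lib.MP_d5dfc1_co.Sq

open Finset Ex

variable {V F D : Type} {M : PM V F D} {p : V → V3} {n : F → V3} {c : F → ℝ}

/-- well conditioned realisation -/
structure WC (M : PM V F D) (p : V → V3) (n : F → V3) (c : F → ℝ) (X : ℝ) : Prop where
  st : Strict M p n c
  pb : ∀ x k, |p x k| ≤ X
  nb : ∀ f k, |n f k| ≤ X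
  sl : ∀ x f, ¬ M.Inc x f → X⁻¹ ≤ slack p n c x f

lemma WC.mono {X Y : ℝ} (h : WC M p n c X) (X0 : 0 < X) (l : X ≤ Y) : WC M p n c Y :=
  ⟨h.st, fun x k => (h.pb x k).trans l, fun f k => (h.nb f k).trans l,
    fun x f i => (inv_anti₀ X0 l).trans (h.sl x f i)⟩

lemma rmul {a b A B : ℝ} (h1 : |a| ≤ A) (h2 : |b| ≤ B) : |a * b| ≤ A * B := by
  rw [abs_mul]; exact mul_le_mul h1 h2 (abs_nonneg _) ((abs_nonneg _).trans h1)

lemma dot_bd {x y : V3} {A B : ℝ} (hx : ∀ k, |x k| ≤ A) (hy : ∀ k, |y k| ≤ B) :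
    |dot x y| ≤ 3 * (A * B) :=
  (abs_add_three _ _ _).trans (by linarith [rmul (hx 0) (hy 0), rmul (hx 1) (hy 1), rmul (hx 2) (hy 2)])

lemma cross_bd {x y : V3} {A B : ℝ} (hx : ∀ k, |x k| ≤ A) (hy : ∀ k, |y k| ≤ B) (k : Fin 3) :
    |cross x y k| ≤ 2 * (A * B) := by
  have : ∀ a b c d, |x a * y b - x c * y d| ≤ 2 * (A * B) := fun a b c d =>
    (abs_sub _ _).trans (by linarith [rmul (hx a) (hy b), rmul (hx c) (hy d)])
  fin_cases k <;> exact this _ _ _ _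

lemma sub_bd {x y : V3} {A B : ℝ} (hx : ∀ k, |x k| ≤ A) (hy : ∀ k, |y k| ≤ B) (k : Fin 3) :
    |(x - y) k| ≤ A + B := (abs_sub _ _).trans (add_le_add (hx k) (hy k))

lemma cramer (a b e z : V3) (k : Fin 3) : det3 a b e * z k =
    dot a z * cross b e k + dot b z * cross e a k + dot e z * cross a b k := by
  fin_cases k <;> simp [det3, dot, cross] <;> ring

variable [Fintype D] [DecidableEq V] [Fintype V] [Fintype F] [DecidableEq F]

omit [DecidableEq V] [Fintype F] [DecidableEq F] in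
lemma exOri (h : Strict M p n c) : ∃ p' n', Strict M p' n' c ∧ Ori M p' n' := by
  rcases isEmpty_or_nonempty D with e | ⟨⟨d⟩⟩
  · exact ⟨p, n, h, fun d => e.elim d⟩
  · rcases h.pos_or d with a | a
    exacts [⟨_, _, h, h.ori h.con a⟩, ⟨_, _, h.neg, h.neg.ori h.con a⟩]

omit [Fintype F] in
lemma st_ef (h : Strict M p n c) (d : D) (g : F) (i : M.Inc (M.tl d) g) (j : M.Inc (M.hd d) g) :
    g = M.lf d ∨ g = M.rf d := by
  obtain ⟨p', n', h', O⟩ := exOri h
  exact efA h' O d g i j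

lemma st_exa (h : Strict M p n c) : M.Exa := by
  obtain ⟨p', n', h', O⟩ := exOri h
  exact h'.exa O

omit [Fintype F] in
/-- three faces at a vertex are independent -/
lemma det_v (h : Strict M p n c) {δ : ℝ} (δ0 : 0 ≤ δ) (sl : ∀ x f, ¬ M.Inc x f → δ ≤ slack p n c x f)
    {x : V} {a b e : D} (ha : M.tl a = x) (hb : M.tl b = x) (he : M.tl e = x) (ab : a ≠ b) (be : b ≠ e)
    (ea : e ≠ a) : δ ^ 3 ≤ |det3 (n (M.lf a)) (n (M.lf b)) (n (M.lf e))| *
      |det3 (p (M.hd a) - p x) (p (M.hd b) - p x) (p (M.hd e) - p x)| := by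
  have s : ∀ d d', M.tl d = x → dot (n (M.lf d)) (p (M.hd d') - p x)
      = - slack p n c (M.hd d') (M.lf d) := fun d d' t => h.1.sub ⟨d, t, rfl⟩ _
  have z : ∀ d, slack p n c (M.hd d) (M.lf d) = 0 := fun d => h.1 _ _ (M.inc_hd_lf d)
  have q : ∀ d d', M.tl d = x → M.tl d' = x → d ≠ d' → d ≠ M.sg d' →
      δ ≤ slack p n c (M.hd d') (M.lf d) := fun d d' t t' n1 n2 => sl _ _ fun i => by
    rcases st_ef h d' _ ⟨d, t.trans t'.symm, rfl⟩ i with k | k
    · exact n1 (M.uniq _ _ (t.trans t'.symm) k)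
    · exact n2 (M.uniq _ _ (by simp [t, t']) (by simpa using k))
  have w : ∀ {u v w : ℝ}, δ ≤ u → δ ≤ v → δ ≤ w → δ ^ 3 ≤ u * v * w := fun {u v w} h1 h2 h3 => by
    rw [pow_three']
    exact mul_le_mul (mul_le_mul h1 h2 δ0 (δ0.trans h1)) h3 δ0 (mul_nonneg (δ0.trans h1) (δ0.trans h2))
  rw [← abs_mul, ← abs_neg, det_mul, s _ _ ha, s _ _ ha, s _ _ ha, s _ _ hb, s _ _ hb, s _ _ hb,
    s _ _ he, s _ _ he, s _ _ he, z, z, z]
  refine le_trans ?_ (le_abs_self _)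
  have p1 := mul_nonneg (mul_nonneg (h.le (M.hd b) (M.lf a)) (h.le (M.hd e) (M.lf b)))
    (h.le (M.hd a) (M.lf e))
  have p2 := mul_nonneg (mul_nonneg (h.le (M.hd e) (M.lf a)) (h.le (M.hd a) (M.lf b)))
    (h.le (M.hd b) (M.lf e))
  by_cases k : a ≠ M.sg b ∧ b ≠ M.sg e ∧ e ≠ M.sg a
  · linarith [w (q a b ha hb ab k.1) (q b e hb he be k.2.1) (q e a he ha ea k.2.2)]
  · have t : ∀ {a b e : D}, a ≠ e → b ≠ e → a = M.sg b → a ≠ M.sg e ∧ b ≠ M.sg a ∧ e ≠ M.sg b :=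
      fun {a b e} n1 n2 j => ⟨fun i => n2 (M.sg.injective (j.symm.trans i)),
        fun i => M.sg_sg_ne b (by rw [← j, ← i]), fun i => n1 (j.trans i.symm)⟩
    have k' : a ≠ M.sg e ∧ b ≠ M.sg a ∧ e ≠ M.sg b := by
      simp only [not_and_or, not_not] at k
      rcases k with k | k | k
      · exact t ea.symm be k
      · have := t ab.symm ea k; tauto
      · have := t be.symm ab k; tauto
    linarith [w (q a e ha he ea.symm k'.1) (q b a hb ha ab.symm k'.2.1) (q e b he hb be.symm k'.2.2)]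

omit [Fintype D] [DecidableEq V] [Fintype V] [Fintype F] [DecidableEq F] in
/-- stability of an intersection point -/
lemma pt {W ε : ℝ} (W2 : 2 ≤ W) (ε0 : 0 ≤ ε) (hε : ε * W ^ 19 ≤ 1) {m N : Fin 3 → V3} {c C : Fin 3 → ℝ}
    {q y : V3} (hm : ∀ i k, |m i k| ≤ W) (hq : ∀ k, |q k| ≤ W) (hN : ∀ i k, |(N i - m i) k| ≤ ε)
    (hC : ∀ i, |C i - c i| ≤ ε) (e1 : ∀ i, dot (m i) q = c i) (e2 : ∀ i, dot (N i) y = C i)
    (hd : 1 ≤ |det3 (m 0) (m 1) (m 2)| * (48 * W ^ 6)) (k : Fin 3) : |(y - q) k| ≤ ε * W ^ 21 := by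
  have zb : ∀ k, |(y - q) k| ≤ ‖y - q‖ := fun k => norm_le_pi_norm (y - q) k
  set Z := ‖y - q‖ with hZ
  have Z0 : 0 ≤ Z := norm_nonneg _
  have W0 : 0 < W := by linarith
  have r : ∀ i, |dot (m i) (y - q)| ≤ ε + 3 * (ε * W) + 3 * (ε * Z) := fun i => by
    have : dot (m i) (y - q) = (C i - c i) - dot (N i - m i) q - dot (N i - m i) (y - q) := by
      rw [← e1, ← e2]; simp only [dot, Pi.sub_apply]; ring
    rw [this]
    linarith [abs_sub (C i - c i - dot (N i - m i) q) (dot (N i - m i) (y - q)),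
      abs_sub (C i - c i) (dot (N i - m i) q), hC i, dot_bd (hN i) hq, dot_bd (hN i) zb]
  have b : Z ≤ 288 * W ^ 8 * (ε + 3 * (ε * W) + 3 * (ε * Z)) :=
    (pi_norm_le_iff_of_nonneg (by positivity)).2 fun k => by
      have a : |det3 (m 0) (m 1) (m 2)| * |(y - q) k|
          ≤ 3 * ((ε + 3 * (ε * W) + 3 * (ε * Z)) * (2 * (W * W))) := by
        rw [← abs_mul, cramer]
        exact (abs_add_three _ _ _).trans (by
          linarith [rmul (r 0) (cross_bd (hm 1) (hm 2) k), rmul (r 1) (cross_bd (hm 2) (hm 0) k),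
            rmul (r 2) (cross_bd (hm 0) (hm 1) k)])
      calc ‖(y - q) k‖ = 1 * |(y - q) k| := by rw [one_mul]; rfl
        _ ≤ (|det3 (m 0) (m 1) (m 2)| * (48 * W ^ 6)) * |(y - q) k| := by gcongr
        _ = (48 * W ^ 6) * (|det3 (m 0) (m 1) (m 2)| * |(y - q) k|) := by ring
        _ ≤ (48 * W ^ 6) * (3 * ((ε + 3 * (ε * W) + 3 * (ε * Z)) * (2 * (W * W)))) := by gcongr
        _ = _ := by ring
  have w11 : 2 ^ 11 ≤ W ^ 11 := pow_le_pow_left₀ (by norm_num) W2 _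
  have w12 : 2 ^ 12 ≤ W ^ 12 := pow_le_pow_left₀ (by norm_num) W2 _
  have u : 0 ≤ ε * W ^ 8 := by positivity
  have c1 : 1728 * (ε * W ^ 8) ≤ 1 := by
    calc _ ≤ W ^ 11 * (ε * W ^ 8) := by gcongr; linarith
      _ = ε * W ^ 19 := by ring
      _ ≤ 1 := hε
  have c2 : 2304 * (ε * W ^ 8 * W) ≤ ε * W ^ 21 := by
    calc _ ≤ W ^ 12 * (ε * W ^ 8 * W) := by gcongr; linarith
      _ = _ := by ring
  have c3 : 1728 * (ε * W ^ 8) * Z ≤ 1 * Z := by gcongr
  have c4 : ε * W ^ 8 * 1 ≤ ε * W ^ 8 * W := by gcongr; linarith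
  have : Z ≤ 288 * (ε * W ^ 8) + 864 * (ε * W ^ 8 * W) + 864 * (ε * W ^ 8) * Z := b.trans_eq (by ring)
  linarith [zb k]

omit [Fintype D] [DecidableEq V] [Fintype V] [Fintype F] [DecidableEq F] in
/-- a nearby configuration with the same incidences is a realisation -/
lemma near {W κ : ℝ} (h : WC M p n c W) (W2 : 2 ≤ W) (hκ : κ * W ^ 6 ≤ 1) {p' : V → V3} {n' : F → V3}
    {c' : F → ℝ} (Z : Zero M p' n' c') (hp : ∀ x k, |(p' x - p x) k| ≤ κ)
    (hn : ∀ f k, |(n' f - n f) k| ≤ κ) : Strict M p' n' c' := by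
  refine ⟨Z, fun x f i => ?_⟩
  obtain ⟨d, hd⟩ := M.lf_surj f
  have W0 : 0 < W := by linarith
  have κ0 : 0 ≤ κ := (abs_nonneg _).trans (hp x 0)
  have w4 : 2 ^ 4 ≤ W ^ 4 := pow_le_pow_left₀ (by norm_num) W2 _
  have c1 : 16 * (κ * W) ≤ W⁻¹ := by
    rw [← one_div, le_div_iff₀ W0]
    calc _ ≤ W ^ 4 * (κ * W) * W := by gcongr; linarith
      _ = κ * W ^ 6 := by ring
      _ ≤ 1 := hκ
  have c2 : W⁻¹ ≤ 1 := inv_le_one_of_one_le₀ (by linarith)
  have κ1 : κ ≤ 1 := by nlinarith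
  have a := Z.sub ⟨d, rfl, hd⟩ x
  have b := h.st.1.sub ⟨d, rfl, hd⟩ x
  have e : dot (n' f) (p' x - p' (M.tl d)) = dot (n f) (p x - p (M.tl d))
      + dot (n' f - n f) (p x - p (M.tl d)) + dot (n' f - n f) ((p' x - p x) - (p' (M.tl d) - p (M.tl d)))
      + dot (n f) ((p' x - p x) - (p' (M.tl d) - p (M.tl d))) := by
    simp only [dot, Pi.sub_apply]; ring
  have b1 := (abs_le.1 (dot_bd (hn f) (sub_bd (h.pb x) (h.pb (M.tl d))))).2
  have b2 := (abs_le.1 (dot_bd (hn f) (sub_bd (hp x) (hp (M.tl d))))).2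
  have b3 := (abs_le.1 (dot_bd (h.nb f) (sub_bd (hp x) (hp (M.tl d))))).2
  have b4 : κ * (κ * 2) ≤ κ * W := by gcongr; linarith
  have := h.sl x f i
  have := inv_pos.2 W0
  nlinarith

omit [Fintype D] [DecidableEq V] [Fintype V] [Fintype F] [DecidableEq F] in
/-- the plane of a triangle after moving its vertices -/
lemma tri {W η : ℝ} (h : WC M p n c W) (W2 : 2 ≤ W) (η1 : η ≤ 1) {y : V → V3}
    (hy : ∀ x k, |(y x - p x) k| ≤ η) {d : D} (h3 : M.nx (M.nx (M.nx d)) = d) :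
    ∃ (N : V3) (C : ℝ), (∀ k, |(N - n (M.lf d)) k| ≤ η * W ^ 13) ∧
      ∀ x, M.Inc x (M.lf d) → dot N (y x) = C := by
  have W0 : 0 < W := by linarith
  have η0 : 0 ≤ η := (abs_nonneg _).trans (hy (M.tl d) 0)
  have T := exTri h3
  have o1 : ¬ M.Inc (M.hd (M.nx d)) (M.rf d) := by simpa using T.opp
  have o2 : ¬ M.Inc (M.hd d) (M.rf (M.nx (M.nx d))) := by
    have := (exTri (d := M.nx (M.nx d)) (by rw [h3])).opp
    rw [h3] at this
    simpa using this
  have iu : M.Inc (M.tl d) (M.rf (M.nx (M.nx d))) := by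
    have := M.inc_hd_rf (M.nx (M.nx d))
    rwa [← M.tl_nx, h3] at this
  have iw : M.Inc (M.hd (M.nx d)) (M.rf (M.nx (M.nx d))) := by
    simpa using M.inc_tl_rf (M.nx (M.nx d))
  have iw' : M.Inc (M.hd (M.nx d)) (M.lf d) := by simpa using M.inc_hd_lf (M.nx d)
  have n0 : n (M.lf d) ≠ 0 := fun z => by
    have := h.st.1.sub (M.inc_tl_lf d) (M.hd (M.sg d))
    have := h.st.2 _ _ (M.nd2 d)
    simp only [z, dot, Pi.zero_apply] at *
    linarith
  have sw : ∀ a b : V3, dot a b = dot b a := fun a b => by simp only [dot]; ring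
  have e := par_of_cross n0 (cross_of_perp
    ((sw _ _).trans (h.st.1.perp (M.inc_tl_lf d) (M.inc_hd_lf d)))
    ((sw _ _).trans (h.st.1.perp (M.inc_tl_lf d) iw')))
  generalize dot (n (M.lf d)) _ / _ = l at e
  have s1 := h.st.1.perp (M.inc_tl_rf d) (M.inc_hd_rf d)
  have s2 := h.st.1.sub (M.inc_tl_rf d) (M.hd (M.nx d))
  have s3 := h.st.1.sub iu (M.hd d)
  have s4 := h.st.1.perp iu iw
  have id : ∀ g g' a b : V3, dot (cross g g') (cross a b) = dot g a * dot g' b - dot g b * dot g' a :=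
    fun g g' a b => by simp only [dot, cr0, cr1, cr2]; ring
  have k := id (n (M.rf d)) (n (M.rf (M.nx (M.nx d)))) (p (M.hd d) - p (M.tl d))
    (p (M.hd (M.nx d)) - p (M.tl d))
  rw [s1, s2, s3, s4, e, dot_smul'] at k
  have lb : W⁻¹ * W⁻¹ ≤ |l| * (3 * (2 * (W * W) * W)) := by
    have a := rmul (le_refl |l|) (dot_bd (cross_bd (h.nb (M.rf d)) (h.nb (M.rf (M.nx (M.nx d)))))
      (h.nb (M.lf d)))
    have b := mul_le_mul (h.sl _ _ o1) (h.sl _ _ o2) (inv_pos.2 W0).le (h.st.le _ _)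
    rw [k] at a
    linarith [(abs_le.1 a).1]
  have l1 : 1 ≤ |l| * (6 * W ^ 5) := by
    calc 1 = W⁻¹ * W⁻¹ * (W * W) := by field_simp
      _ ≤ |l| * (3 * (2 * (W * W) * W)) * (W * W) := by gcongr
      _ = _ := by ring
  have l0 : l ≠ 0 := by rintro rfl; norm_num at l1
  refine ⟨l⁻¹ • cross (y (M.hd d) - y (M.tl d)) (y (M.hd (M.nx d)) - y (M.tl d)),
    dot (l⁻¹ • cross (y (M.hd d) - y (M.tl d)) (y (M.hd (M.nx d)) - y (M.tl d))) (y (M.tl d)),
    fun k => ?_, fun x i => ?_⟩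
  · have a : ∀ u v k, |((y u - p u) - (y v - p v)) k| ≤ η + η := fun u v => sub_bd (hy u) (hy v)
    have b : ∀ u v k, |(p u - p v) k| ≤ W + W := fun u v => sub_bd (h.pb u) (h.pb v)
    have e' : l * (l⁻¹ • cross (y (M.hd d) - y (M.tl d)) (y (M.hd (M.nx d)) - y (M.tl d))
        - n (M.lf d)) k = cross ((y (M.hd d) - p (M.hd d)) - (y (M.tl d) - p (M.tl d)))
          ((y (M.hd (M.nx d)) - p (M.hd (M.nx d))) - (y (M.tl d) - p (M.tl d))) k
        + cross ((y (M.hd d) - p (M.hd d)) - (y (M.tl d) - p (M.tl d)))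
          (p (M.hd (M.nx d)) - p (M.tl d)) k + cross (p (M.hd d) - p (M.tl d))
          ((y (M.hd (M.nx d)) - p (M.hd (M.nx d))) - (y (M.tl d) - p (M.tl d))) k := by
      have := congrFun e k
      rw [Pi.sub_apply, Pi.smul_apply, smul_eq_mul, mul_sub, mul_inv_cancel_left₀ l0,
        ← smul_eq_mul, ← Pi.smul_apply, ← this]
      fin_cases k <;> simp [cross] <;> ring
    generalize (l⁻¹ • cross (y (M.hd d) - y (M.tl d)) (y (M.hd (M.nx d)) - y (M.tl d))
        - n (M.lf d)) k = z at e' ⊢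
    have b' : |l| * |z| ≤ 2 * ((η + η) * (η + η)) + 2 * ((η + η) * (W + W)) + 2 * ((W + W) * (η + η)) := by
      rw [← abs_mul, e']
      exact (abs_add_three _ _ _).trans (add_le_add (add_le_add (cross_bd (a _ _) (a _ _) k)
        (cross_bd (a _ _) (b _ _) k)) (cross_bd (b _ _) (a _ _) k))
    have b4 : η * (η * 2) ≤ η * W := by gcongr; linarith
    have w7 : 2 ^ 7 ≤ W ^ 7 := pow_le_pow_left₀ (by norm_num) W2 _
    calc |z| = 1 * |z| := by ring
      _ ≤ |l| * (6 * W ^ 5) * |z| := by gcongr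
      _ = 6 * W ^ 5 * (|l| * |z|) := by ring
      _ ≤ 6 * W ^ 5 * (20 * (η * W)) := mul_le_mul_of_nonneg_left (by linarith) (by positivity)
      _ = 120 * (η * W ^ 6) := by ring
      _ ≤ W ^ 7 * (η * W ^ 6) := by gcongr; linarith
      _ = _ := by ring
  · obtain ⟨j, rfl⟩ := (T.all x).1 i
    rw [← sub_eq_zero, ← dot_sub, smul_dot']
    fin_cases j <;> simp [dot, cross] <;> right <;> ring

omit [Fintype V] [Fintype F] [DecidableEq F] in
lemma three [DecidableEq D] (B : F → Prop) [DecidablePred B]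
    (h3 : ∀ x, #{d | M.tl d = x ∧ B (M.lf d)} ≤ 3) : ∃ t : V → Fin 3 → D, (∀ x j, M.tl (t x j) = x) ∧
      (∀ x, Function.Injective (t x)) ∧ ∀ d, B (M.lf d) → ∃ j, t (M.tl d) j = d := by
  have : ∀ x, ∃ t : Fin 3 → D, (∀ j, M.tl (t j) = x) ∧ Function.Injective t ∧
      ∀ d, M.tl d = x → B (M.lf d) → ∃ j, t j = d := fun x => by
    obtain ⟨d, hd⟩ := M.tl_surj x
    obtain ⟨u, u1, u2, u3⟩ := exists_subsuperset_card_eq (s := {d | M.tl d = x ∧ B (M.lf d)})
      (t := {d | M.tl d = x}) (n := 3) (fun e => by simp +contextual) (h3 x)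
      (le_trans (card_eq_three.2 ⟨d, M.sg d, M.sg (M.sg d), (M.sg_ne d).symm, (M.sg_sg_ne d).symm,
        (M.sg_ne _).symm, rfl⟩).ge (card_le_card (by simp [insert_subset_iff, hd])))
    let e := (u.equivFinOfCardEq u3).symm
    exact ⟨fun j => e j, fun j => by simpa using u2 (e j).2, Subtype.val_injective.comp e.injective,
      fun d h1 h2 => ⟨e.symm ⟨d, u1 (by simp [h1, h2])⟩, by simp⟩⟩
  choose t t1 t2 t3 using this
  exact ⟨t, t1, t2, fun d => t3 _ d rfl⟩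

lemma floor_bd {z : ℤ} {r A : ℝ} (h : (|z - ⌊r⌋| : ℝ) ≤ A) : |z - r| ≤ A + 1 := by
  have a := Int.floor_le r
  have b := Int.lt_floor_add_one r
  rw [abs_le] at h ⊢
  constructor <;> linarith [h.1, h.2]

/-- rounding: at most three non-triangular faces at every vertex -/
theorem gridB : ∃ C : ℕ, ∀ (V F D : Type) [Fintype D] [DecidableEq V] [Fintype V] [Fintype F]
    (M : PM V F D) (p : V → V3) (n : F → V3) (c : F → ℝ) (X : ℝ) (B : F → Prop) [DecidablePred B],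
    WC M p n c X → 2 ≤ X → 2 * (Fintype.card D : ℝ) ≤ X →
    (∀ d, ¬ B (M.lf d) → M.nx (M.nx (M.nx d)) = d) → (∀ x, #{d | M.tl d = x ∧ B (M.lf d)} ≤ 3) →
    ∃ (p' : V → V3) (n' : F → V3) (c' : F → ℝ), Strict M p' n' c' ∧ ∀ x k, (∃ z : ℤ, p' x k = z) ∧
      0 ≤ p' x k ∧ p' x k ≤ X ^ C := by
  obtain ⟨a, g, a0, R⟩ := round 36 48
  refine ⟨2 * a * (g + 3), fun V F D _ _ _ _ M p n c X B _ h X2 cD hB h3 => ?_⟩
  classical
  obtain ⟨v, v1, v2⟩ := exists_nat_pow_near (x := X) (y := 2) (by linarith) one_lt_two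
  obtain ⟨t, tt, ti, tB⟩ := three B h3
  obtain ⟨rk, inj, deg⟩ := planes (st_exa h.st) B t tt ti
  obtain ⟨P, hP⟩ : ∃ P, P = a * (v + 1) := ⟨_, rfl⟩
  set W : ℝ := 2 ^ P with hW
  have XW : X ≤ W := v2.le.trans (pow_le_pow_right₀ one_le_two (hP ▸ Nat.le_mul_of_pos_left _ a0))
  have WX : W ≤ X ^ (2 * a) := by
    rw [hW, hP, mul_comm a, pow_mul, pow_mul]
    exact pow_le_pow_left₀ (by positivity) (by rw [pow_succ, sq]; gcongr) _
  have W2 : 2 ≤ W := X2.trans XW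
  have W0 : 0 < W := by linarith
  have W1 : 1 ≤ W := by linarith
  replace h := h.mono (by linarith) XW
  have cast : ∀ (z : ℤ) (k : ℕ), |z| ≤ 2 ^ (k * (a * (v + 1))) ↔ (|z| : ℝ) ≤ W ^ k := fun z k => by
    rw [← hP, hW, ← pow_mul, mul_comm P]; norm_cast
  have up : ∀ k, W ^ k + 1 ≤ W ^ (k + 1) := fun k => by
    have := one_le_pow₀ (n := k) W1
    rw [pow_succ]; nlinarith
  set fc : F ⊕ D → F := Sum.elim id M.lf with hfc
  obtain ⟨N, hN, R⟩ := R (v + 1) v.succ_pos (F ⊕ D) rk (Ad M B t) inj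
    (fun _ _ ⟨x, i, j, ij, h1, h2⟩ => ⟨x, j, i, ij.symm, h2, h1⟩)
    (fun _ ⟨x, i, j, ij, h1, h2⟩ => ij (ti x (M.uniq _ _ (by rw [tt, tt])
      (by rw [← pl_fc B, h1, ← h2, pl_fc])))) deg
    (by
      have := Fintype.card_le_of_surjective _ M.lf_surj
      have e : ((2 * Fintype.card D : ℕ) : ℝ) ≤ (2 ^ P : ℕ) := by push_cast; linarith
      rw [Fintype.card_sum, ← hP]
      exact le_trans (by omega) (Nat.cast_le.1 e))
    (fun α k => ⌊W ^ 46 * n (fc α) k⌋) fun α k => (cast _ _).2 (by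
      have b := abs_le.1 (rmul (abs_of_pos (pow_pos W0 46)).le (h.nb (fc α) k))
      have := Int.floor_le (W ^ 46 * n (fc α) k)
      have := Int.lt_floor_add_one (W ^ 46 * n (fc α) k)
      have : W ^ 47 + 1 ≤ W ^ 48 := up 47
      rw [abs_le]
      constructor <;> linarith [b.1, b.2, pow_pos W0 47])
  obtain ⟨C, hC, R⟩ := R fun α => ⌊W ^ 46 * W ^ g * c (fc α)⌋
  choose y y0 y1 y2 using fun x => R (pl M B (t x 0)) (pl M B (t x 1)) (pl M B (t x 2))
    ⟨x, 0, 1, by decide, rfl, rfl⟩ ⟨x, 1, 2, by decide, rfl, rfl⟩ ⟨x, 0, 2, by decide, rfl, rfl⟩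
  set N' : F ⊕ D → V3 := fun α k => N α k / W ^ 46 with hN'
  set C' : F ⊕ D → ℝ := fun α => C α / (W ^ 46 * W ^ g) with hC'
  set y' : V → V3 := fun x k => y x k / W ^ g with hy'
  set ε : ℝ := (W ^ 40)⁻¹ with hε
  have ε0 : 0 < ε := by positivity
  have εW : ∀ k ≤ 40, ε * W ^ k ≤ 1 := fun k hk => by
    rw [hε, inv_mul_le_one₀ (by positivity)]; exact pow_le_pow_right₀ W1 hk
  have n1 : ∀ α k, |(N' α - n (fc α)) k| ≤ ε := fun α k => by
    have a := (floor_bd (by exact_mod_cast (cast _ _).1 (hN α k))).trans (up 5)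
    have : (N' α - n (fc α)) k = (N α k - W ^ 46 * n (fc α) k) / W ^ 46 := by
      simp only [hN', Pi.sub_apply]; field_simp
    rw [this, abs_div, abs_of_pos (pow_pos W0 46), div_le_iff₀ (pow_pos W0 46)]
    exact a.trans_eq (by rw [hε]; field_simp)
  have c1 : ∀ α, |C' α - c (fc α)| ≤ ε := fun α => by
    have a := (floor_bd (by exact_mod_cast (cast _ _).1 (hC α))).trans (up g)
    have : C' α - c (fc α) = (C α - W ^ 46 * W ^ g * c (fc α)) / (W ^ 46 * W ^ g) := by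
      simp only [hC']; field_simp
    rw [this, abs_div, abs_of_pos (by positivity : 0 < W ^ 46 * W ^ g), div_le_iff₀ (by positivity)]
    refine a.trans (le_of_le_of_eq (pow_le_pow_right₀ W1 (by omega : g + 1 ≤ g + 6)) ?_)
    rw [hε]; field_simp; ring
  have on : ∀ x j, dot (N' (pl M B (t x j))) (y' x) = C' (pl M B (t x j)) := fun x j => by
    have : zd (N (pl M B (t x j))) (y x) = C (pl M B (t x j)) := by
      fin_cases j
      exacts [y0 x, y1 x, y2 x]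
    simp only [hN', hy', hC', dot, ← this, zd]
    push_cast
    field_simp
  have py : ∀ x k, |(y' x - p x) k| ≤ ε * W ^ 21 := fun x =>
    pt W2 ε0.le (εW 19 (by norm_num)) (m := fun j => n (M.lf (t x j))) (c := fun j => c (M.lf (t x j)))
      (fun j => h.nb _) (h.pb x) (fun j => pl_fc B (t x j) ▸ n1 (pl M B (t x j)))
      (fun j => pl_fc B (t x j) ▸ c1 (pl M B (t x j)))
      (fun j => (sub_eq_zero.1 (h.st.1 x _ ⟨_, tt x j, rfl⟩)).symm) (on x) (by
        have a := det_v h.st (inv_pos.2 W0).le h.sl (tt x 0) (tt x 1) (tt x 2)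
          ((ti x).ne (by decide)) ((ti x).ne (by decide)) ((ti x).ne (by decide))
        have b := det_bd (N := fun _ => W + W) (sub_bd (h.pb (M.hd (t x 0))) (h.pb x))
          (sub_bd (h.pb (M.hd (t x 1))) (h.pb x)) (sub_bd (h.pb (M.hd (t x 2))) (h.pb x))
        calc 1 = W⁻¹ ^ 3 * W ^ 3 := by field_simp
          _ ≤ |det3 (n (M.lf (t x 0))) (n (M.lf (t x 1))) (n (M.lf (t x 2)))|
              * (6 * ((W + W) * (W + W) * (W + W))) * W ^ 3 := by
            gcongr; exact a.trans (mul_le_mul_of_nonneg_left b (abs_nonneg _))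
          _ = _ := by ring)
  have η1 := εW 21 (by norm_num)
  have : ∀ f, ∃ (m : V3) (e : ℝ), (∀ k, |(m - n f) k| ≤ ε * W ^ 21 * W ^ 13) ∧
      ∀ x, M.Inc x f → dot m (y' x) = e := fun f => by
    obtain ⟨d, rfl⟩ := M.lf_surj f
    by_cases b : B (M.lf d)
    · refine ⟨N' (.inl (M.lf d)), C' (.inl (M.lf d)), fun k => (n1 _ k).trans ?_, ?_⟩
      · rw [mul_assoc, ← pow_add]; exact le_mul_of_one_le_right ε0.le (one_le_pow₀ W1)
      · rintro _ ⟨e, rfl, he⟩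
        obtain ⟨j, hj⟩ := tB e (he ▸ b)
        have := on (M.tl e) j
        rwa [hj, pl, if_pos (he ▸ b), he] at this
    · exact tri h W2 η1 py (hB d b)
  choose m e m1 m2 using this
  have st := near h W2 (κ := ε * W ^ 21 * W ^ 13) (le_of_eq_of_le (by ring) (εW 40 le_rfl))
    (p' := y') (n' := m) (c' := e) (fun x f i => sub_eq_zero.2 (m2 f x i).symm)
    (fun x k => (py x k).trans (le_mul_of_one_le_right (by positivity) (one_le_pow₀ W1))) m1
  refine ⟨fun x k => y x k + W ^ (g + 2), m, fun f => W ^ g * e f + dot (m f) fun _ => W ^ (g + 2),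
    st.of_slack fun x f => ⟨W ^ g, pow_pos W0 g, ?_⟩, fun x k => ?_⟩
  · simp only [slack, dot, hy']; field_simp; ring
  · have a : |(y x k : ℝ)| ≤ W ^ (g + 2) := by
      have b := abs_sub_abs_le_abs_sub (y' x k) (p x k)
      have b1 : |y' x k - p x k| ≤ ε * W ^ 21 := py x k
      have b2 : W ^ 1 + 1 ≤ W ^ 2 := up 1
      have b' : |y' x k| ≤ W ^ 2 := by linarith [h.pb x k]
      rwa [hy', abs_div, abs_of_pos (pow_pos W0 g), div_le_iff₀ (pow_pos W0 g), ← pow_add,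
        add_comm 2] at b'
    refine ⟨⟨y x k + 2 ^ (P * (g + 2)), by rw [hW, ← pow_mul]; norm_cast⟩, by linarith [(abs_le.1 a).1], ?_⟩
    calc _ ≤ W ^ (g + 2) * 2 := by linarith [(abs_le.1 a).2]
      _ ≤ W ^ (g + 2) * W := by gcongr
      _ = W ^ (g + 3) := by ring
      _ ≤ _ := by rw [pow_mul]; gcongr

end Pool.Agent.Lib.MP_d5dfc1_co.Sq
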