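import Pool.Agent.Lib.MP_d5dfc1_co.GmLift
import Pool.Agent.Lib.MP_d5dfc1_co.SqApx

/-! The lifted Tutte drawing is well conditioned. -/

namespace Pool.Agent.Lib.MP_d5dfc1_co.Gm

open Finset Ex

lemma wc_par {n u v : V3} (hn : n ≠ 0) (hu : dot n u = 0) (hv : dot n v = 0) (u0 : u ≠ 0)
    (h : dot n (cross u v) = 0) : ∃ t : ℝ, v = t • u := by
  have comm : ∀ x y : V3, dot x y = dot y x := fun x y => by simp only [dot]; ring
  have e := par_of_cross hn (cross_of_perp (comm _ _ ▸ hu) (comm _ _ ▸ hv))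
  rw [h, zero_div, zero_smul] at e
  exact ⟨_, par_of_cross u0 e⟩

lemma wc_cyc {ι : Type} (S : Finset ι) (s : Equiv.Perm ι) (hs : ∀ i, i ∈ S ↔ s i ∈ S)
    (r : ι → V3) {n l : V3} (hn : n ≠ 0) (h0 : ∀ i ∈ S, dot n (r i) = 0)
    (h1 : ∀ i ∈ S, 0 ≤ dot n (cross (r i) (r (s i)))) (h2 : ∀ i ∈ S, dot l (r i) < 0)
    (h3 : ∃ i ∈ S, 0 < dot n (cross (r i) (r (s i)))) : False := by
  obtain ⟨j, hj, h3⟩ := h3
  have np := dot_pos hn
  have e : ∀ i ∈ S, dot (dot n n • l - dot n l • n) (r i) = dot n n * dot l (r i) := fun i hi => by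
    have := h0 i hi
    simp only [dot, Pi.sub_apply, Pi.smul_apply, smul_eq_mul] at this ⊢
    linear_combination (-(n 0 * l 0 + n 1 * l 1 + n 2 * l 2)) * this
  refine cyc S s hs r (l := n) (y := dot n n • l - dot n l • n) (fun z => ?_) ?_
    (fun i hi => ?_) (fun i hi => ?_) ⟨j, hj, h3⟩
  · have := e j hj
    rw [z] at this
    have := mul_neg_of_pos_of_neg np (h2 j hj)
    simp only [dot, Pi.zero_apply] at *
    linarith
  · simp only [dot, Pi.sub_apply, Pi.smul_apply, smul_eq_mul]; ring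
  · rw [e i hi]; exact (mul_neg_of_pos_of_neg np (h2 i hi)).le
  · refine (h1 i hi).eq_or_lt.symm.imp id fun z => ?_
    have a1 := h2 i hi
    have a2 := h2 _ ((hs i).1 hi)
    obtain ⟨t, ht⟩ := wc_par hn (h0 i hi) (h0 _ ((hs i).1 hi))
      (fun k => by rw [k] at a1; simp [dot] at a1) z.symm
    refine ⟨t, ?_, ht⟩
    rw [ht, dot_smul'] at a2
    by_contra q
    nlinarith

variable {V F D : Type} [Fintype D] [DecidableEq V] [Fintype V] {M : PM V F D} {T : F} {a : Fin 3 → D}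
  {w : D → ℝ} {κ : V → Fin 3} [Fintype F] [DecidableEq F] {p : V → V3} {n : F → V3} {cc : F → ℝ}

omit [DecidableEq V] [Fintype V] [Fintype F] in
/-- a point of the plane of a face inside all its sides lies in the polytope -/
lemma wc_inside (h : Strict M p n cc) (O : Ori M p n) {f : F} {y : V3} (hy : dot (n f) y = cc f)
    (hn : ∀ d, M.lf d = f → dot (n (M.rf d)) y ≤ cc (M.rf d)) (g : F) : dot (n g) y ≤ cc g := by
  by_contra N
  obtain ⟨d0, hd0⟩ := M.lf_surj f
  have Z := h.1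
  have fn : ∀ d, M.lf d = f → dot (n f) (p (M.tl d) - y) = 0 := fun d t => by
    have := Z _ _ (t ▸ M.inc_tl_lf d)
    rw [slack] at this
    rw [dot_sub]; linarith
  have n0 : n f ≠ 0 := fun k => by
    have a1 := h.2 _ _ (hd0 ▸ M.nd2 d0)
    have a2 := Z.sub (hd0 ▸ M.inc_tl_lf d0) (M.hd (M.sg d0))
    rw [k] at a2
    simp only [dot, Pi.zero_apply] at a2
    linarith
  have neg : ∀ x, dot (n g) (p x - y) < 0 := fun x => by
    have := h.le x g
    rw [slack] at this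
    rw [dot_sub]; linarith
  have id : ∀ d, M.lf d = f → ∃ ω : ℝ, 0 < ω ∧ ω * dot (n f) (cross (p (M.tl d) - y) (p (M.hd d) - y))
      = dot (n f) (n f) * (cc (M.rf d) - dot (n (M.rf d)) y) := fun d t => by
    obtain ⟨ω, hω, q⟩ := O d
    refine ⟨ω, hω, ?_⟩
    have a1 := fn d t
    have a2 := Z _ _ (M.inc_tl_rf d)
    rw [t] at q
    have h0 := congrFun q 0; have h1 := congrFun q 1; have h2 := congrFun q 2
    simp only [slack, cr0, cr1, cr2, Pi.smul_apply, smul_eq_mul, Pi.sub_apply, dot] at h0 h1 h2 a1 a2 ⊢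
    linear_combination
      (-(n f 1 * (p (M.tl d) 2 - y 2) - n f 2 * (p (M.tl d) 1 - y 1))) * h0
      - (n f 2 * (p (M.tl d) 0 - y 0) - n f 0 * (p (M.tl d) 2 - y 2)) * h1
      - (n f 0 * (p (M.tl d) 1 - y 1) - n f 1 * (p (M.tl d) 0 - y 0)) * h2
      - (n f 0 * n f 0 + n f 1 * n f 1 + n f 2 * n f 2) * a2
      - (n f 0 * n (M.rf d) 0 + n f 1 * n (M.rf d) 1 + n f 2 * n (M.rf d) 2) * a1
  have ge : ∀ d, M.lf d = f → 0 ≤ dot (n f) (cross (p (M.tl d) - y) (p (M.hd d) - y)) := fun d t => by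
    obtain ⟨ω, hω, q⟩ := id d t
    have := mul_nonneg (dot_pos n0).le (sub_nonneg.2 (hn d t))
    rw [← q] at this
    exact (mul_nonneg_iff_of_pos_left hω).1 this
  refine wc_cyc (univ.filter fun d => M.lf d = f) M.nxP (by simp)
    (fun d => p (M.tl d) - y) (n := n f) (l := n g) n0
    (fun d hd => fn d (by simpa using hd)) (fun d hd => ?_) (fun d _ => neg _) ?_
  · simpa using ge d (by simpa using hd)
  · by_contra K
    push Not at K
    have z : ∀ d, M.lf d = f → dot (n f) (cross (p (M.tl d) - y) (p (M.hd d) - y)) = 0 := fun d t =>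
      le_antisymm (by simpa using K d (by simpa using t)) (ge d t)
    have t1 : M.lf (M.nx d0) = f := by simpa using hd0
    obtain ⟨t, ht⟩ := wc_par n0 (fn d0 hd0) (by simpa using fn _ t1)
      (fun k => by have := neg (M.tl d0); rw [k] at this; simp [dot] at this) (z d0 hd0)
    obtain ⟨t', ht'⟩ := wc_par n0 (fn _ t1) (by simpa using fn (M.nx (M.nx d0)) (by simpa using hd0))
      (fun k => by have := neg (M.tl (M.nx d0)); rw [k] at this; simp [dot] at this) (z _ t1)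
    obtain ⟨ω, hω, q⟩ := id d0 hd0
    rw [z d0 hd0, mul_zero] at q
    have q0 := (mul_eq_zero.1 q.symm).resolve_left (dot_pos n0).ne'
    have b1 := Z _ _ (M.inc_hd_rf d0)
    have b2 := h.2 _ _ (M.nd2 (M.rev d0))
    have b3 := congrArg (dot (n (M.rf d0))) ht'
    rw [sg_rev, PM.lf_rev] at b2
    rw [dot_smul', dot_sub, dot_sub, PM.tl_nx] at b3
    rw [slack] at b1 b2
    have b4 : dot (n (M.rf d0)) (p (M.hd d0)) - dot (n (M.rf d0)) y = 0 := by linarith
    rw [b4, mul_zero] at b3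
    linarith

omit [Fintype D] [DecidableEq V] [Fintype V] [Fintype F] [DecidableEq F] in
/-- the lowest vertex of a neighbouring face is next to the common edge -/
lemma wc_next (h : Strict M p n cc) (O : Ori M p n) {d : D} {x : V} (i : M.Inc x (M.rf d))
    (j : ¬ M.Inc x (M.lf d))
    (m : ∀ u, ¬ M.Inc u (M.lf d) → slack p n cc x (M.lf d) ≤ slack p n cc u (M.lf d)) :
    x = M.hd (M.sg d) ∨ ∃ e, M.nx e = M.rev d ∧ M.tl e = x := by
  obtain ⟨b, rfl, hb⟩ := i
  obtain ⟨e, rfl⟩ := M.sg.surjective b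
  rw [PM.lf_sg'] at hb
  rw [PM.tl_sg'] at j m ⊢
  obtain ⟨s, α, β, hs, hα, hβ, id⟩ := corner h O e (hb ▸ M.inc_tl_rf d)
  have k := id (n (M.lf d))
  have ev : ∀ u, dot (n (M.lf d)) (p u - p (M.tl e))
      = slack p n cc (M.tl e) (M.lf d) - slack p n cc u (M.lf d) := fun u => by
    rw [dot_sub, slack, slack]; ring
  rw [ev, ev, ev, h.1 _ _ (M.inc_tl_lf d)] at k
  have pos := mul_pos hs (h.2 _ _ j)
  by_cases c1 : M.Inc (M.hd e) (M.lf d)
  · rcases M.two' d c1 (hb ▸ M.inc_hd_rf e) with q | q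
    · left
      rw [← M.uniq (M.rev e) (M.sg d) (by simpa using q) (by simpa using hb), PM.hd_rev]
    · have := M.uniq (M.rev e) (M.rev d) (by simpa using q) (by simpa using hb)
      exact absurd (by rw [← PM.hd_rev, this, PM.hd_rev]; exact M.inc_tl_lf d) j
  by_cases c2 : M.Inc (M.hd (M.sg e)) (M.lf d)
  · rcases M.two' d c2 (hb ▸ M.lf_sg' e ▸ M.inc_hd_lf (M.sg e)) with q | q
    · have := M.uniq (M.nx (M.sg e)) (M.nx (M.rev d)) (by simpa using q) (by simpa using hb)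
      have := M.nxP.injective this
      exact absurd (by rw [← M.tl_sg' e, this]; exact M.inc_hd_lf d) j
    · exact Or.inr ⟨M.sg e, M.uniq _ _ (by simpa using q) (by simpa using hb), by simp⟩
  have := mul_nonneg hα (sub_nonneg.2 (m _ c1))
  have := mul_nonneg hβ (sub_nonneg.2 (m _ c2))
  exfalso
  linarith

lemma wc_cr {y z : V3} (hy : ∀ k, 0 ≤ y k) (hz : ∀ k, 0 ≤ z k) (sy : y 0 + y 1 + y 2 = 1)
    (sz : z 0 + z 1 + z 2 = 1) (k : Fin 3) : |cross y z k| ≤ 1 := by
  have c : ∀ a b c d : ℝ, 0 ≤ a → 0 ≤ b → 0 ≤ c → 0 ≤ d → a ≤ 1 → b ≤ 1 → c ≤ 1 → d ≤ 1 →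
      |a * b - c * d| ≤ 1 := fun a b c d a0 b0 c0 d0 a1 b1 c1 d1 => by
    have := mul_nonneg a0 b0; have := mul_nonneg c0 d0
    have := mul_le_one₀ a1 b0 b1; have := mul_le_one₀ c1 d0 d1
    rw [abs_le]; constructor <;> linarith
  have y0 := hy 0; have y1 := hy 1; have y2 := hy 2
  have z0 := hz 0; have z1 := hz 1; have z2 := hz 2
  fin_cases k
  exacts [c _ _ _ _ y1 z2 y2 z1 (by linarith) (by linarith) (by linarith) (by linarith),
    c _ _ _ _ y2 z0 y0 z2 (by linarith) (by linarith) (by linarith) (by linarith),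
    c _ _ _ _ y0 z1 y1 z0 (by linarith) (by linarith) (by linarith) (by linarith)]

lemma wc_det {x y z : V3} (hx : ∀ k, 0 ≤ x k) (hy : ∀ k, 0 ≤ y k) (hz : ∀ k, 0 ≤ z k)
    (sx : x 0 + x 1 + x 2 = 1) (sy : y 0 + y 1 + y 2 = 1) (sz : z 0 + z 1 + z 2 = 1) (k : Fin 3) :
    det3 x y z ≤ x k + y k + z k := by
  have x0 := hx 0; have x1 := hx 1; have x2 := hx 2
  have y0 := hy 0; have y1 := hy 1; have y2 := hy 2
  have z0 := hz 0; have z1 := hz 1; have z2 := hz 2
  have d : ∀ a u v : ℝ, 0 ≤ a → 0 ≤ v → u ≤ 1 → a * (u - v) ≤ a := fun a u v a0 v0 u1 => by nlinarith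
  have ex : x 2 = 1 - x 0 - x 1 := by linarith
  have ey : y 2 = 1 - y 0 - y 1 := by linarith
  have ez : z 2 = 1 - z 0 - z 1 := by linarith
  fin_cases k
  · have e : det3 x y z = x 0 * (y 1 - z 1) + y 0 * (z 1 - x 1) + z 0 * (x 1 - y 1) := by
      rw [det3, ex, ey, ez]; ring
    have := d _ (y 1) _ x0 z1 (by linarith); have := d _ (z 1) _ y0 x1 (by linarith)
    have := d _ (x 1) _ z0 y1 (by linarith)
    show _ ≤ x 0 + y 0 + z 0
    linarith
  · have e : det3 x y z = x 1 * (z 0 - y 0) + y 1 * (x 0 - z 0) + z 1 * (y 0 - x 0) := by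
      rw [det3, ex, ey, ez]; ring
    have := d _ (z 0) _ x1 y0 (by linarith); have := d _ (x 0) _ y1 z0 (by linarith)
    have := d _ (y 0) _ z1 x0 (by linarith)
    show _ ≤ x 1 + y 1 + z 1
    linarith
  · have e : det3 x y z = x 2 * (y 0 - z 0) + y 2 * (z 0 - x 0) + z 2 * (x 0 - y 0) := by
      rw [det3, ex, ey, ez]; ring
    have := d _ (y 0) _ x2 z0 (by linarith); have := d _ (z 0) _ y2 x0 (by linarith)
    have := d _ (x 0) _ z2 y0 (by linarith)
    show _ ≤ x 2 + y 2 + z 2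
    linarith

omit [Fintype V] [Fintype F] [DecidableEq F] in
/-- inner vertices are far from the outer triangle -/
lemma wc_far (hw : SP M w) {r : V → V3} (hr : Sol M w {x | M.Inc x T} κ r) {X : ℝ}
    (X2 : 2 ≤ X) (w1 : ∀ d, X⁻¹ ≤ w d ∧ w d ≤ X) (hD : (Fintype.card D : ℝ) ≤ X)
    (hA : ∀ d, M.lf d ≠ T → X⁻¹ ≤ ar M r d (M.hd (M.nx d)))
    (s1 : ∀ x, r x 0 + r x 1 + r x 2 = 1) (nn : ∀ x k, 0 ≤ r x k) {x : V} (hx : ¬ M.Inc x T)
    (k : Fin 3) : (X ^ 6)⁻¹ ≤ r x k := by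
  have X0 : 0 < X := by linarith
  have nb : ∀ d, M.tl d = x → r (M.hd d) k ≤ X ^ 3 * r x k := fun d t => by
    have e := hr.2 k x hx
    simp only [mul_sub, sum_sub_distrib, sub_eq_zero] at e
    have a1 : w d * r (M.hd d) k ≤ ∑ d with M.tl d = x, w d * r (M.hd d) k :=
      single_le_sum (f := fun d => w d * r (M.hd d) k) (fun e _ => mul_nonneg (hw.1 e).le (nn _ _))
        (by simpa using t)
    have a2 : ∑ d with M.tl d = x, w d * r x k ≤ X * (X * r x k) := by
      refine (sum_le_card_nsmul _ _ (X * r x k) fun e _ =>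
        mul_le_mul_of_nonneg_right (w1 e).2 (nn _ _)).trans ?_
      rw [nsmul_eq_mul]
      refine mul_le_mul_of_nonneg_right (le_trans ?_ hD) (mul_nonneg X0.le (nn _ _))
      exact_mod_cast card_le_univ _
    have a3 := mul_le_mul_of_nonneg_right (w1 d).1 (nn (M.hd d) k)
    have a4 := mul_le_mul_of_nonneg_left (a3.trans ((e ▸ a1).trans a2)) X0.le
    rw [← mul_assoc, mul_inv_cancel₀ X0.ne', one_mul] at a4
    linarith
  obtain ⟨d, rfl⟩ := M.tl_surj x
  have a := hA (M.rev d) (inn_rf hx)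
  rw [ar, nx_rev, PM.hd_rev, PM.tl_rev] at a
  have b := wc_det (nn (M.tl d)) (nn (M.hd d)) (nn (M.hd (M.sg d))) (s1 _) (s1 _) (s1 _) k
  have c1 := nb d rfl
  have c2 := nb (M.sg d) (by simp)
  have n0 := nn (M.tl d) k
  have X3 : 1 ≤ X ^ 3 := one_le_pow₀ (by linarith)
  have c3 : r (M.tl d) k ≤ X ^ 3 * r (M.tl d) k := le_mul_of_one_le_left n0 X3
  have c4 : 3 * (X ^ 3 * r (M.tl d) k) ≤ X ^ 2 * (X ^ 3 * r (M.tl d) k) :=
    mul_le_mul_of_nonneg_right (by nlinarith) (by positivity)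
  have c5 : X⁻¹ ≤ X ^ 5 * r (M.tl d) k := by linarith
  rw [inv_le_iff_one_le_mul₀' X0] at c5
  rw [inv_le_iff_one_le_mul₀' (pow_pos X0 6)]
  linarith

theorem wcA (st : Strict M p n cc) (h : Base M T a) (hw : SP M w)
    (hκ : ∀ j, κ (M.tl (a j)) = j) {r : V → V3} (hr : Sol M w {x | M.Inc x T} κ r) {X : ℝ}
    (X2 : 2 ≤ X) (w1 : ∀ d, X⁻¹ ≤ w d ∧ w d ≤ X) (hD : (Fintype.card D : ℝ) ≤ X)
    (hA : ∀ d, M.lf d ≠ T → X⁻¹ ≤ ar M r d (M.hd (M.nx d))) :
    ∃ p' n' c', Sq.WC M p' n' c' (X ^ 40) := by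
  classical
  obtain ⟨Q, z, q, s1, nn, hz, s, o⟩ := exQ st h hw hκ hr
  have hT := h.tri
  have X0 : 0 < X := by linarith
  have X1 : 1 ≤ X := by linarith
  have Xi : 0 < X⁻¹ := inv_pos.2 X0
  have hF : (Fintype.card F : ℝ) ≤ X :=
    le_trans (by exact_mod_cast Fintype.card_le_of_surjective M.lf M.lf_surj) hD
  have r1 : ∀ j k, r (M.tl (a j)) k = if k = j then 1 else 0 := fun j k => by
    rw [hr.1 _ (hT.inc j), hκ]
  have r2 : ∀ j (u : V3), dot (r (M.tl (a j))) u = u j := fun j u => by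
    fin_cases j <;> simp [dot, r1]
  have ne : M.rf (a 0) ≠ T := hT.lf 0 ▸ M.rf_ne _
  have inn : ∀ d, M.lf d ≠ T → M.rf d ≠ T →
      Q (M.rf d) - Q (M.lf d) = w d • cross (r (M.tl d)) (r (M.hd d)) := fun d e1 e2 => by
    rw [q d, wsp, if_neg fun i => (h.ef d T i.1 i.2).elim (fun e => e1 e.symm) fun e => e2 e.symm]
  set S := slack (pA r z) (nA T Q) (cA T Q) with hS
  have sI : ∀ x f, f ≠ T → S x f = z x - dot (r x) (Q f) := fun x f e => by
    rw [hS, slackA (s1 x), sA, if_neg e, one_mul]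
  have sT : ∀ x, S x T = dot (r x) (Q T) - z x := fun x => by
    rw [hS, slackA (s1 x), sA, if_pos rfl]; ring
  have zT : ∀ k, z (M.tl (a k)) = Q T k := fun k => by rw [z_loc s1 s (hT.inc k), r2]
  have kT : ∀ x g, g ≠ T → dot (r x) (Q T) - dot (r x) (Q g) = r x 0 * S (M.tl (a 0)) g
      + r x 1 * S (M.tl (a 1)) g + r x 2 * S (M.tl (a 2)) g := fun x g e => by
    rw [sI _ _ e, sI _ _ e, sI _ _ e, zT, zT, zT, r2, r2, r2, dot, dot]; ring
  have lowI : ∀ x f, f ≠ T → ¬ M.Inc x f → X⁻¹ * X⁻¹ ≤ S x f := fun x0 f0 e0 i0 => by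
    obtain ⟨⟨x, f⟩, hm, m⟩ := exists_min_image
      (univ.filter fun u : V × F => u.2 ≠ T ∧ ¬ M.Inc u.1 u.2) (fun u => S u.1 u.2)
      ⟨(x0, f0), by simpa using ⟨e0, i0⟩⟩
    refine le_trans ?_ (m (x0, f0) (by simpa using ⟨e0, i0⟩))
    obtain ⟨e, i⟩ : f ≠ T ∧ ¬ M.Inc x f := by simpa using hm
    have m' : ∀ u g, g ≠ T → ¬ M.Inc u g → S x f ≤ S u g := fun u g a b =>
      m (u, g) (by simpa using ⟨a, b⟩)
    have pos : 0 < S x f := s.2 _ _ i
    obtain ⟨d, rfl, e', i'⟩ : ∃ d, M.lf d = f ∧ M.rf d ≠ T ∧ M.Inc x (M.rf d) := by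
      by_contra N
      push Not at N
      have y : ∀ g, cA T Q g - dot (nA T Q g) (pA r (fun _ => dot (r x) (Q f)) x)
          = sA T g * (dot (r x) (Q f) - dot (r x) (Q g)) := fun g =>
        slackA (z := fun _ => dot (r x) (Q f)) (s1 x) g
      obtain ⟨g, gT, hg⟩ := hz x
      have := wc_inside s o (f := f) (y := pA r (fun _ => dot (r x) (Q f)) x)
        (by have := y f; rw [sub_self, mul_zero] at this; linarith) (fun d t => by
          rw [← sub_nonneg, y]
          by_cases c : M.rf d = T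
          · have := kT x f e
            have := mul_nonneg (nn x 0) (s.le (M.tl (a 0)) f)
            have := mul_nonneg (nn x 1) (s.le (M.tl (a 1)) f)
            have := mul_nonneg (nn x 2) (s.le (M.tl (a 2)) f)
            rw [c, sA, if_pos rfl]
            linarith
          · have := m' _ _ c (N d t c)
            rw [sI _ _ e, sI _ _ c] at this
            rw [sA, if_neg c]
            linarith) g
      rw [← sub_nonneg, y, sA, if_neg gT] at this
      rw [sI _ _ e] at pos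
      linarith
    have a1 : S x (M.lf d) = w d * ar M r (M.rev d) x := by
      rw [sI _ _ e, z_loc s1 s i', ← dot_sub, inn d e e', dot_smul', ar, PM.hd_rev, PM.tl_rev]
      simp only [det3, dot, cr0, cr1, cr2]; ring
    have a2 : X⁻¹ ≤ ar M r (M.rev d) x := by
      rcases wc_next s o i' i (fun u => m' u _ e) with k | ⟨b, k, rfl⟩
      · rw [k, ← nx_rev]; exact hA _ e'
      · have b1 : M.lf b = M.rf d := by rw [← M.lf_nx, k, PM.lf_rev]
        have b2 : M.hd b = M.hd d := by rw [← M.tl_nx, k, PM.tl_rev]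
        refine (hA b (b1 ▸ e')).trans_eq ?_
        rw [k, ar, ar, b2, PM.hd_rev, PM.tl_rev]
        simp only [det3]; ring
    show _ ≤ S x (M.lf d)
    rw [a1]
    exact mul_le_mul (w1 d).1 a2 Xi.le (hw.1 d).le
  have low : ∀ x f, ¬ M.Inc x f → (X ^ 40)⁻¹ ≤ S x f := fun x f i => by
    have e8 : (X ^ 40)⁻¹ ≤ (X ^ 6)⁻¹ * (X⁻¹ * X⁻¹) := by
      rw [← mul_inv, ← mul_inv]
      exact inv_anti₀ (by positivity) ((show _ = X ^ 8 by ring).trans_le
        (pow_le_pow_right₀ X1 (by norm_num)))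
    refine e8.trans ?_
    by_cases e : f = T
    · subst e
      obtain ⟨d, rfl⟩ := M.tl_surj x
      have gT := inn_lf i
      have k := kT (M.tl d) _ gT
      have pos : 0 < S (M.tl d) f := s.2 _ _ i
      rw [← z_loc s1 s (M.inc_tl_lf d), ← sT] at k
      have far := wc_far hw hr X2 w1 hD hA s1 nn i
      have t0 := mul_nonneg (nn (M.tl d) 0) (s.le (M.tl (a 0)) (M.lf d))
      have t1 := mul_nonneg (nn (M.tl d) 1) (s.le (M.tl (a 1)) (M.lf d))
      have t2 := mul_nonneg (nn (M.tl d) 2) (s.le (M.tl (a 2)) (M.lf d))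
      have t : ∀ j, ¬ M.Inc (M.tl (a j)) (M.lf d) →
          (X ^ 6)⁻¹ * (X⁻¹ * X⁻¹) ≤ r (M.tl d) j * S (M.tl (a j)) (M.lf d) := fun j c =>
        mul_le_mul (far j) (lowI _ _ gT c) (by positivity) (nn _ _)
      by_cases c0 : M.Inc (M.tl (a 0)) (M.lf d)
      · by_cases c1 : M.Inc (M.tl (a 1)) (M.lf d)
        · by_cases c2 : M.Inc (M.tl (a 2)) (M.lf d)
          · have u0 : S _ _ = 0 := s.1 _ _ c0
            have u1 : S _ _ = 0 := s.1 _ _ c1
            have u2 : S _ _ = 0 := s.1 _ _ c2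
            rw [u0, u1, u2] at k
            linarith
          · linarith [t 2 c2]
        · linarith [t 1 c1]
      · linarith [t 0 c0]
    · refine le_trans ?_ (lowI x f e i)
      exact mul_le_of_le_one_left (by positivity) (inv_le_one_of_one_le₀ (one_le_pow₀ X1))
  have dc := dual_con M (fun f => f = T) (fun _ => True)
    (fun C hC u hu _ w _ => h.con.all C (fun d => hC d trivial trivial) hu w)
    (fun d _ _ => by by_contra q; push Not at q; exact M.rf_ne d (q.2.trans q.1.symm))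
    (fun d e _ t _ b _ b' => M.sg.injective (M.uniq _ _ (by simpa) (by simp [b, b'])))
    (fun _ _ _ _ => trivial)
  have b1 : ∀ f g k, f ≠ T → g ≠ T → Q g k ≤ Q f k + X * X := fun f g k e1 e2 => by
    have := osc (fun f => ¬ f = T) _ dc (fun f => Q f k) X0.le
      (fun f g f1 g1 ⟨d, d1, d2⟩ => by
        subst d1 d2
        have b := congrFun (inn d f1 g1) k
        have c := (abs_le.1 (wc_cr (nn (M.tl d)) (nn (M.hd d)) (s1 _) (s1 _) k)).2
        have c' := mul_le_mul_of_nonneg_left c (hw.1 d).le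
        rw [Pi.sub_apply, Pi.smul_apply, smul_eq_mul] at b
        linarith [(w1 d).2]) e1 e2
    linarith [mul_le_mul_of_nonneg_right hF X0.le]
  set f0 := M.rf (a 0) with hf0
  have b2 : ∀ g k, g ≠ T → |(Q g - Q f0) k| ≤ X * X := fun g k e => by
    rw [Pi.sub_apply, abs_le]
    constructor <;> linarith [b1 g f0 k e ne, b1 f0 g k ne e]
  have b3 : ∀ g k, |(Q g - Q f0) k| ≤ X * X := fun g k => by
    by_cases e : g = T
    · obtain ⟨g', gT, hg⟩ := hz (M.tl (a k))
      have := b2 g' k gT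
      rw [zT, r2] at hg
      rwa [e, Pi.sub_apply, hg]
    · exact b2 g k e
  have es : ∀ x f, slack (pA r fun x => z x - dot (r x) (Q f0)) (nA T fun f => Q f - Q f0)
      (cA T fun f => Q f - Q f0) x f = S x f := fun x f => by
    rw [hS, slackA (s1 x), slackA (s1 x), dot_sub]; ring
  have X4 : 3 * (X * X) ≤ X ^ 40 := by
    have : X ^ 4 ≤ X ^ 40 := pow_le_pow_right₀ X1 (by norm_num)
    have : 3 * (X * X) ≤ X * X * (X * X) := mul_le_mul_of_nonneg_right (by nlinarith) (by positivity)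
    linarith
  have X5 : 1 ≤ X ^ 40 := one_le_pow₀ X1
  have rb : ∀ x k, |r x k| ≤ 1 := fun x k => by
    have n0 := nn x 0; have n1 := nn x 1; have n2 := nn x 2; have n3 := s1 x
    rw [abs_of_nonneg (nn x k)]
    fin_cases k
    exacts [show r x 0 ≤ 1 by linarith, show r x 1 ≤ 1 by linarith, show r x 2 ≤ 1 by linarith]
  refine ⟨_, _, _, s.of_slack fun x f => ⟨1, one_pos, by rw [one_mul]; exact es x f⟩, fun x k => ?_,
    fun f k => ?_, fun x f i => es x f ▸ low x f i⟩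
  · fin_cases k
    · exact (rb x 0).trans X5
    · exact (rb x 1).trans X5
    · obtain ⟨g, -, hg⟩ := hz x
      have := Sq.dot_bd (rb x) (b3 g)
      rw [dot_sub, ← hg, one_mul] at this
      exact this.trans X4
  · have sa : |sA T f| = 1 := by unfold sA; split_ifs <;> simp
    have c : ∀ i j, |(Q f - Q f0) i - (Q f - Q f0) j| ≤ X ^ 40 := fun i j =>
      (abs_sub _ _).trans (by linarith [b3 f i, b3 f j, mul_pos X0 X0])
    rw [nA, Pi.smul_apply, smul_eq_mul, abs_mul, sa, one_mul]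
    fin_cases k
    · exact c 0 2
    · exact c 1 2
    · simpa using X5

end Pool.Agent.Lib.MP_d5dfc1_co.Gm
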