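import Pool.Agent.Lib.MP_d5dfc1_co.SpFin
import Pool.Agent.Lib.MP_d5dfc1_co.SqApx

/-! Simple polytopes on a polynomial grid. -/

namespace Pool.Agent.Lib.MP_d5dfc1_co.Sq

open Finset Ex

variable {V F D : Type} {M : PM V F D} {p : V → V3} {n : F → V3} {c : F → ℝ}

/-- the dual map -/
def dual (M : PM V F D)
    (ef : ∀ d g, M.Inc (M.tl d) g → M.Inc (M.hd d) g → g = M.lf d ∨ g = M.rf d) : PM F V D where
  rev := M.rev
  tl := M.lf
  lf := M.tl
  sg := M.nxP
  rev_rev := M.rev_rev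
  tl_sg := fun d => by simp
  lf_sg := fun d => by simp
  vtr := M.ftr
  ftr := fun d e t => by simpa [Sp.nx_rev] using M.vtr d e t
  uniq := fun d e h1 h2 => M.uniq d e h2 h1
  simple := fun _ _ h1 h2 => M.uniq_lr h1 h2
  tl_surj := M.lf_surj
  lf_surj := M.tl_surj
  noloop := M.sides
  sides := M.noloop
  two := fun d b c e h1 h2 => ef d _ ⟨b, h1, rfl⟩ ⟨c, h2, e.symm⟩

/-- polarity with respect to the centroid -/
lemma polar [Fintype V] (h : Strict M p n c) {M' : PM F V D} (i : ∀ x f, M'.Inc f x ↔ M.Inc x f) :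
    ∃ q : F → V3, Strict M' q (fun x k => ∑ y, (p x k - p y k)) fun _ => 1 := by
  have pos : ∀ f, 0 < ∑ y, slack p n c y f := fun f => by
    obtain ⟨d, rfl⟩ := M.lf_surj f
    exact sum_pos' (fun y _ => h.le y _) ⟨_, mem_univ _, h.2 _ _ (M.nd2 d)⟩
  have e : ∀ x f, slack (fun f => (∑ y, slack p n c y f)⁻¹ • n f) (fun x k => ∑ y, (p x k - p y k))
      (fun _ => 1) f x = (∑ y, slack p n c y f)⁻¹ * (Fintype.card V * slack p n c x f) := fun x f => by
    have : dot (fun k => ∑ y, (p x k - p y k)) (n f) = ∑ y, (slack p n c y f - slack p n c x f) := by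
      simp only [dot, sum_mul, ← sum_add_distrib, slack]
      exact sum_congr rfl fun y _ => by ring
    rw [slack, dot_smul', this, sum_sub_distrib, sum_const, card_univ, nsmul_eq_mul, mul_sub,
      inv_mul_cancel₀ (pos f).ne']
    ring
  refine ⟨fun f => (∑ y, slack p n c y f)⁻¹ • n f, fun f x j => ?_, fun f x j => ?_⟩
  · rw [e, h.1 x f ((i x f).1 j), mul_zero, mul_zero]
  · rw [e]
    exact mul_pos (inv_pos.2 (pos f)) (mul_pos (Nat.cast_pos.2 (Fintype.card_pos_iff.2 ⟨x⟩))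
      (h.2 x f fun k => j ((i x f).2 k)))

variable [Fintype D] [DecidableEq V] [Fintype V] [Fintype F] [DecidableEq F]

/-- integer normals and unit offsets give a well conditioned realisation -/
lemma wc_int (h : Strict M p n fun _ => 1) (hi : ∀ f, IsInt (n f)) {N : ℝ} (N1 : 1 ≤ N)
    (hb : ∀ f k, |n f k| ≤ N) : WC M p n (fun _ => 1) (6 * N ^ 3) := by
  classical
  obtain ⟨δ, δ0, sl⟩ : ∃ δ : ℝ, 0 < δ ∧ ∀ x f, ¬ M.Inc x f → δ ≤ slack p n (fun _ => 1) x f := by
    obtain ⟨K, K0, hK⟩ := bigK (fun q : V × F => ¬ M.Inc q.1 q.2)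
      (fun q => - slack p n (fun _ => 1) q.1 q.2) (fun _ => 1) fun q i => neg_neg_of_pos (h.2 _ _ i)
    refine ⟨K⁻¹, inv_pos.2 K0, fun x f i => ?_⟩
    rw [inv_le_iff_one_le_mul₀' K0]
    linarith [hK (x, f) i]
  have key : ∀ x, ∃ a b e : F, 1 ≤ |det3 (n a) (n b) (n e)| ∧ ∀ k, det3 (n a) (n b) (n e) * p x k
      = cross (n b) (n e) k + cross (n e) (n a) k + cross (n a) (n b) k := fun x => by
    obtain ⟨d, hd⟩ := M.tl_surj x
    have a := det_v h δ0.le sl hd (b := M.sg d) (e := M.sg (M.sg d)) (by simpa) (by simpa)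
      (M.sg_ne d).symm (M.sg_ne _).symm (M.sg_sg_ne d)
    have o : ∀ d, M.tl d = x → dot (n (M.lf d)) (p x) = 1 := fun d t =>
      (sub_eq_zero.1 (h.1 x _ ⟨d, t, rfl⟩)).symm
    refine ⟨_, _, _, one_le_abs_of_int ((hi (M.lf d)).det3 (hi (M.lf (M.sg d)))
      (hi (M.lf (M.sg (M.sg d))))) fun z => ?_, fun k => ?_⟩
    · rw [z, abs_zero, zero_mul] at a
      exact absurd a (not_le.2 (pow_pos δ0 3))
    · rw [cramer, o d hd, o _ (by simpa), o _ (by simpa)]; ring
  have n2 : N * N ≤ N ^ 3 := by nlinarith [mul_le_mul N1 N1 zero_le_one (by linarith)]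
  refine ⟨h, fun x k => ?_, fun f k => (hb f k).trans (by nlinarith), fun x f i => ?_⟩
  · obtain ⟨a, b, e, h1, h2⟩ := key x
    have := (abs_add_three _ _ _).trans (add_le_add (add_le_add (cross_bd (hb b) (hb e) k)
      (cross_bd (hb e) (hb a) k)) (cross_bd (hb a) (hb b) k))
    rw [← h2, abs_mul] at this
    linarith [le_mul_of_one_le_left (abs_nonneg (p x k)) h1]
  · obtain ⟨a, b, e, h1, h2⟩ := key x
    have s := h.2 x f i
    have z : ∃ z : ℤ, det3 (n a) (n b) (n e) * slack p n (fun _ => 1) x f = z := by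
      obtain ⟨z0, e0⟩ := (hi a).det3 (hi b) (hi e)
      obtain ⟨z1, e1⟩ := (hi b).det3 (hi e) (hi f)
      obtain ⟨z2, e2⟩ := (hi e).det3 (hi a) (hi f)
      obtain ⟨z3, e3⟩ := (hi a).det3 (hi b) (hi f)
      refine ⟨z0 - z1 - z2 - z3, ?_⟩
      push_cast
      rw [← e0, ← e1, ← e2, ← e3, ← dot_cross (n b), ← dot_cross (n e), ← dot_cross (n a) (n b) (n f)]
      simp only [slack, dot]
      linear_combination - n f 0 * h2 0 - n f 1 * h2 1 - n f 2 * h2 2
    have a1 := one_le_abs_of_int z (mul_ne_zero (abs_pos.1 (by linarith)) s.ne')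
    have a2 := det_bd (N := fun _ => N) (hb a) (hb b) (hb e)
    rw [abs_mul, abs_of_pos s] at a1
    rw [inv_le_iff_one_le_mul₀' (by positivity)]
    exact a1.trans (mul_le_mul_of_nonneg_right (a2.trans_eq (by ring)) s.le)

omit [DecidableEq V] [Fintype F] [DecidableEq F] in
lemma card_D (M : PM V F D) : Fintype.card D ≤ Fintype.card V ^ 2 := by
  rw [sq, ← Fintype.card_prod]
  exact Fintype.card_le_of_injective (fun d => (M.tl d, M.hd d)) fun d e k =>
    M.simple' (congrArg Prod.fst k) (congrArg Prod.snd k)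

/-- simple polytopes have well conditioned realisations -/
theorem wc_simple [Nonempty V] (st : Strict M p n c) (s3 : ∀ d, M.sg (M.sg (M.sg d)) = d) :
    ∃ p' n' c', WC M p' n' c' ((Fintype.card D : ℝ) ^ 324006) := by
  obtain ⟨x0⟩ := ‹Nonempty V›
  obtain ⟨d, -⟩ := M.tl_surj x0
  have : Nonempty F := ⟨M.lf d⟩
  have i : ∀ x f, (dual M (st_ef st)).Inc f x ↔ M.Inc x f := fun x f =>
    exists_congr fun d => and_comm
  obtain ⟨q, hq⟩ := polar st i
  obtain ⟨q, m, hq, O⟩ := exOri hq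
  obtain ⟨q, m, e, hq, b⟩ := Sp.grid hq O fun d => by
    simpa [dual, PM.nx] using s3 d
  obtain ⟨r, hr⟩ := polar hq fun f x => (i x f).symm
  rw [show 324006 = (108000 + 1) * 3 + 3 from rfl]
  generalize 108000 = E at b ⊢
  have cF : (Fintype.card F : ℝ) ≤ Fintype.card D :=
    Nat.cast_le.2 (Fintype.card_le_of_surjective _ M.lf_surj)
  have D2 : (2 : ℝ) ≤ Fintype.card D := by
    exact_mod_cast Fintype.one_lt_card_iff.2 ⟨_, _, M.sg_ne d⟩
  have w := wc_int hr (fun f k => by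
      choose z hz using fun x => (b x k).1
      exact ⟨∑ y, (z f - z y), by simp only [hz]; norm_cast⟩)
    (N := (Fintype.card D : ℝ) ^ (E + 1)) (one_le_pow₀ (by linarith)) fun f k => by
      refine (abs_sum_le_sum_abs _ _).trans ((sum_le_card_nsmul _ _ ((Fintype.card D : ℝ) ^ E)
        fun y _ => ?_).trans ?_)
      · have := pow_le_pow_left₀ (Nat.cast_nonneg _) cF E
        rw [abs_le]
        constructor <;> linarith [(b f k).2.1, (b f k).2.2, (b y k).2.1, (b y k).2.2]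
      · rw [card_univ, nsmul_eq_mul, pow_succ']; gcongr
  refine ⟨_, _, _, w.mono (by positivity) ?_⟩
  rw [pow_add _ (_ * 3), pow_mul, mul_comm]
  gcongr
  exact le_trans (by norm_num) (pow_le_pow_left₀ zero_le_two D2 3)

/-- from well conditioned realisations to the grid -/
theorem grid_of (E : ℕ) : ∃ C : ℕ, ∀ (V F D : Type) [Fintype D] [DecidableEq V] [Fintype V] [Fintype F]
    [Nonempty V] (M : PM V F D) (p : V → V3) (n : F → V3) (c : F → ℝ) (B : F → Prop) [DecidablePred B],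
    WC M p n c ((Fintype.card D : ℝ) ^ E) →
    (∀ d, ¬ B (M.lf d) → M.nx (M.nx (M.nx d)) = d) → (∀ x, #{d | M.tl d = x ∧ B (M.lf d)} ≤ 3) →
    ∃ (p' : V → V3) (n' : F → V3) (c' : F → ℝ), Strict M p' n' c' ∧ ∀ x k, (∃ z : ℤ, p' x k = z) ∧
      0 ≤ p' x k ∧ p' x k ≤ (Fintype.card V : ℝ) ^ C := by
  obtain ⟨C, hC⟩ := gridB
  refine ⟨2 * ((E + 2) * C), fun V F D _ _ _ _ ⟨x0⟩ M p n c B _ h hB h3 => ?_⟩
  obtain ⟨d, -⟩ := M.tl_surj x0
  have D2 : (2 : ℝ) ≤ Fintype.card D := by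
    exact_mod_cast Fintype.one_lt_card_iff.2 ⟨_, _, M.sg_ne d⟩
  have D1 : (1 : ℝ) ≤ Fintype.card D := by linarith
  have a : 2 * (Fintype.card D : ℝ) ≤ (Fintype.card D : ℝ) ^ (E + 2) :=
    le_trans (by nlinarith) (pow_le_pow_right₀ D1 (Nat.le_add_left 2 E))
  obtain ⟨p', n', c', st, b⟩ := hC V F D M p n c _ B
    (h.mono (by positivity) (pow_le_pow_right₀ D1 (Nat.le_add_right E 2))) (by linarith) a hB h3
  refine ⟨p', n', c', st, fun x k => ⟨(b x k).1, (b x k).2.1, (b x k).2.2.trans ?_⟩⟩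
  rw [← pow_mul, pow_mul _ 2]
  exact pow_le_pow_left₀ (by positivity) (by exact_mod_cast card_D M) _

end Pool.Agent.Lib.MP_d5dfc1_co.Sq
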