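import Pool.Agent.Lib.MP_d5dfc1_co.GmSch
import Pool.Agent.Lib.MP_d5dfc1_co.GmRoute
import Pool.Agent.Lib.MP_d5dfc1_co.GmLift
import Pool.Agent.Lib.MP_d5dfc1_co.GmCor
import Pool.Agent.Lib.MP_d5dfc1_co.GmWC
import Pool.Agent.Lib.MP_d5dfc1_co.SqSim

/-! Well conditioned realisations of all polyhedral maps: assembly. -/

namespace Pool.Agent.Lib.MP_d5dfc1_co.Gm

open Finset Ex

variable {V F D : Type} [Fintype D] [DecidableEq V] [Fintype V] [Fintype F] [DecidableEq F]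
  {M : PM V F D} {p : V → V3} {n : F → V3} {c : F → ℝ}

omit [Fintype F] in
lemma pp_of (st : Strict M p n c) (x y : V) (f g : F) (xy : x ≠ y) (fg : f ≠ g) (xf : M.Inc x f)
    (yf : M.Inc y f) (xg : M.Inc x g) (yg : M.Inc y g) : M.Adj x y := by
  by_contra N
  have ev : ∀ u, dot (n f + n g) (p u - p x) = - slack p n c u f - slack p n c u g := fun u => by
    rw [add_dot', st.1.sub xf, st.1.sub xg]; ring
  have := st.simplex (x := x) (l := n f + n g) (fun d t => by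
    rw [ev]
    by_cases i : M.Inc (M.hd d) f
    · have j : ¬ M.Inc (M.hd d) g := fun j => by
        have k : M.Inc y (M.lf d) ∧ M.Inc y (M.rf d) := by
          rcases Sq.st_ef st d f (t ▸ xf) i with a | a <;>
            rcases Sq.st_ef st d g (t ▸ xg) j with b | b
          exacts [absurd (a.trans b.symm) fg, ⟨a ▸ yf, b ▸ yg⟩, ⟨b ▸ yg, a ▸ yf⟩,
            absurd (a.trans b.symm) fg]
        exact (M.two' d k.1 k.2).elim (fun e => xy (t.symm.trans e.symm)) fun e => N ⟨d, t, e.symm⟩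
      linarith [st.2 _ _ j, st.le (M.hd d) f]
    · linarith [st.2 _ _ i, st.le (M.hd d) g]) xy.symm
  rw [ev, st.1 y f yf, st.1 y g yg] at this
  linarith

lemma base_of (st : Strict M p n c) {d : D} (h3 : M.nx (M.nx (M.nx d)) = d) :
    Base M (M.lf d) ![d, M.nx d, M.nx (M.nx d)] :=
  ⟨exTri h3, st.con, dual_exa (Sq.st_exa st), Sq.st_ef st, pp_of st⟩

omit [Fintype F] [DecidableEq F] in
lemma sol_uniq {T : F} {a : Fin 3 → D} (h : Base M T a) {w : D → ℝ} (hw : SP M w) {B : Set V}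
    (hB : ∀ x, M.Inc x T → x ∈ B) {κ : V → Fin 3} {r r' : V → V3} (h1 : Sol M w B κ r)
    (h2 : Sol M w B κ r') : r = r' := by
  ext x k
  have := lpl_ker h hw hB (f := fun x => r x k - r' x k)
    (fun x q => by rw [h1.1 x q, h2.1 x q, sub_self]) fun x q => by
      rw [lpl, ← sub_self (0 : ℝ)]
      nth_rewrite 1 [← h1.2 k x q]
      rw [← h2.2 k x q, ← sum_sub_distrib]
      exact sum_congr rfl fun d _ => by ring
  exact sub_eq_zero.1 (congrFun this x)

/-- maps with a triangular face -/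
theorem wc_tri (st : Strict M p n c) {d : D} (h3 : M.nx (M.nx (M.nx d)) = d) :
    ∃ p' n' c', Sq.WC M p' n' c' ((Fintype.card D : ℝ) ^ 3360000) := by
  classical
  have h := base_of st h3
  have D2 : 2 ≤ Fintype.card D := Fintype.one_lt_card_iff.2 ⟨_, _, M.sg_ne d⟩
  generalize M.lf d = T, ![d, M.nx d, M.nx (M.nx d)] = a at h
  obtain ⟨S⟩ := exSch h
  obtain ⟨w, hw, w1, R⟩ := route h S
  set L := Nat.log 2 (Fintype.card F) with hL
  have hκ : ∀ j, Function.invFun (fun j => M.tl (a j)) (M.tl (a j)) = j :=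
    Function.leftInverse_invFun h.tri.inj
  obtain ⟨r, hr⟩ := sol_ex h hw (B := {x | M.Inc x T}) (fun _ k => k)
    (Function.invFun fun j => M.tl (a j))
  have one : (1 : ℝ) ≤ 2 ^ 300 := one_le_pow₀ one_le_two
  have b32 : (32 : ℝ) ≤ 2 ^ 300 := by
    rw [show (32 : ℝ) = 2 ^ 5 by norm_num]; exact pow_le_pow_right₀ one_le_two (by norm_num)
  have b4 : (4 : ℝ) ≤ 2 ^ 300 := le_trans (by norm_num) b32
  obtain ⟨X, hX⟩ : ∃ X : ℝ, X = (2 ^ 300) ^ (3 * (L + 1) + 1) := ⟨_, rfl⟩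
  have X2 : 2 ≤ X := hX ▸ (le_trans (by norm_num) b4).trans (le_self_pow₀ one (by omega))
  have wX : ∀ e, X⁻¹ ≤ w e ∧ w e ≤ X := fun e => by
    refine ⟨le_trans ?_ (w1 e).1, (w1 e).2.trans (hX ▸ pow_le_pow_left₀ (by norm_num) b32 _)⟩
    rw [one_div, inv_pow, hX]
    exact inv_anti₀ (by positivity)
      ((pow_le_pow_left₀ (by norm_num) b32 _).trans (pow_le_pow_right₀ one (by omega)))
  have DX : (Fintype.card D : ℝ) ≤ X := by
    have e1 : Fintype.card D ≤ Fintype.card F * Fintype.card F := by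
      rw [← Fintype.card_prod]
      exact Fintype.card_le_of_injective (fun d => (M.lf d, M.rf d)) fun d e k =>
        M.uniq_lr (congrArg Prod.fst k) (congrArg Prod.snd k)
    have e2 : Fintype.card F ≤ 2 ^ (L + 1) := (Nat.lt_pow_succ_log_self one_lt_two _).le
    have e3 : Fintype.card D ≤ 4 ^ (L + 1) := by
      rw [show 4 = 2 * 2 from rfl, mul_pow]; exact e1.trans (Nat.mul_le_mul e2 e2)
    have e4 : (Fintype.card D : ℝ) ≤ 4 ^ (L + 1) := by exact_mod_cast e3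
    exact e4.trans (hX ▸ (pow_le_pow_left₀ (by norm_num) b4 _).trans (pow_le_pow_right₀ one (by omega)))
  have XD : X ≤ (Fintype.card D : ℝ) ^ 2100 := by
    have e2 : Fintype.card F ≤ Fintype.card D := Fintype.card_le_of_surjective _ M.lf_surj
    have e4 : 2 ^ L ≤ Fintype.card F := Nat.pow_log_le_self 2 (Fintype.card_pos_iff.2 ⟨T⟩).ne'
    have e7 : 2 ^ (3 * (L + 1) + 1) ≤ Fintype.card D ^ 7 := by
      calc _ = (2 ^ L) ^ 3 * 2 ^ 4 := by ring
        _ ≤ Fintype.card D ^ 3 * Fintype.card D ^ 4 :=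
          Nat.mul_le_mul (Nat.pow_le_pow_left (e4.trans e2) 3) (Nat.pow_le_pow_left D2 4)
        _ = _ := by ring
    have e8 : (2 : ℝ) ^ (3 * (L + 1) + 1) ≤ (Fintype.card D : ℝ) ^ 7 := by exact_mod_cast e7
    rw [hX, ← pow_mul (2 : ℝ), mul_comm 300, pow_mul (2 : ℝ), show 2100 = 7 * 300 from rfl,
      pow_mul (Fintype.card D : ℝ)]
    exact pow_le_pow_left₀ (by positivity) e8 _
  have key : ∀ d0 e, M.lf d0 ≠ T → M.lf e = M.lf d0 → S.lab (M.nx d0) = S.lab d0 + 2 →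
      S.lab e = S.lab d0 + 1 → X⁻¹ ≤ ar M r d0 (M.tl e) := fun d0 e h1 h2 h3 h4 => by
    have z1 : M.tl e ≠ M.tl d0 := fun k => by
      rw [M.uniq _ _ k h2] at h4
      revert h4; generalize S.lab d0 = u; revert u; decide
    have z2 : M.tl e ≠ M.hd d0 := fun k => by
      rw [M.uniq e (M.nx d0) (by simpa using k) (by simpa using h2), h3] at h4
      revert h4; generalize S.lab d0 = u; revert u; decide
    rw [hX, ← inv_pow, ← one_div]
    exact R d0 e h1 h2 h3 h4 _ _ hκ ⟨fun _ k => k,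
      fun w' hw' r' hr' => (tutte_pos st h hw' hκ hr' h1 ⟨e, rfl, h2⟩ z1 z2).le,
      fun r' hr' => by rw [one_mul, sol_uniq h hw (fun _ k => k) hr' hr]⟩
  have hA : ∀ d, M.lf d ≠ T → ∃ e, M.lf e = M.lf d ∧ X⁻¹ ≤ ar M r e (M.tl d) := fun d hd => by
    obtain ⟨b, b1, b2⟩ := S.f_ex _ hd (S.lab d + 2)
    obtain ⟨e, e1, e2, e3⟩ : ∃ e, M.lf e = M.lf d ∧ S.lab e = S.lab d + 2 ∧
        S.lab (M.nx e) ≠ S.lab e := by
      by_contra N
      push Not at N
      have := (M.f_ind (P := fun e => M.lf e = M.lf d ∧ S.lab e = S.lab d + 2)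
        (fun e k => ⟨by simpa using k.1, (N e k.1 k.2).trans k.2⟩) ⟨b1, b2⟩ b1).2
      revert this; generalize S.lab d = u; revert u; decide
    refine ⟨e, e1, key e d (e1 ▸ hd) e1.symm ((S.lab_nx e (e1 ▸ hd)).resolve_left e3) ?_⟩
    rw [e2]; generalize S.lab d = u; revert u; decide
  have hE : ∀ d, M.lf d ≠ T → M.rf d ≠ T → ∃ e z, (e = d ∨ e = M.rev d) ∧ X⁻¹ ≤ ar M r e z := by
    have k1 : ∀ e, M.lf e ≠ T → S.lab (M.nx e) = S.lab e + 2 → ∃ z, X⁻¹ ≤ ar M r e z :=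
      fun e h1 h2 => by
        obtain ⟨b, b1, b2⟩ := S.f_ex _ h1 (S.lab e + 1)
        exact ⟨_, key e b h1 b1 h2 b2⟩
    have k2 : ∀ i x, ¬ M.Inc x T → ∃ e z, (e = S.o i x ∨ e = M.rev (S.o i x)) ∧ X⁻¹ ≤ ar M r e z :=
      fun i x q => by
        have l := S.o_lab i x q
        have u : ∀ i : Fin 3, i = i + 1 + 2 := by decide
        rcases S.lab_hd h.tri i q with k | k | k
        · exact ⟨_, (k1 _ (S.o_lf i q) (by rw [k.2, l.1, ← u])).imp fun z j => ⟨Or.inl rfl, j⟩⟩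
        · exact ⟨_, (k1 _ (S.o_lf i q) (by rw [k.2.2.2, l.1, ← u])).imp fun z j => ⟨Or.inl rfl, j⟩⟩
        · exact ⟨_, (k1 (M.rev (S.o i x)) (S.o_rf i q) (by rw [nx_rev, l.2, k.2.2.1])).imp
            fun z j => ⟨Or.inr rfl, j⟩⟩
    intro d h1 h2
    rcases S.dart d h1 h2 with ⟨q, i, e⟩ | ⟨q, i, e⟩
    · simpa only [← e] using k2 i _ q
    · simpa only [← e, PM.rr, or_comm] using k2 i _ q
  have X1 : 1 ≤ X := by linarith
  have XX : X ≤ X ^ 40 := le_self_pow₀ X1 (by norm_num)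
  obtain ⟨p', n', c', W⟩ := wcA st h hw hκ hr (X2.trans XX)
    (fun e => ⟨(inv_anti₀ (by linarith) XX).trans (wX e).1, (wX e).2.trans XX⟩) (DX.trans XX)
    fun e he => corner_area st h hw hκ hr X2 wX DX hA hE he
  refine ⟨p', n', c', W.mono (by positivity) ?_⟩
  rw [← pow_mul, show 3360000 = 2100 * (40 * 40) from rfl, pow_mul (Fintype.card D : ℝ)]
  exact pow_le_pow_left₀ (by positivity) XD _

omit [Fintype D] [DecidableEq V] [Fintype F] [DecidableEq F] in
/-- polarity keeps the conditioning -/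
lemma polar_wc {X : ℝ} (h : Sq.WC M p n c X) (X1 : 1 ≤ X) (cV : (Fintype.card V : ℝ) ≤ X)
    {M' : PM F V D} (i : ∀ x f, M'.Inc f x ↔ M.Inc x f) :
    ∃ q m e, Sq.WC M' q m e (6 * X ^ 3) := by
  have X0 : 0 < X := by linarith
  have lo : ∀ f, X⁻¹ ≤ ∑ y, slack p n c y f := fun f => by
    obtain ⟨d, rfl⟩ := M.lf_surj f
    exact (h.sl _ _ (M.nd2 d)).trans
      (single_le_sum (f := fun y => slack p n c y (M.lf d)) (fun y _ => h.st.le y _) (mem_univ _))
  have pos : ∀ f, 0 < ∑ y, slack p n c y f := fun f => (inv_pos.2 X0).trans_le (lo f)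
  have hi : ∀ f, ∑ y, slack p n c y f ≤ Fintype.card V * (6 * X ^ 2) := fun f => by
    obtain ⟨d, rfl⟩ := M.lf_surj f
    refine (sum_le_card_nsmul _ _ (6 * X ^ 2) fun y _ => ?_).trans_eq (by simp)
    have := (abs_le.1 (Sq.dot_bd (h.nb (M.lf d)) (Sq.sub_bd (h.pb y) (h.pb (M.tl d))))).1
    rw [h.st.1.sub (M.inc_tl_lf d)] at this
    linarith
  have e : ∀ x f, slack (fun f => (∑ y, slack p n c y f)⁻¹ • n f) (fun x k => ∑ y, (p x k - p y k))
      (fun _ => 1) f x = (∑ y, slack p n c y f)⁻¹ * (Fintype.card V * slack p n c x f) := fun x f => by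
    have : dot (fun k => ∑ y, (p x k - p y k)) (n f) = ∑ y, (slack p n c y f - slack p n c x f) := by
      simp only [dot, sum_mul, ← sum_add_distrib, slack]
      exact sum_congr rfl fun y _ => by ring
    rw [slack, dot_smul', this, sum_sub_distrib, sum_const, card_univ, nsmul_eq_mul, mul_sub,
      inv_mul_cancel₀ (pos f).ne']
    ring
  have sl : ∀ f x, ¬ M'.Inc f x → (6 * X ^ 3)⁻¹ ≤ slack (fun f => (∑ y, slack p n c y f)⁻¹ • n f)
      (fun x k => ∑ y, (p x k - p y k)) (fun _ => 1) f x := fun f x j => by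
    have V0 : (0 : ℝ) < Fintype.card V := Nat.cast_pos.2 (Fintype.card_pos_iff.2 ⟨x⟩)
    have a := h.sl x f fun k => j ((i x f).2 k)
    have b := inv_anti₀ (pos f) (hi f)
    rw [e]
    calc (6 * X ^ 3)⁻¹ = (Fintype.card V * (6 * X ^ 2))⁻¹ * (Fintype.card V * X⁻¹) := by field_simp
      _ ≤ _ := by gcongr; exact (inv_pos.2 (pos f)).le
  have x2 : X * X ≤ X ^ 3 := by nlinarith [mul_le_mul X1 X1 zero_le_one X0.le]
  refine ⟨_, _, _, ⟨fun f x j => ?_, fun f x j => lt_of_lt_of_le (by positivity) (sl f x j)⟩,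
    fun f k => ?_, fun x k => ?_, sl⟩
  · rw [e, h.st.1 x f ((i x f).1 j), mul_zero, mul_zero]
  · have a : |(∑ y, slack p n c y f)⁻¹| ≤ X := by
      rw [abs_of_pos (inv_pos.2 (pos f))]
      exact inv_le_of_inv_le₀ X0 (lo f)
    exact (Sq.rmul a (h.nb f k)).trans (by nlinarith)
  · refine (abs_sum_le_sum_abs _ _).trans ((sum_le_card_nsmul _ _ (X + X)
      fun y _ => Sq.sub_bd (h.pb x) (h.pb y) k).trans ?_)
    rw [card_univ, nsmul_eq_mul]
    nlinarith

omit [Fintype V] in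
lemma four {X : Type} [Fintype X] [DecidableEq X] (t : D → X) (ts : ∀ x, ∃ d, t d = x) (s : D → D)
    (h0 : ∀ d, t (s d) = t d) (h1 : ∀ d, s d ≠ d) (h2 : ∀ d, s (s d) ≠ d) (h3 : ∀ d, s (s (s d)) ≠ d) :
    4 * Fintype.card X ≤ Fintype.card D := by
  classical
  refine mul_card_image_le_card_of_maps_to (s := univ) (t := univ) (f := t) (fun _ _ => mem_univ _) 4
    fun x _ => ?_
  obtain ⟨d, rfl⟩ := ts x
  refine le_trans (le_of_eq ?_) (card_le_card (s := {d, s d, s (s d), s (s (s d))})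
    (by simp [insert_subset_iff, h0]))
  rw [card_insert_of_notMem, card_insert_of_notMem, card_pair (h1 _).symm]
  · simp [(h1 _).symm, (h2 _).symm]
  · simp [(h1 _).symm, (h2 _).symm, (h3 _).symm]

theorem wc_all : ∃ E : ℕ, ∀ (V F D : Type) [Fintype D] [DecidableEq V] [Fintype V] [Fintype F]
    [DecidableEq F] [Nonempty V] (M : PM V F D) (p : V → V3) (n : F → V3) (c : F → ℝ),
    Strict M p n c → ∃ p' n' c', Sq.WC M p' n' c' ((Fintype.card D : ℝ) ^ E) := by
  obtain ⟨E, E0, hE⟩ : ∃ E : ℕ, 0 < E ∧ ∀ (V F D : Type) [Fintype D] [DecidableEq V] [Fintype V]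
      [Fintype F] [DecidableEq F] (M : PM V F D) (p : V → V3) (n : F → V3) (c : F → ℝ),
      Strict M p n c → ∀ d, M.nx (M.nx (M.nx d)) = d →
      ∃ p' n' c', Sq.WC M p' n' c' ((Fintype.card D : ℝ) ^ E) :=
    ⟨_, by norm_num, fun V F D _ _ _ _ _ M p n c st d => wc_tri st⟩
  refine ⟨E * 3 + 3, fun V F D _ _ _ _ _ _ M p n c st => ?_⟩
  obtain ⟨d, h3⟩ : ∃ d, M.nx (M.nx (M.nx d)) = d ∨ M.sg (M.sg (M.sg d)) = d := by
    by_contra N
    push Not at N
    have := euler (Sq.st_exa st)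
    have := four M.tl M.tl_surj M.sg M.tl_sg M.sg_ne M.sg_sg_ne fun d => (N d).2
    have := four M.lf M.lf_surj M.nx M.lf_nx M.nx_ne
      (fun d e => M.hd_nx_ne d (by rw [← M.tl_nx, e])) fun d => (N d).1
    omega
  have D2 : (2 : ℝ) ≤ Fintype.card D := by
    exact_mod_cast Fintype.one_lt_card_iff.2 ⟨_, _, M.sg_ne d⟩
  have D1 : (1 : ℝ) ≤ Fintype.card D := by linarith
  rcases h3 with h3 | h3
  · obtain ⟨p', n', c', W⟩ := hE V F D M p n c st d h3
    exact ⟨p', n', c', W.mono (by positivity) (pow_le_pow_right₀ D1 (by omega))⟩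
  · have i : ∀ x f, (Sq.dual M (Sq.st_ef st)).Inc f x ↔ M.Inc x f := fun x f =>
      exists_congr fun d => and_comm
    obtain ⟨q, hq⟩ := Sq.polar st i
    obtain ⟨q, m, e, W⟩ := hE F V D _ _ _ _ hq d (by simpa [Sq.dual, PM.nx] using h3)
    obtain ⟨p', n', c', W'⟩ := polar_wc W (one_le_pow₀ D1)
      ((Nat.cast_le.2 (Fintype.card_le_of_surjective _ M.lf_surj)).trans (le_self_pow₀ D1 E0.ne'))
      fun f x => (i x f).symm
    refine ⟨p', n', c', W'.mono (by positivity) ?_⟩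
    rw [pow_add, pow_mul, mul_comm]
    gcongr
    exact le_trans (by norm_num) (pow_le_pow_left₀ zero_le_two D2 3)

omit [Fintype F] in
/-- the non-triangular faces at a vertex, read off the hull -/
lemma few_of (st : Strict M p n c) (x : V)
    (h : {X | IsExposed ℝ (convexHull ℝ (Set.range p)) X ∧ X ≠ convexHull ℝ (Set.range p) ∧
      p x ∈ X ∧ 3 < {i | p i ∈ X}.ncard}.encard ≤ 3) (B : F → Prop) [DecidablePred B]
    (hB : ∀ f, B f → ∃ d, M.lf d = f ∧ M.nx (M.nx (M.nx d)) ≠ d) :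
    #{d | M.tl d = x ∧ B (M.lf d)} ≤ 3 := by
  classical
  have hm : ∀ k, p k ∈ convexHull ℝ (Set.range p) := fun k =>
    subset_convexHull _ _ (Set.mem_range_self k)
  have le' : ∀ f, ∀ w ∈ convexHull ℝ (Set.range p), dotL (n f) w ≤ c f := fun f =>
    convexHull_min (t := {w | dotL (n f) w ≤ c f}) (by
      rintro _ ⟨i, rfl⟩
      simpa only [Set.mem_ofPred_eq, dotL_apply, slack, sub_nonneg] using st.le i f)
      (convex_halfSpace_le (dotL (n f)).isLinear _)
  have eq : ∀ k f, M.Inc k f → dot (n f) (p k) = c f := fun k f e => (sub_eq_zero.1 (st.1 k f e)).symm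
  set X : F → Set V3 := fun f => {w ∈ convexHull ℝ (Set.range p) |
    ∀ w' ∈ convexHull ℝ (Set.range p), dotL (n f) w' ≤ dotL (n f) w} with hX
  have mem : ∀ k f, p k ∈ X f ↔ M.Inc k f := fun k f => ⟨fun j => by
      by_contra N
      obtain ⟨d, rfl⟩ := M.lf_surj f
      have a := j.2 _ (hm (M.tl d))
      rw [dotL_apply, dotL_apply, eq _ _ (M.inc_tl_lf d)] at a
      exact absurd a (not_le.2 (sub_pos.1 (st.2 _ _ N))),
    fun j => ⟨hm _, fun w hw => by rw [dotL_apply _ (p _), eq _ _ j]; exact le' f w hw⟩⟩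
  have := (Set.encard_le_encard_of_injOn (s := (↑({d | M.tl d = x ∧ B (M.lf d)} : Finset D) : Set D))
    (f := fun d => X (M.lf d)) (fun d hd => ?_) fun d hd e he k => ?_).trans h
  · rw [Set.encard_coe_eq_coe_finsetCard] at this
    exact_mod_cast this
  · obtain ⟨t, b⟩ : M.tl d = x ∧ B (M.lf d) := by simpa using hd
    refine ⟨fun _ => ⟨dotL (n (M.lf d)), rfl⟩, fun e => M.nd2 d ((mem _ _).1 (e.ge (hm _))),
      (mem _ _).2 ⟨d, t, rfl⟩, ?_⟩
    obtain ⟨e, e1, e2⟩ := hB _ b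
    have n2 : ∀ d, M.nx (M.nx d) ≠ d := fun d e => M.hd_nx_ne d (by rw [← M.tl_nx, e])
    have sub := Set.ncard_le_ncard (s := ((({e, M.nx e, M.nx (M.nx e), M.nx (M.nx (M.nx e))} :
        Set D)).image M.tl)) (t := {i | p i ∈ X (M.lf d)}) (by
        rintro _ ⟨e, rfl | rfl | rfl | rfl, rfl⟩ <;> exact (mem _ _).2 ⟨_, rfl, by simp [e1]⟩)
        (Set.toFinite _)
    rw [Set.InjOn.ncard_image (by
      rintro e (rfl | rfl | rfl | rfl) e' (rfl | rfl | rfl | rfl) t <;>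
        exact M.uniq _ _ t (by simp)), Set.ncard_insert_of_notMem, Set.ncard_insert_of_notMem,
      Set.ncard_pair (M.nx_ne _).symm] at sub
    · exact sub
    · rintro (e | e)
      exacts [M.nx_ne _ e.symm, n2 _ e.symm]
    · rintro (e | e | e)
      exacts [M.nx_ne _ e.symm, n2 _ e.symm, e2 e.symm]
  · have t : M.tl d = M.tl e := by
      simp only [coe_filter, mem_univ, true_and, Set.mem_ofPred_eq] at hd he
      exact hd.1.trans he.1.symm
    have a : ∀ y, M.Inc y (M.lf d) → M.Inc y (M.lf e) := fun y j =>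
      (mem _ _).1 ((show X (M.lf d) = X (M.lf e) from k) ▸ (mem _ _).2 j)
    have iw : M.Inc (M.hd (M.nx d)) (M.lf d) := by simpa using M.inc_hd_lf (M.nx d)
    rcases Sq.st_ef st d _ (a _ (M.inc_tl_lf d)) (a _ (M.inc_hd_lf d)) with j | j
    · exact M.uniq _ _ t j.symm
    · rcases M.two' d iw (j ▸ a _ iw) with j | j
      · exact absurd j (M.hd_nx_ne d)
      · exact absurd j (by simpa using M.hd_ne (M.nx d))

end Pool.Agent.Lib.MP_d5dfc1_co.Gm
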