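import Pool.Agent.Lib.MP_d5dfc1_co.GmChi

/-! Properties of the regions: local rule, runs, nesting, halving. -/

namespace Pool.Agent.Lib.MP_d5dfc1_co.Gm

open Finset Ex

variable {V F D : Type} {M : PM V F D} {T : F} {a : Fin 3 → D} {S : Sch M T a} {χ : V → F → Fin 3}

/-- both faces of `d` lie in region `c` of `u` -/
def Int (M : PM V F D) (χ : V → F → Fin 3) (u : V) (c : Fin 3) (d : D) : Prop :=
  χ u (M.lf d) = c ∧ χ u (M.rf d) = c

lemma Sch.hd_or (S : Sch M T a) (hT : Tri M T a) (i : Fin 3) {x : V} (h : ¬ M.Inc x T) :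
    (S.lab (M.nx (S.o i x)) = i ∨ S.lab (M.nx (S.o i x)) = i + 1) ∧
      (S.lab (M.rev (S.o i x)) = i ∨ S.lab (M.rev (S.o i x)) = i + 2) ∧
      (S.lab (M.rev (S.o i x)) = i ∨ S.lab (M.nx (S.o i x)) = i) := by
  rcases S.lab_hd hT i h with k | k | k <;> tauto

/-- the colours of a dart -/
lemma Sch.col (S : Sch M T a) {d : D} (h1 : M.lf d ≠ T) (h2 : M.rf d ≠ T) :
    (¬ M.Inc (M.tl d) T ∧ d = S.o (S.lab d + 2) (M.tl d)) ∨
      (¬ M.Inc (M.hd d) T ∧ M.rev d = S.o (S.lab (M.nx d) + 1) (M.hd d)) := by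
  refine (S.dart d h1 h2).imp (fun ⟨q, i, e⟩ => ⟨q, ?_⟩) fun ⟨q, i, e⟩ => ⟨q, ?_⟩
  · have := (S.o_lab i _ q).1
    rw [← e] at this
    rwa [this, show i + 1 + 2 = i by clear * -; revert i; decide]
  · have := (S.o_lab i _ q).2
    rw [← e, sg_rev] at this
    rwa [this, show i + 2 + 1 = i by clear * -; revert i; decide]

/-- an edge with equal labels on one side carries two colours -/
lemma Sch.flat (S : Sch M T a) (hT : Tri M T a) {d : D} (h1 : M.lf d ≠ T)
    (e : S.lab (M.nx d) = S.lab d) : (¬ M.Inc (M.tl d) T ∧ d = S.o (S.lab d + 2) (M.tl d)) ∧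
      ¬ M.Inc (M.hd d) T ∧ M.rev d = S.o (S.lab d + 1) (M.hd d) := by
  have h2 : M.rf d ≠ T := fun r => by
    obtain ⟨i, hi⟩ := (hT.all _).1 (r ▸ M.inc_tl_rf d)
    obtain ⟨j, hj⟩ := (hT.all _).1 (r ▸ M.inc_hd_rf d)
    rw [S.lab_t i d hi.symm h1, S.lab_t j _ (by simp [hj]) (by simpa)] at e
    exact M.hd_ne d (by rw [← hi, ← hj, e])
  rcases S.col h1 h2 with ⟨q, k⟩ | ⟨q, k⟩
  · refine ⟨⟨q, k⟩, ?_⟩
    have := S.lab_hd hT (S.lab d + 2) q
    rw [← k, e] at this
    generalize S.lab d = m at this ⊢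
    have z : ∀ m : Fin 3, m ≠ m + 2 ∧ m + 2 + 2 = m + 1 := by decide
    rcases this with j | j | j
    exacts [absurd j.2 (z m).1, absurd j.2.2.2 (z m).1, ⟨j.1, (z m).2 ▸ j.2.1⟩]
  · rw [e] at k
    refine ⟨?_, q, k⟩
    have := S.lab_hd hT (S.lab d + 1) q
    rw [← k, PM.rr, PM.hd_rev] at this
    generalize S.lab d = m at this ⊢
    have z : ∀ m : Fin 3, m ≠ m + 1 ∧ m + 1 + 1 = m + 2 := by decide
    rcases this with j | j | j
    exacts [absurd j.1 (z m).1, ⟨j.1, (z m).2 ▸ j.2.1⟩, absurd j.2.2.1 (z m).1]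

namespace Chi

lemma off (c : Chi S χ) {u x : V} (hx : ¬ M.Inc x T) (h : ∀ i, ¬ S.On i u x) {d e : D}
    (hd : M.tl d = x) (he : M.tl e = x) : χ u (M.lf d) = χ u (M.lf e) :=
  (M.v_ind (P := fun b => M.tl b = x ∧ χ u (M.lf d) = χ u (M.lf b)) (fun b ⟨b1, b2⟩ => ⟨by simpa, by
    rw [b2, PM.lf_sg']
    exact c.a1 u b (inn_lf (b1 ▸ hx)) (inn_rf (b1 ▸ hx)) (fun i k => h i (b1 ▸ k.2.1))
      fun i k => h i (by simpa [b1] using k.hd.1)⟩) ⟨hd, rfl⟩ (hd.trans he.symm)).2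

lemma off_int (c : Chi S χ) {u x : V} {m : Fin 3} (hx : ¬ M.Inc x T) (h : ∀ i, ¬ S.On i u x) {d e : D}
    (hd : M.tl d = x) (he : M.tl e = x) (q : χ u (M.lf d) = m) : Int M χ u m e :=
  ⟨(c.off hx h he hd).trans q, by
    rw [← PM.lf_sg']; exact (c.off hx h (by simpa) hd).trans q⟩

variable [Finite D]

lemma loc (c : Chi S χ) (hT : Tri M T a) {u : V} {i : Fin 3} {d : D} (hx : ¬ M.Inc (M.tl d) T)
    (h : S.On i u (M.tl d)) (q : M.tl d = u ∨ S.lab d ≠ i) : χ u (M.lf d) = S.lab d := by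
  set x := M.tl d with hxd
  set m := S.lab d with hm
  have nj : ∀ b, M.tl b = x → S.lab b = m → S.lab (M.sg b) = m → χ u (M.lf b) = χ u (M.rf b) :=
    fun b t l1 l2 => c.a1 u b (inn_lf (t ▸ hx)) (inn_rf (t ▸ hx)) (fun j k => by
      have := S.o_lab j _ k.1
      rw [← k.2.2, l1, l2] at this
      exact absurd (this.1.symm.trans this.2) (by clear * -; revert j; decide)) fun j k => by
      have a1 : m = j := by
        have := (S.hd_or hT j k.1).2.2
        rw [← k.2.2, PM.rr, nx_rev, l1, l2] at this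
        exact this.elim id id
      have a2 := k.hd
      rw [PM.hd_rev, t] at a2
      rcases q with q | q
      · exact a2.2 q
      · exact a2.2 (h.disj a2.1 fun e => q (a1.trans e.symm))
  have st : M.tl (S.o m x) = x ∧ (S.lab (S.o m x) = m → χ u (M.lf (S.o m x)) = m) :=
    ⟨S.o_tl m x hx, fun e => absurd ((S.o_lab m x hx).1.symm.trans e) (by
      generalize m = z; clear * -; revert z; decide)⟩
  have on : S.On (m + 1) u x ∨ S.On (m + 2) u x := by
    rcases q with q | q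
    · exact Or.inl (q ▸ Sch.On.refl S _ _)
    · obtain e | e : i = m + 1 ∨ i = m + 2 := by revert q; generalize m = z; clear * -; revert z i; decide
      exacts [Or.inl (e ▸ h), Or.inr (e ▸ h)]
  rcases on with o | o
  · refine (M.v_ind (P := fun b => M.tl b = x ∧ (S.lab b = m → χ u (M.lf b) = m))
      (fun b ⟨t, b2⟩ => ⟨by simpa, fun l => ?_⟩) st (d := S.o m x) (e := d) st.1).2 rfl
    rw [PM.lf_sg']
    rcases S.lab_sg b (t ▸ hx) with e | e
    · rw [← nj b t (e ▸ l) l, b2 (e ▸ l)]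
    · have e2 := (S.o_lab (S.lab b + 2) _ (t ▸ hx)).2
      rw [← e, l] at e2
      have e3 : S.lab b + 2 = m + 1 := by
        rw [e2]; generalize S.lab b = z; clear * -; revert z; decide
      rw [e, e3, t, (c.a2 u _ _ (Sch.Dp.mk hx o)).2]
      generalize m = z; clear * -; revert z; decide
  · refine (v_ind' (P := fun b => M.tl b = x ∧ (S.lab b = m → χ u (M.lf b) = m))
      (fun b ⟨t, b2⟩ => ⟨by simpa using t, fun l => ?_⟩) st (d := S.o m x) (e := d) st.1).2 rfl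
    rw [PM.tl_sg'] at t
    rcases S.lab_sg b (t ▸ hx) with e | e
    · rw [nj b t l (e.trans l), ← PM.lf_sg', b2 (e.trans l)]
    · rw [e, l, t, (c.a2 u _ _ (Sch.Dp.mk hx o)).1]
      generalize m = z; clear * -; revert z; decide

lemma stay (c : Chi S χ) (hT : Tri M T a) {u x : V} {k m : Fin 3} (hx : ¬ M.Inc x T) (ne : m ≠ k)
    (h : Int M χ u m (S.o k x)) (hy : ¬ M.Inc (M.hd (S.o k x)) T) :
    (∀ i, ¬ S.On i u (M.hd (S.o k x))) ∨ S.On k u (M.hd (S.o k x)) := by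
  by_contra n
  push Not at n
  obtain ⟨⟨i, hi⟩, n⟩ := n
  rcases (S.hd_or hT k hx).2.2 with l | l
  · have := c.loc hT (d := M.rev (S.o k x)) hy hi (Or.inr (by rw [l]; rintro rfl; exact n hi))
    exact ne (h.2.symm.trans (this.trans l))
  · have := c.loc hT (d := M.nx (S.o k x)) (i := i) (u := u) (by simpa) (by simpa)
      (Or.inr (by rw [l]; rintro rfl; exact n hi))
    rw [PM.lf_nx] at this
    exact ne (h.1.symm.trans (this.trans l))

lemma pref (c : Chi S χ) (hT : Tri M T a) {u x : V} {m : Fin 3} (hx : ¬ M.Inc x T) (h : Int M χ u m (S.o m x))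
    (i : Fin 3) : ¬ S.On i u x := fun hi => by
  have t := S.o_tl m x hx
  obtain ⟨l1, l2⟩ := S.o_lab m x hx
  by_cases q : m + 1 = i
  · have := c.loc hT (d := M.sg (S.o m x)) (i := i) (u := u) (by simpa [t]) (by simpa [t])
      (Or.inr (by rw [l2, ← q]; clear * -; revert m; decide))
    rw [PM.lf_sg', h.2, l2] at this
    revert this; clear * -; revert m; decide
  · have := c.loc hT (d := S.o m x) (i := i) (u := u) (by simpa [t]) (by simpa [t]) (Or.inr (l1 ▸ q))
    rw [h.1, l1] at this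
    revert this; clear * -; revert m; decide

lemma stay' (c : Chi S χ) (hT : Tri M T a) {u x : V} {k m : Fin 3} (ne : m ≠ k) (h : Int M χ u m (S.o k x))
    {d : D} (hd : S.Dp k x d) : S.Dp k u d ∨ Int M χ u m d := by
  obtain ⟨d1, ⟨s, hs⟩, d3⟩ := hd
  rw [d3]
  rw [← hs] at d1 ⊢
  clear hs d3
  induction s with
  | zero => exact Or.inr h
  | succ s ih =>
    have z := S.it_in k d1 s.le_succ
    rw [Function.iterate_succ_apply', S.p_in k z] at d1 ⊢
    rcases ih z with q | q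
    · exact Or.inl (Sch.Dp.mk d1 q.hd.1)
    · rcases c.stay hT z ne q d1 with o | o
      · exact Or.inr (c.off_int d1 o (d := M.rev (S.o k _)) rfl (S.o_tl k _ d1) q.2)
      · exact Or.inl (Sch.Dp.mk d1 o)

theorem run (c : Chi S χ) (hT : Tri M T a) {u x : V} {i m : Fin 3} {k : ℕ} (hy : ¬ M.Inc ((S.p i)^[k] x) T)
    (h1 : Int M χ u m (S.o i x)) (h2 : Int M χ u m (S.o i ((S.p i)^[k] x)))
    {s : ℕ} (s0 : 0 < s) (sk : s ≤ k) {d : D} (hd : M.tl d = (S.p i)^[s] x) :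
    χ u (M.lf d) = m := by
  have inn := fun s (h : s ≤ k) => S.it_in i hy h
  have nx : ∀ s, s < k → (S.p i)^[s + 1] x = M.hd (S.o i ((S.p i)^[s] x)) := fun s h => by
    rw [Function.iterate_succ_apply', S.p_in i (inn s h.le)]
  by_cases ne : m = i
  · subst ne
    have : ∀ t, t ≤ k → Int M χ u m (S.o m ((S.p m)^[t] x)) := fun t ht => by
      induction ht using Nat.decreasingInduction with
      | self => exact h2
      | of_succ t ht ih =>
        have z := inn _ ht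
        have o := c.pref hT z ih
        exact ⟨by simpa using c.off_int z o (S.o_tl m _ z) (e := M.rev (S.o m _)) (nx t ht).symm ih.1 |>.2,
          (c.off_int z o (S.o_tl m _ z) (e := M.rev (S.o m _)) (nx t ht).symm ih.1).1⟩
    exact (c.off_int (inn s sk) (c.pref hT (inn s sk) (this s sk)) (S.o_tl m _ (inn s sk)) hd
      (this s sk).1).1
  · have key : ∀ t, t < k → Int M χ u m (S.o i ((S.p i)^[t] x)) → ∀ e, M.tl e = (S.p i)^[t + 1] x →
        Int M χ u m e := fun t ht q e he => by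
      have z := inn _ ht
      rw [nx t ht] at z he
      rcases c.stay hT (inn t ht.le) ne q z with o | o
      · exact c.off_int z o (d := M.rev (S.o i _)) rfl he q.2
      · have : S.On i u ((S.p i)^[k] x) := o.trans ⟨k - (t + 1), by
          rw [← nx t ht, ← Function.iterate_add_apply, Nat.sub_add_cancel ht]⟩
        have b := c.a2 u _ _ (Sch.Dp.mk hy this)
        rw [h2.1, h2.2] at b
        exact absurd (b.1.symm.trans b.2) (by clear * -; revert i; decide)
    have : ∀ t, t ≤ k → Int M χ u m (S.o i ((S.p i)^[t] x)) := fun t ht => by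
      induction t with
      | zero => exact h1
      | succ t ih => exact key t ht (ih (Nat.le_of_succ_le ht)) _ (S.o_tl i _ (inn _ ht))
    obtain ⟨t, rfl⟩ := Nat.exists_eq_add_one_of_ne_zero s0.ne'
    exact (key t sk (this t (Nat.le_of_succ_le sk)) d hd).1

lemma n2 (c : Chi S χ) (hT : Tri M T a) {u : V} {i j k : Fin 3} (hu : ¬ M.Inc u T) (ki : k ≠ i)
    (ji : j ≠ i) (jk : j ≠ k) {d : D} (h : S.Dp k (M.hd (S.o i u)) d) :
    S.Dp k u d ∨ Int M χ u j d ∨ d = M.rev (S.o i u) := by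
  obtain ⟨s, hs⟩ := h.2.1
  have hv : ¬ M.Inc (M.hd (S.o i u)) T := S.it_in k (m := 0) (hs ▸ h.1) s.zero_le
  by_cases r : S.o k (M.hd (S.o i u)) = M.rev (S.o i u)
  · rcases h.2.1.cases with q | ⟨-, q⟩
    · exact Or.inr (Or.inr (by rw [h.2.2, q, r]))
    · rw [S.p_in k hv, r, PM.hd_rev, S.o_tl i u hu] at q
      exact Or.inl ⟨h.1, q, h.2.2⟩
  have e := Sch.Dp.mk hu (Sch.On.refl S i u)
  have t := S.o_tl k _ hv
  have nj := c.a1 u (S.o k (M.hd (S.o i u))) (S.o_lf k hv) (S.o_rf k hv)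
    (fun m q => ki (S.o_inj hv ((e.at t).1 q))) fun m q => r ((e.at t).2 q)
  obtain ⟨l1, l2⟩ := S.o_lab k _ hv
  refine (c.stay' hT jk ?_ h).imp id Or.inl
  obtain q | q : j = k + 1 ∨ j = k + 2 := by clear * - jk; revert j k; decide
  · have := c.loc hT (d := S.o k (M.hd (S.o i u))) (i := i) (u := u) (by rwa [t])
      (by rw [t]; exact e.hd.1) (Or.inr (by rw [l1, ← q]; exact ji))
    rw [l1, ← q] at this
    exact ⟨this, nj ▸ this⟩
  · have := c.loc hT (d := M.sg (S.o k (M.hd (S.o i u)))) (i := i) (u := u) (by simpa [t])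
      (by simpa [t] using e.hd.1) (Or.inr (by rw [l2, ← q]; exact ji))
    rw [l2, ← q, PM.lf_sg'] at this
    exact ⟨nj ▸ this, this⟩

lemma at_hd (c : Chi S χ) (hT : Tri M T a) {d : D} (hv : ¬ M.Inc (M.hd d) T) :
    χ (M.hd d) (M.lf d) = S.lab (M.nx d) ∧ χ (M.hd d) (M.rf d) = S.lab (M.rev d) :=
  ⟨M.lf_nx d ▸ c.loc hT (d := M.nx d) (i := 0) (u := M.hd d) (by simpa)
      (by simpa using Sch.On.refl S _ _) (Or.inl (by simp)),
    c.loc hT (d := M.rev d) (i := 0) hv (Sch.On.refl S _ _) (Or.inl rfl)⟩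

lemma n1 (c : Chi S χ) (hT : Tri M T a) {u : V} {i k : Fin 3} (hu : ¬ M.Inc u T)
    (hv : ¬ M.Inc (M.hd (S.o i u)) T) {d : D} (h : S.Dp k u d) :
    S.Dp k (M.hd (S.o i u)) d ∨ Int M χ (M.hd (S.o i u)) i d ∨ d = S.o i u := by
  by_cases e : i = k
  · subst e
    rcases h.2.1.cases with q | ⟨-, q⟩
    · exact Or.inr (Or.inr (by rw [h.2.2, q]))
    · exact Or.inl ⟨h.1, S.p_in i hu ▸ q, h.2.2⟩
  have two : ∀ m, m ≠ i → M.rev (S.o i u) = S.o m (M.hd (S.o i u)) →
      S.Dp k (M.hd (S.o i u)) d ∨ Int M χ (M.hd (S.o i u)) i d ∨ d = S.o i u := fun m mi r => by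
    have w : M.hd (S.o m (M.hd (S.o i u))) = u := by rw [← r, PM.hd_rev, S.o_tl i u hu]
    by_cases q : k = m
    · have := (Sch.Dp.mk hv (Sch.On.refl S m _)).hd.1
      rw [w, ← q] at this
      exact Or.inl ⟨h.1, this.trans h.2.1, h.2.2⟩
    · have := c.n2 hT hv q mi.symm e (d := d) (by rwa [w])
      rwa [← r, PM.rr] at this
  rcases S.lab_hd hT i hu with l | l | l
  · have b : Int M χ (M.hd (S.o i u)) i (S.o i u) :=
      ⟨(c.at_hd hT hv).1.trans l.2, (c.at_hd hT hv).2.trans l.1⟩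
    exact (c.stay' hT e (c.off_int hu (c.pref hT hu b) (S.o_tl i u hu) (S.o_tl k u hu) b.1) h).imp
      id Or.inl
  · exact two _ (by clear * -; revert i; decide) l.2.1
  · exact two _ (by clear * -; revert i; decide) l.2.1

end Chi

lemma out_rf (hT : Tri M T a) {d : D} (e : M.rf d = T) : ∃ j, M.lf d = M.rf (a j) := by
  obtain ⟨j, hj⟩ := out_dart hT (d := M.rev d) e
  exact ⟨j, by rw [← hj, PM.rf_rev]⟩

variable [Fintype D] [DecidableEq V]

theorem Chi.nest (h : Base M T a) (c : Chi S χ) {u : V} {i j : Fin 3} (hu : ¬ M.Inc u T) (ji : j ≠ i)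
    {g : F} (g0 : g ≠ T) (hg : χ (M.hd (S.o i u)) g = j) : χ u g = j := by
  by_cases hv : M.Inc (M.hd (S.o i u)) T
  · rw [Sch.hd_out h.tri hu hv, c.a4] at hg
    exact absurd hg.symm ji
  by_contra n
  refine (h.dcon {g | g ≠ T ∧ χ (M.hd (S.o i u)) g = j ∧ χ u g ≠ j} (fun d ⟨y0, y1, y2⟩ => ?_)
    (f := g) ⟨g0, hg, n⟩ T).1 rfl
  have r0 : M.rf d ≠ T := fun e => by
    obtain ⟨m, hm⟩ := out_rf h.tri e
    rw [hm, c.a3 _ _ hv] at y1
    exact y2 (by rw [hm, c.a3 _ _ hu, y1])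
  have A1 : ∀ k, ¬ S.Dp k u d := fun k q => by
    rcases c.n1 h.tri hu hv q with o | o | o
    · exact y2 (by rw [(c.a2 _ _ _ q).1, ← y1, (c.a2 _ _ _ o).1])
    · exact ji (y1.symm.trans o.1)
    · rw [o, (c.at_hd h.tri hv).1] at y1
      rw [o, (c.a2 _ _ _ (Sch.Dp.mk hu (Sch.On.refl S i u))).1] at y2
      exact (S.hd_or h.tri i hu).1.elim (fun z => ji (y1.symm.trans z)) fun z => y2 (z.symm.trans y1)
  have A2 : ∀ k, ¬ S.Dp k u (M.rev d) := fun k q => by
    have b := (c.a2 _ _ _ q).2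
    rcases c.n1 h.tri hu hv q with o | o | o
    · have b' := (c.a2 _ _ _ o).2
      rw [PM.rf_rev] at b b'
      exact y2 (by rw [b, ← y1, b'])
    · exact ji (y1.symm.trans (by simpa using o.2))
    · rw [← PM.rf_rev, o, (c.at_hd h.tri hv).2] at y1
      rw [← PM.rf_rev, o, (c.a2 _ _ _ (Sch.Dp.mk hu (Sch.On.refl S i u))).2] at y2
      exact (S.hd_or h.tri i hu).2.1.elim (fun z => ji (y1.symm.trans z)) fun z => y2 (z.symm.trans y1)
  have s : S.On i u (M.hd (S.o i u)) := (Sch.Dp.mk hu (Sch.On.refl S i u)).hd.1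
  refine ⟨r0, (c.a1 _ d y0 r0 (fun k q => ?_) fun k q => ?_).symm.trans y1,
    c.a1 u d y0 r0 A1 A2 ▸ y2⟩
  · by_cases e : k = i
    · exact A1 k ⟨q.1, e ▸ s.trans (e ▸ q.2.1), q.2.2⟩
    · have b := (c.a2 _ _ _ q).1
      rcases c.n2 h.tri hu e ji (by rw [← y1, b]; clear * -; revert k; decide) q with o | o | o
      exacts [A1 k o, y2 o.1, A2 i (by rw [o, PM.rr]; exact Sch.Dp.mk hu (Sch.On.refl S i u))]
  · by_cases e : k = i
    · exact A2 k ⟨q.1, e ▸ s.trans (e ▸ q.2.1), q.2.2⟩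
    · have b := (c.a2 _ _ _ q).2
      rw [PM.rf_rev] at b
      rcases c.n2 h.tri hu e ji (by rw [← y1, b]; clear * -; revert k; decide) q with o | o | o
      exacts [A2 k o, y2 (by simpa using o.2),
        A1 i (by rw [M.revP.injective o]; exact Sch.Dp.mk hu (Sch.On.refl S i u))]

/-- vertices of a face with the same label see the same region -/
lemma Chi.same (h : Base M T a) (c : Chi S χ) {b b' : D} (f0 : M.lf b ≠ T) (e : M.lf b = M.lf b')
    (l : S.lab b = S.lab b') {g : F} (g0 : g ≠ T) (hg : χ (M.tl b) g = S.lab b) :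
    χ (M.tl b') g = S.lab b' := by
  have z : ∀ m : Fin 3, m ≠ m + 2 ∧ m ≠ m + 1 := by decide
  have step : ∀ d, M.lf d ≠ T → S.lab (M.nx d) = S.lab d →
      (χ (M.tl d) g = S.lab d ↔ χ (M.hd d) g = S.lab d) := fun d d0 q => by
    obtain ⟨⟨q1, q2⟩, q3, q4⟩ := S.flat h.tri d0 q
    exact ⟨fun k => c.nest h q3 (z _).2 g0 (by rw [← q4]; simpa using k),
      fun k => c.nest h q1 (z _).1 g0 (by rw [← q2]; exact k)⟩
  obtain ⟨t, t1, t2, t3⟩ : ∃ t, M.lf t = M.lf b ∧ S.lab t = S.lab b ∧ S.lab (M.nx t) ≠ S.lab t := by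
    by_contra N
    push Not at N
    obtain ⟨t, t1, t2⟩ := S.f_ex _ f0 (S.lab b + 1)
    exact (z _).2 ((M.f_ind (P := fun t => M.lf t = M.lf b ∧ S.lab t = S.lab b)
      (fun t k => ⟨by simpa using k.1, (N t k.1 k.2).trans k.2⟩) ⟨rfl, rfl⟩ t1.symm).2.symm.trans t2)
  have key : ∀ (k : ℕ) d, M.lf d = M.lf b → S.lab d = S.lab b → (fun a => M.sg (M.rev a))^[k] d = t →
      (χ (M.tl d) g = S.lab b ↔ χ (M.tl t) g = S.lab b) := fun k => by
    induction k with
    | zero => intro d _ _ q; rw [← q]; rfl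
    | succ k ih =>
      intro d d1 d2 q
      by_cases r : S.lab (M.nx d) = S.lab d
      · rw [← ih (M.nx d) (by simpa) (r.trans d2) q, ← d2, PM.tl_nx]
        exact step d (d1 ▸ f0) r
      · rw [S.f_uq d t (d1 ▸ f0) (d1.trans t1.symm) (d2.trans t2.symm) r t3]
  obtain ⟨k, hk⟩ := M.ftr b t t1.symm
  obtain ⟨k', hk'⟩ := M.ftr b' t (e.symm.trans t1.symm)
  exact l ▸ (key k' b' e.symm l.symm hk').2 ((key k b rfl rfl hk).1 hg)

lemma Chi.tri (h : Base M T a) (c : Chi S χ) {f : F} (f0 : f ≠ T) {g : F} (g0 : g ≠ T)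
    (hg : ∀ b, M.lf b = f → χ (M.tl b) g = S.lab b) : g = f := by
  by_contra n
  refine (h.dcon {g | g ≠ T ∧ g ≠ f ∧ ∀ b, M.lf b = f → χ (M.tl b) g = S.lab b}
    (fun d ⟨y0, y1, y2⟩ => ?_) (f := g) ⟨g0, n, hg⟩ T).1 rfl
  have r0 : M.rf d ≠ T := fun r => by
    obtain ⟨m, hm⟩ := out_rf h.tri r
    have k : ∀ k, k ≠ m + 2 → M.Inc (M.tl (a k)) f := fun k ne => by
      obtain ⟨e, e1, e2⟩ := S.f_ex f f0 k
      have i : M.Inc (M.tl e) T := by
        by_contra i
        exact ne (by rw [← e2, ← y2 e e1, hm, c.a3 _ _ i])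
      obtain ⟨j, hj⟩ := (h.tri.all _).1 i
      obtain rfl : k = j := e2.symm.trans (S.lab_t j _ hj.symm (e1 ▸ f0))
      exact hj ▸ e1 ▸ M.inc_tl_lf _
    rcases h.ef (a m) f (k m (by clear * -; revert m; decide))
      (h.tri.hd m ▸ k _ (by clear * -; revert m; decide)) with q | q
    exacts [f0 (q.trans (h.tri.lf m)), y1 (hm.trans q.symm)]
  have A : ∀ b, M.lf b = M.lf d ∨ M.rf b = M.lf d → ∀ e, M.lf e = f → ∀ k, ¬ S.Dp k (M.tl e) b := by
    intro b hb e he k q
    have z : ∀ k : Fin 3, k + 1 ≠ k ∧ k + 2 ≠ k ∧ k + 1 ≠ k + 2 ∧ k + 1 + 2 = k ∧ k + 2 + 1 = k := by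
      decide
    have v : ∀ e, M.lf e = f → S.Dp k (M.tl e) b → S.lab e ≠ k := fun e he q => by
      obtain ⟨b1, b2⟩ := c.a2 _ _ _ q
      rw [← y2 e he]
      rcases hb with w | w <;> rw [← w]
      exacts [b1 ▸ (z k).1, b2 ▸ (z k).2.1]
    have inn : ∀ x, S.Dp k x b → ¬ M.Inc x T := fun x q i =>
      q.1 ((q.2.1.cases.resolve_right fun w => w.1 i) ▸ i)
    have int : ∀ e j, M.lf e = f → Int M χ (M.tl e) j b → S.lab e = j := fun e j he o => by
      rw [← y2 e he]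
      rcases hb with w | w <;> rw [← w]
      exacts [o.1, o.2]
    obtain ⟨t, t1, t2⟩ := S.f_ex f f0 k
    obtain l | l : S.lab e = k + 1 ∨ S.lab e = k + 2 := by
      have := v e he q
      revert this; generalize S.lab e = u; clear * -; revert u k; decide
    · refine (z k).1 ((M.f_ind (P := fun e => M.lf e = f ∧ S.lab e = k + 1 ∧ S.Dp k (M.tl e) b)
        (fun e ⟨he, l, q⟩ => ⟨by simpa, ?_⟩) ⟨he, l, q⟩ (he.trans t1.symm)).2.1.symm.trans t2)
      have ne : b ≠ e := fun w => by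
        have := (c.a2 _ _ _ q).2
        rw [hb.resolve_left fun j => y1 (by rw [← j, w, he]), y2 e he, l] at this
        exact (z k).2.2.1 this
      have i := inn _ q
      by_cases r : e = S.o k (M.tl e)
      · rcases q.2.1.cases with w | ⟨-, w⟩
        · exact absurd (by rw [q.2.2, w, ← r]) ne
        · rw [S.p_in k i, ← r, ← M.tl_nx] at w
          have q' : S.Dp k (M.tl (M.nx e)) b := ⟨q.1, w, q.2.2⟩
          refine ⟨l ▸ (S.lab_nx e (he ▸ f0)).resolve_right fun j => ?_, q'⟩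
          exact v _ (by simpa) q' (by rw [j, l, (z k).2.2.2.1])
      · have r' : e ≠ S.o (S.lab e + 2) (M.tl e) := by rwa [l, (z k).2.2.2.1]
        have l' := (S.lab_nx e (he ▸ f0)).resolve_left fun j => r' (S.flat h.tri (he ▸ f0) j).1.2
        rw [l, (z k).2.2.2.1] at l'
        obtain ⟨j1, j2⟩ := (S.col (he ▸ f0) (inn_rf i)).resolve_left fun j => r' j.2
        rw [l'] at j2
        rcases c.n2 h.tri j1 (z k).1.symm (z k).2.2.1.symm (z k).2.1 (d := b)
          (by rw [← j2]; simpa using q) with o | o | o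
        · exact absurd l' (v _ (by simpa) (by simpa using o))
        · exact absurd ((int (M.nx e) _ (by simpa) (by simpa using o)).symm.trans l') (z k).2.1
        · exact absurd (by rw [o, ← j2, PM.rr]) ne
    · refine M.f_ind (P := fun e => ¬ (M.lf e = f ∧ S.lab e = k + 2 ∧ S.Dp k (M.tl e) b))
        (fun e N ⟨he, l, q⟩ => N ?_) (d := t) (fun j => (z k).2.1 (j.2.1.symm.trans t2))
        (t1.trans he.symm) ⟨he, l, q⟩
      rw [PM.tl_nx] at q
      have he' : M.lf e = f := by simpa using he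
      have ne : b ≠ M.rev e := fun w => by
        have := (c.a2 _ _ _ q).1
        rw [hb.resolve_right fun j => y1 (by rw [← j, w, PM.rf_rev, he']), ← M.tl_nx, y2 _ he, l] at this
        exact (z k).2.2.1 this.symm
      have i := inn _ q
      refine ⟨he', ?_⟩
      by_cases r : M.rev e = S.o k (M.hd e)
      · rcases q.2.1.cases with w | ⟨-, w⟩
        · exact absurd (by rw [q.2.2, w, ← r]) ne
        · rw [S.p_in k i, ← r, PM.hd_rev] at w
          have q' : S.Dp k (M.tl e) b := ⟨q.1, w, q.2.2⟩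
          refine ⟨l ▸ ((S.lab_nx e (he' ▸ f0)).resolve_right fun j => ?_).symm, q'⟩
          exact v _ he' q' (add_right_cancel (j.symm.trans l))
      · have r' : M.rev e ≠ S.o (S.lab (M.nx e) + 1) (M.hd e) := by rwa [l, (z k).2.2.2.2]
        have l' := (S.lab_nx e (he' ▸ f0)).resolve_left fun j =>
          r' (j ▸ (S.flat h.tri (he' ▸ f0) j).2.2)
        have l2 : S.lab e = k := add_right_cancel (l'.symm.trans l)
        obtain ⟨j1, j2⟩ := (S.col (he' ▸ f0) (inn_rf' i)).resolve_right fun j => r' j.2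
        rw [l2] at j2
        rcases c.n2 h.tri j1 (z k).2.1.symm (z k).2.2.1 (z k).1 (d := b) (by rw [← j2]; exact q)
          with o | o | o
        · exact absurd l2 (v _ he' o)
        · exact absurd ((int e _ he' o).symm.trans l2) (z k).1
        · exact absurd (by rw [o, ← j2]) ne
  have A1 := A d (Or.inl rfl)
  have A2 := A (M.rev d) (Or.inr (by simp))
  refine ⟨r0, fun r => ?_, fun b hb => (c.a1 _ d y0 r0 (A1 b hb) (A2 b hb)).symm.trans (y2 b hb)⟩
  rcases S.dart d y0 r0 with ⟨i, j, q⟩ | ⟨i, j, q⟩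
  · exact A1 (M.sg d) (by simpa) j ⟨i, by simpa using Sch.On.refl S _ _, q⟩
  · exact A2 (M.rev d) r j ⟨i, Sch.On.refl S _ _, q⟩

lemma Base.sperner (h : Base M T a) (μ : V → Fin 3) (hμ : ∀ j, μ (M.tl (a j)) = j) :
    ∃ f, f ≠ T ∧ ∀ m, ∃ d, M.lf d = f ∧ μ (M.tl d) = m + 1 ∧ μ (M.hd d) = m := by
  classical
  have : Finite F := Finite.of_surjective M.lf M.lf_surj
  have := Fintype.ofFinite F
  set θ : Fin 3 → D → ℤ := fun m d => (if μ (M.tl d) = m + 1 ∧ μ (M.hd d) = m then 1 else 0)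
    - if μ (M.tl d) = m ∧ μ (M.hd d) = m + 1 then 1 else 0 with hθ
  have z : ∑ d, θ 0 d = 0 := by
    have : ∑ d, θ 0 d = - ∑ d, θ 0 d := by
      rw [← sum_neg_distrib, ← M.sum_rev]
      refine sum_congr rfl fun d _ => ?_
      simp only [hθ, PM.tl_rev, PM.hd_rev]
      generalize μ (M.tl d) = x; generalize μ (M.hd d) = y; clear * -; revert x y; decide
    omega
  have w : ∀ f m, ∑ d with M.lf d = f, θ (m + 1) d = ∑ d with M.lf d = f, θ m d := fun f m => by
    rw [← sub_eq_zero, ← sum_sub_distrib, ← M.tele_f f fun x => if μ x = m + 1 then (1 : ℤ) else 0]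
    refine sum_congr rfl fun d _ => ?_
    simp only [hθ]
    generalize μ (M.tl d) = x; generalize μ (M.hd d) = y; clear * -; revert m x y; decide
  have o : ∑ d with M.lf d = T, θ 0 d < 0 := by
    have k : ∀ j, θ 0 (a j) = if j = 0 then -1 else 0 := fun j => by
      simp only [hθ, h.tri.hd, hμ]; revert j; decide
    refine (sum_lt_sum (g := fun _ => (0 : ℤ)) (fun d hd => ?_)
      ⟨a 0, by simp [h.tri.lf], by simp [k]⟩).trans_eq (by simp)
    obtain ⟨j, rfl⟩ := out_dart h.tri (mem_filter.1 hd).2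
    rw [k]; split_ifs <;> simp
  obtain ⟨f, hf⟩ : ∃ f, 0 < ∑ d with M.lf d = f, θ 0 d := by
    by_contra n
    push Not at n
    have := sum_lt_sum (s := univ) (g := fun _ => (0 : ℤ)) (fun f _ => n f) ⟨T, mem_univ _, o⟩
    rw [sum_fiberwise univ M.lf (θ 0), z] at this
    simp at this
  refine ⟨f, fun e => by rw [e] at hf; omega, fun m => ?_⟩
  have p : 0 < ∑ d with M.lf d = f, θ m d := by
    fin_cases m
    exacts [hf, (w f 0).symm ▸ hf, (w f 1).symm ▸ (w f 0).symm ▸ hf]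
  by_contra n
  push Not at n
  refine absurd p (not_lt.2 (sum_nonpos fun d hd => ?_))
  simp only [hθ]
  rw [if_neg fun k => n d (mem_filter.1 hd).2 k.1 k.2]
  split_ifs <;> simp

theorem Chi.half (h : Base M T a) (c : Chi S χ) (R : Finset F) (hR : T ∉ R) :
    ∃ y : Fin 3 → V, ∀ f ∈ R, #{g ∈ R | ∀ k, χ (y k) g = χ (y k) f} ≤ 1 ∨
      2 * #{g ∈ R | ∀ k, χ (y k) g = χ (y k) f} ≤ #R := by
  classical
  by_contra n
  push Not at n
  have dj : ∀ A B : Finset F, A ⊆ R → B ⊆ R → #R < 2 * #A → #R < 2 * #B → ∃ g ∈ A, g ∈ B := by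
    intro A B a1 b1 a2 b2
    by_contra q
    push Not at q
    have := card_le_card (union_subset a1 b1)
    rw [card_union_of_disjoint (disjoint_left.2 q)] at this
    omega
  have : ∀ v, ∃ m, #R < 2 * #{g ∈ R | χ v g = m} := fun v => by
    obtain ⟨f, -, -, q⟩ := n fun _ => v
    exact ⟨χ v f, by simpa using q⟩
  choose μ hμ using this
  have μt : ∀ j, μ (M.tl (a j)) = j := fun j => by
    obtain ⟨g, g1, -⟩ := dj _ _ (filter_subset _ _) (filter_subset _ _) (hμ (M.tl (a j))) (hμ (M.tl (a j)))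
    exact (mem_filter.1 g1).2.symm.trans (c.a4 j g)
  have hd : ∀ i u, ¬ M.Inc u T → μ u ≠ μ (M.hd (S.o i u)) → μ (M.hd (S.o i u)) = i := by
    intro i u hu ne
    by_contra q
    obtain ⟨g, g1, g2⟩ := dj _ _ (filter_subset _ _) (filter_subset _ _) (hμ u) (hμ (M.hd (S.o i u)))
    rw [mem_filter] at g1 g2
    exact ne (g1.2.symm.trans (c.nest h hu q (fun e => hR (e ▸ g1.1)) g2.2))
  obtain ⟨f0, d0, hb⟩ := h.sperner μ μt
  choose b b1 b2 b3 using hb
  have z : ∀ m : Fin 3, m + 1 ≠ m ∧ m + 1 ≠ m + 1 + 1 ∧ m + 1 + 2 = m := by decide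
  have lb : ∀ m, S.lab (M.nx (b m)) = m := fun m => by
    have ne : μ (M.tl (b m)) ≠ μ (M.hd (b m)) := by rw [b2, b3]; exact (z m).1
    have l0 : M.lf (b m) ≠ T := b1 m ▸ d0
    by_cases r : M.rf (b m) = T
    · obtain ⟨j, hj⟩ := (h.tri.all _).1 (r ▸ M.inc_hd_rf (b m))
      rw [S.lab_t j _ (by simp [hj]) (by simpa), ← μt j, hj, b3]
    have bw : ∀ i, ¬ M.Inc (M.hd (b m)) T → M.rev (b m) = S.o i (M.hd (b m)) → m + 1 = i :=
      fun i q k => by
        have := hd i _ q (by rw [← k]; simpa using ne.symm)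
        rwa [← k, PM.hd_rev, b2] at this
    rcases S.col l0 r with ⟨q, k⟩ | ⟨q, k⟩
    · have := hd (S.lab (b m) + 2) _ q (by rw [← k]; exact ne)
      rw [← k, b3] at this
      refine ((S.lab_nx _ l0).resolve_left fun j => ?_).trans this.symm
      have u := bw _ (S.flat h.tri l0 j).2.1 (S.flat h.tri l0 j).2.2
      revert this u; generalize S.lab (b m) = x; clear * -; revert m x; decide
    · exact (add_right_cancel (bw _ q k)).symm
  obtain ⟨f, -, f1, f2⟩ := n fun m => M.hd (b m)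
  refine absurd f1 (not_lt.2 (card_le_one.2 ?_))
  have : ∀ g ∈ ({g ∈ R | ∀ k, χ (M.hd (b k)) g = χ (M.hd (b k)) f} : Finset F), g = f0 := by
    intro g hg
    rw [mem_filter] at hg
    have g0 : g ≠ T := fun q => hR (q ▸ hg.1)
    refine c.tri h d0 g0 fun e he => c.same h (b := M.nx (b (S.lab e))) (by simpa [b1])
      (by simp [b1, he]) (lb _) g0 ?_
    obtain ⟨g', g1, g2⟩ := dj _ _ (filter_subset _ _) (filter_subset _ _) f2 (hμ (M.hd (b (S.lab e))))
    rw [PM.tl_nx, hg.2, ← (mem_filter.1 g1).2, (mem_filter.1 g2).2, b3, lb]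
  exact fun x hx y hy => (this x hx).trans (this y hy).symm

end Pool.Agent.Lib.MP_d5dfc1_co.Gm
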