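import Pool.Agent.Lib.MP_d5dfc1_co.GmC

/-! The state is preserved by the three contractions. -/

namespace Pool.Agent.Lib.MP_d5dfc1_co.Gm

open Relation Finset QP

set_option linter.unusedSectionVars false

variable {V : Type} [Fintype V] [LinearOrder V]
variable {T : V → V → V → Prop} {Z H H' : V → Prop} {a b c x y z l r u v w : V}

lemma ca_ne (xw : x ≠ w) (h : adj (con T x w) u v) : u ≠ x ∧ v ≠ x := by
  obtain ⟨-, x0, y0, -, rfl, rfl⟩ := Tri.con_lift h
  exact ⟨pr_ne_v xw _, pr_ne_v xw _⟩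

lemma ca_up (h : adj (con T x w) u v) (n : u ≠ w) (m : v ≠ w) : adj T u v := by
  obtain ⟨-, x0, y0, k, e1, e2⟩ := Tri.con_lift h
  rwa [← pr_eq_ne e1 n, ← pr_eq_ne e2 m]

lemma ca_l (h : adj (con T x w) w u) : u ≠ w ∧ (adj T w u ∨ adj T x u) := by
  obtain ⟨n, x0, y0, k, e1, e2⟩ := Tri.con_lift h
  obtain rfl := pr_eq_ne e2 n.symm
  rcases pr_eq_a e1 with rfl | rfl
  exacts [⟨n.symm, Or.inr k⟩, ⟨n.symm, Or.inl k⟩]

lemma ca_r (hT : Tri T) (h : adj (con T x w) u w) : u ≠ w ∧ (adj T w u ∨ adj T x u) := by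
  obtain ⟨n, x0, y0, k, e1, e2⟩ := Tri.con_lift h
  obtain rfl := pr_eq_ne e1 n
  rcases pr_eq_a e2 with rfl | rfl
  exacts [⟨n, Or.inr (hT.symm k)⟩, ⟨n, Or.inl (hT.symm k)⟩]

lemma ca_id (hT : Tri T) (h : adj T u v) (n : u ≠ x) (m : v ≠ x) : adj (con T x w) u v := by
  have := hT.con_adj (v := x) (a := w) h (by rw [pr_ne n, pr_ne m]; exact hT.adj_ne h)
  rwa [pr_ne n, pr_ne m] at this

lemma ca_x (hT : Tri T) (h : adj T x u) (n : u ≠ w) : adj (con T x w) w u := by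
  have m := (hT.adj_ne h).symm
  have := hT.con_adj (v := x) (a := w) h (by rw [pr_v, pr_ne m]; exact n.symm)
  rwa [pr_v, pr_ne m] at this

lemma ca_x' (hT : Tri T) (h : adj T u x) (n : u ≠ w) : adj (con T x w) u w := by
  have m := hT.adj_ne h
  have := hT.con_adj (v := x) (a := w) h (by rw [pr_v, pr_ne m]; exact n)
  rwa [pr_v, pr_ne m] at this

theorem St.step (hT : Tri T) (S : St T Z H a b c) (ax : adj T a x) (xb : x ≠ b) (xc : x ≠ c)
    (hx : Z x ∨ (¬ Z x ∧ (∀ u, adj T a u → ¬ Z u) ∧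
      ∀ z u, Z z → adj T x z → adj T a u → adj T z u → u ≠ x → adj T x u))
    (hH : ∀ u, H' u ↔ u ≠ x ∧ (H u ∨ (¬ Z x ∧ adj T x u ∧ ¬ Z u ∧ u ≠ a))) :
    St (QP.con T x a) Z H' a b c := by
  have xa := (hT.adj_ne ax).symm
  have na : ∀ {z}, Z z → z ≠ a := fun k e => S.za (e ▸ k)
  have c2 : ∀ {z u}, T z x u → z ≠ a → u ≠ a → QP.con T x a z a u := fun t n m =>
    hT.con_rot (hT.con_rot (hT.con_v (hT.rot t) m n))
  have c3 : ∀ {z u}, T z u x → z ≠ a → u ≠ a → QP.con T x a z u a := fun t n m =>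
    hT.con_rot (hT.con_v (hT.rot2 t) n m)
  refine ⟨hT.con_id S.out xa.symm xb.symm xc.symm, S.za, (hH b).2 ⟨xb.symm, Or.inl S.hb⟩,
    (hH c).2 ⟨xc.symm, Or.inl S.hc⟩, fun u k => ?_, fun u v k1 k2 h => ?_,
    fun u v w t n1 n2 n3 => ?_, fun z u v k h n1 n2 h1 h2 => ?_,
    fun z z' u v k k' n m n1 n2 h1 h2 h3 h4 => ?_, fun z u k h1 h2 h3 => ?_,
    fun z z' u k k' n h1 h2 h3 h4 m => ?_, fun x0 y0 C n1 n2 hC => ?_⟩
  · obtain ⟨n, k | k⟩ := (hH u).1 k
    exacts [⟨ca_id hT (S.h1 u k).1 xa.symm n, (S.h1 u k).2⟩, ⟨ca_x hT k.2.1 k.2.2.2, k.2.2.1⟩]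
  · exact S.zi u v k1 k2 (ca_up h (na k1) (na k2))
  · obtain ⟨-, -, -, u0, v0, w0, t, e1, e2, e3⟩ := t
    rw [pr_eq_ne e1 n1, pr_eq_ne e2 n2, pr_eq_ne e3 n3] at t
    exact S.zt u v w t n1 n2 n3
  · exact (S.p1 z u v k (ca_up h n1 n2) n1 n2 (ca_up h1 (na k) n1) (ca_up h2 (na k) n2)).imp
      (fun t => hT.con_id t (ca_ne xa h1).1 (ca_ne xa h).1 (ca_ne xa h).2)
      fun t => hT.con_id t (ca_ne xa h1).1 (ca_ne xa h).2 (ca_ne xa h).1
  · exact ca_id hT (S.p2 z z' u v k k' n m n1 n2 (ca_up h1 (na k) n1) (ca_up h2 (na k) n2)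
      (ca_up h3 (na k') n1) (ca_up h4 (na k') n2)) (ca_ne xa h1).2 (ca_ne xa h2).2
  · obtain ⟨ua, hu⟩ := ca_l h2
    obtain ⟨zx, ux⟩ := ca_ne xa h3
    have zu := ca_up h3 (na k) ua
    rcases hx with hx | ⟨hx, st, hv⟩
    · have az := (ca_l h1).2.resolve_right (S.zi _ _ hx k)
      obtain ⟨j1, j2⟩ := S.pe z u k az (hu.elim id fun j => S.pd z x u k hx zx az ax zu j ua) zu
      exact ⟨(hH u).2 ⟨ux, Or.inl j1⟩, j2.imp (fun t => hT.con_id t zx xa.symm ux)
        fun t => hT.con_id t zx ux xa.symm⟩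
    · have xz := (ca_l h1).2.resolve_left fun j => st z j k
      have xu := hu.elim (fun j => hv z u k xz j zu ux) id
      exact ⟨(hH u).2 ⟨ux, Or.inr ⟨hx, xu, fun j => S.zi _ _ k j zu, ua⟩⟩,
        (S.p1 z x u k xu xa ua (hT.symm xz) zu).imp (fun t => c2 t (na k) ua)
          fun t => c3 t (na k) ua⟩
  · have ux := (ca_ne xa h3).2
    have zu := ca_up h3 (na k) m
    have zu' := ca_up h4 (na k') m
    rcases hx with hx | ⟨hx, st, hv⟩
    · exact ca_id hT (S.pd z z' u k k' n ((ca_l h1).2.resolve_right (S.zi _ _ hx k))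
        ((ca_l h2).2.resolve_right (S.zi _ _ hx k')) zu zu' m) xa.symm ux
    · exact ca_x hT (S.p2 z z' x u k k' n ux.symm xa m
        (hT.symm ((ca_l h1).2.resolve_left fun j => st z j k)) zu
        (hT.symm ((ca_l h2).2.resolve_left fun j => st z' j k')) zu') m
  · refine S.con x0 y0 C n1 n2 fun u hu => ?_
    obtain ⟨j1, j2, j3, j4, j5⟩ := hC u hu
    obtain ⟨j6, j7⟩ := (hT.con_vtx (hT.symm ax)).1 j1
    refine ⟨j6, j2, j3, fun k => j4 ((hH u).2 ⟨j7, Or.inl k⟩), fun w h k m => ?_⟩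
    refine j5 w (ca_id hT h j7 ?_) k m
    rintro rfl
    exact j4 ((hH u).2 ⟨j7, Or.inr ⟨k, hT.symm h, j2, j3⟩⟩)

/-- the neighbours of the root, from `c` to `b` -/
lemma St.cyc (hT : Tri T) (S : St T Z H a b c) :
    ∃ y j, Cyc T a y (j + 1) ∧ y 0 = c ∧ y j = b ∧ 2 ≤ j := by
  obtain ⟨y, d, y0, C⟩ := hT.cyc (hT.adj13 S.out)
  obtain ⟨j, -, j2, e⟩ := C.all b ⟨_, S.out⟩ 0
  have n0 : j ≠ 0 := by rintro rfl; exact hT.ne2 S.out (e.trans y0)
  have n1 : j ≠ 1 := by rintro rfl; exact hT.asym S.out (y0 ▸ e ▸ C.st 0)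
  have : j + 1 = d := by
    by_contra n
    exact C.inj 0 (j + 1) (by omega) (by omega) (y0.trans (hT.uniq S.out (e ▸ C.st j)))
  exact ⟨y, j, this ▸ C, y0, e.symm, by omega⟩

theorem St.chain (hT : Tri T) (S : St T Z H a b c) (K : Ch T Z H a b c l y x r z)
    (st : ∀ u, adj T a u → ¬ Z u) (hH : ∀ u, H' u ↔ u ≠ x ∧ H u) : 
    St (QP.con T x y) Z H' a b c := by
  have o := S.out
  have hc := K.contr hT o
  have xy := hT.adj_ne hc.1
  have xa := (hT.ne K.t3).symm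
  have ay := hT.ne K.t2
  have zy := (S.h1 y K.hy).2
  have zx := (S.h1 x K.hx).2
  have zl := st l ⟨_, K.t1⟩
  have zr := st r (hT.adj13 K.t3)
  have lx : l ≠ x := by rintro rfl; exact hT.asym K.t1 K.t2
  have ry : r ≠ y := by rintro rfl; exact hT.asym K.t2 K.t3
  have ny : ∀ {z}, Z z → z ≠ y := fun k e => zy (e ▸ k)
  have nx : ∀ {z}, Z z → z ≠ x := fun k e => zx (e ▸ k)
  have nb : ∀ {u}, u ≠ x → u ≠ y ∧ (adj T y u ∨ adj T x u) → u = a ∨ u = z ∨ u = l ∨ u = r :=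
    fun n ⟨m, h⟩ => by
      rcases h with h | h
      · have := K.ny hT h; tauto
      · have := K.nx hT h; tauto
  have zz : ∀ {z0}, Z z0 → adj (QP.con T x y) z0 y → z0 = z := fun k h => by
    rcases nb (nx k) (ca_r hT h) with rfl | rfl | rfl | rfl
    exacts [absurd k S.za, rfl, absurd k zl, absurd k zr]
  have u1 : QP.con T x y z y l := hT.con_id K.t4 (nx K.zz) xy.symm lx
  have u2 : QP.con T x y z r y := hT.con_rot (hT.con_v (hT.rot2 K.t6) (ny K.zz) ry)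
  have one : ∀ z0 v, Z z0 → v ≠ x → v ≠ y ∧ (adj T y v ∨ adj T x v) → v ≠ a →
      adj (QP.con T x y) z0 y → adj (QP.con T x y) z0 v → QP.con T x y z0 y v ∨ QP.con T x y z0 v y :=
    fun z0 v k n h m h1 h2 => by
      obtain rfl := zz k h1
      rcases nb n h with rfl | rfl | rfl | rfl
      exacts [absurd rfl m, absurd rfl (Tri.con_lift h2).1, Or.inl u1, Or.inr u2]
  refine ⟨hT.con_id o xa.symm K.xb.symm K.xc.symm, S.za, (hH b).2 ⟨K.xb.symm, S.hb⟩,
    (hH c).2 ⟨K.xc.symm, S.hc⟩, fun u k => ?_, fun u v k1 k2 h => ?_,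
    fun u v w t n1 n2 n3 => ?_, fun z u v k h n1 n2 h1 h2 => ?_,
    fun z z' u v k k' n m n1 n2 h1 h2 h3 h4 => ?_, fun z u k h1 h2 h3 => ?_,
    fun z z' u k k' n h1 h2 h3 h4 m => ?_, fun x0 y0 C n1 n2 hC => ?_⟩
  · obtain ⟨n, k⟩ := (hH u).1 k
    exact ⟨ca_id hT (S.h1 u k).1 xa.symm n, (S.h1 u k).2⟩
  · exact S.zi u v k1 k2 (ca_up h (ny k1) (ny k2))
  · obtain ⟨-, -, -, u0, v0, w0, t, rfl, rfl, rfl⟩ := t
    have f : ∀ {u}, pr x y u ≠ a → u ≠ a := fun n e => n (by rw [e, pr_ne xa.symm])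
    have g : ∀ {u}, Z u → Z (pr x y u) := fun k => by rwa [pr_ne (nx k)]
    exact (S.zt _ _ _ t (f n1) (f n2) (f n3)).imp g (Or.imp g g)
  · by_cases e : u = y
    · subst e; exact one z v k (ca_ne xy h).2 (ca_l h) n2 h1 h2
    by_cases f : v = y
    · subst f; exact (one z u k (ca_ne xy h).1 (ca_r hT h) n1 h2 h1).symm
    exact (S.p1 z u v k (ca_up h e f) n1 n2 (ca_up h1 (ny k) e) (ca_up h2 (ny k) f)).imp
      (fun t => hT.con_id t (nx k) (ca_ne xy h).1 (ca_ne xy h).2)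
      fun t => hT.con_id t (nx k) (ca_ne xy h).2 (ca_ne xy h).1
  · have e : u ≠ y := by rintro rfl; exact n ((zz k h1).trans (zz k' h3).symm)
    have f : v ≠ y := by rintro rfl; exact n ((zz k h2).trans (zz k' h4).symm)
    exact ca_id hT (S.p2 z z' u v k k' n m n1 n2 (ca_up h1 (ny k) e) (ca_up h2 (ny k) f)
      (ca_up h3 (ny k') e) (ca_up h4 (ny k') f)) (ca_ne xy h1).2 (ca_ne xy h2).2
  · exact absurd k (st z (ca_up h1 ay (ny k)))
  · exact absurd k (st z (ca_up h1 ay (ny k)))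
  · have cx : ∀ u ∈ C, vtx T u ∧ u ≠ x := fun u hu => (hT.con_vtx hc.1).1 (hC u hu).1
    have nH : ∀ u ∈ C, ¬ H u := fun u hu k => (hC u hu).2.2.2.1 ((hH u).2 ⟨(cx u hu).2, k⟩)
    have yC : y ∉ C := fun k => nH y k K.hy
    have cl : ∀ u ∈ C, ∀ w, adj T u w → w ≠ x → ¬ Z w → w ≠ a → w ∈ C ∨ w = x0 ∨ w = y0 :=
      fun u hu w h n => (hC u hu).2.2.2.2 w (ca_id hT h (cx u hu).2 n)
    have rx : ∀ u ∈ C, adj T u x → u = r := fun u hu h => by
      rcases K.nx hT (hT.symm h) with rfl | rfl | rfl | rfl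
      exacts [absurd rfl (hC _ hu).2.2.1, absurd hu yC, absurd K.zz (hC _ hu).2.1, rfl]
    by_cases rC : r ∈ C
    swap
    · exact S.con x0 y0 C n1 n2 fun u hu => ⟨(cx u hu).1, (hC u hu).2.1, (hC u hu).2.2.1, nH u hu,
        fun w h => cl u hu w h (by rintro rfl; exact rC (rx u hu h ▸ hu))⟩
    have key : ∀ y0, y0 ∉ C → (∀ u ∈ C, ∀ w, adj T u w → w ≠ x → ¬ Z w → w ≠ a →
        w ∈ C ∨ w = y ∨ w = y0) → ∀ u, u ∉ C := fun y0 n2 cl => by
      by_cases lC : l ∈ C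
      swap
      · refine S.con x y0 C (fun k => (cx x k).2 rfl) n2 fun u hu => ⟨(cx u hu).1, (hC u hu).2.1,
          (hC u hu).2.2.1, nH u hu, fun w h k m => ?_⟩
        by_cases e : w = x
        · exact Or.inr (Or.inl e)
        rcases cl u hu w h e k m with j | rfl | j
        · exact Or.inl j
        · rcases K.ny hT (hT.symm h) with rfl | rfl | rfl | rfl
          exacts [absurd rfl (hC _ hu).2.2.1, absurd hu lC, absurd K.zz (hC _ hu).2.1,
            absurd rfl (cx _ hu).2]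
        · exact Or.inr (Or.inr j)
      exfalso
      obtain ⟨g, j, G, g0, gj, -⟩ := S.cyc hT
      have ad : ∀ m, adj T a (g m) := fun m => ⟨_, G.st m⟩
      obtain ⟨i, -, i2, e0⟩ := G.all l ⟨_, K.t1⟩ 0
      have e1 : y = g (i + 1) := hT.uniq K.t1 (e0 ▸ G.st i)
      have e2 : x = g (i + 2) := hT.uniq K.t2 (e1 ▸ G.st (i + 1))
      have e3 : r = g (i + 3) := hT.uniq K.t3 (e2 ▸ G.st (i + 2))
      have pj : g (j + 1) = c := by rw [← g0, ← G.per 0, zero_add]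
      have i3 : i + 3 ≤ j := by
        have : i ≠ j := by rintro rfl; exact K.yc (e1.trans pj)
        have : i + 1 ≠ j := by rintro rfl; exact K.yb (e1.trans gj)
        have : i + 2 ≠ j := by rintro rfl; exact K.xb (e2.trans gj)
        omega
      have R : ∀ m, i + 3 ≤ m → m ≤ j → g m ∈ C ∨ ∃ m', i + 3 ≤ m' ∧ m' ≤ j ∧ g m' = y0 := by
        intro m h1
        induction m, h1 using Nat.le_induction with
        | base => exact fun _ => Or.inl (e3 ▸ rC)
        | succ m h1 ih =>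
          intro h2
          rcases ih (by omega) with k | k
          · rcases cl _ k _ (hT.adj23 (G.st m)) (e2 ▸ (G.inj _ _ (by omega) (by omega)).symm)
              (st _ (ad _)) (hT.adj_ne (ad _)).symm with k | k | k
            exacts [Or.inl k, absurd (e1.symm.trans k.symm) (G.inj _ _ (by omega) (by omega)),
              Or.inr ⟨_, by omega, h2, k⟩]
          · exact Or.inr k
      have L : ∀ n m, m + n = i → g m ∈ C ∨ ∃ m', m' ≤ i ∧ g m' = y0 := by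
        intro n
        induction n with
        | zero => intro m h; obtain rfl : m = i := h; exact Or.inl (e0 ▸ lC)
        | succ n ih =>
          intro m h
          rcases ih (m + 1) (by omega) with k | k
          · rcases cl _ k _ (hT.symm (hT.adj23 (G.st m))) (e2 ▸ G.inj _ _ (by omega) (by omega))
              (st _ (ad _)) (hT.adj_ne (ad _)).symm with k | k | k
            exacts [Or.inl k, absurd (k.trans e1) (G.inj _ _ (by omega) (by omega)),
              Or.inr ⟨_, by omega, k⟩]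
          · exact Or.inr k
      obtain ⟨m1, a1, a2, a3⟩ := (R j i3 le_rfl).resolve_left fun k => nH _ k (gj ▸ S.hb)
      obtain ⟨m2, b1, b2⟩ := (L i 0 (zero_add i)).resolve_left fun k => nH _ k (g0 ▸ S.hc)
      exact G.inj m2 m1 (by omega) (by omega) (b2.trans a3.symm)
    rcases (hC r rC).2.2.2.2 y (ca_x' hT (hT.symm (hT.adj23 K.t3)) ry) zy ay.symm with k | k | k
    · exact absurd k yC
    · exact key y0 n2 (k ▸ cl)
    · exact key x0 n1 fun u hu w h n m j => (cl u hu w h n m j).imp_right fun i => (k ▸ i).symm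

end Pool.Agent.Lib.MP_d5dfc1_co.Gm
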