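import Pool.Agent.Lib.MP_d5dfc1_co.GmZ

/-! The triangulation with a vertex in each inner face is a sphere. -/

namespace Pool.Agent.Lib.MP_d5dfc1_co.Gm

open Finset Ex Sum Relation

variable {V F D : Type} {M : PM V F D} {T : F} {a : Fin 3 → D}

lemma tz_inv {u v w : V ⊕ F} (t : TZ M T u v w) : ∃ d,
    (M.lf d = T ∧ u = inl (M.tl d) ∧ v = inl (M.hd d) ∧ w = inl (M.hd (M.nx d))) ∨
    (M.lf d ≠ T ∧ u = inl (M.tl d) ∧ v = inl (M.hd d) ∧ w = inr (M.lf d)) ∨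
    (M.lf d ≠ T ∧ u = inl (M.hd d) ∧ v = inr (M.lf d) ∧ w = inl (M.tl d)) ∨
    (M.lf d ≠ T ∧ u = inr (M.lf d) ∧ v = inl (M.tl d) ∧ w = inl (M.hd d)) := by
  cases t with
  | out d h => exact ⟨d, Or.inl ⟨h, rfl, rfl, rfl⟩⟩
  | t1 d h => exact ⟨d, Or.inr (Or.inl ⟨h, rfl, rfl, rfl⟩)⟩
  | t2 d h => exact ⟨d, Or.inr (Or.inr (Or.inl ⟨h, rfl, rfl, rfl⟩))⟩
  | t3 d h => exact ⟨d, Or.inr (Or.inr (Or.inr ⟨h, rfl, rfl, rfl⟩))⟩

lemma tz_ll (d : D) : QP.adj (TZ M T) (inl (M.tl d)) (inl (M.hd d)) := by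
  by_cases e : M.lf d = T
  exacts [⟨_, .out d e⟩, ⟨_, .t1 d e⟩]

lemma tz_lr {x : V} {f : F} (e : f ≠ T) (i : M.Inc x f) : QP.adj (TZ M T) (inl x) (inr f) := by
  obtain ⟨d, rfl, rfl⟩ := i
  obtain ⟨b, rfl⟩ := M.nxP.surjective d
  simp only [PM.nxP_apply, PM.lf_nx, PM.tl_nx] at e ⊢
  exact ⟨_, .t2 b e⟩

lemma tz_rl {x : V} {f : F} (e : f ≠ T) (i : M.Inc x f) : QP.adj (TZ M T) (inr f) (inl x) := by
  obtain ⟨d, rfl, rfl⟩ := i
  exact ⟨_, .t3 d e⟩

lemma tz_adj {u v : V ⊕ F} (t : QP.adj (TZ M T) u v) :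
    (∃ d, u = inl (M.tl d) ∧ v = inl (M.hd d)) ∨
    (∃ d, M.lf d ≠ T ∧ u = inl (M.tl d) ∧ v = inr (M.lf d)) ∨
    (∃ d, M.lf d ≠ T ∧ u = inr (M.lf d) ∧ v = inl (M.tl d)) := by
  obtain ⟨w, t⟩ := t
  obtain ⟨d, k | k | k | k⟩ := tz_inv t
  · exact Or.inl ⟨d, k.2.1, k.2.2.1⟩
  · exact Or.inl ⟨d, k.2.1, k.2.2.1⟩
  · exact Or.inr (Or.inl ⟨M.nx d, by simpa using k.1, by simpa using k.2.1, by simpa using k.2.2.1⟩)
  · exact Or.inr (Or.inr ⟨d, k.1, k.2.1, k.2.2.1⟩)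

lemma tz_adj_ll {x y : V} (t : QP.adj (TZ M T) (inl x) (inl y)) : M.Adj x y := by
  rcases tz_adj t with ⟨d, h1, h2⟩ | ⟨d, -, -, h⟩ | ⟨d, -, h, -⟩
  exacts [⟨d, (inl_injective h1).symm, (inl_injective h2).symm⟩, by simp at h, by simp at h]

lemma tz_adj_r {f : F} {v : V ⊕ F} (t : QP.adj (TZ M T) (inr f) v) :
    f ≠ T ∧ ∃ x, v = inl x ∧ M.Inc x f := by
  rcases tz_adj t with ⟨d, h, -⟩ | ⟨d, -, h, -⟩ | ⟨d, e, h, rfl⟩
  · simp at h
  · simp at h
  · obtain rfl := inr_injective h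
    exact ⟨e, _, rfl, M.inc_tl_lf d⟩

lemma tz_adj_lr {x : V} {f : F} (t : QP.adj (TZ M T) (inl x) (inr f)) : M.Inc x f := by
  rcases tz_adj t with ⟨d, -, h⟩ | ⟨d, -, h1, h2⟩ | ⟨d, -, h, -⟩
  exacts [by simp at h, ⟨d, (inl_injective h1).symm, (inr_injective h2).symm⟩, by simp at h]

lemma tz_n3 (hT : Tri M T a) {d : D} (e : M.lf d = T) : M.hd (M.nx (M.nx d)) = M.tl d := by
  have n : ∀ j, M.nx (a j) = a (j + 1) := fun j =>
    M.uniq _ _ (by rw [PM.tl_nx, hT.hd]) (by simp [hT.lf])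
  obtain ⟨j, rfl⟩ := out_dart hT e
  rw [n, n, hT.hd, show j + 1 + 1 + 1 = j by clear * -; revert j; decide]

lemma tz_step (hT : Tri M T a) (b : D) :
    ReflTransGen (TZ M T (inl (M.tl b))) (inl (M.hd (M.sg b))) (inl (M.hd b)) := by
  by_cases e : M.rf b = T
  · have k := TZ.out (M := M) (T := T) (M.sg b) (by simpa using e)
    have := tz_n3 hT (d := M.rev b) e
    rw [nx_rev, PM.tl_rev] at this
    rw [this, PM.tl_sg'] at k
    exact .single k
  · have k1 := TZ.t1 (M := M) (T := T) (M.sg b) (by simpa using e)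
    have k2 := TZ.t2 (M := M) (T := T) (M.rev b) e
    simp only [PM.tl_sg', PM.lf_sg', PM.hd_rev, PM.tl_rev, PM.lf_rev] at k1 k2
    exact (ReflTransGen.single k1).tail k2

variable [Fintype D] [DecidableEq V]

/-- the dual map -/
def Base.tzDual (h : Base M T a) : PM F V D where
  rev := M.rev
  tl := M.lf
  lf := M.tl
  sg := M.nxP
  rev_rev := M.rev_rev
  tl_sg := fun d => by simp
  lf_sg := fun d => by simp
  vtr := M.ftr
  ftr := fun d e t => by simpa [nx_rev] using M.vtr d e t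
  uniq := fun d e h1 h2 => M.uniq d e h2 h1
  simple := fun _ _ h1 h2 => M.uniq_lr h1 h2
  tl_surj := M.lf_surj
  lf_surj := M.tl_surj
  noloop := M.sides
  sides := M.noloop
  two := fun d b c e h1 h2 => h.ef d _ ⟨b, h1, rfl⟩ ⟨c, h2, e.symm⟩

theorem Base.tz [Fintype V] [Fintype F] (h : Base M T a) : QP.Tri (TZ M T) where
  rot := by
    intro _ _ _ t
    cases t with
    | out d e =>
      have k := TZ.out (M := M) (T := T) (M.nx d) (by simpa using e)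
      rwa [tz_n3 h.tri e, PM.tl_nx] at k
    | t1 d e => exact .t2 d e
    | t2 d e => exact .t3 d e
    | t3 d e => exact .t1 d e
  ne := by
    intro _ _ _ t
    cases t with
    | out d e => simpa using (M.hd_ne d).symm
    | t1 d e => simpa using (M.hd_ne d).symm
    | t2 d e => simp
    | t3 d e => simp
  uniq := by
    intro _ _ _ _ t s
    obtain ⟨d, ⟨e, rfl, rfl, rfl⟩ | ⟨e, rfl, rfl, rfl⟩ | ⟨e, rfl, rfl, rfl⟩ | ⟨e, rfl, rfl, rfl⟩⟩ :=
      tz_inv t <;>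
    obtain ⟨b, ⟨e', h1, h2, rfl⟩ | ⟨e', h1, h2, rfl⟩ | ⟨e', h1, h2, rfl⟩ | ⟨e', h1, h2, rfl⟩⟩ :=
      tz_inv s <;>
    simp only [inl.injEq, inr.injEq, reduceCtorEq] at h1 h2
    · rw [M.simple' h1 h2]
    · exact absurd (M.simple' h1 h2 ▸ e) e'
    · exact absurd (M.simple' h1 h2 ▸ e') e
    · rw [M.simple' h1 h2]
    · rw [M.nxP.injective (M.uniq (M.nx d) (M.nx b) (by simpa using h1) (by simpa using h2))]
    · rw [M.uniq _ _ h2 h1]
  opp := by
    intro _ _ _ t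
    rcases tz_adj ⟨_, t⟩ with ⟨d, rfl, rfl⟩ | ⟨d, e, rfl, rfl⟩ | ⟨d, e, rfl, rfl⟩
    · simpa using tz_ll (M := M) (T := T) (M.rev d)
    · exact tz_rl e (M.inc_tl_lf d)
    · exact tz_lr e (M.inc_tl_lf d)
  asym := by
    intro _ _ _ t s
    have k : ∀ d b, M.tl d = M.hd b → M.hd d = M.tl b → M.lf d = M.lf b → False := fun d b h1 h2 h3 =>
      M.rf_ne b (by rw [← h3, M.simple' (d := d) (e := M.rev b) h1 (by simpa using h2)]; rfl)
    obtain ⟨d, ⟨e, rfl, rfl, rfl⟩ | ⟨e, rfl, rfl, rfl⟩ | ⟨e, rfl, rfl, rfl⟩ | ⟨e, rfl, rfl, rfl⟩⟩ :=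
      tz_inv t <;>
    obtain ⟨b, ⟨e', h1, h2, h3⟩ | ⟨e', h1, h2, h3⟩ | ⟨e', h1, h2, h3⟩ | ⟨e', h1, h2, h3⟩⟩ :=
      tz_inv s <;>
    simp only [inl.injEq, inr.injEq, reduceCtorEq] at h1 h2 h3
    · rw [← M.uniq _ _ h1 (e.trans e'.symm)] at h2
      exact M.hd_ne (M.nx d) (by simpa using h2)
    · exact k d b h1 h3 h2
    · exact k b d h1.symm h2.symm h3.symm
    · exact k d b h3 h2 h1
  link := by
    intro x y y' t s
    rcases x with x | f
    · have A : ∀ d e, M.tl e = M.tl d →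
          ReflTransGen (TZ M T (inl (M.tl d))) (inl (M.hd d)) (inl (M.hd e)) := fun d e h1 =>
        (M.v_ind (P := fun b => M.tl b = M.tl d ∧
          ReflTransGen (TZ M T (inl (M.tl d))) (inl (M.hd b)) (inl (M.hd e)))
          (fun b k => ⟨by simpa using k.1, (k.1 ▸ tz_step h.tri b).trans k.2⟩) ⟨h1, .refl⟩ h1).2
      obtain ⟨d, rfl, k1⟩ : ∃ d, M.tl d = x ∧ ReflTransGen (TZ M T (inl x)) y (inl (M.hd d)) := by
        rcases tz_adj t with ⟨d, h1, rfl⟩ | ⟨d, e, h1, rfl⟩ | ⟨d, -, h1, -⟩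
        · exact ⟨d, (inl_injective h1).symm, .refl⟩
        · obtain rfl := inl_injective h1
          obtain ⟨b, rfl⟩ := M.sg.surjective d
          have k2 := TZ.t2 (M := M) (T := T) (M.rev b) (by simpa using e)
          simp only [PM.tl_sg', PM.lf_sg', PM.hd_rev, PM.tl_rev, PM.lf_rev] at k2 ⊢
          exact ⟨b, rfl, .single k2⟩
        · simp at h1
      rcases tz_adj s with ⟨b, h1, rfl⟩ | ⟨b, e, h1, rfl⟩ | ⟨b, -, h1, -⟩
      · exact k1.trans (A d b (inl_injective h1).symm)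
      · exact (k1.trans (A d b (inl_injective h1).symm)).tail (h1 ▸ .t1 b e)
      · simp at h1
    · obtain ⟨e, _, rfl, d, rfl, rfl⟩ := tz_adj_r t
      obtain ⟨-, _, rfl, b, rfl, hb⟩ := tz_adj_r s
      exact (M.f_ind (P := fun c => M.lf c = M.lf d ∧
        ReflTransGen (TZ M T (inr (M.lf d))) (inl (M.tl d)) (inl (M.tl c)))
        (fun c k => ⟨by simpa using k.1, k.2.tail (by
          rw [PM.tl_nx, ← k.1]; exact .t3 c (k.1 ▸ e))⟩) ⟨rfl, .refl⟩ hb.symm).2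
  conn := by
    rintro x y ⟨x', t⟩ ⟨y', s⟩
    have A : ∀ u v : V, ReflTransGen (QP.adj (TZ M T)) (inl u) (inl v) := fun u v =>
      h.con.all {v | ReflTransGen (QP.adj (TZ M T)) (inl u) (inl v)}
        (fun d k => ReflTransGen.tail k (tz_ll d)) (u := u) .refl v
    obtain ⟨u, k1⟩ : ∃ u, ReflTransGen (QP.adj (TZ M T)) x (inl u) := by
      rcases x with x | f
      · exact ⟨x, .refl⟩
      · obtain ⟨-, u, rfl, -⟩ := tz_adj_r t
        exact ⟨u, .single t⟩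
    rcases y with y | f
    · exact k1.trans (A u y)
    · obtain ⟨e, v, rfl, i⟩ := tz_adj_r s
      exact (k1.trans (A u v)).tail (tz_lr e i)
  euler := by
    classical
    have : Nonempty F := ⟨T⟩
    have e := Ex.euler (M := h.tzDual) fun θ h1 h2 => h.dex θ h1 h2
    have v : univ.erase (inr T) ⊆ QP.verts (TZ M T) := fun u hu => QP.mem_verts.2 (by
      rcases u with x | f
      · obtain ⟨d, rfl⟩ := M.tl_surj x
        exact ⟨_, tz_ll d⟩
      · obtain ⟨d, rfl⟩ := M.lf_surj f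
        exact ⟨_, tz_rl (by simpa using hu) (M.inc_tl_lf d)⟩)
    have v1 := card_le_card v
    rw [card_erase_of_mem (mem_univ _), card_univ, Fintype.card_sum] at v1
    set I := univ.filter fun d => M.lf d ≠ T with hI
    have d0 : QP.darts (TZ M T) ⊆ (univ.image fun d => (inl (M.tl d), inl (M.hd d))) ∪
        ((I.image fun d => (inl (M.tl d), inr (M.lf d))) ∪
          I.image fun d => (inr (M.lf d), inl (M.tl d))) := by
      rintro ⟨x, y⟩ k
      rcases tz_adj (QP.mem_darts.1 k) with ⟨d, h1, h2⟩ | ⟨d, e, h1, h2⟩ | ⟨d, e, h1, h2⟩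
      · exact mem_union_left _ (mem_image.2 ⟨d, mem_univ _, Prod.ext h1.symm h2.symm⟩)
      · exact mem_union_right _ (mem_union_left _
          (mem_image.2 ⟨d, by simpa [hI] using e, Prod.ext h1.symm h2.symm⟩))
      · exact mem_union_right _ (mem_union_right _
          (mem_image.2 ⟨d, by simpa [hI] using e, Prod.ext h1.symm h2.symm⟩))
    have d1 := (card_le_card d0).trans ((card_union_le _ _).trans (add_le_add card_image_le
      ((card_union_le _ _).trans (add_le_add card_image_le card_image_le))))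
    have d2 : 3 ≤ #(univ.filter fun d => ¬ M.lf d ≠ T) := by
      have ai : Function.Injective a := fun i j k => h.tri.inj (congrArg M.tl k)
      refine le_trans (le_of_eq ?_) (card_le_card (s := univ.image a) fun d hd => ?_)
      · rw [card_image_of_injective _ ai]; rfl
      · obtain ⟨j, -, rfl⟩ := mem_image.1 hd
        simp [h.tri.lf]
    have d3 := card_filter_add_card_filter_not (s := (univ : Finset D)) fun d => M.lf d ≠ T
    have : 0 < Fintype.card F := Fintype.card_pos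
    rw [card_univ] at d1 d3
    rw [← hI] at d3
    omega

theorem Base.st (h : Base M T a) : St (TZ M T) ZZ (HZ M (M.tl (a 0))) (inl (M.tl (a 0)))
    (inl (M.tl (a 1))) (inl (M.tl (a 2))) := by
  have hT := h.tri
  have n : ∀ j, M.nx (a j) = a (j + 1) := fun j =>
    M.uniq _ _ (by rw [PM.tl_nx, hT.hd]) (by simp [hT.lf])
  have hb : HZ M (M.tl (a 0)) (inl (M.tl (a 1)) : V ⊕ F) := ⟨_, rfl, a 0, rfl, hT.hd 0⟩
  have hc : HZ M (M.tl (a 0)) (inl (M.tl (a 2)) : V ⊕ F) := ⟨_, rfl, M.rev (a 2), hT.hd 2, by simp⟩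
  have t3 : ∀ d f, f ≠ T → M.Inc (M.tl d) f → M.Inc (M.hd d) f →
      TZ M T (inr f) (inl (M.tl d)) (inl (M.hd d)) ∨ TZ M T (inr f) (inl (M.hd d)) (inl (M.tl d)) :=
    fun d f e i j => by
      rcases h.ef d f i j with rfl | rfl
      · exact Or.inl (.t3 d e)
      · have := TZ.t3 (M := M) (T := T) (M.rev d) e
        rw [PM.hd_rev] at this
        exact Or.inr this
  have al : ∀ {x y}, M.Adj x y → QP.adj (TZ M T) (inl x) (inl y) := by
    rintro _ _ ⟨d, rfl, rfl⟩; exact tz_ll d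
  refine ⟨?_, by simp [ZZ], hb, hc, ?_, ?_, ?_, ?_, ?_, ?_, ?_, ?_⟩
  · have k := TZ.out (M := M) (T := T) (a 0) (hT.lf 0)
    rwa [n, hT.hd, hT.hd] at k
  · rintro _ ⟨y, rfl, k⟩
    exact ⟨al k, by simp [ZZ]⟩
  · rintro _ _ ⟨f, rfl⟩ ⟨g, rfl⟩ k
    obtain ⟨-, _, e, -⟩ := tz_adj_r k
    simp at e
  · intro u v w t n1 n2 n3
    obtain ⟨d, ⟨e, rfl, rfl, rfl⟩ | ⟨e, rfl, rfl, rfl⟩ | ⟨e, rfl, rfl, rfl⟩ | ⟨e, rfl, rfl, rfl⟩⟩ :=
      tz_inv t
    · obtain ⟨j, rfl⟩ := out_dart hT e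
      rw [n, hT.hd] at n3
      rw [hT.hd] at n2
      obtain rfl | rfl | rfl : j = 0 ∨ j = 1 ∨ j = 2 := by clear * -; revert j; decide
      exacts [absurd rfl n1, absurd rfl n3, absurd rfl n2]
    · exact Or.inr (Or.inr ⟨_, rfl⟩)
    · exact Or.inr (Or.inl ⟨_, rfl⟩)
    · exact Or.inl ⟨_, rfl⟩
  · rintro _ u v ⟨f, rfl⟩ k - - k1 k2
    obtain ⟨e, x, rfl, i⟩ := tz_adj_r k1
    obtain ⟨-, y, rfl, j⟩ := tz_adj_r k2
    obtain ⟨d, rfl, rfl⟩ := tz_adj_ll k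
    exact t3 d f e i j
  · rintro _ _ u v ⟨f, rfl⟩ ⟨g, rfl⟩ n1 n2 - - k1 k2 k3 k4
    obtain ⟨-, x, rfl, i⟩ := tz_adj_r k1
    obtain ⟨-, y, rfl, j⟩ := tz_adj_r k2
    obtain ⟨-, _, e1, i'⟩ := tz_adj_r k3
    obtain ⟨-, _, e2, j'⟩ := tz_adj_r k4
    obtain rfl := inl_injective e1
    obtain rfl := inl_injective e2
    exact al (h.pp x y f g (fun e => n2 (by rw [e])) (fun e => n1 (by rw [e])) i j i' j')
  · rintro _ u ⟨f, rfl⟩ k1 k2 k3
    obtain ⟨e, y, rfl, j⟩ := tz_adj_r k3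
    have i := tz_adj_lr k1
    obtain ⟨d, h1, rfl⟩ := tz_adj_ll k2
    refine ⟨⟨_, rfl, d, h1, rfl⟩, ?_⟩
    rw [← h1] at i ⊢
    exact t3 d f e i j
  · rintro _ _ u ⟨f, rfl⟩ ⟨g, rfl⟩ n1 k1 k2 k3 k4 n2
    obtain ⟨-, y, rfl, j⟩ := tz_adj_r k3
    obtain ⟨-, _, e2, j'⟩ := tz_adj_r k4
    obtain rfl := inl_injective e2
    exact al (h.pp _ y f g (fun e => n2 (by rw [e])) (fun e => n1 (by rw [e])) (tz_adj_lr k1) j
      (tz_adj_lr k2) j')
  · intro x y C hx hy hC u hu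
    have a0 : inl (M.tl (a 0)) ∉ C := fun k => (hC _ k).2.2.1 rfl
    have a1 : inl (M.tl (a 1)) ∉ C := fun k => (hC _ k).2.2.2.1 hb
    have a2 : inl (M.tl (a 2)) ∉ C := fun k => (hC _ k).2.2.2.1 hc
    rcases u with v | f
    swap
    · exact (hC _ hu).2.1 ⟨f, rfl⟩
    have o : ∀ x : V ⊕ F, x ∉ C → Sum.elim id (fun _ => M.tl (a 0)) x ∉ {v | inl v ∈ C} := by
      rintro (x | f) k
      exacts [k, a0]
    have all := h.con _ _ {v | inl v ∈ C} (o x hx) (o y hy) (fun d k => by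
      obtain ⟨-, -, -, b4, b5⟩ := hC _ k
      rcases b5 _ (tz_ll d) (by simp [ZZ]) (fun e => b4 ⟨_, rfl, M.rev d, inl_injective e, by simp⟩)
        with q | q | q
      · exact Or.inl q
      · exact Or.inr (Or.inl (by rw [← q]; rfl))
      · exact Or.inr (Or.inr (by rw [← q]; rfl))) v hu
    have c0 := (all (M.tl (a 0))).resolve_left a0
    have c1 := (all (M.tl (a 1))).resolve_left a1
    have c2 := (all (M.tl (a 2))).resolve_left a2
    have ij : ∀ i j, M.tl (a i) = M.tl (a j) → i = j := fun i j e => hT.inj e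
    rcases c0 with c0 | c0 <;> rcases c1 with c1 | c1 <;> rcases c2 with c2 | c2 <;>
      first
      | exact absurd (ij _ _ (c0.trans c1.symm)) (by decide)
      | exact absurd (ij _ _ (c0.trans c2.symm)) (by decide)
      | exact absurd (ij _ _ (c1.trans c2.symm)) (by decide)

end Pool.Agent.Lib.MP_d5dfc1_co.Gm
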