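import Pool.Agent.Lib.MP_d5dfc1_co.GmVS
import Pool.Agent.Lib.MP_d5dfc1_co.GmTz
import Pool.Agent.Lib.MP_d5dfc1_co.GmB3

/-! Every polyhedral map with a triangular outer face has a Schnyder wood. -/

namespace Pool.Agent.Lib.MP_d5dfc1_co.Gm

open Ex Sum

variable {V F D : Type} [Fintype D] [DecidableEq V] {M : PM V F D} {T : F} {a : Fin 3 → D}

theorem exSch (h : Base M T a) : Nonempty (Sch M T a) := by
  classical
  have : Finite V := Finite.of_surjective M.tl M.tl_surj
  have : Finite F := Finite.of_surjective M.lf M.lf_surj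
  have := Fintype.ofFinite V
  have := Fintype.ofFinite F
  letI : LinearOrder (V ⊕ F) := LinearOrder.lift' (Fintype.equivFin _) (Equiv.injective _)
  obtain ⟨L, par, s, W⟩ := exW h.tz h.st
  exact h.sch W

end Pool.Agent.Lib.MP_d5dfc1_co.Gm
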