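import Pool.Agent.Lib.MP_d5dfc1_co.GmW

/-! Extension of a wood over a vertex, or a face vertex, contracted into the root. -/

namespace Pool.Agent.Lib.MP_d5dfc1_co.Gm

open Relation Finset QP

set_option linter.unusedSectionVars false

variable {V : Type} [Fintype V] [LinearOrder V]
variable {T : V → V → V → Prop} {Z H H' : V → Prop} {a b c x p q : V}

theorem Wd.step (hT : Tri T) (o : T a b c) (hc : contr T x a) (hp : T x a p) (hq : T x q a)
    (xb : x ≠ b) (xc : x ≠ c) (za : ¬ Z a) (hb : H b) (hcc : H c)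
    (h1 : ∀ u, H u → adj T a u ∧ ¬ Z u) (zi : ∀ u, Z x → adj T x u → ¬ Z u) (hx : H x ∨ Z x)
    (zp : ¬ Z p) (zq : ¬ Z q) (zx : Z x → H p ∧ H q)
    (hH : ∀ u, H' u ↔ u ≠ x ∧ (H u ∨ (¬ Z x ∧ adj T x u ∧ ¬ Z u ∧ u ≠ a)))
    {L' par' s'} (W : Wd (con T x a) Z H' a b c L' par' s') :
    ∃ L par s, Wd T Z H a b c L par s := by
  classical
  have ab := hT.ne o
  have bc := hT.ne2 o
  have ca := hT.ne3 o
  have xa := hT.ne hp
  have ap := hT.ne2 hp
  have px := hT.ne3 hp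
  have xq := hT.ne hq
  have qa := hT.ne2 hq
  have zc := (h1 c hcc).2
  have pq : p ≠ q := by rintro rfl; exact hT.asym hp hq
  have pb : p ≠ b := by rintro rfl; exact xc (hT.uniq (hT.rot hp) o)
  have qc : q ≠ c := by rintro rfl; exact xb (hT.uniq2 (hT.rot2 hq) o)
  have com : ∀ w, adj T x w → adj T a w → w = p ∨ w = q := fun w h1 h2 =>
    (hc.2 w h1 h2).imp (fun k => hT.uniq k hp) fun k => hT.uniq2 k hq
  have xp' : adj T x p := hT.adj13 hp
  have xq' : adj T x q := ⟨_, hq⟩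
  have Hp : H' p := (hH p).2 ⟨px, by
    by_cases k : Z x
    exacts [Or.inl (zx k).1, Or.inr ⟨k, xp', zp, ap.symm⟩]⟩
  have Hq : H' q := (hH q).2 ⟨xq.symm, by
    by_cases k : Z x
    exacts [Or.inl (zx k).2, Or.inr ⟨k, xq', zq, qa⟩]⟩
  have HH : ∀ u, u ≠ x → H u → H' u := fun u n k => (hH u).2 ⟨n, Or.inl k⟩
  have II : ∀ {u}, In T Z a b c u → u ≠ x → In (con T x a) Z a b c u := fun i n =>
    ⟨(hT.con_vtx hc.1).2 ⟨i.v, n⟩, i.z, i.a, i.b, i.c⟩
  have II' : ∀ {u}, In (con T x a) Z a b c u → In T Z a b c u ∧ u ≠ x := fun i =>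
    ⟨⟨((hT.con_vtx hc.1).1 i.v).1, i.z, i.a, i.b, i.c⟩, ((hT.con_vtx hc.1).1 i.v).2⟩
  have fb : ∀ v w, T x v w → w ≠ a → v ≠ b ∧ v ≠ q := fun v w t n => by
    have k : v ≠ q := by rintro rfl; exact n (hT.uniq t hq)
    refine ⟨?_, k⟩
    rintro rfl
    exact (com v ⟨_, t⟩ ⟨_, o⟩).elim pb.symm k
  have fc : ∀ v w, T x v w → v ≠ a → w ≠ c ∧ w ≠ p := fun v w t n => by
    have k : w ≠ p := by rintro rfl; exact n (hT.uniq2 t hp)
    refine ⟨?_, k⟩
    rintro rfl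
    exact (com w (hT.adj13 t) (hT.adj13 o)).elim k qc.symm
  have nq : ∀ v, adj T x v → v ≠ q → ∃ w, T x v w ∧ w ≠ a := fun v ⟨w, t⟩ n =>
    ⟨w, t, by rintro rfl; exact n (hT.uniq2 t hq)⟩
  have np : ∀ v, adj T x v → v ≠ p → ∃ w, T x w v ∧ w ≠ a := fun v h n => by
    obtain ⟨w, t⟩ := hT.pred h
    exact ⟨w, t, by rintro rfl; exact n (hT.uniq t hp)⟩
  have fan : ∀ v w, T x v w → v ≠ a → w ≠ a → _ := fun v w t n1 n2 =>
    W.cm v w (hT.con_v t n1 n2) (fb v w t n2).1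
  have arc := fun v (h : adj T x v) (n : v ≠ a) =>
    hT.arc hp hq (R := fun y z => T x y z ∧ y ≠ a ∧ z ≠ a) (fun y z t n1 n2 => ⟨t, n1, n2⟩) h n
  have mono : ∀ {y z}, ReflTransGen (fun y z => T x y z ∧ y ≠ a ∧ z ≠ a) y z →
      s' 1 y ≤ s' 1 z ∧ s' 2 z ≤ s' 2 y := fun {y z} h => by
    induction h with
    | refl => exact ⟨le_rfl, le_rfl⟩
    | tail _ s ih =>
      have := fan _ _ s.1 s.2.1 s.2.2
      exact ⟨ih.1.trans this.2.1, this.1.trans ih.2⟩
  obtain ⟨c0, h0, h0'⟩ : ∃ c0, (∀ v, v ≠ a → s' 0 v < c0) ∧ c0 < s' 0 a := by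
    obtain ⟨c0, k1, k2⟩ := Set.Finite.exists_between'
      ((Set.toFinite {v | v ≠ a}).image (s' 0)) (Set.finite_singleton (s' 0 a)) (by
        rintro _ ⟨v, n, rfl⟩ _ rfl
        exact W.top v n)
    exact ⟨c0, fun v n => k1 _ ⟨v, n, rfl⟩, k2 _ rfl⟩
  obtain ⟨c1, a1, a2, a3, a4⟩ := ex_gap (f := s' 1) (p := p)
    (B := {v | adj T x v ∧ v ≠ a ∧ v ≠ p}) (fun v ⟨h, n, m⟩ => by
      rcases (arc v h n).1.cases_head with k | ⟨w, s, k⟩
      · exact absurd k m.symm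
      · exact ((fan _ _ s.1 s.2.1 s.2.2).2.2.2 (Or.inl Hp)).trans_le (mono k).1) (H p)
  obtain ⟨c2, b1, b2, b3, b4⟩ := ex_gap (f := s' 2) (p := q)
    (B := {v | adj T x v ∧ v ≠ a ∧ v ≠ q}) (fun v ⟨h, n, m⟩ => by
      rcases (arc v h n).2.cases_tail with k | ⟨w, k, s⟩
      · exact absurd k m.symm
      · exact ((fan _ _ s.1 s.2.1 s.2.2).2.2.1 (Or.inl Hq)).trans_le (mono k).2) (H q)
  have a5 := a4 q ⟨xq', qa, pq.symm⟩
  have b5 := b4 p ⟨xp', ap.symm, pq⟩
  obtain ⟨z1, t1, z1a⟩ := nq p xp' pq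
  obtain ⟨z2, t2, z2a⟩ := np q xq' pq.symm
  -- new data
  obtain ⟨L, Lxa, Lxq, Lx, Lax, Lp2, Lp1, Lq1, Lq2, Lux, Lo⟩ : ∃ L : V → V → Fin 3, L x a = 1 ∧
      L x q = 2 ∧ (∀ v, v ≠ a → v ≠ q → L x v = 0) ∧ L a x = 0 ∧ (H p → L p x = 2) ∧
      (¬ H p → L p x = 1) ∧ (H q → L q a = 1) ∧ (¬ H q → L q a = 2) ∧
      (∀ u, u ≠ x → u ≠ a → u ≠ p → L u x = L' u a) ∧
      ∀ u v, u ≠ x → v ≠ x → ¬ (u = q ∧ v = a) → L u v = L' u v :=
    ⟨fun u v => if u = x then (if v = a then 1 else if v = q then 2 else 0) else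
      if v = x then (if u = a then 0 else if u = p then (if H p then 2 else 1) else L' u a) else
      if u = q ∧ v = a then (if H q then 1 else 2) else L' u v,
      by simp, by simp [qa], fun v n m => by simp [n, m], by simp [xa.symm],
      fun k => by simp [px, ap.symm, k], fun k => by simp [px, ap.symm, k],
      fun k => by simp [xq.symm, xa.symm, k], fun k => by simp [xq.symm, xa.symm, k],
      fun u n m k => by simp [n, m, k], fun u v n m k => by simp only [if_neg n, if_neg m, if_neg k]⟩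
  obtain ⟨s, s0, s1, s2, so⟩ : ∃ s : Fin 3 → V → ℝ, s 0 x = c0 ∧ s 1 x = c1 ∧ s 2 x = c2 ∧
      ∀ i u, u ≠ x → s i u = s' i u :=
    ⟨fun i u => if u = x then ![c0, c1, c2] i else s' i u, by simp, by simp, by simp,
      fun i u n => by simp [n]⟩
  obtain ⟨par, p0, p1, p2, px1, px2⟩ : ∃ par : Fin 3 → V → V, par 0 x = a ∧ par 1 x = q ∧
      par 2 x = p ∧ (∀ i w, w ≠ x → par' i w = a → ¬ H w → par i w = x) ∧
      ∀ i w, w ≠ x → (par' i w = a → H w) → par i w = par' i w :=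
    ⟨fun i w => if w = x then ![a, q, p] i else if par' i w = a ∧ ¬ H w then x else par' i w,
      by simp, by simp, by simp, fun i w n m k => by simp [n, m, k], fun i w n m => by
        simp only [if_neg n]; exact if_neg fun k => k.2 (m k.1)⟩
  have i3 : ∀ i : Fin 3, i = 0 ∨ i = 1 ∨ i = 2 := by decide
  have Lap : L a p = 0 := by
    rw [Lo _ _ xa.symm px fun k => qa k.1.symm]
    exact W.la p ⟨_, hT.con_v t1 ap.symm z1a⟩ pb
  have Lg : ∀ u v w, T u v w → pr x a u ≠ pr x a v → pr x a v ≠ pr x a w → pr x a w ≠ pr x a u →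
      L u v = L' (pr x a u) (pr x a v) := fun u v w t n1 n2 n3 => by
    by_cases e : u = x
    · subst e
      rw [pr_v] at n1 n3 ⊢
      have m1 : v ≠ a := by rintro rfl; exact n1 pr_a.symm
      have m2 : w ≠ a := by rintro rfl; exact n3 pr_a
      rw [pr_ne (hT.ne t).symm, Lx v m1 (fb v w t m2).2]
      exact (W.la v ⟨_, hT.con_v t m1 m2⟩ (fb v w t m2).1).symm
    rw [pr_ne e] at n1 ⊢
    by_cases f : v = x
    · subst f
      rw [pr_v] at n1 n2 ⊢
      refine Lux u e n1 ?_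
      rintro rfl
      exact n2 (by rw [hT.uniq t (hT.rot2 hp), pr_a])
    rw [pr_ne f] at n2 ⊢
    refine Lo u v e f ?_
    rintro ⟨rfl, rfl⟩
    exact n2 (by rw [hT.uniq t (hT.rot hq), pr_v])
  have cT : ∀ w y z, T w y z → w ≠ x → w ≠ a → pr x a y ≠ pr x a z →
      con T x a w (pr x a y) (pr x a z) ∧ L w y = L' w (pr x a y) := fun w y z t n1 n2 n3 => by
    have m1 : pr x a w ≠ pr x a y := by
      rw [pr_ne n1]; exact fun e => hT.ne t (pr_eq_ne e.symm n2).symm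
    have m2 : pr x a z ≠ pr x a w := by rw [pr_ne n1]; exact fun e => hT.ne3 t (pr_eq_ne e n2)
    have k1 := con_of (v := x) (a := a) t m1 n3 m2
    have k2 := Lg _ _ _ t m1 n3 m2
    rw [pr_ne n1] at k1 k2
    exact ⟨k1, k2⟩
  -- a corner just before `a` or `x`
  have bef : ∀ u y w, T u y w → u ≠ x → u ≠ a → y ≠ x → y ≠ a → w = x ∨ w = a →
      con T x a u y a ∧ L u y = L' u y := fun u y w t n1 n2 n3 n4 e => by
    have : pr x a w = a := by rcases e with rfl | rfl; exacts [pr_v, pr_a]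
    have k := cT u y w t n1 n2 (by rwa [this, pr_ne n3])
    rwa [this, pr_ne n3] at k
  have bef2 : ∀ u y w, T u y w → u ≠ x → u ≠ a → y ≠ x → y ≠ a → w = x ∨ w = a → H' u → ¬ Z u →
      u ≠ b → L u y = 2 := fun u y w t n1 n2 n3 n4 e k z m => by
    obtain ⟨k1, k2⟩ := bef u y w t n1 n2 n3 n4 e
    rw [k2, W.lr k1 k z n2 m n4]
  have cadj : ∀ u v, adj T u v → u ≠ x → u ≠ a → adj (con T x a) u (pr x a v) :=
    fun u v h n1 n2 => by
      have := hT.con_adj (v := x) (a := a) h (by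
        rw [pr_ne n1]; exact fun e => hT.adj_ne h (pr_eq_ne e.symm n2).symm)
      rwa [pr_ne n1] at this
  have cadj' : ∀ u, adj T a u → u ≠ x → adj (con T x a) a u := fun u h n => by
    have := hT.con_adj (v := x) (a := a) h (by rw [pr_a, pr_ne n]; exact hT.adj_ne h)
    rwa [pr_a, pr_ne n] at this
  have Lq : L' q a = 1 := W.ll (by
    simpa only [pr_a] using cadj q a (hT.adj23 hq) xq.symm qa) Hq zq qa qc ca
  have Lqx : L q x = 1 := by rw [Lux q xq.symm qa pq.symm, Lq]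
  have Lpa : p ≠ c → L p a = 1 := fun n => by
    rw [Lo _ _ px xa.symm fun k => pq k.1]
    exact W.ll (by simpa only [pr_v] using cadj p x (hT.symm xp') px ap.symm) Hp zp ap.symm n ca
  have cas : ∀ i u, In T Z a b c u → u ≠ x →
      (par i u = par' i u ∧ par' i u ≠ a ∧ par' i u ≠ x ∧ adj T u (par' i u)) ∨
      (i = 0 ∧ H' u ∧ H u ∧ par i u = a ∧ par' i u = a) ∨
      (i = 0 ∧ H' u ∧ ¬ H u ∧ par i u = x ∧ ¬ Z x ∧ adj T x u) := fun i u h n => by
    obtain ⟨k1, -, k3⟩ := W.oa i u (II h n)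
    by_cases e : par' i u = a
    · have k4 := k3 e
      have k5 := (W.ol i u (II h n)).1
      rw [e, W.l1 (II h n) k4] at k5
      have k6 : i = 0 := by revert k5; clear * -; revert i; decide
      by_cases g : H u
      · exact Or.inr (Or.inl ⟨k6, k4, g, (px2 i u n fun _ => g).trans e, e⟩)
      · have := ((hH u).1 k4).2.resolve_left g
        exact Or.inr (Or.inr ⟨k6, k4, g, px1 i u n e g, this.1, this.2.1⟩)
    · obtain ⟨-, w0, y0, k, e1, e2⟩ := Tri.con_lift k1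
      obtain rfl := pr_eq_ne e1 h.a
      exact Or.inl ⟨px2 i _ n fun k => absurd k e, e, e2 ▸ pr_ne_v xa _, pr_eq_ne e2 e ▸ k⟩
  have P0 : ∀ u, In T Z a b c u → u ≠ x → H' u → (H u → par 0 u = a) ∧ (¬ H u → par 0 u = x) :=
    fun u h n k => ⟨fun g => (px2 0 u n fun _ => g).trans (W.h0 u (II h n) k),
      px1 0 u n (W.h0 u (II h n) k)⟩
  -- fan of a face vertex
  have zf : Z x → ∀ u v, T x u v → u ≠ a → v ≠ a → (u ≠ p → L' u v = L' u a) ∧ L' u v ≠ 0 ∧
      L' v a ≠ 0 ∧ (L' v a = L' u v ∨ L' v a = L' u v + 2) := fun zx' u v t n1 n2 => by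
    have mid : ∀ w, adj T x w → w ≠ a → w ≠ p → w ≠ q → ¬ H' w ∧ L' w a ≠ 0 :=
      fun w h m1 m2 m3 => by
        have na : ¬ adj T a w := fun k => (com w h k).elim m2 m3
        have nh : ¬ H' w := fun k => ((hH w).1 k).2.elim (fun g => na (h1 w g).1) fun g => g.1 zx'
        have wx := (hT.adj_ne h).symm
        refine ⟨nh, W.ct w (II ⟨hT.vtxr h, zi w zx' h, m1, ?_, ?_⟩ wx) ?_ nh⟩
        · rintro rfl; exact na ⟨_, o⟩
        · rintro rfl; exact na (hT.adj13 o)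
        · obtain ⟨y, t, m⟩ := nq w h m3
          exact ⟨_, hT.con_v t m1 m⟩
    have t' := hT.con_rot (hT.con_v t n1 n2)
    have zu := zi u zx' ⟨_, t⟩
    have k1 : u ≠ p → L' u v = L' u a := fun m =>
      W.vi u a v t' n1 zu (Or.inr ⟨rfl, (mid u ⟨_, t⟩ n1 m (fb u v t n2).2).1⟩)
    refine ⟨k1, ?_, ?_, W.nx u v a t' zu (zi v zx' (hT.adj13 t)) (fun k => absurd k n1)
      (fun k => absurd k n2) (fun k => n1 k.1) (fun k => (fb u v t n2).1 k.1) fun k => n2 k.2⟩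
    · by_cases e : u = p
      · subst e; rw [W.lr t' Hp zp n1 pb n2]; decide
      · rw [k1 e]; exact (mid u ⟨_, t⟩ n1 e (fb u v t n2).2).2
    · by_cases e : v = q
      · rw [e, Lq]; decide
      · exact (mid v (hT.adj13 t) n2 (fc u v t n1).2 e).2
  have good : ∀ z u v, Z z → z ≠ x → T z u v → con T x a z (pr x a u) (pr x a v) ∧
      L u v = L' (pr x a u) (pr x a v) ∧ L v z = L' (pr x a v) z := fun z u v k n t => by
    rcases contr_cases hT hp hq t with ⟨g1, g2, g3⟩ | g | g | g | g | g | g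
    · have e1 := con_of t g1 g2 g3
      have e2 := Lg _ _ _ (hT.rot2 t) g3 g1 g2
      rw [pr_ne n] at e1 e2
      exact ⟨e1, Lg _ _ _ (hT.rot t) g2 g3 g1, e2⟩
    all_goals first | exact absurd g.1 n | exact absurd (g.1 ▸ k) ‹_›
  refine ⟨L, par, s, fun y h n => ?_, fun y h n => ?_, fun y h n => ?_, fun u w w' t n z k => ?_,
    fun i u h => ?_, fun i u h => ?_, fun u y y' h t => ?_, fun u h k => ?_,
    fun u v w t z1 z2 k1 k2 n1 n2 n3 => ?_, fun u h k g => ?_, ?_, fun z k hv m => ?_,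
    fun z u v u' v' k t t' e n n' => ?_, fun i u h => ?_, fun i j u h n => ?_, fun u v t n => ?_,
    fun u n => ?_, fun u => ?_⟩
  · by_cases e : y = x
    · rw [e, Lax]
    · rw [Lo _ _ xa.symm e fun k => qa k.1.symm, W.la y (cadj' y h e) n]
  · have k := W.lb _ (cadj _ _ h xb.symm ab.symm) fun e => n (pr_eq_ne e ca)
    by_cases e : y = x
    · rw [e, pr_v] at k; rw [e, Lux b xb.symm ab.symm pb.symm, k]
    by_cases f : b = q ∧ y = a
    · rw [f.1, f.2, Lq1 (f.1 ▸ hb)]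
    · rw [pr_ne e] at k; rw [Lo _ _ xb.symm e f, k]
  · by_cases e : y = x
    · subst e
      obtain rfl := (com c (hT.symm h) (hT.adj13 o)).resolve_right qc.symm
      exact Lp2 hcc
    · have k := cadj _ _ h xc.symm ca
      rw [pr_ne e] at k
      rw [Lo _ _ xc.symm e fun k => n k.2, W.lc _ k n]
  · -- vi
    by_cases e : u = x
    · subst e
      have zw : Z w := k.resolve_right fun k => k.2 (hx.resolve_right z)
      have wa : w ≠ a := fun e => za (e ▸ zw)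
      rw [Lx w wa fun e => zq (e ▸ zw), Lx w' (by rintro rfl; exact zp (hT.uniq t hp ▸ zw))
        (fb _ _ t wa).2]
    rcases k with k | ⟨rfl, k⟩
    · have wa : w ≠ a := fun e => za (e ▸ k)
      by_cases f : w = x
      · subst f
        by_cases g : w' = a
        · subst g
          obtain rfl := hT.uniq2 (hT.rot2 t) hq
          rw [Lqx, Lq1 (zx k).2]
        have g' := hT.ne2 t
        by_cases j : u = p
        · subst j; rw [Lp2 (zx k).1, bef2 _ _ _ t e n g' g (Or.inl rfl) Hp z pb]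
        obtain ⟨k1, -⟩ := zf k u w' (hT.rot2 t) n g
        rw [(bef _ _ _ t e n g' g (Or.inl rfl)).2, Lux u e n j, k1 j]
      · obtain ⟨k1, k2⟩ := cT u w' w t e n (by
          rw [pr_ne f]; exact fun j => hT.ne2 t (pr_eq_ne j wa))
        rw [pr_ne f] at k1
        rw [k2, Lo _ _ e f fun j => wa j.2, W.vi _ _ _ k1 n z (Or.inl k)]
    · by_cases g : w' = x
      · subst g
        obtain rfl := hT.uniq (hT.rot t) hp
        rw [Lp1 k, Lpa fun j => k (j ▸ hcc)]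
      have g' := hT.ne2 t
      by_cases j : u = q
      · subst j; rw [Lq2 k, bef2 _ _ _ t e n g g' (Or.inr rfl) Hq z fun j => k (j ▸ hb)]
      obtain ⟨k1, k2⟩ := bef _ _ _ t e n g g' (Or.inr rfl)
      rw [k2, Lo _ _ e xa.symm fun i => j i.1]
      refine W.vi _ _ _ k1 n z (Or.inr ⟨rfl, fun i => ?_⟩)
      rcases com u (((hH u).1 i).2.resolve_left k).2.1 ⟨_, hT.rot2 t⟩ with rfl | i
      exacts [g (hT.uniq2 t (hT.rot2 hp)), j i]
  · -- oa
    by_cases e : u = x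
    · subst e
      obtain rfl | rfl | rfl := i3 i
      · rw [p0]; exact ⟨hc.1, za, fun _ => hx.resolve_right h.z⟩
      · rw [p1]; exact ⟨xq', zq, fun k => absurd k qa⟩
      · rw [p2]; exact ⟨xp', zp, fun k => absurd k ap.symm⟩
    rcases cas i u h e with ⟨k1, k2, -, k4⟩ | ⟨-, -, k1, k2, -⟩ | ⟨-, -, -, k1, k2, k3⟩
    · rw [k1]; exact ⟨k4, (W.oa i u (II h e)).2.1, fun k => absurd k k2⟩
    · rw [k2]; exact ⟨hT.symm (h1 u k1).1, za, fun _ => k1⟩
    · rw [k1]; exact ⟨hT.symm k3, k2, fun k => absurd k xa⟩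
  · -- ol
    by_cases e : u = x
    · subst e
      obtain rfl | rfl | rfl := i3 i
      · rw [p0]; exact ⟨Lxa, fun y t => hT.uniq2 t hq ▸ Lxq⟩
      · rw [p1]
        exact ⟨Lxq, fun y t => Lx y (by rintro rfl; exact pq (hT.uniq hp t)) (hT.ne2 t)⟩
      · rw [p2]; exact ⟨Lx p ap.symm pq, fun y t => hT.uniq2 t hp ▸ Lxa⟩
    obtain ⟨o1, o2⟩ := W.ol i u (II h e)
    rcases cas i u h e with ⟨k1, k2, k3, -⟩ | ⟨rfl, k0, k1, k2, -⟩ | ⟨rfl, k0, k1, k2, -⟩
    · rw [k1]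
      refine ⟨by rw [Lo _ _ e k3 fun j => k2 j.2, o1], fun y t => ?_⟩
      obtain ⟨j1, j2⟩ := cT _ _ _ t e h.a (by
        rw [pr_ne k3]; exact fun j => hT.ne2 t (pr_eq_ne j k2))
      rw [pr_ne k3] at j1
      rw [j2, o2 _ j1]
    · rw [k2]
      constructor
      · by_cases j : u = q
        · subst j; exact Lq1 k1
        · rw [Lo _ _ e xa.symm fun i => j i.1]; exact W.l1 (II h e) k0
      · intro y t
        by_cases g : y = x
        · subst g
          obtain rfl := hT.uniq (hT.rot t) hp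
          exact Lp2 k1
        · exact bef2 _ _ _ t e h.a g (hT.ne2 t) (Or.inr rfl) k0 h.z h.b
    · rw [k2]
      constructor
      · by_cases j : u = p
        · subst j; exact Lp1 k1
        · rw [Lux _ e h.a j]; exact W.l1 (II h e) k0
      · intro y t
        by_cases g : y = a
        · subst g
          obtain rfl := hT.uniq2 (hT.rot2 t) hq
          exact Lq2 k1
        · exact bef2 _ _ _ t e h.a (hT.ne2 t) g (Or.inl rfl) k0 h.z h.b
  · -- sg
    by_cases e : u = x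
    · subst e
      by_cases e0 : y = a
      · right; rw [e0, Lxa]; exact p0.symm
      by_cases e1 : y = q
      · right; rw [e1, Lxq]; exact p1.symm
      rw [Lx y e0 e1]
      by_cases e2 : y = p
      · right; rw [e2]; exact p2.symm
      · exact Or.inl (Lx y' (by rintro rfl; exact e2 (hT.uniq t hp)) (fb _ _ t e0).2)
    by_cases m1 : u = p ∧ y = a
    · obtain ⟨rfl, rfl⟩ := m1
      rw [hT.uniq2 t (hT.rot2 hp), Lpa h.c]
      by_cases g : H u
      exacts [Or.inr ((P0 u h e Hp).1 g).symm, Or.inl (Lp1 g)]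
    by_cases m2 : u = q ∧ y = x
    · obtain ⟨rfl, rfl⟩ := m2
      rw [hT.uniq2 t (hT.rot hq), Lqx]
      by_cases g : H u
      exacts [Or.inl (Lq1 g), Or.inr ((P0 u h e Hq).2 g).symm]
    have m : pr x a y' ≠ pr x a y := fun m => by
      rcases pr_eq m with k | ⟨rfl, rfl⟩ | ⟨rfl, rfl⟩
      exacts [hT.ne2 t k, m1 ⟨hT.uniq (hT.rot t) hp, rfl⟩, m2 ⟨hT.uniq2 (hT.rot2 t) hq, rfl⟩]
    obtain ⟨k1, k2⟩ := cT _ _ _ t e h.a m
    by_cases f : y = x
    · subst f
      have g : y' ≠ a := by rintro rfl; exact m (by rw [pr_a, pr_v])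
      by_cases j : u = p
      · subst j
        rw [bef2 _ _ _ t e h.a (hT.ne2 t) g (Or.inl rfl) Hp h.z h.b]
        by_cases g : H u
        · exact Or.inl (Lp2 g).symm
        · right; rw [Lp1 g]; exact ((P0 u h e Hp).2 g).symm
      rw [pr_v] at k1
      rw [k2, Lux u e h.a j]
      refine (W.sg _ _ _ (II h e) k1).imp id fun k => (px1 _ _ e k.symm fun i => ?_).symm
      exact (com u ⟨_, hT.rot2 t⟩ (h1 u i).1).elim j fun i => m2 ⟨i, rfl⟩
    rw [pr_ne f] at k1 m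
    by_cases j : u = q ∧ y = a
    · obtain ⟨rfl, rfl⟩ := j
      rw [bef2 _ _ _ t e h.a (by rintro rfl; exact m pr_v) (hT.ne2 t) (Or.inr rfl) Hq h.z h.b]
      by_cases g : H u
      · right; rw [Lq1 g]; exact ((P0 u h e Hq).1 g).symm
      · exact Or.inl (Lq2 g).symm
    rw [k2, Lo _ _ e f j]
    refine (W.sg _ _ _ (II h e) k1).imp id fun k => k.trans (px2 _ _ e fun i => ?_).symm
    obtain rfl := k.trans i
    refine ((hH u).1 ((W.oa _ u (II h e)).2.2 i)).2.resolve_right fun i => ?_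
    exact (com u i.2.1 ⟨_, hT.rot2 t⟩).elim (fun i => m1 ⟨i, rfl⟩) fun i => j ⟨i, rfl⟩
  · by_cases e : u = x
    exacts [e ▸ p0, (P0 u h e (HH u e k)).1 k]
  · -- nx
    rcases contr_cases hT hp hq t with ⟨g1, g2, g3⟩ | ⟨rfl, rfl, rfl⟩ | ⟨rfl, rfl, rfl⟩ |
      ⟨rfl, rfl, rfl⟩ | ⟨rfl, rfl, rfl⟩ | ⟨rfl, rfl, rfl⟩ | ⟨rfl, rfl, rfl⟩
    · rw [Lg _ _ _ t g1 g2 g3, Lg _ _ _ (hT.rot t) g2 g3 g1]
      have zz : ∀ u, ¬ Z u → ¬ Z (pr x a u) := fun u z => by
        by_cases e : u = x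
        · rwa [e, pr_v]
        · rwa [pr_ne e]
      have hh : ∀ u v, adj T u v → ¬ Z u → ¬ Z v → (u = a → H v) → pr x a u ≠ pr x a v →
          pr x a u = a → H' (pr x a v) := fun u v h z1 z2 k g e => by
        have m1 : v ≠ x := by rintro rfl; exact g (e.trans pr_v.symm)
        rw [pr_ne m1] at g ⊢
        rcases pr_eq_a e with rfl | rfl
        exacts [(hH v).2 ⟨m1, Or.inr ⟨z1, h, z2, (e ▸ g).symm⟩⟩, HH v m1 (k rfl)]
      refine W.nx _ _ _ (con_of t g1 g2 g3) (zz u z1) (zz v z2) (hh u v ⟨_, t⟩ z1 z2 k1 g1)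
        (hh v u (hT.opp t) z2 z1 k2 g1.symm) (fun ⟨j1, j2⟩ => ?_)
        (fun ⟨j1, j2⟩ => n2 ⟨pr_eq_ne j1 ab.symm, pr_eq_ne j2 ca⟩) fun ⟨j1, j2⟩ => ?_
      · obtain rfl := pr_eq_ne j2 ab.symm
        obtain rfl := (pr_eq_a j1).resolve_right fun j => n1 ⟨j, rfl⟩
        exact (fb _ _ t (by rintro rfl; exact g3 (by rw [pr_a, pr_v]))).1 rfl
      · obtain rfl := pr_eq_ne j1 ca
        obtain rfl := (pr_eq_a j2).resolve_right fun j => n3 ⟨rfl, j⟩
        exact (fc _ _ (hT.rot t) (by rintro rfl; exact g2 (by rw [pr_a, pr_v]))).1 rfl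
    · rw [Lap, Lp2 (k1 rfl)]; decide
    · rw [Lxa]
      by_cases g : H u
      · rw [Lp2 g]; decide
      · rw [Lp1 g]; decide
    · rw [Lap, Lxa]; decide
    · rw [Lxq, Lax]; decide
    · rw [Lxq]
      by_cases g : H v
      · rw [Lq1 g]; decide
      · rw [Lq2 g]; decide
    · rw [Lax, Lq1 (k2 rfl)]; decide
  · -- ct
    have e : u ≠ x := by rintro rfl; exact g (hx.resolve_right h.z)
    by_cases j : u = q
    · subst j; rw [Lq2 g]; decide
    rw [Lo _ _ e xa.symm fun i => j i.1]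
    by_cases f : H' u
    · rw [W.l1 (II h e) f]; decide
    · exact W.ct u (II h e) (cadj' u k e) f
  · -- ed
    have key : ∀ v, adj T x v → ¬ Z x → ¬ Z v → (In T Z a b c x ∧ ∃ i, v = par i x) ∨
        (In T Z a b c v ∧ ∃ i, x = par i v) := fun v h z1 z2 => by
      have ix : In T Z a b c x := ⟨⟨_, h⟩, z1, xa, xb, xc⟩
      by_cases e0 : v = a
      · exact Or.inl ⟨ix, 0, e0.trans p0.symm⟩
      by_cases e1 : v = q
      · exact Or.inl ⟨ix, 1, e1.trans p1.symm⟩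
      by_cases e2 : v = p
      · exact Or.inl ⟨ix, 2, e2.trans p2.symm⟩
      have na : ¬ adj T a v := fun k => (com v h k).elim e2 e1
      have iv : In T Z a b c v := ⟨hT.vtxr h, z2, e0, by rintro rfl; exact na ⟨_, o⟩,
        by rintro rfl; exact na (hT.adj13 o)⟩
      have vx := (hT.adj_ne h).symm
      exact Or.inr ⟨iv, 0, ((P0 v iv vx ((hH v).2 ⟨vx, Or.inr ⟨z1, h, z2, e0⟩⟩)).2
        fun k => na (h1 v k).1).symm⟩
    intro u v h z1 z2 k1 k2
    by_cases e : u = x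
    · subst e; exact (key v h z1 z2).imp id Or.inl
    by_cases f : v = x
    · subst f; exact (key u (hT.symm h) z2 z1).symm.imp id Or.inl
    have h' := hT.con_adj (v := x) (a := a) h (by rw [pr_ne e, pr_ne f]; exact hT.adj_ne h)
    rw [pr_ne e, pr_ne f] at h'
    refine (W.ed u v h' z1 z2 (fun j => HH v f (k1 j)) fun j => HH u e (k2 j)).imp
      (fun ⟨j, i, k⟩ => ⟨(II' j).1, i, k.trans (px2 _ _ e fun m => k2 (k.trans m)).symm⟩)
      (Or.imp_left fun ⟨j, i, k⟩ => ⟨(II' j).1, i, k.trans (px2 _ _ f fun m => k1 (k.trans m)).symm⟩)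
  · -- f1
    by_cases e : z = x
    · subst e
      obtain rfl | rfl | rfl := i3 m
      exacts [⟨_, _, hp, Lap⟩, ⟨_, _, hq, Lq1 (zx k).2⟩, ⟨_, _, t1, bef2 _ _ _ (hT.rot t1) px ap.symm
        (hT.ne3 t1) z1a (Or.inl rfl) Hp zp pb⟩]
    obtain ⟨u, v, ⟨-, -, -, z0, u0, v0, t, e1, rfl, rfl⟩, l⟩ :=
      W.f1 z k ((hT.con_vtx hc.1).2 ⟨hv, e⟩) m
    obtain rfl := pr_eq_ne e1 fun j => za (j ▸ k)
    exact ⟨u0, v0, t, (good _ _ _ k e t).2.1.trans l⟩
  · -- f2
    by_cases f : z = x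
    · subst f
      have cl : ∀ u v, T z u v → L v z ≠ L u v → (u = a ∧ L u v = 0) ∨ (u = q ∧ L u v = 1) ∨
          (u ≠ a ∧ v ≠ a ∧ L u v = 2 ∧ L' u v = 2 ∧ L' v a = 1) := fun u v t n => by
        by_cases e1 : u = a
        · subst e1; rw [hT.uniq t hp]; exact Or.inl ⟨rfl, Lap⟩
        by_cases e2 : v = a
        · subst e2; rw [hT.uniq2 t hq]; exact Or.inr (Or.inl ⟨rfl, Lq1 (zx k).2⟩)
        obtain ⟨-, k2, k3, k4⟩ := zf k u v t e1 e2
        rw [Lux v (hT.ne3 t) e2 (fc u v t e1).2] at n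
        rw [Lo _ _ (hT.ne t).symm (hT.ne3 t) fun j => e2 j.2] at n ⊢
        refine Or.inr (Or.inr ⟨e1, e2, ?_⟩)
        revert n k2 k3 k4
        generalize L' u v = i, L' v a = j
        clear * -; revert i j; decide
      have one : ∀ u v u' v', T z u v → T z u' v' → u ≠ a → v' ≠ a → L' v a = 1 → L' u' v' = 2 →
          ReflTransGen (fun y w => T z y w ∧ y ≠ a ∧ w ≠ a) u u' → u = u' :=
        fun u v u' v' t t' n1 n2 l1 l2 r => by
          rcases r.cases_head with j | ⟨w, s, r'⟩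
          · exact j
          obtain rfl := hT.uniq t s.1
          have : L' u' a = 1 ∧ u' ≠ p ∧ u' ≠ a := by
            clear l2 t' r
            induction r' with
            | refl => exact ⟨l1, (fc _ _ t n1).2, s.2.2⟩
            | tail _ s ih =>
              obtain ⟨k1, -, k3, k4⟩ := zf k _ _ s.1 s.2.1 s.2.2
              rw [k1 ih.2.1, ih.1] at k4
              exact ⟨k4.resolve_right k3, (fc _ _ s.1 s.2.1).2, s.2.2⟩
          rw [(zf k _ _ t' this.2.2 n2).1 this.2.1, this.1] at l2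
          exact absurd l2 (by decide)
      rcases cl u v t n with ⟨j1, j2⟩ | ⟨j1, j2⟩ | ⟨j1, j3, j2, j4, j5⟩ <;>
        rcases cl u' v' t' n' with ⟨i1, i2⟩ | ⟨i1, i2⟩ | ⟨i1, i3, i2, i4, i5⟩ <;>
        first | exact j1.trans i1.symm | exact absurd (j2.symm.trans (e.trans i2)) (by decide) | skip
      rcases ReflTransGen.total_of_right_unique (fun y w w' s s' => hT.uniq s.1 s'.1)
        (arc u ⟨_, t⟩ j1).1 (arc u' ⟨_, t'⟩ i1).1 with r | r
      exacts [one _ _ _ _ t t' j1 i3 j5 i4 r, (one _ _ _ _ t' t i1 j3 i5 j4 r).symm]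
    obtain ⟨k1, k2, k3⟩ := good _ _ _ k f t
    obtain ⟨j1, j2, j3⟩ := good _ _ _ k f t'
    rw [k3, k2] at n
    rw [j3, j2] at n'
    rw [k2, j2] at e
    rcases pr_eq (W.f2 _ _ _ _ _ k k1 j1 e n n') with j | ⟨rfl, rfl⟩ | ⟨rfl, rfl⟩
    · exact j
    · rcases com z (hT.opp t) (hT.opp t') with rfl | rfl <;> contradiction
    · rcases com z (hT.opp t') (hT.opp t) with rfl | rfl <;> contradiction
  · -- up
    by_cases e : u = x
    · subst e
      obtain rfl | rfl | rfl := i3 i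
      · rwa [p0, s0, so _ _ xa.symm]
      · rwa [p1, s1, so _ _ xq.symm]
      · rwa [p2, s2, so _ _ px]
    have k := W.up i u (II h e)
    rcases cas i u h e with ⟨k1, -, k3, -⟩ | ⟨-, -, -, k2, k3⟩ | ⟨rfl, -, -, k1, -⟩
    · rwa [k1, so _ _ e, so _ _ k3]
    · rwa [k2, so _ _ e, so _ _ xa.symm, ← k3]
    · rw [k1, so _ _ e, s0]; exact h0 u h.a
  · -- dn
    by_cases e : u = x
    · subst e
      obtain rfl | rfl | rfl := i3 i <;> obtain rfl | rfl | rfl := i3 j <;>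
        first | exact absurd rfl n | simp only [p0, p1, p2, s0, s1, s2, so _ _ xa.symm,
          so _ _ xq.symm, so _ _ px]
      exacts [(W.low p).1.trans a1, (W.low q).2.trans b1, (h0 q qa).le, b1, (h0 p ap.symm).le, a1]
    have k := W.dn i j u (II h e) n
    rcases cas i u h e with ⟨k1, -, k3, -⟩ | ⟨-, -, -, k2, k3⟩ | ⟨rfl, -, g, k1, -, k2⟩
    · rwa [k1, so _ _ e, so _ _ k3]
    · rwa [k2, so _ _ e, so _ _ xa.symm, ← k3]
    · rw [k1, so _ _ e]
      obtain rfl | rfl | rfl := i3 j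
      · exact absurd rfl n
      · rw [s1]
        by_cases f : u = p
        exacts [(f ▸ a3 (f ▸ g)).le, (a4 u ⟨k2, h.a, f⟩).le]
      · rw [s2]
        by_cases f : u = q
        exacts [(f ▸ b3 (f ▸ g)).le, (b4 u ⟨k2, h.a, f⟩).le]
  · -- cm
    by_cases e : u = x
    · subst e
      obtain rfl := hT.uniq t (hT.rot2 hq)
      rw [s1, s2, so _ _ xq.symm, so _ _ xq.symm]
      exact ⟨b1, a5.le, fun k => b2 (k.resolve_right zq), fun _ => a5⟩
    by_cases f : v = x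
    · subst f
      obtain rfl := hT.uniq2 t (hT.rot hp)
      rw [s1, s2, so _ _ px, so _ _ px]
      exact ⟨b5.le, a1, fun _ => b5, fun k => a2 (k.resolve_right zp)⟩
    obtain ⟨k1, k2, k3, k4⟩ := W.cm u v (hT.con_id t xa.symm e f) n
    rw [so _ _ e, so _ _ e, so _ _ f, so _ _ f]
    exact ⟨k1, k2, fun k => k3 (k.imp_left (HH v f)), fun k => k4 (k.imp_left (HH u e))⟩
  · rw [so _ _ xa.symm]
    by_cases e : u = x
    · rwa [e, s0]
    · rw [so _ _ e]; exact W.top u n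
  · rw [so _ _ xa.symm, so _ _ xa.symm]
    by_cases e : u = x
    · rw [e, s1, s2]; exact ⟨(W.low p).1.trans a1, (W.low q).2.trans b1⟩
    · rw [so _ _ e, so _ _ e]; exact W.low u

end Pool.Agent.Lib.MP_d5dfc1_co.Gm
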