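import Pool.Agent.Lib.MP_d5dfc1_co.GmS
import Pool.Agent.Lib.MP_d5dfc1_co.GmV

/-! Existence of a wood. -/

namespace Pool.Agent.Lib.MP_d5dfc1_co.Gm

open Relation Finset QP

set_option linter.unusedSectionVars false

variable {V : Type} [Fintype V] [LinearOrder V]
variable {T : V → V → V → Prop} {Z H H' : V → Prop} {a b c x w : V}

/-- a closed curve through `v` separates its neighbours -/
lemma sepP (hT : Tri T) {v : V} {y : ℕ → V} {d : ℕ} (C : Cyc T v y d) {i k j l : ℕ}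
    (h1 : i < k) (h2 : k < j) (h3 : j < l) (h4 : l < i + d) (h : adj T w (y j))
    (hw : w = y i ∨ (adj T (y i) w ∧ ¬ adj T v w ∧ w ≠ v)) :
    ¬ ReflTransGen (fun u u' => adj T u u' ∧ u' ≠ v ∧ u' ≠ y i ∧ u' ≠ w ∧ u' ≠ y j)
      (y k) (y l) := by
  have ad : ∀ m, adj T v (y m) := fun m => ⟨_, C.st m⟩
  have nv : ∀ m, y m ≠ v := fun m => (hT.adj_ne (ad m)).symm
  have wv : w ≠ v := hw.elim (fun e => e ▸ nv i) fun e => e.2.2
  have nw : ∀ m, y m ≠ y i → y m ≠ w := fun m n e =>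
    hw.elim (fun k => n (e.trans k)) fun k => k.2.1 (e ▸ ad m)
  have m0 : ed (y i) w ∈ C1 (adj T) := by
    rcases hw with rfl | k
    · have : ed (y i) (y i) = 0 := by ext p q; exact F2_add_self _
      rw [this]; exact zero_mem _
    · exact hT.ed_mem k.1
  obtain ⟨R, hR, e⟩ := hT.jordan (c := ed v (y i) + ed (y i) w + ed w (y j) + ed (y j) v)
    (add_mem (add_mem (add_mem (hT.ed_mem (ad i)) m0) (hT.ed_mem h))
      (hT.ed_mem (hT.symm (ad j)))) (by
      rw [map_add, map_add, map_add, bd1_ed, bd1_ed, bd1_ed, bd1_ed]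
      ext x
      simp only [Pi.add_apply, Pi.zero_apply]
      generalize (Pi.single v 1 : V → F2) x = a
      generalize (Pi.single (y i) 1 : V → F2) x = b
      generalize (Pi.single (y j) 1 : V → F2) x = c
      generalize (Pi.single w 1 : V → F2) x = e
      revert a b c e; decide)
  have e' : ∀ x x', R x x' + R x' x =
      ed v (y i) x x' + ed (y i) w x x' + ed w (y j) x x' + ed (y j) v x x' :=
    fun x x' => congrFun (congrFun e x) x'
  have B : ∀ x, x ≠ v → x ≠ y i → x ≠ w → x ≠ y j → ∀ p, R x p = R p x := fun x n1 n2 n3 n4 p =>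
    F2_add_eq_zero.1 (by rw [e']; simp [ed, n1, n2, n3, n4])
  have A : ∀ x, x ≠ v → x ≠ y i → x ≠ w → x ≠ y j → ∀ p q, adj T x p → adj T x q →
      R x p = R x q := by
    intro x n1 n2 n3 n4 p q hp hq
    have := hT.link hp hq
    clear hq
    induction this with
    | refl => rfl
    | tail _ t ih => rw [ih, hR.1 _ _ _ t, hR.1 _ _ _ (hT.rot t), ← B x n1 n2 n3 n4]
  have B' : ∀ m, y m ≠ y i → y m ≠ y j → R (y m) v = R v (y m) := fun m n n' =>
    B _ (nv m) n (nw m n) n' v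
  have stp : ∀ m, R (y (m + 1)) v = R v (y m) := fun m => hR.1 _ _ _ (hT.rot2 (C.st m))
  have s1 : ∀ m, i ≤ m → m < j → R v (y m) = R v (y i) := by
    intro m a b
    induction m, a using Nat.le_induction with
    | base => rfl
    | succ m a ih =>
      rw [← B' _ (C.inj _ _ (by omega) (by omega)).symm (C.inj _ _ (by omega) (by omega)),
        stp, ih (by omega)]
  have s2 : ∀ m, j ≤ m → m < i + d → R v (y m) = R v (y j) := by
    intro m a b
    induction m, a using Nat.le_induction with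
    | base => rfl
    | succ m a ih =>
      rw [← B' _ (C.inj _ _ (by omega) (by omega)).symm
        (C.inj _ _ (by omega) (by omega)).symm, stp, ih (by omega)]
  have s3 : R v (y j) ≠ R v (y i) := by
    obtain ⟨m, rfl⟩ : ∃ m, j = m + 1 := ⟨j - 1, by omega⟩
    have := e' v (y (m + 1))
    have n := C.inj i (m + 1) (by omega) (by omega)
    rw [stp, s1 m (by omega) (by omega)] at this
    intro k
    rw [k, F2_add_self] at this
    simp [ed, n.symm, (nv _).symm, wv.symm] at this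
  have k1 := (C.inj i k h1 (by omega)).symm
  have k2 := C.inj k j h2 (by omega)
  have l1 := (C.inj i l (by omega) h4).symm
  have l2 := (C.inj j l h3 (by omega)).symm
  intro r
  have inv : ∀ u, ReflTransGen (fun u u' => adj T u u' ∧ u' ≠ v ∧ u' ≠ y i ∧ u' ≠ w ∧ u' ≠ y j)
      (y k) u → (u ≠ v ∧ u ≠ y i ∧ u ≠ w ∧ u ≠ y j) ∧ ∀ p, adj T u p → R u p = R (y k) v := by
    intro u r
    induction r with
    | refl => exact ⟨⟨nv k, k1, nw k k1, k2⟩, fun p h => A _ (nv k) k1 (nw k k1) k2 _ _ h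
        (hT.symm (ad k))⟩
    | tail _ s ih =>
      obtain ⟨s0, n1, n2, n3, n4⟩ := s
      exact ⟨⟨n1, n2, n3, n4⟩, fun p h => by
        rw [A _ n1 n2 n3 n4 _ _ h (hT.symm s0), B _ n1 n2 n3 n4, ih.2 _ s0]⟩
  have := (inv _ r).2 v (hT.symm (ad l))
  rw [B' _ k1 k2, B' _ l1 l2, s1 k h1.le h2, s2 l h3.le h4] at this
  exact s3 this

/-- a removable vertex or chain -/
lemma St.ex (hT : Tri T) (S : St T Z H a b c) (st : ∀ u, adj T a u → ¬ Z u) :
    (∃ x, x ≠ b ∧ x ≠ c ∧ H x ∧ contr T x a ∧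
      ∀ z u, Z z → adj T x z → adj T a u → adj T z u → u ≠ x → adj T x u) ∨
    ∃ l y x r z, Ch T Z H a b c l y x r z := by
  classical
  obtain ⟨y, j, C, y0, yj, j2⟩ := S.cyc hT
  have ad : ∀ m, adj T a (y m) := fun m => ⟨_, C.st m⟩
  have na : ∀ m, y m ≠ a := fun m => (hT.adj_ne (ad m)).symm
  have inj : ∀ m l, m ≤ j → l ≤ j → y m = y l → m = l := fun m l h1 h2 e => by
    rcases lt_trichotomy m l with h | h | h
    exacts [absurd e (C.inj _ _ h (by omega)), h, absurd e.symm (C.inj _ _ h (by omega))]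
  have all : ∀ u, adj T a u → ∃ l, l ≤ j ∧ u = y l := fun u h => by
    obtain ⟨l, -, h1, h2⟩ := C.all u h 0
    exact ⟨l, by omega, h2⟩
  let Run : V → ℕ → ℕ → Prop := fun z s t => ∀ m, s ≤ m → m < t → T z (y (m + 1)) (y m)
  let Lk : ℕ → ℕ → Prop := fun s t => s < t ∧ t ≤ j ∧ ((adj T (y s) (y t) ∧ s + 1 < t) ∨
    ∃ z, Z z ∧ adj T z (y s) ∧ adj T z (y t) ∧ ¬ Run z s t)
  have ex : ∃ n, ∃ s t, t - s = n ∧ Lk s t := ⟨_, 0, j, rfl, by omega, le_rfl,
    Or.inl ⟨y0 ▸ yj ▸ hT.symm (hT.adj23 S.out), by omega⟩⟩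
  obtain ⟨i, k, e, ik, kj, lk⟩ := Nat.find_spec ex
  have mn : ∀ s t, i ≤ s → t ≤ k → i < s ∨ t < k → s < t → ¬ ((adj T (y s) (y t) ∧ s + 1 < t) ∨
      ∃ z, Z z ∧ adj T z (y s) ∧ adj T z (y t) ∧ ¬ Run z s t) := fun s t h1 h2 h3 h4 h =>
    Nat.find_min ex (m := t - s) (by omega) ⟨s, t, rfl, h4, by omega, h⟩
  have run : ∀ z s t, i ≤ s → t ≤ k → i < s ∨ t < k → s < t → Z z → adj T z (y s) →
      adj T z (y t) → Run z s t := fun z s t h1 h2 h3 h4 k1 k2 k3 => by
    by_contra n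
    exact mn s t h1 h2 h3 h4 (Or.inr ⟨z, k1, k2, k3, n⟩)
  obtain ⟨w, i2, w1, w2, w3, w4⟩ : ∃ w, i + 1 < k ∧ adj T w (y k) ∧
      (w = y i ∨ (adj T (y i) w ∧ ¬ adj T a w ∧ w ≠ a)) ∧ (w = y i ∨ Z w) ∧
      ∀ m, i < m → m < k → Z w → ¬ adj T w (y m) := by
    rcases lk with ⟨h1, h2⟩ | ⟨z, h1, h2, h3, h4⟩
    · exact ⟨y i, h2, h1, Or.inl rfl, Or.inl rfl, fun m _ _ z => absurd z (st _ (ad i))⟩
    have za : z ≠ a := fun e => S.za (e ▸ h1)
    refine ⟨z, ?_, h3, Or.inr ⟨hT.symm h2, fun k => st z k h1, za⟩, Or.inr h1,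
      fun m a1 a2 _ h => h4 fun l b1 b2 => ?_⟩
    · by_contra n
      obtain rfl : k = i + 1 := by omega
      refine h4 fun m a1 a2 => ?_
      obtain rfl : m = i := by omega
      exact (S.p1 z _ _ h1 (hT.adj23 (C.st m)) (na _) (na _) h2 h3).resolve_left
        fun t => za (hT.uniq (hT.rot t) (hT.rot (C.st m)))
    · by_cases f : l < m
      exacts [run z i m le_rfl a2.le (Or.inr a2) a1 h1 h2 h l b1 f,
        run z m k a1.le le_rfl (Or.inl a1) a2 h1 h h3 l (by omega) b2]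
  let Rl : V → V → Prop := fun u u' => adj T u u' ∧ u' ≠ a ∧ u' ≠ y i ∧ u' ≠ w ∧ u' ≠ y k
  have sep : ∀ m l, i < m → m < k → l ≤ j → ReflTransGen Rl (y m) (y l) → i ≤ l ∧ l ≤ k :=
    fun m l a1 a2 a3 r => by
      constructor
      · by_contra n
        exact sepP hT C a1 a2 (l := l + (j + 1)) (by omega) (by omega) w1 w2 (by rwa [C.per])
      · by_contra n
        exact sepP hT C a1 a2 (l := l) (by omega) (by omega) w1 w2 r
  have sep' : ∀ m l u, i < m → m < k → l ≤ j → ReflTransGen Rl (y m) u → adj T u (y l) →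
      i ≤ l ∧ l ≤ k := fun m l u a1 a2 a3 r h => by
    by_cases e1 : y l = y i
    · obtain rfl := inj _ _ a3 (by omega) e1; omega
    by_cases e2 : y l = y k
    · obtain rfl := inj _ _ a3 kj e2; omega
    exact sep m l a1 a2 a3 (r.tail ⟨h, na l, e1, fun e => w3.elim (fun f => e1 (e.trans f))
      fun f => st _ (ad l) (e ▸ f), e2⟩)
  have lnk : ∀ m l z, i < m → m < k → l ≤ j → Z z → adj T z (y m) → adj T z (y l) →
      i ≤ l ∧ l ≤ k := fun m l z a1 a2 a3 k1 k2 k3 =>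
    sep' m l z a1 a2 a3 (.single ⟨hT.symm k2, fun e => S.za (e ▸ k1), fun e => st _ (ad i) (e ▸ k1),
      by rintro rfl; exact w4 m a1 a2 k1 k2, fun e => st _ (ad k) (e ▸ k1)⟩) k3
  have mid : ∀ m z, m + 2 ≤ j → Z z → T z (y (m + 1)) (y m) → T z (y (m + 2)) (y (m + 1)) →
      H (y (m + 1)) := fun m z h k t1 t2 => by
    by_contra n
    refine S.con (y m) (y (m + 2)) {y (m + 1)} (C.inj _ _ (by omega) (by omega))
      (C.inj _ _ (by omega) (by omega)).symm ?_ _ rfl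
    rintro _ rfl
    refine ⟨hT.vtxr (ad _), st _ (ad _), na _, n, fun u h k1 k2 => ?_⟩
    rcases deg4 hT (hT.rot2 (C.st m)) (hT.rot t1) (hT.rot2 t2) (hT.rot (C.st (m + 1))) h with
      e | e | e | e
    exacts [absurd e k2, Or.inr (Or.inl e), absurd (e ▸ k) k1, Or.inr (Or.inr e)]
  have nb : ∀ m, m < k → y m ≠ b := fun m h e => by
    have := inj m j (by omega) le_rfl (e.trans yj.symm); omega
  have nc : ∀ m, i < m → m < k → y m ≠ c := fun m h h' e => by
    have := inj m 0 (by omega) (by omega) (e.trans y0.symm); omega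
  by_cases c4 : ∃ m z, i ≤ m ∧ m + 3 ≤ k ∧ Z z ∧ Run z m (m + 3)
  · obtain ⟨m, z, a1, a2, k1, r⟩ := c4
    have t1 := r m le_rfl (by omega)
    have t2 := r (m + 1) (by omega) (by omega)
    have t3 := r (m + 2) (by omega) (by omega)
    exact Or.inr ⟨_, _, _, _, z, C.st m, C.st (m + 1), C.st (m + 2), t1, t2, t3, k1,
      mid m z (by omega) k1 t1 t2, mid (m + 1) z (by omega) k1 t2 t3, nb _ (by omega),
      nc _ (by omega) (by omega), nb _ (by omega), nc _ (by omega) (by omega)⟩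
  left
  have fin : ∀ m, i ≤ m → m + 1 < k → H (y (m + 1)) → (∀ z l, Z z → i ≤ l → l ≤ k →
      adj T z (y (m + 1)) → (l < m → ¬ Run z l (m + 1)) ∧ (m + 2 < l → ¬ Run z (m + 1) l)) →
      ∃ x, x ≠ b ∧ x ≠ c ∧ H x ∧ contr T x a ∧
        ∀ z u, Z z → adj T x z → adj T a u → adj T z u → u ≠ x → adj T x u := fun m a1 a2 h g => by
    refine ⟨y (m + 1), nb _ a2, nc _ (by omega) a2, h, ⟨hT.symm (ad _), fun u h1 h2 => ?_⟩,
      fun z u k1 k2 k3 k4 n => ?_⟩
    · obtain ⟨l, b1, rfl⟩ := all u h2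
      obtain ⟨b2, b3⟩ := sep' (m + 1) l _ (by omega) a2 b1 .refl h1
      have n1 : l ≠ m + 1 := by rintro rfl; exact hT.adj_ne h1 rfl
      have n2 : ¬ l < m := fun n => mn l (m + 1) b2 a2.le (Or.inr a2) (by omega)
        (Or.inl ⟨hT.symm h1, by omega⟩)
      have n3 : ¬ m + 2 < l := fun n => mn (m + 1) l (by omega) b3 (Or.inl (by omega)) (by omega)
        (Or.inl ⟨h1, by omega⟩)
      obtain rfl | rfl : l = m ∨ l = m + 2 := by omega
      exacts [Or.inl (hT.rot2 (C.st _)), Or.inr (hT.rot (C.st (m + 1)))]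
    · obtain ⟨l, b1, rfl⟩ := all u k3
      obtain ⟨b2, b3⟩ := lnk (m + 1) l z (by omega) a2 b1 k1 (hT.symm k2) k4
      have n1 : l ≠ m + 1 := by rintro rfl; exact n rfl
      obtain ⟨g1, g2⟩ := g z l k1 b2 b3 (hT.symm k2)
      have n2 : ¬ l < m := fun n => g1 n
        (run z _ _ b2 a2.le (Or.inr a2) (by omega) k1 k4 (hT.symm k2))
      have n3 : ¬ m + 2 < l := fun n => g2 n
        (run z _ _ (by omega) b3 (Or.inl (by omega)) (by omega) k1 (hT.symm k2) k4)
      obtain rfl | rfl : l = m ∨ l = m + 2 := by omega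
      exacts [hT.symm (hT.adj23 (C.st _)), hT.adj23 (C.st (m + 1))]
  by_cases c3 : ∃ m z, i ≤ m ∧ m + 2 ≤ k ∧ Z z ∧ Run z m (m + 2)
  · obtain ⟨m, z, a1, a2, k1, r⟩ := c3
    have t1 := r m le_rfl (by omega)
    have t2 := r (m + 1) (by omega) (by omega)
    refine fin m a1 a2 (mid m z (by omega) k1 t1 t2) fun z' l k2 b1 b2 _ =>
      ⟨fun n r' => ?_, fun n r' => ?_⟩
    · obtain rfl : z' = z := hT.uniq (hT.rot (r' m n.le (by omega))) (hT.rot t1)
      obtain ⟨m, rfl⟩ : ∃ m', m = m' + 1 := ⟨m - 1, by omega⟩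
      refine c4 ⟨m, z', by omega, by omega, k1, fun s s1 s2 => ?_⟩
      by_cases f : s = m
      exacts [r' s (by omega) (by omega), r s (by omega) (by omega)]
    · obtain rfl : z' = z := hT.uniq (hT.rot (r' (m + 1) le_rfl (by omega))) (hT.rot t2)
      refine c4 ⟨m, z', a1, by omega, k1, fun s s1 s2 => ?_⟩
      by_cases f : s = m
      exacts [r s (by omega) (by omega), r' s (by omega) (by omega)]
  obtain ⟨m, a1, a2, h⟩ : ∃ m, i ≤ m ∧ m + 1 < k ∧ H (y (m + 1)) := by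
    by_contra n
    push Not at n
    have n1 := (C.inj i (i + 1) (by omega) (by omega)).symm
    have n2 := C.inj (i + 1) k i2 (by omega)
    have P : ∀ u, ReflTransGen Rl (y (i + 1)) u → vtx T u ∧ u ≠ a ∧ u ≠ y i ∧ u ≠ y k :=
      fun u r => by
        rcases r.cases_tail with rfl | ⟨_, -, s⟩
        exacts [⟨hT.vtxr (ad _), na _, n1, n2⟩, ⟨hT.vtxr s.1, s.2.1, s.2.2.1, s.2.2.2.2⟩]
    refine S.con (y i) (y k) {u | ¬ Z u ∧ ReflTransGen Rl (y (i + 1)) u}
      (fun h => (P _ h.2).2.2.1 rfl) (fun h => (P _ h.2).2.2.2 rfl) (fun u ⟨h1, h2⟩ => ?_)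
      (y (i + 1)) ⟨st _ (ad _), .refl⟩
    obtain ⟨p1, p2, p3, p4⟩ := P u h2
    refine ⟨p1, h1, p2, fun g => ?_, fun u' g k1 k2 => ?_⟩
    · obtain ⟨l, b1, rfl⟩ := all u (S.h1 u g).1
      obtain ⟨b2, b3⟩ := sep _ l (Nat.lt_succ_self i) i2 b1 h2
      have : l ≠ i := by rintro rfl; exact p3 rfl
      have : l ≠ k := by rintro rfl; exact p4 rfl
      obtain ⟨l, rfl⟩ : ∃ l', l = l' + 1 := ⟨l - 1, by omega⟩
      exact n l (by omega) (by omega) g
    · by_cases e1 : u' = y i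
      · exact Or.inr (Or.inl e1)
      by_cases e2 : u' = y k
      · exact Or.inr (Or.inr e2)
      exact Or.inl ⟨k1, h2.tail ⟨g, k2, e1, fun e => w3.elim (fun f => e1 (e.trans f))
        fun f => k1 (e ▸ f), e2⟩⟩
  exact fin m a1 a2 h fun z l k1 b1 b2 _ =>
    ⟨fun n r => c3 ⟨l, z, b1, by omega, k1, fun s s1 s2 => r s s1 (by omega)⟩,
      fun n r => c3 ⟨m + 1, z, by omega, by omega, k1, fun s s1 s2 => r s s1 (by omega)⟩⟩

theorem exW' (n : ℕ) : ∀ (T : V → V → V → Prop) (H : V → Prop), Tri T → (verts T).card ≤ n →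
    St T Z H a b c → ∃ L par s, Wd T Z H a b c L par s := by
  induction n with
  | zero =>
    intro T H hT hn S
    exact absurd (card_pos.2 ⟨a, mem_verts.2 (hT.vtx1 S.out)⟩) (by omega)
  | succ n ih =>
    intro T H hT hn S
    have o := S.out
    have sm : ∀ x w H', contr T x w → St (con T x w) Z H' a b c →
        ∃ L par s, Wd (con T x w) Z H' a b c L par s := fun x w H' hc S' => by
      have cd := hT.con_verts hc.1
      by_cases h5 : 5 ≤ (verts T).card
      · refine ih _ _ (hT.con_tri hc h5) ?_ S'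
        rw [cd, card_erase_of_mem (mem_verts.2 ⟨_, hc.1⟩)]
        omega
      have sub : ({a, b, c} : Finset V) = verts (con T x w) := by
        refine eq_of_subset_of_card_le ?_ ?_
        · simp only [insert_subset_iff, singleton_subset_iff, mem_verts]
          exact ⟨⟨_, _, S'.out⟩, ⟨_, _, hT.con_rot S'.out⟩, ⟨_, _, hT.con_rot (hT.con_rot S'.out)⟩⟩
        · rw [cd, card_erase_of_mem (mem_verts.2 ⟨_, hc.1⟩),
            card_eq_three.2 ⟨a, b, c, hT.ne o, (hT.ne3 o).symm, hT.ne2 o, rfl⟩]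
          omega
      have mem : ∀ u v t, con T x w u v t → u = a ∨ u = b ∨ u = c := fun u v w t => by
        have : u ∈ ({a, b, c} : Finset V) := sub ▸ mem_verts.2 ⟨v, w, t⟩
        simpa using this
      exact Wd.base (hT.ne o) (hT.ne2 o) (hT.ne3 o) S.za (S.h1 b S.hb).2 (S.h1 c S.hc).2 S'.hb S'.hc
        (fun u v w t => ⟨t.1, t.2.1, t.2.2.1⟩) fun u v w t => ⟨mem _ _ _ t,
          mem _ _ _ (hT.con_rot t), mem _ _ _ (hT.con_rot (hT.con_rot t))⟩
    by_cases st : ∀ u, adj T a u → ¬ Z u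
    · rcases S.ex hT st with ⟨x, xb, xc, hx, hc, hv⟩ | ⟨l, y, x, r, z, K⟩
      · obtain ⟨p, hp⟩ := hc.1
        obtain ⟨q, hq⟩ := hT.pred hc.1
        have zx := (S.h1 x hx).2
        obtain ⟨L, par, s, W⟩ := sm x a _ hc (S.step hT (hT.symm hc.1) xb xc (Or.inr ⟨zx, st, hv⟩)
          fun u => Iff.rfl)
        exact W.step hT o hc hp hq xb xc S.za S.hb S.hc S.h1 (fun u k => absurd k zx) (Or.inl hx)
          (st p (hT.adj23 hp)) (st q (hT.symm (hT.adj23 hq))) (fun k => absurd k zx) fun u => Iff.rfl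
      · obtain ⟨L, par, s, W⟩ := sm x y _ (K.contr hT o) (S.chain hT K st fun u => Iff.rfl)
        exact W.chain hT o K S.za (fun u k => (S.h1 u k).2) fun u => Iff.rfl
    · push Not at st
      obtain ⟨x, ax, zx⟩ := st
      have hc : contr T x a := ⟨hT.symm ax, fun u h1 h2 => (S.pe x u zx ax h2 h1).2⟩
      obtain ⟨p, hp⟩ := hc.1
      obtain ⟨q, hq⟩ := hT.pred hc.1
      have xb : x ≠ b := fun e => (S.h1 b S.hb).2 (e ▸ zx)
      have xc : x ≠ c := fun e => (S.h1 c S.hc).2 (e ▸ zx)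
      have Hp := (S.pe x p zx ax (hT.adj23 hp) (hT.adj13 hp)).1
      have Hq := (S.pe x q zx ax (hT.symm (hT.adj23 hq)) ⟨_, hq⟩).1
      obtain ⟨L, par, s, W⟩ := sm x a _ hc (S.step hT ax xb xc (Or.inl zx) fun u => Iff.rfl)
      exact W.step hT o hc hp hq xb xc S.za S.hb S.hc S.h1 (fun u k h j => S.zi _ _ k j h)
        (Or.inr zx) (S.h1 p Hp).2 (S.h1 q Hq).2 (fun _ => ⟨Hp, Hq⟩) fun u => Iff.rfl

theorem exW (hT : Tri T) (S : St T Z H a b c) : ∃ L par s, Wd T Z H a b c L par s :=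
  exW' _ T H hT le_rfl S

end Pool.Agent.Lib.MP_d5dfc1_co.Gm
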