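import Pool.Agent.Lib.MP_d5dfc1_co.QpEar

/-! Schnyder woods of polyhedral maps, on the triangulation with one vertex in each face. -/

namespace Pool.Agent.Lib.MP_d5dfc1_co.Gm

open Relation Finset QP

set_option linter.unusedSectionVars false

variable {V : Type} [Fintype V] [LinearOrder V]

/-- `Z`: face vertices, `H`: the neighbours of `a` along true edges -/
structure St (T : V → V → V → Prop) (Z H : V → Prop) (a b c : V) : Prop where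
  out : T a b c
  za : ¬ Z a
  hb : H b
  hc : H c
  h1 : ∀ u, H u → adj T a u ∧ ¬ Z u
  zi : ∀ u v, Z u → Z v → ¬ adj T u v
  zt : ∀ u v w, T u v w → u ≠ a → v ≠ a → w ≠ a → Z u ∨ Z v ∨ Z w
  p1 : ∀ z u v, Z z → adj T u v → u ≠ a → v ≠ a → adj T z u → adj T z v → T z u v ∨ T z v u
  p2 : ∀ z z' u v, Z z → Z z' → z ≠ z' → u ≠ v → u ≠ a → v ≠ a → adj T z u → adj T z v →
    adj T z' u → adj T z' v → adj T u v
  pe : ∀ z u, Z z → adj T a z → adj T a u → adj T z u → H u ∧ (T z a u ∨ T z u a)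
  pd : ∀ z z' u, Z z → Z z' → z ≠ z' → adj T a z → adj T a z' → adj T z u → adj T z' u → u ≠ a →
    adj T a u
  con : ∀ x y (C : Set V), x ∉ C → y ∉ C → (∀ u ∈ C, vtx T u ∧ ¬ Z u ∧ u ≠ a ∧ ¬ H u ∧
    ∀ w, adj T u w → ¬ Z w → w ≠ a → w ∈ C ∨ w = x ∨ w = y) → ∀ u, u ∉ C

/-- inner vertices of the map -/
structure In (T : V → V → V → Prop) (Z : V → Prop) (a b c u : V) : Prop where
  v : vtx T u
  z : ¬ Z u
  a : u ≠ a
  b : u ≠ b
  c : u ≠ c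

/-- labels, parents and orders -/
structure Wd (T : V → V → V → Prop) (Z H : V → Prop) (a b c : V) (L : V → V → Fin 3)
    (par : Fin 3 → V → V) (s : Fin 3 → V → ℝ) : Prop where
  la : ∀ y, adj T a y → y ≠ b → L a y = 0
  lb : ∀ y, adj T b y → y ≠ c → L b y = 1
  lc : ∀ y, adj T c y → y ≠ a → L c y = 2
  vi : ∀ u w w', T u w' w → u ≠ a → ¬ Z u → (Z w ∨ (w = a ∧ ¬ H u)) → L u w' = L u w
  oa : ∀ i u, In T Z a b c u → adj T u (par i u) ∧ ¬ Z (par i u) ∧ (par i u = a → H u)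
  ol : ∀ i u, In T Z a b c u → L u (par i u) = i + 1 ∧ ∀ y, T u y (par i u) → L u y = i + 2
  sg : ∀ u y y', In T Z a b c u → T u y' y → L u y' = L u y ∨ y = par (L u y + 2) u
  h0 : ∀ u, In T Z a b c u → H u → par 0 u = a
  nx : ∀ u v w, T u v w → ¬ Z u → ¬ Z v → (u = a → H v) → (v = a → H u) → ¬ (u = a ∧ v = b) →
    ¬ (u = b ∧ v = c) → ¬ (u = c ∧ v = a) → L v w = L u v ∨ L v w = L u v + 2
  ct : ∀ u, In T Z a b c u → adj T a u → ¬ H u → L u a ≠ 0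
  ed : ∀ u v, adj T u v → ¬ Z u → ¬ Z v → (u = a → H v) → (v = a → H u) →
    (In T Z a b c u ∧ ∃ i, v = par i u) ∨ (In T Z a b c v ∧ ∃ i, u = par i v) ∨
      ((u = a ∨ u = b ∨ u = c) ∧ (v = a ∨ v = b ∨ v = c))
  f1 : ∀ z, Z z → vtx T z → ∀ m, ∃ u v, T z u v ∧ L u v = m
  f2 : ∀ z u v u' v', Z z → T z u v → T z u' v' → L u v = L u' v' → L v z ≠ L u v →
    L v' z ≠ L u' v' → u = u'
  up : ∀ i u, In T Z a b c u → s i u < s i (par i u)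
  dn : ∀ i j u, In T Z a b c u → j ≠ i → s j (par i u) ≤ s j u
  cm : ∀ u v, T a u v → u ≠ b → s 2 v ≤ s 2 u ∧ s 1 u ≤ s 1 v ∧ (H v ∨ Z v → s 2 v < s 2 u) ∧
    (H u ∨ Z u → s 1 u < s 1 v)
  top : ∀ u, u ≠ a → s 0 u < s 0 a
  low : ∀ u, s 1 a ≤ s 1 u ∧ s 2 a ≤ s 2 u

variable {T : V → V → V → Prop} {Z H H' : V → Prop} {a b c x : V}

lemma Wd.base (ab : a ≠ b) (bc : b ≠ c) (ca : c ≠ a) (za : ¬ Z a) (zb : ¬ Z b) (zc : ¬ Z c)
    (hb : H b) (hc : H c) (ne : ∀ u v w, T u v w → u ≠ v ∧ v ≠ w ∧ w ≠ u)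
    (h : ∀ u v w, T u v w → (u = a ∨ u = b ∨ u = c) ∧ (v = a ∨ v = b ∨ v = c) ∧
      (w = a ∨ w = b ∨ w = c)) : ∃ L par s, Wd T Z H a b c L par s := by
  have nv : ∀ {w} {P : Prop}, In T Z a b c w → P := fun ⟨⟨y, z, t⟩, _, n1, n2, n3⟩ => by
    have := (h _ _ _ t).1
    tauto
  have nz : ∀ {u v w} {P : Prop}, T u v w → Z u → P := fun t z => by
    rcases (h _ _ _ t).1 with rfl | rfl | rfl <;> contradiction
  refine ⟨fun u _ => if u = a then 0 else if u = b then 1 else 2, fun _ u => u,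
    fun i u => if u = ![a, b, c] i then 1 else 0, fun y _ _ => by simp,
    fun y _ _ => by simp [ab.symm], fun y _ _ => by simp [ca, bc.symm], fun _ _ _ _ _ _ _ => rfl,
    fun _ _ k => nv k, fun _ _ k => nv k, fun _ _ _ k => nv k, fun _ k => nv k,
    fun u v w t _ _ _ _ n1 n2 n3 => ?_, fun _ k => nv k,
    fun u v ⟨w, t⟩ _ _ _ _ => Or.inr (Or.inr ⟨(h _ _ _ t).1, (h _ _ _ t).2.1⟩),
    fun z k ⟨_, _, t⟩ => nz t k, fun z _ _ _ _ k t => nz t k, fun _ _ k => nv k,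
    fun _ _ _ k => nv k, fun u v t n => ?_, fun u n => by simp [n], fun u => ?_⟩
  · obtain ⟨m1, -, -⟩ := ne _ _ _ t
    obtain ⟨k1, k2, -⟩ := h _ _ _ t
    rcases k1 with rfl | rfl | rfl <;> rcases k2 with rfl | rfl | rfl <;>
      simp_all [ab.symm, bc.symm, ca.symm]
  · obtain ⟨m1, m2, m3⟩ := ne _ _ _ t
    obtain ⟨-, k2, k3⟩ := h _ _ _ t
    obtain rfl : u = c := by tauto
    obtain rfl : v = b := by tauto
    simp [bc, bc.symm]
  · simp only [Matrix.cons_val, if_neg ab, if_neg ca.symm]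
    constructor <;> split_ifs <;> norm_num

section
variable {L : V → V → Fin 3} {par : Fin 3 → V → V} {s : Fin 3 → V → ℝ}

lemma Wd.l1 (W : Wd T Z H a b c L par s) {u : V} (i : In T Z a b c u) (h : H u) : L u a = 1 :=
  W.h0 u i h ▸ (W.ol 0 u i).1

lemma Wd.lr (W : Wd T Z H a b c L par s) {u v : V} (t : T u v a) (h : H u) (z : ¬ Z u)
    (ua : u ≠ a) (ub : u ≠ b) (va : v ≠ a) : L u v = 2 := by
  by_cases e : u = c
  · subst e; exact W.lc v ⟨_, t⟩ va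
  · have i : In T Z a b c u := ⟨⟨_, _, t⟩, z, ua, ub, e⟩
    exact (W.ol 0 u i).2 v ((W.h0 u i h).symm ▸ t)

lemma Wd.ll (W : Wd T Z H a b c L par s) {u : V} (t : adj T u a) (h : H u) (z : ¬ Z u)
    (ua : u ≠ a) (uc : u ≠ c) (ca : c ≠ a) : L u a = 1 := by
  by_cases e : u = b
  · subst e; exact W.lb a t ca.symm
  · exact W.l1 ⟨⟨_, t⟩, z, ua, e, uc⟩ h

end

lemma contr_cases (hT : Tri T) {p q : V} (hp : T x a p) (hq : T x q a) {u v w : V} (t : T u v w) :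
    (pr x a u ≠ pr x a v ∧ pr x a v ≠ pr x a w ∧ pr x a w ≠ pr x a u) ∨
    (u = a ∧ v = p ∧ w = x) ∨ (u = p ∧ v = x ∧ w = a) ∨ (u = x ∧ v = a ∧ w = p) ∨
    (u = a ∧ v = x ∧ w = q) ∨ (u = x ∧ v = q ∧ w = a) ∨ (u = q ∧ v = a ∧ w = x) := by
  by_cases e1 : pr x a u = pr x a v
  · rcases pr_eq e1 with k | ⟨rfl, rfl⟩ | ⟨rfl, rfl⟩
    · exact absurd k (hT.ne t)
    · simp [hT.uniq t hp]
    · simp [hT.uniq t (hT.rot2 hq)]
  by_cases e2 : pr x a v = pr x a w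
  · rcases pr_eq e2 with k | ⟨rfl, rfl⟩ | ⟨rfl, rfl⟩
    · exact absurd k (hT.ne2 t)
    · simp [hT.uniq (hT.rot t) hp]
    · simp [hT.uniq (hT.rot t) (hT.rot2 hq)]
  by_cases e3 : pr x a w = pr x a u
  · rcases pr_eq e3 with k | ⟨rfl, rfl⟩ | ⟨rfl, rfl⟩
    · exact absurd k (hT.ne3 t)
    · simp [hT.uniq (hT.rot2 t) hp]
    · simp [hT.uniq (hT.rot2 t) (hT.rot2 hq)]
  exact Or.inl ⟨e1, e2, e3⟩

lemma ex_gap {f : V → ℝ} {p : V} {B : Set V} (h : ∀ v ∈ B, f p < f v) (P : Prop) :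
    ∃ c, f p ≤ c ∧ (P → f p < c) ∧ (¬ P → c = f p) ∧ ∀ v ∈ B, c < f v := by
  by_cases k : P
  · obtain ⟨c, k1, k2⟩ := Set.Finite.exists_between' (Set.finite_singleton (f p))
      ((Set.toFinite B).image f) (by rintro _ rfl _ ⟨v, hv, rfl⟩; exact h v hv)
    exact ⟨c, (k1 _ rfl).le, fun _ => k1 _ rfl, fun n => absurd k n, fun v hv => k2 _ ⟨v, hv, rfl⟩⟩
  · exact ⟨f p, le_rfl, fun n => absurd n k, fun _ => rfl, h⟩

end Pool.Agent.Lib.MP_d5dfc1_co.Gm
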