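import Pool.Agent.Lib.MP_d5dfc1_co.GmDef
import Pool.Agent.Lib.MP_d5dfc1_co.GmW

/-! The triangulation with one new vertex in each inner face. -/

namespace Pool.Agent.Lib.MP_d5dfc1_co.Gm

open Ex Sum

variable {V F D : Type}

/-- the outer face, and one triangle for every dart of an inner face -/
inductive TZ (M : PM V F D) (T : F) : V ⊕ F → V ⊕ F → V ⊕ F → Prop
  | out (d : D) : M.lf d = T → TZ M T (inl (M.tl d)) (inl (M.hd d)) (inl (M.hd (M.nx d)))
  | t1 (d : D) : M.lf d ≠ T → TZ M T (inl (M.tl d)) (inl (M.hd d)) (inr (M.lf d))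
  | t2 (d : D) : M.lf d ≠ T → TZ M T (inl (M.hd d)) (inr (M.lf d)) (inl (M.tl d))
  | t3 (d : D) : M.lf d ≠ T → TZ M T (inr (M.lf d)) (inl (M.tl d)) (inl (M.hd d))

/-- face vertices -/
def ZZ (u : V ⊕ F) : Prop := ∃ f, u = inr f

/-- neighbours of `x` in the map -/
def HZ (M : PM V F D) (x : V) (u : V ⊕ F) : Prop := ∃ y, u = inl y ∧ M.Adj x y

end Pool.Agent.Lib.MP_d5dfc1_co.Gm
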