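import Pool.Agent.Lib.MP_d5dfc1_co.Det

namespace Pool.Agent.Lib.MP_d5dfc1_co

open Set

lemma dot_sub (c x y : V3) : dot c (x - y) = dot c x - dot c y := by
  simp only [dot, Pi.sub_apply]; ring

lemma exists_vec (l : StrongDual ℝ V3) : ∃ c : V3, ∀ x, l x = dot c x := by
  refine ⟨fun k => l (Pi.single k 1), fun x => ?_⟩
  have : x = x 0 • (Pi.single 0 1 : V3) + x 1 • (Pi.single 1 1 : V3) + x 2 • (Pi.single 2 1 : V3) := by
    ext k; fin_cases k <;> simp
  conv_lhs => rw [this]
  simp only [map_add, map_smul, smul_eq_mul, dot]; ring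

noncomputable def dotL (c : V3) : StrongDual ℝ V3 :=
  c 0 • ContinuousLinearMap.proj 0 + c 1 • ContinuousLinearMap.proj 1
    + c 2 • ContinuousLinearMap.proj 2

lemma dotL_apply (c x : V3) : dotL c x = dot c x := by
  simp [dotL, dot]

variable {ι : Type*} {p : ι → V3}

lemma exposed_of_vec {i j : ι} (c : V3) (h1 : dot c (p i) = dot c (p j))
    (h2 : ∀ k, k ≠ i → k ≠ j → dot c (p k) < dot c (p i)) :
    IsExposed ℝ (convexHull ℝ (range p)) (segment ℝ (p i) (p j)) := by
  intro _
  refine ⟨dotL c, ?_⟩
  have hseg : ∀ x ∈ segment ℝ (p i) (p j), dotL c x = dot c (p i) := by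
    rintro x ⟨a, b, -, -, hab, rfl⟩
    rw [map_add, map_smul, map_smul, dotL_apply, dotL_apply, ← h1, smul_eq_mul, smul_eq_mul,
      ← add_mul, hab, one_mul]
  have hT : convexHull ℝ (range p) ⊆
      {x | dotL c x < dot c (p i) ∨ x ∈ segment ℝ (p i) (p j)} := by
    apply convexHull_min
    · rintro _ ⟨k, rfl⟩
      by_cases hi : k = i
      · right; rw [hi]; exact left_mem_segment _ _ _
      by_cases hj : k = j
      · right; rw [hj]; exact right_mem_segment _ _ _
      left; rw [dotL_apply]; exact h2 k hi hj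
    · intro x hx y hy a b ha hb hab
      simp only [mem_ofPred_eq] at hx hy ⊢
      rcases ha.eq_or_lt with rfl | ha'
      · have : b = 1 := by linarith
        subst this; simpa using hy
      rcases hb.eq_or_lt with rfl | hb'
      · have : a = 1 := by linarith
        subst this; simpa using hx
      have e : dotL c (a • x + b • y) = a * dotL c x + b * dotL c y := by
        rw [map_add, map_smul, map_smul, smul_eq_mul, smul_eq_mul]
      have e2 : dot c (p i) = a * dot c (p i) + b * dot c (p i) := by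
        rw [← add_mul, hab, one_mul]
      rcases hx with hx | hx <;> rcases hy with hy | hy
      · left; rw [e]; nlinarith
      · left; rw [e, hseg y hy]; nlinarith
      · left; rw [e, hseg x hx]; nlinarith
      · right; exact convex_segment _ _ hx hy ha hb hab
  have hsub : segment ℝ (p i) (p j) ⊆ convexHull ℝ (range p) :=
    segment_subset_convexHull (mem_range_self i) (mem_range_self j)
  ext x
  constructor
  · intro hx
    refine ⟨hsub hx, fun y hy => ?_⟩
    rw [hseg x hx]
    rcases hT hy with h | h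
    · exact h.le
    · exact (hseg y h).le
  · rintro ⟨hx, hmax⟩
    rcases hT hx with h | h
    · have := hmax (p i) (hsub (left_mem_segment _ _ _))
      rw [dotL_apply c (p i)] at this
      linarith
    · exact h

lemma vec_of_exposed (hp : ConvexIndependent ℝ p) {i j : ι}
    (h : IsExposed ℝ (convexHull ℝ (range p)) (segment ℝ (p i) (p j))) :
    ∃ c : V3, dot c (p i) = dot c (p j) ∧ ∀ k, k ≠ i → k ≠ j → dot c (p k) < dot c (p i) := by
  obtain ⟨l, hl⟩ := h ⟨p i, left_mem_segment _ _ _⟩
  obtain ⟨c, hc⟩ := exists_vec l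
  have hm : ∀ k, p k ∈ convexHull ℝ (range p) := fun k => subset_convexHull _ _ (mem_range_self k)
  have hi : p i ∈ {x ∈ convexHull ℝ (range p) | ∀ y ∈ convexHull ℝ (range p), l y ≤ l x} :=
    hl ▸ left_mem_segment _ _ _
  have hj : p j ∈ {x ∈ convexHull ℝ (range p) | ∀ y ∈ convexHull ℝ (range p), l y ≤ l x} :=
    hl ▸ right_mem_segment _ _ _
  refine ⟨c, ?_, fun k hki hkj => ?_⟩
  · rw [← hc, ← hc]; exact le_antisymm (hj.2 _ (hm i)) (hi.2 _ (hm j))
  · rw [← hc, ← hc]
    refine lt_of_le_of_ne (hi.2 _ (hm k)) fun he => ?_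
    have : p k ∈ segment ℝ (p i) (p j) := by
      rw [hl]; exact ⟨hm k, fun y hy => he ▸ hi.2 y hy⟩
    rw [← convexHull_pair, ← image_pair] at this
    rcases hp {i, j} k this with h | h
    · exact hki h
    · exact hkj h

lemma exists_sep [Finite ι] (hp : ConvexIndependent ℝ p) (i : ι) :
    ∃ g : V3, ∀ j, j ≠ i → dot g (p j) < dot g (p i) := by
  have hn : p i ∉ convexHull ℝ (p '' {j | j ≠ i}) := fun h => hp _ i h rfl
  obtain ⟨f, u, h1, h2⟩ := geometric_hahn_banach_closed_point (convex_convexHull ℝ _)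
    (((toFinite _).image p).isCompact_convexHull ℝ).isClosed hn
  obtain ⟨c, hc⟩ := exists_vec f
  refine ⟨c, fun j hj => ?_⟩
  rw [← hc, ← hc]
  exact (h1 _ (subset_convexHull _ _ (mem_image_of_mem p hj))).trans h2

/-- the simplex lemma: a local maximum along the edges is a global maximum -/
lemma simplex [Finite ι] (hp : ConvexIndependent ℝ p) (i : ι) (f : V3)
    (hf : ∀ j, j ≠ i → IsExposed ℝ (convexHull ℝ (range p)) (segment ℝ (p i) (p j)) →
      dot f (p j - p i) ≤ 0) (j0 : ι) : dot f (p j0 - p i) ≤ 0 := by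
  classical
  have := Fintype.ofFinite ι
  by_contra hc
  push Not at hc
  have hj0 : j0 ≠ i := by rintro rfl; simp [dot] at hc
  obtain ⟨g, hg⟩ := exists_sep hp i
  set a : ι → ℝ := fun j => dot g (p i) - dot g (p j) with ha
  have a0 : ∀ j, j ≠ i → 0 < a j := fun j hj => sub_pos.2 (hg j hj)
  set q : ι → V3 := fun j => (a j)⁻¹ • (p j - p i) with hq
  have hqa : ∀ j, j ≠ i → ∀ c, dot c (p j - p i) = a j * dot c (q j) := fun j hj c => by
    have := (a0 j hj).ne'
    simp only [hq, dot, Pi.smul_apply, smul_eq_mul]; field_simp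
  have f0 : 0 < dot f (q j0) := by
    rw [hqa j0 hj0] at hc
    exact (pos_iff_pos_of_mul_pos hc).1 (a0 j0 hj0)
  have nn : ∀ x : V3, 0 ≤ dot x x := fun x => by simp only [dot]; nlinarith [sq_nonneg (x 0), sq_nonneg (x 1), sq_nonneg (x 2)]
  set T : ℝ := (∑ j, dot (q j) (q j) + 1) / dot f (q j0) with hT
  have hT0 : 0 < T := div_pos (by have := Finset.sum_nonneg fun j (_ : j ∈ Finset.univ) => nn (q j); linarith) f0
  have hT1 : ∀ j, dot (q j) (q j) < T * dot f (q j0) := fun j => by
    rw [hT, div_mul_cancel₀ _ f0.ne']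
    have := Finset.single_le_sum (fun j (_ : j ∈ Finset.univ) => nn (q j)) (Finset.mem_univ j)
    linarith
  obtain ⟨s, hs, hmax⟩ := Finset.exists_max_image (Finset.univ.filter (· ≠ i))
    (fun j => T * dot f (q j) + dot (q j) (q j)) ⟨j0, by simpa using hj0⟩
  have hsi : s ≠ i := by simpa using hs
  have fs : 0 < dot f (q s) := by
    have := hmax j0 (by simpa using hj0)
    have := hT1 s
    have := nn (q j0)
    have : 0 < T * dot f (q s) := by linarith
    exact (pos_iff_pos_of_mul_pos this).1 hT0
  set h : V3 := T • f + (2 : ℝ) • q s with hh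
  have hd : ∀ x, dot h x = T * dot f x + 2 * dot (q s) x := fun x => by
    simp only [hh, dot, Pi.add_apply, Pi.smul_apply, smul_eq_mul]; ring
  set F : V3 := h + dot h (q s) • g with hF
  have Fd : ∀ j, j ≠ i → dot F (p j) - dot F (p i) = a j * (dot h (q j) - dot h (q s)) :=
    fun j hj => by
      have e : dot F (p j) - dot F (p i) = dot h (p j - p i) - dot h (q s) * a j := by
        simp only [hF, ha]
        generalize dot h (q s) = t
        simp only [dot, Pi.add_apply, Pi.smul_apply, smul_eq_mul, Pi.sub_apply]; ring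
      rw [e, hqa j hj]; ring
  have hexp : IsExposed ℝ (convexHull ℝ (range p)) (segment ℝ (p i) (p s)) := by
    apply exposed_of_vec F
    · have := Fd s hsi; linarith
    · intro k hki hks
      have hne : q k ≠ q s := by
        intro he
        have ak := a0 k hki
        have as := a0 s hsi
        have e : ∀ t, (a k)⁻¹ * (p k t - p i t) = (a s)⁻¹ * (p s t - p i t) := fun t => by
          simpa [hq] using congrFun he t
        rcases le_total (a k) (a s) with hle | hle
        · have : p k ∈ segment ℝ (p i) (p s) := by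
            refine ⟨1 - a k / a s, a k / a s, sub_nonneg.2 ((div_le_one as).2 hle),
              by positivity, by ring, ?_⟩
            ext t
            have := e t
            simp only [Pi.add_apply, Pi.smul_apply, smul_eq_mul]
            field_simp at this ⊢
            linarith
          rw [← convexHull_pair, ← image_pair] at this
          rcases hp {i, s} k this with h | h
          · exact hki h
          · exact hks h
        · have : p s ∈ segment ℝ (p i) (p k) := by
            refine ⟨1 - a s / a k, a s / a k, sub_nonneg.2 ((div_le_one ak).2 hle),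
              by positivity, by ring, ?_⟩
            ext t
            have := e t
            simp only [Pi.add_apply, Pi.smul_apply, smul_eq_mul]
            field_simp at this ⊢
            linarith
          rw [← convexHull_pair, ← image_pair] at this
          rcases hp {i, k} s this with h | h
          · exact hsi h
          · exact hks h.symm
      have pos : 0 < dot (q k - q s) (q k - q s) := by
        refine lt_of_le_of_ne (nn _) fun h0 => hne ?_
        simp only [dot, Pi.sub_apply] at h0
        ext t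
        have h1 := mul_self_nonneg (q k 0 - q s 0)
        have h2 := mul_self_nonneg (q k 1 - q s 1)
        have h3 := mul_self_nonneg (q k 2 - q s 2)
        fin_cases t
        · exact sub_eq_zero.1 (mul_self_eq_zero.1 (by simp only [Fin.zero_eta]; linarith))
        · exact sub_eq_zero.1 (mul_self_eq_zero.1 (by simp only [Fin.mk_one]; linarith))
        · exact sub_eq_zero.1 (mul_self_eq_zero.1 (by simp only [Fin.reduceFinMk]; linarith))
      have m := hmax k (by simpa using hki)
      have e : dot (q k - q s) (q k - q s)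
          = dot (q k) (q k) - 2 * dot (q s) (q k) + dot (q s) (q s) := by
        simp only [dot, Pi.sub_apply]; ring
      have lt : dot h (q k) - dot h (q s) < 0 := by
        rw [hd, hd]; linarith
      have := Fd k hki
      have := mul_neg_of_pos_of_neg (a0 k hki) lt
      linarith
  have := hf s hsi hexp
  rw [hqa s hsi] at this
  have := mul_pos (a0 s hsi) fs
  linarith

lemma eq_zero_of_span (hs : affineSpan ℝ (range p) = ⊤) (c : V3) (r : ℝ)
    (h : ∀ j, dot c (p j) = r) : c = 0 := by
  have all : ∀ x, dot c x = r := by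
    intro x
    have hx : x ∈ affineSpan ℝ (range p) := hs ▸ AffineSubspace.mem_top ℝ _ x
    refine affineSpan_induction (p := fun x => dot c x = r) hx ?_ ?_
    · rintro _ ⟨j, rfl⟩; exact h j
    · intro t u v w hu hv hw
      simp only [dot, vsub_eq_sub, vadd_eq_add, Pi.add_apply, Pi.smul_apply, Pi.sub_apply,
        smul_eq_mul] at *
      linear_combination t * hu - t * hv + hw
  have h0 := all 0
  ext k
  have h1 := all (Pi.single k 1)
  fin_cases k <;> simp [dot] at h0 h1 ⊢ <;> linarith

lemma span_of_vec [Nonempty ι] (h : ∀ (c : V3) (r : ℝ), (∀ j, dot c (p j) = r) → c = 0) :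
    affineSpan ℝ (range p) = ⊤ := by
  rw [← AffineSubspace.direction_eq_top_iff_of_nonempty
    ((affineSpan_nonempty ℝ).2 (range_nonempty p)), direction_affineSpan]
  by_contra hne
  obtain ⟨f, hf0, hf⟩ := Submodule.exists_le_ker_of_lt_top _ (lt_top_iff_ne_top.2 hne)
  obtain ⟨c, hc⟩ := exists_vec (LinearMap.toContinuousLinearMap f)
  obtain ⟨i⟩ := ‹Nonempty ι›
  have : c = 0 := h c (dot c (p i)) fun j => by
    have := hf (vsub_mem_vectorSpan ℝ (mem_range_self j) (mem_range_self i))
    rw [LinearMap.mem_ker] at this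
    have e := hc (p j - p i)
    rw [dot_sub] at e
    simp only [LinearMap.coe_toContinuousLinearMap'] at e
    rw [vsub_eq_sub, e] at this
    linarith
  apply hf0
  ext1 k
  ext1
  have := hc (Pi.single k 1)
  simpa [‹c = 0›, dot] using this

lemma cone_of_nbrs [Finite ι] (hp : ConvexIndependent ℝ p) (hs : affineSpan ℝ (range p) = ⊤)
    (i j1 j2 j3 : ι)
    (hn : ∀ j, j ≠ i → IsExposed ℝ (convexHull ℝ (range p)) (segment ℝ (p i) (p j)) →
      j = j1 ∨ j = j2 ∨ j = j3) : Cone (range p) (p i) (p j1) (p j2) (p j3) := by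
  have sx : ∀ f : V3, dot f (p j1 - p i) ≤ 0 → dot f (p j2 - p i) ≤ 0 → dot f (p j3 - p i) ≤ 0 →
      ∀ j, dot f (p j - p i) ≤ 0 := fun f h1 h2 h3 => simplex hp i f fun j hj he => by
    rcases hn j hj he with rfl | rfl | rfl <;> assumption
  have hΔ : det3 (p j1 - p i) (p j2 - p i) (p j3 - p i) ≠ 0 := by
    intro h0
    obtain ⟨c, hc0, hc⟩ := (Matrix.exists_mulVec_eq_zero_iff
      (M := Matrix.of ![p j1 - p i, p j2 - p i, p j3 - p i])).2 (by
        rw [Matrix.det_fin_three, ← h0]; simp [det3]; ring)
    have e1 : dot c (p j1 - p i) = 0 := by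
      have := congrFun hc 0
      simp [Matrix.mulVec, dotProduct, Fin.sum_univ_three] at this
      simp only [dot, Pi.sub_apply]; linarith
    have e2 : dot c (p j2 - p i) = 0 := by
      have := congrFun hc 1
      simp [Matrix.mulVec, dotProduct, Fin.sum_univ_three] at this
      simp only [dot, Pi.sub_apply]; linarith
    have e3 : dot c (p j3 - p i) = 0 := by
      have := congrFun hc 2
      simp [Matrix.mulVec, dotProduct, Fin.sum_univ_three] at this
      simp only [dot, Pi.sub_apply]; linarith
    have ng : ∀ x, dot (-c) x = - dot c x := fun x => by simp only [dot, Pi.neg_apply]; ring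
    apply hc0
    apply eq_zero_of_span hs c (dot c (p i))
    intro j
    have a := sx c e1.le e2.le e3.le j
    have b := sx (-c) (by rw [ng, e1]; simp) (by rw [ng, e2]; simp) (by rw [ng, e3]; simp) j
    rw [ng] at b
    rw [dot_sub] at a b
    linarith
  refine ⟨hΔ, ?_⟩
  rintro _ ⟨j, rfl⟩
  set U1 := p j1 - p i with hU1
  set U2 := p j2 - p i with hU2
  set U3 := p j3 - p i with hU3
  set Δ := det3 U1 U2 U3 with hΔd
  have sm : ∀ (x y z : V3), dot ((-Δ⁻¹) • cross x y) z = -(det3 x y z / Δ) := fun x y z => by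
    rw [← dot_cross]; simp only [dot, Pi.smul_apply, smul_eq_mul]; ring
  have z1 : ∀ x y : V3, det3 x y x = 0 := fun x y => by simp only [det3]; ring
  have z2 : ∀ x y : V3, det3 x y y = 0 := fun x y => by simp only [det3]; ring
  have c1 : det3 U2 U3 U1 = Δ := by simp only [hΔd, det3]; ring
  have c2 : det3 U3 U1 U2 = Δ := by simp only [hΔd, det3]; ring
  refine ⟨det3 U2 U3 (p j - p i) / Δ, det3 U3 U1 (p j - p i) / Δ, det3 U1 U2 (p j - p i) / Δ,
    ?_, ?_, ?_, fun k => ?_⟩
  · have := sx ((-Δ⁻¹) • cross U2 U3) (by rw [sm, c1, div_self hΔ]; norm_num)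
      (by rw [sm, z1]; simp) (by rw [sm, z2]; simp) j
    rw [sm] at this; linarith
  · have := sx ((-Δ⁻¹) • cross U3 U1) (by rw [sm, z2]; simp)
      (by rw [sm, c2, div_self hΔ]; norm_num) (by rw [sm, z1]; simp) j
    rw [sm] at this; linarith
  · have := sx ((-Δ⁻¹) • cross U1 U2) (by rw [sm, z1]; simp) (by rw [sm, z2]; simp)
      (by rw [sm, div_self hΔ]; norm_num) j
    rw [sm] at this; linarith
  · have cr : ∀ z : V3, Δ * z k = det3 U2 U3 z * U1 k + det3 U3 U1 z * U2 k + det3 U1 U2 z * U3 k := by
      intro z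
      fin_cases k <;> simp [hΔd, det3] <;> ring
    have := cr (p j - p i)
    have e1 : U1 k = p j1 k - p i k := rfl
    have e2 : U2 k = p j2 k - p i k := rfl
    have e3 : U3 k = p j3 k - p i k := rfl
    rw [← e1, ← e2, ← e3]
    rw [Pi.sub_apply] at this
    field_simp
    linarith

/-- three edges at one vertex force dimension three -/
lemma span_of_edges [Finite ι] (hp : ConvexIndependent ℝ p) (i j1 j2 j3 : ι)
    (n1 : j1 ≠ i) (n2 : j2 ≠ i) (n3 : j3 ≠ i) (n12 : j1 ≠ j2) (n13 : j1 ≠ j3) (n23 : j2 ≠ j3)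
    (e1 : IsExposed ℝ (convexHull ℝ (range p)) (segment ℝ (p i) (p j1)))
    (e2 : IsExposed ℝ (convexHull ℝ (range p)) (segment ℝ (p i) (p j2)))
    (e3 : IsExposed ℝ (convexHull ℝ (range p)) (segment ℝ (p i) (p j3))) :
    affineSpan ℝ (range p) = ⊤ := by
  have : Nonempty ι := ⟨i⟩
  apply span_of_vec
  intro c r h
  by_contra hc
  obtain ⟨g, hg⟩ := exists_sep hp i
  obtain ⟨f1, a1, b1⟩ := vec_of_exposed hp e1
  obtain ⟨f2, a2, b2⟩ := vec_of_exposed hp e2
  obtain ⟨f3, a3, b3⟩ := vec_of_exposed hp e3
  have hdet : (Matrix.of ![p j1 - p i, p j2 - p i, p j3 - p i]).det = 0 := by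
    rw [← Matrix.exists_mulVec_eq_zero_iff]
    refine ⟨c, hc, ?_⟩
    have h0 := h i; have h1 := h j1; have h2 := h j2; have h3 := h j3
    simp only [dot] at h0 h1 h2 h3
    ext k
    fin_cases k <;> simp [Matrix.mulVec, dotProduct, Fin.sum_univ_three] <;> linarith
  obtain ⟨l, hl0, hl⟩ := Matrix.exists_vecMul_eq_zero_iff.2 hdet
  have rel : ∀ f : V3, l 0 * (dot f (p i) - dot f (p j1)) + l 1 * (dot f (p i) - dot f (p j2))
      + l 2 * (dot f (p i) - dot f (p j3)) = 0 := by
    intro f
    have h0 := congrFun hl 0; have h1 := congrFun hl 1; have h2 := congrFun hl 2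
    simp [Matrix.vecMul, dotProduct, Fin.sum_univ_three] at h0 h1 h2
    simp only [dot]
    linear_combination (-f 0) * h0 - f 1 * h1 - f 2 * h2
  have r0 := rel g; have r1 := rel f1; have r2 := rel f2; have r3 := rel f3
  have g1 := sub_pos.2 (hg j1 n1); have g2 := sub_pos.2 (hg j2 n2); have g3 := sub_pos.2 (hg j3 n3)
  have x12 := sub_pos.2 (b1 j2 n2 n12.symm); have x13 := sub_pos.2 (b1 j3 n3 n13.symm)
  have x21 := sub_pos.2 (b2 j1 n1 n12); have x23 := sub_pos.2 (b2 j3 n3 n23.symm)
  have x31 := sub_pos.2 (b3 j1 n1 n13); have x32 := sub_pos.2 (b3 j2 n2 n23)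
  rw [← a1] at r1; rw [← a2] at r2; rw [← a3] at r3
  simp only [sub_self, mul_zero, zero_add, add_zero] at r1 r2 r3
  have opp : ∀ {u v a b : ℝ}, 0 < a → 0 < b → u * a + v * b = 0 →
      (0 < u ∧ v < 0) ∨ (u = 0 ∧ v = 0) ∨ (u < 0 ∧ 0 < v) := by
    intro u v a b ha hb e
    rcases lt_trichotomy u 0 with h | h | h
    · right; right; exact ⟨h, by by_contra hv; push Not at hv; nlinarith⟩
    · right; left; subst h; exact ⟨rfl, by simpa [hb.ne'] using e⟩
    · left; exact ⟨h, by by_contra hv; push Not at hv; nlinarith⟩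
  apply hl0
  rcases opp x12 x13 r1 with h1 | h1 | h1 <;> rcases opp x21 x23 r2 with h2 | h2 | h2 <;>
    rcases opp x31 x32 r3 with h3 | h3 | h3 <;>
    first
    | (exfalso; linarith [h1.1, h1.2, h2.1, h2.2, h3.1, h3.2])
    | (ext k; fin_cases k <;> simp [h1.1, h1.2, h2.1])

end Pool.Agent.Lib.MP_d5dfc1_co
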