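import Mathlib

namespace Pool.Agent.Lib.MP_d5dfc1_co.QP

open Relation Finset

set_option linter.unusedSectionVars false

set_option linter.unusedSimpArgs false
set_option linter.unusedVariables false

lemma rtg_map {α β : Type*} {r : α → α → Prop} {p : β → β → Prop} (f : α → β)
    (h : ∀ a b, r a b → ReflTransGen p (f a) (f b)) {a b : α} (hab : ReflTransGen r a b) :
    ReflTransGen p (f a) (f b) := by
  induction hab with
  | refl => exact .refl
  | tail _ s ih => exact ih.trans (h _ _ s)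

variable {V : Type*}

def adj (T : V → V → V → Prop) (x y : V) : Prop := ∃ z, T x y z

def vtx (T : V → V → V → Prop) (x : V) : Prop := ∃ y, adj T x y

open Classical in
noncomputable def darts [Fintype V] (T : V → V → V → Prop) : Finset (V × V) :=
  univ.filter fun d => adj T d.1 d.2

open Classical in
noncomputable def verts [Fintype V] (T : V → V → V → Prop) : Finset V := univ.filter (vtx T)

@[simp] lemma mem_darts [Fintype V] {T : V → V → V → Prop} {d : V × V} :
    d ∈ darts T ↔ adj T d.1 d.2 := by simp [darts]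

@[simp] lemma mem_verts [Fintype V] {T : V → V → V → Prop} {x : V} :
    x ∈ verts T ↔ vtx T x := by simp [verts]

/-- oriented triangulated spheres -/
structure Tri [Fintype V] (T : V → V → V → Prop) : Prop where
  rot : ∀ {x y z}, T x y z → T y z x
  ne : ∀ {x y z}, T x y z → x ≠ y
  uniq : ∀ {x y z w}, T x y z → T x y w → z = w
  opp : ∀ {x y z}, T x y z → adj T y x
  asym : ∀ {x y z}, T x y z → ¬ T x z y
  link : ∀ {x y y'}, adj T x y → adj T x y' → ReflTransGen (T x) y y'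
  conn : ∀ {x y}, vtx T x → vtx T y → ReflTransGen (adj T) x y
  euler : (darts T).card + 12 ≤ 6 * (verts T).card

variable [Fintype V] {T : V → V → V → Prop}

namespace Tri

lemma rot2 (hT : Tri T) {x y z : V} (h : T x y z) : T z x y := hT.rot (hT.rot h)
lemma ne2 (hT : Tri T) {x y z : V} (h : T x y z) : y ≠ z := hT.ne (hT.rot h)
lemma ne3 (hT : Tri T) {x y z : V} (h : T x y z) : z ≠ x := hT.ne (hT.rot2 h)
lemma uniq2 (hT : Tri T) {x y z w : V} (h : T x y z) (h' : T x w z) : y = w :=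
  hT.uniq (hT.rot2 h) (hT.rot2 h')
lemma symm (hT : Tri T) {x y : V} (h : adj T x y) : adj T y x := by
  obtain ⟨z, h⟩ := h; exact hT.opp h
lemma adj13 (hT : Tri T) {x y z : V} (h : T x y z) : adj T x z := hT.opp (hT.rot2 h)
lemma adj23 (hT : Tri T) {x y z : V} (h : T x y z) : adj T y z := ⟨x, hT.rot h⟩
lemma adj_ne (hT : Tri T) {x y : V} (h : adj T x y) : x ≠ y := by
  obtain ⟨z, h⟩ := h; exact hT.ne h
lemma pred (hT : Tri T) {x y : V} (h : adj T x y) : ∃ z, T x z y := by
  obtain ⟨z, h⟩ := hT.symm h; exact ⟨z, hT.rot h⟩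
lemma vtx1 (_ : Tri T) {x y z : V} (h : T x y z) : vtx T x := ⟨y, z, h⟩
lemma vtx2 (hT : Tri T) {x y z : V} (h : T x y z) : vtx T y := ⟨z, x, hT.rot h⟩
lemma vtx3 (hT : Tri T) {x y z : V} (h : T x y z) : vtx T z := ⟨x, y, hT.rot2 h⟩
lemma vtxr (hT : Tri T) {x y : V} (h : adj T x y) : vtx T y := ⟨x, hT.symm h⟩
lemma oppne (hT : Tri T) {x y z w : V} (h : T x y z) (h' : T y x w) : z ≠ w := by
  rintro rfl; exact hT.asym h (hT.rot h')

lemma deg3 (hT : Tri T) {x p q r y : V} (h1 : T x p q) (h2 : T x q r) (h3 : T x r p)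
    (h : adj T x y) : y = p ∨ y = q ∨ y = r := by
  have := hT.link ⟨_, h1⟩ h
  clear h
  induction this with
  | refl => exact Or.inl rfl
  | tail _ st ih =>
    rcases ih with rfl | rfl | rfl
    · exact Or.inr (Or.inl (hT.uniq st h1))
    · exact Or.inr (Or.inr (hT.uniq st h2))
    · exact Or.inl (hT.uniq st h3)

lemma tetra (hT : Tri T) {v a b e : V} (h1 : T v a b) (h2 : T v b e) (h3 : T v e a)
    (h4 : T a e b) : (verts T).card ≤ 4 := by
  classical
  have : verts T ⊆ {v, a, b, e} := by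
    intro x hx
    have := hT.conn (hT.vtx1 h1) (mem_verts.1 hx)
    clear hx
    simp only [mem_insert, mem_singleton]
    induction this with
    | refl => exact Or.inl rfl
    | tail _ st ih =>
      rcases ih with rfl | rfl | rfl | rfl
      · have := hT.deg3 h1 h2 h3 st; tauto
      · have := hT.deg3 (hT.rot2 h3) h4 (hT.rot h1) st; tauto
      · have := hT.deg3 (hT.rot2 h1) (hT.rot2 h4) (hT.rot h2) st; tauto
      · have := hT.deg3 (hT.rot h3) (hT.rot2 h2) (hT.rot h4) st; tauto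
  exact (card_le_card this).trans card_le_four

lemma arc (hT : Tri T) {c c' s t : V} (h1 : T c c' s) (h2 : T c t c') {R : V → V → Prop}
    (hR : ∀ y z, T c y z → y ≠ c' → z ≠ c' → R y z) {y : V} (hy : adj T c y) (hne : y ≠ c') :
    ReflTransGen R s y ∧ ReflTransGen R y t := by
  constructor
  · have := hT.link (hT.adj13 h1) hy
    clear hy
    induction this with
    | refl => exact .refl
    | @tail u w _ st ih =>
      by_cases hu : u = c'
      · subst hu; rw [hT.uniq st h1]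
      · exact (ih hu).tail (hR _ _ st hu hne)
  · have := hT.link hy ⟨_, h2⟩
    clear hy
    induction this using ReflTransGen.head_induction_on with
    | refl => exact .refl
    | @head u w st _ ih =>
      by_cases hw : w = c'
      · subst hw; rw [hT.uniq2 st h2]
      · exact (ih hw).head (hR _ _ st hne hw)

end Tri

variable [DecidableEq V]

/-- the contraction map -/
def pr (v a u : V) : V := if u = v then a else u

/-- the contracted triangulation -/
def con (T : V → V → V → Prop) (v a : V) (x y z : V) : Prop :=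
  x ≠ y ∧ y ≠ z ∧ z ≠ x ∧ ∃ x0 y0 z0, T x0 y0 z0 ∧ pr v a x0 = x ∧ pr v a y0 = y ∧ pr v a z0 = z

def contr (T : V → V → V → Prop) (v a : V) : Prop :=
  adj T v a ∧ ∀ x, adj T v x → adj T a x → T v a x ∨ T v x a

section
variable {v a : V}
omit [Fintype V]

lemma pr_v : pr v a v = a := by simp [pr]
lemma pr_ne {u : V} (h : u ≠ v) : pr v a u = u := by simp [pr, h]
lemma pr_a : pr v a a = a := by unfold pr; split_ifs <;> rfl
lemma pr_eq {x y : V} (h : pr v a x = pr v a y) : x = y ∨ (x = v ∧ y = a) ∨ (x = a ∧ y = v) := by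
  unfold pr at h; split_ifs at h <;> simp_all
lemma pr_eq_ne {x y : V} (h : pr v a x = y) (hy : y ≠ a) : x = y := by
  unfold pr at h; split_ifs at h <;> simp_all
lemma pr_eq_a {x : V} (h : pr v a x = a) : x = v ∨ x = a := by
  unfold pr at h; split_ifs at h <;> simp_all
lemma pr_ne_v (hva : v ≠ a) (x : V) : pr v a x ≠ v := by
  unfold pr; split_ifs <;> simp_all [eq_comm]

lemma con_of {x y z : V} (h : T x y z) (h1 : pr v a x ≠ pr v a y) (h2 : pr v a y ≠ pr v a z)
    (h3 : pr v a z ≠ pr v a x) : con T v a (pr v a x) (pr v a y) (pr v a z) :=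
  ⟨h1, h2, h3, x, y, z, h, rfl, rfl, rfl⟩
end

namespace Tri
variable {v a : V}

lemma con_rot (hT : Tri T) {x y z : V} (h : con T v a x y z) : con T v a y z x := by
  obtain ⟨h1, h2, h3, x0, y0, z0, h, e1, e2, e3⟩ := h
  exact ⟨h2, h3, h1, y0, z0, x0, hT.rot h, e2, e3, e1⟩

lemma con_adj (hT : Tri T) {x y : V} (h : adj T x y) (hne : pr v a x ≠ pr v a y) :
    adj (con T v a) (pr v a x) (pr v a y) := by
  obtain ⟨z, h⟩ := h
  have n3 := hT.ne3 h
  have n2 := hT.ne2 h
  by_cases e1 : pr v a z = pr v a x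
  · obtain ⟨w, hw⟩ := hT.opp (hT.rot h)
    have m1 := hT.oppne (hT.rot h) hw
    have m2 := hT.ne3 hw
    have m3 := hT.ne2 hw
    rw [← e1] at hne ⊢
    refine ⟨_, con_of hw hne (fun e => ?_) (fun e => ?_)⟩
    · rcases pr_eq e1 with h | h | h <;> rcases pr_eq e with h' | h' | h' <;>
        simp_all [pr_v, pr_a]
    · rcases pr_eq e1 with h | h | h <;> rcases pr_eq e with h' | h' | h' <;> simp_all
  by_cases e2 : pr v a y = pr v a z
  · obtain ⟨w, hw⟩ := hT.opp (hT.rot2 h)
    have m1 := hT.oppne (hT.rot2 h) hw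
    have m2 := hT.ne3 hw
    have m3 := hT.ne2 hw
    rw [e2] at hne ⊢
    refine ⟨_, con_of hw hne (fun e => ?_) (fun e => ?_)⟩
    · rcases pr_eq e2 with h | h | h <;> rcases pr_eq e with h' | h' | h' <;> simp_all
    · rcases pr_eq e2 with h | h | h <;> rcases pr_eq e with h' | h' | h' <;>
        simp_all [pr_v, pr_a]
  exact ⟨_, con_of h hne e2 e1⟩

lemma con_lift {x y : V} (h : adj (con T v a) x y) :
    x ≠ y ∧ ∃ x0 y0, adj T x0 y0 ∧ pr v a x0 = x ∧ pr v a y0 = y := by
  obtain ⟨z, h1, -, -, x0, y0, z0, h, e1, e2, -⟩ := h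
  exact ⟨h1, x0, y0, ⟨z0, h⟩, e1, e2⟩

lemma con_vtx (hT : Tri T) (hva : adj T v a) {x : V} :
    vtx (con T v a) x ↔ vtx T x ∧ x ≠ v := by
  constructor
  · rintro ⟨y, h⟩
    obtain ⟨n, x0, y0, h', rfl, rfl⟩ := con_lift h
    refine ⟨?_, pr_ne_v (hT.adj_ne hva) _⟩
    by_cases e : x0 = v
    · rw [e, pr_v]; exact hT.vtxr hva
    · rw [pr_ne e]; exact ⟨_, h'⟩
  · rintro ⟨⟨y, z, h⟩, hx⟩
    rw [← pr_ne (a := a) hx]
    by_cases e : pr v a x = pr v a y
    · refine ⟨_, hT.con_adj (hT.adj13 h) fun e' => ?_⟩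
      have := hT.ne h; have := hT.ne2 h; have := hT.ne3 h
      rcases pr_eq e with h | h | h <;> rcases pr_eq e' with h' | h' | h' <;> simp_all
    · exact ⟨_, hT.con_adj ⟨_, h⟩ e⟩

lemma con_verts (hT : Tri T) (hva : adj T v a) : verts (con T v a) = (verts T).erase v := by
  ext x; simp [hT.con_vtx hva, and_comm]

lemma con_v (hT : Tri T) {y z : V} (h : T v y z) (hy : y ≠ a) (hz : z ≠ a) : con T v a a y z := by
  have h1 := hT.ne h; have h2 := hT.ne2 h; have h3 := hT.ne3 h
  exact ⟨hy.symm, h2, hz, v, y, z, h, pr_v, pr_ne h1.symm, pr_ne h3⟩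

lemma con_id (hT : Tri T) {x y z : V} (h : T x y z) (hx : x ≠ v) (hy : y ≠ v) (hz : z ≠ v) :
    con T v a x y z :=
  ⟨hT.ne h, hT.ne2 h, hT.ne3 h, x, y, z, h, pr_ne hx, pr_ne hy, pr_ne hz⟩

lemma con_uniq (hT : Tri T) (hc : contr T v a) {x y z w : V} (h : con T v a x y z)
    (h' : con T v a x y w) : z = w := by
  obtain ⟨n1, n2, n3, x0, y0, z0, h, rfl, rfl, rfl⟩ := h
  obtain ⟨-, m2, m3, x1, y1, w1, h', e1, e2, rfl⟩ := h'
  rcases pr_eq e1 with rfl | ⟨rfl, rfl⟩ | ⟨rfl, rfl⟩
  · rcases pr_eq e2 with rfl | ⟨rfl, rfl⟩ | ⟨rfl, rfl⟩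
    · rw [hT.uniq h h']
    · rcases hc.2 x1 (hT.opp h') (hT.opp h) with k | k
      · exact absurd (by rw [hT.uniq h' (hT.rot2 k), pr_a]) m2
      · exact absurd (by rw [hT.uniq h (hT.rot k), pr_a, pr_v]) n2
    · rcases hc.2 x1 (hT.opp h) (hT.opp h') with k | k
      · exact absurd (by rw [hT.uniq h (hT.rot2 k), pr_a, pr_v]) n2
      · exact absurd (by rw [hT.uniq h' (hT.rot k)]) m2
  · rw [pr_a] at n1 n3 m3
    have : y1 = y0 := by
      rcases pr_eq e2 with k | k | k
      · exact k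
      · exact absurd (by rw [k.2, pr_a]) n1
      · exact absurd (by rw [k.2, pr_v]) n1
    subst this
    rcases hc.2 y1 ⟨_, h'⟩ ⟨_, h⟩ with k | k
    · exact absurd (by rw [hT.uniq h (hT.rot k), pr_v]) n3
    · exact absurd (by rw [hT.uniq h' k, pr_a]) m3
  · rw [pr_v] at n1 n3 m3
    have : y1 = y0 := by
      rcases pr_eq e2 with k | k | k
      · exact k
      · exact absurd (by rw [k.2, pr_a]) n1
      · exact absurd (by rw [k.2, pr_v]) n1
    subst this
    rcases hc.2 y1 ⟨_, h⟩ ⟨_, h'⟩ with k | k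
    · exact absurd (by rw [hT.uniq h' (hT.rot k), pr_v]) m3
    · exact absurd (by rw [hT.uniq h k, pr_a]) n3

lemma con_asym0 (hT : Tri T) (hc : contr T v a) (hn : 5 ≤ (verts T).card) {y z : V}
    (h : T v y z) (h' : T a z y) (hy : y ≠ a) (hz : z ≠ a) : False := by
  rcases hc.2 y ⟨_, h⟩ (hT.adj13 h') with k | k
  · rcases hc.2 z (hT.adj13 h) ⟨_, h'⟩ with j | j
    · exact hT.ne2 h (hT.uniq k j)
    · have := hT.tetra k h j h'; omega
  · exact hz (hT.uniq h k)

lemma con_asym (hT : Tri T) (hc : contr T v a) (hn : 5 ≤ (verts T).card) {x y z : V}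
    (h0 : con T v a x y z) : ¬ con T v a x z y := by
  have key : ∀ {x0 y0 z0 x1 y1 z1 : V}, T x0 y0 z0 → T x1 z1 y1 → pr v a y1 = pr v a y0 →
      pr v a z1 = pr v a z0 → pr v a y0 ≠ a → pr v a z0 ≠ a → pr v a x1 = pr v a x0 → False := by
    intro x0 y0 z0 x1 y1 z1 h h' e2 e3 n2 n3 e1
    have f2 : y1 = y0 := (pr_eq_ne e2 n2).trans (pr_eq_ne rfl n2).symm
    have f3 : z1 = z0 := (pr_eq_ne e3 n3).trans (pr_eq_ne rfl n3).symm
    subst f2 f3
    have g2 : y1 ≠ a := by rintro rfl; exact n2 pr_a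
    have g3 : z1 ≠ a := by rintro rfl; exact n3 pr_a
    rcases pr_eq e1 with rfl | ⟨rfl, rfl⟩ | ⟨rfl, rfl⟩
    · exact hT.asym h h'
    · exact hT.con_asym0 hc hn h' h g3 g2
    · exact hT.con_asym0 hc hn h h' g2 g3
  intro h0'
  obtain ⟨n1, n2, n3, x0, y0, z0, h, rfl, rfl, rfl⟩ := h0
  obtain ⟨-, -, -, x1, z1, y1, h', e1, e3, e2⟩ := h0'
  by_cases hy : pr v a y0 = a
  · exact key (hT.rot h) (hT.rot2 h') e3 e1
      (fun e => n2 (hy.trans e.symm)) (fun e => n1 (e.trans hy.symm)) e2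
  by_cases hz : pr v a z0 = a
  · exact key (hT.rot2 h) (hT.rot h') e1 e2 (fun e => n3 (hz.trans e.symm)) hy e3
  · exact key h h' e2 e3 hy hz e1

lemma con_link (hT : Tri T) (hva : adj T v a) {x y y' : V} (h0 : adj (con T v a) x y)
    (h0' : adj (con T v a) x y') : ReflTransGen (con T v a x) y y' := by
  obtain ⟨n, x0, y0, h, e1, rfl⟩ := con_lift h0
  obtain ⟨n', x1, y1, h', e1', rfl⟩ := con_lift h0'
  clear h0 h0'
  by_cases hx : x = a
  · subst hx
    obtain ⟨e, he⟩ := hT.symm hva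
    obtain ⟨b, hb⟩ := hva
    have A := fun y (hy : adj T v y) (hne : y ≠ x) =>
      hT.arc hb (hT.rot he) (R := con T v x x) (fun y z k h1 h2 => hT.con_v k h1 h2) hy hne
    have B := fun y (hy : adj T x y) (hne : y ≠ v) =>
      hT.arc he (hT.rot hb) (R := con T v x x)
        (fun y z k h1 h2 => hT.con_id k (hT.ne he) h1 h2) hy hne
    have be := (A e (hT.adj23 he) (hT.ne3 he)).1
    have eb := (B b (hT.adj23 hb) (hT.ne3 hb)).1
    have C : ∀ x0 y0, adj T x0 y0 → pr v x x0 = x → x ≠ pr v x y0 →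
        ReflTransGen (con T v x x) b (pr v x y0) ∧ ReflTransGen (con T v x x) (pr v x y0) b := by
      intro x2 y2 g g1 m
      have n1 : y2 ≠ v := by rintro rfl; exact m pr_v.symm
      rw [pr_ne n1] at m ⊢
      rcases pr_eq_a g1 with k | k <;> rw [k] at g
      · exact ⟨(A _ g m.symm).1, (A _ g m.symm).2.trans eb⟩
      · exact ⟨be.trans (B _ g n1).1, (B _ g n1).2⟩
    exact (C _ _ h e1 n).2.trans (C _ _ h' e1' n').1
  · obtain rfl := pr_eq_ne e1 hx
    obtain rfl := pr_eq_ne e1' hx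
    refine rtg_map (pr v a) (fun p q k => ?_) (hT.link h h')
    by_cases e : pr v a p = pr v a q
    · rw [e]
    · refine .single ?_
      have := con_of (v := v) (a := a) k (fun e' => ?_) e (fun e' => ?_)
      · rwa [e1] at this
      · rw [e1] at e'; exact hT.ne k (pr_eq_ne e'.symm hx).symm
      · rw [e1] at e'; exact hT.ne3 k (pr_eq_ne e' hx)

lemma con_darts (hT : Tri T) (hva : adj T v a) :
    (darts (con T v a)).card + 6 ≤ (darts T).card := by
  obtain ⟨e, he⟩ := hT.symm hva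
  obtain ⟨b, hb⟩ := hva
  have n1 := hT.ne hb; have n2 := hT.ne2 hb; have n3 := hT.ne3 hb
  have n4 := hT.ne2 he; have n5 := hT.ne3 he; have n6 := hT.oppne hb he
  set X : Finset (V × V) := {(v, a), (a, v), (v, b), (b, v), (v, e), (e, v)} with hX
  have hsub : X ⊆ darts T := by
    intro d hd
    simp only [hX, mem_insert, mem_singleton] at hd
    rcases hd with rfl | rfl | rfl | rfl | rfl | rfl <;> rw [mem_darts]
    exacts [⟨_, hb⟩, ⟨_, he⟩, hT.adj13 hb, ⟨_, hT.rot2 hb⟩, hT.adj23 he, hT.symm (hT.adj23 he)]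
  have hc : X.card = 6 := by
    rw [hX, card_insert_of_notMem, card_insert_of_notMem, card_insert_of_notMem,
      card_insert_of_notMem, card_insert_of_notMem, card_singleton] <;>
    simp [n1, n2, n3, n4, n5, n6, n1.symm, n2.symm, n3.symm, n4.symm, n5.symm, n6.symm]
  have : darts (con T v a) ⊆ (darts T \ X).image (Prod.map (pr v a) (pr v a)) := by
    rintro ⟨x, y⟩ hd
    obtain ⟨n, x0, y0, h, rfl, rfl⟩ := con_lift (mem_darts.1 hd)
    dsimp only at n
    by_cases hm : (x0, y0) ∈ X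
    · simp only [hX, mem_insert, mem_singleton, Prod.mk.injEq] at hm
      have ab := hT.adj23 hb
      have ae := hT.adj13 he
      rcases hm with ⟨rfl, rfl⟩ | ⟨rfl, rfl⟩ | ⟨rfl, rfl⟩ | ⟨rfl, rfl⟩ | ⟨rfl, rfl⟩ | ⟨rfl, rfl⟩
      · exact absurd (by rw [pr_a, pr_v]) n
      · exact absurd (by rw [pr_a, pr_v]) n
      · exact mem_image.2 ⟨(a, y0), by simp [hX, ab, n1.symm, n2.symm, n3, n5.symm], by
          simp [pr_a, pr_v]⟩
      · exact mem_image.2 ⟨(x0, a), by simp [hX, hT.symm ab, n1.symm, n3], by simp [pr_a, pr_v]⟩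
      · exact mem_image.2 ⟨(a, y0), by simp [hX, ae, n1.symm, n4.symm], by simp [pr_a, pr_v]⟩
      · exact mem_image.2 ⟨(x0, a), by simp [hX, hT.symm ae, n1.symm, n4.symm], by
          simp [pr_a, pr_v]⟩
    · exact mem_image.2 ⟨(x0, y0), mem_sdiff.2 ⟨mem_darts.2 h, hm⟩, rfl⟩
  have := (card_le_card this).trans card_image_le
  rw [card_sdiff_of_subset hsub, hc] at this
  have := card_le_card hsub
  omega

theorem con_tri (hT : Tri T) (hc : contr T v a) (hn : 5 ≤ (verts T).card) : Tri (con T v a) where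
  rot := hT.con_rot
  ne := fun h => h.1
  uniq := hT.con_uniq hc
  opp := by
    rintro _ _ _ ⟨n1, -, -, x0, y0, z0, h, rfl, rfl, rfl⟩
    exact hT.con_adj (hT.opp h) n1.symm
  asym := hT.con_asym hc hn
  link := hT.con_link hc.1
  conn := by
    intro x y hx hy
    rw [hT.con_vtx hc.1] at hx hy
    have := rtg_map (p := adj (con T v a)) (pr v a) (fun p q k => by
      by_cases e : pr v a p = pr v a q
      · rw [e]
      · exact .single (hT.con_adj k e)) (hT.conn hx.1 hy.1)
    rwa [pr_ne hx.2, pr_ne hy.2] at this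
  euler := by
    have := hT.con_darts hc.1
    have := hT.euler
    rw [hT.con_verts hc.1, card_erase_of_mem (mem_verts.2 ⟨_, hc.1⟩)]
    omega

end Tri

end Pool.Agent.Lib.MP_d5dfc1_co.QP
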