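import Pool.Agent.Lib.MP_d5dfc1_co.QpVec2
import Pool.Agent.Lib.MP_d5dfc1_co.QpTri

namespace Pool.Agent.Lib.MP_d5dfc1_co.QP

open Pool.Agent.Lib.MP_d5dfc1_co Relation

set_option linter.unusedSectionVars false
set_option linter.unusedVariables false

variable {V : Type*}

/-- quantitative convex realization -/
structure Good (T : V → V → V → Prop) (p : V → V3) (B : Set V) (l h h' R : ℝ) : Prop where
  nrm : ∀ {x}, vtx T x → ‖p x‖ ≤ R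
  pos : ∀ {x y z}, T x y z → 0 < det3 (p x) (p y) (p z)
  qn : ∀ {x y z}, T x y z → ‖Qv (p x) (p y) (p z)‖ ≤ 1
  cvx : ∀ {x y z u}, T x y z → vtx T u → u ≠ x → u ≠ y → u ≠ z →
    dot (Qv (p x) (p y) (p z)) (p u) < 1
  len : ∀ {x y z w}, T x y z → T y x w → l / 8 ≤ ‖Qv (p x) (p y) (p z) - Qv (p y) (p x) (p w)‖
  len' : ∀ {x y z w}, T x y z → T y x w → x ∉ B →
    l ≤ ‖Qv (p x) (p y) (p z) - Qv (p y) (p x) (p w)‖
  fat : ∀ {x y z}, T x y z → h' * Sz (p x) (p y) (p z) ≤ det3 (p x) (p y) (p z)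
  fat' : ∀ {x y z}, T x y z → x ∉ B → h * Sz (p x) (p y) (p z) ≤ det3 (p x) (p y) (p z)

variable [Fintype V] {T T' : V → V → V → Prop} {p : V → V3} {B : Set V} {l h h' R : ℝ}

lemma Good.d1 (G : Good T p B l h h' R) {x y z : V} (t : T x y z) :
    dot (Qv (p x) (p y) (p z)) (p x) = 1 := Qv_dot1 (G.pos t).ne'
lemma Good.d2 (G : Good T p B l h h' R) {x y z : V} (t : T x y z) :
    dot (Qv (p x) (p y) (p z)) (p y) = 1 := Qv_dot2 (G.pos t).ne'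
lemma Good.d3 (G : Good T p B l h h' R) {x y z : V} (t : T x y z) :
    dot (Qv (p x) (p y) (p z)) (p z) = 1 := Qv_dot3 (G.pos t).ne'

lemma Good.le (G : Good T p B l h h' R) {x y z u : V} (t : T x y z) (hu : vtx T u) :
    dot (Qv (p x) (p y) (p z)) (p u) ≤ 1 := by
  by_cases h1 : u = x
  · rw [h1, G.d1 t]
  by_cases h2 : u = y
  · rw [h2, G.d2 t]
  by_cases h3 : u = z
  · rw [h3, G.d3 t]
  exact (G.cvx t hu h1 h2 h3).le

lemma Good.slack (hT : Tri T) (G : Good T p B l h h' R) (hl : 0 ≤ l) {u : V} (hu : vtx T u)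
    {k : ℝ} (hk : 0 ≤ k)
    (hf : ∀ y z, T u y z → k * Sz (p u) (p y) (p z) ≤ det3 (p u) (p y) (p z))
    {x y z : V} (t : T x y z) (n1 : u ≠ x) (n2 : u ≠ y) (n3 : u ≠ z) :
    dot (Qv (p x) (p y) (p z)) (p u) ≤ 1 - l * k / 8 := by
  obtain ⟨⟨x0, y0, z0⟩, ⟨t0, m1, m2, m3⟩, hm⟩ := Set.exists_max_image
    {τ : V × V × V | T τ.1 τ.2.1 τ.2.2 ∧ u ≠ τ.1 ∧ u ≠ τ.2.1 ∧ u ≠ τ.2.2}
    (fun τ => dot (Qv (p τ.1) (p τ.2.1) (p τ.2.2)) (p u)) (Set.toFinite _)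
    ⟨(x, y, z), t, n1, n2, n3⟩
  dsimp only at t0 m1 m2 m3 hm
  set M := dot (Qv (p x0) (p y0) (p z0)) (p u) with hM
  have key : ∀ x y z, T x y z → u ≠ x → u ≠ y → u ≠ z → dot (Qv (p x) (p y) (p z)) (p u) = M →
      det3 (p y) (p z) (p u) < 0 → M ≤ 1 - l * k / 8 := by
    intro x y z t n1 n2 n3 e neg
    obtain ⟨w, hw⟩ := hT.opp (hT.rot t)
    have s := slope_sign (W := p u) (G.pos (hT.rot t)) (G.d2 hw) (G.d1 hw)
    have g := G.cvx hw (hT.vtx1 t) (hT.ne3 t).symm (hT.ne t) (hT.oppne (hT.rot t) hw)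
    rw [Qv_rot, e] at s
    have lt : M < dot (Qv (p z) (p y) (p w)) (p u) := by
      have := mul_neg_of_pos_of_neg (sub_pos.2 g) neg
      rw [← s] at this
      have := neg_of_mul_neg_right this (G.pos (hT.rot t)).le
      linarith
    by_cases e' : u = w
    · subst e'
      have := gap (l := l / 8) (by positivity) (G.pos (hT.rot2 hw)) (hf _ _ (hT.rot2 hw)) hk
        (G.d3 t) (G.d2 t) (G.le t hu) (by
          have := G.len hw (hT.rot t)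
          rwa [Qv_rot (p x), Qv_rot (p u)] at this)
      rw [e] at this; linarith
    · exact absurd (hm (z, y, w) ⟨hw, n3, n2, e'⟩) (not_le.2 lt)
  refine (hm (x, y, z) ⟨t, n1, n2, n3⟩).trans ?_
  obtain ⟨y1, z1, t1⟩ := hu
  rcases cone_neg (G.pos t0) (G.cvx t0 ⟨_, _, t1⟩ m1 m2 m3) (G.d1 t1) (G.le t1 (hT.vtx1 t0))
    (G.le t1 (hT.vtx2 t0)) (G.le t1 (hT.vtx3 t0)) with c | c | c
  · exact key _ _ _ t0 m1 m2 m3 rfl c
  · exact key _ _ _ (hT.rot t0) m2 m3 m1 (by rw [Qv_rot]) c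
  · exact key _ _ _ (hT.rot2 t0) m3 m1 m2 (by rw [← Qv_rot]) c

structure Mid (T : V → V → V → Prop) (p : V → V3) (a s : V) (c : V3) (l : ℝ) : Prop where
  ca : dot c (p a) = 1
  cs : dot c (p s) = 1
  lt : ∀ u, vtx T u → u ≠ a → u ≠ s → dot c (p u) < 1
  nrm : ‖c‖ ≤ 1
  d1 : ∀ y, T a s y → l / 3 ≤ ‖Qv (p a) (p s) (p y) - c‖
  d2 : ∀ y, T a y s → l / 3 ≤ ‖Qv (p a) (p y) (p s) - c‖

lemma Good.mid (hT : Tri T) (G : Good T p B l h h' R) {a s : V} (ha : a ∉ B) (hs : adj T a s)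
    (c0 : V3) : ∃ c, Mid T p a s c l ∧ l / 6 ≤ ‖c0 - c‖ := by
  obtain ⟨y0, t0⟩ := hT.pred hs
  obtain ⟨y1, t1⟩ := hs
  have L := G.len' t1 (hT.rot2 t0) ha
  rw [← Qv_rot (p s)] at L
  obtain ⟨t, a1, a2, a3⟩ := third _ _ c0 L
  obtain ⟨b1, b2⟩ := mid_dist _ _ L a1 a2
  refine ⟨_, ⟨?_, ?_, fun u hu n1 n2 => ?_, ?_, fun y t => ?_, fun y t => ?_⟩, a3⟩
  · rw [conv_dot, G.d1 t0, G.d1 t1]; ring
  · rw [conv_dot, G.d3 t0, G.d2 t1]; ring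
  · rw [conv_dot]
    have e0 := G.le t0 hu
    have e1 := G.le t1 hu
    by_cases e : u = y1
    · have := G.cvx t0 hu n1 (e ▸ hT.oppne t1 (hT.rot2 t0)) n2
      nlinarith
    · have := G.cvx t1 hu n1 n2 e
      nlinarith
  · exact conv_norm (by linarith) (by linarith) (G.qn t0) (G.qn t1)
  · rw [hT.uniq t t1]; exact b1
  · rw [hT.uniq2 t t0]; exact b2

lemma half (hT : Tri T) (hT' : Tri T') (G : Good T' p B l h h' R) {a c c' s t : V} (ha : a ∉ B)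
    {σ : ℝ} (hσ : 0 < σ) (hσ1 : σ < 1) (hl : 0 < l) (hl1 : l ≤ 1) (hh : 0 < h) (hh1 : h ≤ 1)
    (t1 : T c c' s) (t2 : T c t c') (st : ∀ y z, T c y z → y ≠ c' → z ≠ c' → T' a y z)
    {cs ct : V3} (Ms : Mid T' p a s cs l) (Mt : Mid T' p a t ct l) :
    ∃ ε Δ : ℝ, 0 < ε ∧ 0 < Δ ∧ ε * Δ = σ * l * h / 48 ∧ 0 < det3 (p a) (p s) (cross ct cs) ∧
      (∃ y z, T' a y z ∧ Δ = dot (Qv (p a) (p y) (p z)) (cross ct cs)) ∧
      (∀ y z, T c y z → y ≠ c' → z ≠ c' → Side (p a) (p y) (p z) (ε • cross ct cs) σ l h R ∧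
        0 < dot (Qv (p a) (p y) (p z)) (cross ct cs)) ∧
      ∀ r, (∀ u, vtx T' u → dot r (p u) ≤ 1) → dot r (p a) ≤ 1 - l * h / 8 →
        dot r (p a + ε • cross ct cs) < 1 := by
  set w := cross ct cs with hw
  have nst : s ≠ t := hT.oppne t1 (hT.rot2 t2)
  obtain ⟨y1, u1⟩ := hT.adj13 t1
  have u1' : T' a s y1 := st _ _ u1 (hT.ne2 t1).symm (fun e => nst (hT.uniq2 (e ▸ u1) t2))
  obtain ⟨y0, u0⟩ := hT.pred ⟨_, t2⟩
  have u0' : T' a y0 t := st _ _ u0 (fun e => nst (hT.uniq t1 (e ▸ u0))) (hT.ne2 t2)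
  have vs := hT'.vtx2 u1'
  have vt := hT'.vtx3 u0'
  have cts := Mt.lt s vs (hT'.ne u1').symm nst
  have cst := Ms.lt t vt (hT'.ne3 u0') nst.symm
  have ws : dot cs w = 0 := dot_cross_self2 _ _
  have wt : dot ct w = 0 := dot_cross_self1 _ _
  have dw : 0 < det3 (p a) (p s) w := by rw [hw, det_cc, Mt.ca, Ms.cs, Ms.ca]; linarith
  have base : ∀ z, T' a s z → 0 < dot (Qv (p a) (p s) (p z)) w := fun z k => by
    have e := slope_sign (W := w) (G.pos k) Ms.ca Ms.cs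
    have := mul_pos (sub_pos.2 (Ms.lt z (hT'.vtx3 k) (hT'.ne3 k) (hT'.ne2 k).symm)) dw
    rw [← e, ws, sub_zero] at this
    exact (pos_iff_pos_of_mul_pos this).1 (G.pos k)
  have sgn : ∀ y z, T c y z → y ≠ c' → z ≠ c' → 0 < dot (Qv (p a) (p y) (p z)) w := by
    intro y z k n1 n2
    have := (hT.arc t1 t2 (R := fun y z => T c y z ∧ y ≠ c' ∧ z ≠ c')
      (fun y z a b c => ⟨a, b, c⟩) ⟨_, k⟩ n1).1
    clear n1
    induction this generalizing z with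
    | refl => exact base z (by rw [hT.uniq k u1]; exact u1')
    | @tail x y _ sp ih =>
      have k' := st _ _ k sp.2.2 n2
      have j := st _ _ sp.1 sp.2.1 sp.2.2
      have ys : y ≠ s := fun e => sp.2.1 (hT.uniq2 (e ▸ sp.1) t1)
      have yt : y ≠ t := fun e => n2 (hT.uniq (e ▸ k) t2)
      exact nocross Ms.ca Mt.ca Ms.cs Mt.cs cst cts (Ms.lt y (hT'.vtx2 k') (hT'.ne3 j) ys)
        (Mt.lt y (hT'.vtx2 k') (hT'.ne3 j) yt) (G.d1 j) (G.d3 j) (G.le j vs) (G.le j vt)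
        (G.d1 k') (G.d2 k') (G.le k' vs) (G.le k' vt) (ih _ sp.1 sp.2.2)
  obtain ⟨⟨ym, zm⟩, ⟨k0, m1, m2⟩, hm⟩ := Set.exists_max_image
    {d : V × V | T c d.1 d.2 ∧ d.1 ≠ c' ∧ d.2 ≠ c'}
    (fun d => dot (Qv (p a) (p d.1) (p d.2)) w) (Set.toFinite _)
    ⟨(s, y1), u1, (hT.ne2 t1).symm, fun e => nst (hT.uniq2 (e ▸ u1) t2)⟩
  dsimp only at k0 m1 m2 hm
  set Δ := dot (Qv (p a) (p ym) (p zm)) w with hΔ
  have Δ0 : 0 < Δ := sgn _ _ k0 m1 m2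
  have R1 : ∀ y z, T c y z → y ≠ c' → z ≠ c' → ∃ r, dot r (p a) = 1 ∧ dot r (p y) = 1 ∧
      dot r (p z) < 1 ∧ l / 3 ≤ ‖Qv (p a) (p y) (p z) - r‖ ∧ 0 ≤ dot r w ∧ dot r w ≤ Δ := by
    intro y z k n1 n2
    have k' := st _ _ k n1 n2
    by_cases e : y = s
    · subst e
      exact ⟨cs, Ms.ca, Ms.cs, Ms.lt z (hT'.vtx3 k') (hT'.ne3 k') (hT'.ne2 k').symm, Ms.d1 z k',
        ws.ge, ws.le.trans Δ0.le⟩
    · obtain ⟨x, j⟩ := hT.pred ⟨_, k⟩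
      have nx : x ≠ c' := fun e' => e (hT.uniq (e' ▸ j) t1)
      have j' := st _ _ j nx n1
      refine ⟨_, G.d1 j', G.d3 j', G.cvx j' (hT'.vtx3 k') (hT'.ne3 k')
        (hT'.oppne k' (hT'.rot2 j')) (hT'.ne2 k').symm, ?_, (sgn _ _ j nx n1).le,
        hm (x, y) ⟨j, nx, n1⟩⟩
      have := G.len' k' (hT'.rot2 j') ha
      rw [← Qv_rot (p y)] at this; linarith
  have R2 : ∀ y z, T c y z → y ≠ c' → z ≠ c' → ∃ r, dot r (p a) = 1 ∧ dot r (p z) = 1 ∧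
      dot r (p y) < 1 ∧ l / 3 ≤ ‖Qv (p a) (p y) (p z) - r‖ ∧ 0 ≤ dot r w ∧ dot r w ≤ Δ := by
    intro y z k n1 n2
    have k' := st _ _ k n1 n2
    by_cases e : z = t
    · subst e
      exact ⟨ct, Mt.ca, Mt.cs, Mt.lt y (hT'.vtx2 k') (hT'.ne k').symm (hT'.ne2 k'), Mt.d2 y k',
        wt.ge, wt.le.trans Δ0.le⟩
    · obtain ⟨x, j⟩ := hT.adj13 k
      have nx : x ≠ c' := fun e' => e (hT.uniq2 (e' ▸ j) t2)
      have j' := st _ _ j n2 nx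
      refine ⟨_, G.d1 j', G.d2 j', G.cvx j' (hT'.vtx2 k') (hT'.ne k').symm (hT'.ne2 k')
        (hT'.oppne j' (hT'.rot2 k')).symm, ?_, (sgn _ _ j n2 nx).le, hm (z, x) ⟨j, n2, nx⟩⟩
      have := G.len' j' (hT'.rot2 k') ha
      rw [← Qv_rot (p z), norm_sub_rev] at this; linarith
  set η := σ * l * h / 48 with hη
  have η0 : 0 < η := by positivity
  have εΔ : η / Δ * Δ = η := div_mul_cancel₀ _ Δ0.ne'
  set ε := η / Δ with hε
  have ε0 : 0 < ε := by positivity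
  have bd : ∀ {x : ℝ}, 0 ≤ x → x ≤ Δ → 0 ≤ ε * x ∧ ε * x ≤ η := fun h1 h2 =>
    ⟨by positivity, εΔ ▸ mul_le_mul_of_nonneg_left h2 ε0.le⟩
  have SD : ∀ y z, T c y z → y ≠ c' → z ≠ c' → Side (p a) (p y) (p z) (ε • w) σ l h R := by
    intro y z k n1 n2
    have k' := st _ _ k n1 n2
    obtain ⟨r1, a1, a2, -, a4, a5, a6⟩ := R1 y z k n1 n2
    obtain ⟨r2, b1, b2, -, b4, b5, b6⟩ := R2 y z k n1 n2
    have q := bd (sgn _ _ k n1 n2).le (hm (y, z) ⟨k, n1, n2⟩)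
    have q1 := bd a5 a6
    have q2 := bd b5 b6
    refine side hσ hσ1 hl hl1 hh hh1 (G.pos k') (G.fat' k' ha) (G.nrm (hT'.vtx1 k'))
      (G.nrm (hT'.vtx2 k')) (G.nrm (hT'.vtx3 k'))
      (slope (G.d1 k') (G.d2 k') a1 a2 a4 ?_) (slope (G.d3 k') (G.d1 k') b2 b1 b4 ?_) ?_ ?_
    · rw [dot_smul_r, dot_smul_r, abs_le]; constructor <;> linarith [q.1, q.2, q1.1, q1.2]
    · rw [dot_smul_r, dot_smul_r, abs_le]; constructor <;> linarith [q.1, q.2, q2.1, q2.2]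
    · rw [dot_smul_r]; exact q.1
    · rw [dot_smul_r]; exact q.2
  refine ⟨ε, Δ, ε0, Δ0, εΔ, dw, ⟨ym, zm, st _ _ k0 m1 m2, rfl⟩,
    fun y z k n1 n2 => ⟨SD y z k n1 n2, sgn y z k n1 n2⟩, fun r r1 r2 => ?_⟩
  have k' := st _ _ k0 m1 m2
  obtain ⟨r1', a1, a2, a3, -, -, a6⟩ := R1 _ _ k0 m1 m2
  obtain ⟨r2', b1, b2, b3, -, -, b6⟩ := R2 _ _ k0 m1 m2
  refine (SD _ _ k0 m1 m2).far ?_ ?_ r (r1 _ (hT'.vtx2 k')) (r1 _ (hT'.vtx3 k')) r2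
  · have e := slope_sign (W := ε • w) (G.pos k') a1 a2
    rw [dot_smul_r, dot_smul_r, ← mul_sub] at e
    have := mul_nonneg (G.pos k').le (mul_nonneg ε0.le (sub_nonneg.2 a6))
    rw [e] at this
    exact nonneg_of_mul_nonneg_right this (sub_pos.2 a3)
  · have e := slope_sign' (W := ε • w) (G.pos k') b1 b2
    rw [dot_smul_r, dot_smul_r, ← mul_sub] at e
    have := mul_nonneg (G.pos k').le (mul_nonneg ε0.le (sub_nonneg.2 b6))
    rw [e] at this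
    exact nonneg_of_mul_nonneg_right this (sub_pos.2 b3)

end Pool.Agent.Lib.MP_d5dfc1_co.QP
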