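import Pool.Agent.Lib.MP_d5dfc1_co.QpJordan

namespace Pool.Agent.Lib.MP_d5dfc1_co.QP

open Relation Finset

set_option linter.unusedSectionVars false
set_option linter.unusedVariables false
set_option linter.unusedSimpArgs false

variable {V : Type*} [Fintype V] [LinearOrder V] {T : V → V → V → Prop}

structure Cyc (T : V → V → V → Prop) (v : V) (y : ℕ → V) (d : ℕ) : Prop where
  st : ∀ i, T v (y i) (y (i + 1))
  inj : ∀ i j, i < j → j < i + d → y i ≠ y j
  per : ∀ i, y (i + d) = y i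
  all : ∀ u, adj T v u → ∀ i, ∃ j, i ≤ j ∧ j < i + d ∧ u = y j

lemma Tri.cyc (hT : Tri T) {v y0 : V} (h : adj T v y0) : ∃ y d, y 0 = y0 ∧ Cyc T v y d := by
  have per : ∀ i, (nx T v)^[i + Function.minimalPeriod (nx T v) y0] y0 = (nx T v)^[i] y0 :=
    fun i => by rw [Function.iterate_add_apply, Function.iterate_minimalPeriod]
  have ad : ∀ i, adj T v ((nx T v)^[i] y0) := fun i => by
    induction i with
    | zero => exact h
    | succ i ih => rw [Function.iterate_succ_apply']; exact hT.adj13 (nx_spec ih)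
  have d0 := Function.minimalPeriod_pos_of_mem_periodicPts ((hT.nx_inj v).mem_periodicPts y0)
  refine ⟨fun i => (nx T v)^[i] y0, Function.minimalPeriod (nx T v) y0, rfl, fun i => ?_,
    fun i j h1 h2 e => ?_, per, fun u hu i => ?_⟩
  · rw [Function.iterate_succ_apply']; exact nx_spec (ad i)
  · obtain ⟨k, rfl⟩ := Nat.exists_eq_add_of_lt h1
    rw [add_assoc, Function.iterate_add_apply] at e
    have := Function.IsPeriodicPt.minimalPeriod_le (Nat.succ_pos k)
      ((hT.nx_inj v).iterate i e).symm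
    omega
  · induction i with
    | zero =>
      have : ∃ k, u = (nx T v)^[k] y0 := by
        have := hT.link h hu
        clear hu
        induction this with
        | refl => exact ⟨0, rfl⟩
        | tail _ t ih =>
          obtain ⟨k, rfl⟩ := ih
          exact ⟨k + 1, by rw [Function.iterate_succ_apply', hT.nx_eq t]⟩
      obtain ⟨k, rfl⟩ := this
      exact ⟨_, Nat.zero_le _, by simpa using Nat.mod_lt k d0,
        Function.iterate_mod_minimalPeriod_eq.symm⟩
    | succ i ih =>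
      obtain ⟨j, h1, h2, rfl⟩ := ih
      rcases h1.eq_or_lt with rfl | h1
      · exact ⟨_, by omega, by omega, (per i).symm⟩
      · exact ⟨j, h1, by omega, rfl⟩

lemma Tri.sep (hT : Tri T) {v : V} {y : ℕ → V} {d : ℕ} (C : Cyc T v y d) {i k j l : ℕ}
    (h1 : i < k) (h2 : k < j) (h3 : j < l) (h4 : l < i + d) (h : adj T (y i) (y j)) :
    ¬ adj T (y k) (y l) ∧
      ∀ u, adj T (y k) u → adj T (y l) u → u = v ∨ u = y i ∨ u = y j := by
  have ad : ∀ m, adj T v (y m) := fun m => ⟨_, C.st m⟩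
  obtain ⟨R, hR, e⟩ := hT.jordan (c := ed v (y i) + ed (y i) (y j) + ed (y j) v)
    (add_mem (add_mem (hT.ed_mem (ad i)) (hT.ed_mem h)) (hT.ed_mem (hT.symm (ad j)))) (by
      rw [map_add, map_add, bd1_ed, bd1_ed, bd1_ed]
      ext x
      simp only [Pi.add_apply, Pi.zero_apply]
      generalize (Pi.single v 1 : V → F2) x = a
      generalize (Pi.single (y i) 1 : V → F2) x = b
      generalize (Pi.single (y j) 1 : V → F2) x = c
      revert a b c; decide)
  have e' : ∀ x x', R x x' + R x' x = ed v (y i) x x' + ed (y i) (y j) x x' + ed (y j) v x x' :=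
    fun x x' => congrFun (congrFun e x) x'
  have B : ∀ x, x ≠ v → x ≠ y i → x ≠ y j → ∀ p, R x p = R p x := fun x n1 n2 n3 p =>
    F2_add_eq_zero.1 (by rw [e']; simp [ed, n1, n2, n3])
  have A : ∀ x, x ≠ v → x ≠ y i → x ≠ y j → ∀ p q, adj T x p → adj T x q → R x p = R x q := by
    intro x n1 n2 n3 p q hp hq
    have := hT.link hp hq
    clear hq
    induction this with
    | refl => rfl
    | tail _ t ih => rw [ih, hR.1 _ _ _ t, hR.1 _ _ _ (hT.rot t), ← B x n1 n2 n3]
  have nv : ∀ m, y m ≠ v := fun m => (hT.adj_ne (ad m)).symm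
  have stp : ∀ m, R (y (m + 1)) v = R v (y m) := fun m => hR.1 _ _ _ (hT.rot2 (C.st m))
  have s1 : ∀ m, i ≤ m → m < j → R v (y m) = R v (y i) := by
    intro m a b
    induction m, a using Nat.le_induction with
    | base => rfl
    | succ m a ih =>
      rw [← B _ (nv _) (C.inj _ _ (by omega) (by omega)).symm (C.inj _ _ (by omega) (by omega)),
        stp, ih (by omega)]
  have s2 : ∀ m, j ≤ m → m < i + d → R v (y m) = R v (y j) := by
    intro m a b
    induction m, a using Nat.le_induction with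
    | base => rfl
    | succ m a ih =>
      rw [← B _ (nv _) (C.inj _ _ (by omega) (by omega)).symm
        (C.inj _ _ (by omega) (by omega)).symm, stp, ih (by omega)]
  have s3 : R v (y j) ≠ R v (y i) := by
    obtain ⟨m, rfl⟩ : ∃ m, j = m + 1 := ⟨j - 1, by omega⟩
    have := e' v (y (m + 1))
    have n := C.inj i (m + 1) (by omega) (by omega)
    rw [stp, s1 m (by omega) (by omega)] at this
    intro k
    rw [k, F2_add_self] at this
    simp [ed, n, n.symm, nv, (nv _).symm] at this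
  have k1 := (C.inj i k h1 (by omega)).symm
  have k2 := C.inj k j h2 (by omega)
  have l1 := (C.inj i l (by omega) h4).symm
  have l2 := (C.inj j l h3 (by omega)).symm
  have fin : R (y k) v ≠ R (y l) v := by
    rw [B _ (nv k) k1 k2, B _ (nv l) l1 l2, s1 k h1.le h2, s2 l h3.le h4]; exact s3.symm
  refine ⟨fun a => fin ?_, fun u a b => ?_⟩
  · rw [A _ (nv k) k1 k2 _ _ (hT.symm (ad k)) a, B _ (nv k) k1 k2,
      A _ (nv l) l1 l2 _ _ (hT.symm a) (hT.symm (ad l))]
  · by_contra n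
    push Not at n
    apply fin
    rw [A _ (nv k) k1 k2 _ _ (hT.symm (ad k)) a, B _ (nv k) k1 k2,
      A u n.1 n.2.1 n.2.2 _ _ (hT.symm a) (hT.symm b), B u n.1 n.2.1 n.2.2,
      A _ (nv l) l1 l2 _ _ b (hT.symm (ad l))]

lemma Tri.ear (hT : Tri T) {v : V} {y : ℕ → V} {d : ℕ} (C : Cyc T v y d) (m : ℕ) :
    ∀ i j, j - i ≤ m → i + 1 < j → j < i + d → adj T (y i) (y j) →
      ∃ k, i < k ∧ k < j ∧ contr T v (y k) := by
  induction m with
  | zero => intro i j h1 h2; omega
  | succ m ih =>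
    intro i j h1 h2 h3 h
    by_cases c : contr T v (y (i + 1))
    · exact ⟨i + 1, by omega, h2, c⟩
    · simp only [contr, not_and, not_forall, not_or] at c
      obtain ⟨x, a1, a2, a3, a4⟩ := c ⟨_, C.st _⟩
      obtain ⟨l, l1, l2, rfl⟩ := C.all x a1 i
      have n1 : l ≠ i := by rintro rfl; exact a4 (C.st _)
      have n2 : l ≠ i + 1 := by rintro rfl; exact hT.adj_ne a2 rfl
      have n3 : l ≠ i + 2 := by rintro rfl; exact a3 (C.st _)
      have n4 : l ≤ j := by
        by_contra n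
        exact (hT.sep C (Nat.lt_succ_self i) h2 (not_le.1 n) l2 h).1 a2
      obtain ⟨k, k1, k2, k3⟩ := ih (i + 1) l (by omega) (by omega) (by omega) a2
      exact ⟨k, by omega, by omega, k3⟩

lemma Tri.dich (hT : Tri T) {v : V} (hv : vtx T v) :
    (∃ a b c, a ≠ b ∧ b ≠ c ∧ c ≠ a ∧ contr T v a ∧ contr T v b ∧ contr T v c) ∨
    ∃ a b, a < b ∧ contr T v a ∧ contr T v b ∧
      ∃ p q r, ∀ u, adj T a u → adj T b u → u = p ∨ u = q ∨ u = r := by
  by_cases h : ∀ a, adj T v a → contr T v a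
  · obtain ⟨p, q, t⟩ := hv
    obtain ⟨r, t'⟩ := hT.adj13 t
    exact Or.inl ⟨p, q, r, hT.ne2 t, hT.ne2 t', by rintro rfl; exact hT.asym t t', h _ ⟨_, t⟩,
      h _ ⟨_, t'⟩, h _ (hT.adj13 t')⟩
  · right
    push Not at h
    obtain ⟨y0, h0, c⟩ := h
    obtain ⟨y, d, rfl, C⟩ := hT.cyc h0
    simp only [contr, not_and, not_forall, not_or] at c
    obtain ⟨x, a1, a2, a3, a4⟩ := c h0
    obtain ⟨l, -, l2, rfl⟩ := C.all x a1 0
    have per : y d = y 0 := by simpa using C.per 0
    have n2 : l ≠ 0 := by rintro rfl; exact hT.adj_ne a2 rfl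
    have n3 : l ≠ 1 := by rintro rfl; exact a3 (C.st _)
    have n1 : l + 1 ≠ d := by rintro rfl; exact a4 (per ▸ C.st l)
    obtain ⟨k, k1, k2, k3⟩ := hT.ear C _ 0 l le_rfl (by omega) l2 a2
    obtain ⟨k', j1, j2, j3⟩ := hT.ear C _ l d le_rfl (by omega) (by omega) (per ▸ hT.symm a2)
    have s := (hT.sep C k1 k2 j1 (by omega) a2).2
    rcases lt_or_gt_of_ne (C.inj k k' (by omega) (by omega)) with o | o
    · exact ⟨_, _, o, k3, j3, _, _, _, s⟩
    · exact ⟨_, _, o, j3, k3, _, _, _, fun u a b => s u b a⟩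

lemma two {c : V → V → F2} (h0 : bd1 c = 0) {x y : V} (h : c x y ≠ 0) :
    ∃ y', y' ≠ y ∧ c x y' ≠ 0 := by
  by_contra n
  push Not at n
  have := congrFun h0 x
  rw [bd1_apply, sum_eq_single y (fun b _ hb => n b hb) (by simp)] at this
  exact h this

lemma walk {H : Finset (V × V)} {U S : Finset V} (hd : Disjoint U S)
    (hH : ∀ d ∈ H, d.1 ∈ U ∧ d.2 ∈ S) {c : V → V → F2}
    (hc : c ∈ C1 fun x y => (x, y) ∈ H ∨ (y, x) ∈ H) (h0 : bd1 c = 0) :
    (c ≠ 0 → ∃ u s, (u, s) ∈ H.filter fun d => c d.1 d.2 ≠ 0) ∧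
    (∀ u s, (u, s) ∈ H.filter (fun d => c d.1 d.2 ≠ 0) →
      (∃ s', s' ≠ s ∧ (u, s') ∈ H.filter fun d => c d.1 d.2 ≠ 0) ∧
      ∃ u', u' ≠ u ∧ (u', s) ∈ H.filter fun d => c d.1 d.2 ≠ 0) := by
  have m : ∀ x y, c x y ≠ 0 → (x, y) ∈ H ∨ (y, x) ∈ H := fun x y h => by
    by_contra n; exact h (hc.2 x y n)
  refine ⟨fun h => ?_, fun u s h => ?_⟩
  · obtain ⟨x, hx⟩ := Function.ne_iff.1 h
    obtain ⟨y, hy⟩ := Function.ne_iff.1 hx
    rcases m x y hy with k | k
    · exact ⟨x, y, mem_filter.2 ⟨k, hy⟩⟩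
    · exact ⟨y, x, mem_filter.2 ⟨k, by rw [hc.1]; exact hy⟩⟩
  · obtain ⟨h1, h2⟩ := mem_filter.1 h
    obtain ⟨s', a1, a2⟩ := two h0 h2
    obtain ⟨u', b1, b2⟩ := two h0 (x := s) (y := u) (by rw [hc.1]; exact h2)
    refine ⟨⟨s', a1, mem_filter.2 ⟨(m _ _ a2).resolve_right fun k => ?_, a2⟩⟩,
      u', b1, mem_filter.2 ⟨(m _ _ b2).resolve_left fun k => ?_, by rw [hc.1]; exact b2⟩⟩
    · exact disjoint_left.1 hd (hH _ h1).1 (hH _ k).2
    · exact disjoint_left.1 hd (hH _ k).1 (hH _ h1).2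

lemma Tri.cntA (hT : Tri T) {U S : Finset V} (hd : Disjoint U S)
    (h : ∀ u ∈ U, ∃ a ∈ S, ∃ b ∈ S, ∃ c ∈ S, a ≠ b ∧ b ≠ c ∧ c ≠ a ∧
      adj T u a ∧ adj T u b ∧ adj T u c) : U.card ≤ 2 * S.card := by
  classical
  set H := (U ×ˢ S).filter fun d => adj T d.1 d.2 with hH
  have mH : ∀ d ∈ H, d.1 ∈ U ∧ d.2 ∈ S := fun d hd => mem_product.1 (mem_filter.1 hd).1
  have a := hT.sparse H (U ∪ S) (fun d hd' => ⟨(mem_filter.1 hd').2,
    mem_union_left _ (mH d hd').1, mem_union_right _ (mH d hd').2,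
    fun k => disjoint_left.1 hd (mH d hd').1 (mH _ k).2⟩) 4 (fun c hc h0 n => by
      obtain ⟨w1, w2⟩ := walk hd mH hc h0
      obtain ⟨u, s, k1⟩ := w1 n
      obtain ⟨⟨s', n1, k2⟩, u', n2, k3⟩ := w2 _ _ k1
      obtain ⟨⟨s'', n3, k4⟩, -⟩ := w2 _ _ k3
      refine le_trans (le_of_eq ?_) (card_le_card (s := {(u, s), (u, s'), (u', s), (u', s'')})
        (by simp only [insert_subset_iff, singleton_subset_iff]; exact ⟨k1, k2, k3, k4⟩))
      rw [card_insert_of_notMem, card_insert_of_notMem, card_insert_of_notMem, card_singleton] <;>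
        simp [n1, n2, n3, n1.symm, n2.symm, n3.symm])
  have b : 3 * U.card ≤ H.card := mul_card_image_le_card_of_maps_to (f := Prod.fst)
    (fun d hd => (mH d hd).1) 3 fun u hu => by
      obtain ⟨a, ha, b, hb, c, hc, n1, n2, n3, k1, k2, k3⟩ := h u hu
      refine le_trans (le_of_eq ?_) (card_le_card (s := {(u, a), (u, b), (u, c)})
        (by simp [insert_subset_iff, hH, *]))
      rw [card_insert_of_notMem, card_insert_of_notMem, card_singleton] <;>
        simp [n1, n2, n3, n1.symm, n2.symm, n3.symm]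
  have := card_union_le U S
  omega

lemma Tri.cntB (hT : Tri T) {U S : Finset V} (hd : Disjoint U S) (a b : V → V)
    (h : ∀ u ∈ U, a u ∈ S ∧ b u ∈ S ∧ a u < b u ∧ adj T u (a u) ∧ adj T u (b u))
    (hi : Set.InjOn (fun u => (a u, b u)) U) : U.card ≤ 3 * S.card := by
  classical
  set H := (U ×ˢ S).filter fun d => d.2 = a d.1 ∨ d.2 = b d.1 with hH
  have mH : ∀ d ∈ H, d.1 ∈ U ∧ d.2 ∈ S := fun d hd => mem_product.1 (mem_filter.1 hd).1
  have key : ∀ u u' s s', s' ≠ s → (u, s) ∈ H → (u, s') ∈ H → (u', s) ∈ H → (u', s') ∈ H →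
      u = u' := by
    intro u u' s s' n k1 k2 k3 k4
    have o1 := (h _ (mH _ k1).1).2.2.1
    have o2 := (h _ (mH _ k3).1).2.2.1
    refine hi (mH _ k1).1 (mH _ k3).1 ?_
    have j1 := (mem_filter.1 k1).2
    have j2 := (mem_filter.1 k2).2
    have j3 := (mem_filter.1 k3).2
    have j4 := (mem_filter.1 k4).2
    dsimp only at *
    rw [Prod.mk.injEq]
    grind
  have e := hT.sparse H (U ∪ S) (fun d hd' => ⟨by
      rcases (mem_filter.1 hd').2 with k | k <;> rw [k]
      exacts [(h _ (mH d hd').1).2.2.2.1, (h _ (mH d hd').1).2.2.2.2],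
    mem_union_left _ (mH d hd').1, mem_union_right _ (mH d hd').2,
    fun k => disjoint_left.1 hd (mH d hd').1 (mH _ k).2⟩) 6 (fun c hc h0 n => by
      obtain ⟨w1, w2⟩ := walk hd mH hc h0
      obtain ⟨u, s, k1⟩ := w1 n
      obtain ⟨⟨s', n1, k2⟩, u', n2, k3⟩ := w2 _ _ k1
      obtain ⟨⟨s'', n3, k4⟩, -⟩ := w2 _ _ k3
      obtain ⟨-, u'', n4, k5⟩ := w2 _ _ k2
      obtain ⟨⟨s''', n5, k6⟩, -⟩ := w2 _ _ k5
      have n6 : u'' ≠ u' := by
        rintro rfl
        exact n2 (key _ _ _ _ n1 (mem_filter.1 k1).1 (mem_filter.1 k2).1 (mem_filter.1 k3).1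
          (mem_filter.1 k5).1).symm
      refine le_trans (le_of_eq ?_) (card_le_card
        (s := {(u, s), (u, s'), (u', s), (u', s''), (u'', s'), (u'', s''')})
        (by simp only [insert_subset_iff, singleton_subset_iff]; exact ⟨k1, k2, k3, k4, k5, k6⟩))
      rw [card_insert_of_notMem, card_insert_of_notMem, card_insert_of_notMem,
        card_insert_of_notMem, card_insert_of_notMem, card_singleton] <;>
        simp [n1, n2, n3, n4, n5, n6, n1.symm, n2.symm, n3.symm, n4.symm, n5.symm, n6.symm])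
  have b : 2 * U.card ≤ H.card := mul_card_image_le_card_of_maps_to (f := Prod.fst)
    (fun d hd => (mH d hd).1) 2 fun u hu => by
      obtain ⟨k1, k2, n, -, -⟩ := h u hu
      refine le_trans (le_of_eq ?_) (card_le_card (s := {(u, a u), (u, b u)})
        (by simp [insert_subset_iff, hH, *]))
      rw [card_insert_of_notMem, card_singleton]
      simp [n.ne]
  have := card_union_le U S
  omega

open Classical in
noncomputable def nb (T : V → V → V → Prop) (x : V) : Finset V := univ.filter (adj T x)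

@[simp] lemma mem_nb {x y : V} : y ∈ nb T x ↔ adj T x y := by simp [nb]

def Fam (T : V → V → V → Prop) (F : Finset V) (a : V → V) : Prop :=
  ∀ v ∈ F, contr T v (a v) ∧ ∀ v' ∈ F, v ≠ v' → ¬ adj T v v' ∧ ¬ adj T v (a v')

theorem Tri.exists_fam (hT : Tri T) :
    ∃ F a, Fam T F a ∧ (verts T).card ≤ 42050 * F.card := by
  classical
  set S := univ.filter fun x => 144 < (nb T x).card with hS
  have cS : 145 * S.card ≤ (darts T).card := by
    have := mul_card_image_le_card_of_maps_to (f := Prod.fst)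
      (s := (darts T).filter fun d => d.1 ∈ S) (t := S) (fun d hd => (mem_filter.1 hd).2) 145
      fun x hx => by
        have : 144 < (nb T x).card := (mem_filter.1 hx).2
        refine le_trans this (card_le_card_of_injOn (fun y => (x, y)) (fun y hy => ?_)
          fun y _ y' _ e => (Prod.mk.inj e).2)
        simpa [hx] using hy
    exact this.trans (card_filter_le _ _)
  set Gd := (verts T).filter fun v => v ∉ S ∧ ∃ a, contr T v a ∧ a ∉ S with hGd
  set UA := (verts T).filter fun v => v ∉ S ∧ ∃ a ∈ S, ∃ b ∈ S, ∃ c ∈ S, a ≠ b ∧ b ≠ c ∧ c ≠ a ∧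
      adj T v a ∧ adj T v b ∧ adj T v c with hUA
  set UB := (verts T).filter fun v => v ∉ S ∧ ∃ a b, a ∈ S ∧ b ∈ S ∧ a < b ∧ adj T v a ∧
      adj T v b ∧ ∃ p q r, ∀ u, adj T a u → adj T b u → u = p ∨ u = q ∨ u = r with hUB
  have cov : verts T ⊆ S ∪ Gd ∪ UA ∪ UB := by
    intro v hv
    simp only [mem_union, hGd, hUA, hUB, mem_filter, hv, true_and]
    by_cases h1 : v ∈ S
    · exact Or.inl (Or.inl (Or.inl (by simpa [hS] using h1)))
    by_cases h2 : ∃ a, contr T v a ∧ a ∉ S
    · exact Or.inl (Or.inl (Or.inr ⟨h1, h2⟩))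
    push Not at h2
    rcases hT.dich (mem_verts.1 hv) with ⟨a, b, c, n1, n2, n3, k1, k2, k3⟩ | ⟨a, b, o, k1, k2, k⟩
    · exact Or.inl (Or.inr ⟨h1, a, h2 a k1, b, h2 b k2, c, h2 c k3, n1, n2, n3, k1.1, k2.1, k3.1⟩)
    · exact Or.inr ⟨h1, a, b, h2 a k1, h2 b k2, o, k1.1, k2.1, k⟩
  have cA : UA.card ≤ 2 * S.card := hT.cntA (disjoint_left.2 fun v hv => (mem_filter.1 hv).2.1)
    fun v hv => (mem_filter.1 hv).2.2
  have cB : UB.card ≤ 9 * S.card := by
    have : ∀ v, ∃ a b, v ∈ UB → a ∈ S ∧ b ∈ S ∧ a < b ∧ adj T v a ∧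
        adj T v b ∧ ∃ p q r, ∀ u, adj T a u → adj T b u → u = p ∨ u = q ∨ u = r := fun v => by
      by_cases h : v ∈ UB
      · obtain ⟨a, b, k⟩ := (mem_filter.1 h).2.2
        exact ⟨a, b, fun _ => k⟩
      · exact ⟨v, v, fun k => absurd k h⟩
    choose a b hab using this
    obtain ⟨U, u1, u2, u3⟩ := exists_subset_injOn_image_eq_of_surjOn (f := fun u => (a u, b u))
      (UB : Set V) (UB.image fun u => (a u, b u)) (by simp [Set.SurjOn])
    have c1 := hT.cntB (U := U) (S := S) (disjoint_left.2 fun v hv => (mem_filter.1 (u1 hv)).2.1)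
      a b (fun u hu => by have := hab u (u1 hu); tauto) u2
    have c2 : UB.card ≤ 3 * (UB.image fun u => (a u, b u)).card :=
      card_le_mul_card_image _ 3 fun d hd => by
        obtain ⟨v, hv, rfl⟩ := mem_image.1 hd
        obtain ⟨-, -, -, -, -, p, q, r, k⟩ := hab v hv
        refine (card_le_card fun u hu => ?_).trans (card_le_three (a := p) (b := q) (c := r))
        obtain ⟨j1, j2⟩ := mem_filter.1 hu
        obtain ⟨e1, e2⟩ := Prod.mk.inj j2
        have := hab u j1
        simpa using k u (e1 ▸ hT.symm this.2.2.2.1) (e2 ▸ hT.symm this.2.2.2.2.1)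
    rw [← u3] at c2
    have := card_image_le (s := U) (f := fun u => (a u, b u))
    omega
  have cG : (verts T).card ≤ 2 * Gd.card := by
    have := (card_le_card cov).trans ((card_union_le _ _).trans (add_le_add
      ((card_union_le _ _).trans (add_le_add (card_union_le _ _) le_rfl)) le_rfl))
    have := hT.euler
    omega
  have : ∀ v, ∃ a, v ∈ Gd → contr T v a ∧ a ∉ S := fun v => by
    by_cases h : v ∈ Gd
    · obtain ⟨a, k⟩ := (mem_filter.1 h).2.2
      exact ⟨a, fun _ => k⟩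
    · exact ⟨v, fun k => absurd k h⟩
  choose a ha using this
  obtain ⟨F, hF, hm⟩ := exists_max_image (Gd.powerset.filter fun F => Fam T F a) card
    ⟨∅, mem_filter.2 ⟨empty_mem_powerset _, fun v hv => absurd hv (notMem_empty v)⟩⟩
  obtain ⟨F1, F2⟩ := mem_filter.1 hF
  rw [mem_powerset] at F1
  have low : ∀ x, x ∉ S → (nb T x).card ≤ 144 := fun x hx => by simpa [hS] using hx
  refine ⟨F, a, F2, cG.trans ?_⟩
  have cov2 : Gd ⊆ F.biUnion fun v =>
      insert v (nb T v ∪ ((nb T v).filter (· ∉ S)).biUnion (nb T)) := by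
    intro v hv
    by_contra n
    simp only [mem_biUnion, mem_insert, mem_union, mem_nb, mem_filter, not_exists, not_and,
      not_or] at n
    have nF : v ∉ F := fun k => (n v k).1 rfl
    have := hm (insert v F) (mem_filter.2 ⟨mem_powerset.2 (insert_subset hv F1), fun x hx => ?_⟩)
    · rw [card_insert_of_notMem nF] at this; omega
    · rcases mem_insert.1 hx with rfl | hx'
      · refine ⟨(ha x hv).1, fun y hy ne => ?_⟩
        have hy' := (mem_insert.1 hy).resolve_left ne.symm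
        exact ⟨fun k => (n y hy').2.1 (hT.symm k),
          fun k => (n y hy').2.2 (a y) ⟨(F2 y hy').1.1, (ha y (F1 hy')).2⟩ (hT.symm k)⟩
      · refine ⟨(F2 x hx').1, fun y hy ne => ?_⟩
        rcases mem_insert.1 hy with rfl | hy
        · exact ⟨(n x hx').2.1,
            fun k => (n x hx').2.2 (a y) ⟨k, (ha y hv).2⟩ (hT.symm (ha y hv).1.1)⟩
        · exact (F2 x hx').2 y hy ne
  have := (card_le_card cov2).trans (card_biUnion_le_card_mul _ _ 21025 fun v hv => by
    have l1 := low v (mem_filter.1 (F1 hv)).2.1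
    have l2 := card_biUnion_le_card_mul ((nb T v).filter (· ∉ S)) (nb T) 144
      fun x hx => low x (mem_filter.1 hx).2
    have l3 := card_filter_le (nb T v) (· ∉ S)
    have := card_insert_le v (nb T v ∪ ((nb T v).filter (· ∉ S)).biUnion (nb T))
    have := card_union_le (nb T v) (((nb T v).filter (· ∉ S)).biUnion (nb T))
    omega)
  omega

end Pool.Agent.Lib.MP_d5dfc1_co.QP
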