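import Pool.Agent.Lib.MP_d5dfc1_co.QpLevel

namespace Pool.Agent.Lib.MP_d5dfc1_co.QP

open Pool.Agent.Lib.MP_d5dfc1_co Relation Finset

set_option linter.unusedSectionVars false
set_option linter.unusedVariables false
set_option linter.unusedSimpArgs false

def vol (x y z u : V3) : ℝ := det3 (x - u) (y - u) (z - u)

def nv (x y z : V3) : V3 := cross y z + cross z x + cross x y

lemma nv_dot (x y z u : V3) : dot (nv x y z) u = det3 x y z - vol x y z u := by
  simp [vol, nv, dot, det3, cross]; ring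

lemma vol1 (x y z : V3) : vol x y z x = 0 := by simp [vol, det3]
lemma vol2 (x y z : V3) : vol x y z y = 0 := by simp [vol, det3]
lemma vol3 (x y z : V3) : vol x y z z = 0 := by simp [vol, det3]
lemma vol_rot (x y z u : V3) : vol y z x u = vol x y z u := det_rot _ _ _
lemma vol_swap (x y z u : V3) : vol y x u z = vol x y z u := by
  simp only [vol, det3, Pi.sub_apply]; ring
lemma vol_neg (x y z u : V3) : vol x y u z = - vol x y z u := by
  simp only [vol, det3, Pi.sub_apply]; ring
lemma vol_neg' (x y z u : V3) : vol x z y u = - vol x y z u := by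
  simp only [vol, det3, Pi.sub_apply]; ring

variable {V : Type*} [Fintype V] [LinearOrder V] {T : V → V → V → Prop} {p : V → V3}

def Conv (T : V → V → V → Prop) (p : V → V3) : Prop :=
  ∀ x y z u, T x y z → u ≠ x → u ≠ y → u ≠ z → 0 < vol (p x) (p y) (p z) (p u)

structure Pre (T : V → V → V → Prop) : Prop where
  rot : ∀ {x y z}, T x y z → T y z x
  ne : ∀ {x y z}, T x y z → x ≠ y
  opp : ∀ {x y z}, T x y z → adj T y x
  asym : ∀ {x y z}, T x y z → ¬ T x z y

lemma Tri.pre (hT : Tri T) : Pre T := ⟨hT.rot, hT.ne, hT.opp, hT.asym⟩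

lemma Conv.le (C : Conv T p) {x y z : V} (t : T x y z) (u : V) :
    0 ≤ vol (p x) (p y) (p z) (p u) := by
  by_cases h1 : u = x
  · rw [h1, vol1]
  by_cases h2 : u = y
  · rw [h2, vol2]
  by_cases h3 : u = z
  · rw [h3, vol3]
  exact (C _ _ _ _ t h1 h2 h3).le

lemma Conv.exp (C : Conv T p) (hT : Pre T) {x y : V} (h : adj T x y) :
    ∃ c, dot c (p x) = dot c (p y) ∧ ∀ k, k ≠ x → k ≠ y → dot c (p k) < dot c (p x) := by
  obtain ⟨z, t⟩ := h
  obtain ⟨w, t'⟩ := hT.opp t
  refine ⟨nv (p x) (p y) (p z) + nv (p y) (p x) (p w), ?_, fun k n1 n2 => ?_⟩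
  · simp only [dot_add_l, nv_dot, vol1, vol2]
  · simp only [dot_add_l, nv_dot, vol1, vol2]
    by_cases e : k = z
    · have := C _ _ _ _ t' n2 n1 (by rintro rfl; exact hT.asym t (e ▸ hT.rot t'))
      linarith [C.le t k]
    · linarith [C _ _ _ _ t n1 n2 e, C.le t' k]

lemma Conv.slope (C : Conv T p) (hT : Pre T) {x g : V} {S : Set V} (hne : S.Nonempty)
    (hS : ∀ y ∈ S, ∃ z ∈ S, T x y z) {c : V3} (n : g ≠ x) (e : dot c (p x) = dot c (p g))
    (hc : ∀ k, k ≠ x → k ≠ g → dot c (p k) < dot c (p x)) : g ∈ S := by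
  by_contra hg
  have pos : ∀ y ∈ S, 0 < dot c (p x) - dot c (p y) := fun y hy => by
    obtain ⟨z, -, t⟩ := hS y hy
    exact sub_pos.2 (hc y (hT.ne t).symm fun k => hg (k ▸ hy))
  obtain ⟨y0, h0⟩ := hne
  obtain ⟨y, hy, hm⟩ := Set.exists_min_image S (fun y => det3 (p y0 - p x) (p y - p x) (p g - p x) /
    (dot c (p x) - dot c (p y))) (Set.toFinite _) ⟨y0, h0⟩
  obtain ⟨z, hz, t⟩ := hS y hy
  have := hm z hz
  rw [div_le_div_iff₀ (pos y hy) (pos z hz)] at this
  have v := mul_pos (pos y0 h0) (C _ _ _ _ t n (fun k => hg (k ▸ hy)) fun k => hg (k ▸ hz))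
  have id : (dot c (p x) - dot c (p y0)) * vol (p x) (p y) (p z) (p g) =
      det3 (p y0 - p x) (p y - p x) (p g - p x) * (dot c (p x) - dot c (p z))
      - det3 (p y0 - p x) (p z - p x) (p g - p x) * (dot c (p x) - dot c (p y))
      + (dot c (p g) - dot c (p x)) * det3 (p y - p x) (p z - p x) (p y0 - p x) := by
    simp only [vol, det3, dot, Pi.sub_apply]; ring
  rw [← e, sub_self, zero_mul] at id
  linarith

lemma ci_of_vec {ι : Type*} {p : ι → V3}
    (h : ∀ i, ∃ c : V3, ∀ j, j ≠ i → dot c (p j) < dot c (p i)) : ConvexIndependent ℝ p := by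
  intro s x hx
  by_contra hxs
  obtain ⟨c, hc⟩ := h x
  have : convexHull ℝ (p '' s) ⊆ {z | dotL c z < dot c (p x)} := by
    apply convexHull_min
    · rintro _ ⟨j, hj, rfl⟩
      simp only [Set.mem_ofPred_eq, dotL_apply]
      exact hc j (by rintro rfl; exact hxs hj)
    · exact convex_halfSpace_lt (dotL c).isLinear _
  have := this hx
  simp only [Set.mem_ofPred_eq, dotL_apply] at this
  exact lt_irrefl _ this

lemma Conv.adj_of (C : Conv T p) (hT : Pre T) (hp : ConvexIndependent ℝ p) {x y : V}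
    (hx : vtx T x) (n : x ≠ y)
    (h : IsExposed ℝ (convexHull ℝ (Set.range p)) (segment ℝ (p x) (p y))) : adj T x y := by
  obtain ⟨c, c1, c2⟩ := vec_of_exposed hp h
  exact C.slope hT (S := {y | adj T x y}) hx (fun y ⟨z, t⟩ => ⟨z, hT.opp (hT.rot (hT.rot t)), t⟩)
    n.symm c1 c2

lemma perp_zero {c a b d : V3} (h : det3 a b d ≠ 0) (h1 : dot c a = 0) (h2 : dot c b = 0)
    (h3 : dot c d = 0) : c = 0 := by
  have := par d h1 h2
  rw [h3, zero_smul] at this
  exact (smul_eq_zero.1 this.symm).resolve_left h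

theorem Conv.hull (C : Conv T p) (hT : Tri T) (all : ∀ x, vtx T x) :
    ConvexIndependent ℝ p ∧ (∀ i j, adj T i j ↔ i ≠ j ∧
      IsExposed ℝ (convexHull ℝ (Set.range p)) (segment ℝ (p i) (p j))) ∧
      affineSpan ℝ (Set.range p) = ⊤ := by
  have hp : ConvexIndependent ℝ p := ci_of_vec fun x => by
    obtain ⟨y, z, t⟩ := all x
    obtain ⟨c1, a1, a2⟩ := C.exp hT.pre ⟨_, t⟩
    obtain ⟨c2, b1, b2⟩ := C.exp hT.pre (hT.adj13 t)
    refine ⟨c1 + c2, fun k n => ?_⟩
    rw [dot_add_l, dot_add_l]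
    by_cases e : k = y
    · subst e; linarith [b2 k n (hT.ne2 t)]
    by_cases e' : k = z
    · subst e'; linarith [a2 k n e]
    linarith [a2 k n e, b2 k n e']
  refine ⟨hp, fun i j => ⟨fun h => ⟨hT.adj_ne h, ?_⟩, fun h => C.adj_of hT.pre hp (all i) h.1 h.2⟩, ?_⟩
  · obtain ⟨c, a1, a2⟩ := C.exp hT.pre h
    exact exposed_of_vec c a1 a2
  · obtain ⟨x, -⟩ : (verts T).Nonempty := card_pos.1 (by have := hT.euler; omega)
    have : Nonempty V := ⟨x⟩
    obtain ⟨y, z, t⟩ := all x
    obtain ⟨w, t'⟩ := hT.opp t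
    refine span_of_vec fun c r h => perp_zero
      (C _ _ _ w t (hT.ne2 t').symm (hT.ne3 t') (hT.oppne t t').symm).ne' ?_ ?_ ?_ <;>
      rw [dot_sub, h, h, sub_self]

/-- the oriented facets of a simplicial polytope -/
def TP (p : V → V3) (x y z : V) : Prop :=
  x ≠ y ∧ y ≠ z ∧ z ≠ x ∧ ∀ u, u ≠ x → u ≠ y → u ≠ z → 0 < vol (p x) (p y) (p z) (p u)

def Simp (p : V → V3) : Prop :=
  ∀ c r, c ≠ 0 → (∀ i, dot c (p i) ≤ r) → ∀ x y z u, x ≠ y → y ≠ z → z ≠ x → u ≠ x → u ≠ y →
    u ≠ z → dot c (p x) = r → dot c (p y) = r → dot c (p z) = r → dot c (p u) ≠ r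

lemma conv_TP : Conv (TP p) p := fun _ _ _ u t => t.2.2.2 u

lemma four (hs : affineSpan ℝ (Set.range p) = ⊤) (x y z : V) : ∃ u, u ≠ x ∧ u ≠ y ∧ u ≠ z := by
  by_contra n
  push Not at n
  obtain ⟨c, hc0, hc⟩ := (Matrix.exists_mulVec_eq_zero_iff
    (M := Matrix.of ![p y - p x, p z - p x, 0])).2 (by rw [Matrix.det_fin_three]; simp)
  have e1 := congrFun hc 0
  have e2 := congrFun hc 1
  simp [Matrix.mulVec, dotProduct, Fin.sum_univ_three] at e1 e2
  refine hc0 (eq_zero_of_span hs c (dot c (p x)) fun j => ?_)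
  by_cases h1 : j = x
  · rw [h1]
  by_cases h2 : j = y
  · rw [h2]; simp only [dot]; linarith
  · rw [n j h1 h2]; simp only [dot]; linarith

lemma rotate (hp : ConvexIndependent ℝ p) (hS : Simp p) {x y u0 : V} (n : x ≠ y) {c : V3}
    (e : dot c (p x) = dot c (p y)) (le : ∀ u, dot c (p u) ≤ dot c (p x))
    (l0 : dot c (p u0) < dot c (p x))
    (h0 : ∀ u, dot c (p u) = dot c (p x) → 0 ≤ vol (p y) (p x) (p u0) (p u)) :
    adj (TP p) y x := by
  obtain ⟨w, hw, hm⟩ := Set.exists_min_image {u | dot c (p u) < dot c (p x)}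
    (fun u => vol (p y) (p x) (p u0) (p u) / (dot c (p x) - dot c (p u))) (Set.toFinite _) ⟨u0, l0⟩
  have hw' : 0 < dot c (p x) - dot c (p w) := sub_pos.2 hw
  have ge : ∀ u, 0 ≤ vol (p y) (p x) (p w) (p u) := fun u => by
    have id : (dot c (p x) - dot c (p u0)) * vol (p y) (p x) (p w) (p u) =
        vol (p y) (p x) (p u0) (p u) * (dot c (p x) - dot c (p w))
        - vol (p y) (p x) (p u0) (p w) * (dot c (p x) - dot c (p u))
        - (dot c (p x) - dot c (p y)) * vol (p x) (p u0) (p w) (p u) := by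
      simp only [vol, det3, dot, Pi.sub_apply]; ring
    rw [← e, sub_self, zero_mul] at id
    refine nonneg_of_mul_nonneg_right ?_ (sub_pos.2 l0)
    rcases (le u).eq_or_lt with k | k
    · rw [id, k, sub_self]; linarith [mul_nonneg (h0 u k) hw'.le]
    · have := hm u k
      rw [div_le_div_iff₀ hw' (sub_pos.2 k)] at this
      linarith
  have n1 : x ≠ w := by rintro rfl; exact hw'.ne' (sub_self _)
  have n2 : w ≠ y := by rintro rfl; exact hw'.ne' (sub_eq_zero.2 e)
  refine ⟨w, n.symm, n1, n2, fun u a1 a2 a3 => (ge u).lt_of_ne fun k => ?_⟩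
  refine hS (nv (p y) (p x) (p w)) (det3 (p y) (p x) (p w)) (fun z => n (hp.injective ?_))
    (fun i => by rw [nv_dot]; linarith [ge i]) y x w u n.symm n1 n2 a1 a2 a3
    (by rw [nv_dot, vol1, sub_zero]) (by rw [nv_dot, vol2, sub_zero])
    (by rw [nv_dot, vol3, sub_zero]) (by rw [nv_dot, ← k, sub_zero])
  have z0 := congrFun z 0
  have z1 := congrFun z 1
  have z2 := congrFun z 2
  simp [nv, cross] at z0 z1 z2
  simp only [dot] at e hw'
  ext k
  refine sub_eq_zero.1 ((mul_eq_zero.1 ?_).resolve_left hw'.ne')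
  fin_cases k <;> simp only [Fin.zero_eta, Fin.mk_one, Fin.reduceFinMk]
  · linear_combination c 2 * z1 - c 1 * z2 + (p x 0 - p w 0) * e
  · linear_combination c 0 * z2 - c 2 * z0 + (p x 1 - p w 1) * e
  · linear_combination c 1 * z0 - c 0 * z1 + (p x 2 - p w 2) * e

lemma dot_self_pos {a : V3} (h : a ≠ 0) : 0 < dot a a := by
  by_contra n
  apply h
  simp only [dot] at n
  ext k
  fin_cases k <;> simp only [Fin.zero_eta, Fin.mk_one, Fin.reduceFinMk, Pi.zero_apply] <;>
    nlinarith [sq_nonneg (a 0), sq_nonneg (a 1), sq_nonneg (a 2)]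

theorem tri_TP [Nonempty V] (hp : ConvexIndependent ℝ p) (hs : affineSpan ℝ (Set.range p) = ⊤)
    (hS : Simp p) : Tri (TP p) ∧ ∀ x, vtx (TP p) x := by
  classical
  have rot : ∀ {x y z}, TP p x y z → TP p y z x := fun t =>
    ⟨t.2.1, t.2.2.1, t.1, fun u a b c => by rw [vol_rot]; exact t.2.2.2 u c a b⟩
  have uniq : ∀ {x y z w}, TP p x y z → TP p x y w → z = w := fun {x y z w} t t' => by
    by_contra n
    have a := t.2.2.2 w t'.2.2.1 t'.2.1.symm (Ne.symm n)
    have b := t'.2.2.2 z t.2.2.1 t.2.1.symm n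
    rw [vol_neg] at b; linarith
  have P : Pre (TP p) := by
    refine ⟨rot, fun t => t.1, fun {x y z} t => ?_, fun {x y z} t t' => ?_⟩
    · obtain ⟨u, a, b, c⟩ := four hs x y z
      refine rotate hp hS (u0 := u) (c := nv (p x) (p y) (p z)) t.1 (by simp [nv_dot, vol1, vol2])
        (fun k => by simpa [nv_dot, vol1] using conv_TP.le t k)
        (by simpa [nv_dot, vol1] using t.2.2.2 u a b c) fun k e => ?_
      by_cases h1 : k = x
      · rw [h1, vol2]
      by_cases h2 : k = y
      · rw [h2, vol1]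
      by_cases h3 : k = z
      · rw [h3, vol_swap]; exact conv_TP.le t u
      have := t.2.2.2 k h1 h2 h3
      rw [nv_dot, nv_dot, vol1] at e
      linarith
    · obtain ⟨u, a, b, c⟩ := four hs x y z
      have := t.2.2.2 u a b c
      have := t'.2.2.2 u a c b
      rw [vol_neg'] at this; linarith
  have all : ∀ x, vtx (TP p) x := fun x => by
    obtain ⟨j, n, -⟩ := four hs x x x
    have : ∃ j, j ≠ x ∧ IsExposed ℝ (convexHull ℝ (Set.range p)) (segment ℝ (p x) (p j)) := by
      by_contra k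
      push Not at k
      exact absurd (simplex hp x (p j - p x) (fun i a b => absurd b (k i a)) j)
        (not_le.2 (dot_self_pos fun e => n (hp.injective (sub_eq_zero.1 e))))
    obtain ⟨y, n, h⟩ := this
    obtain ⟨c, c1, c2⟩ := vec_of_exposed hp h
    obtain ⟨u, a, b, -⟩ := four hs x y y
    obtain ⟨w, t⟩ := rotate hp hS n.symm c1 (fun k => by
      by_cases h1 : k = x
      · rw [h1]
      by_cases h2 : k = y
      · rw [h2, c1]
      exact (c2 k h1 h2).le) (c2 u a b) (fun k e => by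
      by_cases h1 : k = x
      · rw [h1, vol2]
      by_cases h2 : k = y
      · rw [h2, vol1]
      exact absurd e (c2 k h1 h2).ne)
    exact ⟨w, y, rot t⟩
  refine ⟨⟨rot, P.ne, uniq, P.opp, P.asym, fun {x y y'} h h' => ?_, fun {x y} _ _ => ?_, ?_⟩, all⟩
  · obtain ⟨c, c1, c2⟩ := conv_TP.exp P h'
    obtain ⟨z, t⟩ := h'
    exact (conv_TP.slope P (S := {u | ReflTransGen (TP p x) y u ∧ adj (TP p) x u}) ⟨y, .refl, h⟩
      (fun u ⟨a, w, t⟩ => ⟨w, ⟨a.tail t, P.opp (rot (rot t))⟩, t⟩) t.1.symm c1 c2).1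
  · by_contra n
    obtain ⟨c, hc⟩ := exists_sep hp y
    obtain ⟨u, hu, hm⟩ := Set.exists_max_image {u | ¬ ReflTransGen (adj (TP p)) u y}
      (fun u => dot c (p u)) (Set.toFinite _) ⟨x, n⟩
    have := simplex hp u c (fun j a b => by
      rw [dot_sub, sub_nonpos]
      exact hm j fun k => hu (k.head (conv_TP.adj_of P hp (all u) a.symm b))) y
    rw [dot_sub] at this
    linarith [hc u (by rintro rfl; exact hu .refl)]
  · obtain ⟨c, hc⟩ := Submodule.exists_forall_notMem_of_forall_ne_top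
      (fun d : {d : V × V // d.1 ≠ d.2} => LinearMap.ker (dotL (p d.1.1 - p d.1.2)).toLinearMap)
      fun d e => (dot_self_pos fun e => d.2 (hp.injective (sub_eq_zero.1 e))).ne' (by
        have : p d.1.1 - p d.1.2 ∈ LinearMap.ker (dotL (p d.1.1 - p d.1.2)).toLinearMap :=
          e ▸ Submodule.mem_top
        simpa [dotL_apply] using this)
    have inj : ∀ i j, i ≠ j → dot c (p i) ≠ dot c (p j) := fun i j n e => hc ⟨(i, j), n⟩ (by
      simp only [LinearMap.mem_ker, ContinuousLinearMap.coe_coe, dotL_apply]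
      rw [dot_comm, dot_sub, e, sub_self])
    have nx' : ∀ {x y z}, TP p x y z → nx (TP p) x y = z := fun t => uniq (nx_spec ⟨_, t⟩) t
    have one : ∀ c : V3, ((darts (TP p)).filter fun d => dot c (p d.2) < dot c (p d.1) ∧
        dot c (p d.1) < dot c (p (nx (TP p) d.1 d.2))).card + 2 ≤ Fintype.card V := by
      intro c
      set D := (darts (TP p)).filter fun d => dot c (p d.2) < dot c (p d.1) ∧
        dot c (p d.1) < dot c (p (nx (TP p) d.1 d.2)) with hD
      rcases D.eq_empty_or_nonempty with k | ⟨d0, k⟩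
      · obtain ⟨x⟩ := ‹Nonempty V›
        obtain ⟨u, n, -⟩ := four hs x x x
        rw [k]; exact Fintype.one_lt_card_iff.2 ⟨u, x, n⟩
      obtain ⟨M, hM⟩ := Finite.exists_max fun i => dot c (p i)
      obtain ⟨m, hm⟩ := Finite.exists_min fun i => dot c (p i)
      have nm : m ≠ M := by
        rintro rfl
        linarith [(mem_filter.1 k).2.1, hm d0.2, hM d0.1]
      have := card_le_card_of_injOn (s := D) (t := (univ.erase M).erase m) Prod.fst (fun d hd => by
        have := (mem_filter.1 hd).2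
        simp only [coe_erase, coe_univ, Set.mem_sdiff, Set.mem_univ, Set.mem_singleton_iff, true_and]
        constructor <;> intro e <;> rw [e] at this
        · exact this.2.not_ge (hM _)
        · exact this.1.not_ge (hm _)) (by
        rintro ⟨x, y⟩ h1 ⟨x', y'⟩ h2 rfl
        obtain ⟨a, a1, a2⟩ := mem_filter.1 h1
        obtain ⟨b, b1, b2⟩ := mem_filter.1 h2
        have t := nx_spec (mem_darts.1 a)
        have t' := nx_spec (mem_darts.1 b)
        dsimp only at *
        generalize nx (TP p) x y = z at *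
        generalize nx (TP p) x y' = z' at *
        by_contra n
        have n1 : y' ≠ y := fun e => n (by rw [e])
        have n2 : z' ≠ z := by rintro rfl; exact n1 (uniq (rot (rot t')) (rot (rot t)))
        have n3 : y' ≠ z := by rintro rfl; linarith
        have n4 : z' ≠ y := by rintro rfl; linarith
        have v1 := mul_pos (sub_pos.2 b2) (t.2.2.2 y' t'.1.symm n1 n3)
        have v2 := mul_pos (sub_pos.2 b1) (t.2.2.2 z' t'.2.2.1 n4 n2)
        have v3 := mul_pos (sub_pos.2 a2) (t'.2.2.2 y t.1.symm n1.symm n4.symm)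
        have v4 := mul_pos (sub_pos.2 a1) (t'.2.2.2 z t.2.2.1 n3.symm n2.symm)
        have : (dot c (p z') - dot c (p x)) * vol (p x) (p y) (p z) (p y')
            + (dot c (p x) - dot c (p y')) * vol (p x) (p y) (p z) (p z')
            + (dot c (p z) - dot c (p x)) * vol (p x) (p y') (p z') (p y)
            + (dot c (p x) - dot c (p y)) * vol (p x) (p y') (p z') (p z) = 0 := by
          simp only [vol, det3, dot, Pi.sub_apply]; ring
        linarith)
      rw [card_erase_of_mem (by simp [nm]), card_erase_of_mem (mem_univ _), card_univ] at this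
      have := Fintype.one_lt_card_iff.2 ⟨m, M, nm⟩
      omega
    have o1 := one c
    have o2 := one (-c)
    set D1 := (darts (TP p)).filter fun d => dot c (p d.2) < dot c (p d.1) ∧
        dot c (p d.1) < dot c (p (nx (TP p) d.1 d.2)) with hD1
    set D2 := (darts (TP p)).filter fun d => dot (-c) (p d.2) < dot (-c) (p d.1) ∧
        dot (-c) (p d.1) < dot (-c) (p (nx (TP p) d.1 d.2)) with hD2
    have mem : ∀ {x y z}, TP p x y z → ((x, y) ∈ D1 ∪ D2 ↔
        (dot c (p y) < dot c (p x) ∧ dot c (p x) < dot c (p z)) ∨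
        (dot c (p x) < dot c (p y) ∧ dot c (p z) < dot c (p x))) := fun {x y z} t => by
      have ng : ∀ u, dot (-c) u = - dot c u := fun u => by rw [dot_comm, dot_neg_r, dot_comm]
      simp only [hD1, hD2, mem_union, mem_filter, mem_darts, nx' t, ng, neg_lt_neg_iff,
        show adj (TP p) x y from ⟨z, t⟩, true_and]
    have b : darts (TP p) ⊆ (D1 ∪ D2) ∪ (D1 ∪ D2).image (fun d => (d.2, nx (TP p) d.1 d.2)) ∪
        (D1 ∪ D2).image (fun d => (nx (TP p) d.1 d.2, d.1)) := by
      rintro ⟨x, y⟩ hd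
      obtain ⟨z, t⟩ := mem_darts.1 hd
      dsimp only at t
      have n1 := inj _ _ t.1; have n2 := inj _ _ t.2.1; have n3 := inj _ _ t.2.2.1
      rw [mem_union, mem_union]
      by_cases c1 : (x, y) ∈ D1 ∪ D2
      · exact Or.inl (Or.inl c1)
      by_cases c2 : (z, x) ∈ D1 ∪ D2
      · exact Or.inl (Or.inr (mem_image.2 ⟨_, c2, by rw [nx' (rot (rot t))]⟩))
      · refine Or.inr (mem_image.2 ⟨(y, z), ?_, by rw [nx' (rot t)]⟩)
        rw [mem t] at c1
        rw [mem (rot (rot t))] at c2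
        rw [mem (rot t)]
        grind
    have := (card_le_card b).trans ((card_union_le _ _).trans (add_le_add
      ((card_union_le _ _).trans (add_le_add le_rfl card_image_le)) card_image_le))
    have := card_union_le D1 D2
    have : verts (TP p) = univ := by ext x; simp [all]
    rw [this, card_univ]
    omega

end Pool.Agent.Lib.MP_d5dfc1_co.QP
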