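import Pool.Agent.Lib.MP_d5dfc1_co.QpTri

namespace Pool.Agent.Lib.MP_d5dfc1_co.QP

open Relation Finset Module

set_option linter.unusedSectionVars false
set_option linter.unusedVariables false
set_option linter.unusedSimpArgs false

abbrev F2 := ZMod 2

lemma F2_add_self (x : F2) : x + x = 0 := by revert x; decide

lemma F2_add_eq_zero {x y : F2} : x + y = 0 ↔ x = y := by revert x y; decide

section
variable {M N : Type*} [AddCommGroup M] [Module F2 M] [Finite M] [AddCommGroup N] [Module F2 N]

lemma fr_le (S : Submodule F2 M) {α : Type*} (s : Finset α) (f : S → s → F2)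
    (hf : Function.Injective f) : finrank F2 S ≤ s.card := by
  have := Nat.card_le_card_of_injective f hf
  rw [natCard_eq_pow_finrank (K := F2), Nat.card_fun] at this
  simp only [Nat.card_eq_fintype_card, ZMod.card, Fintype.card_coe] at this
  exact (Nat.pow_le_pow_iff_right (by norm_num)).1 this

lemma le_fr (S : Submodule F2 M) {α : Type*} (s : Finset α) (f : (s → F2) → S)
    (hf : Function.Injective f) : s.card ≤ finrank F2 S := by
  have := Nat.card_le_card_of_injective f hf
  rw [natCard_eq_pow_finrank (K := F2) (V := S), Nat.card_fun] at this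
  simp only [Nat.card_eq_fintype_card, ZMod.card, Fintype.card_coe] at this
  exact (Nat.pow_le_pow_iff_right (by norm_num)).1 this

lemma fr_map (S : Submodule F2 M) (f : M →ₗ[F2] N) :
    finrank F2 (S.map f) + finrank F2 (S ⊓ LinearMap.ker f : Submodule F2 M) = finrank F2 S := by
  have := LinearMap.finrank_range_add_finrank_ker (f.domRestrict S)
  rw [LinearMap.range_domRestrict, LinearMap.ker_domRestrict] at this
  rw [← this, ← Submodule.map_comap_subtype]
  congr 1
  exact (Submodule.finrank_map_subtype_eq _ _)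
end

variable {V : Type*} [Fintype V] [LinearOrder V] {T : V → V → V → Prop}

open Classical in
/-- the successor in the link -/
noncomputable def nx (T : V → V → V → Prop) (x y : V) : V := if h : adj T x y then h.choose else y

lemma nx_spec {x y : V} (h : adj T x y) : T x y (nx T x y) := by
  rw [nx, dif_pos h]; exact h.choose_spec

lemma nx_neg {x y : V} (h : ¬ adj T x y) : nx T x y = y := by rw [nx, dif_neg h]

lemma Tri.nx_eq (hT : Tri T) {x y z : V} (h : T x y z) : nx T x y = z :=
  hT.uniq (nx_spec ⟨_, h⟩) h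

lemma Tri.nx_inj (hT : Tri T) (x : V) : Function.Injective (nx T x) := by
  intro y y' e
  by_cases h : adj T x y <;> by_cases h' : adj T x y'
  · exact hT.uniq2 (nx_spec h) (e ▸ nx_spec h')
  · rw [nx_neg h'] at e; exact absurd (e ▸ hT.adj13 (nx_spec h)) h'
  · rw [nx_neg h] at e; exact absurd (e ▸ hT.adj13 (nx_spec h')) h
  · rwa [nx_neg h, nx_neg h'] at e

def C2 (T : V → V → V → Prop) : Submodule F2 (V → V → F2) where
  carrier := {R | (∀ x y z, T x y z → R x y = R y z) ∧ ∀ x y, ¬ adj T x y → R x y = 0}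
  add_mem' := fun ha hb => ⟨fun x y z h => by simp [ha.1 x y z h, hb.1 x y z h],
    fun x y h => by simp [ha.2 x y h, hb.2 x y h]⟩
  zero_mem' := ⟨fun _ _ _ _ => rfl, fun _ _ _ => rfl⟩
  smul_mem' := fun c a ha => ⟨fun x y z h => by simp [ha.1 x y z h],
    fun x y h => by simp [ha.2 x y h]⟩

def C1 (A : V → V → Prop) : Submodule F2 (V → V → F2) where
  carrier := {c | (∀ x y, c x y = c y x) ∧ ∀ x y, ¬ A x y → c x y = 0}
  add_mem' := fun ha hb => ⟨fun x y => by simp [ha.1 x y, hb.1 x y],
    fun x y h => by simp [ha.2 x y h, hb.2 x y h]⟩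
  zero_mem' := ⟨fun _ _ => rfl, fun _ _ _ => rfl⟩
  smul_mem' := fun c a ha => ⟨fun x y => by simp [ha.1 x y], fun x y h => by simp [ha.2 x y h]⟩

def bd2 : (V → V → F2) →ₗ[F2] (V → V → F2) where
  toFun R := fun x y => R x y + R y x
  map_add' a b := by ext x y; simp only [Pi.add_apply]; ring
  map_smul' c a := by ext x y; simp only [Pi.smul_apply, smul_eq_mul, RingHom.id_apply]; ring

def bd1 : (V → V → F2) →ₗ[F2] (V → F2) where
  toFun c := fun x => ∑ y, c x y
  map_add' a b := by ext x; simp [sum_add_distrib]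
  map_smul' c a := by ext x; simp [mul_sum]

lemma bd2_apply (R : V → V → F2) (x y : V) : bd2 R x y = R x y + R y x := rfl
lemma bd1_apply (c : V → V → F2) (x : V) : bd1 c x = ∑ y, c x y := rfl

/-- the indicator of an edge -/
def ed (x y : V) : V → V → F2 :=
  fun u w => (if u = x ∧ w = y then 1 else 0) + (if u = y ∧ w = x then 1 else 0)

lemma bd1_ed (x y : V) : bd1 (ed x y) = Pi.single x 1 + Pi.single y 1 := by
  ext u
  simp only [bd1_apply, ed, sum_add_distrib, Pi.add_apply, Pi.single_apply]
  congr 1 <;> split_ifs <;> simp_all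

lemma Tri.ed_mem (hT : Tri T) {x y : V} (h : adj T x y) : ed x y ∈ C1 (adj T) := by
  refine ⟨fun u w => by simp only [ed, and_comm, add_comm], fun u w k => ?_⟩
  simp only [ed]
  rw [if_neg, if_neg, add_zero] <;> rintro ⟨rfl, rfl⟩
  exacts [k (hT.symm h), k h]

lemma Tri.bd12 (hT : Tri T) {R : V → V → F2} (hR : R ∈ C2 T) : bd1 (bd2 R) = 0 := by
  ext x
  simp only [bd1_apply, bd2_apply, sum_add_distrib, Pi.zero_apply, F2_add_eq_zero]
  rw [← (Finite.injective_iff_bijective.1 (hT.nx_inj x)).sum_comp fun y => R y x]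
  refine sum_congr rfl fun y _ => ?_
  by_cases h : adj T x y
  · exact (hR.1 _ _ _ (hT.rot2 (nx_spec h))).symm
  · rw [nx_neg h, hR.2 _ _ h, hR.2 _ _ fun k => h (hT.symm k)]

lemma Tri.bd2_mem (hT : Tri T) {R : V → V → F2} (hR : R ∈ C2 T) : bd2 R ∈ C1 (adj T) :=
  ⟨fun x y => add_comm _ _, fun x y h => by
    rw [bd2_apply, hR.2 _ _ h, hR.2 _ _ fun k => h (hT.symm k), add_zero]⟩

lemma Tri.const (hT : Tri T) {α : Type*} {R : V → V → α} (h1 : ∀ x y z, T x y z → R x y = R y z)
    (h2 : ∀ x y, adj T x y → R x y = R y x) {x y x' y' : V} (h : adj T x y) (h' : adj T x' y') :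
    R x y = R x' y' := by
  have A : ∀ {x y y'}, adj T x y → adj T x y' → R x y = R x y' := by
    intro x y y' h h'
    have := hT.link h h'
    clear h'
    induction this with
    | refl => rfl
    | tail _ t ih => rw [ih, h1 _ _ _ t, h1 _ _ _ (hT.rot t), ← h2 _ _ (hT.adj13 t)]
  have := hT.conn ⟨_, h⟩ ⟨_, h'⟩
  induction this generalizing y' with
  | refl => exact A h h'
  | tail _ t ih => rw [ih t, h2 _ _ t, A (hT.symm t) h']

theorem Tri.jordan (hT : Tri T) {c : V → V → F2} (hc : c ∈ C1 (adj T)) (h0 : bd1 c = 0) :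
    ∃ R ∈ C2 T, bd2 R = c := by
  classical
  have le : (C2 T).map bd2 ≤ C1 (adj T) ⊓ LinearMap.ker bd1 := by
    rintro _ ⟨R, hR, rfl⟩; exact ⟨hT.bd2_mem hR, hT.bd12 hR⟩
  have e2 := fr_map (C2 T) bd2
  have e1 := fr_map (C1 (adj T)) bd1
  have eu := hT.euler
  obtain ⟨x0, hx0⟩ : (verts T).Nonempty := card_pos.1 (by omega)
  obtain ⟨y0, h00⟩ := mem_verts.1 hx0
  have k2 : finrank F2 (C2 T ⊓ LinearMap.ker bd2 : Submodule F2 (V → V → F2)) ≤ 1 := by
    refine fr_le _ {()} (fun R _ => R.1 x0 y0) fun R R' e => Subtype.ext ?_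
    have e' : R.1 x0 y0 = R'.1 x0 y0 := congrFun e ⟨(), by simp⟩
    have : ∀ R : (C2 T ⊓ LinearMap.ker bd2 : Submodule F2 (V → V → F2)), ∀ x y, adj T x y →
        R.1 x y = R.1 x0 y0 := fun R x y h => hT.const R.2.1.1 (fun x y _ =>
          F2_add_eq_zero.1 (congrFun (congrFun (LinearMap.mem_ker.1 R.2.2) x) y)) h h00
    ext x y
    by_cases h : adj T x y
    · rw [this R x y h, this R' x y h, e']
    · rw [R.2.1.2 x y h, R'.2.1.2 x y h]
  have k1 : 2 * finrank F2 (C1 (adj T)) ≤ (darts T).card := by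
    have a := fr_le (C1 (adj T)) ((darts T).filter fun d => d.1 < d.2) (fun c d => c.1 d.1.1 d.1.2)
      fun c c' e => Subtype.ext (by
        ext x y
        by_cases h : adj T x y
        · rcases lt_or_gt_of_ne (hT.adj_ne h) with l | l
          · exact congrFun e ⟨(x, y), by simp [h, l]⟩
          · rw [c.2.1, c'.2.1]; exact congrFun e ⟨(y, x), by simp [hT.symm h, l]⟩
        · rw [c.2.2 x y h, c'.2.2 x y h])
    have b : ((darts T).filter fun d => d.1 < d.2).card ≤
        ((darts T).filter fun d => ¬ d.1 < d.2).card :=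
      card_le_card_of_injOn Prod.swap (fun d hd => by
        simp only [coe_filter, mem_darts, Set.mem_ofPred_eq] at hd ⊢
        exact ⟨hT.symm hd.1, not_lt.2 hd.2.le⟩) Prod.swap_injective.injOn
    have := card_filter_add_card_filter_not (s := darts T) fun d => d.1 < d.2
    omega
  have k3 : (darts T).card ≤ 3 * finrank F2 (C2 T) := by
    set D0 := (darts T).filter fun d => d.1 < d.2 ∧ d.1 < nx T d.1 d.2 with hD0
    have a : D0.card ≤ finrank F2 (C2 T) := by
      let g : (D0 → F2) → V → V → F2 := fun f x y => if h : (x, y) ∈ D0 then f ⟨_, h⟩ else 0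
      refine le_fr (C2 T) D0 (fun f => ⟨fun x y => if adj T x y then
        g f x y + g f y (nx T x y) + g f (nx T x y) x else 0, fun x y z t => ?_,
        fun x y h => if_neg h⟩) fun f f' e => ?_
      · dsimp only
        rw [if_pos (show adj T x y from ⟨_, t⟩), if_pos (hT.adj23 t), hT.nx_eq t,
          hT.nx_eq (hT.rot t)]
        ring
      · ext ⟨⟨x, y⟩, hd⟩
        have e' := congrFun (congrFun (congrArg Subtype.val e) x) y
        have hd' := hd
        simp only [hD0, mem_filter, mem_darts] at hd'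
        have t := nx_spec hd'.1
        have n1 : (y, nx T x y) ∉ D0 := by
          simp only [hD0, mem_filter, hT.nx_eq (hT.rot t)]
          exact fun k => lt_asymm k.2.2 hd'.2.1
        have n2 : (nx T x y, x) ∉ D0 := by
          simp only [hD0, mem_filter]
          exact fun k => lt_asymm k.2.1 hd'.2.2
        simpa only [if_pos hd'.1, g, dif_pos hd, dif_neg n1, dif_neg n2, add_zero] using e'
    have b : darts T ⊆ D0 ∪ D0.image (fun d => (d.2, nx T d.1 d.2)) ∪
        D0.image (fun d => (nx T d.1 d.2, d.1)) := by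
      rintro ⟨x, y⟩ hd
      obtain ⟨z, t⟩ := mem_darts.1 hd
      dsimp only at t
      have n1 := hT.ne t; have n2 := hT.ne2 t; have n3 := hT.ne3 t
      simp only [mem_union, mem_image, hD0, mem_filter, mem_darts]
      by_cases c1 : x < y ∧ x < z
      · exact Or.inl (Or.inl ⟨⟨_, t⟩, by rwa [hT.nx_eq t]⟩)
      by_cases c2 : z < x ∧ z < y
      · exact Or.inl (Or.inr ⟨(z, x), ⟨⟨_, hT.rot2 t⟩, by rwa [hT.nx_eq (hT.rot2 t)]⟩,
          by rw [hT.nx_eq (hT.rot2 t)]⟩)
      · refine Or.inr ⟨(y, z), ⟨⟨_, hT.rot t⟩, ?_⟩, by rw [hT.nx_eq (hT.rot t)]⟩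
        rw [hT.nx_eq (hT.rot t)]
        dsimp only
        grind
    have := (card_le_card b).trans ((card_union_le _ _).trans (add_le_add
      ((card_union_le _ _).trans (add_le_add le_rfl card_image_le)) card_image_le))
    omega
  have k4 : (verts T).card ≤ finrank F2 ((C1 (adj T)).map bd1) + 1 := by
    set U := (C1 (adj T)).map bd1 ⊔ Submodule.span F2 {(Pi.single x0 1 : V → F2)} with hU
    have a : ∀ x, vtx T x → (Pi.single x 1 : V → F2) ∈ U := by
      intro x hx
      have := hT.conn ⟨_, h00⟩ hx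
      clear hx
      induction this with
      | refl => exact Submodule.mem_sup_right (Submodule.subset_span rfl)
      | @tail p q _ t ih =>
        have : bd1 (ed p q) ∈ U := Submodule.mem_sup_left ⟨_, hT.ed_mem t, rfl⟩
        rw [bd1_ed] at this
        simpa using U.sub_mem this ih
    have b : (verts T).card ≤ finrank F2 U := by
      refine le_fr U _ (fun f => ⟨∑ x, f x • Pi.single x.1 1,
        U.sum_mem fun x _ => U.smul_mem _ (a _ (mem_verts.1 x.2))⟩) fun f f' e => ?_
      ext x
      have := congrFun (congrArg Subtype.val e) x.1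
      simpa [Pi.single_apply, ← Subtype.ext_iff] using this
    have c := Submodule.finrank_add_le_finrank_add_finrank ((C1 (adj T)).map bd1)
      (Submodule.span F2 {(Pi.single x0 1 : V → F2)})
    rw [finrank_span_singleton (by simp)] at c
    exact b.trans c
  have := Submodule.eq_of_le_of_finrank_le le (by omega)
  exact (this ▸ (⟨hc, h0⟩ : c ∈ C1 (adj T) ⊓ LinearMap.ker bd1) : c ∈ (C2 T).map bd2)

theorem Tri.sparse (hT : Tri T) (H : Finset (V × V)) (X : Finset V)
    (hH : ∀ d ∈ H, adj T d.1 d.2 ∧ d.1 ∈ X ∧ d.2 ∈ X ∧ d.swap ∉ H) (g : ℕ)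
    (hg : ∀ c ∈ C1 fun x y => (x, y) ∈ H ∨ (y, x) ∈ H, bd1 c = 0 → c ≠ 0 →
      g ≤ (H.filter fun d => c d.1 d.2 ≠ 0).card) : g * H.card ≤ g * X.card + 2 * H.card := by
  classical
  set CH := C1 fun x y => (x, y) ∈ H ∨ (y, x) ∈ H with hCH
  have e1 := fr_map CH bd1
  have a : H.card ≤ finrank F2 CH := by
    let g : (H → F2) → V → V → F2 := fun f x y => if h : (x, y) ∈ H then f ⟨_, h⟩ else 0
    refine le_fr CH H (fun f => ⟨fun x y => g f x y + g f y x, fun x y => add_comm _ _,
      fun x y h => ?_⟩) fun f f' e => ?_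
    · push Not at h; simp only [g, dif_neg h.1, dif_neg h.2, add_zero]
    · ext ⟨⟨x, y⟩, hd⟩
      have e' := congrFun (congrFun (congrArg Subtype.val e) x) y
      have n : (y, x) ∉ H := (hH _ hd).2.2.2
      simpa only [g, dif_pos hd, dif_neg n, add_zero] using e'
  have b : finrank F2 (CH.map bd1) ≤ X.card := by
    refine fr_le _ X (fun f x => f.1 x) fun f f' e => Subtype.ext ?_
    have : ∀ f : CH.map bd1, ∀ x, x ∉ X → f.1 x = 0 := by
      rintro ⟨_, c, hc, rfl⟩ x hx
      refine sum_eq_zero fun y _ => hc.2 x y ?_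
      rintro (k | k)
      exacts [hx (hH _ k).2.1, hx (hH _ k).2.2.1]
    ext x
    by_cases h : x ∈ X
    · exact congrFun e ⟨x, h⟩
    · rw [this f x h, this f' x h]
  set Z := CH ⊓ LinearMap.ker bd1 with hZ
  have sub : ∀ c ∈ CH, c ∈ C1 (adj T) := fun c hc => ⟨hc.1, fun x y h => hc.2 x y (by
    rintro (k | k)
    exacts [h (hH _ k).1, h (hT.symm (hH _ k).1)])⟩
  choose R hR hR' using fun c : Z => hT.jordan (sub _ c.2.1) c.2.2
  let cl : V × V → Z → F2 := fun d c => R c d.1 d.2
  set Cl := (darts T).image cl with hCl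
  have zero : ∀ c c' : Z, (∀ x y, adj T x y → R c x y + R c y x = R c' x y + R c' y x) →
      c = c' := fun c c' h => Subtype.ext (by
    ext x y
    by_cases k : adj T x y
    · rw [← hR', ← hR']; exact h x y k
    · rw [(sub _ c.2.1).2 x y k, (sub _ c'.2.1).2 x y k])
  have c1 : finrank F2 Z ≤ Cl.card := fr_le Z Cl (fun c κ => κ.1 c) fun c c' e =>
    zero c c' fun x y k => by
      have e1 : R c x y = R c' x y := congrFun e ⟨cl (x, y), mem_image_of_mem _ (mem_darts.2 k)⟩
      have e2 : R c y x = R c' y x :=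
        congrFun e ⟨cl (y, x), mem_image_of_mem _ (mem_darts.2 (hT.symm k))⟩
      rw [e1, e2]
  let I : (Z → F2) → V → V → F2 := fun κ x y => if adj T x y ∧ cl (x, y) = κ then 1 else 0
  have IC : ∀ κ, I κ ∈ C2 T := fun κ => ⟨fun x y z t => by
    have : cl (x, y) = cl (y, z) := funext fun c => (hR c).1 x y z t
    simp only [I, this, hT.adj23 t, show adj T x y from ⟨z, t⟩], fun x y h => by simp [I, h]⟩
  by_cases hz : ∃ κ ∈ Cl, bd2 (I κ) = 0
  · obtain ⟨κ, hκ, h0⟩ := hz
    obtain ⟨⟨x0, y0⟩, d0, rfl⟩ := mem_image.1 hκ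
    have all : ∀ x y, adj T x y → cl (x, y) = cl (x0, y0) := fun x y k => by
      have := hT.const (IC (cl (x0, y0))).1 (fun x y _ =>
        F2_add_eq_zero.1 (congrFun (congrFun h0 x) y)) k (mem_darts.1 d0)
      simp only [I, k, show adj T x0 y0 from mem_darts.1 d0, true_and, if_true] at this
      by_contra n
      rw [if_neg n] at this
      exact zero_ne_one this
    have : finrank F2 Z ≤ 0 := fr_le Z (∅ : Finset V) (fun _ _ => 0) fun c c' _ =>
      zero c c' fun x y k => by
        have : ∀ c, R c x y = R c y x := fun c =>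
          congrFun ((all x y k).trans (all y x (hT.symm k)).symm) c
        rw [this, this, F2_add_self, F2_add_self]
    have : H.card ≤ X.card := by omega
    have := Nat.mul_le_mul_left g this
    omega
  · push Not at hz
    have := card_mul_le_card_mul (fun (κ : Z → F2) (d : V × V) => bd2 (I κ) d.1 d.2 ≠ 0)
      (s := Cl) (t := H) (m := g) (n := 2) (fun κ hκ => hg _ ⟨(hT.bd2_mem (IC κ)).1, fun x y n => by
        by_cases k : adj T x y
        · have : cl (x, y) = cl (y, x) := funext fun c => F2_add_eq_zero.1 (by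
            have := c.2.1.2 x y n
            rwa [← hR' c] at this)
          simp only [bd2_apply, I, this, k, hT.symm k, F2_add_self]
        · exact (hT.bd2_mem (IC κ)).2 x y k⟩ (hT.bd12 (IC κ)) (hz κ hκ)) (fun d _ => by
      refine (card_le_card fun κ hκ => ?_).trans (card_le_two (a := cl d) (b := cl d.swap))
      have := (mem_bipartiteBelow _).1 hκ
      simp only [mem_insert, mem_singleton]
      by_contra n
      push Not at n
      exact this.2 (by
        simp only [bd2_apply, I]
        rw [if_neg fun k => n.1 k.2.symm, if_neg fun k => n.2 k.2.symm, add_zero]))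
    have h1 : H.card ≤ X.card + Cl.card := by omega
    have := Nat.mul_le_mul_left g h1
    nlinarith

end Pool.Agent.Lib.MP_d5dfc1_co.QP
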