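import Pool.Agent.Lib.MP_d5dfc1_co.QpSplit
import Pool.Agent.Lib.MP_d5dfc1_co.QpEar

namespace Pool.Agent.Lib.MP_d5dfc1_co.QP

open Pool.Agent.Lib.MP_d5dfc1_co Relation Finset

set_option linter.unusedSectionVars false
set_option linter.unusedVariables false
set_option linter.unusedSimpArgs false

variable {V : Type*} [Fintype V] [LinearOrder V] {T : V → V → V → Prop} {p : V → V3}
  {B B' : Set V} {l h h' R l2 h2 h2' R2 : ℝ}

lemma Sz_nonneg (x y z : V3) : 0 ≤ Sz x y z := (norm_nonneg _).trans (Sz_ge1 x y z)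

lemma Good.mono (G : Good T p B l h h' R) (hB : B ⊆ B') (a1 : l2 ≤ l) (a2 : h2 ≤ h)
    (a3 : h2' ≤ h') (a4 : R ≤ R2) : Good T p B' l2 h2 h2' R2 where
  nrm := fun hx => (G.nrm hx).trans a4
  pos := G.pos
  qn := G.qn
  cvx := G.cvx
  len := fun t t' => le_trans (by linarith) (G.len t t')
  len' := fun t t' hx => a1.trans (G.len' t t' fun k => hx (hB k))
  fat := fun t => (mul_le_mul_of_nonneg_right a3 (Sz_nonneg _ _ _)).trans (G.fat t)
  fat' := fun t hx =>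
    (mul_le_mul_of_nonneg_right a2 (Sz_nonneg _ _ _)).trans (G.fat' t fun k => hx (hB k))

lemma Good.reset (G : Good T p B l h h' R) (hl : 0 ≤ l) : Good T p ∅ (l / 8) h' h' R where
  nrm := G.nrm
  pos := G.pos
  qn := G.qn
  cvx := G.cvx
  len := fun t t' => le_trans (by linarith) (G.len t t')
  len' := fun t t' _ => G.len t t'
  fat := G.fat
  fat' := fun t _ => G.fat t

lemma Tri.adj_con (hT : Tri T) {v a x y : V} (n1 : x ≠ v) (n2 : x ≠ a) (n3 : ¬ adj T x v)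
    (n4 : ¬ adj T x a) : adj (con T v a) x y ↔ adj T x y := by
  constructor
  · intro k
    obtain ⟨-, x0, y0, j, e1, e2⟩ := Tri.con_lift k
    obtain rfl := pr_eq_ne e1 n2
    rwa [← e2, pr_ne fun e : y0 = v => n3 (e ▸ j)]
  · intro k
    have m : y ≠ v := fun e => n3 (e ▸ k)
    have := hT.con_adj (v := v) (a := a) k (by rw [pr_ne n1, pr_ne m]; exact hT.adj_ne k)
    rwa [pr_ne n1, pr_ne m] at this

lemma Tri.fam_con (hT : Tri T) {F : Finset V} {a : V → V} (hF : Fam T F a) {v : V} (hv : v ∈ F) :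
    (∀ x ∈ F.erase v, x ≠ a v ∧ ∀ y, adj (con T v (a v)) x y ↔ adj T x y) ∧
      Fam (con T v (a v)) (F.erase v) a := by
  have A : ∀ x ∈ F.erase v, x ≠ a v ∧ ∀ y, adj (con T v (a v)) x y ↔ adj T x y := by
    intro x hx
    obtain ⟨n, hx⟩ := mem_erase.1 hx
    have n2 : x ≠ a v := fun e => ((hF v hv).2 x hx n.symm).1 (e ▸ (hF v hv).1.1)
    exact ⟨n2, fun y => hT.adj_con n n2 ((hF x hx).2 v hv n).1 ((hF x hx).2 v hv n).2⟩
  refine ⟨A, fun x hx => ?_⟩
  obtain ⟨n, hx'⟩ := mem_erase.1 hx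
  obtain ⟨c, d⟩ := hF x hx'
  have m1 : ∀ y, adj T x y → y ≠ v := fun y k e => (d v hv n).1 (e ▸ k)
  have m2 : ∀ y, adj T x y → y ≠ a v := fun y k e => (d v hv n).2 (e ▸ k)
  refine ⟨⟨((A x hx).2 _).2 c.1, fun y k1 k2 => ?_⟩, fun y hy ne => ?_⟩
  · rw [(A x hx).2] at k1
    obtain ⟨-, x0, y0, j, e1, e2⟩ := Tri.con_lift k2
    obtain rfl := pr_eq_ne e1 (m2 _ c.1)
    obtain rfl := pr_eq_ne e2 (m2 _ k1)
    rcases c.2 _ k1 j with t | t
    · exact Or.inl (hT.con_id t n (m1 _ c.1) (m1 _ k1))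
    · exact Or.inr (hT.con_id t n (m1 _ k1) (m1 _ c.1))
  · rw [(A x hx).2, (A x hx).2]
    exact d y (mem_erase.1 hy).2 ne

theorem level {σ : ℝ} (hσ : 0 < σ) (hσ1 : σ < 1) (hl : 0 < l) (hl1 : l ≤ 1) (hh : 0 < h)
    (hh1 : h ≤ 1) (a : V → V) (k : ℕ) (hk : 1 / 2 ≤ (1 - σ) ^ k) :
    ∀ (T : V → V → V → Prop) (F : Finset V), Tri T → Fam T F a → F.card = k →
      k + 4 ≤ (verts T).card → ∃ T0 : V → V → V → Prop, Tri T0 ∧
        (verts T0).card + k = (verts T).card ∧ ∀ p0, Good T0 p0 ∅ l h h R →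
          ∃ p, Good T p {x | ∃ v ∈ F, x = v ∨ adj T v x} ((1 - σ) ^ k * l) ((1 - σ) ^ k * h)
            ((1 - σ) ^ k * (σ * l / 576 * h)) (R / (1 - σ) ^ k) := by
  have σ' : 0 < 1 - σ := sub_pos.2 hσ1
  induction k with
  | zero =>
    intro T F hT _ _ _
    refine ⟨T, hT, rfl, fun p G => ⟨p, G.mono (Set.empty_subset _) (by simp) (by simp) ?_ (by simp)⟩⟩
    have : σ * l ≤ 1 := by nlinarith
    rw [pow_zero, one_mul]; nlinarith
  | succ k ih =>
    intro T F hT hF hc hn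
    have κ0 : 0 < (1 - σ) ^ k := by positivity
    have κ1 : (1 - σ) ^ k ≤ 1 := pow_le_one₀ σ'.le (by linarith)
    have hk' : 1 / 2 ≤ (1 - σ) ^ k := by rw [pow_succ] at hk; nlinarith
    obtain ⟨v, hv⟩ : F.Nonempty := card_pos.1 (by omega)
    obtain ⟨A, hF'⟩ := hT.fam_con hF hv
    have c := (hF v hv).1
    have cv : (verts (con T v (a v))).card + 1 = (verts T).card := by
      rw [hT.con_verts c.1, card_erase_add_one (mem_verts.2 ⟨_, c.1⟩)]
    obtain ⟨T0, hT0, e0, H⟩ := ih hk' _ _ (hT.con_tri c (by omega)) hF'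
      (by rw [card_erase_of_mem hv]; omega) (by omega)
    refine ⟨T0, hT0, by omega, fun p0 G0 => ?_⟩
    obtain ⟨p, G⟩ := H p0 G0
    obtain ⟨p', G'⟩ := split hT c (by omega) G (by
        rintro ⟨x, hx, e | e⟩
        · exact (A x hx).1 e.symm
        · exact ((hF x (mem_erase.1 hx).2).2 v hv (mem_erase.1 hx).1).2 (((A x hx).2 _).1 e))
      hσ hσ1 (by positivity) (by nlinarith) (by positivity) (by nlinarith) (by positivity) (by
        have : 0 < (1 - σ) ^ k * (σ * l * h) := by positivity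
        nlinarith)
    refine ⟨p', G'.mono ?_ (by rw [pow_succ]; linarith) (by rw [pow_succ]; linarith)
      (by rw [pow_succ]; linarith) (by rw [pow_succ, div_div])⟩
    rintro x (⟨y, hy, e⟩ | e)
    · exact ⟨y, (mem_erase.1 hy).2, e.imp id ((A y hy).2 _).1⟩
    · exact ⟨v, hv, e⟩

/-- the regular tetrahedron -/
def P4 : Fin 4 → V3 := ![![-1, -1, -1], ![1, -1, 1], ![-1, 1, 1], ![1, 1, -1]]

lemma P4_abs (i : Fin 4) (k : Fin 3) : |P4 i k| = 1 := by
  fin_cases i <;> fin_cases k <;> simp [P4]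

lemma P4_norm (i : Fin 4) : ‖P4 i‖ ≤ 1 :=
  (pi_norm_le_iff_of_nonneg zero_le_one).2 fun k => by rw [Real.norm_eq_abs, P4_abs]

lemma P4_dot (i j : Fin 4) : dot (-P4 i) (P4 j) = if i = j then -3 else 1 := by
  fin_cases i <;> fin_cases j <;> simp [P4, dot] <;> norm_num

lemma cross_le (x y : V3) : ‖cross x y‖ ≤ 2 * ‖x‖ * ‖y‖ := by
  have t : ∀ i j, |x i * y j| ≤ ‖x‖ * ‖y‖ := fun i j => by
    rw [abs_mul]
    exact mul_le_mul (norm_le_pi_norm x i) (norm_le_pi_norm y j) (abs_nonneg _) (norm_nonneg _)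
  refine (pi_norm_le_iff_of_nonneg (by positivity)).2 fun k => ?_
  rw [Real.norm_eq_abs]
  fin_cases k
  · simpa [cross] using (abs_sub _ _).trans ((add_le_add (t 1 2) (t 2 1)).trans (by linarith))
  · simpa [cross] using (abs_sub _ _).trans ((add_le_add (t 2 0) (t 0 2)).trans (by linarith))
  · simpa [cross] using (abs_sub _ _).trans ((add_le_add (t 0 1) (t 1 0)).trans (by linarith))

lemma dot_le (x y : V3) : |dot x y| ≤ 3 * ‖x‖ * ‖y‖ := by
  have t : ∀ i, |x i * y i| ≤ ‖x‖ * ‖y‖ := fun i => by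
    rw [abs_mul]
    exact mul_le_mul (norm_le_pi_norm x i) (norm_le_pi_norm y i) (abs_nonneg _) (norm_nonneg _)
  have := abs_add_three (x 0 * y 0) (x 1 * y 1) (x 2 * y 2)
  unfold dot
  linarith [t 0, t 1, t 2]

lemma Tri.base (hT : Tri T) (hn : (verts T).card ≤ 4) : ∃ p, Good T p ∅ 1 (1 / 2) (1 / 2) 1 := by
  obtain ⟨x, hx⟩ : (verts T).Nonempty := card_pos.1 (by have := hT.euler; omega)
  obtain ⟨y, z, t1⟩ := mem_verts.1 hx
  obtain ⟨w, t2⟩ := hT.opp t1
  have n1 := hT.ne t1; have n2 := hT.ne2 t1; have n3 := hT.ne3 t1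
  have n4 := hT.ne2 t2; have n5 := hT.ne3 t2; have n6 := hT.oppne t1 t2
  have all : ∀ u, vtx T u → u = x ∨ u = y ∨ u = z ∨ u = w := by
    have : ({x, y, z, w} : Finset V) = verts T := by
      refine eq_of_subset_of_card_le ?_ (hn.trans (le_of_eq ?_))
      · simp [insert_subset_iff, hT.vtx1 t1, hT.vtx2 t1, hT.vtx3 t1, hT.vtx3 t2]
      · rw [card_insert_of_notMem, card_insert_of_notMem, card_insert_of_notMem, card_singleton] <;>
          simp [n1, n2, n3, n4, n5, n6, n1.symm, n2.symm, n3.symm, n4.symm, n5.symm, n6.symm]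
    intro u hu
    simpa [← this] using mem_verts.2 hu
  have t3 : T z y w := by
    obtain ⟨u, t⟩ := hT.opp (hT.rot t1)
    rcases all u (hT.vtx3 t) with rfl | rfl | rfl | rfl
    exacts [absurd rfl (hT.oppne (hT.rot t1) t), absurd rfl (hT.ne2 t), absurd rfl (hT.ne3 t), t]
  have t4 : T x z w := by
    obtain ⟨u, t⟩ := hT.opp (hT.rot2 t1)
    rcases all u (hT.vtx3 t) with rfl | rfl | rfl | rfl
    exacts [absurd rfl (hT.ne3 t), absurd rfl (hT.oppne (hT.rot2 t1) t), absurd rfl (hT.ne2 t), t]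
  let φ : V → Fin 4 := fun u => if u = x then 0 else if u = y then 1 else if u = z then 2 else 3
  have φx : φ x = 0 := by simp [φ]
  have φy : φ y = 1 := by simp [φ, n1.symm]
  have φz : φ z = 2 := by simp [φ, n3, n2.symm]
  have φw : φ w = 3 := by simp [φ, n4.symm, n5, n6.symm]
  clear_value φ
  have inj : ∀ a b, vtx T a → vtx T b → a ≠ b → φ a ≠ φ b := fun a b ha hb n => by
    rcases all a ha with rfl | rfl | rfl | rfl <;> rcases all b hb with rfl | rfl | rfl | rfl <;>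
      simp_all
  have dt : ∀ a b c, T a b c → det3 (P4 (φ a)) (P4 (φ b)) (P4 (φ c)) = 4 := fun a b c t => by
    have := hT.ne t
    rcases all a (hT.vtx1 t) with rfl | rfl | rfl | rfl <;>
      rcases all b (hT.vtx2 t) with rfl | rfl | rfl | rfl <;>
      first
      | exact absurd rfl this
      | (first
          | rw [hT.uniq t t1] | rw [hT.uniq t (hT.rot t1)] | rw [hT.uniq t (hT.rot2 t1)]
          | rw [hT.uniq t t2] | rw [hT.uniq t (hT.rot t2)] | rw [hT.uniq t (hT.rot2 t2)]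
          | rw [hT.uniq t t3] | rw [hT.uniq t (hT.rot t3)] | rw [hT.uniq t (hT.rot2 t3)]
          | rw [hT.uniq t t4] | rw [hT.uniq t (hT.rot t4)] | rw [hT.uniq t (hT.rot2 t4)]
         simp only [φx, φy, φz, φw]
         simp [P4, det3]
         norm_num)
  have ms : ∀ i j k : Fin 4, i ≠ j → j ≠ k → k ≠ i →
      ∃ m, m ≠ i ∧ m ≠ j ∧ m ≠ k ∧ ∀ u, u ≠ i → u ≠ j → u ≠ k → u = m := by decide
  have Q : ∀ a b c, T a b c → ∃ m, Qv (P4 (φ a)) (P4 (φ b)) (P4 (φ c)) = -P4 m ∧ m ≠ φ c ∧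
      ∀ u, u ≠ φ a → u ≠ φ b → u ≠ φ c → u = m := fun a b c t => by
    obtain ⟨m, m1, m2, m3, m4⟩ := ms _ _ _ (inj _ _ (hT.vtx1 t) (hT.vtx2 t) (hT.ne t))
      (inj _ _ (hT.vtx2 t) (hT.vtx3 t) (hT.ne2 t)) (inj _ _ (hT.vtx3 t) (hT.vtx1 t) (hT.ne3 t))
    exact ⟨m, Qv_eq (by rw [dt _ _ _ t]; norm_num) (by rw [P4_dot, if_neg m1])
      (by rw [P4_dot, if_neg m2]) (by rw [P4_dot, if_neg m3]), m3, m4⟩
  have L : ∀ {a b c d}, T a b c → T b a d →
      1 ≤ ‖Qv (P4 (φ a)) (P4 (φ b)) (P4 (φ c)) - Qv (P4 (φ b)) (P4 (φ a)) (P4 (φ d))‖ := by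
    intro a b c d t t'
    obtain ⟨m, e, m1, -⟩ := Q _ _ _ t
    obtain ⟨m', e', -, m2⟩ := Q _ _ _ t'
    rw [e, e', ← m2 (φ c) (inj _ _ (hT.vtx3 t) (hT.vtx2 t) (hT.ne2 t).symm)
      (inj _ _ (hT.vtx3 t) (hT.vtx1 t) (hT.ne3 t))
      (inj _ _ (hT.vtx3 t) (hT.vtx3 t') (hT.oppne t t'))]
    have k := dot_le (-P4 m - -P4 (φ c)) (P4 (φ c))
    rw [dot_sub_l, P4_dot, P4_dot, if_neg m1, if_pos rfl] at k
    have := mul_le_mul_of_nonneg_left (P4_norm (φ c)) (norm_nonneg (-P4 m - -P4 (φ c)))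
    norm_num at k this ⊢
    linarith
  have Fa : ∀ {a b c}, T a b c → 1 / 2 * Sz (P4 (φ a)) (P4 (φ b)) (P4 (φ c)) ≤
      det3 (P4 (φ a)) (P4 (φ b)) (P4 (φ c)) := by
    intro a b c t
    have : ∀ i j, ‖cross (P4 i) (P4 j)‖ ≤ 2 := fun i j => (cross_le _ _).trans (by
      have := mul_le_mul (P4_norm i) (P4_norm j) (norm_nonneg _) zero_le_one
      linarith)
    rw [dt _ _ _ t, Sz]
    linarith [this (φ a) (φ b), this (φ b) (φ c), this (φ c) (φ a)]
  refine ⟨fun u => P4 (φ u), fun _ => P4_norm _, fun t => by rw [dt _ _ _ t]; norm_num,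
    fun t => ?_, fun t hu a b c => ?_, fun t t' => le_trans (by norm_num) (L t t'),
    fun t t' _ => L t t', Fa, fun t _ => Fa t⟩
  · obtain ⟨m, e, -⟩ := Q _ _ _ t
    rw [e, norm_neg]; exact P4_norm _
  · obtain ⟨m, e, -, m2⟩ := Q _ _ _ t
    rw [e, ← m2 _ (inj _ _ hu (hT.vtx1 t) a) (inj _ _ hu (hT.vtx2 t) b) (inj _ _ hu (hT.vtx3 t) c),
      P4_dot, if_pos rfl]
    norm_num

theorem levels (j : ℕ) : ∀ T : V → V → V → Prop, Tri T →
    (verts T).card * 42050 ^ j ≤ 4 * 42051 ^ j →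
    ∃ p, Good T p ∅ ((1 / 2) ^ (4 * j)) ((1 / 2) ^ (6 * (j + 1) ^ 2)) ((1 / 2) ^ (6 * (j + 1) ^ 2))
      (2 ^ j) := by
  have pw : ∀ {a b : ℕ}, a ≤ b → ((1 : ℝ) / 2) ^ b ≤ (1 / 2) ^ a := fun h =>
    pow_le_pow_of_le_one (by norm_num) (by norm_num) h
  have bs : ∀ j (T : V → V → V → Prop), Tri T → (verts T).card ≤ 4 → ∃ p, Good T p ∅
      ((1 / 2) ^ (4 * j)) ((1 / 2) ^ (6 * (j + 1) ^ 2)) ((1 / 2) ^ (6 * (j + 1) ^ 2)) (2 ^ j) := by
    intro j T hT hn
    obtain ⟨p, G⟩ := hT.base hn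
    have := pw (show 1 ≤ 6 * (j + 1) ^ 2 from Nat.succ_le_of_lt (by positivity))
    exact ⟨p, G.mono le_rfl (by simpa using pw (Nat.zero_le (4 * j))) (by simpa using this)
      (by simpa using this) (one_le_pow₀ (by norm_num))⟩
  induction j with
  | zero => intro T hT hn; exact bs 0 T hT (by simpa using hn)
  | succ j ih =>
    intro T hT hn
    by_cases h4 : (verts T).card ≤ 4
    · exact bs _ T hT h4
    obtain ⟨F0, a, hF0, hc⟩ := hT.exists_fam
    obtain ⟨F, hs, hk⟩ := exists_subset_card_eq (s := F0) (n := min F0.card ((verts T).card - 4))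
      (min_le_left _ _)
    have hF : Fam T F a := fun v hv => ⟨(hF0 v (hs hv)).1, fun y hy => (hF0 v (hs hv)).2 y (hs hy)⟩
    have n2 : (verts T).card ≤ 2 ^ (j + 3) := by
      have : 42051 ^ (j + 1) ≤ (2 * 42050) ^ (j + 1) := Nat.pow_le_pow_left (by norm_num) _
      rw [mul_pow] at this
      refine le_of_mul_le_mul_right (a := 42050 ^ (j + 1)) ?_ (by positivity)
      rw [show 2 ^ (j + 3) = 4 * 2 ^ (j + 1) by ring, mul_assoc]
      omega
    set σ : ℝ := (1 / 2) ^ (j + 4) with hσ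
    have σ0 : 0 < σ := by positivity
    have σ1 : σ ≤ 1 / 2 := by rw [hσ]; simpa using pw (show 1 ≤ j + 4 by omega)
    have κ : 1 / 2 ≤ (1 - σ) ^ F.card := by
      have := one_add_mul_le_pow (a := -σ) (by linarith) F.card
      have k1 : (F.card : ℝ) ≤ 2 ^ (j + 3) := by exact_mod_cast (by omega : F.card ≤ 2 ^ (j + 3))
      have k2 : (2 : ℝ) ^ (j + 3) * σ = 1 / 2 := by
        rw [hσ, pow_succ _ (j + 3), ← mul_assoc, ← mul_pow]; norm_num
      rw [← sub_eq_add_neg] at this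
      nlinarith
    have κ1 : (1 - σ) ^ F.card ≤ 1 := pow_le_one₀ (by linarith) (by linarith)
    obtain ⟨T0, hT0, e0, H⟩ := level (l := (1 / 2) ^ (4 * j)) (h := (1 / 2) ^ (6 * (j + 1) ^ 2))
      (R := 2 ^ j) σ0 (by linarith) (by positivity) (by simpa using pw (Nat.zero_le _))
      (by positivity) (by simpa using pw (Nat.zero_le _)) a F.card κ T F hT hF rfl (by omega)
    obtain ⟨p0, G0⟩ := ih T0 hT0 (by
      rcases le_total F0.card ((verts T).card - 4) with k | k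
      · rw [min_eq_left k] at hk
        refine le_of_mul_le_mul_right (a := 42051) ?_ (by norm_num)
        have : (verts T0).card * 42051 ≤ (verts T).card * 42050 := by omega
        have := Nat.mul_le_mul_right (42050 ^ j) this
        rw [pow_succ, pow_succ] at hn
        linarith
      · rw [min_eq_right k] at hk
        have : 42050 ^ j ≤ 42051 ^ j := Nat.pow_le_pow_left (by norm_num) _
        rw [show (verts T0).card = 4 by omega]
        omega)
    obtain ⟨p, G⟩ := H p0 G0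
    have hb : ((1 : ℝ) / 2) ^ (6 * (j + 1 + 1) ^ 2) ≤ (1 - σ) ^ F.card *
        (σ * (1 / 2) ^ (4 * j) / 576 * (1 / 2) ^ (6 * (j + 1) ^ 2)) := by
      refine (pw (show 11 + (j + 4) + 4 * j + 6 * (j + 1) ^ 2 ≤ _ by nlinarith)).trans ?_
      rw [pow_add, pow_add, pow_add, ← hσ]
      have : 0 < σ * (1 / 2) ^ (4 * j) * (1 / 2) ^ (6 * (j + 1) ^ 2) := by positivity
      nlinarith
    refine ⟨p, (G.reset (by positivity)).mono le_rfl ?_ hb hb ?_⟩
    · rw [mul_add, pow_add]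
      have : (0 : ℝ) < (1 / 2) ^ (4 * j) := by positivity
      nlinarith
    · rw [div_le_iff₀ (by linarith), pow_succ]
      have : (0 : ℝ) < 2 ^ j := by positivity
      nlinarith

end Pool.Agent.Lib.MP_d5dfc1_co.QP
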