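import Pool.Agent.Lib.MP_d5dfc1_co.QpHull

namespace Pool.Agent.Lib.MP_d5dfc1_co.QP

open Pool.Agent.Lib.MP_d5dfc1_co Relation Finset

set_option linter.unusedSectionVars false
set_option linter.unusedVariables false
set_option linter.unusedSimpArgs false

lemma det_le {x y z : V3} {a b c : ℝ} (hx : ‖x‖ ≤ a) (hy : ‖y‖ ≤ b) (hz : ‖z‖ ≤ c) :
    |det3 x y z| ≤ 6 * (a * b * c) := by
  rw [← dot_cross]
  refine (dot_le _ _).trans ?_
  have := cross_le x y
  have a0 := (norm_nonneg _).trans hx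
  have b0 := (norm_nonneg _).trans hy
  calc 3 * ‖cross x y‖ * ‖z‖ ≤ 3 * (2 * ‖x‖ * ‖y‖) * ‖z‖ := by gcongr
    _ ≤ 3 * (2 * a * b) * c := by gcongr
    _ = 6 * (a * b * c) := by ring

lemma det_pert {a1 a2 a3 e1 e2 e3 : V3} {N R : ℝ} (hN : 1 ≤ N) (hR : 1 ≤ R) (h1 : ‖a1‖ ≤ 2 * R)
    (h2 : ‖a2‖ ≤ 2 * R) (h3 : ‖a3‖ ≤ 2 * R) (k1 : ‖e1‖ ≤ 1) (k2 : ‖e2‖ ≤ 1) (k3 : ‖e3‖ ≤ 1) :
    N ^ 3 * det3 a1 a2 a3 - 114 * (N * R) ^ 2 ≤ det3 (N • a1 + e1) (N • a2 + e2) (N • a3 + e3) := by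
  have s : ∀ a : V3, ‖a‖ ≤ 2 * R → ‖N • a‖ ≤ 2 * (N * R) := fun a h => by
    rw [norm_smul, Real.norm_eq_abs, abs_of_pos (by linarith)]; nlinarith
  have NR : 1 ≤ N * R := by nlinarith
  have t : ∀ a e : V3, ‖a‖ ≤ 2 * R → ‖e‖ ≤ 1 → ‖N • a + e‖ ≤ 3 * (N * R) := fun a e h k =>
    (norm_add_le _ _).trans (by linarith [s a h])
  have id : det3 (N • a1 + e1) (N • a2 + e2) (N • a3 + e3) = N ^ 3 * det3 a1 a2 a3
      + det3 e1 (N • a2 + e2) (N • a3 + e3) + det3 (N • a1) e2 (N • a3 + e3)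
      + det3 (N • a1) (N • a2) e3 := by
    simp only [det3, Pi.add_apply, Pi.smul_apply, smul_eq_mul]; ring
  have b1 := abs_le.1 (det_le k1 (t _ _ h2 k2) (t _ _ h3 k3))
  have b2 := abs_le.1 (det_le (s _ h1) k2 (t _ _ h3 k3))
  have b3 := abs_le.1 (det_le (s _ h1) (s _ h2) k3)
  rw [id]; nlinarith [b1.1, b2.1, b3.1]

variable {V : Type*} [Fintype V] [LinearOrder V] {T : V → V → V → Prop} {p : V → V3}
  {l h R : ℝ}

lemma Good.vol_ge (hT : Tri T) (G : Good T p ∅ l h h R) (hl : 0 < l) (hh : 0 < h) {x y z u : V}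
    (t : T x y z) (hu : vtx T u) (n1 : u ≠ x) (n2 : u ≠ y) (n3 : u ≠ z) :
    h ^ 3 * l ^ 2 / 768 ≤ vol (p x) (p y) (p z) (p u) := by
  have sl : ∀ {x y z u}, T x y z → vtx T u → u ≠ x → u ≠ y → u ≠ z →
      dot (Qv (p x) (p y) (p z)) (p u) ≤ 1 - l * h / 8 := fun t hu a b c =>
    G.slack hT hl.le hu hh.le (fun y z k => G.fat k) t a b c
  obtain ⟨w, t'⟩ := hT.opp t
  have g1 := sl t hu n1 n2 n3
  have g2 := sl t' (hT.vtx3 t) (hT.ne2 t).symm (hT.ne3 t) (hT.oppne t t')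
  have e := det_cc (p y) (p z) (Qv (p x) (p y) (p z)) (Qv (p x) (p y) (p z) - Qv (p y) (p x) (p w))
  rw [dot_sub_l, dot_sub_l, G.d2 t, G.d3 t, G.d1 t', ← dot_cross] at e
  have b := (le_abs_self _).trans (dot_le (cross (p y) (p z))
    (cross (Qv (p x) (p y) (p z)) (Qv (p x) (p y) (p z) - Qv (p y) (p x) (p w))))
  have c := cross_le (Qv (p x) (p y) (p z)) (Qv (p x) (p y) (p z) - Qv (p y) (p x) (p w))
  have d := (norm_sub_le _ _).trans (add_le_add (G.qn t) (G.qn t'))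
  have c' := c.trans (by
    have := mul_le_mul (G.qn t) d (norm_nonneg _) zero_le_one
    linarith : _ ≤ (4 : ℝ))
  have f := mul_le_mul_of_nonneg_left c' (norm_nonneg (cross (p y) (p z)))
  have i : l * h / 96 ≤ Sz (p x) (p y) (p z) := by linarith [Sz_ge2 (p x) (p y) (p z)]
  have j : h * (l * h / 96) ≤ det3 (p x) (p y) (p z) :=
    (mul_le_mul_of_nonneg_left i hh.le).trans (G.fat t)
  have v : vol (p x) (p y) (p z) (p u) =
      det3 (p x) (p y) (p z) * (1 - dot (Qv (p x) (p y) (p z)) (p u)) := by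
    have := nv_dot (p x) (p y) (p z) (p u)
    have p0 := (G.pos t).ne'
    rw [Qv, dot_smul_l]
    unfold nv at this
    rw [this]; field_simp; ring
  rw [v]
  calc h ^ 3 * l ^ 2 / 768 = h * (l * h / 96) * (l * h / 8) := by ring
    _ ≤ _ := mul_le_mul j (by linarith) (by positivity) (G.pos t).le

theorem Good.round (hT : Tri T) (all : ∀ x, vtx T x) (G : Good T p ∅ l h h R) (hl : 0 < l)
    (hh : 0 < h) (hR : 1 ≤ R) (N M : ℕ) (hN : 1 ≤ N) (hM : N * R ≤ M)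
    (big : 114 * R ^ 2 < N * (h ^ 3 * l ^ 2 / 768)) :
    ∃ z : V → Fin 3 → ℕ, (∀ i k, z i k ≤ 2 * M) ∧ Conv T fun i k => (z i k : ℝ) := by
  have N1 : (1 : ℝ) ≤ N := by exact_mod_cast hN
  have bd : ∀ i k, |N * p i k| ≤ M := fun i k => by
    rw [abs_mul, abs_of_pos (by linarith : (0 : ℝ) < N)]
    exact (mul_le_mul_of_nonneg_left ((norm_le_pi_norm (p i) k).trans (G.nrm (all i)))
      (by linarith)).trans hM
  have lo : ∀ i k, 0 ≤ ⌊N * p i k⌋ + (M : ℤ) := fun i k => by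
    have : -(M : ℤ) ≤ ⌊N * p i k⌋ := Int.le_floor.2 (by push_cast; exact (abs_le.1 (bd i k)).1)
    omega
  refine ⟨fun i k => (⌊N * p i k⌋ + (M : ℤ)).toNat, fun i k => ?_, fun x y z u t n1 n2 n3 => ?_⟩
  · have : ⌊N * p i k⌋ ≤ (M : ℤ) := by
      have := (Int.floor_le _).trans (abs_le.1 (bd i k)).2
      exact_mod_cast this
    dsimp only
    omega
  · have c : ∀ i k, (((⌊N * p i k⌋ + (M : ℤ)).toNat : ℕ) : ℝ) = ⌊N * p i k⌋ + M := fun i k => by
      rw [← Int.cast_natCast, Int.toNat_of_nonneg (lo i k)]; push_cast; rfl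
    simp only [c]
    let e : V → V3 := fun i k => Int.fract (N * p u k) - Int.fract (N * p i k)
    have en : ∀ i, ‖e i‖ ≤ 1 := fun i => (pi_norm_le_iff_of_nonneg zero_le_one).2 fun k => by
      rw [Real.norm_eq_abs, abs_le]
      have := Int.fract_nonneg (N * p u k); have := Int.fract_lt_one (N * p u k)
      have := Int.fract_nonneg (N * p i k); have := Int.fract_lt_one (N * p i k)
      constructor <;> simp only [e] <;> linarith
    have d : ∀ i, (fun k => (⌊N * p i k⌋ : ℝ) + M) - (fun k => (⌊N * p u k⌋ : ℝ) + M) =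
        (N : ℝ) • (p i - p u) + e i := fun i => by
      ext k; simp only [e, Int.fract, Pi.sub_apply, Pi.add_apply, Pi.smul_apply, smul_eq_mul]; ring
    have a : ∀ i, ‖p i - p u‖ ≤ 2 * R := fun i =>
      (norm_sub_le _ _).trans (by linarith [G.nrm (all i), G.nrm (all u)])
    rw [vol, d, d, d]
    refine lt_of_lt_of_le ?_ (det_pert N1 hR (a x) (a y) (a z) (en x) (en y) (en z))
    have v := mul_le_mul_of_nonneg_left (G.vol_ge hT hl hh t (all u) n1 n2 n3)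
      (by positivity : (0 : ℝ) ≤ N ^ 3)
    have := mul_lt_mul_of_pos_left big (by positivity : (0 : ℝ) < N ^ 2)
    unfold vol at v
    nlinarith

theorem Tri.grid (hT : Tri T) (all : ∀ x, vtx T x) (j : ℕ)
    (hj : (verts T).card * 42050 ^ j ≤ 4 * 42051 ^ j) :
    ∃ z : V → Fin 3 → ℕ, (∀ i k, z i k ≤ 2 ^ (36 * (j + 1) ^ 2)) ∧
      Conv T fun i k => (z i k : ℝ) := by
  obtain ⟨p, G⟩ := levels j T hT hj
  obtain ⟨z, h1, h2⟩ := G.round hT all (by positivity) (by positivity) (one_le_pow₀ (by norm_num))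
    (2 ^ (18 * (j + 1) ^ 2 + 10 * j + 17)) (2 ^ (18 * (j + 1) ^ 2 + 11 * j + 17))
    Nat.one_le_two_pow (by push_cast; rw [← pow_add]; apply le_of_eq; congr 1; ring) (by
      have : ((2 ^ (18 * (j + 1) ^ 2 + 10 * j + 17) : ℕ) : ℝ) * (((1 / 2) ^ (6 * (j + 1) ^ 2)) ^ 3 *
          ((1 / 2) ^ (4 * j)) ^ 2 / 768) = 2 ^ 17 / 768 * (2 ^ j) ^ 2 := by
        push_cast
        generalize (j + 1) ^ 2 = m
        rw [show 18 * m + 10 * j + 17 = 6 * m * 3 + 4 * j * 2 + j * 2 + 17 by ring]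
        simp only [pow_add, pow_mul, one_div, inv_pow]
        field_simp
      rw [this]
      have : (0 : ℝ) < (2 ^ j) ^ 2 := by positivity
      nlinarith)
  refine ⟨z, fun i k => (h1 i k).trans ?_, h2⟩
  rw [← pow_succ']
  exact Nat.pow_le_pow_right (by norm_num) (by nlinarith)

theorem Tri.grid' (hT : Tri T) (all : ∀ x, vtx T x) :
    ∃ z : V → Fin 3 → ℕ, (∀ i k, z i k ≤ 2 ^ (10 ^ 12 * Nat.log 2 (Fintype.card V) ^ 2)) ∧
      Conv T fun i k => (z i k : ℝ) := by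
  have e : verts T = univ := by ext x; simp [all]
  have n2 : 2 ≤ Fintype.card V := by have := hT.euler; rw [e, card_univ] at this; omega
  set L := Nat.log 2 (Fintype.card V) with hL
  have L1 : 1 ≤ L := Nat.log_pos (by norm_num) n2
  have lt : Fintype.card V < 2 ^ (L + 1) := Nat.lt_pow_succ_log_self (by norm_num) _
  have b : ∀ C : ℕ, 0 < C → 2 * C ^ C ≤ (C + 1) ^ C := fun C hC => by
    have C0 : (0 : ℝ) < C := by exact_mod_cast hC
    have := one_add_mul_le_pow (a := (1 : ℝ) / C) (by linarith [one_div_pos.2 C0]) C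
    rw [mul_one_div_cancel C0.ne', show (1 : ℝ) + 1 / C = (C + 1) / C by field_simp, div_pow,
      le_div_iff₀ (by positivity)] at this
    exact_mod_cast (by linarith : (2 : ℝ) * C ^ C ≤ (C + 1) ^ C)
  obtain ⟨C, hC⟩ : ∃ C : ℕ, C = 42050 := ⟨_, rfl⟩
  obtain ⟨z, h1, h2⟩ := hT.grid all (C * L) (by
    rw [e, card_univ, show 42051 = C + 1 by omega, ← hC, pow_mul, pow_mul]
    have := Nat.pow_le_pow_left (b C (by omega)) L
    rw [mul_pow] at this
    have := Nat.mul_le_mul_right ((C ^ C) ^ L) lt.le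
    rw [pow_succ] at this
    linarith [Nat.zero_le (((C + 1) ^ C) ^ L)])
  refine ⟨z, fun i k => (h1 i k).trans (Nat.pow_le_pow_right (by norm_num) ?_), h2⟩
  subst hC
  nlinarith

end Pool.Agent.Lib.MP_d5dfc1_co.QP
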