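import Pool.Agent.Lib.MP_d5dfc1_co.QpCore

namespace Pool.Agent.Lib.MP_d5dfc1_co.QP

open Pool.Agent.Lib.MP_d5dfc1_co Relation

set_option linter.unusedSectionVars false
set_option linter.unusedVariables false

variable {V : Type*}

def Nw (c c' s x y z : V) : Prop :=
  (x = c ∧ y = c' ∧ z = s) ∨ (x = c' ∧ y = s ∧ z = c) ∨ (x = s ∧ y = c ∧ z = c')

lemma Nw.rot {c c' s x y z : V} (h : Nw c c' s x y z) : Nw c c' s y z x := by
  unfold Nw at *; tauto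

lemma Nw.not {c c' s x y z w : V} (h : Nw c c' s x y z) (h' : Nw c c' s y x w) (n1 : c ≠ c')
    (n2 : c' ≠ s) (n3 : s ≠ c) : False := by
  rcases h with ⟨rfl, rfl, rfl⟩ | ⟨rfl, rfl, rfl⟩ | ⟨rfl, rfl, rfl⟩ <;>
    rcases h' with ⟨h1, h2, -⟩ | ⟨h1, h2, -⟩ | ⟨h1, h2, -⟩ <;>
    first | exact n1 h1 | exact n1 h1.symm | exact n2 h1 | exact n2 h1.symm | exact n3 h1
          | exact n3 h1.symm | exact n1 h2 | exact n1 h2.symm | exact n2 h2 | exact n2 h2.symm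
          | exact n3 h2 | exact n3 h2.symm

def Shadow (T' : V → V → V → Prop) (p : V → V3) (π : V → V) (v a b e : V) (c0 ck : V3)
    (x y z : V) (q0 : V3) : Prop :=
  (T' (π x) (π y) (π z) ∧ q0 = Qv (p (π x)) (p (π y)) (p (π z))) ∨
    (Nw v a b x y z ∧ q0 = c0) ∨ (Nw a v e x y z ∧ q0 = ck)

def Info (T : V → V → V → Prop) (p' : V → V3) (B' : Set V) (m k k' : ℝ)
    (S : V → V → V → V3 → Prop) (x y z : V) : Prop :=
  0 < det3 (p' x) (p' y) (p' z) ∧ ‖Qv (p' x) (p' y) (p' z)‖ ≤ 1 ∧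
  k' * Sz (p' x) (p' y) (p' z) ≤ det3 (p' x) (p' y) (p' z) ∧
  (x ∉ B' ∨ y ∉ B' ∨ z ∉ B' → k * Sz (p' x) (p' y) (p' z) ≤ det3 (p' x) (p' y) (p' z)) ∧
  (∀ u, vtx T u → u ≠ x → u ≠ y → u ≠ z → dot (Qv (p' x) (p' y) (p' z)) (p' u) < 1) ∧
  ∃ q0, ‖Qv (p' x) (p' y) (p' z) - q0‖ ≤ m ∧ S x y z q0

variable [Fintype V] {T T' : V → V → V → Prop} {p : V → V3} {B : Set V} {l h h' R : ℝ}

lemma Shadow.rot (hT' : Tri T') {π : V → V} {v a b e : V} {c0 ck : V3} {x y z : V} {q0 : V3}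
    (h : Shadow T' p π v a b e c0 ck x y z q0) : Shadow T' p π v a b e c0 ck y z x q0 := by
  rcases h with ⟨h, e⟩ | ⟨h, e⟩ | ⟨h, e⟩
  · exact Or.inl ⟨hT'.rot h, by rw [e]; exact (Qv_rot _ _ _).symm⟩
  · exact Or.inr (Or.inl ⟨h.rot, e⟩)
  · exact Or.inr (Or.inr ⟨h.rot, e⟩)

lemma Info.rot {p' : V → V3} {B' : Set V} {m k k' : ℝ} {S : V → V → V → V3 → Prop}
    (hS : ∀ x y z q, S x y z q → S y z x q) {x y z : V} (h : Info T p' B' m k k' S x y z) :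
    Info T p' B' m k k' S y z x := by
  obtain ⟨h1, h2, h3, h4, h5, q, h6, h7⟩ := h
  unfold Info
  rw [det_rot, Qv_rot, Sz_rot]
  exact ⟨h1, h2, h3, fun h => h4 (by tauto), fun u hu a b c => h5 u hu c a b, q, h6, hS _ _ _ _ h7⟩

lemma Nw.old (hT' : Tri T') {π : V → V} {a c c' s x y w z : V} {cs : V3} (h : Nw c c' s y x w)
    (t : T' (π x) (π y) z) (M : Mid T' p a s cs l) (e1 : π c = a) (e2 : π c' = a)
    (e3 : π s = s) : l / 3 ≤ ‖Qv (p (π x)) (p (π y)) (p z) - cs‖ := by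
  rcases h with ⟨rfl, rfl, rfl⟩ | ⟨rfl, rfl, rfl⟩ | ⟨rfl, rfl, rfl⟩
  · exact absurd (e2.trans e1.symm) (hT'.ne t)
  · rw [e3, e2] at t ⊢
    rw [← Qv_rot]; exact M.d2 _ (hT'.rot t)
  · rw [e3, e1] at t ⊢
    exact M.d1 _ t

theorem split [DecidableEq V] (hT : Tri T) {v a : V} (hc : contr T v a)
    (hn : 5 ≤ (verts T).card) (G : Good (con T v a) p B l h h' R) (ha : a ∉ B)
    {σ : ℝ} (hσ : 0 < σ) (hσ1 : σ < 1) (hl : 0 < l) (hl1 : l ≤ 1) (hh : 0 < h) (hh1 : h ≤ 1)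
    (h0 : 0 ≤ h') (hh' : h' ≤ σ * l * h / 288) :
    ∃ p', Good T p' (B ∪ {x | x = v ∨ adj T v x}) ((1 - σ) * l) ((1 - σ) * h) ((1 - σ) * h')
      (R / (1 - σ)) := by
  have hT' := hT.con_tri hc hn
  set T' := con T v a with hT'd
  obtain ⟨e, he⟩ := hT.symm hc.1
  obtain ⟨b, hb⟩ := hc.1
  have nva := hT.ne hb
  have nab := hT.ne2 hb
  have nbv := hT.ne3 hb
  have nve := hT.ne2 he
  have nea := hT.ne3 he
  have πv : pr v a v = a := pr_v
  have πa : pr v a a = a := pr_a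
  have πb : pr v a b = b := pr_ne nbv
  have πe : pr v a e = e := pr_ne nve.symm
  have ab : adj T' a b := by
    have := hT.con_adj (v := v) (a := a) (hT.adj23 hb) (by rwa [πa, πb]); rwa [πa, πb] at this
  have ae : adj T' a e := by
    have := hT.con_adj (v := v) (a := a) (hT.adj13 he) (by rw [πa, πe]; exact nea.symm)
    rwa [πa, πe] at this
  have va : vtx T' a := ⟨_, ab⟩
  obtain ⟨c0, M0, -⟩ := G.mid hT' ha ab 0
  obtain ⟨ck, Mk, dk⟩ := G.mid hT' ha ae c0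
  have sv : ∀ y z, T v y z → y ≠ a → z ≠ a → T' a y z := fun y z k h1 h2 => hT.con_v k h1 h2
  have sa : ∀ y z, T a y z → y ≠ v → z ≠ v → T' a y z :=
    fun y z k h1 h2 => hT.con_id k nva.symm h1 h2
  obtain ⟨ε1, Δ1, ε10, Δ10, η1, d1, ⟨y1, z1, k1, e1⟩, S1, F1⟩ :=
    half hT hT' G ha hσ hσ1 hl hl1 hh hh1 hb (hT.rot he) sv M0 Mk
  obtain ⟨ε2, Δ2, ε20, Δ20, η2, d2, ⟨y2, z2, k2, e2⟩, S2, F2⟩ :=
    half hT hT' G ha hσ hσ1 hl hl1 hh hh1 he (hT.rot hb) sa Mk M0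
  rw [cross_anti ck c0] at d2 e2 S2 F2
  have w0 : dot c0 (cross ck c0) = 0 := dot_cross_self2 _ _
  have wk : dot ck (cross ck c0) = 0 := dot_cross_self1 _ _
  generalize cross ck c0 = w at *
  set η := σ * l * h / 48 with hη
  have η0 : 0 < η := by positivity
  set p' : V → V3 := fun u => if u = v then p a + ε1 • w else if u = a then p a + ε2 • -w else p u
    with hp'
  have pv : p' v = p a + ε1 • w := by simp [hp']
  have pa : p' a = p a + ε2 • -w := by simp [hp', nva.symm]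
  have pu : ∀ u, u ≠ v → u ≠ a → p' u = p u := fun u h1 h2 => by simp [hp', h1, h2]
  clear_value p'
  set B' := B ∪ {x | x = v ∨ adj T v x} with hB'
  have vB : v ∈ B' := Or.inr (Or.inl rfl)
  have aB : a ∈ B' := Or.inr (Or.inr ⟨_, hb⟩)
  have bB : b ∈ B' := Or.inr (Or.inr (hT.adj13 hb))
  have eB : e ∈ B' := Or.inr (Or.inr (hT.adj23 he))
  have σ' : 0 < 1 - σ := sub_pos.2 hσ1
  have lh : σ * l * h ≤ h := by
    have : σ * l ≤ 1 := by nlinarith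
    nlinarith
  have h'h : h' ≤ h := by linarith
  have vu : ∀ u, vtx T u → u ≠ v → vtx T' u := fun u h1 h2 => (hT.con_vtx hc.1).2 ⟨h1, h2⟩
  have sl : ∀ {x y z}, T' x y z → a ≠ x → a ≠ y → a ≠ z →
      dot (Qv (p x) (p y) (p z)) (p a) ≤ 1 - l * h / 8 := fun t n1 n2 n3 =>
    G.slack hT' hl.le va hh.le (fun y z k => G.fat' k ha) t n1 n2 n3
  have Sz0 : ∀ x y z, 0 ≤ Sz x y z := fun x y z => (norm_nonneg _).trans (Sz_ge1 x y z)
  set S := Shadow T' p (pr v a) v a b e c0 ck with hS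
  have far : ∀ x y z, T x y z → x ≠ v → x ≠ a → y ≠ v → y ≠ a → z ≠ v → z ≠ a →
      Info T p' B' (σ * l / 16) ((1 - σ) * h) ((1 - σ) * h') S x y z := by
    intro x y z t n1 n2 n3 n4 n5 n6
    have t' : T' x y z := hT.con_id t n1 n3 n5
    unfold Info
    rw [pu x n1 n2, pu y n3 n4, pu z n5 n6]
    have z0 := Sz0 (p x) (p y) (p z)
    refine ⟨G.pos t', G.qn t', ?_, fun hx => ?_, fun u hu m1 m2 m3 => ?_, _, ?_,
      Or.inl ⟨by rwa [pr_ne n1, pr_ne n3, pr_ne n5], rfl⟩⟩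
    · have := G.fat t'
      have := mul_nonneg hσ.le (mul_nonneg h0 z0)
      linarith
    · have : h * Sz (p x) (p y) (p z) ≤ det3 (p x) (p y) (p z) := by
        rcases hx with hx | hx | hx
        · exact G.fat' t' fun k => hx (Or.inl k)
        · have := G.fat' (hT'.rot t') fun k => hx (Or.inl k)
          rwa [det_rot, Sz_rot] at this
        · have := G.fat' (hT'.rot2 t') fun k => hx (Or.inl k)
          rwa [← det_rot, ← Sz_rot] at this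
      have := mul_nonneg hσ.le (mul_nonneg hh.le z0)
      linarith
    · by_cases u1 : u = v
      · rw [u1, pv]; exact F1 _ (fun u hu => G.le t' hu) (sl t' n2.symm n4.symm n6.symm)
      by_cases u2 : u = a
      · rw [u2, pa]; exact F2 _ (fun u hu => G.le t' hu) (sl t' n2.symm n4.symm n6.symm)
      rw [pu u u1 u2]; exact G.cvx t' (vu u hu u1) m1 m2 m3
    · rw [pr_ne n1, pr_ne n3, pr_ne n5, sub_self, norm_zero]; positivity
  have one : ∀ c c' W W', p' c = p a + W → p' c' = p a + W' → pr v a c = a →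
      (∀ u, u ≠ c → u ≠ c' → u ≠ v ∧ u ≠ a) → ∀ y z, T c y z → y ≠ c' → z ≠ c' → T' a y z →
      Side (p a) (p y) (p z) W σ l h R → dot (Qv (p a) (p y) (p z)) W' < 0 →
      (∀ r, (∀ u, vtx T' u → dot r (p u) ≤ 1) → dot r (p a) ≤ 1 - l * h / 8 →
        dot r (p a + W') < 1) →
      Info T p' B' (σ * l / 16) ((1 - σ) * h) ((1 - σ) * h') S c y z := by
    intro c c' W W' q1 q2 q3 q4 y z t n1 n2 t' Sd neg F
    obtain ⟨m1, m2⟩ := q4 y (hT.ne t).symm n1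
    obtain ⟨m3, m4⟩ := q4 z (hT.ne3 t) n2
    unfold Info
    rw [q1, pu y m1 m2, pu z m3 m4]
    obtain ⟨x, tx⟩ := hT'.opp (hT'.rot t')
    have g := sl tx m4.symm m2.symm (hT'.oppne (hT'.rot t') tx)
    obtain ⟨μ, μ0, μ1, hμ⟩ := Sd.cvx _ (G.d2 tx) (G.d1 tx) g
    have z0 := Sz0 (p a + W) (p y) (p z)
    refine ⟨Sd.pos, ?_, ?_, fun _ => Sd.fat, fun u hu j1 j2 j3 => ?_, _, ?_,
      Or.inl ⟨by rwa [q3, pr_ne m1, pr_ne m3], rfl⟩⟩
    · rw [hμ]; exact conv_norm μ0 μ1.le (G.qn t') (G.qn tx)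
    · refine le_trans ?_ Sd.fat; gcongr
    · rw [hμ, conv_dot]
      have : dot (Qv (p a) (p y) (p z)) (p' u) < 1 ∧ dot (Qv (p z) (p y) (p x)) (p' u) ≤ 1 := by
        by_cases u1 : u = c'
        · rw [u1, q2]
          exact ⟨by rw [dot_add_r, G.d1 t']; linarith, (F _ (fun u hu => G.le tx hu) g).le⟩
        · obtain ⟨i1, i2⟩ := q4 u j1 u1
          rw [pu u i1 i2]
          exact ⟨G.cvx t' (vu u hu i1) i2 j2 j3, G.le tx (vu u hu i1)⟩
      nlinarith [this.1, this.2]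
    · rw [q3, pr_ne m1, pr_ne m3]; exact Sd.mv
  have new : ∀ c c' s cs (w' : V3) (a1 a2 : ℝ), p' c = p a + a1 • w' → p' c' = p a + a2 • -w' →
      (∀ u, u ≠ c → u ≠ c' → u ≠ v ∧ u ≠ a) → s ≠ v → s ≠ a → c ∈ B' → c' ∈ B' → s ∈ B' →
      Mid T' p a s cs l → dot cs w' = 0 → S c c' s cs →
      (0 < det3 (p a + a1 • w') (p a + a2 • -w') (p s) ∧
        η / 6 * Sz (p a + a1 • w') (p a + a2 • -w') (p s) ≤
          det3 (p a + a1 • w') (p a + a2 • -w') (p s)) →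
      Info T p' B' (σ * l / 16) ((1 - σ) * h) ((1 - σ) * h') S c c' s := by
    intro c c' s cs w' a1 a2 q1 q2 q4 n1 n2 b1 b2 b3 M z0 sh ⟨k1, k2⟩
    unfold Info
    rw [q1, q2, pu s n1 n2]
    have Q : Qv (p a + a1 • w') (p a + a2 • -w') (p s) = cs :=
      Qv_eq k1.ne' (by rw [dot_add_r, dot_smul_r, z0, M.ca]; ring)
        (by rw [dot_add_r, dot_smul_r, dot_neg_r, z0, M.ca]; ring) M.cs
    rw [Q]
    refine ⟨k1, M.nrm, le_trans ?_ k2, fun hx => by tauto, fun u hu j1 j2 j3 => ?_, cs,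
      by rw [sub_self, norm_zero]; positivity, sh⟩
    · have := Sz0 (p a + a1 • w') (p a + a2 • -w') (p s)
      gcongr
      have := mul_nonneg hσ.le h0
      linarith
    · obtain ⟨i1, i2⟩ := q4 u j1 j2
      rw [pu u i1 i2]; exact M.lt u (vu u hu i1) i2 j3
  have ηD : η ≤ (ε1 + ε2) * min Δ1 Δ2 := by
    rcases le_total Δ1 Δ2 with k | k
    · rw [min_eq_left k]; nlinarith [mul_pos ε20 Δ10]
    · rw [min_eq_right k]; nlinarith [mul_pos ε10 Δ20]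
  obtain ⟨yb, tb⟩ := hT.adj13 hb
  obtain ⟨xb, tb'⟩ := hT.pred (hT.adj23 hb)
  obtain ⟨ye, te⟩ := hT.adj13 he
  obtain ⟨xe, te'⟩ := hT.pred (hT.adj23 he)
  have nbe := hT.oppne hb he
  have Svb := (S1 _ _ tb nab.symm fun k => nbe (hT.uniq2 (k ▸ tb) (hT.rot he))).1
  have Sab := (S2 _ _ tb' (fun k => nbe (hT.uniq (k ▸ tb') he)) nbv).1
  have Sae := (S2 _ _ te nve.symm fun k => nbe (hT.uniq2 (hT.rot hb) (k ▸ te))).1
  have Sve := (S1 _ _ te' (fun k => nbe (hT.uniq hb (k ▸ te'))) nea).1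
  have I1 : Info T p' B' (σ * l / 16) ((1 - σ) * h) ((1 - σ) * h') S v a b := by
    refine new v a b c0 w ε1 ε2 pv pa (fun u h1 h2 => ⟨h1, h2⟩) nbv nab.symm vB aB bB M0 w0
      (Or.inr (Or.inl ⟨Or.inl ⟨rfl, rfl, rfl⟩, rfl⟩))
      (newtri hσ1 ε10 ε20 ηD η0.le d1 ?_ Svb Sab)
    exact wedge M0.ca M0.cs w0 (G.d1 k1) (G.d1 k2) (G.le k1 (hT'.vtxr ab)) (G.le k2 (hT'.vtxr ab))
      M0.nrm (G.qn k1) (G.qn k2) (e1 ▸ min_le_left _ _)
      (by rw [← dot_neg_r, ← e2]; exact min_le_right _ _) d1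
  have I2 : Info T p' B' (σ * l / 16) ((1 - σ) * h) ((1 - σ) * h') S a v e := by
    refine new a v e ck (-w) ε2 ε1 pa (by rw [neg_neg, pv]) (fun u h1 h2 => ⟨h2, h1⟩) nve.symm nea
      aB vB eB Mk (by rw [dot_neg_r, wk, neg_zero])
      (Or.inr (Or.inr ⟨Or.inl ⟨rfl, rfl, rfl⟩, rfl⟩))
      (newtri hσ1 ε20 ε10 (by rwa [add_comm]) η0.le d2 ?_ Sae (by rwa [neg_neg]))
    exact wedge Mk.ca Mk.cs (by rw [dot_neg_r, wk, neg_zero]) (G.d1 k2) (G.d1 k1)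
      (G.le k2 (hT'.vtxr ae)) (G.le k1 (hT'.vtxr ae))
      Mk.nrm (G.qn k2) (G.qn k1) (e2 ▸ min_le_right _ _)
      (by rw [dot_neg_r, neg_neg, ← e1]; exact min_le_left _ _) d2
  have rot : ∀ {x y z}, Info T p' B' (σ * l / 16) ((1 - σ) * h) ((1 - σ) * h') S x y z →
      Info T p' B' (σ * l / 16) ((1 - σ) * h) ((1 - σ) * h') S y z x :=
    fun h => h.rot fun x y z q k => k.rot hT'
  have Iv : ∀ y z, T v y z → Info T p' B' (σ * l / 16) ((1 - σ) * h) ((1 - σ) * h') S v y z := by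
    intro y z t
    by_cases n1 : y = a
    · subst n1; rw [hT.uniq t hb]; exact I1
    by_cases n2 : z = a
    · subst n2; rw [hT.uniq2 t (hT.rot he)]; exact rot I2
    refine one v a _ _ pv pa πv (fun u h1 h2 => ⟨h1, h2⟩) y z t n1 n2 (sv _ _ t n1 n2)
      (S1 _ _ t n1 n2).1 ?_ F2
    rw [dot_smul_r, dot_neg_r]
    nlinarith [mul_pos ε20 (S1 _ _ t n1 n2).2]
  have Ia : ∀ y z, T a y z → Info T p' B' (σ * l / 16) ((1 - σ) * h) ((1 - σ) * h') S a y z := by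
    intro y z t
    by_cases n1 : y = v
    · subst n1; exact rot (rot (Iv _ _ (hT.rot t)))
    by_cases n2 : z = v
    · subst n2; exact rot (Iv _ _ (hT.rot2 t))
    refine one a v _ _ pa pv πa (fun u h1 h2 => ⟨h2, h1⟩) y z t n1 n2 (sa _ _ t n1 n2)
      (S2 _ _ t n1 n2).1 ?_ F1
    have := (S2 _ _ t n1 n2).2
    rw [dot_neg_r] at this
    rw [dot_smul_r]
    nlinarith [mul_pos ε10 this]
  have I : ∀ {x y z}, T x y z → Info T p' B' (σ * l / 16) ((1 - σ) * h) ((1 - σ) * h') S x y z := by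
    intro x y z t
    by_cases n1 : x = v
    · subst n1; exact Iv _ _ t
    by_cases n2 : x = a
    · subst n2; exact Ia _ _ t
    by_cases n3 : y = v
    · subst n3; exact rot (rot (Iv _ _ (hT.rot t)))
    by_cases n4 : y = a
    · subst n4; exact rot (rot (Ia _ _ (hT.rot t)))
    by_cases n5 : z = v
    · subst n5; exact rot (Iv _ _ (hT.rot2 t))
    by_cases n6 : z = a
    · subst n6; exact rot (Ia _ _ (hT.rot2 t))
    exact far x y z t n1 n2 n3 n4 n5 n6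
  have L : ∀ {x y z u q q'}, S x y z q → S y x u q' →
      l / 8 ≤ ‖q - q'‖ ∧ (x ∉ B' → l ≤ ‖q - q'‖) := by
    intro x y z u q q' s1 s2
    have nb1 : ∀ {x y z}, Nw v a b x y z → x ∈ B' ∧ y ∈ B' := by
      rintro x y z (⟨rfl, rfl, rfl⟩ | ⟨rfl, rfl, rfl⟩ | ⟨rfl, rfl, rfl⟩) <;> tauto
    have nb2 : ∀ {x y z}, Nw a v e x y z → x ∈ B' ∧ y ∈ B' := by
      rintro x y z (⟨rfl, rfl, rfl⟩ | ⟨rfl, rfl, rfl⟩ | ⟨rfl, rfl, rfl⟩) <;> tauto
    rcases s1 with ⟨s1, rfl⟩ | ⟨s1, rfl⟩ | ⟨s1, rfl⟩ <;>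
      rcases s2 with ⟨s2, rfl⟩ | ⟨s2, rfl⟩ | ⟨s2, rfl⟩
    · refine ⟨G.len s1 s2, fun hx => G.len' s1 s2 fun k => hx (Or.inl ?_)⟩
      rwa [pr_ne fun k : x = v => hx (k ▸ vB)] at k
    · exact ⟨by linarith [s2.old hT' s1 M0 πv πa πb], fun hx => absurd (nb1 s2).2 hx⟩
    · exact ⟨by linarith [s2.old hT' s1 Mk πa πv πe], fun hx => absurd (nb2 s2).2 hx⟩
    · rw [norm_sub_rev]
      exact ⟨by linarith [s1.old hT' s2 M0 πv πa πb], fun hx => absurd (nb1 s1).1 hx⟩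
    · exact (s1.not s2 nva nab nbv).elim
    · exact ⟨by linarith, fun hx => absurd (nb1 s1).1 hx⟩
    · rw [norm_sub_rev]
      exact ⟨by linarith [s1.old hT' s2 Mk πa πv πe], fun hx => absurd (nb2 s1).1 hx⟩
    · rw [norm_sub_rev]
      exact ⟨by linarith, fun hx => absurd (nb2 s1).1 hx⟩
    · exact (s1.not s2 nva.symm nve nea).elim
  have L' : ∀ {x y z u}, T x y z → T y x u →
      (1 - σ) * l / 8 ≤ ‖Qv (p' x) (p' y) (p' z) - Qv (p' y) (p' x) (p' u)‖ ∧ (x ∉ B' →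
      (1 - σ) * l ≤ ‖Qv (p' x) (p' y) (p' z) - Qv (p' y) (p' x) (p' u)‖) := by
    intro x y z u t t'
    obtain ⟨-, -, -, -, -, q, m, s⟩ := I t
    obtain ⟨-, -, -, -, -, q', m', s'⟩ := I t'
    obtain ⟨j1, j2⟩ := L s s'
    have : ‖q - q'‖ ≤ ‖Qv (p' x) (p' y) (p' z) - Qv (p' y) (p' x) (p' u)‖ + σ * l / 8 := by
      have a1 := norm_sub_le_norm_sub_add_norm_sub q (Qv (p' x) (p' y) (p' z)) q'
      have a2 := norm_sub_le_norm_sub_add_norm_sub (Qv (p' x) (p' y) (p' z))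
        (Qv (p' y) (p' x) (p' u)) q'
      rw [norm_sub_rev q (Qv _ _ _)] at a1
      linarith
    have := mul_pos hσ hl
    exact ⟨by linarith, fun hx => by linarith [j2 hx]⟩
  refine ⟨p', fun {x} hx => ?_, fun t => (I t).1, fun t => (I t).2.1,
    fun t hu => (I t).2.2.2.2.1 _ hu, fun t t' => (L' t t').1, fun t t' => (L' t t').2,
    fun t => (I t).2.2.1, fun t hx => (I t).2.2.2.1 (Or.inl hx)⟩
  by_cases n1 : x = v
  · rw [n1, pv]; exact Svb.nrm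
  by_cases n2 : x = a
  · rw [n2, pa]; exact Sab.nrm
  rw [pu x n1 n2, le_div_iff₀ σ']
  have := G.nrm (vu x hx n1)
  nlinarith [norm_nonneg (p x)]

end Pool.Agent.Lib.MP_d5dfc1_co.QP
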