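import Pool.Agent.Lib.MP_d5dfc1_co.Poly

namespace Pool.Agent.Lib.MP_d5dfc1_co.QP

open Pool.Agent.Lib.MP_d5dfc1_co

/-- the dual vertex of the triangle `x y z` -/
noncomputable def Qv (x y z : V3) : V3 := (det3 x y z)⁻¹ • (cross y z + cross z x + cross x y)

/-- the size of a triangle -/
noncomputable def Sz (x y z : V3) : ℝ := ‖cross x y‖ + ‖cross y z‖ + ‖cross z x‖

lemma det_rot (x y z : V3) : det3 y z x = det3 x y z := by simp only [det3]; ring

lemma Qv_rot (x y z : V3) : Qv y z x = Qv x y z := by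
  unfold Qv; rw [det_rot]; congr 1; abel

lemma Sz_rot (x y z : V3) : Sz y z x = Sz x y z := by unfold Sz; ring

lemma dot_smul_l (a : ℝ) (x y : V3) : dot (a • x) y = a * dot x y := by
  simp only [dot, Pi.smul_apply, smul_eq_mul]; ring

lemma dot_smul_r (a : ℝ) (x y : V3) : dot x (a • y) = a * dot x y := by
  simp only [dot, Pi.smul_apply, smul_eq_mul]; ring

lemma dot_add_l (x y z : V3) : dot (x + y) z = dot x z + dot y z := by
  simp only [dot, Pi.add_apply]; ring

lemma dot_add_r (x y z : V3) : dot x (y + z) = dot x y + dot x z := by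
  simp only [dot, Pi.add_apply]; ring

lemma dot_sub_l (x y z : V3) : dot (x - y) z = dot x z - dot y z := by
  simp only [dot, Pi.sub_apply]; ring

lemma dot_neg_r (x y : V3) : dot x (-y) = - dot x y := by
  simp only [dot, Pi.neg_apply]; ring

lemma dot_comm (x y : V3) : dot x y = dot y x := by simp only [dot]; ring

lemma cross_anti (x y : V3) : cross y x = - cross x y := by
  ext k; fin_cases k <;> simp [cross] <;> ring

lemma norm_cross_comm (x y : V3) : ‖cross y x‖ = ‖cross x y‖ := by rw [cross_anti, norm_neg]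

lemma Qv_dot1 {x y z : V3} (h : det3 x y z ≠ 0) : dot (Qv x y z) x = 1 := by
  have : dot (cross y z + cross z x + cross x y) x = det3 x y z := by
    simp [dot, cross, det3]; ring
  rw [Qv, dot_smul_l, this, inv_mul_cancel₀ h]

lemma Qv_dot2 {x y z : V3} (h : det3 x y z ≠ 0) : dot (Qv x y z) y = 1 := by
  rw [← Qv_rot]; exact Qv_dot1 (by rwa [det_rot])

lemma Qv_dot3 {x y z : V3} (h : det3 x y z ≠ 0) : dot (Qv x y z) z = 1 := by
  rw [← Qv_rot]; exact Qv_dot2 (by rwa [det_rot])

lemma par {X P s : V3} (w : V3) (h1 : dot X P = 0) (h2 : dot X s = 0) :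
    dot X w • cross P s = det3 P s w • X := by
  simp only [dot] at h1 h2
  ext k
  fin_cases k <;> simp [dot, cross, det3]
  · linear_combination (w 1 * s 2 - w 2 * s 1) * h1 - (w 1 * P 2 - w 2 * P 1) * h2
  · linear_combination (w 2 * s 0 - w 0 * s 2) * h1 - (w 2 * P 0 - w 0 * P 2) * h2
  · linear_combination (w 0 * s 1 - w 1 * s 0) * h1 - (w 0 * P 1 - w 1 * P 0) * h2

lemma par_norm {X P s : V3} (w : V3) (h1 : dot X P = 0) (h2 : dot X s = 0) :
    |dot X w| * ‖cross P s‖ = |det3 P s w| * ‖X‖ := by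
  have := congrArg norm (par w h1 h2)
  simpa only [norm_smul, Real.norm_eq_abs] using this

lemma Qv_sub {x y z c : V3} (h : det3 x y z ≠ 0) (h2 : dot c y = 1) (h3 : dot c z = 1) :
    (1 - dot c x) • cross y z = det3 x y z • (Qv x y z - c) := by
  have := par (X := Qv x y z - c) (P := y) (s := z) x (by rw [dot_sub_l, Qv_dot2 h, h2, sub_self])
    (by rw [dot_sub_l, Qv_dot3 h, h3, sub_self])
  rwa [dot_sub_l, Qv_dot1 h, det_rot] at this

lemma Qv_eq {x y z c : V3} (h : det3 x y z ≠ 0) (h1 : dot c x = 1) (h2 : dot c y = 1)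
    (h3 : dot c z = 1) : Qv x y z = c := by
  have := Qv_sub h h2 h3
  rw [h1, sub_self, zero_smul] at this
  exact sub_eq_zero.1 ((smul_eq_zero.1 this.symm).resolve_left h)

lemma cramer (x y z u : V3) :
    det3 x y z • u = det3 u y z • x + det3 z x u • y + det3 x y u • z := by
  ext k; fin_cases k <;> simp [det3] <;> ring

lemma cross_pos {x y z : V3} (h : det3 x y z ≠ 0) : 0 < ‖cross x y‖ := by
  rw [norm_pos_iff]
  intro h0
  apply h
  rw [← dot_cross, h0]; simp [dot]

lemma Sz_ge1 (x y z : V3) : ‖cross x y‖ ≤ Sz x y z := by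
  unfold Sz; linarith [norm_nonneg (cross y z), norm_nonneg (cross z x)]

lemma Sz_ge2 (x y z : V3) : ‖cross y z‖ ≤ Sz x y z := by rw [← Sz_rot]; exact Sz_ge1 _ _ _

lemma Sz_ge3 (x y z : V3) : ‖cross z x‖ ≤ Sz x y z := by rw [← Sz_rot]; exact Sz_ge2 _ _ _

lemma slope {P y q r W : V3} {l η : ℝ} (hq1 : dot q P = 1) (hq2 : dot q y = 1)
    (hr1 : dot r P = 1) (hr2 : dot r y = 1) (hl : l / 3 ≤ ‖q - r‖)
    (he : |dot q W - dot r W| ≤ η) : |det3 P y W| * l ≤ 3 * η * ‖cross P y‖ := by
  have := par_norm (X := q - r) (P := P) (s := y) W (by rw [dot_sub_l, hq1, hr1, sub_self])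
    (by rw [dot_sub_l, hq2, hr2, sub_self])
  rw [dot_sub_l] at this
  have h1 := mul_le_mul_of_nonneg_left hl (abs_nonneg (det3 P y W))
  have h2 := mul_le_mul_of_nonneg_right he (norm_nonneg (cross P y))
  linarith

/-- sign of the slope along a dual edge -/
lemma slope_sign {P y z r W : V3} (hA : 0 < det3 P y z) (hr1 : dot r P = 1) (hr2 : dot r y = 1) :
    det3 P y z * (dot (Qv P y z) W - dot r W) = (1 - dot r z) * det3 P y W := by
  have h := Qv_sub (x := z) (y := P) (z := y) (c := r) (by rw [← det_rot]; exact hA.ne') hr1 hr2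
  have := congrArg (fun X => dot X W) h
  simp only [dot_smul_l, dot_cross, dot_sub_l] at this
  rw [← det_rot z P y, ← Qv_rot z P y] at this
  exact this.symm

lemma slope_sign' {P y z r W : V3} (hA : 0 < det3 P y z) (hr1 : dot r P = 1) (hr2 : dot r z = 1) :
    det3 P y z * (dot (Qv P y z) W - dot r W) = (1 - dot r y) * det3 z P W := by
  have := slope_sign (P := z) (y := P) (z := y) (r := r) (W := W) (by rw [← det_rot]; exact hA)
    hr2 hr1
  rwa [← det_rot z P y, ← Qv_rot z P y] at this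

structure Side (P y z W : V3) (s l h R : ℝ) : Prop where
  pos : 0 < det3 (P + W) y z
  fat : (1 - s) * h * Sz (P + W) y z ≤ det3 (P + W) y z
  nrm : ‖P + W‖ ≤ R / (1 - s)
  mv : ‖Qv (P + W) y z - Qv P y z‖ ≤ s * l / 16
  cvx : ∀ c, dot c y = 1 → dot c z = 1 → dot c P ≤ 1 - l * h / 8 →
    ∃ μ : ℝ, 0 ≤ μ ∧ μ < 1 ∧ Qv (P + W) y z = (1 - μ) • Qv P y z + μ • c
  w1 : ‖cross W P‖ ≤ s / 8 * ‖cross P y‖
  w2 : ‖cross W P‖ ≤ s / 8 * ‖cross z P‖
  y1 : ‖cross (P + W) y‖ ≤ (1 + s / 4) * ‖cross P y‖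
  z1 : ‖cross z (P + W)‖ ≤ (1 + s / 4) * ‖cross z P‖
  far : 0 ≤ det3 P y W → 0 ≤ det3 z P W → ∀ c, dot c y ≤ 1 → dot c z ≤ 1 →
    dot c P ≤ 1 - l * h / 8 → dot c (P + W) < 1

lemma n2 (a b : ℝ) (x y : V3) : ‖a • x + b • y‖ ≤ |a| * ‖x‖ + |b| * ‖y‖ := by
  refine (norm_add_le _ _).trans ?_
  rw [norm_smul, norm_smul, Real.norm_eq_abs, Real.norm_eq_abs]

lemma side {P y z W : V3} {s l h R : ℝ} (hs : 0 < s) (hs1 : s < 1) (hl : 0 < l) (hl1 : l ≤ 1)
    (hh : 0 < h) (hh1 : h ≤ 1) (hA : 0 < det3 P y z) (hf : h * Sz P y z ≤ det3 P y z)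
    (nP : ‖P‖ ≤ R) (ny : ‖y‖ ≤ R) (nz : ‖z‖ ≤ R)
    (d1 : |det3 P y W| * l ≤ 3 * (s * l * h / 48) * ‖cross P y‖)
    (d2 : |det3 z P W| * l ≤ 3 * (s * l * h / 48) * ‖cross z P‖)
    (q0 : 0 ≤ dot (Qv P y z) W) (q1 : dot (Qv P y z) W ≤ s * l * h / 48) :
    Side P y z W s l h R := by
  set A := det3 P y z with hAd
  have e1 := Qv_dot1 hA.ne'
  have e2 := Qv_dot2 hA.ne'
  have e3 := Qv_dot3 hA.ne'
  obtain ⟨a, b, c, hW, hb, hc⟩ : ∃ a b c : ℝ, W = a • P + b • y + c • z ∧ b * A = det3 z P W ∧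
      c * A = det3 P y W := by
    refine ⟨det3 W y z / A, det3 z P W / A, det3 P y W / A, ?_, by field_simp, by field_simp⟩
    have := congrArg (fun X => A⁻¹ • X) (cramer P y z W)
    simp only [smul_add, smul_smul, ← hAd, inv_mul_cancel₀ hA.ne', one_smul] at this
    rw [div_eq_inv_mul, div_eq_inv_mul, div_eq_inv_mul]; exact this
  have S0 : 0 < Sz P y z := (cross_pos hA.ne').trans_le (Sz_ge1 _ _ _)
  have g1 := Sz_ge1 P y z
  have g2 := Sz_ge2 P y z
  have g3 := Sz_ge3 P y z
  have cS : |c| * Sz P y z ≤ s / 16 * ‖cross P y‖ := by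
    rw [← hc, abs_mul, abs_of_pos hA] at d1
    have t : l * h * (|c| * Sz P y z) ≤ l * h * (s / 16 * ‖cross P y‖) := by
      have := mul_le_mul_of_nonneg_left hf (mul_nonneg (abs_nonneg c) hl.le)
      linarith
    exact le_of_mul_le_mul_left t (by positivity)
  have bS : |b| * Sz P y z ≤ s / 16 * ‖cross z P‖ := by
    rw [← hb, abs_mul, abs_of_pos hA] at d2
    have t : l * h * (|b| * Sz P y z) ≤ l * h * (s / 16 * ‖cross z P‖) := by
      have := mul_le_mul_of_nonneg_left hf (mul_nonneg (abs_nonneg b) hl.le)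
      linarith
    exact le_of_mul_le_mul_left t (by positivity)
  have c1 : |c| ≤ s / 16 := le_of_mul_le_mul_right (cS.trans (by gcongr)) S0
  have b1 : |b| ≤ s / 16 := le_of_mul_le_mul_right (bS.trans (by gcongr)) S0
  have qW : dot (Qv P y z) W = a + b + c := by
    rw [hW]; simp only [dot_add_r, dot_smul_r, e1, e2, e3]; ring
  have lh : l * h ≤ 1 := by nlinarith
  have lh0 : 0 < l * h := by positivity
  have η1 : s * l * h / 48 ≤ s / 16 := by nlinarith
  have a1 : |a| ≤ 3 * s / 16 := by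
    have := abs_le.1 c1; have := abs_le.1 b1
    rw [abs_le]; constructor <;> linarith
  have a2 := abs_le.1 a1
  have a3 : |1 + a| ≤ 1 + 3 * s / 16 := by rw [abs_le]; constructor <;> linarith
  have dA : det3 (P + W) y z = (1 + a) * A := by
    rw [hW, hAd]; simp only [det3, Pi.add_apply, Pi.smul_apply, smul_eq_mul]; ring
  have x1 : cross (P + W) y = (1 + a) • cross P y + (-c) • cross y z := by
    rw [hW]; ext k; fin_cases k <;> simp [cross] <;> ring
  have x2 : cross z (P + W) = (1 + a) • cross z P + (-b) • cross y z := by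
    rw [hW]; ext k; fin_cases k <;> simp [cross] <;> ring
  have x3 : cross W P = (-b) • cross P y + c • cross z P := by
    rw [hW]; ext k; fin_cases k <;> simp [cross] <;> ring
  have n1 := norm_nonneg (cross P y)
  have n2' := norm_nonneg (cross y z)
  have n3 := norm_nonneg (cross z P)
  have y1 : ‖cross (P + W) y‖ ≤ (1 + s / 4) * ‖cross P y‖ := by
    rw [x1]; refine (n2 _ _ _ _).trans ?_
    rw [abs_neg]
    have := mul_le_mul_of_nonneg_right a3 n1
    have := mul_le_mul_of_nonneg_left g2 (abs_nonneg c)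
    linarith
  have z1 : ‖cross z (P + W)‖ ≤ (1 + s / 4) * ‖cross z P‖ := by
    rw [x2]; refine (n2 _ _ _ _).trans ?_
    rw [abs_neg]
    have := mul_le_mul_of_nonneg_right a3 n3
    have := mul_le_mul_of_nonneg_left g2 (abs_nonneg b)
    linarith
  have pos : 0 < det3 (P + W) y z := by rw [dA]; exact mul_pos (by linarith) hA
  have mvq : (1 + a) • (A • (Qv (P + W) y z - Qv P y z)) = (-(a + b + c)) • cross y z := by
    have := Qv_sub pos.ne' e2 e3
    rw [dA, dot_add_r, e1, qW, mul_smul] at this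
    rw [← this]; congr 1; ring
  refine ⟨pos, ?_, ?_, ?_, ?_, ?_, ?_, y1, z1, ?_⟩
  · have t : Sz (P + W) y z ≤ (1 + s / 4) * Sz P y z := by
      unfold Sz; nlinarith
    rw [dA]
    have t2 : (1 - s) * h * Sz (P + W) y z ≤ (1 - s) * (1 + s / 4) * (h * Sz P y z) := by
      have := mul_le_mul_of_nonneg_left t (mul_pos (sub_pos.2 hs1) hh).le
      linarith
    refine t2.trans (mul_le_mul (by nlinarith) hf (by positivity) (by linarith))
  · have R0 : 0 ≤ R := (norm_nonneg _).trans nP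
    have t : P + W = ((1 + a) • P + b • y) + c • z := by rw [hW, add_smul, one_smul]; abel
    have t2 : ‖P + W‖ ≤ (1 + 5 * s / 16) * R := by
      rw [t]; refine (norm_add_le _ _).trans ?_
      have := n2 (1 + a) b P y
      rw [norm_smul, Real.norm_eq_abs]
      have := mul_le_mul a3 nP (norm_nonneg _) (by linarith)
      have := mul_le_mul b1 ny (norm_nonneg _) (by linarith)
      have := mul_le_mul c1 nz (norm_nonneg _) (by linarith)
      linarith
    rw [le_div_iff₀ (sub_pos.2 hs1)]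
    have := mul_le_mul_of_nonneg_right t2 (sub_pos.2 hs1).le
    have : (1 + 5 * s / 16) * (1 - s) * R ≤ 1 * R := by gcongr; nlinarith
    linarith
  · have := congrArg norm mvq
    rw [norm_smul, norm_smul, norm_smul, Real.norm_eq_abs, Real.norm_eq_abs, Real.norm_eq_abs,
      abs_of_pos hA, abs_neg, abs_of_pos (by linarith : 0 < 1 + a), ← qW, abs_of_nonneg q0] at this
    set m := ‖Qv (P + W) y z - Qv P y z‖
    have m0 : 0 ≤ m := norm_nonneg _
    have t1 : dot (Qv P y z) W * ‖cross y z‖ ≤ s * l * h / 48 * Sz P y z := by gcongr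
    have t2 : 1 / 2 * (A * m) ≤ (1 + a) * (A * m) := by gcongr; linarith
    have t3 : s * l / 48 * (h * Sz P y z) ≤ s * l / 48 * A := by gcongr
    have t4 : A * m ≤ A * (s * l / 16) := by
      have : 0 < s * l * A := by positivity
      linarith
    exact le_of_mul_le_mul_left t4 hA
  · intro r r2 r3 r1
    have t := Qv_sub hA.ne' r2 r3
    rw [← hAd] at t
    have G0 : 0 < 1 - dot r P := by linarith
    have a0 : 0 < 1 + a := by linarith
    refine ⟨(a + b + c) / ((1 + a) * (1 - dot r P)), by rw [← qW]; positivity, ?_, ?_⟩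
    · rw [div_lt_one (by positivity), ← qW]
      have : 1 / 2 * (l * h / 8) ≤ (1 + a) * (1 - dot r P) := by gcongr <;> linarith
      nlinarith
    · ext k
      have u1 := congrFun mvq k
      have u2 := congrFun t k
      simp only [Pi.smul_apply, smul_eq_mul, Pi.sub_apply, Pi.add_apply] at u1 u2 ⊢
      field_simp
      apply mul_left_cancel₀ hA.ne'
      linear_combination (1 - dot r P) * u1 - (a + b + c) * u2
  · rw [x3]; refine (n2 _ _ _ _).trans ?_
    rw [abs_neg]
    have := mul_le_mul_of_nonneg_right b1 n1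
    have := mul_le_mul_of_nonneg_left g3 (abs_nonneg c)
    linarith
  · rw [x3]; refine (n2 _ _ _ _).trans ?_
    rw [abs_neg]
    have := mul_le_mul_of_nonneg_right c1 n3
    have := mul_le_mul_of_nonneg_left g1 (abs_nonneg b)
    linarith
  · intro f1 f2 r r2 r3 r1
    rw [← hc] at f1
    rw [← hb] at f2
    have c0 : 0 ≤ c := nonneg_of_mul_nonneg_left f1 hA
    have b0 : 0 ≤ b := nonneg_of_mul_nonneg_left f2 hA
    rw [hW]
    simp only [dot_add_r, dot_smul_r]
    have : 1 / 2 * (l * h / 8) ≤ (1 + a) * (1 - dot r P) := by gcongr <;> linarith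
    have := mul_le_mul_of_nonneg_left r2 b0
    have := mul_le_mul_of_nonneg_left r3 c0
    nlinarith

end Pool.Agent.Lib.MP_d5dfc1_co.QP
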