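import Pool.Agent.Lib.MP_d5dfc1_co.QpVec

namespace Pool.Agent.Lib.MP_d5dfc1_co.QP

open Pool.Agent.Lib.MP_d5dfc1_co

lemma nocross {P s t z cs ct q q' : V3} (a1 : dot cs P = 1) (a2 : dot ct P = 1)
    (a3 : dot cs s = 1) (a4 : dot ct t = 1) (a5 : dot cs t < 1) (a6 : dot ct s < 1)
    (a7 : dot cs z < 1) (a8 : dot ct z < 1)
    (b1 : dot q P = 1) (b2 : dot q z = 1) (b3 : dot q s ≤ 1) (b4 : dot q t ≤ 1)
    (c1 : dot q' P = 1) (c2 : dot q' z = 1) (c3 : dot q' s ≤ 1) (c4 : dot q' t ≤ 1)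
    (h : 0 < dot q (cross ct cs)) : 0 < dot q' (cross ct cs) := by
  by_contra h'
  push Not at h'
  set d := dot q (cross ct cs) with hd
  set d' := dot q' (cross ct cs) with hd'
  have p : 0 < d - d' := by linarith
  set u := d / (d - d') with hu
  have u0 : 0 ≤ u := by positivity
  have u1 : u ≤ 1 := by rw [hu, div_le_one p]; linarith
  set c := u • q' + (1 - u) • q with hc
  have cd : ∀ x, dot c x = u * dot q' x + (1 - u) * dot q x := fun x => by
    rw [hc, dot_add_l, dot_smul_l, dot_smul_l]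
  have e0 : det3 ct cs c = 0 := by
    rw [← dot_cross, dot_comm, cd, ← hd, ← hd', hu]; field_simp; ring
  have e1 : dot c P = 1 := by rw [cd, b1, c1]; ring
  have e2 : dot c z = 1 := by rw [cd, b2, c2]; ring
  have e3 : dot c s ≤ 1 := by rw [cd]; nlinarith
  have e4 : dot c t ≤ 1 := by rw [cd]; nlinarith
  have m1 := det_mul ct cs c P s z
  have m2 := det_mul ct cs c P t z
  rw [e0, a1, a2, e1, e2, zero_mul] at m1 m2
  rw [a3] at m1
  rw [a4] at m2
  have k1 : (1 - dot c s) * (dot ct z - dot cs z) = (1 - dot cs z) * (1 - dot ct s) := by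
    linear_combination m1
  have k2 : (1 - dot c t) * (dot cs z - dot ct z) = (1 - dot ct z) * (1 - dot cs t) := by
    linear_combination (-1 : ℝ) * m2
  have p1 := mul_pos (sub_pos.2 a7) (sub_pos.2 a6)
  have p2 := mul_pos (sub_pos.2 a8) (sub_pos.2 a5)
  rcases le_total (dot ct z) (dot cs z) with l | l
  · nlinarith [mul_nonneg (sub_nonneg.2 e3) (sub_nonneg.2 l)]
  · nlinarith [mul_nonneg (sub_nonneg.2 e4) (sub_nonneg.2 l)]

lemma wedge {P s cs q1 q2 w : V3} {D : ℝ} (a1 : dot cs P = 1) (a2 : dot cs s = 1)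
    (a3 : dot cs w = 0) (b1 : dot q1 P = 1) (b2 : dot q2 P = 1) (c1 : dot q1 s ≤ 1)
    (c2 : dot q2 s ≤ 1) (n0 : ‖cs‖ ≤ 1) (n1 : ‖q1‖ ≤ 1) (n2' : ‖q2‖ ≤ 1)
    (d1 : D ≤ dot q1 w) (d2 : D ≤ - dot q2 w) (hw : 0 < det3 P s w) :
    D * ‖cross P s‖ ≤ 2 * det3 P s w := by
  obtain ⟨α, β, hα, hβ, hs, he⟩ : ∃ α β : ℝ, 0 ≤ α ∧ 0 ≤ β ∧ α + β = 1 ∧
      α * (1 - dot q1 s) = β * (1 - dot q2 s) := by
    have g1 := sub_nonneg.2 c1
    have g2 := sub_nonneg.2 c2
    rcases (add_nonneg g1 g2).eq_or_lt with h | h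
    · refine ⟨1 / 2, 1 / 2, by norm_num, by norm_num, by norm_num, by linarith⟩
    · refine ⟨(1 - dot q2 s) / (1 - dot q1 s + (1 - dot q2 s)),
        (1 - dot q1 s) / (1 - dot q1 s + (1 - dot q2 s)), by positivity, by positivity, ?_, ?_⟩
      · field_simp; ring
      · field_simp
  set X := α • (q1 - cs) + (-β) • (q2 - cs) with hX
  have Xd : ∀ x, dot X x = α * (dot q1 x - dot cs x) - β * (dot q2 x - dot cs x) := fun x => by
    rw [hX, dot_add_l, dot_smul_l, dot_smul_l, dot_sub_l, dot_sub_l]; ring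
  have := par_norm (X := X) (P := P) (s := s) w (by rw [Xd, a1, b1, b2]; ring)
    (by rw [Xd, a2]; linarith)
  have Xn : ‖X‖ ≤ 2 := by
    refine (n2 _ _ _ _).trans ?_
    rw [abs_neg, abs_of_nonneg hα, abs_of_nonneg hβ]
    have := mul_le_mul_of_nonneg_left ((norm_sub_le q1 cs).trans (add_le_add n1 n0)) hα
    have := mul_le_mul_of_nonneg_left ((norm_sub_le q2 cs).trans (add_le_add n2' n0)) hβ
    linarith
  have Xw : D ≤ |dot X w| := by
    refine le_trans ?_ (le_abs_self _)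
    rw [Xd, a3]
    have := mul_le_mul_of_nonneg_left d1 hα
    have := mul_le_mul_of_nonneg_left d2 hβ
    have : D = α * D + β * D := by rw [← add_mul, hs, one_mul]
    linarith
  rw [abs_of_pos hw] at this
  have := mul_le_mul_of_nonneg_right Xw (norm_nonneg (cross P s))
  have := mul_le_mul_of_nonneg_left Xn hw.le
  linarith

lemma newtri {P s y1 y0 w : V3} {e1 e2 D σ l h R η : ℝ} (hσ : σ < 1) (p1 : 0 < e1) (p2 : 0 < e2)
    (hD : η ≤ (e1 + e2) * D) (hη : 0 ≤ η) (hw : 0 < det3 P s w)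
    (wd : D * ‖cross P s‖ ≤ 2 * det3 P s w)
    (S1 : Side P s y1 (e1 • w) σ l h R) (S2 : Side P y0 s (e2 • -w) σ l h R) :
    0 < det3 (P + e1 • w) (P + e2 • -w) s ∧
      η / 6 * Sz (P + e1 • w) (P + e2 • -w) s ≤ det3 (P + e1 • w) (P + e2 • -w) s := by
  have d : det3 (P + e1 • w) (P + e2 • -w) s = (e1 + e2) * det3 P s w := by
    simp only [det3, Pi.add_apply, Pi.smul_apply, smul_eq_mul, Pi.neg_apply]; ring
  have x : cross (P + e1 • w) (P + e2 • -w) = cross (e1 • w) P - cross (e2 • -w) P := by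
    ext k; fin_cases k <;> simp [cross] <;> ring
  refine ⟨by rw [d]; positivity, ?_⟩
  have t : Sz (P + e1 • w) (P + e2 • -w) s ≤ 3 * ‖cross P s‖ := by
    unfold Sz
    have u1 := S1.w1
    have u2 := S2.w2
    have u3 := S1.y1
    have u4 := S2.z1
    rw [norm_cross_comm P s] at u2 u4
    rw [norm_cross_comm] at u3 u4
    have := norm_sub_le (cross (e1 • w) P) (cross (e2 • -w) P)
    rw [x]
    have := mul_le_mul_of_nonneg_right hσ.le (norm_nonneg (cross P s))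
    have := norm_nonneg (cross P s)
    linarith
  rw [d]
  have := mul_le_mul_of_nonneg_left t hη
  have := mul_le_mul_of_nonneg_right hD (norm_nonneg (cross P s))
  have := mul_le_mul_of_nonneg_left wd (add_pos p1 p2).le
  linarith

lemma cone_neg {x y z u c : V3} (hA : 0 < det3 x y z) (hu : dot (Qv x y z) u < 1)
    (c0 : dot c u = 1) (c1 : dot c x ≤ 1) (c2 : dot c y ≤ 1) (c3 : dot c z ≤ 1) :
    det3 y z u < 0 ∨ det3 z x u < 0 ∨ det3 x y u < 0 := by
  by_contra hc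
  push Not at hc
  obtain ⟨h1, h2, h3⟩ := hc
  have k : ∀ r, det3 x y z * dot r u =
      det3 y z u * dot r x + det3 z x u * dot r y + det3 x y u * dot r z := fun r => by
    simp only [det3, dot]; ring
  have k1 := k c
  have k2 := k (Qv x y z)
  rw [Qv_dot1 hA.ne', Qv_dot2 hA.ne', Qv_dot3 hA.ne'] at k2
  rw [c0] at k1
  have := mul_le_mul_of_nonneg_left c1 h1
  have := mul_le_mul_of_nonneg_left c2 h2
  have := mul_le_mul_of_nonneg_left c3 h3
  have := mul_lt_mul_of_pos_left hu hA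
  linarith

lemma gap {u y z r : V3} {l h : ℝ} (hl : 0 ≤ l) (hA : 0 < det3 u y z)
    (hf : h * Sz u y z ≤ det3 u y z) (hh : 0 ≤ h) (r2 : dot r y = 1) (r3 : dot r z = 1)
    (r1 : dot r u ≤ 1) (ll : l ≤ ‖Qv u y z - r‖) : dot r u ≤ 1 - l * h := by
  have := congrArg norm (Qv_sub hA.ne' r2 r3)
  rw [norm_smul, norm_smul, Real.norm_eq_abs, Real.norm_eq_abs, abs_of_pos hA,
    abs_of_nonneg (sub_nonneg.2 r1)] at this
  have p : 0 < ‖cross y z‖ := cross_pos (z := u) (by rw [det_rot]; exact hA.ne')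
  have t1 := mul_le_mul_of_nonneg_left (Sz_ge2 u y z) hh
  have t2 := mul_le_mul_of_nonneg_left ll hA.le
  have t3 := mul_le_mul_of_nonneg_left (t1.trans hf) hl
  have : l * h * ‖cross y z‖ ≤ (1 - dot r u) * ‖cross y z‖ := by linarith
  have := le_of_mul_le_mul_right this p
  linarith

lemma third (q0 q1 c : V3) {l : ℝ} (hl : l ≤ ‖q1 - q0‖) :
    ∃ t : ℝ, 1 / 3 ≤ t ∧ t ≤ 2 / 3 ∧ l / 6 ≤ ‖c - ((1 - t) • q0 + t • q1)‖ := by
  by_contra hc
  push Not at hc
  have h1 := hc (1 / 3) (by norm_num) (by norm_num)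
  have h2 := hc (2 / 3) (by norm_num) (by norm_num)
  have e : (1 / 3 : ℝ) • (q1 - q0) = (c - ((1 - 1 / 3 : ℝ) • q0 + (1 / 3 : ℝ) • q1))
      - (c - ((1 - 2 / 3 : ℝ) • q0 + (2 / 3 : ℝ) • q1)) := by
    ext k; simp; ring
  have := norm_sub_le (c - ((1 - 1 / 3 : ℝ) • q0 + (1 / 3 : ℝ) • q1))
    (c - ((1 - 2 / 3 : ℝ) • q0 + (2 / 3 : ℝ) • q1))
  rw [← e, norm_smul, Real.norm_eq_abs, abs_of_pos (by norm_num)] at this
  linarith

lemma mid_dist (q0 q1 : V3) {l t : ℝ} (hl : l ≤ ‖q1 - q0‖) (t1 : 1 / 3 ≤ t) (t2 : t ≤ 2 / 3) :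
    l / 3 ≤ ‖q1 - ((1 - t) • q0 + t • q1)‖ ∧ l / 3 ≤ ‖q0 - ((1 - t) • q0 + t • q1)‖ := by
  have e1 : q1 - ((1 - t) • q0 + t • q1) = (1 - t) • (q1 - q0) := by ext k; simp; ring
  have e2 : q0 - ((1 - t) • q0 + t • q1) = (-t) • (q1 - q0) := by ext k; simp; ring
  rw [e1, e2, norm_smul, norm_smul, Real.norm_eq_abs, Real.norm_eq_abs, abs_neg,
    abs_of_pos (by linarith), abs_of_pos (by linarith)]
  have := norm_nonneg (q1 - q0)
  constructor <;> nlinarith

lemma conv_norm {q c : V3} {μ : ℝ} (h0 : 0 ≤ μ) (h1 : μ ≤ 1) (nq : ‖q‖ ≤ 1) (nc : ‖c‖ ≤ 1) :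
    ‖(1 - μ) • q + μ • c‖ ≤ 1 := by
  refine (n2 _ _ _ _).trans ?_
  rw [abs_of_nonneg h0, abs_of_nonneg (sub_nonneg.2 h1)]
  nlinarith

lemma conv_dot (q c x : V3) (μ : ℝ) :
    dot ((1 - μ) • q + μ • c) x = (1 - μ) * dot q x + μ * dot c x := by
  rw [dot_add_l, dot_smul_l, dot_smul_l]

lemma det_cc (P y a b : V3) : det3 P y (cross a b) = dot a P * dot b y - dot a y * dot b P := by
  simp [det3, dot, cross]; ring

lemma dot_cross_self1 (a b : V3) : dot a (cross a b) = 0 := by simp [dot, cross]; ring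

lemma dot_cross_self2 (a b : V3) : dot b (cross a b) = 0 := by simp [dot, cross]; ring

end Pool.Agent.Lib.MP_d5dfc1_co.QP
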