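import Mathlib

namespace Pool.Agent.Lib.MP_d5dfc1_co

open Finset

/-- one step of the potential argument -/
lemma pot_step {t t' r r' : ℝ} (ht : 1 ≤ t) (htt : t ≤ t') (hr' : 0 ≤ r') (hrr : r' ≤ r)
    (h1 : r * t ^ 6 ≤ 1) (h2 : r' * t' ^ 6 ≤ 1)
    (hkey : 1 ≤ (r - r') ^ 5 * (t' ^ 6 - t ^ 6) ^ 7) :
    454 * t - r * t ^ 7 + 1 ≤ 454 * t' - r' * t' ^ 7 := by
  have ht0 : 0 < t := by linarith
  have ht'0 : 0 < t' := by linarith
  have hr : 0 ≤ r := hr'.trans hrr
  by_cases hd : 2 * t ≤ t'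
  · have a1 : r' * t' ^ 7 ≤ t' := by
      have : r' * t' ^ 7 = (r' * t' ^ 6) * t' := by ring
      rw [this]; nlinarith
    have a2 : 0 ≤ r * t ^ 7 := by positivity
    nlinarith
  · push Not at hd
    have hΔ : 0 ≤ t' - t := by linarith
    -- t'^7 - t^7 ≤ 7 t'^6 (t'-t)
    have p : ∀ a b : ℕ, t ^ a * t' ^ b ≤ t' ^ (a + b) := by
      intro a b
      rw [pow_add]
      exact mul_le_mul_of_nonneg_right (pow_le_pow_left₀ ht0.le htt a) (by positivity)
    have b7 : t' ^ 7 - t ^ 7 ≤ 7 * t' ^ 6 * (t' - t) := by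
      have e : t' ^ 7 - t ^ 7 = (t' ^ 6 + t ^ 1 * t' ^ 5 + t ^ 2 * t' ^ 4 + t ^ 3 * t' ^ 3
          + t ^ 4 * t' ^ 2 + t ^ 5 * t' ^ 1 + t ^ 6 * t' ^ 0) * (t' - t) := by ring
      rw [e]
      apply mul_le_mul_of_nonneg_right _ hΔ
      have := p 1 5; have := p 2 4; have := p 3 3; have := p 4 2; have := p 5 1; have := p 6 0
      norm_num at *
      linarith
    have b6 : t' ^ 6 - t ^ 6 ≤ 6 * t' ^ 5 * (t' - t) := by
      have e : t' ^ 6 - t ^ 6 = (t' ^ 5 + t ^ 1 * t' ^ 4 + t ^ 2 * t' ^ 3 + t ^ 3 * t' ^ 2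
          + t ^ 4 * t' ^ 1 + t ^ 5 * t' ^ 0) * (t' - t) := by ring
      rw [e]
      apply mul_le_mul_of_nonneg_right _ hΔ
      have := p 1 4; have := p 2 3; have := p 3 2; have := p 4 1; have := p 5 0
      norm_num at *
      linarith
    have c6 : t' ^ 6 ≤ 64 * t ^ 6 := by
      have := pow_le_pow_left₀ ht'0.le hd.le 6
      calc t' ^ 6 ≤ (2 * t) ^ 6 := this
        _ = 64 * t ^ 6 := by ring
    have c7 : r * (t' ^ 7 - t ^ 7) ≤ 448 * (t' - t) := by
      calc r * (t' ^ 7 - t ^ 7) ≤ r * (7 * t' ^ 6 * (t' - t)) := mul_le_mul_of_nonneg_left b7 hr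
        _ ≤ r * (7 * (64 * t ^ 6) * (t' - t)) := by gcongr
        _ = 448 * (t' - t) * (r * t ^ 6) := by ring
        _ ≤ 448 * (t' - t) * 1 := by gcongr
        _ = 448 * (t' - t) := by ring
    have hge : 0 ≤ t' ^ 6 - t ^ 6 := sub_nonneg.2 (pow_le_pow_left₀ ht0.le htt 6)
    have hX0 : 0 ≤ (r - r') * t' ^ 7 := mul_nonneg (by linarith) (by positivity)
    have main : 1 ≤ (r - r') * t' ^ 7 + 6 * (t' - t) := by
      by_contra hc
      push Not at hc
      have x1 : (r - r') * t' ^ 7 < 1 := by linarith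
      have x2 : 6 * (t' - t) < 1 := by linarith
      have y : (r - r') ^ 5 * (t' ^ 6 - t ^ 6) ^ 7
          ≤ ((r - r') * t' ^ 7) ^ 5 * (6 * (t' - t)) ^ 7 := by
        calc (r - r') ^ 5 * (t' ^ 6 - t ^ 6) ^ 7
            ≤ (r - r') ^ 5 * (6 * t' ^ 5 * (t' - t)) ^ 7 := by
              apply mul_le_mul_of_nonneg_left (pow_le_pow_left₀ hge b6 7)
              exact pow_nonneg (by linarith) 5
          _ = ((r - r') * t' ^ 7) ^ 5 * (6 * (t' - t)) ^ 7 := by ring
      have z1 : ((r - r') * t' ^ 7) ^ 5 < 1 := pow_lt_one₀ hX0 x1 (by norm_num)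
      have z2 : (6 * (t' - t)) ^ 7 ≤ 1 := pow_le_one₀ (by positivity) x2.le
      have z3 : ((r - r') * t' ^ 7) ^ 5 * (6 * (t' - t)) ^ 7 < 1 :=
        mul_lt_one_of_nonneg_of_lt_one_left (by positivity) z1 z2
      linarith
    nlinarith

lemma block_bound (s r : ℕ → ℝ) (K : ℕ) (hs : ∀ k ≤ K, 1 ≤ s k) (hr : ∀ k ≤ K, 0 ≤ r k)
    (hrs : ∀ k ≤ K, r k * s k ≤ 1) (hsm : ∀ k < K, s k ≤ s (k + 1))
    (hrm : ∀ k < K, r (k + 1) ≤ r k)
    (hkey : ∀ k < K, 1 ≤ (r k - r (k + 1)) ^ 5 * (s (k + 1) - s k) ^ 7) :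
    (K : ℝ) ^ 6 ≤ 454 ^ 6 * s K := by
  set t : ℕ → ℝ := fun k => (s k) ^ ((6 : ℕ)⁻¹ : ℝ) with ht
  have h6 : ∀ k ≤ K, t k ^ 6 = s k := fun k hk =>
    Real.rpow_inv_natCast_pow (by linarith [hs k hk]) (by norm_num)
  have h1 : ∀ k ≤ K, 1 ≤ t k := fun k hk => Real.one_le_rpow (hs k hk) (by positivity)
  have hm : ∀ k < K, t k ≤ t (k + 1) := fun k hk =>
    Real.rpow_le_rpow (by linarith [hs k hk.le]) (hsm k hk) (by positivity)
  have ind : ∀ k ≤ K, (k : ℝ) ≤ 454 * t k - r k * t k ^ 7 := by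
    intro k
    induction k with
    | zero =>
      intro hk
      have a := hrs 0 hk
      have b := h1 0 hk
      rw [← h6 0 hk] at a
      have : r 0 * t 0 ^ 7 = (r 0 * t 0 ^ 6) * t 0 := by ring
      rw [this]; push_cast; nlinarith
    | succ k ih =>
      intro hk
      have hk' : k < K := hk
      have := pot_step (h1 k hk'.le) (hm k hk') (hr (k + 1) hk) (hrm k hk')
        (by rw [h6 k hk'.le]; exact hrs k hk'.le) (by rw [h6 _ hk]; exact hrs _ hk)
        (by rw [h6 k hk'.le, h6 _ hk]; exact hkey k hk')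
      have := ih hk'.le
      push_cast; linarith
  have hK := ind K le_rfl
  have a2 : 0 ≤ r K * t K ^ 7 := mul_nonneg (hr K le_rfl) (pow_nonneg (by linarith [h1 K le_rfl]) 7)
  have : (K : ℝ) ≤ 454 * t K := by linarith
  calc (K : ℝ) ^ 6 ≤ (454 * t K) ^ 6 := pow_le_pow_left₀ (by positivity) this 6
    _ = 454 ^ 6 * t K ^ 6 := by ring
    _ = _ := by rw [h6 K le_rfl]

/-- The data of a convex lattice chain seen from a point, through its 2x2 determinants. -/
structure Chain (W : ℕ → ℕ → ℝ) (M : ℕ) (B : ℝ) : Prop where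
  diag : ∀ i, W i i = 0
  pl : ∀ i j k l, W i j * W k l - W i k * W j l + W i l * W j k = 0
  hD : ∀ i j, j = i + 1 → j ≤ M → 1 ≤ W i j
  hE : ∀ i j k, j = i + 1 → k = j + 1 → k ≤ M → 0 < W i j + W j k - W i k
  bd : ∀ i j, i ≤ M → j ≤ M → |W i j| ≤ B
  key : ∀ i0 i1 i2 i3 i4 i5 i6, i1 = i0 + 1 → i2 = i1 + 1 → i3 = i2 + 1 → i4 = i3 + 1 →
    i5 = i4 + 1 → i6 = i5 + 1 → i6 ≤ M → 0 < W i2 i4 →
    W i1 i2 * W i2 i3 * W i3 i4 * W i4 i5 ≤
      (W i0 i1 + W i1 i2 - W i0 i2) * (W i1 i2 + W i2 i3 - W i1 i3) *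
      (W i2 i3 + W i3 i4 - W i2 i4) * (W i3 i4 + W i4 i5 - W i3 i5) *
      (W i4 i5 + W i5 i6 - W i4 i6) * W i2 i4

lemma Chain.rev {W : ℕ → ℕ → ℝ} {M : ℕ} {B : ℝ} (h : Chain W M B) :
    Chain (fun i j => W (M - j) (M - i)) M B where
  diag i := h.diag _
  pl i j k l := by
    have := h.pl (M - l) (M - k) (M - j) (M - i)
    linarith
  hD i j h1 h2 := h.hD _ _ (by omega) (by omega)
  hE i j k h1 h2 h3 := by
    have := h.hE (M - k) (M - j) (M - i) (by omega) (by omega) (by omega)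
    linarith
  bd i j h1 h2 := h.bd _ _ (by omega) (by omega)
  key i0 i1 i2 i3 i4 i5 i6 h1 h2 h3 h4 h5 h6 h7 h8 := by
    have := h.key (M - i6) (M - i5) (M - i4) (M - i3) (M - i2) (M - i1) (M - i0)
      (by omega) (by omega) (by omega) (by omega) (by omega) (by omega) (by omega) h8
    calc _ = W (M - i5) (M - i4) * W (M - i4) (M - i3) * W (M - i3) (M - i2)
          * W (M - i2) (M - i1) := by ring
      _ ≤ _ := this
      _ = _ := by ring

lemma Chain.mono {W : ℕ → ℕ → ℝ} {M H : ℕ} {B : ℝ} (h : Chain W M B) (hH : H ≤ M) :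
    Chain W H B where
  diag := h.diag
  pl := h.pl
  hD i j h1 h2 := h.hD _ _ h1 (by omega)
  hE i j k h1 h2 h3 := h.hE _ _ _ h1 h2 (by omega)
  bd i j h1 h2 := h.bd _ _ (by omega) (by omega)
  key i0 i1 i2 i3 i4 i5 i6 h1 h2 h3 h4 h5 h6 h7 h8 :=
    h.key _ _ _ _ _ _ _ h1 h2 h3 h4 h5 h6 (by omega) h8

lemma prod_le_pow {c1 c2 c3 c4 c5 d0 d1 d2 d3 d4 d5 S R T : ℝ}
    (p1 : 0 ≤ c1) (p2 : 0 ≤ c2) (p3 : 0 ≤ c3) (p4 : 0 ≤ c4) (p5 : 0 ≤ c5)
    (q0 : 0 < d0) (q1 : 0 < d1) (q2 : 0 < d2) (q3 : 0 < d3) (q4 : 0 < d4) (q5 : 0 < d5)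
    (hS : 0 < S) (hS' : S ≤ d2 + d3) (hR : c1 + c2 + c3 + c4 + c5 ≤ R)
    (hT : d0 + d1 + d2 + d3 + d4 + d5 ≤ T)
    (h : d1 * d2 * d3 * d4 ≤ (c1 * (d0 * d1)) * (c2 * (d1 * d2)) * (c3 * (d2 * d3)) *
      (c4 * (d3 * d4)) * (c5 * (d4 * d5)) * S) : 1 ≤ R ^ 5 * T ^ 7 := by
  have hpos : 0 < d1 * d2 * d3 * d4 := by positivity
  have h' : 1 ≤ (c1 * c2 * c3 * c4 * c5) * (d0 * d1 * d2 * d3 * d4 * d5 * S) := by
    apply le_of_mul_le_mul_left _ hpos
    calc _ = d1 * d2 * d3 * d4 := by ring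
      _ ≤ _ := h
      _ = _ := by ring
  have a : c1 * c2 * c3 * c4 * c5 ≤ R * R * R * R * R := by
    have hR0 : 0 ≤ R := by linarith
    gcongr <;> linarith
  have b : d0 * d1 * d2 * d3 * d4 * d5 * S ≤ T * T * T * T * T * T * T := by
    have hT0 : 0 ≤ T := by linarith
    gcongr <;> linarith
  calc 1 ≤ _ := h'
    _ ≤ (R * R * R * R * R) * (T * T * T * T * T * T * T) := by
      apply mul_le_mul a b (by positivity)
      have hR0 : 0 ≤ R := by linarith
      positivity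
    _ = _ := by ring

lemma half_bound {W : ℕ → ℕ → ℝ} {G : ℕ} {B : ℝ} (h : Chain W (G + 1) B)
    (hz : ∀ k ≤ G + 1, 0 ≤ W 0 k) (hl : W 0 G ≤ W 0 (G + 1)) :
    ((G / 6 : ℕ) : ℝ) ^ 6 ≤ 454 ^ 6 * (2 * B) := by
  set D : ℕ → ℝ := fun i => W i (i + 1) with hDdef
  set E : ℕ → ℝ := fun i => W i (i + 1) + W (i + 1) (i + 2) - W i (i + 2) with hEdef
  set c : ℕ → ℝ := fun i => E i / (D i * D (i + 1)) with hcdef
  set z : ℕ → ℝ := fun i => W 0 i with hzdef
  set κ : ℕ → ℝ := fun i => (z (i + 1) - z i) / D i with hκdef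
  set s : ℕ → ℝ := fun k => ∑ j ∈ range k, D j with hsdef
  set C : ℕ → ℝ := fun k => ∑ j ∈ range k, c j with hCdef
  have D1 : ∀ i ≤ G, 1 ≤ D i := fun i hi => h.hD i (i + 1) rfl (by omega)
  have D0 : ∀ i ≤ G, 0 < D i := fun i hi => by linarith [D1 i hi]
  have E0 : ∀ i < G, 0 < E i := fun i hi => h.hE i (i + 1) (i + 2) rfl rfl (by omega)
  have c0 : ∀ i < G, 0 < c i := fun i hi =>
    div_pos (E0 i hi) (mul_pos (D0 i hi.le) (D0 (i + 1) hi))
  have cE : ∀ i < G, E i = c i * (D i * D (i + 1)) := fun i hi => by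
    have := D0 i hi.le; have := D0 (i + 1) hi
    simp only [hcdef]; field_simp
  have κD : ∀ i ≤ G, κ i * D i = z (i + 1) - z i := fun i hi => by
    have := D0 i hi
    simp only [hκdef]; field_simp
  have κc : ∀ i < G, κ i - κ (i + 1) = c i * z (i + 1) := fun i hi => by
    have a := D0 i hi.le; have b := D0 (i + 1) hi
    have p := h.pl 0 i (i + 1) (i + 2)
    simp only [hκdef, hcdef]
    field_simp
    simp only [hEdef, hzdef, hDdef]
    linear_combination (-1) * p
  have sS : ∀ k, s (k + 1) = s k + D k := fun k => sum_range_succ _ _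
  have CS : ∀ k, C (k + 1) = C k + c k := fun k => sum_range_succ _ _
  have z0 : z 0 = 0 := h.diag 0
  have κanti : ∀ i < G, κ (i + 1) ≤ κ i := fun i hi => by
    have := κc i hi
    have := mul_nonneg (c0 i hi).le (hz (i + 1) (by omega))
    simp only [hzdef] at *
    linarith
  have κ0 : ∀ i ≤ G, 0 ≤ κ i := by
    intro i hi
    induction hi using Nat.decreasingInduction with
    | self => exact div_nonneg (by simp only [hzdef]; linarith) (D0 G le_rfl).le
    | of_succ k hk ih => exact ih.trans (κanti k hk)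
  have zm : ∀ i ≤ G, z i ≤ z (i + 1) := fun i hi => by
    have := κD i hi
    have := mul_nonneg (κ0 i hi) (D0 i hi).le
    linarith
  have z1 : ∀ i ≤ G, 1 ≤ z (i + 1) := by
    intro i
    induction i with
    | zero => intro hi; exact D1 0 hi
    | succ k ih => intro hi; exact (ih (by omega)).trans (zm (k + 1) hi)
  have s1 : ∀ i ≤ G, D i ≤ s (i + 1) := by
    intro i
    induction i with
    | zero => intro hi; simp [hsdef]
    | succ k ih =>
      intro hi
      rw [sS]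
      have := ih (by omega); have := D0 k (by omega)
      linarith
  have κs : ∀ i ≤ G, κ i * s (i + 1) ≤ z (i + 1) := by
    intro i
    induction i with
    | zero =>
      intro hi
      have := κD 0 hi
      have e : s (0 + 1) = D 0 := by simp [hsdef]
      rw [e]; linarith
    | succ k ih =>
      intro hi
      rw [sS, mul_add, κD _ hi]
      have a := ih (by omega)
      have b : κ (k + 1) * s (k + 1) ≤ κ k * s (k + 1) :=
        mul_le_mul_of_nonneg_right (κanti k (by omega))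
          ((D0 k (by omega)).le.trans (s1 k (by omega)))
      linarith
  have r0 : ∀ i ≤ G, 0 ≤ C G - C i := by
    intro i hi
    induction hi using Nat.decreasingInduction with
    | self => simp
    | of_succ k hk ih => rw [CS] at ih; linarith [c0 k hk]
  have rz : ∀ i ≤ G, (C G - C i) * z (i + 1) ≤ κ i := by
    intro i hi
    induction hi using Nat.decreasingInduction with
    | self => simpa using κ0 G le_rfl
    | of_succ k hk ih =>
      have a := κc k hk
      have b : (C G - C (k + 1)) * z (k + 1) ≤ (C G - C (k + 1)) * z (k + 1 + 1) :=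
        mul_le_mul_of_nonneg_left (zm (k + 1) hk) (r0 (k + 1) hk)
      rw [CS] at ih b
      nlinarith
  have rs : ∀ i ≤ G, (C G - C i) * s (i + 1) ≤ 1 := fun i hi => by
    have hzp : 0 < z (i + 1) := by linarith [z1 i hi]
    apply le_of_mul_le_mul_right _ hzp
    have hs0 : 0 ≤ s (i + 1) := (D0 i hi).le.trans (s1 i hi)
    have := mul_le_mul_of_nonneg_right (rz i hi) hs0
    have := κs i hi
    nlinarith
  have Spos : ∀ i < G, 0 < W i (i + 2) := fun i hi => by
    have a : c i * D i ≤ 1 := by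
      have b := rs i hi.le
      have e := r0 (i + 1) hi
      rw [CS] at e
      calc c i * D i ≤ (C G - C i) * s (i + 1) :=
            mul_le_mul (by linarith) (s1 i hi.le) (D0 i hi.le).le (r0 i hi.le)
        _ ≤ 1 := b
    have b := cE i hi
    have d := D0 (i + 1) hi
    have d' := D0 i hi.le
    have : E i ≤ D (i + 1) := by rw [b]; nlinarith
    simp only [hEdef, hDdef] at this d'
    linarith
  -- total area
  have hB : ∀ k ≤ G + 1, s k * z (G + 1) ≤ 2 * B * z k - W k (G + 1) * z k := by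
    intro k
    induction k with
    | zero => intro _; simp [hsdef, z0]
    | succ k ih =>
      intro hk
      have a := ih (by omega)
      have p := h.pl 0 k (k + 1) (G + 1)
      have b1 := (abs_le.1 (h.bd k (G + 1) (by omega) le_rfl)).2
      have b2 := (abs_le.1 (h.bd (k + 1) (G + 1) hk le_rfl)).2
      have m := zm k (by omega)
      have q : (W k (G + 1) + W (k + 1) (G + 1)) * (z (k + 1) - z k) ≤ 2 * B * (z (k + 1) - z k) :=
        mul_le_mul_of_nonneg_right (by linarith) (by linarith)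
      rw [sS]
      simp only [hzdef, hDdef] at *
      nlinarith
  have hsB : s (G + 1) ≤ 2 * B := by
    have a := hB (G + 1) le_rfl
    rw [h.diag] at a
    have hzp : 0 < z (G + 1) := by linarith [z1 G le_rfl]
    apply le_of_mul_le_mul_right _ hzp
    linarith
  have smono : ∀ k ≤ G + 1, s k ≤ s (G + 1) := by
    intro i hi
    induction hi using Nat.decreasingInduction with
    | self => exact le_rfl
    | of_succ k hk ih => rw [sS] at ih; linarith [D0 k (by omega)]
  set K := G / 6 with hK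
  have hK6 : 6 * K ≤ G := by omega
  have e1 : ∀ k, s (6 * (k + 1) + 1) = s (6 * k + 1) + D (6 * k + 1) + D (6 * k + 2)
      + D (6 * k + 3) + D (6 * k + 4) + D (6 * k + 5) + D (6 * k + 6) := fun k => by
    rw [show 6 * (k + 1) + 1 = 6 * k + 1 + 1 + 1 + 1 + 1 + 1 + 1 by ring]
    simp only [sS]
  have e2 : ∀ k, C (6 * (k + 1)) = C (6 * k) + c (6 * k) + c (6 * k + 1) + c (6 * k + 2)
      + c (6 * k + 3) + c (6 * k + 4) + c (6 * k + 5) := fun k => by
    rw [show 6 * (k + 1) = 6 * k + 1 + 1 + 1 + 1 + 1 + 1 by ring]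
    simp only [CS]
  have main := block_bound (fun k => s (6 * k + 1)) (fun k => C G - C (6 * k)) K
    (fun k hk => (D1 (6 * k) (by omega)).trans (s1 _ (by omega)))
    (fun k hk => r0 _ (by omega)) (fun k hk => rs _ (by omega))
    (fun k hk => by
      have := D0 (6 * k + 1) (by omega); have := D0 (6 * k + 2) (by omega)
      have := D0 (6 * k + 3) (by omega); have := D0 (6 * k + 4) (by omega)
      have := D0 (6 * k + 5) (by omega); have := D0 (6 * k + 6) (by omega)
      simp only [e1]; linarith)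
    (fun k hk => by
      have := c0 (6 * k) (by omega); have := c0 (6 * k + 1) (by omega)
      have := c0 (6 * k + 2) (by omega); have := c0 (6 * k + 3) (by omega)
      have := c0 (6 * k + 4) (by omega); have := c0 (6 * k + 5) (by omega)
      simp only [e2]; linarith)
    (fun k hk => by
      have hS := Spos (6 * k + 3) (by omega)
      have key := h.key (6 * k + 1) (6 * k + 2) (6 * k + 3) (6 * k + 4) (6 * k + 5) (6 * k + 6)
        (6 * k + 7) rfl rfl rfl rfl rfl rfl (by omega) hS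
      have f1 := cE (6 * k + 1) (by omega)
      have f2 := cE (6 * k + 2) (by omega)
      have f3 := cE (6 * k + 3) (by omega)
      have f4 := cE (6 * k + 4) (by omega)
      have f5 := cE (6 * k + 5) (by omega)
      have g3 := E0 (6 * k + 3) (by omega)
      have := c0 (6 * k) (by omega)
      refine prod_le_pow (c0 (6 * k + 1) (by omega)).le (c0 (6 * k + 2) (by omega)).le
        (c0 (6 * k + 3) (by omega)).le (c0 (6 * k + 4) (by omega)).le
        (c0 (6 * k + 5) (by omega)).le (D0 (6 * k + 1) (by omega)) (D0 (6 * k + 2) (by omega))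
        (D0 (6 * k + 3) (by omega)) (D0 (6 * k + 4) (by omega)) (D0 (6 * k + 5) (by omega))
        (D0 (6 * k + 6) (by omega)) hS ?_ ?_ ?_ ?_
      · simp only [hEdef, hDdef] at g3 ⊢; linarith
      · simp only [e2]; linarith
      · simp only [e1]; linarith
      · rw [← f1, ← f2, ← f3, ← f4, ← f5]; exact key)
  have := smono (6 * K + 1) (by omega)
  calc (K : ℝ) ^ 6 ≤ 454 ^ 6 * s (6 * K + 1) := main
    _ ≤ _ := by gcongr; linarith

lemma chain_bound {W : ℕ → ℕ → ℝ} {M : ℕ} {B : ℝ} (h : Chain W M B) (hM : 1 ≤ M)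
    (hz : ∀ k ≤ M, 0 ≤ W 0 k) (hz' : ∀ k ≤ M, 0 ≤ W k M) :
    ∃ K : ℕ, M ≤ 12 * K + 12 ∧ (K : ℝ) ^ 6 ≤ 454 ^ 6 * (2 * B) := by
  set g := M / 2 with hg
  by_cases h1 : W 0 g ≤ W 0 (g + 1)
  · exact ⟨g / 6, by omega, half_bound (h.mono (by omega)) (fun k hk => hz k (by omega)) h1⟩
  · by_cases h2 : W (g + 1) M ≤ W g M
    · refine ⟨(M - g - 1) / 6, by omega, half_bound (W := fun i j => W (M - j) (M - i))
        (h.rev.mono (by omega)) (fun k hk => hz' _ (by omega)) ?_⟩
      simp only [Nat.sub_zero]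
      rw [show M - (M - g - 1) = g + 1 by omega, show M - (M - g - 1 + 1) = g by omega]
      exact h2
    · exfalso
      push Not at h1 h2
      have p := h.pl 0 g (g + 1) M
      have a := hz (g + 1) (by omega)
      have b := hz' g (by omega)
      have d := h.hD g (g + 1) rfl (by omega)
      have e := hz M le_rfl
      have f : W 0 (g + 1) * W g M < W 0 g * W (g + 1) M := mul_lt_mul'' h1 h2 a b
      nlinarith

end Pool.Agent.Lib.MP_d5dfc1_co
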