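import Pool.Agent.Lib.MP_d5dfc1_co.SpDef

/-! The map of a simplicial polytope satisfies `Base`. -/

namespace Pool.Agent.Lib.MP_d5dfc1_co.Sp

open Finset Ex

variable {V F D : Type} [Fintype D] [DecidableEq V] [Fintype V] [Fintype F] [DecidableEq F]
  {M : PM V F D} {p : V → V3} {n : F → V3} {c : F → ℝ}

omit [Fintype D] [Fintype F] [DecidableEq F] in
lemma tri_of (st : Strict M p n c)
    (hS : ∀ X, IsExposed ℝ (convexHull ℝ (Set.range p)) X → X ≠ convexHull ℝ (Set.range p) →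
      {i | p i ∈ X}.ncard ≤ 3) (d : D) : M.nx (M.nx (M.nx d)) = d := by
  set f := M.lf d with hf
  have hm : ∀ k, p k ∈ convexHull ℝ (Set.range p) := fun k =>
    subset_convexHull _ _ (Set.mem_range_self k)
  have le' : ∀ w ∈ convexHull ℝ (Set.range p), dotL (n f) w ≤ c f :=
    convexHull_min (t := {w | dotL (n f) w ≤ c f}) (by
      rintro _ ⟨i, rfl⟩
      simpa only [Set.mem_ofPred_eq, dotL_apply, slack, sub_nonneg] using st.le i f)
      (convex_halfSpace_le (dotL (n f)).isLinear _)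
  have eq : ∀ k, M.Inc k f → dot (n f) (p k) = c f := fun k e => (sub_eq_zero.1 (st.1 k f e)).symm
  set X := {w ∈ convexHull ℝ (Set.range p) |
    ∀ w' ∈ convexHull ℝ (Set.range p), dotL (n f) w' ≤ dotL (n f) w} with hX
  have mem : ∀ e, M.lf e = f → p (M.tl e) ∈ X := fun e he =>
    ⟨hm _, fun w hw => by rw [dotL_apply _ (p _), eq _ ⟨e, rfl, he⟩]; exact le' w hw⟩
  have := hS X (fun _ => ⟨dotL (n f), rfl⟩) fun e => by
    have k : p (M.hd (M.sg d)) ∈ X := by rw [e]; exact hm _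
    have a := k.2 _ (hm (M.tl d))
    have b := st.2 _ _ (M.nd2 d)
    rw [dotL_apply, dotL_apply, eq _ (M.inc_tl_lf d)] at a
    exact absurd a (not_le.2 (sub_pos.1 b))
  by_contra N
  have inj : ∀ e e', M.lf e = f → M.lf e' = f → e ≠ e' → M.tl e ≠ M.tl e' :=
    fun e e' a b ne t => ne (M.uniq _ _ t (a.trans b.symm))
  have n2 : ∀ d, M.nx (M.nx d) ≠ d := fun d e => M.hd_nx_ne d (by rw [← M.tl_nx, e])
  have sub := Set.ncard_le_ncard (s := ((({d, M.nx d, M.nx (M.nx d), M.nx (M.nx (M.nx d))} :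
      Set D)).image M.tl)) (t := {i | p i ∈ X}) (by
      rintro _ ⟨e, rfl | rfl | rfl | rfl, rfl⟩ <;> exact mem _ (by simp [hf])) (Set.toFinite _)
  rw [Set.InjOn.ncard_image (by
    rintro e (rfl | rfl | rfl | rfl) e' (rfl | rfl | rfl | rfl) t <;>
      exact M.uniq _ _ t (by simp)), Set.ncard_insert_of_notMem, Set.ncard_insert_of_notMem,
    Set.ncard_pair (M.nx_ne _).symm] at sub
  · omega
  · rintro (e | e)
    exacts [M.nx_ne _ e.symm, n2 _ e.symm]
  · rintro (e | e | e)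
    exacts [M.nx_ne _ e.symm, n2 _ e.symm, N e.symm]

theorem base_of (st : Strict M p n c) (O : Ori M p n) (n3 : ∀ d, M.nx (M.nx (M.nx d)) = d) (d : D) :
    Base M (M.lf d) ![d, M.nx d, M.nx (M.nx d)] := by
  refine ⟨exTri (n3 d), n3, st.con, dual_exa (st.exa O), ?_⟩
  rintro d _ ⟨b, h1, rfl⟩ ⟨e, h2, h3⟩
  have : e = b ∨ e = M.nx b ∨ e = M.nx (M.nx b) :=
    M.f_ind (P := fun e => e = b ∨ e = M.nx b ∨ e = M.nx (M.nx b))
      (by rintro _ (rfl | rfl | rfl) <;> simp [n3]) (Or.inl rfl) h3.symm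
  rcases this with rfl | rfl | rfl
  · exact absurd (h2.symm.trans h1) (M.hd_ne d)
  · exact Or.inl (by rw [M.simple' h1 (by simpa using h2)])
  · right
    rw [← M.lf_rev, ← M.simple' (d := M.nx (M.nx b)) (e := M.rev d) h2
      (by rw [← M.tl_nx, n3, PM.hd_rev, h1])]
    simp

end Pool.Agent.Lib.MP_d5dfc1_co.Sp
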