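import Pool.Agent.Lib.MP_d5dfc1_co.ExA2

/-! Simplicial polytopes on a polynomial grid: the interfaces. -/

namespace Pool.Agent.Lib.MP_d5dfc1_co.Sp

open Finset Ex

variable {V F D : Type} [Fintype D] [DecidableEq V]

/-- triangulated sphere with outer face `T` -/
structure Base (M : PM V F D) (T : F) (a : Fin 3 → D) : Prop where
  tri : Tri M T a
  n3 : ∀ d, M.nx (M.nx (M.nx d)) = d
  con : M.Con
  dex : ∀ θ : D → ℝ, (∀ d, θ (M.rev d) = - θ d) → (∀ x, ∑ d with M.tl d = x, θ d = 0) →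
    ∃ Q : F → ℝ, ∀ d, θ d = Q (M.rf d) - Q (M.lf d)
  ef : ∀ d g, M.Inc (M.tl d) g → M.Inc (M.hd d) g → g = M.lf d ∨ g = M.rf d

/-- canonical order; the third vertices of a dart `d` are `hd (nx d)` (left), `hd (sg d)` (right) -/
structure Can (M : PM V F D) (T : F) (a : Fin 3 → D) (ρ : V → ℕ) : Prop where
  inj : Function.Injective ρ
  lo : ∀ x, x ≠ M.tl (a 0) → x ≠ M.tl (a 1) → ρ (M.tl (a 0)) < ρ x ∧ ρ (M.tl (a 1)) < ρ x
  hi : ∀ x, x ≠ M.tl (a 2) → ρ x < ρ (M.tl (a 2))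
  n1 : ∀ d, M.tl d ≠ M.tl (a 0) → M.tl d ≠ M.tl (a 1) → ρ (M.hd d) < ρ (M.tl d) →
    ρ (M.hd (M.nx d)) < ρ (M.tl d) ∨ ρ (M.hd (M.sg d)) < ρ (M.tl d)
  up : ∀ x, ¬ M.Inc x T → ∃ d, M.tl d = x ∧ ρ x < ρ (M.hd d)
  dn : ∀ x, ¬ M.Inc x T → ∃ d, M.tl d = x ∧ ρ (M.hd d) < ρ x
  ex : ∀ d e, M.tl d = M.tl e → ρ (M.hd d) < ρ (M.tl d) → ρ (M.tl d) < ρ (M.hd (M.sg d)) →
    ρ (M.hd e) < ρ (M.tl e) → ρ (M.tl e) < ρ (M.hd (M.sg e)) → d = e
  n3 : ∀ d e, M.tl e = M.hd d → ρ (M.hd d) < ρ (M.tl d) → ρ (M.tl d) < ρ (M.hd e) →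
    ρ (M.tl d) < ρ (M.hd (M.nx d)) ∨ ρ (M.tl d) < ρ (M.hd (M.sg d))

/-- Schnyder wood: corner labels, outgoing darts, three orders -/
structure Sch (M : PM V F D) (T : F) (a : Fin 3 → D) where
  lab : D → Fin 3
  o : Fin 3 → V → D
  r : Fin 3 → V → ℝ
  lab_nx : ∀ d, M.lf d ≠ T → lab (M.nx d) = lab d + 2
  lab_t : ∀ j d, M.tl d = M.tl (a j) → M.lf d ≠ T → lab d = j
  o_tl : ∀ i x, ¬ M.Inc x T → M.tl (o i x) = x
  o_lab : ∀ i x, ¬ M.Inc x T → lab (o i x) = i + 1 ∧ lab (M.sg (o i x)) = i + 2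
  lab_sg : ∀ d, ¬ M.Inc (M.tl d) T → lab (M.sg d) = lab d ∨ d = o (lab d + 2) (M.tl d)
  r_up : ∀ i x, ¬ M.Inc x T → r i x < r i (M.hd (o i x))
  r_dn : ∀ i j x, ¬ M.Inc x T → j ≠ i → r j (M.hd (o i x)) < r j x

variable {M : PM V F D} {T : F} {a : Fin 3 → D}

open Classical in
/-- parent of colour `i`; outer vertices are fixed -/
noncomputable def Sch.p (S : Sch M T a) (i : Fin 3) (x : V) : V :=
  if M.Inc x T then x else M.hd (S.o i x)

/-- `x` lies on the path of colour `i` from `u` -/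
def Sch.On (S : Sch M T a) (i : Fin 3) (u x : V) : Prop := ∃ k : ℕ, (S.p i)^[k] u = x

/-- `d` is a dart of the path of colour `i` from `u` -/
def Sch.Dp (S : Sch M T a) (i : Fin 3) (u : V) (d : D) : Prop :=
  ¬ M.Inc (M.tl d) T ∧ S.On i u (M.tl d) ∧ d = S.o i (M.tl d)

/-- the three regions of every vertex -/
structure Chi (S : Sch M T a) (χ : V → F → Fin 3) : Prop where
  a1 : ∀ u d, M.lf d ≠ T → M.rf d ≠ T → (∀ i, ¬ S.Dp i u d) → (∀ i, ¬ S.Dp i u (M.rev d)) →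
    χ u (M.lf d) = χ u (M.rf d)
  a2 : ∀ u i d, S.Dp i u d → χ u (M.lf d) = i + 1 ∧ χ u (M.rf d) = i + 2
  a3 : ∀ u j, ¬ M.Inc u T → χ u (M.rf (a j)) = j + 2
  a4 : ∀ j f, χ (M.tl (a j)) f = j

open Classical in
/-- levels of darts and vertices, centres, units -/
structure Hier (S : Sch M T a) (lev : D → ℕ) (l : V → ℕ) (cen : V → Prop) (un : V → Set F)
    (N : ℕ) : Prop where
  sym : ∀ d, lev (M.rev d) = lev d
  le : ∀ d, lev d ≤ N
  l_le : ∀ d, l (M.tl d) ≤ lev d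
  l_out : ∀ x, M.Inc x T → l x = 0
  l_in : ∀ x, ¬ M.Inc x T → 0 < l x
  cen_in : ∀ x, cen x → ¬ M.Inc x T
  h1c : ∀ x, cen x → (∀ i, lev (S.o i x) = l x) ∧ ∀ d, M.tl d = x → lev d = l x → ∃ i, d = S.o i x
  h1n : ∀ x, ¬ M.Inc x T → ¬ cen x → ∃ i y, ¬ M.Inc y T ∧ M.hd (S.o i y) = x ∧
    lev (S.o i x) = l x ∧ lev (S.o i y) = l x ∧
    ∀ d, M.tl d = x → lev d = l x → d = S.o i x ∨ d = M.rev (S.o i y)
  un_eq : ∀ d, ¬ M.Inc (M.tl d) T → l (M.tl d) = lev d → l (M.hd d) = lev d →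
    un (M.tl d) = un (M.hd d)
  cnt : ∀ x, ¬ M.Inc x T → ∑ d with un (M.tl d) = un x ∧ l (M.tl d) = l x ∧ l x < lev d,
    (1 / 32 : ℝ) ^ (lev d - l x) ≤ 1

/-- symmetric positive weights -/
def SP (M : PM V F D) (w : D → ℝ) : Prop := (∀ d, 0 < w d) ∧ ∀ d, w (M.rev d) = w d

/-- harmonic off `B`, equal to the unit vector `κ x` on `B` -/
def Sol (M : PM V F D) (w : D → ℝ) (B : Set V) (κ : V → Fin 3) (r : V → V3) : Prop :=
  (∀ x ∈ B, ∀ k, r x k = if k = κ x then 1 else 0) ∧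
    ∀ k x, x ∉ B → ∑ d with M.tl d = x, w d * (r (M.hd d) k - r x k) = 0

/-- signed area of the left face of `d` -/
def ar (M : PM V F D) (r : V → V3) (d : D) : ℝ :=
  det3 (r (M.hd d)) (r (M.tl d)) (r (M.hd (M.nx d)))

/-- energy -/
noncomputable def en (M : PM V F D) (w : D → ℝ) (ψ : V → ℝ) : ℝ :=
  (∑ d, w d * (ψ (M.hd d) - ψ (M.tl d)) ^ 2) / 2

/-- state of the contraction argument for the left face of `d0` -/
structure Inv (M : PM V F D) (T : F) (w : D → ℝ) (d0 : D) (A0 : ℝ) (B : Set V) (κ : V → Fin 3)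
    (c : ℝ) : Prop where
  root : ∀ x, M.Inc x T → x ∈ B
  pos : ∀ w', SP M w' → ∀ r, Sol M w' B κ r → 0 ≤ ar M r d0
  cmp : ∀ r, Sol M w B κ r → c * ar M r d0 ≤ A0

/-! basic facts -/

section
omit [Fintype D] [DecidableEq V]

lemma nx_rev (d : D) : M.nx (M.rev d) = M.sg d := by simp [PM.nx]
lemma sg_rev (d : D) : M.sg (M.rev d) = M.nx d := rfl

lemma inn_lf {d : D} (h : ¬ M.Inc (M.tl d) T) : M.lf d ≠ T := fun e => h (e ▸ M.inc_tl_lf d)
lemma inn_rf {d : D} (h : ¬ M.Inc (M.tl d) T) : M.rf d ≠ T := fun e => h (e ▸ M.inc_tl_rf d)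
lemma inn_lf' {d : D} (h : ¬ M.Inc (M.hd d) T) : M.lf d ≠ T := fun e => h (e ▸ M.inc_hd_lf d)
lemma inn_rf' {d : D} (h : ¬ M.Inc (M.hd d) T) : M.rf d ≠ T := fun e => h (e ▸ M.inc_hd_rf d)

/-- darts of the outer face -/
lemma out_dart (h : Tri M T a) {d : D} (e : M.lf d = T) : ∃ j, d = a j := by
  obtain ⟨j, hj⟩ := (h.all _).1 (e ▸ M.inc_tl_lf d)
  exact ⟨j, M.uniq _ _ hj.symm (e.trans (h.lf j).symm)⟩

/-- backward induction around a vertex -/
lemma v_ind' [Finite D] {P : D → Prop} (h : ∀ d, P (M.sg d) → P d) {d e : D} (hd : P d)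
    (t : M.tl d = M.tl e) : P e := by
  by_contra n
  exact M.v_ind (P := fun b => ¬ P b) (fun b q k => q (h b k)) n t.symm hd

end

lemma Base.hd2 (h : Base M T a) (d : D) : M.hd (M.nx (M.nx d)) = M.tl d := by
  rw [← M.tl_nx, h.n3]

lemma Base.sg_pv (h : Base M T a) (d : D) : M.sg (M.rev (M.nx (M.nx d))) = d := h.n3 d

lemma Base.hd_nx_sg (h : Base M T a) (d : D) : M.hd (M.nx (M.sg d)) = M.hd d := by
  have := h.hd2 (M.rev d)
  rwa [nx_rev, PM.tl_rev] at this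

/-- the darts of a face -/
lemma Base.face (h : Base M T a) {d e : D} (q : M.lf d = M.lf e) :
    e = d ∨ e = M.nx d ∨ e = M.nx (M.nx d) :=
  M.f_ind (P := fun e => e = d ∨ e = M.nx d ∨ e = M.nx (M.nx d))
    (by rintro _ (rfl | rfl | rfl) <;> simp [h.n3]) (Or.inl rfl) q

/-- a set of faces closed under adjacency -/
lemma Base.dcon (h : Base M T a) (C : Set F) (hC : ∀ d, M.lf d ∈ C → M.rf d ∈ C) {f : F}
    (hf : f ∈ C) (g : F) : g ∈ C := by
  have loc : ∀ d e, M.lf d ∈ C → M.tl d = M.tl e → M.lf e ∈ C := fun d e k t =>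
    M.v_ind (P := fun b => M.lf b ∈ C) (fun b q => by simpa using hC b q) k t
  obtain ⟨d, rfl⟩ := M.lf_surj f
  obtain ⟨e, rfl⟩ := M.lf_surj g
  obtain ⟨b, b1, b2⟩ := h.con.all {x | ∃ b, M.tl b = x ∧ M.lf b ∈ C}
    (fun b ⟨b', t, k⟩ => ⟨M.nx b, by simp, by simpa using loc _ _ k t⟩) (u := M.tl d) ⟨d, rfl, hf⟩ (M.tl e)
  exact loc _ _ b2 b1

namespace Sch
variable (S : Sch M T a)
omit [Fintype D] [DecidableEq V]

lemma p_in (i : Fin 3) {x : V} (h : ¬ M.Inc x T) : S.p i x = M.hd (S.o i x) := if_neg h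
lemma p_out (i : Fin 3) {x : V} (h : M.Inc x T) : S.p i x = x := if_pos h

lemma it_out (i : Fin 3) {x : V} (h : M.Inc x T) (k : ℕ) : (S.p i)^[k] x = x :=
  Function.iterate_fixed (S.p_out i h) k

/-- earlier vertices of a path are inner -/
lemma it_in (i : Fin 3) {x : V} {k m : ℕ} (h : ¬ M.Inc ((S.p i)^[k] x) T) (hm : m ≤ k) :
    ¬ M.Inc ((S.p i)^[m] x) T := fun q => by
  obtain ⟨j, rfl⟩ := Nat.exists_eq_add_of_le' hm
  rw [Function.iterate_add_apply, S.it_out i q] at h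
  exact h q

lemma o_lf (i : Fin 3) {x : V} (h : ¬ M.Inc x T) : M.lf (S.o i x) ≠ T :=
  inn_lf (by rwa [S.o_tl i x h])
lemma o_rf (i : Fin 3) {x : V} (h : ¬ M.Inc x T) : M.rf (S.o i x) ≠ T :=
  inn_rf (by rwa [S.o_tl i x h])

lemma o_inj {i j : Fin 3} {x : V} (h : ¬ M.Inc x T) (e : S.o i x = S.o j x) : i = j := by
  have a := (S.o_lab i x h).1
  rw [e, (S.o_lab j x h).1] at a
  exact (add_right_cancel a).symm

/-- labels at the head -/
lemma lab_hd (i : Fin 3) {x : V} (h : ¬ M.Inc x T) :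
    S.lab (M.rev (S.o i x)) = i ∧ S.lab (M.nx (S.o i x)) = i := by
  have a := S.lab_nx (M.rev (S.o i x)) (S.o_rf i h)
  rw [nx_rev, (S.o_lab i x h).2] at a
  rw [S.lab_nx _ (S.o_lf i h), (S.o_lab i x h).1]
  exact ⟨(add_right_cancel a).symm, by clear * -; revert i; decide⟩

/-- every interior dart has a colour and a direction -/
lemma dart {d : D} (h1 : M.lf d ≠ T) (h2 : M.rf d ≠ T) (hT : Tri M T a) :
    (¬ M.Inc (M.tl d) T ∧ ∃ i, d = S.o i (M.tl d)) ∨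
      (¬ M.Inc (M.hd d) T ∧ ∃ i, M.rev d = S.o i (M.hd d)) := by
  have key : ∀ d : D, M.lf d ≠ T → M.rf d ≠ T → S.lab (M.sg d) ≠ S.lab d →
      ¬ M.Inc (M.tl d) T ∧ ∃ i, d = S.o i (M.tl d) := fun d h1 h2 ne => by
    have i : ¬ M.Inc (M.tl d) T := fun i => by
      obtain ⟨j, hj⟩ := (hT.all _).1 i
      exact ne ((S.lab_t j _ (by simp [hj]) (by simpa)).trans (S.lab_t j _ hj.symm h1).symm)
    exact ⟨i, _, (S.lab_sg d i).resolve_left ne⟩
  have a := S.lab_nx d h1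
  have b := S.lab_nx (M.rev d) h2
  rw [nx_rev] at b
  by_cases e : S.lab (M.sg d) = S.lab d
  · refine Or.inr (key (M.rev d) h2 (by simpa) ?_)
    rw [sg_rev, a, ← e, b]
    generalize S.lab (M.rev d) = u
    clear * -; revert u; decide
  · exact Or.inl (key d h1 h2 e)

lemma r_p_up (i : Fin 3) (x : V) : S.r i x ≤ S.r i (S.p i x) := by
  by_cases h : M.Inc x T
  · rw [S.p_out i h]
  · rw [S.p_in i h]; exact (S.r_up i x h).le

lemma r_p_dn {i j : Fin 3} (ne : j ≠ i) (x : V) : S.r j (S.p i x) ≤ S.r j x := by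
  by_cases h : M.Inc x T
  · rw [S.p_out i h]
  · rw [S.p_in i h]; exact (S.r_dn i j x h ne).le

lemma On.refl (i : Fin 3) (x : V) : S.On i x x := ⟨0, rfl⟩

variable {S}

lemma On.step {i : Fin 3} {u x : V} (h : S.On i u x) : S.On i u (S.p i x) := by
  obtain ⟨k, rfl⟩ := h
  exact ⟨k + 1, Function.iterate_succ_apply' _ _ _⟩

lemma On.trans {i : Fin 3} {u x y : V} (h : S.On i u x) (k : S.On i x y) : S.On i u y := by
  obtain ⟨a, rfl⟩ := h
  obtain ⟨b, rfl⟩ := k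
  exact ⟨b + a, Function.iterate_add_apply _ _ _ _⟩

lemma On.total {i : Fin 3} {u x y : V} (h : S.On i u x) (k : S.On i u y) :
    S.On i x y ∨ S.On i y x := by
  obtain ⟨a, rfl⟩ := h
  obtain ⟨b, rfl⟩ := k
  rcases le_total a b with q | q <;> obtain ⟨c, rfl⟩ := Nat.exists_eq_add_of_le' q
  · exact Or.inl ⟨c, (Function.iterate_add_apply _ _ _ _).symm⟩
  · exact Or.inr ⟨c, (Function.iterate_add_apply _ _ _ _).symm⟩

lemma On.cases {i : Fin 3} {u x : V} (h : S.On i u x) :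
    x = u ∨ (¬ M.Inc u T ∧ S.On i (S.p i u) x) := by
  obtain ⟨k, rfl⟩ := h
  by_cases q : M.Inc u T
  · exact Or.inl (S.it_out i q k)
  · rcases k with _ | k
    exacts [Or.inl rfl, Or.inr ⟨q, k, rfl⟩]

lemma On.cases' {i : Fin 3} {u x : V} (h : S.On i u x) :
    x = u ∨ ∃ y, ¬ M.Inc y T ∧ S.On i u y ∧ M.hd (S.o i y) = x := by
  obtain ⟨k, rfl⟩ := h
  induction k with
  | zero => exact Or.inl rfl
  | succ k ih =>
    rw [Function.iterate_succ_apply']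
    by_cases q : M.Inc ((S.p i)^[k] u) T
    · rwa [S.p_out i q]
    · exact Or.inr ⟨_, q, ⟨k, rfl⟩, (S.p_in i q).symm⟩

lemma On.le {i : Fin 3} {u x : V} (h : S.On i u x) :
    S.r i u ≤ S.r i x ∧ ∀ j, j ≠ i → S.r j x ≤ S.r j u := by
  obtain ⟨k, rfl⟩ := h
  induction k with
  | zero => exact ⟨le_rfl, fun _ _ => le_rfl⟩
  | succ k ih =>
    rw [Function.iterate_succ_apply']
    exact ⟨ih.1.trans (S.r_p_up i _), fun j ne => (S.r_p_dn ne _).trans (ih.2 j ne)⟩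

lemma On.lt {i : Fin 3} {u x : V} (h : S.On i u x) (ne : x ≠ u) :
    S.r i u < S.r i x ∧ ∀ j, j ≠ i → S.r j x < S.r j u := by
  obtain ⟨q, k⟩ := h.cases.resolve_left ne
  rw [S.p_in i q] at k
  exact ⟨(S.r_up i u q).trans_le k.le.1, fun j n => (k.le.2 j n).trans_lt (S.r_dn i j u q n)⟩

/-- paths of different colours from one vertex meet only there -/
lemma On.disj {i j : Fin 3} {u x : V} (h : S.On i u x) (k : S.On j u x) (ne : i ≠ j) : x = u := by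
  by_contra n
  exact lt_asymm (h.lt n).1 ((k.lt n).2 i ne)

/-- unique predecessor on a path -/
lemma On.pred {i : Fin 3} {u x y : V} (h : S.On i u x) (k : S.On i u y) (hx : ¬ M.Inc x T)
    (hy : ¬ M.Inc y T) (e : M.hd (S.o i x) = M.hd (S.o i y)) : x = y := by
  have key : ∀ {x y : V}, S.On i x y → ¬ M.Inc x T → ¬ M.Inc y T →
      M.hd (S.o i x) = M.hd (S.o i y) → x = y := fun {x y} h hx hy e => by
    rcases h.cases with q | ⟨-, q⟩
    · exact q.symm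
    · rw [S.p_in i hx, e] at q
      exact absurd (S.r_up i y hy) (not_lt.2 q.le.1)
  rcases h.total k with q | q
  exacts [key q hx hy e, (key q hy hx e.symm).symm]

lemma ne_rev (S : Sch M T a) {i j : Fin 3} {x y : V} (hx : ¬ M.Inc x T) (hy : ¬ M.Inc y T) :
    S.o i x ≠ M.rev (S.o j y) := fun e => by
  have e1 : M.hd (S.o j y) = x := by rw [← PM.tl_rev, ← e, S.o_tl i x hx]
  have e2 : M.hd (S.o i x) = y := by rw [e, PM.hd_rev, S.o_tl j y hy]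
  have a := (S.o_lab i x hx).1
  have b := (S.o_lab i x hx).2
  rw [e, (S.lab_hd j hy).1] at a
  rw [e, sg_rev, (S.lab_hd j hy).2, a] at b
  revert b; clear * -; revert i; decide

end Sch

end Pool.Agent.Lib.MP_d5dfc1_co.Sp
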