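import Pool.Agent.Lib.MP_d5dfc1_co.SpReg

/-! The recursive splitting and the levels. -/

namespace Pool.Agent.Lib.MP_d5dfc1_co.Sp

open Finset Ex

variable {V F D : Type} {M : PM V F D} {T : F} {a : Fin 3 → D} {S : Sch M T a} {χ : V → F → Fin 3}

/-- not separated by the first `j` splittings -/
def E (T : F) (χ : V → F → Fin 3) (v : ℕ → F → V) (j : ℕ) (f g : F) : Prop :=
  (g = T ↔ f = T) ∧ ∀ s < j, χ (v s f) g = χ (v s f) f

structure Sys (T : F) (χ : V → F → Fin 3) (v : ℕ → F → V) (N : ℕ) : Prop where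
  inv : ∀ j f g, E T χ v j f g → v j g = v j f
  disc : ∀ f g, E T χ v N f g → g = f

variable {v : ℕ → F → V} {N : ℕ}

lemma E.refl (j : ℕ) (f : F) : E T χ v j f f := ⟨Iff.rfl, fun _ _ => rfl⟩

lemma E.mono {j k : ℕ} {f g : F} (h : E T χ v j f g) (q : k ≤ j) : E T χ v k f g :=
  ⟨h.1, fun s hs => h.2 s (hs.trans_le q)⟩

lemma Sys.symm (y : Sys T χ v N) {j : ℕ} {f g : F} (h : E T χ v j f g) : E T χ v j g f :=
  ⟨h.1.symm, fun s hs => by rw [y.inv s f g (h.mono hs.le), h.2 s hs]⟩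

lemma Sys.trans (y : Sys T χ v N) {j : ℕ} {f g k : F} (h : E T χ v j f g) (q : E T χ v j g k) :
    E T χ v j f k :=
  ⟨q.1.trans h.1, fun s hs => by rw [← h.2 s hs, ← y.inv s f g (h.mono hs.le), q.2 s hs]⟩

variable [Fintype D] [DecidableEq V]

lemma exSys [Fintype F] (h : Base M T a) (c : Chi S χ) :
    ∃ v, Sys T χ v (3 * (Nat.log 2 (Fintype.card F) + 1)) := by
  classical
  have : ∀ R : Finset F, ∃ y : Fin 3 → V, T ∉ R → ∀ f ∈ R,
      #{g ∈ R | ∀ k, χ (y k) g = χ (y k) f} ≤ 1 ∨ 2 * #{g ∈ R | ∀ k, χ (y k) g = χ (y k) f} ≤ #R := by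
    intro R
    by_cases q : T ∈ R
    · exact ⟨fun _ => M.tl (a 0), fun n => absurd q n⟩
    · obtain ⟨y, hy⟩ := c.half h R q
      exact ⟨y, fun _ => hy⟩
  choose tri htri using this
  let G : ℕ → F → Finset F := fun m => Nat.rec (fun f => {g | g = T ↔ f = T})
    (fun _ G f => {g ∈ G f | ∀ k, χ (tri (G f) k) g = χ (tri (G f) k) f}) m
  have G0 : ∀ f, G 0 f = univ.filter fun g => g = T ↔ f = T := fun f => rfl
  have G1 : ∀ m f, G (m + 1) f
      = {g ∈ G m f | ∀ k, χ (tri (G m f) k) g = χ (tri (G m f) k) f} := fun m f => rfl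
  have self : ∀ m f, f ∈ G m f := fun m f => by
    induction m with
    | zero => simp [G0]
    | succ m ih => simp [G1, ih]
  have cl : ∀ m f g, g ∈ G m f → G m g = G m f := fun m => by
    induction m with
    | zero => intro f g q; rw [G0, mem_filter] at q; simp only [G0, q.2]
    | succ m ih =>
      intro f g q
      rw [G1, mem_filter] at q
      simp only [G1, ih f g q.1, q.2]
  have nT : ∀ m f g, g ∈ G m f → (g = T ↔ f = T) := fun m f g => by
    induction m with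
    | zero => simp [G0]
    | succ m ih => exact fun q => ih (mem_filter.1 q).1
  have sz : ∀ m f, f ≠ T → #(G m f) ≤ 1 ∨ 2 ^ m * #(G m f) ≤ Fintype.card F := fun m f hf => by
    induction m with
    | zero => exact Or.inr (by simpa using card_le_univ _)
    | succ m ih =>
      have k := htri (G m f) (fun q => hf ((nT m f T q).1 rfl)) f (self m f)
      rw [← G1] at k
      have s : #(G (m + 1) f) ≤ #(G m f) := card_le_card (filter_subset _ _)
      rcases k with k | k
      · exact Or.inl k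
      rcases ih with q | q
      · exact Or.inl (s.trans q)
      · exact Or.inr (by rw [pow_succ, mul_assoc]; exact (Nat.mul_le_mul_left _ k).trans q)
  let v : ℕ → F → V := fun j f => tri (G (j / 3) f) ⟨j % 3, Nat.mod_lt _ (by norm_num)⟩
  have EG : ∀ m j f g, 3 * m ≤ j → E T χ v j f g → g ∈ G m f := fun m j f g hm q => by
    induction m with
    | zero => simpa [G0] using q.1
    | succ m ih =>
      refine mem_filter.2 ⟨ih (by omega), fun k => ?_⟩
      have := q.2 (3 * m + k) (by omega)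
      have e1 : (3 * m + k) / 3 = m := by omega
      have e2 : (⟨(3 * m + k) % 3, Nat.mod_lt _ (by norm_num)⟩ : Fin 3) = k := Fin.ext (by
        simp only; omega)
      simpa only [v, e1, e2] using this
  refine ⟨v, fun j f g q => ?_, fun f g q => ?_⟩
  · simp only [v, cl _ _ _ (EG (j / 3) j f g (by omega) q)]
  · by_cases hf : f = T
    · rw [q.1.2 hf, hf]
    have g1 := EG _ _ f g le_rfl q
    rcases sz (Nat.log 2 (Fintype.card F) + 1) f hf with k | k
    · exact card_le_one.1 k _ g1 _ (self (Nat.log 2 (Fintype.card F) + 1) f)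
    · have := Nat.lt_pow_succ_log_self (b := 2) (by norm_num) (Fintype.card F)
      have p := card_pos.2 ⟨_, g1⟩
      exact absurd ((Nat.le_mul_of_pos_right _ p).trans k) (not_le.2 this)

lemma geo (n : ℕ) : ∑ t ∈ range n, (3 / 32 : ℝ) ^ t ≤ 32 / 29 := by
  have : ∑ t ∈ range n, (3 / 32 : ℝ) ^ t + 32 / 29 * (3 / 32) ^ n = 32 / 29 := by
    induction n with
    | zero => simp
    | succ n ih => rw [sum_range_succ, pow_succ]; linarith
  have : (0 : ℝ) < (3 / 32) ^ n := by positivity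
  linarith

lemma Sys.hier (c : Chi S χ) (hT : Tri M T a) (y : Sys T χ v N) :
    ∃ lev l cen un, Hier S lev l cen un N := by
  classical
  have ex : ∀ d, ∃ j, ¬ E T χ v j (M.lf d) (M.rf d) := fun d => ⟨N, fun q => M.rf_ne d (y.disc _ _ q)⟩
  set lev : D → ℕ := fun d => Nat.find (ex d) with hlev
  have lt : ∀ d j, j < lev d ↔ E T χ v j (M.lf d) (M.rf d) := fun d j =>
    ⟨fun q => not_not.1 (Nat.find_min (ex d) q), fun q => by
      by_contra n
      exact Nat.find_spec (ex d) (q.mono (not_lt.1 n))⟩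
  have sym : ∀ d, lev (M.rev d) = lev d := fun d =>
    eq_of_forall_lt_iff fun j => by rw [lt, lt]; simpa using ⟨y.symm, y.symm⟩
  have exl : ∀ x, ∃ j, ∃ d, M.tl d = x ∧ lev d = j := fun x => by
    obtain ⟨d, hd⟩ := M.tl_surj x
    exact ⟨_, d, hd, rfl⟩
  set l : V → ℕ := fun x => Nat.find (exl x) with hl
  have l1 : ∀ d, l (M.tl d) ≤ lev d := fun d => Nat.find_min' (exl _) ⟨d, rfl, rfl⟩
  have l2 : ∀ x, ∃ d, M.tl d = x ∧ lev d = l x := fun x => Nat.find_spec (exl x)
  have lin : ∀ x, ¬ M.Inc x T → 0 < l x := fun x hx => by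
    obtain ⟨d, rfl, e⟩ := l2 x
    rw [← e, lt]
    exact ⟨by simp [inn_lf hx, inn_rf hx], by simp⟩
  have cls : ∀ j d e, j < l (M.tl d) → M.tl d = M.tl e → E T χ v j (M.lf d) (M.lf e) :=
    fun j d e q t => (M.v_ind (P := fun b => M.tl b = M.tl d ∧ E T χ v j (M.lf d) (M.lf b))
      (fun b ⟨b1, b2⟩ => ⟨by simpa, by
        rw [PM.lf_sg']; exact y.trans b2 ((lt b j).1 (q.trans_le (b1 ▸ l1 b)))⟩)
      ⟨rfl, E.refl _ _⟩ t).2
  have own : ∀ d j, lev d = j + 1 →
      ∃ i, S.Dp i (v j (M.lf d)) d ∨ S.Dp i (v j (M.lf d)) (M.rev d) := fun d j e => by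
    have e1 := (lt d j).1 (by omega)
    have f1 : M.lf d ≠ T := fun q => M.rf_ne d ((e1.1.2 q).trans q.symm)
    by_contra n
    push Not at n
    have := c.a1 _ d f1 (fun q => f1 (e1.1.1 q)) (fun i => (n i).1) fun i => (n i).2
    refine absurd ((lt d (j + 1)).2 ⟨e1.1, fun s hs => ?_⟩) (by omega)
    rcases (Nat.lt_succ_iff.1 hs).eq_or_lt with rfl | q
    exacts [this.symm, e1.2 s q]
  have own' : ∀ d j i, j < lev d → S.Dp i (v j (M.lf d)) d ∨ S.Dp i (v j (M.lf d)) (M.rev d) →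
      lev d = j + 1 := fun d j i q k => by
    by_contra n
    have := ((lt d (j + 1)).1 (by omega)).2 j j.lt_succ_self
    have ne : i + 1 ≠ i + 2 := by clear * -; revert i; decide
    rcases k with k | k <;> obtain ⟨b1, b2⟩ := c.a2 _ _ _ k
    · exact ne (by rw [← b1, ← b2, this])
    · exact ne (by rw [← b1, ← b2, PM.lf_rev, PM.rf_rev, this])
  choose dx hdx using M.tl_surj
  have atx : ∀ x, ¬ M.Inc x T → ∀ d, M.tl d = x → (lev d = l x ↔ ∃ i,
      S.Dp i (v (l x - 1) (M.lf (dx x))) d ∨ S.Dp i (v (l x - 1) (M.lf (dx x))) (M.rev d)) := by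
    intro x hx d hd
    have p := lin x hx
    have := l1 d
    rw [y.inv _ _ _ (cls (l x - 1) d (dx x) (by rw [hd]; omega) (hd.trans (hdx x).symm))]
    rw [hd] at this
    exact ⟨fun e => own d _ (by omega), fun ⟨i, k⟩ => by rw [own' d _ i (by omega) k]; omega⟩
  have key : ∀ j i u e e', S.Dp i u e → S.Dp i u e' → S.On i (M.tl e) (M.tl e') → e ≠ e' →
      j < lev e → j < lev e' → E T χ v j (M.lf e) (M.lf e') →
      j < l (M.hd e) ∧ j < l (M.tl e') := by
    intro j i u e e' k k' ⟨s, hs⟩ ne q q' z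
    have s0 : 0 < s := Nat.pos_of_ne_zero (by rintro rfl; exact ne (by rw [k.2.2, k'.2.2, ← hs]; rfl))
    have all : ∀ t, 0 < t → t ≤ s → j < l ((S.p i)^[t] (M.tl e)) := fun t t0 ts => by
      have inn := S.it_in i (hs ▸ k'.1) ts
      have w : ∀ b, M.tl b = (S.p i)^[t] (M.tl e) → E T χ v j (M.lf e) (M.lf b) := fun b hb =>
        ⟨by simp [k.lf, inn_lf (hb ▸ inn)], fun r hr => c.run (k := s) (hs ▸ k'.1)
          (by rw [← k.2.2]; exact ⟨rfl, ((lt e j).1 q).2 r hr⟩)
          (by rw [hs, ← k'.2.2]; exact ⟨z.2 r hr, (y.trans z ((lt e' j).1 q')).2 r hr⟩) t0 ts hb⟩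
      obtain ⟨b, b1, b2⟩ := l2 ((S.p i)^[t] (M.tl e))
      rw [← b2, lt]
      exact y.trans (y.symm (w b b1)) (by simpa using w (M.sg b) (by simpa))
    refine ⟨?_, hs ▸ all s s0 le_rfl⟩
    have := all 1 one_pos s0
    rwa [Function.iterate_one, S.p_in i k.1, ← k.2.2] at this
  refine ⟨lev, l, fun x => ¬ M.Inc x T ∧ v (l x - 1) (M.lf (dx x)) = x,
    fun x => {g | E T χ v (l x - 1) (M.lf (dx x)) g}, sym,
    fun d => not_lt.1 fun q => M.rf_ne d (y.disc _ _ ((lt d N).1 q)), l1, fun x hx => ?_, lin,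
    fun x q => q.1, fun x ⟨hx, e⟩ => ⟨fun i => ?_, fun d hd q => ?_⟩, fun x hx n => ?_,
    fun d hd e1 e2 => ?_, fun x hx => ?_⟩
  · obtain ⟨j, rfl⟩ := (hT.all x).1 hx
    refine Nat.le_zero.1 ((l1 _).trans (not_lt.1 fun q => ?_))
    exact M.rf_ne _ ((((lt _ 0).1 q).1.2 (hT.lf j)).trans (hT.lf j).symm)
  · exact (atx x hx _ (S.o_tl i x hx)).2 ⟨i, Or.inl (Sch.Dp.mk hx (e.symm ▸ Sch.On.refl S _ _))⟩
  · obtain ⟨i, k | k⟩ := (atx x hx d hd).1 q
    · exact ⟨i, hd ▸ k.2.2⟩
    · exact absurd (by simp [hd, e]) k.hd.2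
  · have n' : x ≠ v (l x - 1) (M.lf (dx x)) := fun e => n ⟨hx, e.symm⟩
    obtain ⟨d, hd, q⟩ := l2 x
    obtain ⟨i, o⟩ : ∃ i, S.On i (v (l x - 1) (M.lf (dx x))) x := by
      obtain ⟨i, k | k⟩ := (atx x hx d hd).1 q
      exacts [⟨i, by simpa only [hd] using k.2.1⟩, ⟨i, by simpa only [PM.hd_rev, hd] using k.hd.1⟩]
    obtain ⟨z, z1, z2, z3⟩ := o.cases'.resolve_left n'
    have k := Sch.Dp.mk z1 z2
    refine ⟨i, z, z1, z3, (atx x hx _ (S.o_tl i x hx)).2 ⟨i, Or.inl (Sch.Dp.mk hx o)⟩,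
      (sym _).symm.trans ((atx x hx _ z3).2 ⟨i, Or.inr (by simpa)⟩), fun b hb e => ?_⟩
    obtain ⟨j, k' | k'⟩ := (atx x hx b hb).1 e
    · exact Or.inl (z3 ▸ (k.at (hb.trans z3.symm)).1 k')
    · exact Or.inr ((k.at (hb.trans z3.symm)).2 k')
  · have p := lin _ hd
    have b1 := cls (l (M.tl d) - 1) (dx (M.tl d)) d (by rw [hdx]; omega) (hdx _)
    have b2 := cls (l (M.tl d) - 1) (dx (M.hd d)) (M.nx d) (by rw [hdx]; omega) (by simp [hdx])
    rw [PM.lf_nx] at b2
    ext g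
    simp only [Set.mem_ofPred_eq, e2.trans e1.symm]
    exact ⟨y.trans (y.trans b2 (y.symm b1)), y.trans (y.trans b1 (y.symm b2))⟩
  obtain ⟨j, hj⟩ := Nat.exists_eq_add_one_of_ne_zero (lin x hx).ne'
  set A : Finset D := {d | {g | E T χ v (l (M.tl d) - 1) (M.lf (dx (M.tl d))) g}
    = {g | E T χ v (l x - 1) (M.lf (dx x)) g} ∧ l (M.tl d) = l x ∧ l x < lev d} with hA
  have mem : ∀ d ∈ A, E T χ v j (M.lf (dx x)) (M.lf d) ∧ l (M.tl d) = j + 1 ∧ j + 1 < lev d := by
    intro d hd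
    obtain ⟨-, d1, d2, d3⟩ := mem_filter.1 hd
    have := cls (l (M.tl d) - 1) (dx (M.tl d)) d (by rw [hdx]; omega) (hdx _)
    have : M.lf d ∈ {g | E T χ v (l x - 1) (M.lf (dx x)) g} := d1 ▸ this
    rw [hj] at this d2 d3
    exact ⟨this, d2, d3⟩
  have cnt : ∀ t, #{d ∈ A | lev d - (j + 2) = t} ≤ 3 ^ (t + 1) * 6 := fun t => by
    have : ∀ d ∈ ({d ∈ A | lev d - (j + 2) = t} : Finset D), ∃ q : Fin 3 × Bool,
        S.Dp q.1 (v (j + t + 1) (M.lf d)) (if q.2 then d else M.rev d) := fun d hd => by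
      have := (mem d (mem_filter.1 hd).1).2.2
      have := (mem_filter.1 hd).2
      obtain ⟨i, k | k⟩ := own d (j + t + 1) (by omega)
      exacts [⟨(i, true), k⟩, ⟨(i, false), k⟩]
    choose! q hq using this
    refine (card_le_card_of_injOn (t := univ) (fun d => ((fun s : Fin (t + 1) =>
      χ (v (j + s) (M.lf d)) (M.lf d)), q d)) (by simp) fun d hd e he z => ?_).trans (by simp)
    obtain ⟨d1, d2, d3⟩ := mem d (mem_filter.1 hd).1
    obtain ⟨e1, e2, e3⟩ := mem e (mem_filter.1 he).1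
    have d4 := (mem_filter.1 hd).2
    have e4 := (mem_filter.1 he).2
    obtain ⟨z1, z2⟩ := Prod.mk.inj z
    have w : ∀ s, s ≤ t + 1 → E T χ v (j + s) (M.lf d) (M.lf e) := fun s hs => by
      induction s with
      | zero => exact y.trans (y.symm d1) e1
      | succ s ih =>
        have ih := ih (Nat.le_of_succ_le hs)
        refine ⟨ih.1, fun r hr => ?_⟩
        rcases (Nat.lt_succ_iff.1 hr).eq_or_lt with rfl | k
        · have := congrFun z1 ⟨s, hs⟩
          simp only at this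
          change χ (v (j + s) _) _ = χ (v (j + s) _) _
          rw [this, y.inv _ _ _ ih]
        · exact ih.2 r k
    have w := w _ le_rfl
    have k := hq d hd
    have k' := hq e he
    rw [← add_assoc] at w
    rw [← z2, y.inv _ _ _ w] at k'
    have ld : j + t + 1 < lev d := by omega
    have le : j + t + 1 < lev e := by omega
    have wr := y.trans (y.trans (y.symm ((lt d _).1 ld)) w) ((lt e _).1 le)
    by_contra ne
    cases hb : (q d).2 <;> simp only [hb, if_true, Bool.false_eq_true, if_false] at k k'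
    · have ne' : M.rev d ≠ M.rev e := fun r => ne (M.revP.injective r)
      rcases k.2.1.total k'.2.1 with o | o
      · have := (key _ _ _ _ _ k k' o ne' (sym d ▸ ld) (sym e ▸ le) wr).1
        rw [PM.hd_rev] at this
        omega
      · have := (key _ _ _ _ _ k' k o ne'.symm (sym e ▸ le) (sym d ▸ ld) (y.symm wr)).1
        rw [PM.hd_rev] at this
        omega
    · rcases k.2.1.total k'.2.1 with o | o
      · have := (key _ _ _ _ _ k k' o ne ld le w).2
        omega
      · have := (key _ _ _ _ _ k' k o (Ne.symm ne) le ld (y.symm w)).2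
        omega
  change ∑ d ∈ A, _ ≤ _
  rw [← sum_fiberwise_of_maps_to (t := range (N + 1)) (g := fun d => lev d - (j + 2)) fun d _ => by
    have : lev d ≤ N := not_lt.1 fun q => M.rf_ne d (y.disc _ _ ((lt d N).1 q))
    exact mem_range.2 (by omega)]
  refine (sum_le_sum (g := fun t => 18 / 32 * (3 / 32 : ℝ) ^ t) fun t _ => ?_).trans ?_
  · rw [sum_congr rfl (g := fun _ => (1 / 32 : ℝ) ^ (t + 1)) fun d hd => by
      have := (mem d (mem_filter.1 hd).1).2.2
      have := (mem_filter.1 hd).2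
      rw [show lev d - l x = t + 1 by omega], sum_const, nsmul_eq_mul]
    have : (#{d ∈ A | lev d - (j + 2) = t} : ℝ) ≤ 3 ^ (t + 1) * 6 := by exact_mod_cast cnt t
    refine (mul_le_mul_of_nonneg_right this (by positivity)).trans_eq ?_
    rw [show (3 / 32 : ℝ) = 3 * (1 / 32) by norm_num, mul_pow]; ring
  · rw [← mul_sum]; linarith [geo (N + 1)]

theorem exHier [Fintype F] (h : Base M T a) (c : Chi S χ) :
    ∃ lev l cen un, Hier S lev l cen un (3 * (Nat.log 2 (Fintype.card F) + 1)) := by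
  obtain ⟨v, y⟩ := exSys h c
  exact y.hier c h.tri

end Pool.Agent.Lib.MP_d5dfc1_co.Sp
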