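import Pool.Agent.Lib.MP_d5dfc1_co.SpLift

/-! Rounding of the lifted Tutte drawing. -/

namespace Pool.Agent.Lib.MP_d5dfc1_co.Sp

open Finset Ex

lemma det3_abs {x y z : V3} {A B C : ℝ} (hx : ∀ k, |x k| ≤ A) (hy : ∀ k, |y k| ≤ B)
    (hz : ∀ k, |z k| ≤ C) : |det3 x y z| ≤ 6 * (A * B * C) := by
  have A0 : 0 ≤ A := (abs_nonneg _).trans (hx 0)
  have B0 : 0 ≤ B := (abs_nonneg _).trans (hy 0)
  have t : ∀ i j k, |x i * y j * z k| ≤ A * B * C := fun i j k => by
    rw [abs_mul, abs_mul]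
    exact mul_le_mul (mul_le_mul (hx i) (hy j) (abs_nonneg _) A0) (hz k) (abs_nonneg _)
      (mul_nonneg A0 B0)
  have a := abs_le.1 (t 0 1 2); have b := abs_le.1 (t 0 2 1); have c := abs_le.1 (t 1 0 2)
  have d := abs_le.1 (t 1 2 0); have e := abs_le.1 (t 2 0 1); have f := abs_le.1 (t 2 1 0)
  rw [abs_le, det3]
  constructor <;> nlinarith [a.1, a.2, b.1, b.2, c.1, c.2, d.1, d.2, e.1, e.2, f.1, f.2]

lemma det3_pert {x y z x' y' z' : V3} {N H : ℝ} (N0 : 0 ≤ N) (K1 : 1 ≤ N * H)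
    (hx : ∀ k, |x k| ≤ H) (hy : ∀ k, |y k| ≤ H) (hz : ∀ k, |z k| ≤ H)
    (ex : ∀ k, |x' k - N * x k| ≤ 1) (ey : ∀ k, |y' k - N * y k| ≤ 1)
    (ez : ∀ k, |z' k - N * z k| ≤ 1) :
    det3 x' y' z' ≤ N ^ 3 * det3 x y z + 42 * (N * H) ^ 2 := by
  have s : ∀ {u : V3}, (∀ k, |u k| ≤ H) → ∀ k, |(fun k => N * u k) k| ≤ N * H := fun hu k => by
    simp only [abs_mul, abs_of_nonneg N0]
    exact mul_le_mul_of_nonneg_left (hu k) N0
  have t : ∀ {u u' : V3}, (∀ k, |u k| ≤ H) → (∀ k, |u' k - N * u k| ≤ 1) →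
      ∀ k, |u' k| ≤ 2 * (N * H) := fun {u u'} hu e k => by
    have a := abs_le.1 (s hu k)
    have b := abs_le.1 (e k)
    rw [abs_le]
    constructor <;> linarith [a.1, a.2, b.1, b.2]
  have a := (abs_le.1 (det3_abs (x := fun k => x' k - N * x k) ex (t hy ey) (t hz ez))).2
  have b := (abs_le.1 (det3_abs (y := fun k => y' k - N * y k) (s hx) ey (t hz ez))).2
  have c := (abs_le.1 (det3_abs (z := fun k => z' k - N * z k) (s hx) (s hy) ez)).2
  have e : det3 x' y' z' = N ^ 3 * det3 x y z + (det3 (fun k => x' k - N * x k) y' z'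
      + det3 (fun k => N * x k) (fun k => y' k - N * y k) z'
      + det3 (fun k => N * x k) (fun k => N * y k) fun k => z' k - N * z k) := by
    simp only [det3]; ring
  rw [e]
  linarith

variable {V F D : Type} [Fintype D] [DecidableEq V] {M : PM V F D} {T : F} {a : Fin 3 → D}

/-- normal of the left face of a dart -/
def cf (M : PM V F D) (P : V → V3) (d : D) : V3 :=
  cross (P (M.hd d) - P (M.tl d)) (P (M.hd (M.nx d)) - P (M.tl d))

/-- four point determinant at a dart -/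
def fp (M : PM V F D) (P : V → V3) (d : D) : ℝ :=
  - det3 (P (M.hd d) - P (M.tl d)) (P (M.hd (M.nx d)) - P (M.tl d)) (P (M.hd (M.sg d)) - P (M.tl d))

lemma cf_nx (h : Base M T a) (P : V → V3) (d : D) : cf M P (M.nx d) = cf M P d := by
  rw [cf, cf, h.hd2, PM.tl_nx]
  refine v3_ext ?_ ?_ ?_ <;> simp only [cr0, cr1, cr2, Pi.sub_apply] <;> ring

lemma cf_eq (h : Base M T a) (P : V → V3) {d e : D} (q : M.lf d = M.lf e) :
    cf M P d = cf M P e := by
  rcases h.face q with rfl | rfl | rfl <;> simp only [cf_nx h]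

lemma cf_zero (h : Base M T a) (P : V → V3) {df : F → D} (hdf : ∀ f, M.lf (df f) = f) :
    Zero M P (fun f => cf M P (df f)) fun f => dot (cf M P (df f)) (P (M.tl (df f))) := by
  rintro _ _ ⟨e, rfl, rfl⟩
  generalize hd : df (M.lf e) = d
  have q : M.lf d = M.lf e := hd ▸ hdf _
  simp only [slack, hd]
  rcases h.face q with rfl | rfl | rfl
  · exact sub_self _
  · simp only [PM.tl_nx, cf, dot, cr0, cr1, cr2, Pi.sub_apply]; ring
  · simp only [PM.tl_nx, cf, dot, cr0, cr1, cr2, Pi.sub_apply]; ring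

omit [Fintype D] [DecidableEq V] in
lemma cf_slack (P : V → V3) (df : F → D) (f : F) :
    slack P (fun f => cf M P (df f)) (fun f => dot (cf M P (df f)) (P (M.tl (df f))))
      (M.hd (M.sg (df f))) f = fp M P (df f) := by
  simp only [slack, fp, det3, cf, dot, cr0, cr1, cr2, Pi.sub_apply]; ring

lemma cf_ori (h : Base M T a) {P : V → V3} {df : F → D} (hdf : ∀ f, M.lf (df f) = f)
    (pos : ∀ d, 0 < fp M P d) : Ori M P fun f => cf M P (df f) := fun d => by
  refine ⟨_, pos d, ?_⟩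
  beta_reduce
  rw [cf_eq h P (hdf (M.lf d)), cf_eq h P (e := M.rev d) (hdf (M.rf d)), cf, cf, nx_rev, PM.hd_rev,
    PM.tl_rev]
  refine v3_ext ?_ ?_ ?_ <;>
    simp only [fp, det3, cr0, cr1, cr2, Pi.sub_apply, Pi.smul_apply, smul_eq_mul] <;> ring

omit [Fintype D] [DecidableEq V] in
lemma cf_strict {P : V → V3} {n : F → V3} {c : F → ℝ} (st : Strict M P n c) {df : F → D}
    (hdf : ∀ f, M.lf (df f) = f) (pos : ∀ d, 0 < fp M P d) :
    Strict M P (fun f => cf M P (df f)) fun f => dot (cf M P (df f)) (P (M.tl (df f))) := by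
  refine st.of_slack fun x f => ?_
  have comm : ∀ x y : V3, dot x y = dot y x := fun x y => by simp only [dot]; ring
  have i0 : M.Inc (M.tl (df f)) f := by have := M.inc_tl_lf (df f); rwa [hdf] at this
  have i1 : M.Inc (M.hd (df f)) f := by have := M.inc_hd_lf (df f); rwa [hdf] at this
  have i2 : M.Inc (M.hd (M.nx (df f))) f := by
    have := M.inc_hd_lf (M.nx (df f)); rwa [PM.lf_nx, hdf] at this
  have i3 : ¬ M.Inc (M.hd (M.sg (df f))) f := by have := M.nd2 (df f); rwa [hdf] at this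
  have s3 := st.2 _ _ i3
  have n0 : n f ≠ 0 := fun e => by
    have := st.1.sub i0 (M.hd (M.sg (df f)))
    rw [e] at this
    simp only [dot, Pi.zero_apply] at this
    linarith
  have e := par_of_cross n0
    (cross_of_perp (comm _ _ ▸ st.1.perp i0 i1) (comm _ _ ▸ st.1.perp i0 i2))
  generalize dot (n f) _ / dot (n f) (n f) = t at e
  have k : ∀ y, slack P (fun f => cf M P (df f)) (fun f => dot (cf M P (df f)) (P (M.tl (df f)))) y f
      = t * slack P n c y f := fun y => by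
    have := st.1.sub i0 y
    rw [dot_sub] at this
    rw [slack, cf, e, smul_dot', smul_dot']
    linear_combination (-t) * this
  refine ⟨t, ?_, k x⟩
  have := pos (df f)
  rw [← cf_slack, k] at this
  exact (mul_pos_iff_of_pos_right s3).1 this

/-- rounding of a simplicial realisation with large four point determinants -/
theorem round [Fintype V] [Finite F] (h : Base M T a) {P : V → V3} {n : F → V3} {c : F → ℝ} (st : Strict M P n c)
    {H N δ : ℝ} (b : ∀ x k, 0 ≤ P x k ∧ P x k ≤ H) (N0 : 0 < N) (K1 : 1 ≤ N * H)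
    (hδ : ∀ d, δ ≤ fp M P d) (hN : 42 * (N * H) ^ 2 < N ^ 3 * δ) :
    ∃ (n' : F → V3) (c' : F → ℝ), Strict M (fun x k => (⌊N * P x k⌋ : ℝ)) n' c' := by
  choose df hdf using M.lf_surj
  set S : ℝ → V → V3 := fun s x k => N * P x k + s * (⌊N * P x k⌋ - N * P x k) with hS
  have d1 : ∀ x y k, |(P x - P y) k| ≤ H := fun x y k => by
    rw [Pi.sub_apply, abs_le]
    constructor <;> linarith [(b x k).1, (b x k).2, (b y k).1, (b y k).2]
  have d2 : ∀ s ∈ Set.Icc (0 : ℝ) 1, ∀ x y k, |(S s x - S s y) k - N * (P x - P y) k| ≤ 1 :=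
    fun s hs x y k => by
      have u : ∀ x, -1 ≤ s * (⌊N * P x k⌋ - N * P x k) ∧ s * (⌊N * P x k⌋ - N * P x k) ≤ 0 :=
        fun x => by
          have a1 := Int.floor_le (N * P x k)
          have a2 := Int.lt_floor_add_one (N * P x k)
          constructor <;> nlinarith [hs.1, hs.2]
      simp only [hS, Pi.sub_apply]
      rw [abs_le]
      constructor <;> linarith [(u x).1, (u x).2, (u y).1, (u y).2]
  have pos : ∀ s ∈ Set.Icc (0 : ℝ) 1, ∀ d, 0 < fp M (S s) d := fun s hs d => by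
    have a1 := det3_pert N0.le K1 (d1 (M.hd d) (M.tl d)) (d1 (M.hd (M.nx d)) (M.tl d))
      (d1 (M.hd (M.sg d)) (M.tl d)) (d2 s hs _ _) (d2 s hs _ _) (d2 s hs _ _)
    have a2 := mul_le_mul_of_nonneg_left (hδ d) (pow_pos N0 3).le
    simp only [fp] at a2 ⊢
    linarith
  have cS : ∀ x k, Continuous fun s => S s x k := fun x k => by simp only [hS]; fun_prop
  have cn : ∀ d k, Continuous fun s => cf M (S s) d k := fun d k => by
    fin_cases k <;> simp only [cf, cross, Pi.sub_apply] <;> simp <;> fun_prop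
  have st1 := homot h.con S (fun s f => cf M (S s) (df f))
    (fun s f => dot (cf M (S s) (df f)) (S s (M.tl (df f))))
    (continuous_pi fun x => continuous_pi fun k => cS x k).continuousOn
    (continuous_pi fun f => continuous_pi fun k => cn _ k).continuousOn
    (continuous_pi fun f => cont_dot (continuous_pi fun k => cn _ k)
      (continuous_pi fun k => cS _ k)).continuousOn
    (fun s _ => cf_zero h _ hdf) (fun s hs => cf_ori h hdf (pos s hs))
    (fun s hs _ f => ⟨_, by rw [cf_slack]; exact pos s hs _⟩)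
    (cf_strict (n := n) (c := fun f => N * c f) (st.of_slack fun x f => ⟨N, N0, by
      simp only [slack, hS, dot]; ring⟩) hdf (pos 0 (by simp)))
  have e : S 1 = fun x k => (⌊N * P x k⌋ : ℝ) := by ext x k; simp [hS]
  rw [e] at st1
  exact ⟨_, _, st1⟩

omit [Fintype D] [DecidableEq V] in
lemma fp_lift {r : V → V3} {z : V → ℝ} {Q : F → V3} {σ : ℝ} {d : D}
    (s1 : ∀ x, r x 0 + r x 1 + r x 2 = 1) (hz : ∀ x f, M.Inc x f → z x = dot (r x) (Q f))
    (q : Q (M.rf d) - Q (M.lf d) = σ • cross (r (M.tl d)) (r (M.hd d))) :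
    fp M (pA r z) d = ar M r d * σ * ar M r (M.rev d) := by
  have s2 : ∀ x, r x 2 = 1 - r x 0 - r x 1 := fun x => by linarith [s1 x]
  have z0 := hz _ _ (M.inc_tl_lf d)
  have z1 := hz _ _ (M.inc_hd_lf d)
  have z2 := hz _ _ (M.lf_nx d ▸ M.inc_hd_lf (M.nx d))
  have z3 := hz _ _ (M.lf_sg' d ▸ M.inc_hd_lf (M.sg d))
  rw [sub_eq_iff_eq_add.1 q] at z3
  simp [fp, ar, det3, pA, nx_rev, z0, z1, z2, z3, dot, cr0, cr1, cr2, s2]
  ring

variable [Fintype V] [Fintype F] [DecidableEq F] {p : V → V3} {n : F → V3} {cc : F → ℝ} {w : D → ℝ}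
  {κ : V → Fin 3}

theorem lift (st : Strict M p n cc) (_O : Ori M p n) (h : Base M T a) (hw : SP M w)
    (hκ : ∀ j, κ (M.tl (a j)) = j) {r : V → V3} (hr : Sol M w {x | M.Inc x T} κ r) {X : ℝ}
    (X2 : 2 ≤ X) (w1 : ∀ d, X⁻¹ ≤ w d ∧ w d ≤ X) (hF : (Fintype.card F : ℝ) ≤ X)
    (hA : ∀ d, M.lf d ≠ T → X⁻¹ ≤ ar M r d) :
    ∃ (p' : V → V3) (n' : F → V3) (c' : F → ℝ), Strict M p' n' c' ∧ ∀ x k, (∃ z : ℤ, p' x k = z) ∧
      0 ≤ p' x k ∧ p' x k ≤ X ^ 30 := by
  classical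
  obtain ⟨Q, z, q, s1, nn, hz, s, -⟩ := exQ st h hw hκ hr
  have hT := h.tri
  have X0 : 0 < X := by linarith
  have Xi : 0 < X⁻¹ := inv_pos.2 X0
  have Xi1 : X⁻¹ ≤ 1 := inv_le_one_of_one_le₀ (by linarith)
  have r1 : ∀ j k, r (M.tl (a j)) k = if k = j then 1 else 0 := fun j k => by
    rw [hr.1 _ (hT.inc j), hκ]
  have ne : ∀ j, M.rf (a j) ≠ T := fun j => hT.lf j ▸ M.rf_ne _
  have inn : ∀ d, M.lf d ≠ T → M.rf d ≠ T → wsp M M.tl (fun x => M.Inc x T) w r d = w d :=
    fun d e1 e2 => if_neg fun i => (h.ef d T i.1 i.2).elim (fun e => e1 e.symm) fun e => e2 e.symm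
  have arT : ∀ j, ar M r (a j) = -1 := fun j => by
    have e : M.nx (a j) = a (j + 1) := M.uniq _ _ (by rw [PM.tl_nx, hT.hd]) (by simp [hT.lf])
    rw [ar, e, hT.hd, hT.hd]
    fin_cases j <;> simp [det3, r1]
  have out : ∀ j, wsp M M.tl (fun x => M.Inc x T) w r (M.rev (a j)) ≤ - (X⁻¹ * X⁻¹) := fun j => by
    rw [wsp, if_pos ⟨by rw [PM.tl_rev, hT.hd]; exact hT.inc _, by rw [PM.rr]; exact hT.inc _⟩,
      neg_le_neg_iff]
    refine le_trans ?_ (single_le_sum (fun e _ => mul_nonneg (hw.1 e).le ?_)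
      (a := M.sg (a (j + 1))) ?_)
    · refine mul_le_mul (w1 _).1 ((hA (M.rev (a (j + 1))) (ne _)).trans_eq ?_) Xi.le (hw.1 _).le
      rw [ar, nx_rev, PM.hd_rev, PM.tl_rev, PM.tl_rev, hT.hd, PM.rr]
      fin_cases j <;> simp [det3, dot, r1]
    · exact add_nonneg (add_nonneg (mul_nonneg (nn _ _) (nn _ _)) (mul_nonneg (nn _ _) (nn _ _)))
        (mul_nonneg (nn _ _) (nn _ _))
    · refine mem_filter.2 ⟨mem_univ _, by simp [hT.hd], ?_⟩
      have := M.nd2 (a (j + 1))
      rwa [hT.lf] at this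
  set f0 := M.rf (a 0) with hf0
  set z' : V → ℝ := fun x => z x - dot (r x) (Q f0) with hz'
  have loc : ∀ x f, M.Inc x f → z' x = dot (r x) (Q f - Q f0) := fun x f i => by
    rw [dot_sub, ← z_loc s1 s i]
  have s' : Strict M (pA r z') (nA T fun f => Q f - Q f0) (cA T fun f => Q f - Q f0) :=
    s.of_slack fun x f => ⟨1, one_pos, by rw [slackA (s1 x), slackA (s1 x), dot_sub]; ring⟩
  have fpl : ∀ d σ, Q (M.rf d) - Q (M.lf d) = σ • cross (r (M.tl d)) (r (M.hd d)) →
      fp M (pA r z') d = ar M r d * σ * ar M r (M.rev d) := fun d σ e =>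
    fp_lift (Q := fun f => Q f - Q f0) s1 loc (by rw [← e]; abel)
  have X4 : X⁻¹ * X⁻¹ * (X⁻¹ * X⁻¹) ≤ X⁻¹ * (X⁻¹ * X⁻¹) :=
    mul_le_mul_of_nonneg_right (by nlinarith) (by positivity)
  have hδ : ∀ d, X⁻¹ * X⁻¹ * (X⁻¹ * X⁻¹) ≤ fp M (pA r z') d := fun d => by
    refine X4.trans ?_
    by_cases e1 : M.lf d = T
    · obtain ⟨j, rfl⟩ := out_dart hT e1
      have b := q (M.rev (a j))
      rw [fpl _ (wsp M M.tl (fun x => M.Inc x T) w r (M.rev (a j))) (by
        rw [← neg_sub, ← PM.lf_rev, ← PM.rf_rev M (a j), b, PM.tl_rev, PM.hd_rev]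
        refine v3_ext ?_ ?_ ?_ <;>
          simp only [cr0, cr1, cr2, Pi.neg_apply, Pi.smul_apply, smul_eq_mul] <;> ring), arT]
      have := mul_le_mul (hA (M.rev (a j)) (ne j)) (le_neg.1 (out j)) (by positivity)
        (Xi.le.trans (hA (M.rev (a j)) (ne j)))
      linarith
    by_cases e2 : M.rf d = T
    · obtain ⟨j, hj⟩ := out_dart hT (d := M.rev d) e2
      obtain rfl : d = M.rev (a j) := by rw [← hj, PM.rr]
      rw [fpl _ _ (q _), PM.rr, arT]
      have := mul_le_mul (hA _ e1) (le_neg.1 (out j)) (by positivity) (Xi.le.trans (hA _ e1))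
      linarith
    · rw [fpl _ _ (q d), inn d e1 e2, mul_assoc]
      exact mul_le_mul (hA d e1) (mul_le_mul (w1 d).1 (hA _ e2) Xi.le (hw.1 d).le) (by positivity)
        (Xi.le.trans (hA d e1))
  have dc := dual_con M (fun f => f = T) (fun _ => True)
    (fun C hC u hu _ w _ => h.con.all C (fun d => hC d trivial trivial) hu w)
    (fun d _ _ => by by_contra q; push Not at q; exact M.rf_ne d (q.2.trans q.1.symm))
    (fun d e _ t _ b _ b' => M.sg.injective (M.uniq _ _ (by simpa) (by simp [b, b'])))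
    (fun _ _ _ _ => trivial)
  have bd : ∀ x k, 0 ≤ pA r z' x k ∧ pA r z' x k ≤ X ^ 2 := fun x k => by
    have n0 := nn x 0; have n1 := nn x 1; have n2 := nn x 2; have n3 := s1 x
    fin_cases k
    · exact ⟨n0, show r x 0 ≤ _ by nlinarith⟩
    · exact ⟨n1, show r x 1 ≤ _ by nlinarith⟩
    refine ⟨?_, show z' x ≤ _ from ?_⟩
    · have := s.le x f0
      rw [slackA (s1 x), sA, if_neg (ne 0), one_mul] at this
      exact this
    · obtain ⟨f, fT, e⟩ := hz x
      have := osc (fun f => ¬ f = T) _ dc (fun f => dot (r x) (Q f)) X0.le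
        (fun f g f1 g1 ⟨d, d1, d2⟩ => by
          subst d1 d2
          have b := q d
          rw [inn d f1 g1, sub_eq_iff_eq_add'] at b
          have c := det3_le (nn x) (nn (M.tl d)) (nn (M.hd d)) (s1 _) (s1 _) (s1 _)
          have c' := mul_le_mul_of_nonneg_left c (hw.1 d).le
          have : dot (r x) (Q (M.rf d)) = dot (r x) (Q (M.lf d))
              + w d * dot (r x) (cross (r (M.tl d)) (r (M.hd d))) := by
            rw [b]; simp only [dot, Pi.add_apply, Pi.smul_apply, smul_eq_mul]; ring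
          linarith [(w1 d).2]) (ne 0) fT
      simp only [hz', e]
      nlinarith
  have X1 : 1 ≤ X := by linarith
  obtain ⟨n', c', S⟩ := round h s' bd (pow_pos X0 14)
    (one_le_mul_of_one_le_of_one_le (one_le_pow₀ X1) (one_le_pow₀ X1)) hδ (by
      have : (2 : ℝ) ^ 6 ≤ X ^ 6 := pow_le_pow_left₀ (by norm_num) X2 6
      calc 42 * (X ^ 14 * X ^ 2) ^ 2 = 42 * X ^ 32 := by ring
        _ < X ^ 6 * X ^ 32 := mul_lt_mul_of_pos_right (by linarith) (pow_pos X0 32)
        _ = _ := by field_simp)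
  refine ⟨_, n', c', S, fun x k => ⟨⟨_, rfl⟩, ?_, (Int.floor_le _).trans ?_⟩⟩
  · exact_mod_cast Int.floor_nonneg.2 (mul_nonneg (pow_pos X0 14).le (bd x k).1)
  · calc X ^ 14 * pA r z' x k ≤ X ^ 14 * X ^ 2 :=
          mul_le_mul_of_nonneg_left (bd x k).2 (pow_pos X0 14).le
      _ = X ^ 16 := by ring
      _ ≤ X ^ 30 := pow_le_pow_right₀ X1 (by norm_num)

end Pool.Agent.Lib.MP_d5dfc1_co.Sp
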