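import Pool.Agent.Lib.MP_d5dfc1_co.SpDef

/-! Contraction steps for the area of a face in a barycentric drawing. -/

namespace Pool.Agent.Lib.MP_d5dfc1_co.Sp

open Finset Ex

variable {V F D : Type} [Fintype D] [DecidableEq V] [Fintype V] {M : PM V F D} {T : F} {a : Fin 3 → D}

/-- weighted Laplacian -/
def lpl (M : PM V F D) (w : D → ℝ) (f : V → ℝ) (x : V) : ℝ :=
  ∑ d with M.tl d = x, w d * (f (M.hd d) - f x)

/-- Green's identity -/
lemma green {w : D → ℝ} (hw : SP M w) (f g : V → ℝ) :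
    2 * ∑ x, g x * lpl M w f x
      = - ∑ d, w d * ((f (M.hd d) - f (M.tl d)) * (g (M.hd d) - g (M.tl d))) := by
  have e1 : ∑ x, g x * lpl M w f x = ∑ d, g (M.tl d) * (w d * (f (M.hd d) - f (M.tl d))) := by
    rw [← sum_fiberwise _ M.tl]
    refine sum_congr rfl fun x _ => ?_
    rw [lpl, mul_sum]
    exact sum_congr rfl fun d hd => by rw [(mem_filter.1 hd).2]
  have e2 := M.sum_rev fun d => g (M.tl d) * (w d * (f (M.hd d) - f (M.tl d)))
  simp only [PM.tl_rev, PM.hd_rev, hw.2] at e2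
  rw [e1, two_mul]
  nth_rewrite 1 [← e2]
  rw [← sum_add_distrib, ← sum_neg_distrib]
  exact sum_congr rfl fun d _ => by ring

lemma lpl_ker (h : Base M T a) {w : D → ℝ} (hw : SP M w) {B : Set V} (hB : ∀ x, M.Inc x T → x ∈ B)
    {f : V → ℝ} (f0 : ∀ x ∈ B, f x = 0) (fl : ∀ x, x ∉ B → lpl M w f x = 0) : f = 0 := by
  have e := green hw f f
  rw [sum_eq_zero (fun x _ => by
    by_cases q : x ∈ B
    · rw [f0 x q, zero_mul]
    · rw [fl x q, mul_zero]), mul_zero, eq_comm, neg_eq_zero,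
    sum_eq_zero_iff_of_nonneg fun d _ => mul_nonneg (hw.1 d).le (mul_self_nonneg _)] at e
  ext x
  refine h.con.all {x | f x = 0} (fun d hd => ?_) (f0 _ (hB _ (h.tri.inc 0))) x
  have := (mul_eq_zero.1 (e d (mem_univ d))).resolve_left (hw.1 d).ne'
  have k : f (M.tl d) = 0 := hd
  rw [mul_self_eq_zero, k, sub_zero] at this
  exact this

lemma lpl_ex (h : Base M T a) {w : D → ℝ} (hw : SP M w) {B : Set V} (hB : ∀ x, M.Inc x T → x ∈ B)
    (b : V → ℝ) : ∃ f : V → ℝ, (∀ x ∈ B, f x = b x) ∧ ∀ x, x ∉ B → lpl M w f x = 0 := by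
  classical
  let Φ : (V → ℝ) →ₗ[ℝ] (V → ℝ) :=
    { toFun := fun f x => if x ∈ B then f x else lpl M w f x
      map_add' := fun f g => by
        ext x
        by_cases q : x ∈ B
        · simp [q]
        · simp only [q, if_false, Pi.add_apply, lpl, ← sum_add_distrib]
          exact sum_congr rfl fun d _ => by ring
      map_smul' := fun t f => by
        ext x
        by_cases q : x ∈ B
        · simp [q]
        · simp only [q, if_false, Pi.smul_apply, lpl, smul_eq_mul, RingHom.id_apply, mul_sum]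
          exact sum_congr rfl fun d _ => by ring }
  have inj : Function.Injective Φ := (injective_iff_map_eq_zero Φ).2 fun f hf =>
    lpl_ker h hw hB (fun x q => by simpa [Φ, q] using congrFun hf x)
      fun x q => by simpa [Φ, q] using congrFun hf x
  obtain ⟨f, hf⟩ := LinearMap.injective_iff_surjective.1 inj fun x => if x ∈ B then b x else 0
  exact ⟨f, fun x q => by simpa [Φ, q] using congrFun hf x,
    fun x q => by simpa [Φ, q] using congrFun hf x⟩

theorem sol_ex (h : Base M T a) {w : D → ℝ} (hw : SP M w) {B : Set V} (hB : ∀ x, M.Inc x T → x ∈ B)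
    (κ : V → Fin 3) : ∃ r, Sol M w B κ r := by
  choose f f1 f2 using fun k : Fin 3 => lpl_ex h hw hB fun x => if k = κ x then 1 else 0
  exact ⟨fun x k => f k x, fun x q k => f1 k x q, fun k x q => f2 k x q⟩

lemma lin_pos {p q : ℝ} (h : ∀ t, 0 < t → 0 ≤ t * p + q) : 0 ≤ p ∧ 0 ≤ q := by
  constructor
  · by_contra n
    push Not at n
    have := h ((|q| + 1) / -p) (div_pos (by positivity) (by linarith))
    rw [div_neg, neg_mul, div_mul_cancel₀ _ n.ne] at this
    linarith [le_abs_self q]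
  · by_contra n
    push Not at n
    have k : 0 < |p| + 1 := by positivity
    have := h (-q / (|p| + 1)) (div_pos (by linarith) k)
    rw [div_mul_eq_mul_div, div_add' _ _ _ k.ne', le_div_iff₀ k] at this
    nlinarith [le_abs_self p]

variable {w : D → ℝ} {d0 : D} {A0 c : ℝ} {B : Set V} {κ : V → Fin 3}

lemma core (h : Base M T a) (hw : SP M w) (hB : ∀ x, M.Inc x T → x ∈ B) {e : D}
    (e1 : M.tl e ∉ B) (e2 : M.hd e ∈ B) {r' : V → V3}
    (hr : Sol M w (insert (M.tl e) B) (Function.update κ (M.tl e) (κ (M.hd e))) r') (d0 : D) :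
    ∃ E C : ℝ, w e ≤ E ∧ (∀ ψ : V → ℝ, ψ (M.tl e) = 1 → (∀ x ∈ B, ψ x = 0) → E ≤ en M w ψ) ∧
      ∀ s, - w e < s → ∃ w' r, SP M w' ∧ (s = 0 → w' = w) ∧ Sol M w' B κ r ∧
        ar M r d0 = ar M r' d0 + C / (E + s) := by
  classical
  set z := M.tl e with hz
  obtain ⟨g, g1, g2⟩ := lpl_ex h hw (B := insert z B) (fun x q => Or.inr (hB x q))
    fun x => if x = z then 1 else 0
  have gz : g z = 1 := by rw [g1 z (Or.inl rfl), if_pos rfl]
  have nz : ∀ x ∈ B, x ≠ z := fun x q k => e1 (k ▸ q)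
  have gB : ∀ x ∈ B, g x = 0 := fun x q => by rw [g1 x (Or.inr q), if_neg (nz x q)]
  set E := - lpl M w g z with hE
  have bil : ∀ ψ : V → ℝ, ψ z = 1 → (∀ x ∈ B, ψ x = 0) →
      ∑ d, w d * ((g (M.hd d) - g (M.tl d)) * (ψ (M.hd d) - ψ (M.tl d))) = 2 * E := fun ψ p1 p0 => by
    have := green hw g ψ
    rw [sum_eq_single z (fun x _ ne => by
      by_cases q : x ∈ B
      · rw [p0 x q, zero_mul]
      · rw [g2 x (fun k => k.elim ne q), mul_zero]) (by simp), p1] at this
    linarith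
  have ner : M.rev e ≠ e := fun k => M.noloop e (by rw [k])
  have wE : w e ≤ E := by
    have k : ∑ d ∈ {e, M.rev e}, w d * ((g (M.hd d) - g (M.tl d)) * (g (M.hd d) - g (M.tl d)))
        ≤ 2 * E := by
      rw [← bil g gz gB]
      exact sum_le_sum_of_subset_of_nonneg (subset_univ _)
        fun d _ _ => mul_nonneg (hw.1 d).le (mul_self_nonneg _)
    rw [sum_pair ner.symm, PM.hd_rev, PM.tl_rev, hw.2, ← hz, gz, gB _ e2] at k
    linarith
  set b : V3 := fun k => lpl M w (fun x => r' x k) z with hb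
  refine ⟨E, g (M.hd d0) * det3 b (r' (M.tl d0)) (r' (M.hd (M.nx d0)))
    + g (M.tl d0) * det3 (r' (M.hd d0)) b (r' (M.hd (M.nx d0)))
    + g (M.hd (M.nx d0)) * det3 (r' (M.hd d0)) (r' (M.tl d0)) b, wE, fun ψ p1 p0 => ?_, fun s hs => ?_⟩
  · have k : 0 ≤ ∑ d, w d * ((ψ (M.hd d) - ψ (M.tl d)) - (g (M.hd d) - g (M.tl d))) ^ 2 :=
      sum_nonneg fun d _ => mul_nonneg (hw.1 d).le (sq_nonneg _)
    have k2 : ∑ d, w d * ((ψ (M.hd d) - ψ (M.tl d)) - (g (M.hd d) - g (M.tl d))) ^ 2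
        = ∑ d, w d * (ψ (M.hd d) - ψ (M.tl d)) ^ 2
          - 2 * ∑ d, w d * ((g (M.hd d) - g (M.tl d)) * (ψ (M.hd d) - ψ (M.tl d)))
          + ∑ d, w d * ((g (M.hd d) - g (M.tl d)) * (g (M.hd d) - g (M.tl d))) := by
      rw [mul_sum, ← sum_sub_distrib, ← sum_add_distrib]
      exact sum_congr rfl fun d _ => by ring
    rw [k2, bil ψ p1 p0, bil g gz gB] at k
    rw [en]
    linarith
  · have Es : 0 < E + s := by linarith
    set w' : D → ℝ := fun d => w d + if d = e ∨ d = M.rev e then s else 0 with hw'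
    have lw : ∀ (f : V → ℝ) x, x ∉ B →
        lpl M w' f x = lpl M w f x + if x = z then s * (f (M.hd e) - f z) else 0 := fun f x q => by
      simp only [lpl, hw', add_mul, sum_add_distrib]
      congr 1
      split_ifs with k
      · rw [sum_eq_single_of_mem e (by simp [k, hz]) fun d hd ne => by
          rw [if_neg, zero_mul]
          rintro (j | j)
          · exact ne j
          · exact q (by rw [← (mem_filter.1 hd).2, j]; exact e2), if_pos (Or.inl rfl), k]
      · refine sum_eq_zero fun d hd => ?_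
        rw [if_neg, zero_mul]
        rintro (j | j)
        · exact k (by rw [← (mem_filter.1 hd).2, j])
        · exact q (by rw [← (mem_filter.1 hd).2, j]; exact e2)
    have rB : ∀ x ∈ B, ∀ k, r' x k = if k = κ x then 1 else 0 := fun x q k => by
      rw [hr.1 x (Or.inr q), Function.update_of_ne (nz x q)]
    have rz : ∀ k, r' (M.hd e) k = r' z k := fun k => by
      rw [rB _ e2, hr.1 z (Or.inl rfl), Function.update_self]
    refine ⟨w', fun x k => r' x k + g x * (b k / (E + s)), ⟨fun d => ?_, fun d => ?_⟩,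
      fun s0 => by ext d; simp [hw', s0], ⟨fun x q k => by simp only [gB x q, rB x q, zero_mul, add_zero], fun k x q => ?_⟩, ?_⟩
    · simp only [hw']
      split_ifs with j
      · rcases j with j | j
        · rw [j]; linarith
        · rw [j, hw.2]; linarith
      · simpa using hw.1 d
    · simp only [hw', hw.2]
      congr 1
      refine if_congr ⟨?_, ?_⟩ rfl rfl
      · rintro (j | j)
        · exact Or.inr (by rw [← j, PM.rr])
        · exact Or.inl (by simpa using congrArg M.rev j)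
      · rintro (j | j)
        · exact Or.inr (by rw [j])
        · exact Or.inl (by rw [j, PM.rr])
    · have l1 : lpl M w (fun x => r' x k + g x * (b k / (E + s))) x
          = lpl M w (fun x => r' x k) x + lpl M w g x * (b k / (E + s)) := by
        simp only [lpl, sum_mul, ← sum_add_distrib]
        exact sum_congr rfl fun d _ => by ring
      refine (lw (fun x => r' x k + g x * (b k / (E + s))) x q).trans ?_
      rw [l1]
      split_ifs with j
      · have : lpl M w g z = - E := by rw [hE, neg_neg]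
        rw [j, this, rz, gz, gB _ e2]
        change b k + _ + _ = 0
        field_simp
        ring
      · have n : x ∉ insert z B := fun i => i.elim j q
        rw [g2 x n, zero_mul, add_zero, add_zero]
        exact hr.2 k x n
    · simp only [ar, det3]
      field_simp
      ring

omit [Fintype V] in
lemma Inv.mono (hw : SP M w) (I : Inv M T w d0 A0 B κ c) {c' : ℝ} (hc : c' ≤ c) :
    Inv M T w d0 A0 B κ c' :=
  ⟨I.root, I.pos, fun r hr => (mul_le_mul_of_nonneg_right hc (I.pos w hw r hr)).trans (I.cmp r hr)⟩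

theorem Inv.step (h : Base M T a) (hw : SP M w) (I : Inv M T w d0 A0 B κ c) (c0 : 0 ≤ c) {e : D}
    (e1 : M.tl e ∉ B) (e2 : M.hd e ∈ B) (ψ : V → ℝ) (ψ1 : ψ (M.tl e) = 1) (ψ0 : ∀ x ∈ B, ψ x = 0)
    {q : ℝ} (q0 : 0 < q) (hq : en M w ψ ≤ q * w e) :
    Inv M T w d0 A0 (insert (M.tl e) B) (Function.update κ (M.tl e) (κ (M.hd e))) (c / q) := by
  have key : ∀ {w : D → ℝ} {p E C : ℝ}, w e ≤ E →
      (∀ s, - w e < s → ∃ w' r, SP M w' ∧ (s = 0 → w' = w) ∧ Sol M w' B κ r ∧
        ar M r d0 = p + C / (E + s)) → 0 ≤ p ∧ 0 ≤ (E - w e) * p + C := fun {w p E C} wE k =>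
    lin_pos fun t t0 => by
      obtain ⟨w', r, s1, -, s2, s3⟩ := k (t - w e) (by linarith)
      have := I.pos w' s1 r s2
      have Es : 0 < E + (t - w e) := by linarith
      rw [s3, add_div' _ _ _ Es.ne', le_div_iff₀ Es] at this
      linarith
  refine ⟨fun x i => Or.inr (I.root x i), fun w' hw' r hr => ?_, fun r hr => ?_⟩
  · obtain ⟨E, C, wE, -, k⟩ := core h hw' I.root e1 e2 hr d0
    exact (key wE k).1
  · obtain ⟨E, C, wE, hE, k⟩ := core h hw I.root e1 e2 hr d0
    obtain ⟨p0, p1⟩ := key wE k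
    have we := hw.1 e
    obtain ⟨w', r0, -, s1, s2, s3⟩ := k 0 (by linarith)
    rw [s1 rfl] at s2
    have E0 : 0 < E := by linarith
    refine le_trans ?_ (I.cmp r0 s2)
    rw [div_mul_eq_mul_div, mul_div_assoc]
    refine mul_le_mul_of_nonneg_left ?_ c0
    rw [s3, add_zero, add_div' _ _ _ E0.ne', div_le_div_iff₀ q0 E0]
    have k1 := mul_le_mul_of_nonneg_left ((hE ψ ψ1 ψ0).trans hq) p0
    nlinarith [mul_nonneg p1 q0.le]

theorem Inv.fin (h : Base M T a) (hw : SP M w) (I : Inv M T w d0 A0 B κ c) (b1 : M.tl d0 ∈ B)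
    (b2 : M.hd d0 ∈ B) (b3 : M.hd (M.nx d0) ∈ B) (k1 : κ (M.tl d0) ≠ κ (M.hd d0))
    (k2 : κ (M.tl d0) ≠ κ (M.hd (M.nx d0))) (k3 : κ (M.hd d0) ≠ κ (M.hd (M.nx d0))) : c ≤ A0 := by
  obtain ⟨r, hr⟩ := sol_ex h hw I.root κ
  have p := I.pos w hw r hr
  have q := I.cmp r hr
  have e : ar M r d0 = 1 ∨ ar M r d0 = -1 := by
    simp only [ar, det3, hr.1 _ b1, hr.1 _ b2, hr.1 _ b3]
    generalize κ (M.tl d0) = i at *
    generalize κ (M.hd d0) = j at *
    generalize κ (M.hd (M.nx d0)) = l at *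
    clear * - k1 k2 k3
    fin_cases i <;> fin_cases j <;> fin_cases l <;> simp_all
  rcases e with e | e <;> rw [e] at p q <;> linarith

omit [Fintype V] in
open Classical in
/-- energy of the test function along a path -/
lemma en_path (hw : SP M w) (k : ℕ)
    (y : ℕ → V) (e : ℕ → D) (he : ∀ t < k, M.tl (e t) = y t ∧ M.hd (e t) = y (t + 1))
    (inj : ∀ s ≤ k, ∀ t ≤ k, y s = y t → s = t)
    (O : D → Prop) (hO : ∀ d, O d → M.tl d = y 0 ∧ ∀ t < k, M.hd d ≠ y t) {α β : ℝ} (α0 : 0 < α)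
    (hα : α * ∑ d with O d, w d ≤ 1)
    (hβ : ∑ d with (∃ t < k, M.tl d = y t) ∧ ¬ O d ∧ ∀ t < k, d ≠ e t ∧ d ≠ M.rev (e t), w d ≤ β)
    {t : ℕ} (tk : t < k) :
    ∃ ψ : V → ℝ, ψ (y t) = 1 ∧ (∀ x, (∀ s ≤ t, x ≠ y s) → ψ x = 0) ∧
      en M w ψ ≤ w (e t) + (α + ∑ j ∈ range t, (w (e j))⁻¹)⁻¹ + β := by
  set ρ : ℕ → ℝ := fun s => α + ∑ j ∈ range s, (w (e j))⁻¹ with hρ
  have ρ0 : ∀ s, 0 < ρ s := fun s =>
    add_pos_of_pos_of_nonneg α0 (sum_nonneg fun j _ => (inv_pos.2 (hw.1 _)).le)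
  have ρm : ∀ s ≤ t, ρ s ≤ ρ t := fun s hs => by
    simp only [hρ]
    gcongr
    exact fun j _ _ => (inv_pos.2 (hw.1 _)).le
  set ψ : V → ℝ := fun x => ∑ s ∈ range (t + 1), if x = y s then ρ s / ρ t else 0 with hψ
  have p0 : ∀ x, (∀ s ≤ t, x ≠ y s) → ψ x = 0 := fun x q =>
    sum_eq_zero fun s hs => if_neg (q s (by simpa [Nat.lt_succ_iff] using hs))
  have p1 : ∀ s ≤ t, ψ (y s) = ρ s / ρ t := fun s hs => by
    simp only [hψ]
    rw [sum_eq_single_of_mem s (by simpa [Nat.lt_succ_iff] using hs) fun j hj ne =>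
      if_neg fun q => ne (inj _ (by omega) _ (by have := mem_range.1 hj; omega) q).symm, if_pos rfl]
  have p2 : ∀ s, t < s → s ≤ k → ψ (y s) = 0 := fun s h1 h2 =>
    p0 _ fun j hj q => by have := inj _ h2 _ (by omega) q; omega
  have p3 : ∀ x, 0 ≤ ψ x ∧ ψ x ≤ 1 := fun x => by
    by_cases q : ∀ s ≤ t, x ≠ y s
    · rw [p0 x q]; norm_num
    · push Not at q
      obtain ⟨s, hs, rfl⟩ := q
      rw [p1 s hs]
      exact ⟨(div_pos (ρ0 _) (ρ0 _)).le, (div_le_one (ρ0 _)).2 (ρm s hs)⟩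
  refine ⟨ψ, by rw [p1 t le_rfl, div_self (ρ0 t).ne'], p0, ?_⟩
  set G : D → ℝ := fun d => (∑ s ∈ range k, if d = e s then (ψ (y (s + 1)) - ψ (y s)) ^ 2 else 0)
    + (if O d then (α / ρ t) ^ 2 else 0)
    + if (∃ t < k, M.tl d = y t) ∧ ¬ O d ∧ ∀ t < k, d ≠ e t ∧ d ≠ M.rev (e t) then 1 else 0 with hG
  have n1 : ∀ d, ∀ s ∈ range k, (0 : ℝ) ≤ if d = e s then (ψ (y (s + 1)) - ψ (y s)) ^ 2 else 0 :=
    fun d s _ => by split_ifs <;> positivity
  have n2 : ∀ d, (0 : ℝ) ≤ if O d then (α / ρ t) ^ 2 else 0 := fun d => by split_ifs <;> positivity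
  have n3 : ∀ d, (0 : ℝ) ≤ if (∃ t < k, M.tl d = y t) ∧ ¬ O d ∧ ∀ t < k, d ≠ e t ∧ d ≠ M.rev (e t)
      then 1 else 0 := fun d => by split_ifs <;> norm_num
  have G0 : ∀ d, 0 ≤ G d := fun d => add_nonneg (add_nonneg (sum_nonneg (n1 d)) (n2 d)) (n3 d)
  have Ge : ∀ s < k, (ψ (y (s + 1)) - ψ (y s)) ^ 2 ≤ G (e s) := fun s hs => by
    have := single_le_sum (n1 (e s)) (mem_range.2 hs)
    rw [if_pos rfl] at this
    linarith [n2 (e s), n3 (e s)]
  have cl : ∀ d, ψ (M.tl d) ≠ 0 → (ψ (M.hd d) - ψ (M.tl d)) ^ 2 ≤ G d + G (M.rev d) := fun d nd => by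
    by_cases c1 : ∀ t < k, d ≠ e t ∧ d ≠ M.rev (e t)
    · have : (ψ (M.hd d) - ψ (M.tl d)) ^ 2 ≤ G d := by
        by_cases c2 : O d
        · rw [(hO d c2).1, p1 0 (Nat.zero_le _), p0 _ fun s hs => (hO d c2).2 s (by omega)]
          have : ρ 0 = α := by simp [hρ]
          have k2 : (if O d then (α / ρ t) ^ 2 else 0) = (0 - ρ 0 / ρ t) ^ 2 := by
            rw [if_pos c2, this]; ring
          linarith [sum_nonneg (n1 d), n3 d]
        · have c3 : ∃ t < k, M.tl d = y t := by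
            by_contra n
            exact nd (p0 _ fun s hs q => n ⟨s, by omega, q⟩)
          have k2 : (if (∃ t < k, M.tl d = y t) ∧ ¬ O d ∧ ∀ t < k, d ≠ e t ∧ d ≠ M.rev (e t)
              then (1 : ℝ) else 0) = 1 := if_pos ⟨c3, c2, c1⟩
          have k3 : (ψ (M.hd d) - ψ (M.tl d)) ^ 2 ≤ 1 := by
            nlinarith [p3 (M.hd d), p3 (M.tl d)]
          linarith [sum_nonneg (n1 d), n2 d]
      linarith [G0 (M.rev d)]
    · push Not at c1
      obtain ⟨s, hs, q⟩ := c1
      by_cases j : d = e s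
      · rw [j, (he s hs).1, (he s hs).2]
        linarith [Ge s hs, G0 (M.rev (e s))]
      · rw [q j, PM.hd_rev, PM.tl_rev, PM.rr, (he s hs).1, (he s hs).2]
        nlinarith [Ge s hs, G0 (M.rev (e s))]
  have cl2 : ∀ d, (ψ (M.hd d) - ψ (M.tl d)) ^ 2 ≤ G d + G (M.rev d) := fun d => by
    by_cases c1 : ψ (M.tl d) = 0
    · by_cases c2 : ψ (M.hd d) = 0
      · rw [c1, c2]; linarith [G0 d, G0 (M.rev d)]
      · have := cl (M.rev d) c2
        rw [PM.hd_rev, PM.tl_rev, PM.rr] at this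
        nlinarith
    · exact cl d c1
  have s1 : en M w ψ ≤ ∑ d, w d * G d := by
    have r := M.sum_rev fun d => w d * G d
    simp only [hw.2] at r
    have := sum_le_sum (s := univ) fun d _ => mul_le_mul_of_nonneg_left (cl2 d) (hw.1 d).le
    simp only [mul_add, sum_add_distrib] at this
    rw [en]
    linarith
  have s2 : ∑ d, w d * ∑ s ∈ range k, (if d = e s then (ψ (y (s + 1)) - ψ (y s)) ^ 2 else 0)
      = w (e t) + (ρ t - α) / ρ t ^ 2 := by
    simp only [mul_sum, mul_ite, mul_zero]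
    rw [sum_comm]
    simp only [sum_ite_eq', mem_univ, if_true]
    rw [← sum_subset (s₁ := range (t + 1)) (range_subset_range.2 tk) fun s h1 h2 => by
      have a := mem_range.1 h1
      have b : ¬ s < t + 1 := fun q => h2 (mem_range.2 q)
      rw [p2 s (by omega) (by omega), p2 (s + 1) (by omega) (by omega)]; simp,
      sum_range_succ, p2 (t + 1) (by omega) (by omega), p1 t le_rfl, div_self (ρ0 t).ne', add_comm]
    have : ρ t - α = ∑ j ∈ range t, (w (e j))⁻¹ := by simp [hρ]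
    rw [this, sum_div]
    congr 1
    · ring
    · refine sum_congr rfl fun s hs => ?_
      have a := mem_range.1 hs
      have b : ρ (s + 1) = ρ s + (w (e s))⁻¹ := by simp only [hρ, sum_range_succ, add_assoc]
      rw [p1 s (by omega), p1 (s + 1) (by omega), b]
      have := (hw.1 (e s)).ne'
      have := (ρ0 t).ne'
      field_simp
      ring
  have s3 : ∑ d, w d * (if O d then (α / ρ t) ^ 2 else 0) ≤ α / ρ t ^ 2 := by
    simp only [mul_ite, mul_zero]
    rw [← sum_filter, ← sum_mul]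
    calc _ = (α * ∑ d with O d, w d) * (α / ρ t ^ 2) := by ring
      _ ≤ 1 * (α / ρ t ^ 2) := mul_le_mul_of_nonneg_right hα (by have := ρ0 t; positivity)
      _ = _ := one_mul _
  have s4 : ∑ d, w d * (if (∃ t < k, M.tl d = y t) ∧ ¬ O d ∧ ∀ t < k, d ≠ e t ∧ d ≠ M.rev (e t)
      then (1 : ℝ) else 0) ≤ β := by
    simp only [mul_ite, mul_zero, mul_one]
    rw [← sum_filter]
    exact hβ
  have s5 : (ρ t - α) / ρ t ^ 2 + α / ρ t ^ 2 = (ρ t)⁻¹ := by
    have := (ρ0 t).ne'
    field_simp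
    ring
  simp only [hG, mul_add, sum_add_distrib] at s1
  change _ ≤ w (e t) + (ρ t)⁻¹ + β
  linarith

open Classical in
theorem Inv.piece (h : Base M T a) (hw : SP M w) (I : Inv M T w d0 A0 B κ c) (c0 : 0 ≤ c) (k : ℕ)
    (y : ℕ → V) (e : ℕ → D) (he : ∀ t < k, M.tl (e t) = y t ∧ M.hd (e t) = y (t + 1))
    (inj : ∀ s ≤ k, ∀ t ≤ k, y s = y t → s = t) (yk : y k ∈ B) (yn : ∀ t < k, y t ∉ B)
    (O : D → Prop) (hO : ∀ d, O d → M.tl d = y 0 ∧ ∀ t < k, M.hd d ≠ y t) {α β R : ℝ} (α0 : 0 < α)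
    (hα : α * ∑ d with O d, w d ≤ 1)
    (hβ : ∑ d with (∃ t < k, M.tl d = y t) ∧ ¬ O d ∧ ∀ t < k, d ≠ e t ∧ d ≠ M.rev (e t), w d ≤ β)
    (hR : ∑ t ∈ range k, (w (e t))⁻¹ ≤ R) :
    ∃ κ', (∀ x ∈ B, κ' x = κ x) ∧ κ' (y 0) = κ (y k) ∧
      Inv M T w d0 A0 (B ∪ {x | ∃ t < k, x = y t}) κ' (c * (α / (α + R)) * Real.exp (- (β * R))) := by
  set ρ : ℕ → ℝ := fun s => α + ∑ j ∈ range s, (w (e j))⁻¹ with hρ
  have ρ0 : ∀ s, 0 < ρ s := fun s =>
    add_pos_of_pos_of_nonneg α0 (sum_nonneg fun j _ => (inv_pos.2 (hw.1 _)).le)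
  have β0 : 0 ≤ β := (sum_nonneg fun d _ => (hw.1 d).le).trans hβ
  have main : ∀ m t, t + m = k → ∃ κ', (∀ x ∈ B, κ' x = κ x) ∧ κ' (y t) = κ (y k) ∧
      Inv M T w d0 A0 (B ∪ {x | ∃ s, t ≤ s ∧ s < k ∧ x = y s}) κ'
        (c * (ρ t / ρ k) * Real.exp (- (β * (ρ k - ρ t)))) := by
    intro m
    induction m with
    | zero =>
      rintro t rfl
      refine ⟨κ, fun _ _ => rfl, rfl, ?_⟩
      have : B ∪ {x | ∃ s, t ≤ s ∧ s < t + 0 ∧ x = y s} = B :=
        Set.union_eq_left.2 fun x ⟨s, a, b, _⟩ => by omega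
      rw [this]
      simpa [div_self (ρ0 t).ne'] using I
    | succ m ih =>
      intro t ht
      have tk : t < k := by omega
      obtain ⟨κ', k1, k2, J⟩ := ih (t + 1) (by omega)
      obtain ⟨ψ, p1, p0, hE⟩ := en_path hw k y e he inj O hO α0 hα hβ tk
      have nB : ∀ s ≤ t, y s ∉ B ∪ {x | ∃ s, t + 1 ≤ s ∧ s < k ∧ x = y s} := fun s hs q => by
        rcases q with q | ⟨j, a, b, q⟩
        · exact yn s (by omega) q
        · have := inj _ (by omega) _ (by omega) q; omega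
      have b : ρ (t + 1) = ρ t + (w (e t))⁻¹ := by simp only [hρ, sum_range_succ, add_assoc]
      have we := hw.1 (e t)
      have rt := ρ0 t
      have rk := ρ0 k
      have rt1 := ρ0 (t + 1)
      have K := J.step h hw (by positivity) (e := e t) (by rw [(he t tk).1]; exact nB t le_rfl)
        (by
          rw [(he t tk).2]
          rcases Nat.lt_or_ge (t + 1) k with q | q
          · exact Or.inr ⟨t + 1, le_rfl, q, rfl⟩
          · exact Or.inl ((show t + 1 = k by omega) ▸ yk))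
        ψ (by rw [(he t tk).1, p1]) (fun x q => p0 x fun s hs j => nB s hs (j ▸ q))
        (q := ρ (t + 1) / ρ t * Real.exp (β * (w (e t))⁻¹)) (by positivity) (hE.trans (by
          have x1 := Real.add_one_le_exp (β * (w (e t))⁻¹)
          change w (e t) + (ρ t)⁻¹ + β ≤ _
          calc _ ≤ ρ (t + 1) / ρ t * (β * (w (e t))⁻¹ + 1) * w (e t) := by
                rw [b]
                have : (ρ t + (w (e t))⁻¹) / ρ t * (β * (w (e t))⁻¹ + 1) * w (e t)
                    = w (e t) + (ρ t)⁻¹ + β + β * ((w (e t))⁻¹ * (ρ t)⁻¹) := by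
                  field_simp
                  ring
                rw [this]
                exact le_add_of_nonneg_right (by positivity)
            _ ≤ _ := by gcongr))
      rw [(he t tk).1, (he t tk).2] at K
      refine ⟨Function.update κ' (y t) (κ' (y (t + 1))), fun x q => ?_, by rw [Function.update_self, k2], ?_⟩
      · rw [Function.update_of_ne (fun j : x = y t => yn t tk (j ▸ q)), k1 x q]
      · have e1 : B ∪ {x | ∃ s, t ≤ s ∧ s < k ∧ x = y s}
            = insert (y t) (B ∪ {x | ∃ s, t + 1 ≤ s ∧ s < k ∧ x = y s}) := by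
          ext x
          constructor
          · rintro (q | ⟨s, a1, a2, q⟩)
            · exact Or.inr (Or.inl q)
            · rcases a1.eq_or_lt with j | j
              · exact Or.inl (j ▸ q)
              · exact Or.inr (Or.inr ⟨s, j, a2, q⟩)
          · rintro (q | q | ⟨s, a1, a2, q⟩)
            · exact Or.inr ⟨t, le_rfl, tk, q⟩
            · exact Or.inl q
            · exact Or.inr ⟨s, by omega, a2, q⟩
        have e2 : c * (ρ t / ρ k) * Real.exp (- (β * (ρ k - ρ t)))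
            = c * (ρ (t + 1) / ρ k) * Real.exp (- (β * (ρ k - ρ (t + 1))))
              / (ρ (t + 1) / ρ t * Real.exp (β * (w (e t))⁻¹)) := by
          have : Real.exp (- (β * (ρ k - ρ (t + 1))))
              = Real.exp (- (β * (ρ k - ρ t))) * Real.exp (β * (w (e t))⁻¹) := by
            rw [← Real.exp_add, b]; congr 1; ring
          rw [this]
          field_simp
        rw [e1, e2]
        exact K
  obtain ⟨κ', k1, k2, J⟩ := main k 0 (by omega)
  refine ⟨κ', k1, k2, ?_⟩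
  have e1 : B ∪ {x | ∃ t < k, x = y t} = B ∪ {x | ∃ s, 0 ≤ s ∧ s < k ∧ x = y s} := by simp
  rw [e1]
  refine J.mono hw ?_
  have r0 : ρ 0 = α := by simp [hρ]
  have rk := ρ0 k
  have rR : ρ k ≤ α + R := by simp only [hρ]; linarith
  rw [r0]
  gcongr
  linarith

end Pool.Agent.Lib.MP_d5dfc1_co.Sp
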