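import Pool.Agent.Lib.MP_d5dfc1_co.SpReg
import Pool.Agent.Lib.MP_d5dfc1_co.SpStep

/-! The weights and the three token paths. -/

namespace Pool.Agent.Lib.MP_d5dfc1_co.Sp

open Finset Ex

variable {V F D : Type} {M : PM V F D} {T : F} {a : Fin 3 → D} {S : Sch M T a} {χ : V → F → Fin 3}

lemma inj_of_lt {y : ℕ → V} {g : V → ℝ} {k : ℕ} (h : ∀ t < k, g (y t) < g (y (t + 1))) :
    ∀ s ≤ k, ∀ t ≤ k, y s = y t → s = t := by
  have key : ∀ s t, s < t → t ≤ k → g (y s) < g (y t) := fun s t st tk => by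
    induction t, st using Nat.le_induction with
    | base => exact h s tk
    | succ t _ ih => exact (ih (Nat.le_of_succ_le tk)).trans (h t tk)
  intro s hs t ht e
  rcases lt_trichotomy s t with q | q | q
  exacts [absurd (key s t q ht) (by simp [e]), q, absurd (key t s q hs) (by simp [e])]

lemma fac {n : ℕ} {J : ℝ} (J0 : 0 < J) : (1 / 2 ^ 11 : ℝ) ^ (n + 1)
    ≤ J / (3 * 32 ^ n) / (J / (3 * 32 ^ n) + 4 * J) * Real.exp (- (1 / J * (4 * J))) := by
  have p : (1 : ℝ) ≤ 32 ^ n := one_le_pow₀ (by norm_num)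
  have e1 : J / (3 * 32 ^ n) / (J / (3 * 32 ^ n) + 4 * J) = 1 / (1 + 12 * 32 ^ n) := by
    field_simp; ring
  have e2 : 1 / J * (4 * J) = 4 := by field_simp
  have e3 : (1 / 81 : ℝ) ≤ Real.exp (-4) := by
    rw [Real.exp_neg, one_div, show (4 : ℝ) = (4 : ℕ) * 1 by norm_num, Real.exp_nat_mul]
    refine inv_anti₀ (by positivity) ((pow_le_pow_left₀ (by positivity)
      Real.exp_one_lt_three.le 4).trans (by norm_num))
  have e4 : (1 / 2 ^ 11 : ℝ) ^ n ≤ 1 / 32 ^ n :=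
    (pow_le_pow_left₀ (by positivity) (by norm_num) n).trans_eq (one_div_pow 32 n)
  have e5 : (1 : ℝ) / (13 * 32 ^ n) ≤ 1 / (1 + 12 * 32 ^ n) :=
    one_div_le_one_div_of_le (by positivity) (by linarith)
  rw [e1, e2, pow_succ]
  calc _ ≤ 1 / 32 ^ n * (1 / 13 * (1 / 81) : ℝ) := mul_le_mul e4 (by norm_num) (by positivity) (by positivity)
    _ = 1 / (13 * 32 ^ n) * (1 / 81) := by field_simp
    _ ≤ _ := mul_le_mul e5 e3 (by positivity) (by positivity)

/-- the weight of a dart -/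
noncomputable def wt (M : PM V F D) (lev : D → ℕ) (Λ : V → ℕ) (d : D) : ℝ :=
  32 ^ (min (Λ (M.tl d)) (Λ (M.hd d)) - lev d) / 32 ^ lev d

variable [Fintype D] [DecidableEq V] [Fintype V] {lev : D → ℕ} {l : V → ℕ} {cen : V → Prop}
  {un : V → Set F} {N : ℕ} {Λ : V → ℕ}

omit [Fintype V] [DecidableEq V] in
lemma Hier.sp (H : Hier S lev l cen un N) (Λ : V → ℕ) : SP M (wt M lev Λ) :=
  ⟨fun d => by unfold wt; positivity, fun d => by simp [wt, H.sym, min_comm]⟩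

omit [Fintype V] [DecidableEq V] in
/-- a vertex that is not a centre has exactly two darts of its level -/
lemma Hier.two (H : Hier S lev l cen un N) {x : V} (hx : ¬ M.Inc x T) (nc : ¬ cen x) {b e d : D}
    (hb : M.tl b = x ∧ lev b = l x) (he : M.tl e = x ∧ lev e = l x) (ne : b ≠ e)
    (hd : M.tl d = x ∧ lev d = l x) : d = b ∨ d = e := by
  obtain ⟨i, y, -, -, -, -, q⟩ := H.h1n x hx nc
  rcases q b hb.1 hb.2 with e1 | e1 <;> rcases q e he.1 he.2 with e2 | e2 <;>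
    rcases q d hd.1 hd.2 with e3 | e3 <;> simp_all

lemma Hier.walk (h : Base M T a) (H : Hier S lev l cen un N)
    (L1 : ∀ d, l (M.tl d) < lev d → Λ (M.tl d) ≤ lev d)
    (L2 : ∀ x, ¬ M.Inc x T → ¬ cen x → ∃ d, M.tl d = x ∧ l x < lev d ∧ lev d = Λ x)
    {j : ℕ} (nd : V → D) (Q : V → Prop) (g : V → ℝ)
    (q1 : ∀ y, Q y → ¬ M.Inc y T ∧ M.tl (nd y) = y ∧ lev (nd y) = j ∧ l y = j ∧
      g y < g (M.hd (nd y)))
    (q2 : ∀ y, Q y → l (M.hd (nd y)) = j → ¬ cen (M.hd (nd y)) → Q (M.hd (nd y))) {x : V}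
    (hx : Q x) : ∃ y, Q y ∧ (l (M.hd (nd y)) < j ∨ (l (M.hd (nd y)) = j ∧ cen (M.hd (nd y)))) ∧
      ∀ {d0 A0 B κ c}, Inv M T (wt M lev Λ) d0 A0 B κ c → 0 ≤ c → M.hd (nd y) ∈ B →
        (∀ z, Q z → z ∉ B) → ∃ B' κ', (∀ z ∈ B, z ∈ B' ∧ κ' z = κ z) ∧ x ∈ B' ∧
          κ' x = κ (M.hd (nd y)) ∧ (∀ z ∈ B', z ∈ B ∨ Q z) ∧
          Inv M T (wt M lev Λ) d0 A0 B' κ' (c * (1 / 2 ^ 11) ^ (Λ x - j + 1)) := by
  classical
  set y : ℕ → V := fun t => (fun z => M.hd (nd z))^[t] x with hy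
  have ys : ∀ t, y (t + 1) = M.hd (nd (y t)) := fun t => Function.iterate_succ_apply' _ _ _
  have qs : ∀ k, (∀ t < k, l (y (t + 1)) = j ∧ ¬ cen (y (t + 1))) → Q (y k) := fun k q => by
    induction k with
    | zero => exact hx
    | succ k ih =>
      have := q k k.lt_succ_self
      rw [ys] at this ⊢
      exact q2 _ (ih fun t ht => q t (ht.trans k.lt_succ_self)) this.1 this.2
  have ex : ∃ k, ¬ (l (y (k + 1)) = j ∧ ¬ cen (y (k + 1))) := by
    by_contra n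
    refine not_injective_infinite_finite y fun s t e => inj_of_lt (g := g) (k := s + t)
      (fun r _ => ?_) s (by omega) t (by omega) e
    rw [ys]; exact (q1 _ (qs r fun t _ => not_not.1 fun z => n ⟨t, z⟩)).2.2.2.2
  set k := Nat.find ex with hk
  have mid : ∀ t < k, l (y (t + 1)) = j ∧ ¬ cen (y (t + 1)) := fun t ht => not_not.1 (Nat.find_min ex ht)
  have Qt : ∀ t < k + 1, Q (y t) := fun t ht => qs t fun s hs => mid s (by omega)
  have inj := inj_of_lt (g := g) (y := y) (k := k + 1) fun t ht => by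
    rw [ys]; exact (q1 _ (Qt t ht)).2.2.2.2
  have tl : ∀ t < k + 1, M.tl (nd (y t)) = y t := fun t ht => (q1 _ (Qt t ht)).2.1
  have lv : ∀ t < k + 1, lev (nd (y t)) = j := fun t ht => (q1 _ (Qt t ht)).2.2.1
  have ll : ∀ t < k + 1, l (y t) = j := fun t ht => (q1 _ (Qt t ht)).2.2.2.1
  have inn : ∀ t < k + 1, ¬ M.Inc (y t) T := fun t ht => (q1 _ (Qt t ht)).1
  have lx : l x = j := ll 0 k.succ_pos
  refine ⟨y k, Qt k k.lt_succ_self, ?_, fun {d0 A0 B κ c} I c0 b1 b2 => ?_⟩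
  · have := H.l_le (M.rev (nd (y k)))
    rw [H.sym, lv k k.lt_succ_self, PM.tl_rev] at this
    have z := Nat.find_spec ex
    rw [← hk, ys] at z
    rcases this.eq_or_lt with e | e
    exacts [Or.inr ⟨e, not_not.1 fun n => z ⟨e, n⟩⟩, Or.inl e]
  have uq : ∀ t < k + 1, un (y t) = un x := fun t ht => by
    induction t with
    | zero => rfl
    | succ t ih =>
      have t1 : t < k + 1 := by omega
      rw [← ih t1, ys, ← H.un_eq (nd (y t)) (by rw [tl t t1]; exact inn t t1)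
        (by rw [tl t t1, ll t t1, lv t t1]) (by rw [← ys, ll _ ht, lv t t1]), tl t t1]
  have two : ∀ t < k, ∀ d, M.tl d = y (t + 1) → lev d = j →
      d = nd (y (t + 1)) ∨ d = M.rev (nd (y t)) := fun t ht d d1 d2 => by
    have t1 : t + 1 < k + 1 := by omega
    refine H.two (inn _ t1) (mid t ht).2 ⟨tl _ t1, by rw [lv _ t1, ll _ t1]⟩
      ⟨(ys t).symm, by rw [H.sym, lv t (by omega), ll _ t1]⟩ (fun e => ?_) ⟨d1, by rw [d2, ll _ t1]⟩
    have := congrArg M.hd e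
    rw [← ys, PM.hd_rev, tl t (by omega)] at this
    have := inj _ (by omega) _ (by omega) this
    omega
  have cnt := H.cnt x (inn 0 k.succ_pos)
  rw [lx] at cnt
  have J0 : (0 : ℝ) < 32 ^ j := by positivity
  obtain ⟨κ', k1, k2, k3⟩ := I.piece h (H.sp Λ) c0 (k + 1) y (fun t => nd (y t))
    (fun t ht => ⟨tl t ht, (ys t).symm⟩) inj (ys k ▸ b1) (fun t ht => b2 _ (Qt t ht))
    (fun d => M.tl d = x ∧ lev d = j ∧ ∀ t < k + 1, M.hd d ≠ y t) (fun d q => ⟨q.1, q.2.2⟩)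
    (α := 32 ^ j / (3 * 32 ^ (Λ x - j))) (β := 1 / 32 ^ j) (R := 4 * 32 ^ j) (by positivity)
    (by
      have c3 : #{d | M.tl d = x ∧ lev d = j ∧ ∀ t < k + 1, M.hd d ≠ y t} ≤ 3 := by
        by_cases q : cen x
        · refine (card_le_card (t := univ.image fun i => S.o i x) fun d hd => ?_).trans
            (card_image_le.trans (by simp))
          obtain ⟨-, d1, d2, -⟩ := mem_filter.1 hd
          obtain ⟨i, e⟩ := (H.h1c x q).2 d d1 (d2.trans lx.symm)
          exact mem_image.2 ⟨i, mem_univ _, e.symm⟩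
        · obtain ⟨i, z, -, -, -, -, q⟩ := H.h1n x (inn 0 k.succ_pos) q
          refine (card_le_card (t := {S.o i x, M.rev (S.o i z)}) fun d hd => ?_).trans
            (card_le_two.trans (by norm_num))
          obtain ⟨-, d1, d2, -⟩ := mem_filter.1 hd
          simpa using q d d1 (d2.trans lx.symm)
      have := sum_le_card_nsmul {d | M.tl d = x ∧ lev d = j ∧ ∀ t < k + 1, M.hd d ≠ y t}
        (wt M lev Λ) (32 ^ (Λ x - j) / 32 ^ j) fun d hd => by
          obtain ⟨-, d1, d2, -⟩ := mem_filter.1 hd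
          rw [wt, d1, d2]
          exact div_le_div_of_nonneg_right (pow_le_pow_right₀ (by norm_num) (by omega)) J0.le
      rw [nsmul_eq_mul] at this
      have c3' : (#{d | M.tl d = x ∧ lev d = j ∧ ∀ t < k + 1, M.hd d ≠ y t} : ℝ) ≤ 3 := by
        exact_mod_cast c3
      refine (mul_le_mul_of_nonneg_left (le_trans (by convert this) (mul_le_mul_of_nonneg_right c3'
        (by positivity))) (by positivity)).trans_eq ?_
      field_simp)
    (by
      refine le_trans ?_ (div_le_div_of_nonneg_right cnt J0.le)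
      rw [sum_div]
      refine (sum_le_sum_of_subset_of_nonneg (fun d hd => ?_) fun d _ _ => (H.sp Λ).1 d |>.le).trans
        (sum_le_sum fun d hd => ?_)
      · simp only [mem_filter, mem_univ, true_and] at hd
        obtain ⟨⟨t, ht, d1⟩, d2, d3⟩ := hd
        refine mem_filter.2 ⟨mem_univ _, d1 ▸ uq t ht, d1 ▸ ll t ht,
          lt_of_le_of_ne (by rw [← ll t ht, ← d1]; exact H.l_le d) fun e => ?_⟩
        rcases t with _ | t
        · obtain ⟨s, hs, q⟩ : ∃ s < k + 1, M.hd d = y s := by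
            by_contra n
            exact d2 ⟨d1, e.symm, fun s hs q => n ⟨s, hs, q⟩⟩
          rcases s with _ | s
          · exact M.hd_ne d (q.trans d1.symm)
          rcases two s (by omega) (M.rev d) q (by rw [H.sym, e]) with z | z
          · exact (d3 _ hs).2 (by rw [← z, PM.rr])
          · exact (d3 s (by omega)).1 (M.revP.injective z)
        · rcases two t (by omega) d d1 e.symm with z | z
          exacts [(d3 _ ht).1 z, (d3 t (by omega)).2 z]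
      · obtain ⟨-, -, d1, d2⟩ := mem_filter.1 hd
        have := L1 d (d1 ▸ d2)
        obtain ⟨m, hm⟩ := Nat.exists_eq_add_of_le d2.le
        rw [wt, show min (Λ (M.tl d)) (Λ (M.hd d)) - lev d = 0 by omega, hm, Nat.add_sub_cancel_left,
          pow_add, one_div_pow]
        field_simp
        rfl)
    (by
      set u : ℕ → ℝ := fun t => (1 / 32) ^ (Λ (y t) - j) with hu
      have u1 : ∀ t, u t ≤ 1 := fun t => pow_le_one₀ (by norm_num) (by norm_num)
      have u0 : ∀ t, 0 ≤ u t := fun t => by positivity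
      have s1 : ∑ t ∈ range k, u (t + 1) ≤ 1 := by
        have : Nonempty D := ⟨nd x⟩
        choose! nw n1 n2 n3 using L2
        have m1 : ∀ t < k, M.tl (nw (y (t + 1))) = y (t + 1) := fun t ht =>
          n1 _ (inn _ (by omega)) (mid t ht).2
        refine le_trans ?_ cnt
        refine ((sum_congr rfl fun t ht => ?_).trans (sum_image (f := fun d => (1 / 32 : ℝ) ^ (lev d - j))
          (g := fun t => nw (y (t + 1))) fun s hs t ht e => ?_).symm).trans_le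
          (sum_le_sum_of_subset_of_nonneg (fun d hd => ?_) fun d _ _ => by positivity)
        · have ht := mem_range.1 ht
          rw [n3 _ (inn (t + 1) (by omega)) (mid t ht).2]
        · have hs := mem_range.1 hs
          have ht := mem_range.1 ht
          have := congrArg M.tl e
          simp only [m1 s hs, m1 t ht] at this
          have := inj _ (by omega) _ (by omega) this
          omega
        · obtain ⟨t, ht, rfl⟩ := mem_image.1 hd
          have ht := mem_range.1 ht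
          have := n2 _ (inn (t + 1) (by omega)) (mid t ht).2
          rw [(mid t ht).1] at this
          exact mem_filter.2 ⟨mem_univ _, by rw [m1 t ht, uq _ (by omega)],
            by rw [m1 t ht, (mid t ht).1], this⟩
      refine (sum_le_sum (g := fun t => (u t + u (t + 1)) * 32 ^ j) fun t ht => ?_).trans ?_
      · have ht := mem_range.1 ht
        rw [wt, inv_div, tl t ht, lv t ht, ← ys, div_eq_mul_one_div, mul_comm, ← one_div_pow]
        refine mul_le_mul_of_nonneg_right ?_ J0.le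
        rcases le_total (Λ (y t)) (Λ (y (t + 1))) with q | q
        · rw [min_eq_left q]; exact le_add_of_nonneg_right (u0 _)
        · rw [min_eq_right q]; exact le_add_of_nonneg_left (u0 _)
      · rw [← sum_mul, sum_add_distrib, sum_range_succ', sum_range_succ]
        exact mul_le_mul_of_nonneg_right (by linarith [u1 0, u1 (k + 1)]) J0.le)
  refine ⟨_, κ', fun z hz => ⟨Or.inl hz, k1 z hz⟩, Or.inr ⟨0, k.succ_pos, rfl⟩, ys k ▸ k2, ?_,
    k3.mono (H.sp Λ) ?_⟩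
  · rintro z (q | ⟨t, ht, rfl⟩)
    exacts [Or.inl q, Or.inr (Qt t ht)]
  · rw [mul_assoc]; exact mul_le_mul_of_nonneg_left (fac J0) c0

lemma Hier.token (h : Base M T a) (c : Chi S χ) (H : Hier S lev l cen un N) {φ : V → ℕ}
    (p1 : ∀ d, l (M.tl d) < lev d → φ (M.tl d) ≤ lev d) (p2 : ∀ x, l x < φ x)
    (p3 : ∀ x, cen x → Λ x = l x) (p4 : ∀ x, Λ x ≤ φ x)
    (L2 : ∀ x, ¬ M.Inc x T → ¬ cen x → ∃ d, M.tl d = x ∧ l x < lev d ∧ lev d = Λ x)
    {d0 : D} {A0 c0 : ℝ} {B : Set V} {κ : V → Fin 3} (I : Inv M T (wt M lev Λ) d0 A0 B κ c0)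
    (cp : 0 ≤ c0) {f : F} (f0 : f ≠ T) {i : Fin 3} (hB : ∀ y ∈ B, M.Inc y T ∨ χ y f ≠ i)
    (hκ : κ (M.tl (a i)) = i) (x : V) (hx : χ x f = i) :
    ∃ B' κ', (∀ z ∈ B, z ∈ B' ∧ κ' z = κ z) ∧ x ∈ B' ∧ κ' x = i ∧
      (∀ z ∈ B', z ∈ B ∨ (χ z f = i ∧ l z ≤ l x)) ∧
      Inv M T (wt M lev Λ) d0 A0 B' κ' (c0 * (1 / 2 ^ 11) ^ (3 * φ x)) := by
  have L1 : ∀ d, l (M.tl d) < lev d → Λ (M.tl d) ≤ lev d := fun d q => (p4 _).trans (p1 d q)
  have mo : ∀ {B κ m n}, Inv M T (wt M lev Λ) d0 A0 B κ (c0 * (1 / 2 ^ 11) ^ m) → m ≤ n →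
      Inv M T (wt M lev Λ) d0 A0 B κ (c0 * (1 / 2 ^ 11) ^ n) := fun I q => I.mono (H.sp Λ)
    (mul_le_mul_of_nonneg_left (pow_le_pow_of_le_one (by positivity) (by norm_num) q) cp)
  have nB : ∀ z, ¬ M.Inc z T → χ z f = i → z ∉ B := fun z z1 z2 q => (hB z q).elim z1 fun n => n z2
  induction hj : l x using Nat.strong_induction_on generalizing x with
  | _ j ih =>
  by_cases xi : M.Inc x T
  · obtain ⟨m, rfl⟩ := (h.tri.all x).1 xi
    obtain rfl : m = i := (c.a4 m f).symm.trans hx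
    exact ⟨B, κ, fun z hz => ⟨hz, rfl⟩, I.root _ xi, hκ, fun z hz => Or.inl hz,
      mo (m := 0) (by simpa using I) (Nat.zero_le _)⟩
  have j0 : 0 < j := hj ▸ H.l_in x xi
  have li : ∀ z, l z = j → ¬ M.Inc z T := fun z e q => by rw [H.l_out z q] at e; omega
  have fw : ∀ x, l x = j → χ x f = i → lev (S.o i x) = j → ∃ B' κ', (∀ z ∈ B, z ∈ B' ∧ κ' z = κ z) ∧
      x ∈ B' ∧ κ' x = i ∧ (∀ z ∈ B', z ∈ B ∨ (χ z f = i ∧ (l z < j ∨ l z = j ∧ lev (S.o i z) = j))) ∧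
      Inv M T (wt M lev Λ) d0 A0 B' κ' (c0 * (1 / 2 ^ 11) ^ (3 * j + (Λ x - j + 1))) := by
    intro x x1 x2 x3
    have nx : ∀ y, l y = j → χ y f = i → χ (M.hd (S.o i y)) f = i := fun y y1 y2 => by
      by_contra n
      exact n ((c.nest h (li y y1) n f0 rfl).symm.trans y2)
    obtain ⟨y, ⟨y1, y2, y3⟩, z1, W⟩ := H.walk h L1 L2 (j := j) (S.o i)
      (fun y => l y = j ∧ χ y f = i ∧ lev (S.o i y) = j) (S.r i)
      (fun y q => ⟨li y q.1, S.o_tl i y (li y q.1), q.2.2, q.1, S.r_up i y (li y q.1)⟩)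
      (fun y q q1 q2 => ⟨q1, nx y q.1 q.2.1, by
        obtain ⟨m, z, z1, -, z3, -, z5⟩ := H.h1n _ (li _ q1) q2
        rcases z5 (M.rev (S.o i y)) rfl (by rw [H.sym, q.2.2, q1]) with e | e
        · exact absurd e.symm (S.ne_rev (li _ q1) (li y q.1))
        · have e := M.revP.injective e
          obtain rfl : y = z := by rw [← S.o_tl i y (li y q.1), e, S.o_tl m z z1]
          rw [S.o_inj z1 e] at q1 ⊢
          exact (S.o_inj z1 e ▸ z3 :).trans q1⟩) ⟨x1, x2, x3⟩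
    have lr : lev (M.rev (S.o i y)) = j := by rw [H.sym, y3]
    have z2 : l (M.hd (S.o i y)) < j := z1.resolve_right fun q => by
      obtain ⟨m, e⟩ := (H.h1c _ q.2).2 (M.rev (S.o i y)) rfl (lr.trans q.1.symm)
      exact S.ne_rev (li _ q.1) (li y y1) e.symm
    obtain ⟨B1, κ1, a1, a2, a3, a4, a5⟩ := ih _ z2 _ (nx y y1 y2) rfl
    have := p1 (M.rev (S.o i y)) (lr ▸ z2)
    obtain ⟨B2, κ2, b1, b2, b3, b4, b5⟩ := W (mo (n := 3 * j) a5 (by simp only [PM.tl_rev] at this; omega))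
      (by positivity) a2 fun z q k => (a4 z k).elim (nB z (li z q.1) q.2.1) fun k => by omega
    refine ⟨B2, κ2, fun z hz => ⟨(b1 z (a1 z hz).1).1, (b1 z (a1 z hz).1).2.trans (a1 z hz).2⟩, b2,
      b3.trans a3, fun z hz => ?_, by rwa [pow_add, ← mul_assoc]⟩
    rcases b4 z hz with q | q
    · exact (a4 z q).imp id fun k => ⟨k.1, Or.inl (k.2.trans_lt z2)⟩
    · exact Or.inr ⟨q.2.1, Or.inr ⟨q.1, q.2.2⟩⟩
  have := p2 x
  have := p4 x
  by_cases q : lev (S.o i x) = j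
  · obtain ⟨B1, κ1, a1, a2, a3, a4, a5⟩ := fw x hj hx q
    exact ⟨B1, κ1, a1, a2, a3, fun z hz => (a4 z hz).imp id fun k => ⟨k.1, by omega⟩, mo a5 (by omega)⟩
  have nc : ¬ cen x := fun k => q (((H.h1c x k).1 i).trans hj)
  have : Nonempty V := ⟨x⟩
  choose! col pr h1 h2 h3 h4 h5 using H.h1n
  have ne : i ≠ col x := fun e => q (e ▸ (h3 x xi nc).trans hj)
  have nx : ∀ y, l y = j → ¬ cen y → col y = col x → χ y f = i → χ (pr y) f = i :=
    fun y y1 y2 y3 y4 => c.nest h (h1 y (li y y1) y2) (y3 ▸ ne) f0 ((h2 y (li y y1) y2).symm ▸ y4)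
  have hd : ∀ y, l y = j → ¬ cen y → M.hd (M.rev (S.o (col y) (pr y))) = pr y := fun y y1 y2 => by
    rw [PM.hd_rev, S.o_tl _ _ (h1 y (li y y1) y2)]
  obtain ⟨y, ⟨y1, y2, y3, y4⟩, z1, W⟩ := H.walk h L1 L2 (j := j) (fun y => M.rev (S.o (col y) (pr y)))
    (fun y => l y = j ∧ ¬ cen y ∧ col y = col x ∧ χ y f = i) (fun y => - S.r (col x) y)
    (fun y q => ⟨li y q.1, h2 y (li y q.1) q.2.1, by rw [H.sym, h4 y (li y q.1) q.2.1, q.1], q.1, by
      have := S.r_up (col y) _ (h1 y (li y q.1) q.2.1)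
      rw [h2 y (li y q.1) q.2.1] at this
      rw [hd y q.1 q.2.1, ← q.2.2.1]; exact neg_lt_neg this⟩)
    (fun y q q1 q2 => by
      rw [hd y q.1 q.2.1] at q1 q2 ⊢
      have z1 := li _ q1
      refine ⟨q1, q2, ?_, nx y q.1 q.2.1 q.2.2.1 q.2.2.2⟩
      rcases h5 _ z1 q2 (S.o (col y) (pr y)) (S.o_tl _ _ z1)
        (by rw [h4 y (li y q.1) q.2.1, q.1, q1]) with e | e
      · exact (S.o_inj z1 e).symm.trans q.2.2.1
      · exact absurd e (S.ne_rev z1 (h1 _ z1 q2))) ⟨hj, nc, rfl, hx⟩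
  simp only [hd y y1 y2] at z1 W
  obtain ⟨B1, κ1, a1, a2, a3, a4, a5⟩ : ∃ B' κ', (∀ z ∈ B, z ∈ B' ∧ κ' z = κ z) ∧ pr y ∈ B' ∧
      κ' (pr y) = i ∧ (∀ z ∈ B', z ∈ B ∨ (χ z f = i ∧ (l z < j ∨ l z = j ∧ lev (S.o i z) = j))) ∧
      Inv M T (wt M lev Λ) d0 A0 B' κ' (c0 * (1 / 2 ^ 11) ^ (3 * j + 1)) := by
    rcases z1 with z | z
    · obtain ⟨B1, κ1, a1, a2, a3, a4, a5⟩ := ih _ z _ (nx y y1 y2 y3 y4) rfl
      have t := S.o_tl (col y) _ (h1 y (li y y1) y2)
      have lv := (h4 y (li y y1) y2).trans y1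
      have := p1 (S.o (col y) (pr y)) (by rw [t, lv]; exact z)
      rw [t, lv] at this
      exact ⟨B1, κ1, a1, a2, a3, fun u hu => (a4 u hu).imp id fun k => ⟨k.1, Or.inl (k.2.trans_lt z)⟩,
        mo a5 (by omega)⟩
    · obtain ⟨B1, κ1, a1, a2, a3, a4, a5⟩ := fw _ z.1 (nx y y1 y2 y3 y4) (((H.h1c _ z.2).1 i).trans z.1)
      exact ⟨B1, κ1, a1, a2, a3, a4, mo a5 (by rw [p3 _ z.2, z.1]; omega)⟩
  obtain ⟨B2, κ2, b1, b2, b3, b4, b5⟩ := W a5 (by positivity) a2 fun z k k' => by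
    have z1 := li z k.1
    rcases a4 z k' with u | ⟨-, u | u⟩
    · exact nB z z1 k.2.2.2 u
    · omega
    · rcases h5 z z1 k.2.1 (S.o i z) (S.o_tl _ _ z1) (u.2.trans k.1.symm) with e | e
      · exact ne ((S.o_inj z1 e).trans k.2.2.1)
      · exact S.ne_rev z1 (h1 _ z1 k.2.1) e
  refine ⟨B2, κ2, fun z hz => ⟨(b1 z (a1 z hz).1).1, (b1 z (a1 z hz).1).2.trans (a1 z hz).2⟩, b2,
    b3.trans a3, fun z hz => ?_, mo (by rwa [mul_assoc, ← pow_add] at b5) (by omega)⟩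
  rcases b4 z hz with u | u
  · exact (a4 z u).imp id fun k => ⟨k.1, by omega⟩
  · exact Or.inr ⟨u.2.2.2, u.1.le⟩

theorem route (h : Base M T a) (c : Chi S χ) (H : Hier S lev l cen un N) :
    ∃ w, SP M w ∧ (∀ d, (1 / 32 : ℝ) ^ N ≤ w d ∧ w d ≤ 32 ^ (N + 1)) ∧
      ∀ d0, M.lf d0 ≠ T → ∀ A0 κ, (∀ j, κ (M.tl (a j)) = j) →
        Inv M T w d0 A0 {x | M.Inc x T} κ 1 → (1 / 2 ^ 300 : ℝ) ^ (N + 1) ≤ A0 := by
  classical
  have ex : ∀ x, ∃ j, j = N + 1 ∨ ∃ d, M.tl d = x ∧ l x < lev d ∧ lev d = j :=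
    fun x => ⟨_, Or.inl rfl⟩
  set φ : V → ℕ := fun x => Nat.find (ex x) with hφ
  have p0 : ∀ x, φ x ≤ N + 1 := fun x => Nat.find_min' (ex x) (Or.inl rfl)
  have p1 : ∀ d, l (M.tl d) < lev d → φ (M.tl d) ≤ lev d := fun d q =>
    Nat.find_min' (ex _) (Or.inr ⟨d, rfl, q, rfl⟩)
  have p2 : ∀ x, l x < φ x := fun x => by
    rcases Nat.find_spec (ex x) with q | ⟨d, -, q, e⟩
    · obtain ⟨d, rfl⟩ := M.tl_surj x
      exact ((H.l_le d).trans (H.le d)).trans_lt (N.lt_succ_self.trans_eq q.symm)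
    · exact q.trans_eq e
  set Λ : V → ℕ := fun x => if cen x then l x else φ x with hΛ
  have p4 : ∀ x, Λ x ≤ φ x := fun x => by
    simp only [hΛ]; split_ifs; exacts [(p2 x).le, le_rfl]
  have L2 : ∀ x, ¬ M.Inc x T → ¬ cen x → ∃ d, M.tl d = x ∧ l x < lev d ∧ lev d = Λ x := by
    intro x hx nc
    simp only [hΛ, if_neg nc]
    refine (Nat.find_spec (ex x)).resolve_left fun q => ?_
    have z : ∀ d, M.tl d = x → M.tl d = x ∧ lev d = l x := fun d hd => ⟨hd, by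
      have a1 := H.l_le d
      have a2 := p1 d
      have a3 := H.le d
      have a4 : φ x = N + 1 := q
      rw [hd] at a1 a2
      omega⟩
    obtain ⟨d, hd⟩ := M.tl_surj x
    rcases H.two hx nc (z d hd) (z (M.sg d) (by simpa)) (M.sg_ne d).symm
      (z (M.sg (M.sg d)) (by simpa)) with e | e
    exacts [M.sg_sg_ne d e, M.sg_ne _ e]
  refine ⟨wt M lev Λ, H.sp Λ, fun d => ⟨?_, ?_⟩, fun d0 f0 A0 κ hκ I => ?_⟩
  · rw [wt, one_div_pow]
    exact div_le_div₀ (by positivity) (one_le_pow₀ (by norm_num)) (by positivity)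
      (pow_le_pow_right₀ (by norm_num) (H.le d))
  · have := (p4 (M.tl d)).trans (p0 _)
    exact (div_le_self (by positivity) (one_le_pow₀ (by norm_num))).trans
      (pow_le_pow_right₀ (by norm_num) (by omega))
  obtain ⟨e, he, hb⟩ := h.darts S f0
  have hx : ∀ m, χ (M.tl (e m)) (M.lf d0) = m := fun m => by
    by_cases q : M.Inc (M.tl (e m)) T
    · obtain ⟨j, hj⟩ := (h.tri.all _).1 q
      rw [← hj, c.a4, ← S.lab_t j _ hj.symm ((he m).1 ▸ f0), (he m).2.1]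
    · rw [← (he m).1, c.loc q (Sch.On.refl S m _) (Or.inl rfl), (he m).2.1]
  have tk := fun {c0 B κ} => H.token (Λ := Λ) (d0 := d0) (A0 := A0) (c0 := c0) (B := B) (κ := κ) h c p1 p2
    (fun x q => if_pos q) p4 L2
  obtain ⟨B0, κ0, a1, a2, a3, a4, a5⟩ := tk I zero_le_one f0 (i := 0) (fun y q => Or.inl q) (hκ 0) _ (hx 0)
  obtain ⟨B1, κ1, b1, b2, b3, b4, b5⟩ := tk a5 (by positivity) f0 (i := 1)
    (fun y q => (a4 y q).imp id fun k => by rw [k.1]; decide)
    ((a1 _ (h.tri.inc 1)).2.trans (hκ 1)) _ (hx 1)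
  obtain ⟨B2, κ2, c1, c2, c3, c4, c5⟩ := tk b5 (by positivity) f0 (i := 2)
    (fun y q => (b4 y q).elim (fun q => (a4 y q).imp id fun k => by rw [k.1]; decide)
      fun k => Or.inr (by rw [k.1]; decide))
    ((b1 _ (a1 _ (h.tri.inc 2)).1).2.trans ((a1 _ (h.tri.inc 2)).2.trans (hκ 2))) _ (hx 2)
  have all : ∀ m, M.tl (e m) ∈ B2 ∧ κ2 (M.tl (e m)) = m := fun m => by
    fin_cases m
    exacts [⟨(c1 _ (b1 _ a2).1).1, (c1 _ (b1 _ a2).1).2.trans ((b1 _ a2).2.trans a3)⟩,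
      ⟨(c1 _ b2).1, (c1 _ b2).2.trans b3⟩, ⟨c2, c3⟩]
  have e0 := hb d0 rfl
  have e1 : M.hd d0 = M.tl (e (S.lab d0 + 2)) := by rw [← (he _).2.2, ← e0, PM.tl_nx]
  have e2 : M.hd (M.nx d0) = M.tl (e (S.lab d0 + 2 + 2)) := by
    rw [← (he _).2.2, ← (he _).2.2, ← e0, PM.tl_nx]
  have e3 : M.tl d0 = M.tl (e (S.lab d0)) := by rw [← e0]
  refine le_trans ?_ (c5.fin h (H.sp Λ) (e3 ▸ (all _).1) (e1 ▸ (all _).1) (e2 ▸ (all _).1) ?_ ?_ ?_)
  · rw [one_mul, ← pow_add, ← pow_add]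
    refine le_trans ?_ (pow_le_pow_of_le_one (n := 9 * (N + 1)) (by positivity) (by norm_num) (by
      have := p0 (M.tl (e 0)); have := p0 (M.tl (e 1)); have := p0 (M.tl (e 2)); omega))
    rw [pow_mul]
    refine pow_le_pow_left₀ (by positivity) ?_ _
    rw [one_div_pow, ← pow_mul]
    exact one_div_le_one_div_of_le (by positivity) (pow_le_pow_right₀ (by norm_num) (by norm_num))
  all_goals
    simp only [e1, e2, e3, all]
    generalize S.lab d0 = z
    clear * -; revert z; decide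

end Pool.Agent.Lib.MP_d5dfc1_co.Sp
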