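import Pool.Agent.Lib.MP_d5dfc1_co.SpSch
import Pool.Agent.Lib.MP_d5dfc1_co.SpLev
import Pool.Agent.Lib.MP_d5dfc1_co.SpStep
import Pool.Agent.Lib.MP_d5dfc1_co.SpBase
import Pool.Agent.Lib.MP_d5dfc1_co.SpRoute
import Pool.Agent.Lib.MP_d5dfc1_co.SpLift
import Pool.Agent.Lib.MP_d5dfc1_co.SpLift2

/-! Simplicial polytopes on a polynomial grid: assembly. -/

namespace Pool.Agent.Lib.MP_d5dfc1_co.Sp

open Finset Ex

variable {V F D : Type} [Fintype D] [DecidableEq V] [Fintype V] [Fintype F] [DecidableEq F]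
  {M : PM V F D} {p : V → V3} {n : F → V3} {c : F → ℝ}

omit [Fintype F] [DecidableEq F] in
lemma sol_uniq {T : F} {a : Fin 3 → D} (h : Base M T a) {w : D → ℝ} (hw : SP M w) {B : Set V}
    (hB : ∀ x, M.Inc x T → x ∈ B) {κ : V → Fin 3} {r r' : V → V3} (h1 : Sol M w B κ r)
    (h2 : Sol M w B κ r') : r = r' := by
  ext x k
  have := lpl_ker h hw hB (f := fun x => r x k - r' x k)
    (fun x q => by rw [h1.1 x q, h2.1 x q, sub_self]) fun x q => by
      rw [lpl, ← sub_self (0 : ℝ)]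
      nth_rewrite 1 [← h1.2 k x q]
      rw [← h2.2 k x q, ← sum_sub_distrib]
      exact sum_congr rfl fun d _ => by ring
  exact sub_eq_zero.1 (congrFun this x)

theorem grid [Nonempty V] (st : Strict M p n c) (O : Ori M p n)
    (n3 : ∀ d, M.nx (M.nx (M.nx d)) = d) :
    ∃ (p' : V → V3) (n' : F → V3) (c' : F → ℝ), Strict M p' n' c' ∧ ∀ x k, (∃ z : ℤ, p' x k = z) ∧
      0 ≤ p' x k ∧ p' x k ≤ (Fintype.card V : ℝ) ^ 108000 := by
  classical
  obtain ⟨x0⟩ := ‹Nonempty V›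
  obtain ⟨d, -⟩ := M.tl_surj x0
  have h := base_of st O n3 d
  generalize M.lf d = T, ![d, M.nx d, M.nx (M.nx d)] = a at h
  obtain ⟨S⟩ := exSch h
  obtain ⟨χ, hχ⟩ := exChi h S
  obtain ⟨lev, l, cen, un, H⟩ := exHier h hχ
  obtain ⟨w, hw, w1, R⟩ := route h hχ H
  set L := Nat.log 2 (Fintype.card F) with hL
  have inj : Function.Injective fun j => M.tl (a j) :=
    inj3 fun j => h.tri.hd j ▸ M.hd_ne (a j)
  have hκ : ∀ j, Function.invFun (fun j => M.tl (a j)) (M.tl (a j)) = j :=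
    Function.leftInverse_invFun inj
  obtain ⟨r, hr⟩ := sol_ex h hw (B := {x | M.Inc x T}) (fun _ k => k)
    (Function.invFun fun j => M.tl (a j))
  have one : (1 : ℝ) ≤ 2 ^ 300 := one_le_pow₀ one_le_two
  have b32 : (32 : ℝ) ≤ 2 ^ 300 := by
    rw [show (32 : ℝ) = 2 ^ 5 by norm_num]; exact pow_le_pow_right₀ one_le_two (by norm_num)
  have b2 : (2 : ℝ) ≤ 2 ^ 300 := le_trans (by norm_num) b32
  refine (lift st O h hw hκ hr (X := (2 ^ 300) ^ (3 * (L + 1) + 1))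
    (b2.trans (le_self_pow₀ one (by omega))) (fun e => ⟨le_trans ?g1 (w1 e).1, (w1 e).2.trans ?g2⟩)
    ?g3 fun e he => ?g4).imp fun q => Exists.imp fun n' => Exists.imp fun c' => And.imp_right
      fun hq x k => ⟨(hq x k).1, (hq x k).2.1, (hq x k).2.2.trans ?g5⟩
  case g5 =>
    have e1 := h.euler
    have e2 : Fintype.card F ≤ Fintype.card D := Fintype.card_le_of_surjective _ M.lf_surj
    have e3 : 0 < Fintype.card F := Fintype.card_pos_iff.2 ⟨T⟩
    have e4 : 2 ^ L ≤ Fintype.card F := Nat.pow_log_le_self 2 e3.ne'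
    set m := Fintype.card V
    have m3 : 3 ≤ m := by omega
    have e5 : 2 ^ L ≤ m ^ 3 := by nlinarith [Nat.mul_le_mul m3 m3]
    have e6 : 2 ^ 4 ≤ m ^ 3 := le_trans (by norm_num) (Nat.pow_le_pow_left m3 3)
    have e7 : 2 ^ (3 * (L + 1) + 1) ≤ m ^ 12 := by
      calc _ = (2 ^ L) ^ 3 * 2 ^ 4 := by ring
        _ ≤ (m ^ 3) ^ 3 * m ^ 3 := Nat.mul_le_mul (Nat.pow_le_pow_left e5 3) e6
        _ = _ := by ring
    have e8 : (2 : ℝ) ^ (3 * (L + 1) + 1) ≤ (m : ℝ) ^ 12 := by exact_mod_cast e7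
    rw [← pow_mul (2 : ℝ), mul_comm 300, pow_mul (2 : ℝ), ← pow_mul,
      show 108000 = 12 * (300 * 30) from rfl, pow_mul (m : ℝ)]
    exact pow_le_pow_left₀ (by positivity) e8 _
  · rw [one_div, inv_pow]
    exact inv_anti₀ (by positivity)
      ((pow_le_pow_left₀ (by norm_num) b32 _).trans (pow_le_pow_right₀ one (by omega)))
  · exact pow_le_pow_left₀ (by norm_num) b32 _
  · have : (Fintype.card F : ℝ) ≤ 2 ^ (L + 1) := by
      exact_mod_cast (Nat.lt_pow_succ_log_self one_lt_two _).le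
    exact this.trans ((pow_le_pow_left₀ (by norm_num) b2 _).trans (pow_le_pow_right₀ one (by omega)))
  · rw [← inv_pow, ← one_div]
    exact R e he _ _ hκ ⟨fun _ k => k, fun w' hw' r' hr' => (tutte_pos st O h hw' hκ hr' he).le,
      fun r' hr' => by rw [one_mul, sol_uniq h hw (fun _ k => k) hr' hr]⟩

end Pool.Agent.Lib.MP_d5dfc1_co.Sp
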