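import Pool.Agent.Lib.MP_d5dfc1_co.SpChi

/-! Properties of the regions: local rule, runs, nesting, halving. -/

namespace Pool.Agent.Lib.MP_d5dfc1_co.Sp

open Finset Ex

variable {V F D : Type} {M : PM V F D} {T : F} {a : Fin 3 → D} {S : Sch M T a} {χ : V → F → Fin 3}

/-- both faces of `d` lie in region `c` of `u` -/
def Int (M : PM V F D) (χ : V → F → Fin 3) (u : V) (c : Fin 3) (d : D) : Prop :=
  χ u (M.lf d) = c ∧ χ u (M.rf d) = c

namespace Chi

lemma off (c : Chi S χ) {u x : V} (hx : ¬ M.Inc x T) (h : ∀ i, ¬ S.On i u x) {d e : D}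
    (hd : M.tl d = x) (he : M.tl e = x) : χ u (M.lf d) = χ u (M.lf e) :=
  (M.v_ind (P := fun b => M.tl b = x ∧ χ u (M.lf d) = χ u (M.lf b)) (fun b ⟨b1, b2⟩ => ⟨by simpa, by
    rw [b2, PM.lf_sg']
    exact c.a1 u b (inn_lf (b1 ▸ hx)) (inn_rf (b1 ▸ hx)) (fun i k => h i (b1 ▸ k.2.1))
      fun i k => h i (by simpa [b1] using k.hd.1)⟩) ⟨hd, rfl⟩ (hd.trans he.symm)).2

lemma off_int (c : Chi S χ) {u x : V} {m : Fin 3} (hx : ¬ M.Inc x T) (h : ∀ i, ¬ S.On i u x) {d e : D}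
    (hd : M.tl d = x) (he : M.tl e = x) (q : χ u (M.lf d) = m) : Int M χ u m e :=
  ⟨(c.off hx h he hd).trans q, by
    rw [← PM.lf_sg']; exact (c.off hx h (by simpa) hd).trans q⟩

variable [Finite D]

lemma loc (c : Chi S χ) {u : V} {i : Fin 3} {d : D} (hx : ¬ M.Inc (M.tl d) T)
    (h : S.On i u (M.tl d)) (q : M.tl d = u ∨ S.lab d ≠ i) : χ u (M.lf d) = S.lab d := by
  set x := M.tl d with hxd
  set m := S.lab d with hm
  have nj : ∀ b, M.tl b = x → S.lab b = m → S.lab (M.sg b) = m → χ u (M.lf b) = χ u (M.rf b) :=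
    fun b t l1 l2 => c.a1 u b (inn_lf (t ▸ hx)) (inn_rf (t ▸ hx)) (fun j k => by
      have := S.o_lab j _ k.1
      rw [← k.2.2, l1, l2] at this
      exact absurd (this.1.symm.trans this.2) (by clear * -; revert j; decide)) fun j k => by
      have a1 := (S.lab_hd j k.1).1
      rw [← k.2.2, PM.rr, l1] at a1
      have a2 := k.hd
      rw [PM.hd_rev, t] at a2
      rcases q with q | q
      · exact a2.2 q
      · exact a2.2 (h.disj a2.1 fun e => q (a1.trans e.symm))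
  have st : M.tl (S.o m x) = x ∧ (S.lab (S.o m x) = m → χ u (M.lf (S.o m x)) = m) :=
    ⟨S.o_tl m x hx, fun e => absurd ((S.o_lab m x hx).1.symm.trans e) (by
      generalize m = z; clear * -; revert z; decide)⟩
  have on : S.On (m + 1) u x ∨ S.On (m + 2) u x := by
    rcases q with q | q
    · exact Or.inl (q ▸ Sch.On.refl S _ _)
    · obtain e | e : i = m + 1 ∨ i = m + 2 := by revert q; generalize m = z; clear * -; revert z i; decide
      exacts [Or.inl (e ▸ h), Or.inr (e ▸ h)]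
  rcases on with o | o
  · refine (M.v_ind (P := fun b => M.tl b = x ∧ (S.lab b = m → χ u (M.lf b) = m))
      (fun b ⟨t, b2⟩ => ⟨by simpa, fun l => ?_⟩) st (d := S.o m x) (e := d) st.1).2 rfl
    rw [PM.lf_sg']
    rcases S.lab_sg b (t ▸ hx) with e | e
    · rw [← nj b t (e ▸ l) l, b2 (e ▸ l)]
    · have e2 := (S.o_lab (S.lab b + 2) _ (t ▸ hx)).2
      rw [← e, l] at e2
      have e3 : S.lab b + 2 = m + 1 := by
        rw [e2]; generalize S.lab b = z; clear * -; revert z; decide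
      rw [e, e3, t, (c.a2 u _ _ (Sch.Dp.mk hx o)).2]
      generalize m = z; clear * -; revert z; decide
  · refine (v_ind' (P := fun b => M.tl b = x ∧ (S.lab b = m → χ u (M.lf b) = m))
      (fun b ⟨t, b2⟩ => ⟨by simpa using t, fun l => ?_⟩) st (d := S.o m x) (e := d) st.1).2 rfl
    rw [PM.tl_sg'] at t
    rcases S.lab_sg b (t ▸ hx) with e | e
    · rw [nj b t l (e.trans l), ← PM.lf_sg', b2 (e.trans l)]
    · rw [e, l, t, (c.a2 u _ _ (Sch.Dp.mk hx o)).1]
      generalize m = z; clear * -; revert z; decide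

lemma stay (c : Chi S χ) {u x : V} {k m : Fin 3} (hx : ¬ M.Inc x T) (ne : m ≠ k)
    (h : Int M χ u m (S.o k x)) (hy : ¬ M.Inc (M.hd (S.o k x)) T) :
    (∀ i, ¬ S.On i u (M.hd (S.o k x))) ∨ S.On k u (M.hd (S.o k x)) := by
  by_contra n
  push Not at n
  obtain ⟨⟨i, hi⟩, n⟩ := n
  have l := (S.lab_hd k hx).1
  have := c.loc (d := M.rev (S.o k x)) hy hi (Or.inr (by rw [l]; rintro rfl; exact n hi))
  exact ne (h.2.symm.trans (this.trans l))

lemma pref (c : Chi S χ) {u x : V} {m : Fin 3} (hx : ¬ M.Inc x T) (h : Int M χ u m (S.o m x))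
    (i : Fin 3) : ¬ S.On i u x := fun hi => by
  have t := S.o_tl m x hx
  obtain ⟨l1, l2⟩ := S.o_lab m x hx
  by_cases q : m + 1 = i
  · have := c.loc (d := M.sg (S.o m x)) (i := i) (u := u) (by simpa [t]) (by simpa [t])
      (Or.inr (by rw [l2, ← q]; clear * -; revert m; decide))
    rw [PM.lf_sg', h.2, l2] at this
    revert this; clear * -; revert m; decide
  · have := c.loc (d := S.o m x) (i := i) (u := u) (by simpa [t]) (by simpa [t]) (Or.inr (l1 ▸ q))
    rw [h.1, l1] at this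
    revert this; clear * -; revert m; decide

lemma stay' (c : Chi S χ) {u x : V} {k m : Fin 3} (ne : m ≠ k) (h : Int M χ u m (S.o k x))
    {d : D} (hd : S.Dp k x d) : S.Dp k u d ∨ Int M χ u m d := by
  obtain ⟨d1, ⟨s, hs⟩, d3⟩ := hd
  rw [d3]
  rw [← hs] at d1 ⊢
  clear hs d3
  induction s with
  | zero => exact Or.inr h
  | succ s ih =>
    have z := S.it_in k d1 s.le_succ
    rw [Function.iterate_succ_apply', S.p_in k z] at d1 ⊢
    rcases ih z with q | q
    · exact Or.inl (Sch.Dp.mk d1 q.hd.1)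
    · rcases c.stay z ne q d1 with o | o
      · exact Or.inr (c.off_int d1 o (d := M.rev (S.o k _)) rfl (S.o_tl k _ d1) q.2)
      · exact Or.inl (Sch.Dp.mk d1 o)

theorem run (c : Chi S χ) {u x : V} {i m : Fin 3} {k : ℕ} (hy : ¬ M.Inc ((S.p i)^[k] x) T)
    (h1 : Int M χ u m (S.o i x)) (h2 : Int M χ u m (S.o i ((S.p i)^[k] x)))
    {s : ℕ} (s0 : 0 < s) (sk : s ≤ k) {d : D} (hd : M.tl d = (S.p i)^[s] x) :
    χ u (M.lf d) = m := by
  have inn := fun s (h : s ≤ k) => S.it_in i hy h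
  have nx : ∀ s, s < k → (S.p i)^[s + 1] x = M.hd (S.o i ((S.p i)^[s] x)) := fun s h => by
    rw [Function.iterate_succ_apply', S.p_in i (inn s h.le)]
  by_cases ne : m = i
  · subst ne
    have : ∀ t, t ≤ k → Int M χ u m (S.o m ((S.p m)^[t] x)) := fun t ht => by
      induction ht using Nat.decreasingInduction with
      | self => exact h2
      | of_succ t ht ih =>
        have z := inn _ ht
        have o := c.pref z ih
        exact ⟨by simpa using c.off_int z o (S.o_tl m _ z) (e := M.rev (S.o m _)) (nx t ht).symm ih.1 |>.2,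
          (c.off_int z o (S.o_tl m _ z) (e := M.rev (S.o m _)) (nx t ht).symm ih.1).1⟩
    exact (c.off_int (inn s sk) (c.pref (inn s sk) (this s sk)) (S.o_tl m _ (inn s sk)) hd
      (this s sk).1).1
  · have key : ∀ t, t < k → Int M χ u m (S.o i ((S.p i)^[t] x)) → ∀ e, M.tl e = (S.p i)^[t + 1] x →
        Int M χ u m e := fun t ht q e he => by
      have z := inn _ ht
      rw [nx t ht] at z he
      rcases c.stay (inn t ht.le) ne q z with o | o
      · exact c.off_int z o (d := M.rev (S.o i _)) rfl he q.2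
      · have : S.On i u ((S.p i)^[k] x) := o.trans ⟨k - (t + 1), by
          rw [← nx t ht, ← Function.iterate_add_apply, Nat.sub_add_cancel ht]⟩
        have b := c.a2 u _ _ (Sch.Dp.mk hy this)
        rw [h2.1, h2.2] at b
        exact absurd (b.1.symm.trans b.2) (by clear * -; revert i; decide)
    have : ∀ t, t ≤ k → Int M χ u m (S.o i ((S.p i)^[t] x)) := fun t ht => by
      induction t with
      | zero => exact h1
      | succ t ih => exact key t ht (ih (Nat.le_of_succ_le ht)) _ (S.o_tl i _ (inn _ ht))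
    obtain ⟨t, rfl⟩ := Nat.exists_eq_add_one_of_ne_zero s0.ne'
    exact (key t sk (this t (Nat.le_of_succ_le sk)) d hd).1

lemma n1 (c : Chi S χ) {u : V} {i k : Fin 3} (hu : ¬ M.Inc u T) (hv : ¬ M.Inc (M.hd (S.o i u)) T)
    {d : D} (h : S.Dp k u d) : S.Dp k (M.hd (S.o i u)) d ∨ Int M χ (M.hd (S.o i u)) i d := by
  have b : Int M χ (M.hd (S.o i u)) i (S.o i u) := ⟨by
      have := c.loc (d := M.nx (S.o i u)) (i := i) (u := M.hd (S.o i u)) (by simpa)
        (by simpa using Sch.On.refl S _ _) (Or.inl (by simp))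
      rwa [PM.lf_nx, (S.lab_hd i hu).2] at this,
    (c.loc (d := M.rev (S.o i u)) (i := i) hv (Sch.On.refl S _ _) (Or.inl rfl)).trans (S.lab_hd i hu).1⟩
  by_cases e : i = k
  · subst e
    rcases h.2.1.cases with q | ⟨-, q⟩
    · rw [h.2.2, q]; exact Or.inr b
    · exact Or.inl ⟨h.1, S.p_in i hu ▸ q, h.2.2⟩
  · exact c.stay' e (c.off_int hu (c.pref hu b) (S.o_tl i u hu) (S.o_tl k u hu) b.1) h

lemma n2 (c : Chi S χ) {u : V} {i j k : Fin 3} (hu : ¬ M.Inc u T) (ki : k ≠ i) (ji : j ≠ i)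
    (jk : j ≠ k) {d : D} (h : S.Dp k (M.hd (S.o i u)) d) : S.Dp k u d ∨ Int M χ u j d := by
  obtain ⟨s, hs⟩ := h.2.1
  have hv : ¬ M.Inc (M.hd (S.o i u)) T := S.it_in k (m := 0) (hs ▸ h.1) s.zero_le
  have e := Sch.Dp.mk hu (Sch.On.refl S i u)
  have t := S.o_tl k _ hv
  have nj := c.a1 u (S.o k (M.hd (S.o i u))) (S.o_lf k hv) (S.o_rf k hv)
    (fun m q => ki (S.o_inj hv ((e.at t).1 q))) fun m q => S.ne_rev hv hu ((e.at t).2 q)
  obtain ⟨l1, l2⟩ := S.o_lab k _ hv
  refine c.stay' jk ?_ h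
  obtain q | q : j = k + 1 ∨ j = k + 2 := by clear * - jk; revert j k; decide
  · have := c.loc (d := S.o k (M.hd (S.o i u))) (i := i) (u := u) (by rwa [t]) (by rw [t]; exact e.hd.1)
      (Or.inr (by rw [l1, ← q]; exact ji))
    rw [l1, ← q] at this
    exact ⟨this, nj ▸ this⟩
  · have := c.loc (d := M.sg (S.o k (M.hd (S.o i u)))) (i := i) (u := u) (by simpa [t])
      (by simpa [t] using e.hd.1) (Or.inr (by rw [l2, ← q]; exact ji))
    rw [l2, ← q, PM.lf_sg'] at this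
    exact ⟨nj ▸ this, this⟩

end Chi

lemma out_rf (hT : Tri M T a) {d : D} (e : M.rf d = T) : ∃ j, M.lf d = M.rf (a j) := by
  obtain ⟨j, hj⟩ := out_dart hT (d := M.rev d) e
  exact ⟨j, by rw [← hj, PM.rf_rev]⟩

variable [Fintype D] [DecidableEq V]

theorem Chi.nest (h : Base M T a) (c : Chi S χ) {u : V} {i j : Fin 3} (hu : ¬ M.Inc u T) (ji : j ≠ i)
    {g : F} (g0 : g ≠ T) (hg : χ (M.hd (S.o i u)) g = j) : χ u g = j := by
  by_cases hv : M.Inc (M.hd (S.o i u)) T
  · rw [Sch.hd_out h.tri hu hv, c.a4] at hg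
    exact absurd hg.symm ji
  by_contra n
  refine (h.dcon {g | g ≠ T ∧ χ (M.hd (S.o i u)) g = j ∧ χ u g ≠ j} (fun d ⟨y0, y1, y2⟩ => ?_)
    (f := g) ⟨g0, hg, n⟩ T).1 rfl
  have r0 : M.rf d ≠ T := fun e => by
    obtain ⟨m, hm⟩ := out_rf h.tri e
    rw [hm, c.a3 _ _ hv] at y1
    exact y2 (by rw [hm, c.a3 _ _ hu, y1])
  have A1 : ∀ k, ¬ S.Dp k u d := fun k q => by
    rcases c.n1 hu hv q with o | o
    · exact y2 (by rw [(c.a2 _ _ _ q).1, ← y1, (c.a2 _ _ _ o).1])
    · exact ji (y1.symm.trans o.1)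
  have A2 : ∀ k, ¬ S.Dp k u (M.rev d) := fun k q => by
    have b := (c.a2 _ _ _ q).2
    rcases c.n1 hu hv q with o | o
    · have b' := (c.a2 _ _ _ o).2
      rw [PM.rf_rev] at b b'
      exact y2 (by rw [b, ← y1, b'])
    · exact ji (y1.symm.trans (by simpa using o.2))
  have s : S.On i u (M.hd (S.o i u)) := (Sch.Dp.mk hu (Sch.On.refl S i u)).hd.1
  refine ⟨r0, (c.a1 _ d y0 r0 (fun k q => ?_) fun k q => ?_).symm.trans y1,
    c.a1 u d y0 r0 A1 A2 ▸ y2⟩
  · by_cases e : k = i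
    · exact A1 k ⟨q.1, e ▸ s.trans (e ▸ q.2.1), q.2.2⟩
    · have b := (c.a2 _ _ _ q).1
      rcases c.n2 hu e ji (by rw [← y1, b]; clear * -; revert k; decide) q with o | o
      exacts [A1 k o, y2 o.1]
  · by_cases e : k = i
    · exact A2 k ⟨q.1, e ▸ s.trans (e ▸ q.2.1), q.2.2⟩
    · have b := (c.a2 _ _ _ q).2
      rw [PM.rf_rev] at b
      rcases c.n2 hu e ji (by rw [← y1, b]; clear * -; revert k; decide) q with o | o
      exacts [A2 k o, y2 (by simpa using o.2)]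

/-- the darts of an inner face by label -/
lemma Base.darts (h : Base M T a) (S : Sch M T a) {d : D} (hd : M.lf d ≠ T) : ∃ e : Fin 3 → D,
    (∀ m, M.lf (e m) = M.lf d ∧ S.lab (e m) = m ∧ M.nx (e m) = e (m + 2)) ∧
      ∀ b, M.lf b = M.lf d → b = e (S.lab b) := by
  have l1 := S.lab_nx d hd
  have l2 := S.lab_nx (M.nx d) (by simpa)
  have ex : ∀ m, ∃ b, M.lf b = M.lf d ∧ S.lab b = m := fun m => by
    obtain q | q | q : m = S.lab d ∨ m = S.lab d + 2 ∨ m = S.lab d + 2 + 2 := by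
      generalize S.lab d = z; clear * -; revert z m; decide
    exacts [⟨d, rfl, q.symm⟩, ⟨M.nx d, by simp, l1.trans q.symm⟩,
      ⟨M.nx (M.nx d), by simp, by rw [l2, l1, q]⟩]
  have un : ∀ b b', M.lf b = M.lf d → M.lf b' = M.lf d → S.lab b = S.lab b' → b = b' := by
    intro b b' h1 h2 e
    have k1 := S.lab_nx b (h1 ▸ hd)
    have k2 := S.lab_nx (M.nx b) (by simpa [h1])
    rcases h.face (h1.trans h2.symm) with q | q | q
    · exact q.symm
    · rw [q, k1] at e; exfalso; revert e; generalize S.lab b = z; clear * -; revert z; decide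
    · rw [q, k2, k1] at e; exfalso; revert e; generalize S.lab b = z; clear * -; revert z; decide
  choose e e1 e2 using ex
  exact ⟨e, fun m => ⟨e1 m, e2 m, un _ _ (by simp [e1]) (e1 _) (by
    rw [S.lab_nx _ (e1 m ▸ hd), e2, e2])⟩, fun b hb => un _ _ hb (e1 _) (e2 _).symm⟩

/-- the edges of an inner face point to the label of their colour -/
lemma Base.edge (h : Base M T a) {f : F} (f0 : f ≠ T) {e : Fin 3 → D}
    (he : ∀ m, M.lf (e m) = f ∧ S.lab (e m) = m ∧ M.nx (e m) = e (m + 2)) {m k : Fin 3} (ne : m ≠ k) :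
    (¬ M.Inc (M.tl (e m)) T ∧ M.hd (S.o k (M.tl (e m))) = M.tl (e k) ∧
      (M.lf (S.o k (M.tl (e m))) = f ∨ M.rf (S.o k (M.tl (e m))) = f)) ∨
    (¬ M.Inc (M.tl (e k)) T ∧ M.hd (S.o m (M.tl (e k))) = M.tl (e m) ∧
      (M.lf (S.o m (M.tl (e k))) = f ∨ M.rf (S.o m (M.tl (e k))) = f)) ∨
    (M.Inc (M.tl (e m)) T ∧ M.Inc (M.tl (e k)) T) := by
  wlog q : k = m + 2 generalizing m k
  · have := this ne.symm (by clear * - ne q; revert m k; decide)
    tauto
  subst q
  obtain ⟨e1, e2, e3⟩ := he m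
  have hd : M.hd (e m) = M.tl (e (m + 2)) := by rw [← e3, PM.tl_nx]
  by_cases r : M.rf (e m) = T
  · exact Or.inr (Or.inr ⟨r ▸ M.inc_tl_rf _, hd ▸ r ▸ M.inc_hd_rf _⟩)
  rcases S.dart (e1 ▸ f0) r h.tri with ⟨i, j, q⟩ | ⟨i, j, q⟩
  · have := (S.o_lab j _ i).1
    rw [← q, e2] at this
    obtain rfl : j = m + 2 := by rw [this]; clear * -; revert j; decide
    exact Or.inl ⟨i, q ▸ hd, Or.inl (q ▸ e1)⟩
  · have := (S.lab_hd j i).1
    rw [← q, PM.rr, e2] at this
    subst this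
    rw [← hd, ← q]
    exact Or.inr (Or.inl ⟨i, by simp, Or.inr (by simpa)⟩)

lemma Chi.tri (h : Base M T a) (c : Chi S χ) {f : F} (f0 : f ≠ T) {e : Fin 3 → D}
    (he : ∀ m, M.lf (e m) = f ∧ S.lab (e m) = m ∧ M.nx (e m) = e (m + 2))
    (hb : ∀ b, M.lf b = f → b = e (S.lab b)) {g : F} (g0 : g ≠ T)
    (hg : ∀ m, χ (M.tl (e m)) g = m) : g = f := by
  by_contra n
  refine (h.dcon {g | g ≠ T ∧ g ≠ f ∧ ∀ m, χ (M.tl (e m)) g = m} (fun d ⟨y0, y1, y2⟩ => ?_)
    (f := g) ⟨g0, n, hg⟩ T).1 rfl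
  have r0 : M.rf d ≠ T := fun r => by
    obtain ⟨m, hm⟩ := out_rf h.tri r
    have k : ∀ k, k ≠ m + 2 → M.Inc (M.tl (a k)) f := fun k ne => by
      have i : M.Inc (M.tl (e k)) T := by
        by_contra i
        exact ne (by rw [← y2 k, hm, c.a3 _ _ i])
      obtain ⟨j, hj⟩ := (h.tri.all _).1 i
      obtain rfl : k = j := (he k).2.1.symm.trans (S.lab_t j _ hj.symm ((he k).1 ▸ f0))
      exact hj ▸ (he k).1 ▸ M.inc_tl_lf _
    rcases h.ef (a m) f (k m (by clear * -; revert m; decide))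
      (h.tri.hd m ▸ k _ (by clear * -; revert m; decide)) with q | q
    exacts [f0 (q.trans (h.tri.lf m)), y1 (hm.trans q.symm)]
  have A : ∀ b, M.lf b = M.lf d ∨ M.rf b = M.lf d → ∀ m k, ¬ S.Dp k (M.tl (e m)) b := by
    intro b hb m k q
    have v : ∀ m, S.Dp k (M.tl (e m)) b → m ≠ k := fun m q => by
      obtain ⟨b1, b2⟩ := c.a2 _ _ _ q
      rw [← y2 m]
      rcases hb with z | z <;> rw [← z]
      · rw [b1]; clear * -; revert k; decide
      · rw [b2]; clear * -; revert k; decide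
    rcases h.edge (S := S) f0 he (v m q) with ⟨i, j1, j2⟩ | ⟨i, j1, -⟩ | ⟨i, -⟩
    · rcases q.2.1.cases with z | ⟨-, z⟩
      · obtain ⟨b1, b2⟩ := c.a2 _ _ _ q
        have b3 := c.loc (d := e m) i (Sch.On.refl S k _) (Or.inl rfl)
        rw [(he m).1, (he m).2.1] at b3
        rw [← z, ← q.2.2] at j2
        have b4 := y2 m
        have : k + 1 ≠ k + 2 := by clear * -; revert k; decide
        rcases hb with z | z <;> rcases j2 with z' | z'
        · exact y1 (z.symm.trans z')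
        · exact this (by rw [← b1, ← b2, z, z', b3, b4])
        · exact this (by rw [← b1, ← b2, z, z', b3, b4])
        · exact y1 (z.symm.trans z')
      · exact v k ⟨q.1, by rwa [S.p_in k i, j1] at z, q.2.2⟩ rfl
    · obtain ⟨j, j2, j3⟩ : ∃ j, j ≠ m ∧ j ≠ k := by clear * -; revert m k; decide
      rcases c.n2 i (v m q).symm j2 j3 (j1 ▸ q) with o | o
      · exact v k o rfl
      · refine j3 ?_
        rw [← y2 k]
        rcases hb with z | z <;> rw [← z]
        exacts [o.1.symm, o.2.symm]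
    · exact q.1 ((q.2.1.cases.resolve_right fun z => z.1 i) ▸ i)
  have A1 := A d (Or.inl rfl)
  have A2 := A (M.rev d) (Or.inr (by simp))
  refine ⟨r0, fun r => ?_, fun m => (c.a1 _ d y0 r0 (A1 m) (A2 m)).symm.trans (y2 m)⟩
  have b := hb (M.rev d) r
  have b' := hb (M.nx (M.rev d)) (by simpa)
  rcases S.dart y0 r0 h.tri with ⟨i, j, q⟩ | ⟨i, j, q⟩
  · exact A1 (S.lab (M.nx (M.rev d))) j ⟨i, by rw [← b']; simpa using Sch.On.refl S _ _, q⟩
  · exact A2 (S.lab (M.rev d)) j ⟨i, by rw [← b]; exact Sch.On.refl S _ _, q⟩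

lemma Base.sperner (h : Base M T a) (μ : V → Fin 3) (hμ : ∀ j, μ (M.tl (a j)) = j) :
    ∃ d, M.lf d ≠ T ∧ μ (M.tl d) ≠ μ (M.hd d) ∧ μ (M.hd d) ≠ μ (M.hd (M.nx d)) ∧
      μ (M.hd (M.nx d)) ≠ μ (M.tl d) := by
  classical
  set s : Fin 3 → Fin 3 → ℤ := fun x y => if y = x + 1 then 1 else if x = y + 1 then -1 else 0 with hs
  set θ : D → ℤ := fun d => s (μ (M.tl d)) (μ (M.hd d)) with hθ
  have z : ∑ d, θ d = 0 := by
    have : ∑ d, θ d = - ∑ d, θ d := by
      rw [← sum_neg_distrib, ← M.sum_rev]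
      refine sum_congr rfl fun d _ => ?_
      simp only [hθ, hs, PM.tl_rev, PM.hd_rev]
      generalize μ (M.tl d) = x; generalize μ (M.hd d) = y; clear * -; revert x y; decide
    omega
  have z1 : ∑ d, θ (M.nx d) = 0 := (Equiv.sum_comp M.nxP θ).trans z
  have z2 : ∑ d, θ (M.nx (M.nx d)) = 0 := (Equiv.sum_comp M.nxP fun d => θ (M.nx d)).trans z1
  have o : ∀ d, M.lf d = T → θ d = 1 := fun d e => by
    obtain ⟨j, rfl⟩ := out_dart h.tri e
    simp [hθ, hs, h.tri.hd, hμ]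
  by_contra n
  push Not at n
  have : ∀ d, θ d + θ (M.nx d) + θ (M.nx (M.nx d)) = if M.lf d = T then 3 else 0 := fun d => by
    split_ifs with q
    · rw [o d q, o _ (by simpa), o _ (by simpa)]; rfl
    · have := n d q
      simp only [hθ, hs, PM.tl_nx, h.hd2]
      revert this
      generalize μ (M.tl d) = x; generalize μ (M.hd d) = y; generalize μ (M.hd (M.nx d)) = z
      clear * -; revert x y z; decide
  have p := sum_pos' (s := univ) (f := fun d => θ d + θ (M.nx d) + θ (M.nx (M.nx d)))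
    (fun d _ => by rw [this]; split_ifs <;> simp) ⟨a 0, mem_univ _, by simp [this, h.tri.lf]⟩
  rw [sum_add_distrib, sum_add_distrib, z, z1, z2] at p
  simp at p

theorem Chi.half (h : Base M T a) (c : Chi S χ) (R : Finset F) (hR : T ∉ R) :
    ∃ y : Fin 3 → V, ∀ f ∈ R, #{g ∈ R | ∀ k, χ (y k) g = χ (y k) f} ≤ 1 ∨
      2 * #{g ∈ R | ∀ k, χ (y k) g = χ (y k) f} ≤ #R := by
  classical
  by_contra n
  push Not at n
  have dj : ∀ A B : Finset F, A ⊆ R → B ⊆ R → #R < 2 * #A → #R < 2 * #B → ∃ g ∈ A, g ∈ B := by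
    intro A B a1 b1 a2 b2
    by_contra q
    push Not at q
    have := card_le_card (union_subset a1 b1)
    rw [card_union_of_disjoint (disjoint_left.2 q)] at this
    omega
  have : ∀ v, ∃ m, #R < 2 * #{g ∈ R | χ v g = m} := fun v => by
    obtain ⟨f, -, -, q⟩ := n fun _ => v
    exact ⟨χ v f, by simpa using q⟩
  choose μ hμ using this
  have μt : ∀ j, μ (M.tl (a j)) = j := fun j => by
    obtain ⟨g, g1, -⟩ := dj _ _ (filter_subset _ _) (filter_subset _ _) (hμ (M.tl (a j))) (hμ (M.tl (a j)))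
    exact (mem_filter.1 g1).2.symm.trans (c.a4 j g)
  have hd : ∀ i u, ¬ M.Inc u T → μ u ≠ μ (M.hd (S.o i u)) → μ (M.hd (S.o i u)) = i := by
    intro i u hu ne
    by_contra q
    obtain ⟨g, g1, g2⟩ := dj _ _ (filter_subset _ _) (filter_subset _ _) (hμ u) (hμ (M.hd (S.o i u)))
    rw [mem_filter] at g1 g2
    exact ne (g1.2.symm.trans (c.nest h hu q (fun e => hR (e ▸ g1.1)) g2.2))
  obtain ⟨d, d0, d1, d2, d3⟩ := h.sperner μ μt
  obtain ⟨e, he, hb⟩ := h.darts S d0
  have dist : ∀ b, M.lf b = M.lf d → μ (M.tl b) ≠ μ (M.hd b) := fun b q => by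
    rcases h.face q.symm with rfl | rfl | rfl
    · exact d1
    · simpa using d2
    · simpa [h.hd2] using d3
  have ne : ∀ m, μ (M.tl (e m)) ≠ μ (M.tl (e (m + 2))) := fun m => by
    rw [← (he m).2.2, PM.tl_nx]; exact dist _ (he m).1
  have out : ∀ m, M.Inc (M.tl (e m)) T → μ (M.tl (e m)) = m := fun m i => by
    obtain ⟨j, hj⟩ := (h.tri.all _).1 i
    rw [← hj, μt, ← S.lab_t j _ hj.symm ((he m).1 ▸ d0), (he m).2.1]
  have one : ∀ m, μ (M.tl (e m)) = m ∨ μ (M.tl (e (m + 2))) = m + 2 := fun m => by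
    rcases h.edge (S := S) d0 he (m := m) (k := m + 2) (by clear * -; revert m; decide) with
      ⟨i, j, -⟩ | ⟨i, j, -⟩ | ⟨i, -⟩
    · exact Or.inr (j ▸ hd _ _ i (j ▸ ne m))
    · exact Or.inl (j ▸ hd _ _ i (j ▸ (ne m).symm))
    · exact Or.inl (out m i)
  have all : ∀ m, μ (M.tl (e m)) = m := by
    revert ne one
    generalize (fun m => μ (M.tl (e m))) = z at *
    have : ∀ z : Fin 3 → Fin 3, (∀ m, z m ≠ z (m + 2)) → (∀ m, z m = m ∨ z (m + 2) = m + 2) →
        ∀ m, z m = m := by decide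
    exact this fun m => μ (M.tl (e m))
  obtain ⟨f, -, f1, f2⟩ := n fun m => M.tl (e m)
  refine absurd f1 (not_lt.2 (card_le_one.2 ?_))
  have : ∀ g ∈ ({g ∈ R | ∀ k, χ (M.tl (e k)) g = χ (M.tl (e k)) f} : Finset F), g = M.lf d := by
    intro g hg
    rw [mem_filter] at hg
    refine c.tri h d0 he hb (fun q => hR (q ▸ hg.1)) fun m => ?_
    obtain ⟨g', g1, g2⟩ := dj _ _ (filter_subset _ _) (filter_subset _ _) f2 (hμ (M.tl (e m)))
    rw [hg.2, ← (mem_filter.1 g1).2, (mem_filter.1 g2).2, all]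
  exact fun x hx y hy => (this x hx).trans (this y hy).symm

end Pool.Agent.Lib.MP_d5dfc1_co.Sp
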