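import Pool.Agent.Lib.MP_d5dfc1_co.QpEar

/-! Schnyder labellings of a triangulated sphere, by edge contraction. -/

namespace Pool.Agent.Lib.MP_d5dfc1_co.Sp

open Relation Finset QP

set_option linter.unusedSectionVars false

variable {V : Type} [Fintype V] [LinearOrder V]

/-- a face read from its corner of label `0` -/
structure Gf (L : V → V → Fin 3) (r : Fin 3 → V → ℝ) (u v w : V) : Prop where
  l0 : L u v = 0
  l2 : L v w = 2
  l1 : L w u = 1
  a0 : r 0 v < r 0 u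
  b0 : r 0 w < r 0 u
  a2 : r 2 w < r 2 v
  b2 : r 2 u < r 2 v
  a1 : r 1 u < r 1 w
  b1 : r 1 v < r 1 w

/-- labels, parents and orders; the outer face is `a b c` -/
structure VS (T : V → V → V → Prop) (a b c : V) (L : V → V → Fin 3) (par : Fin 3 → V → V)
    (r : Fin 3 → V → ℝ) : Prop where
  fc : ∀ u v w, T u v w → ¬ (u = a ∧ v = b) → ¬ (u = b ∧ v = c) → ¬ (u = c ∧ v = a) →
    Gf L r u v w ∨ Gf L r v w u ∨ Gf L r w u v
  la : ∀ y, adj T a y → y ≠ b → L a y = 0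
  lb : ∀ y, adj T b y → y ≠ c → L b y = 1
  lc : ∀ y, adj T c y → y ≠ a → L c y = 2
  oa : ∀ i w, vtx T w → w ≠ a → w ≠ b → w ≠ c → adj T w (par i w)
  ol : ∀ i w, vtx T w → w ≠ a → w ≠ b → w ≠ c →
    L w (par i w) = i + 1 ∧ ∀ y, T w y (par i w) → L w y = i + 2
  sg : ∀ w y y', w ≠ a → w ≠ b → w ≠ c → T w y' y → L w y' = L w y ∨ y = par (L w y + 2) w

variable {T : V → V → V → Prop} {a b c x p q : V}

lemma VS.base (ab : a ≠ b) (bc : b ≠ c) (ca : c ≠ a)
    (ne : ∀ u v w, T u v w → u ≠ v ∧ v ≠ w ∧ w ≠ u)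
    (h : ∀ u v w, T u v w → (u = a ∨ u = b ∨ u = c) ∧ (v = a ∨ v = b ∨ v = c) ∧
      (w = a ∨ w = b ∨ w = c)) : ∃ L par r, VS T a b c L par r := by
  have G : Gf (fun u _ => if u = a then 0 else if u = b then 1 else 2)
      (fun i u => if u = ![a, b, c] i then 1 else 0) a c b := by
    constructor <;> simp [ab, bc, ca, ab.symm, bc.symm, ca.symm]
  have nv : ∀ w, vtx T w → w ≠ a → w ≠ b → w ≠ c → False := by
    rintro w ⟨y, z, t⟩ n1 n2 n3
    have := (h _ _ _ t).1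
    tauto
  refine ⟨fun u _ => if u = a then 0 else if u = b then 1 else 2, fun _ u => u,
    fun i u => if u = ![a, b, c] i then 1 else 0, fun u v w t n1 n2 n3 => ?_, fun y _ _ => by simp,
    fun y _ _ => by simp [ab.symm], fun y _ _ => by simp [ca, bc.symm],
    fun i w k n1 n2 n3 => (nv w k n1 n2 n3).elim, fun i w k n1 n2 n3 => (nv w k n1 n2 n3).elim,
    fun w y y' n1 n2 n3 t => (nv w ⟨_, _, t⟩ n1 n2 n3).elim⟩
  obtain ⟨m1, m2, m3⟩ := ne _ _ _ t
  obtain ⟨k1, k2, k3⟩ := h _ _ _ t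
  rcases k1 with rfl | rfl | rfl <;> rcases k2 with rfl | rfl | rfl <;>
    rcases k3 with rfl | rfl | rfl <;> first | contradiction | tauto

lemma VS.key {L par r} (S : VS T a b c L par r) (ab : a ≠ b) (ca : c ≠ a) {v w : V}
    (t : T a v w) (n : v ≠ b) : Gf L r a v w := by
  have l := S.la v ⟨_, t⟩ n
  rcases S.fc a v w t (fun k => n k.2) (fun k => ab k.1) (fun k => ca k.1.symm) with g | g | g
  · exact g
  · exact absurd (l.symm.trans g.l1) (by decide)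
  · exact absurd (l.symm.trans g.l2) (by decide)

theorem VS.step (hT : Tri T) (o : T a b c) (hc : contr T x a) (xb : x ≠ b) (xc : x ≠ c)
    {L' par' r'} (S : VS (con T x a) a b c L' par' r') : ∃ L par r, VS T a b c L par r := by
  classical
  obtain ⟨p, hp⟩ := hc.1
  obtain ⟨q, hq⟩ := hT.pred hc.1
  have ab := hT.ne o
  have bc := hT.ne2 o
  have ca := hT.ne3 o
  have xa := hT.ne hp
  have ap := hT.ne2 hp
  have px := hT.ne3 hp
  have xq := hT.ne hq
  have qa := hT.ne2 hq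
  have pq : p ≠ q := by rintro rfl; exact hT.asym hp hq
  have pb : p ≠ b := by rintro rfl; exact xc (hT.uniq (hT.rot hp) o)
  have qc : q ≠ c := by rintro rfl; exact xb (hT.uniq2 (hT.rot2 hq) o)
  have com : ∀ w, adj T x w → adj T a w → w = p ∨ w = q := fun w h1 h2 =>
    (hc.2 w h1 h2).imp (fun k => hT.uniq k hp) fun k => hT.uniq2 k hq
  -- fan faces
  have fan : ∀ v w, T x v w → v ≠ a → w ≠ a → Gf L' r' a v w := fun v w t n1 n2 =>
    S.key ab ca (hT.con_v t n1 n2) (by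
      rintro rfl
      rcases com v ⟨_, t⟩ ⟨_, o⟩ with k | k
      · exact pb k.symm
      · exact n2 (hT.uniq t (k ▸ hq)))
  have nq : ∀ v, adj T x v → v ≠ a → v ≠ q → ∃ w, T x v w ∧ w ≠ a := fun v ⟨w, t⟩ _ n =>
    ⟨w, t, by rintro rfl; exact n (hT.uniq2 t hq)⟩
  have np : ∀ v, adj T x v → v ≠ a → v ≠ p → ∃ w, T x w v ∧ w ≠ a := fun v h _ n => by
    obtain ⟨w, t⟩ := hT.pred h
    exact ⟨w, t, by rintro rfl; exact n (hT.uniq t hp)⟩
  have arc := fun v (h : adj T x v) (n : v ≠ a) =>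
    hT.arc hp hq (R := fun y z => r' 1 y < r' 1 z ∧ r' 2 z < r' 2 y)
      (fun y z t n1 n2 => ⟨(fan y z t n1 n2).b1, (fan y z t n1 n2).a2⟩) h n
  have mono : ∀ {y z}, ReflTransGen (fun y z => r' 1 y < r' 1 z ∧ r' 2 z < r' 2 y) y z →
      y ≠ z → r' 1 y < r' 1 z ∧ r' 2 z < r' 2 y := fun {y z} h => by
    induction h with
    | refl => exact fun n => absurd rfl n
    | @tail u w _ s ih =>
      intro _
      by_cases e : y = u
      · exact e ▸ s
      · exact ⟨(ih e).1.trans s.1, s.2.trans (ih e).2⟩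
  obtain ⟨c0, h0, h0'⟩ : ∃ c0, (∀ v, adj T x v → v ≠ a → r' 0 v < c0) ∧ c0 < r' 0 a := by
    obtain ⟨c0, k1, k2⟩ := Set.Finite.exists_between'
      ((Set.toFinite {v | adj T x v ∧ v ≠ a}).image (r' 0)) (Set.finite_singleton (r' 0 a)) (by
        rintro _ ⟨v, ⟨h, n⟩, rfl⟩ _ rfl
        by_cases e : v = q
        · obtain ⟨w, t, m⟩ := np v h n (e ▸ pq.symm)
          exact (fan _ _ t m n).b0
        · obtain ⟨w, t, m⟩ := nq v h n e
          exact (fan _ _ t n m).a0)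
    exact ⟨c0, fun v h n => k1 _ ⟨v, ⟨h, n⟩, rfl⟩, k2 _ rfl⟩
  obtain ⟨c1, h1a, h1p, h1⟩ : ∃ c1, r' 1 a < c1 ∧ r' 1 p < c1 ∧
      ∀ v, adj T x v → v ≠ a → v ≠ p → c1 < r' 1 v := by
    obtain ⟨c0, k1, k2⟩ := Set.Finite.exists_between' (Set.toFinite {r' 1 a, r' 1 p})
      ((Set.toFinite {v | adj T x v ∧ v ≠ a ∧ v ≠ p}).image (r' 1)) (by
        rintro _ (rfl | rfl) _ ⟨v, ⟨h, n, m⟩, rfl⟩
        · obtain ⟨w, t, m⟩ := np v h n m
          exact (fan _ _ t m n).a1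
        · exact (mono (arc v h n).1 m.symm).1)
    exact ⟨c0, k1 _ (Or.inl rfl), k1 _ (Or.inr rfl), fun v h n m => k2 _ ⟨v, ⟨h, n, m⟩, rfl⟩⟩
  obtain ⟨c2, h2a, h2q, h2⟩ : ∃ c2, r' 2 a < c2 ∧ r' 2 q < c2 ∧
      ∀ v, adj T x v → v ≠ a → v ≠ q → c2 < r' 2 v := by
    obtain ⟨c0, k1, k2⟩ := Set.Finite.exists_between' (Set.toFinite {r' 2 a, r' 2 q})
      ((Set.toFinite {v | adj T x v ∧ v ≠ a ∧ v ≠ q}).image (r' 2)) (by
        rintro _ (rfl | rfl) _ ⟨v, ⟨h, n, m⟩, rfl⟩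
        · obtain ⟨w, t, m⟩ := nq v h n m
          exact (fan _ _ t n m).b2
        · exact (mono (arc v h n).2 m).2)
    exact ⟨c0, k1 _ (Or.inl rfl), k1 _ (Or.inr rfl), fun v h n m => k2 _ ⟨v, ⟨h, n, m⟩, rfl⟩⟩
  obtain ⟨z1, t1, z1a⟩ := nq p (hT.adj13 hp) ap.symm pq
  obtain ⟨z2, t2, z2a⟩ := np q ⟨_, hq⟩ qa pq.symm
  have g1 := fan _ _ t1 ap.symm z1a
  have g2 := fan _ _ t2 z2a qa
  -- new data
  obtain ⟨L, Lxa, Lxq, Lx, Lax, Lpx, Lux, Lo⟩ : ∃ L : V → V → Fin 3, L x a = 1 ∧ L x q = 2 ∧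
      (∀ v, v ≠ a → v ≠ q → L x v = 0) ∧ L a x = 0 ∧ L p x = 2 ∧
      (∀ u, u ≠ x → u ≠ a → u ≠ p → L u x = L' u a) ∧ ∀ u v, u ≠ x → v ≠ x → L u v = L' u v :=
    ⟨fun u v => if u = x then (if v = a then 1 else if v = q then 2 else 0) else
      if v = x then (if u = a then 0 else if u = p then 2 else L' u a) else L' u v,
      by simp, by simp [qa], fun v n m => by simp [n, m], by simp [xa.symm],
      by simp [px, ap.symm], fun u n m k => by simp [n, m, k], fun u v n m => by simp [n, m]⟩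
  obtain ⟨r, r0, r1, r2, ro⟩ : ∃ r : Fin 3 → V → ℝ, r 0 x = c0 ∧ r 1 x = c1 ∧ r 2 x = c2 ∧
      ∀ i u, u ≠ x → r i u = r' i u :=
    ⟨fun i u => if u = x then ![c0, c1, c2] i else r' i u, by simp, by simp, by simp,
      fun i u n => by simp [n]⟩
  obtain ⟨par, p0, p1, p2, px1, px2⟩ : ∃ par : Fin 3 → V → V, par 0 x = a ∧ par 1 x = q ∧
      par 2 x = p ∧ (∀ i w, w ≠ x → par' i w = a → ¬ adj T w a → par i w = x) ∧
      ∀ i w, w ≠ x → (par' i w = a → adj T w a) → par i w = par' i w :=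
    ⟨fun i w => if w = x then ![a, q, p] i else if par' i w = a ∧ ¬ adj T w a then x else par' i w,
      by simp, by simp, by simp, fun i w n m k => by simp [n, m, k], fun i w n m => by
        simp only [if_neg n]; exact if_neg fun k => k.2 (m k.1)⟩
  have Lpr : ∀ u v, u ≠ x → u ≠ a → ¬ (u = p ∧ v = x) → L u v = L' u (pr x a v) :=
    fun u v n1 n2 n3 => by
      by_cases e : v = x
      · rw [e, pr_v, Lux u n1 n2 fun k => n3 ⟨k, e⟩]
      · rw [pr_ne e, Lo u v n1 e]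
  have Gp : Gf L r a p x := by
    constructor <;>
      simp only [Lxa, Lpx, r0, r1, r2, Lo _ _ xa.symm px, ro _ _ xa.symm, ro _ _ px]
    exacts [g1.l0, g1.a0, h0', h2 p (hT.adj13 hp) ap.symm pq, g1.b2, h1a, h1p]
  have Gq : Gf L r a x q := by
    constructor <;>
      simp only [Lax, Lxq, r0, r1, r2, Lo _ _ xq.symm xa.symm, ro _ _ xa.symm, ro _ _ xq.symm]
    exacts [g2.l1, h0', g2.b0, h2q, h2a, g2.a1, h1 q ⟨_, hq⟩ qa pq.symm]
  have Gx : ∀ v w, T x v w → Gf L r x v w ∨ Gf L r v w x ∨ Gf L r w x v := fun v w t => by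
    by_cases e1 : v = a
    · subst e1; rw [hT.uniq t hp]; exact Or.inr (Or.inl Gp)
    by_cases e2 : w = a
    · subst e2; rw [hT.uniq2 t hq]; exact Or.inr (Or.inr Gq)
    have g := fan v w t e1 e2
    have vx := (hT.ne t).symm
    have wx := hT.ne3 t
    have vq : v ≠ q := by rintro rfl; exact e2 (hT.uniq t hq)
    have wp : w ≠ p := by rintro rfl; exact e1 (hT.uniq2 t hp)
    left
    constructor <;> simp only [Lx v e1 vq, Lux w wx e2 wp, Lo _ _ vx wx, r0, r1, r2, ro _ _ vx,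
      ro _ _ wx]
    exacts [g.l2, g.l1, h0 v ⟨_, t⟩ e1, h0 w (hT.adj13 t) e2, g.a2, h2 v ⟨_, t⟩ e1 vq,
      h1 w (hT.adj13 t) e2 wp, g.b1]
  have Go : ∀ u v w, u ≠ x → v ≠ x → w ≠ x → Gf L' r' u v w → Gf L r u v w :=
    fun u v w n1 n2 n3 g => by
      constructor <;> simp only [Lo _ _ n1 n2, Lo _ _ n2 n3, Lo _ _ n3 n1, ro _ _ n1, ro _ _ n2,
        ro _ _ n3]
      exacts [g.l0, g.l2, g.l1, g.a0, g.b0, g.a2, g.b2, g.a1, g.b1]
  have cadj : ∀ u v, adj T u v → u ≠ x → u ≠ a → adj (con T x a) u (pr x a v) :=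
    fun u v h n1 n2 => by
      have := hT.con_adj (v := x) (a := a) h (by
        rw [pr_ne n1]; exact fun e => hT.adj_ne h (pr_eq_ne e.symm n2).symm)
      rwa [pr_ne n1] at this
  have cT : ∀ w y z, T w y z → w ≠ x → w ≠ a → pr x a y ≠ pr x a z →
      con T x a w (pr x a y) (pr x a z) := fun w y z t n1 n2 n3 => by
    have := con_of (v := x) (a := a) t
      (by rw [pr_ne n1]; exact fun e => hT.ne t (pr_eq_ne e.symm n2).symm) n3
      (by rw [pr_ne n1]; exact fun e => hT.ne3 t (pr_eq_ne e n2))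
    rwa [pr_ne n1] at this
  have lift : ∀ i w, vtx T w → w ≠ x → w ≠ a → w ≠ b → w ≠ c →
      adj T w (par i w) ∧ pr x a (par i w) = par' i w ∧ (par i w = x → ¬ adj T w a) :=
    fun i w h n0 n1 n2 n3 => by
      obtain ⟨-, w0, y0, k, e1, e2⟩ :=
        Tri.con_lift (S.oa i w ((hT.con_vtx hc.1).2 ⟨h, n0⟩) n1 n2 n3)
      obtain rfl := pr_eq_ne e1 n1
      have nx : par' i w0 ≠ x := e2 ▸ pr_ne_v xa _
      by_cases e : par' i w0 = a → adj T w0 a
      · rw [px2 i w0 n0 e]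
        refine ⟨?_, pr_ne nx, fun k => absurd k nx⟩
        by_cases e' : par' i w0 = a
        · exact e' ▸ e e'
        · exact pr_eq_ne e2 e' ▸ k
      · push Not at e
        rw [px1 i w0 n0 e.1 e.2, pr_v]
        refine ⟨?_, e.1.symm, fun _ => e.2⟩
        rcases pr_eq_a (e2.trans e.1) with rfl | rfl
        exacts [k, absurd k e.2]
  have pa : adj T p a := hT.symm (hT.adj23 hp)
  have qa' : adj T q a := hT.adj23 hq
  have t1' : con T x a p z1 a := hT.con_rot (hT.con_v t1 ap.symm z1a)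
  refine ⟨L, par, r, fun u v w t n1 n2 n3 => ?_, fun y h n => ?_, fun y h n => ?_,
    fun y h n => ?_, fun i w h n1 n2 n3 => ?_, fun i w h n1 n2 n3 => ?_,
    fun w y y' n1 n2 n3 t => ?_⟩
  · by_cases e1 : u = x
    · subst e1; exact Gx _ _ t
    by_cases e2 : v = x
    · subst e2; have := Gx _ _ (hT.rot t); tauto
    by_cases e3 : w = x
    · subst e3; have := Gx _ _ (hT.rot2 t); tauto
    exact (S.fc u v w (hT.con_id t e1 e2 e3) n1 n2 n3).imp (Go _ _ _ e1 e2 e3)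
      (Or.imp (Go _ _ _ e2 e3 e1) (Go _ _ _ e3 e1 e2))
  · by_cases e : y = x
    · rw [e, Lax]
    · have := hT.con_adj (v := x) (a := a) h (by rw [pr_a, pr_ne e]; exact hT.adj_ne h)
      rw [pr_a, pr_ne e] at this
      rw [Lo _ _ xa.symm e, S.la y this n]
  · rw [Lpr _ _ xb.symm ab.symm fun k => pb k.1.symm]
    exact S.lb _ (cadj _ _ h xb.symm ab.symm) fun e => n (pr_eq_ne e ca)
  · by_cases e : c = p ∧ y = x
    · rw [e.1, e.2, Lpx]
    · rw [Lpr _ _ xc.symm ca e]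
      refine S.lc _ (cadj _ _ h xc.symm ca) fun k => ?_
      obtain rfl := (pr_eq_a k).resolve_right n
      rcases com c (hT.symm h) (hT.adj13 o) with k | k
      exacts [e ⟨k, rfl⟩, qc k.symm]
  · by_cases e : w = x
    · subst e
      fin_cases i
      exacts [p0 ▸ hc.1, p1 ▸ ⟨_, hq⟩, p2 ▸ hT.adj13 hp]
    · exact (lift i w h e n1 n2 n3).1
  · by_cases e : w = x
    · subst e
      obtain rfl | rfl | rfl : i = 0 ∨ i = 1 ∨ i = 2 := by clear * -; revert i; decide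
      · rw [p0]; exact ⟨Lxa, fun y t => hT.uniq2 t hq ▸ Lxq⟩
      · rw [p1]
        exact ⟨Lxq, fun y t => Lx y (by rintro rfl; exact pq (hT.uniq hp t)) (hT.ne2 t)⟩
      · rw [p2]; exact ⟨Lx p ap.symm pq, fun y t => hT.uniq2 t hp ▸ Lxa⟩
    obtain ⟨k1, k2, k3⟩ := lift i w h e n1 n2 n3
    obtain ⟨o1, o2⟩ := S.ol i w ((hT.con_vtx hc.1).2 ⟨h, e⟩) n1 n2 n3
    refine ⟨by rw [Lpr _ _ e n1 fun k => k3 k.2 (k.1 ▸ pa), k2, o1], fun y t => ?_⟩
    by_cases m : pr x a y = pr x a (par i w)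
    · rcases pr_eq m with k | ⟨rfl, k⟩ | ⟨rfl, k⟩
      · exact absurd k (hT.ne2 t)
      · rw [k] at t
        obtain rfl := hT.uniq (hT.rot t) hp
        rw [k, pr_a] at k2
        rw [Lpx, ← o2 z1 (k2 ▸ t1'), g1.l2]
      · exact absurd ⟨_, t⟩ (k3 k)
    · have := cT _ _ _ t e n1 m
      rw [k2] at this
      rw [Lpr _ _ e n1, o2 _ this]
      rintro ⟨rfl, rfl⟩
      exact m (by rw [hT.uniq t (hT.rot2 hp), pr_a, pr_v])
  · by_cases e : w = x
    · subst e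
      by_cases e0 : y = a
      · right; rw [e0, Lxa]; exact p0.symm
      by_cases e1 : y = q
      · right; rw [e1, Lxq]; exact p1.symm
      rw [Lx y e0 e1]
      by_cases e2 : y = p
      · right; rw [e2]; exact p2.symm
      · exact Or.inl (Lx y' (by rintro rfl; exact e2 (hT.uniq t hp))
          (by rintro rfl; exact e0 (hT.uniq t hq)))
    by_cases m : pr x a y' = pr x a y
    · rcases pr_eq m with k | ⟨rfl, rfl⟩ | ⟨rfl, rfl⟩
      · exact absurd k (hT.ne2 t)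
      · obtain rfl := hT.uniq (hT.rot t) hp
        rw [Lpx, Lo _ _ e xa.symm]
        refine (S.sg w y z1 n1 n2 n3 t1').imp (fun k => g1.l2.symm.trans k) fun k => ?_
        rw [px2 _ _ e fun _ => pa]; exact k
      · obtain rfl := hT.uniq2 (hT.rot2 t) hq
        exact Or.inl (by rw [Lo _ _ e xa.symm, Lux _ e n1 pq.symm])
    have m1 : ¬ (w = p ∧ y' = x) := by
      rintro ⟨rfl, rfl⟩
      exact m (by rw [hT.uniq t (hT.rot2 hp), pr_a, pr_v])
    by_cases m2 : w = p ∧ y = x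
    · obtain ⟨rfl, rfl⟩ := m2
      obtain rfl := hT.uniq (hT.rot2 t) t1
      exact Or.inl (by rw [Lpx, Lo _ _ e (hT.ne2 t), g1.l2])
    rw [Lpr _ _ e n1 m1, Lpr _ _ e n1 m2]
    refine (S.sg _ _ _ n1 n2 n3 (cT _ _ _ t e n1 m)).imp id fun k => ?_
    obtain ⟨k1, k2, k3⟩ := lift (L' w (pr x a y) + 2) w (hT.vtx1 t) e n1 n2 n3
    rcases pr_eq (k.trans k2.symm) with j | ⟨rfl, j⟩ | ⟨rfl, j⟩
    · exact j
    · rcases com w ⟨_, hT.rot2 t⟩ (hT.symm (j ▸ k1)) with rfl | rfl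
      · exact absurd ⟨rfl, rfl⟩ m2
      · exact absurd (by rw [hT.uniq (hT.rot2 t) hq, pr_a, pr_v]) m
    · exact absurd (hT.adj13 t) (k3 j)

theorem exVS (n : ℕ) : ∀ T : V → V → V → Prop, Tri T → (verts T).card ≤ n → T a b c →
    ∃ L par r, VS T a b c L par r := by
  induction n with
  | zero =>
    intro T hT hn o
    exact absurd (card_pos.2 ⟨a, mem_verts.2 (hT.vtx1 o)⟩) (by omega)
  | succ n ih =>
    intro T hT hn o
    obtain ⟨y, d, y0, C⟩ := hT.cyc (hT.adj13 o)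
    obtain ⟨j, -, j2, e⟩ := C.all b ⟨_, o⟩ 0
    have n0 : j ≠ 0 := by rintro rfl; exact hT.ne2 o (e.trans y0)
    have n1 : j ≠ 1 := by rintro rfl; exact hT.asym o (y0 ▸ e ▸ C.st 0)
    obtain ⟨k, k1, k2, hc⟩ := hT.ear C _ 0 j le_rfl (by omega) j2
      (y0 ▸ e ▸ hT.symm (hT.adj23 o))
    have xb : y k ≠ b := e ▸ C.inj k j k2 (by omega)
    have xc : y k ≠ c := y0 ▸ (C.inj 0 k k1 (by omega)).symm
    have xa : y k ≠ a := (hT.adj_ne hc.1).symm
    have hc' : contr T (y k) a := ⟨hT.symm hc.1, fun z h1 h2 =>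
      (hc.2 z h2 h1).symm.imp (fun t => hT.rot2 t) fun t => hT.rot t⟩
    have : ∃ L par r, VS (con T (y k) a) a b c L par r := by
      by_cases h5 : 5 ≤ (verts T).card
      · refine ih _ (hT.con_tri hc' h5) ?_ (hT.con_id o xa.symm xb.symm xc.symm)
        rw [hT.con_verts hc'.1, card_erase_of_mem (mem_verts.2 ⟨_, hc'.1⟩)]
        omega
      · have sub : ({a, b, c} : Finset V) = verts (con T (y k) a) := by
          refine eq_of_subset_of_card_le ?_ ?_
          · simp [insert_subset_iff, hT.con_vtx hc'.1, hT.vtx1 o, hT.vtx2 o, hT.vtx3 o, xa.symm,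
              xb.symm, xc.symm]
          · rw [hT.con_verts hc'.1, card_erase_of_mem (mem_verts.2 ⟨_, hc'.1⟩),
              card_eq_three.2 ⟨a, b, c, hT.ne o, (hT.ne3 o).symm, hT.ne2 o, rfl⟩]
            omega
        have mem : ∀ u v w, con T (y k) a u v w → u = a ∨ u = b ∨ u = c := fun u v w t => by
          have : u ∈ ({a, b, c} : Finset V) := sub ▸ mem_verts.2 ⟨v, w, t⟩
          simpa using this
        exact VS.base (hT.ne o) (hT.ne2 o) (hT.ne3 o) (fun u v w t => ⟨t.1, t.2.1, t.2.2.1⟩)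
          fun u v w t => ⟨mem _ _ _ t, mem _ _ _ (hT.con_rot t),
            mem _ _ _ (hT.con_rot (hT.con_rot t))⟩
    obtain ⟨L, par, r, S⟩ := this
    exact S.step hT o hc' xb xc

end Pool.Agent.Lib.MP_d5dfc1_co.Sp
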