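import Pool.Agent.Lib.MP_d5dfc1_co.SpDef
import Pool.Agent.Lib.MP_d5dfc1_co.SpVS

/-! Existence of a Schnyder wood. -/

namespace Pool.Agent.Lib.MP_d5dfc1_co.Sp

open Finset Ex Relation

set_option linter.unusedSectionVars false

variable {V F D : Type} [Fintype D] [DecidableEq V] [Fintype V] {M : PM V F D} {T : F}
  {a : Fin 3 → D}

/-- the dual map -/
def Base.dual (h : Base M T a) : PM F V D where
  rev := M.rev
  tl := M.lf
  lf := M.tl
  sg := M.nxP
  rev_rev := M.rev_rev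
  tl_sg := fun d => by simp
  lf_sg := fun d => by simp
  vtr := M.ftr
  ftr := fun d e t => by simpa [nx_rev] using M.vtr d e t
  uniq := fun d e h1 h2 => M.uniq d e h2 h1
  simple := fun _ _ h1 h2 => M.uniq_lr h1 h2
  tl_surj := M.lf_surj
  lf_surj := M.tl_surj
  noloop := M.sides
  sides := M.noloop
  two := fun d b c e h1 h2 => h.ef d _ ⟨b, h1, rfl⟩ ⟨c, h2, e.symm⟩

lemma Base.euler (h : Base M T a) : Fintype.card D + 12 ≤ 6 * Fintype.card V := by
  classical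
  have : Finite F := Finite.of_surjective M.lf M.lf_surj
  have := Fintype.ofFinite F
  have : Nonempty F := ⟨T⟩
  have e := Ex.euler (M := h.dual) fun θ h1 h2 => h.dex θ h1 h2
  have : 3 * (univ : Finset F).card ≤ (univ : Finset D).card :=
    mul_card_image_le_card_of_maps_to (f := M.lf) (fun _ _ => mem_univ _) 3 fun f _ => by
      obtain ⟨d, rfl⟩ := M.lf_surj f
      have n : M.nx (M.nx d) ≠ d := fun e => M.nx_ne d (by have := h.n3 d; rwa [e] at this)
      refine le_trans (le_of_eq ?_) (card_le_card (s := {d, M.nx d, M.nx (M.nx d)})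
        (by simp [insert_subset_iff]))
      exact (card_eq_three.2 ⟨_, _, _, (M.nx_ne d).symm, n.symm, (M.nx_ne _).symm, rfl⟩).symm
  rw [card_univ, card_univ] at this
  omega

/-- the faces as vertex triples -/
def TT (M : PM V F D) (x y z : V) : Prop :=
  ∃ d, M.tl d = x ∧ M.hd d = y ∧ M.hd (M.nx d) = z

lemma TT_of (d : D) : TT M (M.tl d) (M.hd d) (M.hd (M.nx d)) := ⟨d, rfl, rfl, rfl⟩

lemma TT_adj (d : D) : QP.adj (TT M) (M.tl d) (M.hd d) := ⟨_, TT_of d⟩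

lemma TT_vtx (x : V) : QP.vtx (TT M) x := by
  obtain ⟨d, rfl⟩ := M.tl_surj x
  exact ⟨_, TT_adj d⟩

lemma Base.TT_sg (h : Base M T a) (d : D) : TT M (M.tl d) (M.hd (M.sg d)) (M.hd d) :=
  ⟨M.sg d, by simp, rfl, h.hd_nx_sg d⟩

lemma Base.qtri (h : Base M T a) : QP.Tri (TT M) where
  rot := by
    rintro _ _ _ ⟨d, rfl, rfl, rfl⟩
    exact ⟨M.nx d, by simp, rfl, h.hd2 d⟩
  ne := by
    rintro _ _ _ ⟨d, rfl, rfl, rfl⟩
    exact (M.hd_ne d).symm
  uniq := by
    rintro _ _ _ _ ⟨d, rfl, rfl, rfl⟩ ⟨e, h1, h2, rfl⟩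
    rw [M.simple' h1 h2]
  opp := by
    rintro _ _ _ ⟨d, rfl, rfl, rfl⟩
    simpa using TT_adj (M := M) (M.rev d)
  asym := by
    rintro _ _ _ ⟨d, rfl, rfl, rfl⟩ ⟨e, h1, h2, h3⟩
    have n : M.hd (M.nx d) ≠ M.hd d := by simpa using M.hd_ne (M.nx d)
    rcases h.ef d (M.lf e) (h1 ▸ M.inc_tl_lf e) (by simpa [h3] using M.inc_hd_lf (M.nx e))
      with k | k
    · exact n (by rw [← h2, M.uniq _ _ h1 k])
    · rcases M.two' d (x := M.hd (M.nx d)) (by simpa using M.inc_hd_lf (M.nx d))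
        (h2 ▸ k ▸ M.inc_hd_lf e) with j | j
      exacts [M.hd_nx_ne d j, n j]
  link := by
    rintro _ _ _ ⟨_, d, rfl, rfl, rfl⟩ ⟨_, e, h1, rfl, rfl⟩
    exact (M.v_ind (P := fun b => M.tl b = M.tl d ∧ ReflTransGen (TT M (M.tl d)) (M.hd b) (M.hd e))
      (fun b k => ⟨by simpa using k.1, k.2.head (k.1 ▸ h.TT_sg b)⟩) ⟨h1, .refl⟩ h1).2
  conn := fun {x y} _ _ => h.con.all {y | ReflTransGen (QP.adj (TT M)) x y}
    (fun d k => ReflTransGen.tail k (TT_adj d)) (u := x) .refl y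
  euler := by
    have e : QP.verts (TT M) = univ := eq_univ_of_forall fun x => QP.mem_verts.2 (TT_vtx x)
    have : QP.darts (TT M) ⊆ univ.image fun d => (M.tl d, M.hd d) := by
      rintro ⟨x, y⟩ k
      obtain ⟨_, d, h1, h2, -⟩ := QP.mem_darts.1 k
      exact mem_image.2 ⟨d, mem_univ _, Prod.ext h1 h2⟩
    have := (card_le_card this).trans card_image_le
    have := h.euler
    rw [e, card_univ] at *
    omega

theorem exSch (h : Base M T a) : Nonempty (Sch M T a) := by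
  classical
  have o : TT M (M.tl (a 0)) (M.tl (a 1)) (M.tl (a 2)) :=
    ⟨a 0, rfl, h.tri.hd 0, by
      rw [M.uniq (M.nx (a 0)) (a 1) (by simpa using h.tri.hd 0) (by simp [h.tri.lf])]
      exact h.tri.hd 1⟩
  obtain ⟨L, par, r, S⟩ := by
    letI : LinearOrder V := LinearOrder.lift' (Fintype.equivFin V) (Equiv.injective _)
    exact exVS _ _ h.qtri le_rfl o
  have nin : ∀ d j, M.lf d ≠ T → ¬ (M.tl d = M.tl (a j) ∧ M.hd d = M.tl (a (j + 1))) :=
    fun d j n k => n (by rw [M.simple' k.1 (k.2.trans (h.tri.hd j).symm), h.tri.lf])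
  have fc := fun d (n : M.lf d ≠ T) => S.fc _ _ _ (TT_of d) (nin d 0 n) (nin d 1 n) (nin d 2 n)
  have lnx : ∀ d, M.lf d ≠ T → L (M.hd d) (M.hd (M.nx d)) = L (M.tl d) (M.hd d) + 2 := fun d n => by
    rcases fc d n with g | g | g
    · rw [g.l0, g.l2]; rfl
    · rw [g.l0, g.l1]; rfl
    · rw [g.l1, g.l2]; rfl
  have mx : ∀ d i, M.lf d ≠ T → L (M.tl d) (M.hd d) = i →
      r i (M.hd d) < r i (M.tl d) ∧ r i (M.hd (M.nx d)) < r i (M.tl d) := fun d i n e => by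
    rcases fc d n with g | g | g
    · rw [← e, g.l0]; exact ⟨g.a0, g.b0⟩
    · rw [← e, g.l1]; exact ⟨g.a1, g.b1⟩
    · rw [← e, g.l2]; exact ⟨g.a2, g.b2⟩
  have nr : ∀ x j, ¬ M.Inc x T → x ≠ M.tl (a j) := fun x j n e => n ((h.tri.all x).2 ⟨j, e.symm⟩)
  have : ∀ i x, ∃ d, ¬ M.Inc x T → M.tl d = x ∧ M.hd d = par i x := fun i x => by
    by_cases n : M.Inc x T
    · exact ⟨a 0, fun k => absurd n k⟩
    · obtain ⟨_, d, h1, h2, -⟩ := S.oa i x (TT_vtx x) (nr x 0 n) (nr x 1 n) (nr x 2 n)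
      exact ⟨d, fun _ => ⟨h1, h2⟩⟩
  choose ob hob using this
  have ol : ∀ i x, ¬ M.Inc x T → L (M.tl (ob i x)) (M.hd (ob i x)) = i + 1 ∧
      L (M.tl (M.sg (ob i x))) (M.hd (M.sg (ob i x))) = i + 2 := fun i x n => by
    obtain ⟨k1, k2⟩ := S.ol i x (TT_vtx x) (nr x 0 n) (nr x 1 n) (nr x 2 n)
    have t := h.TT_sg (ob i x)
    rw [PM.tl_sg']
    rw [(hob i x n).1, (hob i x n).2] at *
    exact ⟨k1, k2 _ t⟩
  refine ⟨⟨fun d => L (M.tl d) (M.hd d), ob, r, fun d n => by simpa using lnx d n,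
    fun j d e n => ?_, fun i x n => (hob i x n).1, ol, fun d n => ?_, fun i x n => ?_,
    fun i j x n ne => ?_⟩⟩
  · have k := TT_adj (M := M) d
    have m : M.hd d ≠ M.tl (a (j + 1)) := fun q => nin d j n ⟨e, q⟩
    rw [e] at k ⊢
    obtain rfl | rfl | rfl : j = 0 ∨ j = 1 ∨ j = 2 := by clear * -; revert j; decide
    exacts [S.la _ k m, S.lb _ k m, S.lc _ k m]
  · refine (S.sg _ _ _ (nr _ 0 n) (nr _ 1 n) (nr _ 2 n) (h.TT_sg d)).imp (by simp) fun k => ?_
    exact M.simple' (hob _ _ n).1.symm (k.trans (hob _ _ n).2.symm)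
  · have f : M.lf (ob i x) ≠ T := inn_lf (by rwa [(hob i x n).1])
    have := (mx (M.nx (ob i x)) i (by simpa using f) (by
      rw [PM.tl_nx, lnx _ f, (ol i x n).1]; clear * -; revert i; decide)).2
    rwa [h.hd2, PM.tl_nx, (hob i x n).1] at this
  · obtain rfl | rfl : j = i + 1 ∨ j = i + 2 := by clear * - ne; revert i j; decide
    · have := (mx _ _ (inn_lf (by rwa [(hob i x n).1])) (ol i x n).1).1
      rwa [(hob i x n).1] at this
    · have := (mx _ _ (inn_lf (by rwa [PM.tl_sg', (hob i x n).1])) (ol i x n).2).2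
      rwa [h.hd_nx_sg, PM.tl_sg', (hob i x n).1] at this

end Pool.Agent.Lib.MP_d5dfc1_co.Sp
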