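import Mathlib

/-! Integer normals with coprime determinants: the sieve step. -/

namespace Pool.Agent.Lib.MP_d5dfc1_co.Sq

open Finset

abbrev Z3 := Fin 3 → ℤ

def zd (x y : Z3) : ℤ := x 0 * y 0 + x 1 * y 1 + x 2 * y 2
def zc (x y : Z3) : Z3 := ![x 1 * y 2 - x 2 * y 1, x 2 * y 0 - x 0 * y 2, x 0 * y 1 - x 1 * y 0]

lemma zc0 (x y : Z3) : zc x y 0 = x 1 * y 2 - x 2 * y 1 := rfl
lemma zc1 (x y : Z3) : zc x y 1 = x 2 * y 0 - x 0 * y 2 := rfl
lemma zc2 (x y : Z3) : zc x y 2 = x 0 * y 1 - x 1 * y 0 := rfl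

/-- greedy construction along an order -/
lemma greedy {ι X : Type} [Finite ι] [DecidableEq ι] [Nonempty X] (rk : ι → ℕ)
    (inj : Function.Injective rk) (R : ι → (ι → X) → Prop)
    (loc : ∀ i f g, (∀ j, rk j ≤ rk i → f j = g j) → R i f → R i g)
    (step : ∀ i f, (∀ j, rk j < rk i → R j f) → ∃ x, R i (Function.update f i x)) :
    ∃ f, ∀ i, R i f := by
  have key : ∀ r, ∃ f, ∀ j, rk j < r → R j f := fun r => by
    induction r with
    | zero => exact ⟨fun _ => Classical.arbitrary X, fun j h => absurd h (by omega)⟩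
    | succ r ih =>
      obtain ⟨f, hf⟩ := ih
      by_cases q : ∃ i, rk i = r
      · obtain ⟨i, rfl⟩ := q
        obtain ⟨x, hx⟩ := step i f hf
        refine ⟨Function.update f i x, fun j hj => ?_⟩
        by_cases e : j = i
        · exact e ▸ hx
        · have l : rk j < rk i := lt_of_le_of_ne (by omega) fun k => e (inj k)
          exact loc j f _ (fun k hk => (Function.update_of_ne (fun e => by
            rw [e] at hk; omega) _ _).symm) (hf j l)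
      · exact ⟨f, fun j hj => hf j (lt_of_le_of_ne (by omega) fun k => q ⟨j, k⟩)⟩
  obtain ⟨b, hb⟩ := (Set.finite_range rk).bddAbove
  obtain ⟨f, hf⟩ := key (b + 1)
  exact ⟨f, fun i => hf i (Nat.lt_succ_of_le (hb ⟨i, rfl⟩))⟩

/-- every event kills at most one value -/
lemma avoid {ι : Type} (s : Finset ι) (μ : ι → ℕ) (α β : ι → ℤ) (P : ℕ)
    (h1 : ∀ i ∈ s, μ i = 0 ∨ (μ i).Prime ∧ P ≤ μ i)
    (h2 : ∀ i ∈ s, ¬ ((μ i : ℤ) ∣ α i ∧ (μ i : ℤ) ∣ β i)) (h3 : #s < P) :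
    ∃ t : ℕ, t < P ∧ ∀ i ∈ s, ¬ (μ i : ℤ) ∣ α i + β i * t := by
  classical
  by_contra n
  push Not at n
  have : Nonempty ι := ⟨(n 0 (by omega)).choose⟩
  choose! f f1 f2 using n
  obtain ⟨t, ht, t', ht', ne, e⟩ := exists_ne_map_eq_of_card_lt_of_maps_to (s := range P) (t := s)
    (f := f) (by simpa using h3) fun t ht => f1 t (mem_range.1 ht)
  have a := mem_range.1 ht
  have b := mem_range.1 ht'
  have d1 := f2 t a
  have d2 := f2 t' b
  rw [← e] at d2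
  have d : (μ (f t) : ℤ) ∣ β (f t) * ((t : ℤ) - t') := by
    have : β (f t) * ((t : ℤ) - t') = α (f t) + β (f t) * t - (α (f t) + β (f t) * t') := by ring
    exact this ▸ dvd_sub d1 d2
  have ne' : (t : ℤ) - t' ≠ 0 := sub_ne_zero.2 (by exact_mod_cast ne)
  have k : (μ (f t) : ℤ) ∣ β (f t) := by
    rcases h1 _ (f1 t a) with z | ⟨p, l⟩
    · rw [z, Nat.cast_zero, zero_dvd_iff] at d ⊢
      exact (mul_eq_zero.1 d).resolve_right ne'
    · refine ((Nat.prime_iff_prime_int.1 p).dvd_or_dvd d).resolve_right fun k => ?_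
      have := Int.le_of_dvd (abs_pos.2 ne') ((dvd_abs _ _).2 k)
      rcases abs_cases ((t : ℤ) - t') with q | q <;> omega
  exact h2 _ (f1 t a) ⟨(dvd_add_left (k.mul_right _)).1 d1, k⟩

/-- a prime not dividing the modulus -/
def Lg (m p : ℕ) : Prop := p.Prime ∧ ¬ p ∣ m

lemma Lg.dvd {m p : ℕ} (h : Lg m p) {a b : ℤ} (d : (p : ℤ) ∣ a * b) : (p : ℤ) ∣ a ∨ (p : ℤ) ∣ b :=
  (Nat.prime_iff_prime_int.1 h.1).dvd_or_dvd d

lemma Lg.nm {m p : ℕ} (h : Lg m p) : ¬ (p : ℤ) ∣ (m : ℤ) := fun d => h.2 (by exact_mod_cast d)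

lemma avoid2 {ι : Type} (s : Finset ι) (A α β : ι → ℤ) {m P w : ℕ} (hP : ∀ p, Lg m p → P ≤ p)
    (w0 : 0 < w) (hA : ∀ i ∈ s, |A i| < (P : ℤ) ^ w)
    (h0 : ∀ i ∈ s, A i = 0 → ¬ (α i = 0 ∧ β i = 0))
    (h1 : ∀ i ∈ s, A i ≠ 0 → ∀ p, Lg m p → (p : ℤ) ∣ A i → ¬ ((p : ℤ) ∣ α i ∧ (p : ℤ) ∣ β i))
    (h3 : #s * w < P) :
    ∃ t : ℕ, t < P ∧ (∀ i ∈ s, A i = 0 → α i + β i * t ≠ 0) ∧
      ∀ i ∈ s, A i ≠ 0 → ∀ p, Lg m p → (p : ℤ) ∣ A i → ¬ (p : ℤ) ∣ α i + β i * t := by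
  classical
  let Md : ι → Finset ℕ := fun i =>
    if A i = 0 then {0} else (A i).natAbs.primeFactors.filter fun p => ¬ p ∣ m
  have mem : ∀ i p, A i ≠ 0 → (p ∈ Md i ↔ Lg m p ∧ (p : ℤ) ∣ A i) := fun i p z => by
    simp only [Md, if_neg z, mem_filter, Nat.mem_primeFactors, Lg, Int.natCast_dvd]
    exact ⟨fun h => ⟨⟨h.1.1, h.2⟩, h.1.2.1⟩, fun h => ⟨⟨h.1.1, h.2, by simpa using z⟩, h.1.2⟩⟩
  have cd : ∀ i ∈ s, #(Md i) ≤ w := fun i hi => by
    by_cases z : A i = 0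
    · simp only [Md, if_pos z, card_singleton]; exact w0
    · have P1 : 1 < P := by
        have := card_pos.2 ⟨i, hi⟩
        nlinarith
      have a : P ^ #(Md i) ≤ ∏ p ∈ Md i, p := by
        rw [← prod_const]
        exact prod_le_prod' fun p hp => hP p ((mem i p z).1 hp).1
      have b : ∏ p ∈ Md i, p ∣ (A i).natAbs := by
        simp only [Md, if_neg z]
        exact (prod_dvd_prod_of_subset _ _ _ (filter_subset _ _)).trans (Nat.prod_primeFactors_dvd _)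
      have c := Nat.le_of_dvd (Int.natAbs_pos.2 z) b
      have d : (A i).natAbs < P ^ w := by
        have := hA i hi
        rw [← Int.natCast_natAbs] at this
        exact_mod_cast this
      exact ((Nat.pow_lt_pow_iff_right P1).1 (by omega : P ^ #(Md i) < P ^ w)).le
  obtain ⟨t, t1, t2⟩ := avoid (s.sigma Md) (fun x => x.2) (fun x => α x.1) (fun x => β x.1) P
    (fun x hx => by
      obtain ⟨a, b⟩ := mem_sigma.1 hx
      by_cases z : A x.1 = 0
      · left; simpa [Md, z] using b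
      · exact Or.inr ⟨((mem _ _ z).1 b).1.1, hP _ ((mem _ _ z).1 b).1⟩)
    (fun x hx => by
      obtain ⟨a, b⟩ := mem_sigma.1 hx
      by_cases z : A x.1 = 0
      · have : x.2 = 0 := by simpa [Md, z] using b
        simpa [this] using h0 _ a z
      · exact h1 _ a z _ ((mem _ _ z).1 b).1 ((mem _ _ z).1 b).2)
    (by rw [card_sigma]; exact (sum_le_card_nsmul _ _ _ cd).trans_lt h3)
  refine ⟨t, t1, fun i hi z => ?_, fun i hi z p l d =>
    t2 ⟨i, p⟩ (mem_sigma.2 ⟨hi, (mem i p z).2 ⟨l, d⟩⟩)⟩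
  simpa using t2 ⟨i, 0⟩ (mem_sigma.2 ⟨hi, by simp [Md, z]⟩)

/-- no large prime divides the outer coordinates -/
def Good (m : ℕ) (z : Z3) : Prop := ∀ p, Lg m p → ¬ ((p : ℤ) ∣ z 0 ∧ (p : ℤ) ∣ z 2)

/-- primitive at the large primes -/
def Prim (m : ℕ) (u : Z3) : Prop := ∀ p, Lg m p → ¬ ((p : ℤ) ∣ u 0 ∧ (p : ℤ) ∣ u 1 ∧ (p : ℤ) ∣ u 2)

lemma mul_bd {a b A B : ℤ} (h1 : |a| ≤ A) (h2 : |b| ≤ B) : |a * b| ≤ A * B := by
  rw [abs_mul]; exact mul_le_mul h1 h2 (abs_nonneg _) ((abs_nonneg _).trans h1)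

/-- choice of one normal -/
lemma pick {ι κ : Type} (S : Finset ι) (T : Finset κ) (z : ι → Z3) (u : κ → Z3) (b : Z3)
    {m P w : ℕ} {H : ℤ} (m0 : m ≠ 0) (hP : ∀ p, Lg m p → P ≤ p) (w0 : 0 < w) (H1 : 1 ≤ H)
    (hH : 16 * H ^ 5 < (P : ℤ) ^ w) (cnt : (1 + #S + #T + #T * #T) * w < P)
    (hb : ∀ k, |b k| + m * P ≤ H) (hz : ∀ i ∈ S, ∀ k, |z i k| ≤ H)
    (hu : ∀ j ∈ T, ∀ k, |u j k| ≤ 2 * H ^ 2) (gz : ∀ i ∈ S, Good m (z i))
    (z2 : ∀ i ∈ S, z i 2 ≠ 0) (n2 : ∀ t : ℤ, b 2 + m * t ≠ 0)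
    (nz : ∀ i ∈ S, ∀ t t' : ℤ, (b 1 + m * t) * z i 2 - (b 2 + m * t') * z i 1 ≠ 0)
    (pu : ∀ j ∈ T, Prim m (u j)) (u0 : ∀ j ∈ T, u j 0 ≠ 0)
    (uu : ∀ j ∈ T, ∀ j' ∈ T, j ≠ j' → zc (u j) (u j') ≠ 0) :
    ∃ n : Z3, (∀ k, ∃ t : ℕ, t < P ∧ n k = b k + m * t) ∧ Good m n ∧ (∀ i ∈ S, Prim m (zc n (z i))) ∧
      ∀ j ∈ T, ∀ j' ∈ T, j ≠ j' → ∀ p, Lg m p → ¬ ((p : ℤ) ∣ zd n (u j) ∧ (p : ℤ) ∣ zd n (u j')) := by
  classical
  have H2 : H ≤ H ^ 2 := le_self_pow₀ H1 (by norm_num)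
  have H5 : H ^ 2 ≤ H ^ 5 := pow_le_pow_right₀ H1 (by norm_num)
  have bd : ∀ k (t : ℕ), t < P → |b k + m * t| ≤ H := fun k t ht => by
    have : |(m : ℤ) * t| ≤ m * P := by
      rw [abs_of_nonneg (by positivity)]
      exact mul_le_mul_of_nonneg_left (by exact_mod_cast ht.le) (by positivity)
    linarith [abs_add_le (b k) (m * t), hb k]
  have od : #T.offDiag ≤ #T * #T := by rw [offDiag_card]; omega
  -- third coordinate
  obtain ⟨t2, l2, -, s2⟩ := avoid2 (S.disjSum T) (Sum.elim (fun i => z i 2) fun j => u j 0)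
    (fun _ => b 2) (fun _ => m) hP w0
    (by
      rintro (i | j) h
      · have := hz i (by simpa using h) 2
        simp only [Sum.elim_inl]; linarith
      · have := hu j (by simpa using h) 0
        simp only [Sum.elim_inr]; linarith)
    (fun _ _ _ h => m0 (by exact_mod_cast h.2)) (fun _ _ _ p l _ h => l.nm h.2)
    (by rw [card_disjSum]; exact lt_of_le_of_lt (Nat.mul_le_mul_right _ (by omega)) cnt)
  set c := b 2 + m * t2 with hc
  have cz : ∀ i ∈ S, ∀ p, Lg m p → (p : ℤ) ∣ z i 2 → ¬ (p : ℤ) ∣ c := fun i hi =>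
    s2 (Sum.inl i) (by simpa using hi) (z2 i hi)
  have cu : ∀ j ∈ T, ∀ p, Lg m p → (p : ℤ) ∣ u j 0 → ¬ (p : ℤ) ∣ c := fun j hj =>
    s2 (Sum.inr j) (by simpa using hj) (u0 j hj)
  have c0 : c ≠ 0 := n2 _
  have cb : |c| ≤ H := bd 2 _ l2
  -- second coordinate
  obtain ⟨t1, l1, r1, s1⟩ := avoid2 (T.disjSum T.offDiag) (Sum.elim (fun j => u j 0) fun _ => 0)
    (Sum.elim (fun j => u j 1 * b 1 + u j 2 * c) fun q =>
      b 1 * (u q.1 1 * u q.2 0 - u q.2 1 * u q.1 0) + c * (u q.1 2 * u q.2 0 - u q.2 2 * u q.1 0))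
    (Sum.elim (fun j => u j 1 * m) fun q => m * (u q.1 1 * u q.2 0 - u q.2 1 * u q.1 0)) hP w0
    (by
      rintro (j | q) h
      · have := hu j (by simpa using h) 0
        simp only [Sum.elim_inl]; linarith
      · simp only [Sum.elim_inr, abs_zero]; linarith)
    (by
      rintro (j | q) h e
      · exact absurd e (u0 j (by simpa using h))
      · obtain ⟨q1, q2, q3⟩ := mem_offDiag.1 (by simpa using h : q ∈ T.offDiag)
        simp only [Sum.elim_inr]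
        rintro ⟨e1, e2⟩
        have a := (mul_eq_zero.1 e2).resolve_left (by exact_mod_cast m0)
        rw [a, mul_zero, zero_add] at e1
        have a' := (mul_eq_zero.1 e1).resolve_left c0
        refine uu _ q1 _ q2 q3 ?_
        have a'' : u q.1 0 * (u q.1 1 * u q.2 2 - u q.1 2 * u q.2 1) = 0 := by
          linear_combination (u q.1 2) * a - (u q.1 1) * a'
        ext k
        fin_cases k
        · exact (mul_eq_zero.1 a'').resolve_left (u0 _ q1)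
        · exact (zc1 _ _).trans (show _ = (0 : ℤ) by linear_combination a')
        · exact (zc2 _ _).trans (show _ = (0 : ℤ) by linear_combination -a))
    (by
      rintro (j | q) h e p l d
      · have hj : j ∈ T := by simpa using h
        simp only [Sum.elim_inl] at d ⊢
        rintro ⟨d1, d2⟩
        have a := (l.dvd d2).resolve_right l.nm
        rcases l.dvd ((dvd_add_right (a.mul_right _)).1 d1) with k | k
        exacts [pu j hj p l ⟨d, a, k⟩, cu j hj p l d k]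
      · exact absurd rfl e)
    (by rw [card_disjSum]; exact lt_of_le_of_lt (Nat.mul_le_mul_right _ (by omega)) cnt)
  set g := b 1 + m * t1 with hg
  have gb : |g| ≤ H := bd 1 _ l1
  have gu : ∀ j ∈ T, ∀ p, Lg m p → (p : ℤ) ∣ u j 0 → ¬ (p : ℤ) ∣ u j 1 * g + u j 2 * c :=
    fun j hj p l d k => s1 (Sum.inl j) (by simpa using hj) (u0 j hj) p l d (by
      simp only [Sum.elim_inl]; convert k using 1; rw [hg]; ring)
  have gA : ∀ q ∈ T.offDiag,
      (u q.1 1 * g + u q.1 2 * c) * u q.2 0 - (u q.2 1 * g + u q.2 2 * c) * u q.1 0 ≠ 0 :=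
    fun q hq e => r1 (Sum.inr q) (by simpa using hq) rfl (by
      simp only [Sum.elim_inr]; rw [← e, hg]; ring)
  -- first coordinate
  obtain ⟨t0, l0, -, s0⟩ := avoid2 ((univ : Finset Unit).disjSum (S.disjSum T.offDiag))
    (Sum.elim (fun _ => c) (Sum.elim (fun i => g * z i 2 - c * z i 1) fun q =>
      (u q.1 1 * g + u q.1 2 * c) * u q.2 0 - (u q.2 1 * g + u q.2 2 * c) * u q.1 0))
    (Sum.elim (fun _ => b 0) (Sum.elim (fun i => c * z i 0 - b 0 * z i 2) fun q =>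
      u q.1 0 * b 0 + (u q.1 1 * g + u q.1 2 * c)))
    (Sum.elim (fun _ => m) (Sum.elim (fun i => - (m * z i 2)) fun q => u q.1 0 * m)) hP w0
    (by
      rintro (_ | i | q) h
      · simp only [Sum.elim_inl]; linarith
      · have hi : i ∈ S := by simpa using h
        simp only [Sum.elim_inr, Sum.elim_inl]
        linarith [abs_sub (g * z i 2) (c * z i 1), mul_bd gb (hz i hi 2), mul_bd cb (hz i hi 1),
          sq H]
      · obtain ⟨q1, q2, -⟩ := mem_offDiag.1 (by simpa using h : q ∈ T.offDiag)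
        simp only [Sum.elim_inr]
        have k : ∀ j ∈ T, |u j 1 * g + u j 2 * c| ≤ 2 * H ^ 2 * H + 2 * H ^ 2 * H := fun j hj =>
          (abs_add_le _ _).trans (add_le_add (mul_bd (hu j hj 1) gb) (mul_bd (hu j hj 2) cb))
        have k1 := mul_bd (k _ q1) (hu _ q2 0)
        have k2 := mul_bd (k _ q2) (hu _ q1 0)
        refine (abs_sub _ _).trans_lt (lt_of_le_of_lt ?_ hH)
        linarith [show (2 * H ^ 2 * H + 2 * H ^ 2 * H) * (2 * H ^ 2) = 8 * H ^ 5 by ring])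
    (by
      rintro (_ | i | q) h e
      · exact absurd e c0
      · exact absurd e (nz i (by simpa using h) _ _)
      · exact absurd e (gA q (by simpa using h)))
    (by
      rintro (_ | i | q) h - p l -
      · exact fun k => l.nm k.2
      · have hi : i ∈ S := by simpa using h
        simp only [Sum.elim_inr, Sum.elim_inl]
        rintro ⟨d1, d2⟩
        have a := (l.dvd (dvd_neg.1 d2)).resolve_left l.nm
        rcases l.dvd ((dvd_sub_left (a.mul_left _)).1 d1) with k | k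
        exacts [cz i hi p l a k, gz i hi p l ⟨k, a⟩]
      · obtain ⟨q1, -, -⟩ := mem_offDiag.1 (by simpa using h : q ∈ T.offDiag)
        simp only [Sum.elim_inr]
        rintro ⟨d1, d2⟩
        have a := (l.dvd d2).resolve_right l.nm
        exact gu _ q1 p l a ((dvd_add_right (a.mul_right _)).1 d1))
    (by
      rw [card_disjSum, card_disjSum]
      exact lt_of_le_of_lt (Nat.mul_le_mul_right _ (by simp only [card_univ, Fintype.card_unit]; omega)) cnt)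
  refine ⟨![b 0 + m * t0, g, c], fun k => ?_, fun p l k => ?_, fun i hi p l k => ?_,
    fun j hj j' hj' ne p l k => ?_⟩
  · fin_cases k
    exacts [⟨t0, l0, rfl⟩, ⟨t1, l1, rfl⟩, ⟨t2, l2, rfl⟩]
  · exact s0 (Sum.inl ()) (by simp) c0 p l k.2 k.1
  · refine s0 (Sum.inr (Sum.inl i)) (by simpa using hi) (nz i hi _ _) p l k.1 ?_
    convert k.2.1 using 1
    simp [zc1]; ring
  · have hq : (j, j') ∈ T.offDiag := mem_offDiag.2 ⟨hj, hj', ne⟩
    refine s0 (Sum.inr (Sum.inr (j, j'))) (by simpa using hq) (gA _ hq) p l ?_ ?_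
    · have : zd ![b 0 + m * t0, g, c] (u j) * u j' 0 - zd ![b 0 + m * t0, g, c] (u j') * u j 0
          = (u j 1 * g + u j 2 * c) * u j' 0 - (u j' 1 * g + u j' 2 * c) * u j 0 := by
        simp [zd]; ring
      have k' := dvd_sub (k.1.mul_right (u j' 0)) (k.2.mul_right (u j 0))
      rw [this] at k'
      exact k'
    · have : zd ![b 0 + m * t0, g, c] (u j) = u j 0 * b 0 + (u j 1 * g + u j 2 * c) + u j 0 * m * t0 := by
        simp [zd]; ring
      have k' := k.1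
      rw [this] at k'
      exact k'

/-- Chinese remainder theorem near a target -/
lemma crt {ι : Type} (s : Finset ι) (e r : ι → ℤ) (E γ : ℤ) (e0 : ∀ i ∈ s, e i ≠ 0)
    (eb : ∀ i ∈ s, |e i| ≤ E) (co : ∀ i ∈ s, ∀ j ∈ s, i ≠ j → IsCoprime (e i) (e j)) :
    ∃ c, |c - γ| ≤ E ^ #s ∧ ∀ i ∈ s, e i ∣ c - r i := by
  obtain ⟨c0, h⟩ := Ideal.exists_forall_sub_mem_ideal (ι := s) (I := fun i => Ideal.span {e i})
    (fun i j ne => (Ideal.isCoprime_span_singleton_iff _ _).2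
      (co i i.2 j j.2 fun k => ne (Subtype.ext k))) fun i => r i
  have M0 : ∏ i ∈ s, e i ≠ 0 := prod_ne_zero_iff.2 e0
  refine ⟨γ - (γ - c0) % ∏ i ∈ s, e i, ?_, fun i hi => ?_⟩
  · rw [sub_sub_cancel_left, abs_neg, abs_of_nonneg (Int.emod_nonneg _ M0)]
    refine (Int.emod_lt_abs _ M0).le.trans ?_
    rw [abs_prod, ← prod_const]
    exact prod_le_prod (fun _ _ => abs_nonneg _) eb
  · have a := Ideal.mem_span_singleton.1 (h ⟨i, hi⟩)
    have b : e i ∣ γ - c0 - (γ - c0) % ∏ i ∈ s, e i :=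
      (dvd_prod_of_mem e hi).trans Int.dvd_self_sub_emod
    have : γ - (γ - c0) % ∏ i ∈ s, e i - r i = c0 - r i + (γ - c0 - (γ - c0) % ∏ i ∈ s, e i) := by ring
    exact this ▸ dvd_add a b

lemma cop_of {m : ℕ} {a b : ℤ} (ha : ∀ p : ℕ, p.Prime → (p : ℤ) ∣ a → Lg m p)
    (h : ∀ p, Lg m p → ¬ ((p : ℤ) ∣ a ∧ (p : ℤ) ∣ b)) : IsCoprime a b := by
  rw [Int.isCoprime_iff_gcd_eq_one]
  by_contra n
  obtain ⟨p, pp, d⟩ := Nat.exists_prime_and_dvd n
  have d' : (p : ℤ) ∣ (Int.gcd a b : ℤ) := by exact_mod_cast d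
  have d1 := d'.trans (Int.gcd_dvd_left a b)
  exact h p (ha p pp d1) ⟨d1, d'.trans (Int.gcd_dvd_right a b)⟩

/-- two congruences -/
lemma two_cong {m : ℕ} {e : ℤ} (he : ∀ p : ℕ, p.Prime → (p : ℤ) ∣ e → Lg m p) {x y : Z3}
    (h : Prim m (zc x y)) (a b : ℤ) : ∃ v : Z3, e ∣ a - zd x v ∧ e ∣ b - zd y v := by
  set u := zc x y with hu
  have co : IsCoprime e (Int.gcd (u 0) (Int.gcd (u 1) (u 2) : ℤ) : ℤ) := cop_of he fun p l k =>
    h p l ⟨k.2.trans (Int.gcd_dvd_left _ _),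
      (k.2.trans (Int.gcd_dvd_right _ _)).trans (Int.gcd_dvd_left _ _),
      (k.2.trans (Int.gcd_dvd_right _ _)).trans (Int.gcd_dvd_right _ _)⟩
  obtain ⟨s, t, e1⟩ := co
  rw [Int.gcd_eq_gcd_ab] at e1
  generalize (u 0).gcdA _ = g0, (u 0).gcdB _ = g1 at e1
  rw [Int.gcd_eq_gcd_ab] at e1
  generalize (u 1).gcdA _ = g2, (u 1).gcdB _ = g3 at e1
  simp only [hu, zc0, zc1, zc2] at e1
  set τ : Z3 := ![t * g0, t * g1 * g2, t * g1 * g3] with hτ
  refine ⟨fun k => a * zc y τ k + b * zc τ x k, ⟨a * s, ?_⟩, ⟨b * s, ?_⟩⟩ <;>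
    simp [zd, zc0, zc1, zc2, hτ]
  · linear_combination (-a) * e1
  · linear_combination (-b) * e1

/-- integral intersection point -/
lemma solve {x y z v : Z3} {a b c W W' e : ℤ} (hd : zd x (zc y z) = W * e) (h1 : e ∣ a - zd x v)
    (h2 : e ∣ b - zd y v) (h3 : e ∣ c - zd z v) :
    ∃ p : Z3, zd x p = W * W' * a ∧ zd y p = W * W' * b ∧ zd z p = W * W' * c := by
  obtain ⟨r1, h1⟩ := h1
  obtain ⟨r2, h2⟩ := h2
  obtain ⟨r3, h3⟩ := h3
  refine ⟨fun k => W * W' * v k + W' * (r1 * zc y z k + r2 * zc z x k + r3 * zc x y k), ?_, ?_, ?_⟩ <;>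
    simp only [zd, zc0, zc1, zc2] at *
  · linear_combination (W' * r1) * hd - (W * W') * h1
  · linear_combination (W' * r2) * hd - (W * W') * h2
  · linear_combination (W' * r3) * hd - (W * W') * h3

end Pool.Agent.Lib.MP_d5dfc1_co.Sq
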